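import Pool.Agent.Lib.MP_79abb3_an.FW.Kap

/-!
FW-25: a continuity argument; the structure of the a priori bounds.
-/

set_option autoImplicit false
set_option linter.unusedSectionVars false

open MeasureTheory Set Filter Topology Function

namespace Pool.Agent.Lib.MP_79abb3_an.FW

open Pool.Agent.Lib.MP_79abb3_an.P25

section
variable {H : ℝ} [hH : Fact (0 < H)]

theorem boot {b p q p' q' : ℝ} {F G : ℝ → ℝ} (cF : ContinuousOn F (Icc 0 b))
    (cG : ContinuousOn G (Icc 0 b)) (hp : p' < p) (hq : q' < q) (F0 : F 0 ≤ p) (G0 : G 0 ≤ q)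
    (h : ∀ t ∈ Icc 0 b, (∀ s ∈ Icc 0 t, F s ≤ p ∧ G s ≤ q) → F t ≤ p' ∧ G t ≤ q') :
    ∀ t ∈ Icc 0 b, F t ≤ p' ∧ G t ≤ q' := by
  have cΦ : ContinuousOn (fun t => max (F t - p) (G t - q)) (Icc 0 b) :=
    ContinuousOn.sup (cF.sub continuousOn_const) (cG.sub continuousOn_const)
  have key : ∀ t ∈ Icc 0 b, max (F t - p) (G t - q) ≤ 0 := by
    by_contra hcon
    push Not at hcon
    obtain ⟨t1, ht1, h1⟩ := hcon
    have c1 : ContinuousOn (fun t => max (F t - p) (G t - q)) (Icc 0 t1) :=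
      cΦ.mono (Icc_subset_Icc le_rfl ht1.2)
    have h0 : max (F 0 - p) (G 0 - q) ≤ 0 := max_le (by linarith) (by linarith)
    have hz : (0:ℝ) ∈ (fun t => max (F t - p) (G t - q)) '' Icc 0 t1 :=
      intermediate_value_Icc ht1.1 c1 ⟨h0, h1.le⟩
    have hZcl : IsClosed (Icc 0 t1 ∩ (fun t => max (F t - p) (G t - q)) ⁻¹' {0}) :=
      c1.preimage_isClosed_of_isClosed isClosed_Icc isClosed_singleton
    have hZc : IsCompact (Icc 0 t1 ∩ (fun t => max (F t - p) (G t - q)) ⁻¹' {0}) :=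
      isCompact_Icc.of_isClosed_subset hZcl inter_subset_left
    have hne : (Icc 0 t1 ∩ (fun t => max (F t - p) (G t - q)) ⁻¹' {0}).Nonempty := by
      obtain ⟨c, hc, hc0⟩ := hz
      exact ⟨c, hc, hc0⟩
    obtain ⟨c, hcZ, hcmin⟩ := hZc.exists_isLeast hne
    have hc0 : max (F c - p) (G c - q) = 0 := hcZ.2
    have hneg : ∀ s ∈ Icc 0 c, max (F s - p) (G s - q) ≤ 0 := by
      intro s hs
      by_contra hpos
      push Not at hpos
      have c2 : ContinuousOn (fun t => max (F t - p) (G t - q)) (Icc 0 s) :=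
        c1.mono (Icc_subset_Icc le_rfl (hs.2.trans hcZ.1.2))
      obtain ⟨c', hc', hc'0⟩ := intermediate_value_Icc hs.1 c2 ⟨h0, hpos.le⟩
      have h3 : c ≤ c' := hcmin ⟨⟨hc'.1, hc'.2.trans (hs.2.trans hcZ.1.2)⟩, hc'0⟩
      have h4 : c' = s := le_antisymm hc'.2 (hs.2.trans h3)
      rw [h4] at hc'0
      simp only at hc'0
      linarith
    have h5 := h c ⟨hcZ.1.1, hcZ.1.2.trans ht1.2⟩ (fun s hs => by
      have := hneg s hs
      rw [max_le_iff] at this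
      exact ⟨by linarith [this.1], by linarith [this.2]⟩)
    have h6 : max (F c - p) (G c - q) < 0 := max_lt (by linarith [h5.1]) (by linarith [h5.2])
    linarith
  intro t ht
  apply h t ht
  intro s hs
  have := key s ⟨hs.1, hs.2.trans ht.2⟩
  rw [max_le_iff] at this
  exact ⟨by linarith [this.1], by linarith [this.2]⟩

/-- The a priori bounds of paper 196, section 3. -/
structure AB (ω : ℝ) (N : ℕ) (Θ C b : ℝ) (A : ℝ → ℝ) (x : ℝ → L1 (Xn H)) : Prop where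
  y1 : ∀ t ∈ Icc 0 b, yy (x t) ≤ 1
  y2 : ∀ t ∈ Icc 0 b, yy (x t) ≤ yy (x 0) + C * b ^ (1 / 8 : ℝ)
  th : ∀ t ∈ Icc 0 b, th2 (x t) + ∫ s in (0:ℝ)..t, dd2 (x s) ≤ Θ ^ 2 + 1
  be : ∫ s in (0:ℝ)..b, bt ω (x s) ^ 8 ≤ C
  k0 : ∀ t ∈ Icc 0 b, K0 (ω * N) (A t) (x t) ≤ C * Real.exp (-√(ω * N))
  k1 : ∀ t ∈ Icc 0 b, K1 (ω * N) (A t) (x t) ≤ C * Real.exp (-√(ω * N))
  k2 : ∀ t ∈ Icc 0 b, K2 (ω * N) (muu (ω * N)) (A t) (x t) ≤ C * Real.exp (-√(ω * N))

end

end Pool.Agent.Lib.MP_79abb3_an.FW
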