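import Pool.Agent.Lib.MP_79abb3_an.FW.BtA

/-!
FW-26a: `∫ β⁸`.
-/

set_option autoImplicit false
set_option linter.unusedSectionVars false

attribute [-instance] SubfieldClass.toSubringClass WithIdeal.instTopologicalSpace
  WithIdeal.instUniformSpace
  IsValuativeTopology.instValuedValueGroupWithZeroOfIsUniformAddGroup

open MeasureTheory Set Filter Topology Function

namespace Pool.Agent.Lib.MP_79abb3_an.FW

open Pool.Agent.Lib.MP_79abb3_an.P25

section
variable {H : ℝ} [hH : Fact (0 < H)]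

/-- `∫ β⁸` -/
theorem be_int {ω : ℝ} (hω : 0 < ω) {Θ : ℝ} : ∃ C, 1 ≤ C ∧
    ∀ {N : ℕ} {A A1 : ℝ → ℝ} {b : ℝ} {x : ℝ → L1 (Xn H)}, 0 ≤ b → b ≤ 1 → CS ω N A A1 0 b x →
    (∀ t ∈ Icc 0 b, th2 (x t) + ∫ s in (0:ℝ)..t, dd2 (x s) ≤ Θ ^ 2 + 2) →
    ∀ t ∈ Icc 0 b, ∫ s in (0:ℝ)..t, bt ω (x s) ^ 8 ≤ C := by
  obtain ⟨C, hC0, hC⟩ := bt_le (H := H) hω
  obtain ⟨B, hB⟩ : ∃ B, B = Θ ^ 2 + 2 := ⟨_, rfl⟩
  have hB0 : 0 ≤ B := by rw [hB]; positivity
  refine ⟨max 1 (C * B ^ 3 * (B + B)), le_max_left _ _, ?_⟩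
  intro N A A1 b x hb0 hb1 hcs hbd t ht
  refine le_trans ?_ (le_max_right _ _)
  rw [← hB] at hbd
  have hd0 : ∀ y : ℤ → Xn H, 0 ≤ dd2 y := fun y =>
    tsum_nonneg fun n => add_nonneg (sq_nonneg _) (sq_nonneg _)
  have ht0 : ∀ y : ℤ → Xn H, 0 ≤ th2 y := fun y => tsum_nonneg fun n => sq_nonneg _
  have hsub : ∀ s ∈ Icc 0 b, Icc 0 s ⊆ Icc 0 b := fun s hs => Icc_subset_Icc le_rfl hs.2
  have hth : ∀ s ∈ Icc 0 b, th2 (x s) ≤ B := by
    intro s hs
    have h1 := hbd s hs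
    have h2 : 0 ≤ ∫ u in (0:ℝ)..s, dd2 (x u) :=
      intervalIntegral.integral_nonneg hs.1 fun u _ => hd0 _
    linarith
  have hdd : ∫ u in (0:ℝ)..t, dd2 (x u) ≤ B := by
    have h1 := hbd t ht
    have h2 := ht0 (x t)
    linarith
  have hx : ContinuousOn x (Icc 0 t) := hcs.c.mono (hsub t ht)
  have c0 : ContinuousOn (fun s => bt ω (x s)) (Icc 0 t) :=
    Continuous.comp_continuousOn (g := fun y : L1 (Xn H) => bt ω y) (f := x) (bt_cont ω) hx
  have c1 : ContinuousOn (fun s => bt ω (x s) ^ 8) (Icc 0 t) := c0.pow 8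
  have c2 : ContinuousOn (fun s => dd2 (x s)) (Icc 0 t) :=
    Continuous.comp_continuousOn (g := fun y : L1 (Xn H) => dd2 y) (f := x) dd2_cont hx
  have i2 : IntervalIntegrable (fun s => dd2 (x s)) volume 0 t :=
    c2.intervalIntegrable_of_Icc ht.1
  have i1 : IntervalIntegrable (fun s => bt ω (x s) ^ 8) volume 0 t :=
    c1.intervalIntegrable_of_Icc ht.1
  have i3 : IntervalIntegrable (fun s => C * B ^ 3 * (B + dd2 (x s))) volume 0 t :=
    ((intervalIntegrable_const (c := B)).add i2).const_mul _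
  calc ∫ s in (0:ℝ)..t, bt ω (x s) ^ 8 ≤ ∫ s in (0:ℝ)..t, C * B ^ 3 * (B + dd2 (x s)) := by
        refine intervalIntegral.integral_mono_on ht.1 i1 i3 fun s hs => ?_
        have hs' : s ∈ Icc 0 b := hsub t ht hs
        have h1 := hC (x s) fun n => (hcs.cm s hs' n).e1
        have h2 : th2 (x s) ^ 3 ≤ B ^ 3 := pow_le_pow_left₀ (ht0 _) (hth s hs') 3
        have h3 : th2 (x s) + dd2 (x s) ≤ B + dd2 (x s) := by
          have := hth s hs'
          linarith
        refine h1.trans ?_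
        refine mul_le_mul (mul_le_mul_of_nonneg_left h2 hC0) h3
          (add_nonneg (ht0 _) (hd0 _)) (by positivity)
    _ = C * B ^ 3 * (t * B + ∫ s in (0:ℝ)..t, dd2 (x s)) := by
        rw [intervalIntegral.integral_const_mul, intervalIntegral.integral_add
          intervalIntegrable_const i2, intervalIntegral.integral_const, sub_zero, smul_eq_mul]
    _ ≤ C * B ^ 3 * (B + B) := by
        refine mul_le_mul_of_nonneg_left (add_le_add ?_ hdd) (by positivity)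
        have : t ≤ 1 := ht.2.trans hb1
        nlinarith [ht.1]

end

end Pool.Agent.Lib.MP_79abb3_an.FW
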