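import Mathlib

/-!
FW-15a: sums of functions of time, Gronwall.
-/

set_option autoImplicit false
set_option linter.unusedSectionVars false

open MeasureTheory Set Filter Topology Function

namespace Pool.Agent.Lib.MP_79abb3_an.FW


private theorem SA_interchange {c d R : ℝ} (hcd : c ≤ d) {e' : ℤ → ℝ → ℝ}
    (ce : ∀ n, ContinuousOn (e' n) (Icc c d))
    (he : ∀ t ∈ Icc c d, (Summable fun n => |e' n t|) ∧ ∑' n, |e' n t| ≤ R) :
    IntervalIntegrable (fun t => ∑' n, e' n t) volume c d ∧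
      HasSum (fun n => ∫ t in c..d, e' n t) (∫ t in c..d, ∑' n, e' n t) := by
  have hint : ∀ n, Integrable (e' n) (volume.restrict (Ioc c d)) := fun n =>
    ((ce n).integrableOn_Icc).mono_set Ioc_subset_Icc_self
  have hmem : ∀ᵐ t ∂(volume.restrict (Ioc c d)), t ∈ Icc c d := by
    filter_upwards [ae_restrict_mem measurableSet_Ioc] with t ht
    exact ⟨ht.1.le, ht.2⟩
  have hsum : Summable fun n => ∫ t in Ioc c d, ‖e' n t‖ := by
    refine summable_of_sum_le (c := ∫ _ in Ioc c d, R) (fun n => integral_nonneg fun t => norm_nonneg _)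
      fun u => ?_
    rw [← integral_finsetSum u fun n _ => (hint n).norm]
    refine integral_mono_ae (integrable_finsetSum u fun n _ => (hint n).norm)
      (integrable_const R) ?_
    filter_upwards [hmem] with t ht
    exact ((he t ht).1.sum_le_tsum u fun n _ => abs_nonneg _).trans (he t ht).2
  have hR : ∀ t ∈ Icc c d, ‖∑' n, e' n t‖ ≤ R := by
    intro t ht
    have h1 : Summable fun n => ‖e' n t‖ := (he t ht).1
    exact (norm_tsum_le_tsum_norm h1).trans (he t ht).2
  have hmeas : AEStronglyMeasurable (fun t => ∑' n, e' n t) (volume.restrict (Ioc c d)) := by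
    refine aestronglyMeasurable_of_tendsto_ae (u := (atTop : Filter (Finset ℤ)))
      (f := fun u t => ∑ n ∈ u, e' n t) (fun u => ?_) ?_
    · exact (integrable_finsetSum u fun n _ => hint n).aestronglyMeasurable
    · filter_upwards [hmem] with t ht
      have h1 : Summable fun n => e' n t := (he t ht).1.of_abs
      exact h1.hasSum
  have hI : Integrable (fun t => ∑' n, e' n t) (volume.restrict (Ioc c d)) := by
    refine Integrable.mono' (integrable_const R) hmeas ?_
    filter_upwards [hmem] with t ht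
    exact hR t ht
  refine ⟨(intervalIntegrable_iff_integrableOn_Ioc_of_le hcd).2 hI, ?_⟩
  have h := hasSum_integral_of_summable_integral_norm hint hsum
  simp only [intervalIntegral.integral_of_le hcd]
  exact h

private theorem SA_prim {b : ℝ} (hb : 0 ≤ b) {f : ℝ → ℝ} (cf : ContinuousOn f (Icc 0 b)) :
    ContinuousOn (fun t => ∫ r in (0:ℝ)..t, f r) (Icc 0 b) ∧
      ∀ x ∈ Ioo 0 b, HasDerivAt (fun t => ∫ r in (0:ℝ)..t, f r) (f x) x := by
  constructor
  · have h := intervalIntegral.continuousOn_primitive_interval (μ := volume) (f := f) (a := 0)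
      (b := b) (by rw [uIcc_of_le hb]; exact cf.integrableOn_Icc)
    rwa [uIcc_of_le hb] at h
  · intro x hx
    have hx' : x ∈ Icc 0 b := ⟨hx.1.le, hx.2.le⟩
    refine intervalIntegral.integral_hasDerivAt_right ?_ ?_ ?_
    · refine ContinuousOn.intervalIntegrable ?_
      rw [uIcc_of_le hx.1.le]
      exact cf.mono (Icc_subset_Icc_right hx.2.le)
    · exact (cf.mono Ioo_subset_Icc_self).stronglyMeasurableAtFilter isOpen_Ioo x hx
    · exact cf.continuousAt (Icc_mem_nhds hx.1 hx.2)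

section
variable {H : ℝ} [hH : Fact (0 < H)]

/-- Termwise integration. -/
theorem sum_ftc {a b R : ℝ} (hab : a ≤ b) {e e' : ℤ → ℝ → ℝ}
    (de : ∀ n, ∀ t ∈ Icc a b, HasDerivWithinAt (e n) (e' n t) (Icc a b) t)
    (ce : ∀ n, ContinuousOn (e' n) (Icc a b))
    (se : ∀ t ∈ Icc a b, Summable fun n => e n t)
    (he : ∀ t ∈ Icc a b, (Summable fun n => |e' n t|) ∧ ∑' n, |e' n t| ≤ R) :
    IntervalIntegrable (fun t => ∑' n, e' n t) volume a b ∧
    ∀ t1 ∈ Icc a b, ∀ t2 ∈ Icc t1 b,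
      (∑' n, e n t2) - (∑' n, e n t1) = ∫ t in t1..t2, ∑' n, e' n t := by
  refine ⟨(SA_interchange hab ce he).1, ?_⟩
  intro t1 ht1 t2 ht2
  have hsub : Icc t1 t2 ⊆ Icc a b := Icc_subset_Icc ht1.1 ht2.2
  have ht2' : t2 ∈ Icc a b := ⟨ht1.1.trans ht2.1, ht2.2⟩
  have h := (SA_interchange ht2.1 (fun n => (ce n).mono hsub) fun t ht => he t (hsub ht)).2
  have hftc : ∀ n, ∫ t in t1..t2, e' n t = e n t2 - e n t1 := by
    intro n
    refine intervalIntegral.integral_eq_sub_of_hasDerivAt_of_le ht2.1 ?_ ?_ ?_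
    · exact fun t ht => ((de n t (hsub ht)).continuousWithinAt).mono hsub
    · intro t ht
      exact (de n t (hsub ⟨ht.1.le, ht.2.le⟩)).hasDerivAt
        (Icc_mem_nhds (ht1.1.trans_lt ht.1) (ht.2.trans_le ht2.2))
    · refine ContinuousOn.intervalIntegrable ?_
      rw [uIcc_of_le ht2.1]
      exact (ce n).mono hsub
  simp only [hftc] at h
  rw [← (se t2 ht2').tsum_sub (se t1 ht1)]
  exact h.tsum_eq

/-- Gronwall's inequality in integral form. -/
theorem gron {b : ℝ} (hb : 0 ≤ b) {E α γ : ℝ → ℝ} (cE : ContinuousOn E (Icc 0 b))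
    (cα : ContinuousOn α (Icc 0 b)) (cγ : ContinuousOn γ (Icc 0 b)) (hα : ∀ t ∈ Icc 0 b, 0 ≤ α t)
    (hγ : ∀ t ∈ Icc 0 b, 0 ≤ γ t) (hE : ∀ t ∈ Icc 0 b, 0 ≤ E t)
    (h : ∀ t ∈ Icc 0 b, E t ≤ E 0 + ∫ r in (0:ℝ)..t, (α r * E r + γ r)) :
    ∀ t ∈ Icc 0 b, E t ≤ (E 0 + ∫ r in (0:ℝ)..t, γ r) * Real.exp (∫ r in (0:ℝ)..t, α r) := by
  obtain ⟨cA, dA⟩ := SA_prim hb cα
  obtain ⟨cG, dG⟩ := SA_prim hb cγ
  obtain ⟨cU, dU⟩ := SA_prim hb (f := fun r => α r * E r + γ r) ((cα.mul cE).add cγ)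
  set A : ℝ → ℝ := fun t => ∫ r in (0:ℝ)..t, α r with hA
  set G : ℝ → ℝ := fun t => ∫ r in (0:ℝ)..t, γ r with hG
  set U : ℝ → ℝ := fun t => ∫ r in (0:ℝ)..t, (α r * E r + γ r) with hU
  have hAnn : ∀ t ∈ Icc 0 b, 0 ≤ A t := fun t ht =>
    intervalIntegral.integral_nonneg ht.1 fun r hr => hα r ⟨hr.1, hr.2.trans ht.2⟩
  have hanti : AntitoneOn (fun t => (E 0 + U t) * Real.exp (-A t) - G t) (Icc 0 b) := by
    have hder : ∀ x ∈ Ioo 0 b, HasDerivAt (fun t => (E 0 + U t) * Real.exp (-A t) - G t)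
        ((α x * E x + γ x) * Real.exp (-A x) + (E 0 + U x) * (Real.exp (-A x) * (-α x)) - γ x) x := by
      intro x hx
      exact (((dU x hx).const_add (E 0)).mul ((dA x hx).neg.exp)).sub (dG x hx)
    refine antitoneOn_of_deriv_nonpos (convex_Icc 0 b) ?_ ?_ ?_
    · exact ((continuousOn_const.add cU).mul (Real.continuous_exp.comp_continuousOn cA.neg)).sub cG
    · rw [interior_Icc]
      exact fun x hx => (hder x hx).differentiableAt.differentiableWithinAt
    · rw [interior_Icc]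
      intro x hx
      rw [(hder x hx).deriv]
      have hx' : x ∈ Icc 0 b := ⟨hx.1.le, hx.2.le⟩
      have h1 := h x hx'
      have h2 : E x ≤ E 0 + U x := h1
      have h3 := hα x hx'
      have h4 := hγ x hx'
      have h5 : Real.exp (-A x) ≤ 1 := Real.exp_le_one_iff.2 (by linarith [hAnn x hx'])
      have h6 := Real.exp_pos (-A x)
      have h7 : (α x * E x + γ x) * Real.exp (-A x) + (E 0 + U x) * (Real.exp (-A x) * (-α x)) - γ x
          = -(α x * (E 0 + U x - E x) * Real.exp (-A x)) - γ x * (1 - Real.exp (-A x)) := by ring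
      rw [h7]
      have h8 : 0 ≤ α x * (E 0 + U x - E x) * Real.exp (-A x) :=
        mul_nonneg (mul_nonneg h3 (by linarith)) h6.le
      have h9 : 0 ≤ γ x * (1 - Real.exp (-A x)) := mul_nonneg h4 (by linarith)
      linarith
  intro t ht
  have h0 : (0:ℝ) ∈ Icc 0 b := ⟨le_rfl, hb⟩
  have h1 := hanti h0 ht ht.1
  simp only [hU, hA, hG, intervalIntegral.integral_same, add_zero, neg_zero, Real.exp_zero, mul_one,
    sub_zero] at h1
  have h2 : (E 0 + U t) * Real.exp (-A t) ≤ E 0 + G t := by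
    simp only [hU, hA, hG]
    linarith
  have h3 : E 0 + U t ≤ (E 0 + G t) * Real.exp (A t) := by
    have h4 := mul_le_mul_of_nonneg_right h2 (Real.exp_pos (A t)).le
    rwa [mul_assoc, ← Real.exp_add, neg_add_cancel, Real.exp_zero, mul_one] at h4
  exact (h t ht).trans h3

end

end Pool.Agent.Lib.MP_79abb3_an.FW
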