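import Pool.Agent.Lib.MP_79abb3_an.FW.VelA

/-!
FW-5c: the three parts of the total velocity.
-/

set_option autoImplicit false
set_option linter.unusedSectionVars false
set_option linter.unusedVariables false

open MeasureTheory Set Filter Topology Function

namespace Pool.Agent.Lib.MP_79abb3_an.FW

open Pool.Agent.Lib.MP_79abb3_an.P25

section
variable {H : ℝ} [hH : Fact (0 < H)]

private theorem vC_sN_abs {ω : ℝ} {N : ℕ} (hω : 0 < ω) (n : ℤ) :
    |ω * n| * sN N n = ω * N * sN N n := by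
  unfold sN
  split_ifs with h1 h2
  · rw [h1]
    have : (0 : ℝ) ≤ ω * ((N : ℤ) : ℝ) := by positivity
    rw [abs_of_nonneg this]
    push_cast
    rfl
  · rw [h2]
    have : (0 : ℝ) ≤ ω * ((N : ℤ) : ℝ) := by positivity
    push_cast at this ⊢
    rw [mul_neg ω, abs_neg, abs_of_nonneg this]
  · rw [mul_zero, mul_zero]

private theorem vC_sN_cube (N : ℕ) (n : ℤ) : sN N n ^ 3 = sN N n := by
  unfold sN
  split_ifs <;> norm_num

private theorem vC_sign {ω : ℝ} {N : ℕ} (hω : 0 < ω) (hN : 1 ≤ N) (n : ℤ) :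
    Real.sign (ω * n) * sN N n = sN N n ^ 2 := by
  have hN' : (0 : ℝ) < N := by exact_mod_cast hN
  unfold sN
  split_ifs with h1 h2
  · rw [h1]
    have : (0 : ℝ) < ω * ((N : ℤ) : ℝ) := by push_cast; positivity
    rw [Real.sign_of_pos this]
    norm_num
  · rw [h2]
    have : ω * ((-(N : ℤ) : ℤ) : ℝ) < 0 := by
      push_cast
      have := mul_pos hω hN'
      linarith
    rw [Real.sign_of_neg this]
    norm_num
  · norm_num

private theorem vC_fexp_isD (m : ℝ) (c : ℂ) :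
    IsD (c • (fexp m : CI H)) ((c * (m : ℂ)) • (fexp m : CI H)) := by
  intro z hz
  have h1 := ((hasDerivAt_cexp m z).const_mul c).hasDerivWithinAt (s := Icc 0 H)
  have h2 : ∀ y ∈ Icc (0:ℝ) H, ex (c • (fexp m : CI H)) y = c * ((Real.exp (m * y) : ℝ) : ℂ) := by
    intro y hy
    rw [ex_smul, fexp, ex_rc _ _ hy]
  refine (h1.congr h2 (h2 z hz)).congr_deriv ?_
  rw [ex_smul, fexp, ex_rc _ _ hz]
  push_cast
  ring

private theorem vC_pu_zero {ω : ℝ} {N : ℕ} (a : ℝ) {n : ℤ} (h : sN N n = 0) :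
    (pu ω N a n : Xn H) = 0 := by
  have e1 : (Complex.I * ((a / 2 * sN N n : ℝ) : ℂ)) = 0 := by rw [h]; simp
  have e2 : (Complex.I * ((a / 2 * sN N n * (ω * N) : ℝ) : ℂ)) = 0 := by rw [h]; simp
  unfold pu vx
  have z1 : (0 : ℂ) • (fexp (ω * N) : CI H) = 0 := ci_ext fun z _ => by
    rw [ex_smul, zero_mul, ex_zero]
  have z2 : |ω * n| • (0 : CI H) = 0 := ci_ext fun z _ => by
    rw [ex_rsmul, ex_zero, mul_zero]
  rw [e1, e2, z1, z2]
  rfl

/-- The three parts of the total velocity. -/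
theorem VF_pu {ω : ℝ} {N : ℕ} (a : ℝ) (hω : 0 < ω) (hN : 1 ≤ N) :
    VF ω (pu ω N a : ℤ → Xn H) where
  o _ := rfl
  d n := by
    have h := vC_fexp_isD (H := H) (ω * N) (Complex.I * ((a / 2 * sN N n : ℝ) : ℂ))
    have e : Complex.I * ((a / 2 * sN N n : ℝ) : ℂ) * ((ω * N : ℝ) : ℂ) =
        Complex.I * ((a / 2 * sN N n * (ω * N) : ℝ) : ℂ) := by
      push_cast
      ring
    rw [e] at h
    exact h
  e _ := rfl
  s := by
    refine summable_of_ne_finset_zero (s := {(N : ℤ), -(N : ℤ)}) fun n hn => ?_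
    have h : sN N n = 0 := by
      rw [Finset.mem_insert, Finset.mem_singleton, not_or] at hn
      unfold sN
      rw [if_neg hn.1, if_neg hn.2]
    rw [vC_pu_zero a h, norm_zero]

theorem VF_ov {ω : ℝ} {x : L1 (Xn H)} : VF ω (ov ω x) where
  o _ := rfl
  d n := Top_isD _ _
  e _ := rfl
  s := by
    have hH0 := hH.out
    refine Summable.of_nonneg_of_le (fun n => norm_nonneg _) (fun n => ?_)
      ((l1_summable x).mul_left (H + 2))
    have h0 : ‖(x n).1.1‖ ≤ ‖x n‖ := (norm_fst_le (x n).1).trans (norm_fst_le (x n))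
    have h1 := norm_Top_le (ω * n) (x n).1.1
    have h2 := norm_kTop_le (ω * n) (x n).1.1
    have h3 : ‖|ω * n| • Top (ω * n) (x n).1.1‖ ≤ ‖(x n).1.1‖ := by
      rw [norm_smul, Real.norm_eq_abs, abs_abs]
      exact h2
    have hx := norm_nonneg (x n)
    have a1 : ‖Top (ω * n) (x n).1.1‖ ≤ (H + 2) * ‖x n‖ := by
      have := mul_le_mul_of_nonneg_left h0 hH0.le
      nlinarith
    have a2 : ‖|ω * n| • Top (ω * n) (x n).1.1 - (x n).1.1‖ ≤ (H + 2) * ‖x n‖ := by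
      have := norm_sub_le (|ω * n| • Top (ω * n) (x n).1.1) (x n).1.1
      nlinarith
    have a3 : ‖|ω * n| • Top (ω * n) (x n).1.1‖ ≤ (H + 2) * ‖x n‖ := by nlinarith
    have a0 : (0 : ℝ) ≤ (H + 2) * ‖x n‖ := by positivity
    show ‖(((0, 0, 0), (Top (ω * n) (x n).1.1, |ω * n| • Top (ω * n) (x n).1.1 - (x n).1.1,
      |ω * n| • Top (ω * n) (x n).1.1)) : Xn H)‖ ≤ _
    refine max_le ?_ (max_le a1 (max_le a2 a3))
    have : ‖((0, 0, 0) : CI H × CI H × CI H)‖ = 0 := norm_zero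
    exact this.le.trans a0

theorem VF_iv {ω : ℝ} {N : ℕ} {a : ℝ} {x : L1 (Xn H)}
    (hx : ∀ n : ℤ, Cm (ω * n) (ex (pu ω N a n : Xn H).2.1 0) (x n)) : VF ω (iv x) where
  o _ := rfl
  d n := (hx n).d2
  e n := (hx n).e2
  s := by
    refine Summable.of_nonneg_of_le (fun n => norm_nonneg _) (fun n => ?_) (l1_summable x)
    show ‖(((0, 0, 0), (x n).2) : Xn H)‖ ≤ _
    refine max_le ?_ (norm_snd_le (x n))
    have : ‖((0, 0, 0) : CI H × CI H × CI H)‖ = 0 := norm_zero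
    exact this.le.trans (norm_nonneg _)

theorem VF_tv {ω : ℝ} {N : ℕ} {a : ℝ} (hω : 0 < ω) (hN : 1 ≤ N) {x : L1 (Xn H)}
    (hx : ∀ n : ℤ, Cm (ω * n) (ex (pu ω N a n : Xn H).2.1 0) (x n)) : VF ω (tv ω N a x) :=
  (VF_ov.add (VF_iv hx)).add (VF_pu a hω hN)

theorem fo_pu {ω : ℝ} {N : ℕ} (a : ℝ) (hω : 0 < ω) (hN : 1 ≤ N) (n : ℤ) :
    fo ω (pu ω N a : ℤ → Xn H) n = 0 := by
  rw [fo_eq (fun _ => rfl)]
  refine ci_ext fun z hz => ?_
  show ex (|ω * n| • ((Complex.I * ((a / 2 * sN N n : ℝ) : ℂ)) • (fexp (ω * N) : CI H)) -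
    (Complex.I * ((a / 2 * sN N n * (ω * N) : ℝ) : ℂ)) • (fexp (ω * N) : CI H)) z = 0
  rw [ex_sub, ex_rsmul, ex_smul, ex_smul]
  have h := congrArg (fun t : ℝ => (t : ℂ)) (vC_sN_abs (N := N) hω n)
  push_cast at h ⊢
  linear_combination (Complex.I * ((a : ℂ) / 2) * ex (fexp (ω * N) : CI H) z) * h

theorem fo_ov {ω : ℝ} {x : ℤ → Xn H} (n : ℤ) : fo ω (ov ω x) n = (x n).1.1 := by
  rw [fo_eq (fun _ => rfl)]
  show |ω * n| • Top (ω * n) (x n).1.1 - (|ω * n| • Top (ω * n) (x n).1.1 - (x n).1.1) = _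
  rw [sub_sub_cancel]

private theorem vC_Eop (k m : ℝ) (hk : |k| = m) {z : ℝ} (hz : z ∈ Icc (0:ℝ) H) :
    (m : ℂ) * ex (Eop k (fexp m : CI H)) z = ((Real.sinh (m * z) : ℝ) : ℂ) := by
  have hs : IsD (rc (fun z => Real.sinh (m * z)) (by fun_prop) : CI H)
      (rc (fun z => m * Real.cosh (m * z)) (by fun_prop)) := by
    intro y hy
    have h1 : HasDerivAt (fun z : ℝ => Real.sinh (m * z)) (m * Real.cosh (m * y)) y := by
      have h2 := ((hasDerivAt_id y).const_mul m).sinh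
      simp only [id_eq, mul_one] at h2
      rw [mul_comm]
      exact h2
    have h3 := h1.ofReal_comp.hasDerivWithinAt (s := Icc 0 H)
    have h4 : ∀ y ∈ Icc (0:ℝ) H, ex (rc (fun z => Real.sinh (m * z)) (by fun_prop) : CI H) y =
        ((Real.sinh (m * y) : ℝ) : ℂ) := fun y hy => ex_rc _ _ hy
    refine (h3.congr h4 (h4 y hy)).congr_deriv ?_
    rw [ex_rc _ _ hy]
  have h := Eop_unique k (f := ((m : ℝ) : ℂ) • (fexp m : CI H)) hs (by
      rw [ex_rc _ _ ⟨le_refl _, hH.out.le⟩]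
      simp) (by
      refine ci_ext fun y hy => ?_
      rw [ex_add, ex_rsmul, ex_smul, ex_rc _ _ hy, ex_rc _ _ hy, fexp, ex_rc _ _ hy, hk,
        ← Real.cosh_add_sinh]
      push_cast
      ring)
  rw [← ex_smul, ← map_smul, ← h, ex_rc _ _ hz]

/-- The modes of the potential flow. -/
theorem fw_pu {ω : ℝ} {N : ℕ} (a : ℝ) (hω : 0 < ω) (hN : 1 ≤ N) (n : ℤ) {z : ℝ} (hz : z ∈ Icc (0:ℝ) H) :
    ex (fw ω (pu ω N a : ℤ → Xn H) n) z = ((a / 2 * sN N n ^ 2 * Real.sinh (ω * N * z) : ℝ) : ℂ) := by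
  by_cases h0 : sN N n = 0
  · rw [fw_eq (fun _ => rfl), vC_pu_zero a h0]
    show ex (-((is (ω * n) * ((|ω * n| : ℝ) : ℂ)) • Eop (ω * n) (0 : CI H))) z = _
    rw [map_zero, ex_neg, ex_smul, ex_zero, h0]
    simp
  · have hk : |ω * n| = ω * N := mul_right_cancel₀ h0 (vC_sN_abs hω n)
    rw [fw_eq (fun _ => rfl)]
    show ex (-((is (ω * n) * ((|ω * n| : ℝ) : ℂ)) •
      Eop (ω * n) ((Complex.I * ((a / 2 * sN N n : ℝ) : ℂ)) • (fexp (ω * N) : CI H)))) z = _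
    rw [map_smul, ex_neg, ex_smul, ex_smul]
    have h1 := vC_Eop (H := H) (ω * n) (ω * N) hk hz
    have h2 := congrArg (fun t : ℝ => (t : ℂ)) (vC_sign (N := N) hω hN n)
    rw [hk, is]
    simp only [Complex.ofReal_mul, Complex.ofReal_pow] at h1 h2 ⊢
    push_cast at h1 h2 ⊢
    linear_combination (-(Complex.I ^ 2) * (Real.sign (ω * n) : ℂ) * ((a : ℂ) / 2) * (sN N n : ℂ)) * h1 -
      ((Real.sign (ω * n) : ℂ) * ((a : ℂ) / 2) * (sN N n : ℂ) * Complex.sinh (ω * N * z)) *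
        Complex.I_sq + (((a : ℂ) / 2) * Complex.sinh (ω * N * z)) * h2

theorem fv_pu {ω : ℝ} {N : ℕ} (a : ℝ) (hω : 0 < ω) (hN : 1 ≤ N) (n : ℤ) {z : ℝ} (hz : z ∈ Icc (0:ℝ) H) :
    ex (fv ω (pu ω N a : ℤ → Xn H) n) z =
      Complex.I * ((a / 2 * sN N n * Real.cosh (ω * N * z) : ℝ) : ℂ) := by
  rw [fv_eq, ex_sub, ex_smul, fw_pu a hω hN n hz]
  show ex ((Complex.I * ((a / 2 * sN N n : ℝ) : ℂ)) • (fexp (ω * N) : CI H)) z - _ = _
  rw [ex_smul, fexp, ex_rc _ _ hz, ← Real.cosh_add_sinh, is]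
  have h2 := congrArg (fun t : ℝ => (t : ℂ)) (vC_sign (N := N) hω hN n)
  have h3 := congrArg (fun t : ℝ => (t : ℂ)) (vC_sN_cube N n)
  simp only [Complex.ofReal_mul, Complex.ofReal_pow] at h2 h3 ⊢
  push_cast at h2 h3 ⊢
  linear_combination (-Complex.I * ((a : ℂ) / 2) * (sN N n : ℂ) * Complex.sinh (ω * N * z)) * h2 -
    (Complex.I * ((a : ℂ) / 2) * Complex.sinh (ω * N * z)) * h3

theorem tv_wall {ω : ℝ} {N : ℕ} {a : ℝ} {x : L1 (Xn H)}
    (hx : ∀ n : ℤ, Cm (ω * n) (ex (pu ω N a n : Xn H).2.1 0) (x n)) (n : ℤ) :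
    ex (tv ω N a x n).2.1 0 = 0 := by
  have h := (hx n).z2
  show ex (Top (ω * n) (x n).1.1 + (x n).2.1 + (pu ω N a n : Xn H).2.1) 0 = 0
  rw [ex_add, ex_add, h]
  ring

end

end Pool.Agent.Lib.MP_79abb3_an.FW
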