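import Pool.Agent.Lib.MP_79abb3_an.FW.Def

/-!
FW-3c: the weight `tht`.
-/

set_option autoImplicit false
set_option linter.unusedSectionVars false

open MeasureTheory Set Filter Topology Function

namespace Pool.Agent.Lib.MP_79abb3_an.FW

open Pool.Agent.Lib.MP_79abb3_an.P25

section
variable {H : ℝ} [hH : Fact (0 < H)]

/-- The weights of paper 196, (3.3). -/
theorem tht_cont (z1 M : ℝ) : Continuous (tht z1 M) := by
  unfold tht
  fun_prop

theorem tht_nonneg (z1 M z : ℝ) : 0 ≤ tht z1 M z := by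
  unfold tht
  positivity

theorem tht_mono {z1 M z x : ℝ} (hz1 : 0 < z1) (hM : 0 ≤ M) (h : z ≤ x) :
    tht z1 M z ≤ Real.exp (-(M * (x - z))) * tht z1 M x := by
  unfold tht
  have h1 : Real.exp (-(M * (x - z))) * (Real.exp (M * (x - 2 * z1)) *
      max 0 ((x - z1) / z1) ^ 2) = Real.exp (M * (z - 2 * z1)) * max 0 ((x - z1) / z1) ^ 2 := by
    rw [← mul_assoc, ← Real.exp_add]
    congr 2
    ring
  rw [h1]
  have h2 : (z - z1) / z1 ≤ (x - z1) / z1 := by gcongr
  have h3 : max 0 ((z - z1) / z1) ≤ max 0 ((x - z1) / z1) := max_le_max le_rfl h2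
  have h4 : 0 ≤ max 0 ((z - z1) / z1) := le_max_left _ _
  gcongr

theorem tht_zero {z1 M z : ℝ} (hz1 : 0 < z1) (h : z ≤ z1) : tht z1 M z = 0 := by
  unfold tht
  have h1 : (z - z1) / z1 ≤ 0 := div_nonpos_of_nonpos_of_nonneg (by linarith) hz1.le
  rw [max_eq_left h1]
  simp

theorem tht_ge {z1 M z : ℝ} (hz1 : 0 < z1) (h : 2 * z1 ≤ z) :
    Real.exp (M * (z - 2 * z1)) ≤ tht z1 M z := by
  unfold tht
  have h1 : 1 ≤ (z - z1) / z1 := by
    rw [le_div_iff₀ hz1]; linarith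
  have h2 : 1 ≤ max 0 ((z - z1) / z1) := le_trans h1 (le_max_right _ _)
  have h3 : (1:ℝ) ≤ max 0 ((z - z1) / z1) ^ 2 := one_le_pow₀ h2
  have := Real.exp_pos (M * (z - 2 * z1))
  nlinarith

/-- The derivative of `tht`. -/
noncomputable def tht1 (z1 M z : ℝ) : ℝ :=
  M * tht z1 M z + Real.exp (M * (z - 2 * z1)) * (2 / z1 * max 0 ((z - z1) / z1))

private theorem maxsq_deriv (u : ℝ) :
    HasDerivAt (fun v : ℝ => (max 0 v) ^ 2) (2 * max 0 u) u := by
  rcases lt_trichotomy u 0 with h | h | h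
  · have h1 : (fun v : ℝ => (max 0 v) ^ 2) =ᶠ[𝓝 u] fun _ => (0:ℝ) := by
      filter_upwards [gt_mem_nhds h] with v hv
      rw [max_eq_left (le_of_lt hv)]; simp
    rw [max_eq_left h.le, mul_zero]
    exact (hasDerivAt_const u (0:ℝ)).congr_of_eventuallyEq h1
  · subst h
    rw [hasDerivAt_iff_isLittleO_nhds_zero]
    simp only [zero_add, max_self, mul_zero, smul_zero, sub_zero, ne_eq, OfNat.ofNat_ne_zero,
      not_false_eq_true, zero_pow]
    have h1 : (fun h : ℝ => (max 0 h) ^ 2) =O[𝓝 0] fun h : ℝ => h ^ 2 := by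
      refine Asymptotics.IsBigO.of_bound 1 (Eventually.of_forall fun h => ?_)
      rw [one_mul, norm_pow, norm_pow]
      gcongr
      rw [Real.norm_eq_abs, Real.norm_eq_abs]
      rcases le_total 0 h with hh | hh
      · rw [max_eq_right hh]
      · rw [max_eq_left hh, abs_zero]; exact abs_nonneg _
    have h2 : (fun h : ℝ => h ^ 2) =o[𝓝 0] fun h : ℝ => h := by
      have := Asymptotics.isLittleO_pow_pow (𝕜 := ℝ) (m := 1) (n := 2) one_lt_two
      simpa using this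
    exact h1.trans_isLittleO h2
  · have h1 : (fun v : ℝ => (max 0 v) ^ 2) =ᶠ[𝓝 u] fun v => v ^ 2 := by
      filter_upwards [lt_mem_nhds h] with v hv
      rw [max_eq_right (le_of_lt hv)]
    rw [max_eq_right h.le]
    have h2 : HasDerivAt (fun v : ℝ => v ^ 2) (2 * u) u := by
      simpa using hasDerivAt_pow 2 u
    exact h2.congr_of_eventuallyEq h1

theorem tht_deriv {z1 M : ℝ} (hz1 : 0 < z1) (z : ℝ) : HasDerivAt (tht z1 M) (tht1 z1 M z) z := by
  have h1 : HasDerivAt (fun z : ℝ => Real.exp (M * (z - 2 * z1)))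
      (Real.exp (M * (z - 2 * z1)) * M) z := by
    have h0 : HasDerivAt (fun z : ℝ => M * (z - 2 * z1)) M z := by
      simpa using ((hasDerivAt_id z).sub_const (2 * z1)).const_mul M
    exact h0.exp
  have h2 : HasDerivAt (fun z : ℝ => (z - z1) / z1) (1 / z1) z := by
    simpa using ((hasDerivAt_id z).sub_const z1).div_const z1
  have h3 : HasDerivAt (fun z : ℝ => (max 0 ((z - z1) / z1)) ^ 2)
      (2 * max 0 ((z - z1) / z1) * (1 / z1)) z :=
    HasDerivAt.comp (h₂ := fun v : ℝ => (max 0 v) ^ 2) (h := fun z : ℝ => (z - z1) / z1) z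
      (maxsq_deriv ((z - z1) / z1)) h2
  have h4 := h1.mul h3
  have h5 : tht1 z1 M z = Real.exp (M * (z - 2 * z1)) * M * (max 0 ((z - z1) / z1)) ^ 2 +
      Real.exp (M * (z - 2 * z1)) * (2 * max 0 ((z - z1) / z1) * (1 / z1)) := by
    unfold tht1 tht
    ring
  rw [h5]
  exact h4

theorem tht1_cont (z1 M : ℝ) : Continuous (tht1 z1 M) := by
  unfold tht1
  have := tht_cont z1 M
  fun_prop

theorem tht1_sq_le {z1 M : ℝ} (hz1 : 0 < z1) (hM : 0 ≤ M) (z : ℝ) :
    tht1 z1 M z ^ 2 ≤ 2 * (M + 2 / z1) ^ 2 * tht z1 M z ^ 2 + 8 / z1 ^ 2 := by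
  have ht := tht_nonneg z1 M z
  have hm : 0 ≤ max 0 ((z - z1) / z1) := le_max_left _ _
  have hp : 0 ≤ 2 / z1 := by positivity
  have h0 : 0 ≤ tht1 z1 M z := by
    unfold tht1
    positivity
  rcases le_total (2 * z1) z with h | h
  · have h1 : 1 ≤ (z - z1) / z1 := by
      rw [le_div_iff₀ hz1]; linarith
    have h2 : 1 ≤ max 0 ((z - z1) / z1) := le_trans h1 (le_max_right _ _)
    have h3 : tht1 z1 M z ≤ (M + 2 / z1) * tht z1 M z := by
      have h4 : Real.exp (M * (z - 2 * z1)) * (2 / z1 * max 0 ((z - z1) / z1)) ≤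
          2 / z1 * tht z1 M z := by
        unfold tht
        have h5 : max 0 ((z - z1) / z1) ≤ max 0 ((z - z1) / z1) ^ 2 := by nlinarith
        have h6 := Real.exp_pos (M * (z - 2 * z1))
        calc Real.exp (M * (z - 2 * z1)) * (2 / z1 * max 0 ((z - z1) / z1))
            ≤ Real.exp (M * (z - 2 * z1)) * (2 / z1 * max 0 ((z - z1) / z1) ^ 2) := by gcongr
          _ = _ := by ring
      unfold tht1
      linarith
    have h7 : tht1 z1 M z ^ 2 ≤ ((M + 2 / z1) * tht z1 M z) ^ 2 := by gcongr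
    have h8 : 0 ≤ 8 / z1 ^ 2 := by positivity
    have h9 : 0 ≤ ((M + 2 / z1) * tht z1 M z) ^ 2 := sq_nonneg _
    nlinarith
  · have h1 : (z - z1) / z1 ≤ 1 := by
      rw [div_le_iff₀ hz1]; linarith
    have h2 : max 0 ((z - z1) / z1) ≤ 1 := max_le zero_le_one h1
    have h3 : Real.exp (M * (z - 2 * z1)) ≤ 1 := by
      rw [Real.exp_le_one_iff]
      exact mul_nonpos_of_nonneg_of_nonpos hM (by linarith)
    have h4 : tht1 z1 M z ≤ M * tht z1 M z + 2 / z1 := by
      unfold tht1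
      have h5 : Real.exp (M * (z - 2 * z1)) * (2 / z1 * max 0 ((z - z1) / z1)) ≤
          1 * (2 / z1 * 1) := by gcongr
      linarith
    have h6 : tht1 z1 M z ^ 2 ≤ (M * tht z1 M z + 2 / z1) ^ 2 := by gcongr
    have h7 : (M * tht z1 M z + 2 / z1) ^ 2 ≤ 2 * (M * tht z1 M z) ^ 2 + 2 * (2 / z1) ^ 2 := by
      nlinarith [sq_nonneg (M * tht z1 M z - 2 / z1)]
    have h8 : (M * tht z1 M z) ^ 2 ≤ ((M + 2 / z1) * tht z1 M z) ^ 2 := by
      gcongr
      linarith
    have h9 : 2 * (2 / z1) ^ 2 = 8 / z1 ^ 2 := by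
      rw [div_pow]; ring
    nlinarith

end

end Pool.Agent.Lib.MP_79abb3_an.FW
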