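import Pool.Agent.Lib.MP_79abb3_an.FW.NormsA
import Pool.Agent.Lib.MP_79abb3_an.P25.FieldAt

/-!
FW-15b: continuity and summability of the functionals.
-/

set_option autoImplicit false
set_option linter.unusedSectionVars false

attribute [-instance] SubfieldClass.toSubringClass WithIdeal.instTopologicalSpace
  WithIdeal.instUniformSpace
  IsValuativeTopology.instValuedValueGroupWithZeroOfIsUniformAddGroup

open MeasureTheory Set Filter Topology Function

namespace Pool.Agent.Lib.MP_79abb3_an.FW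

open Pool.Agent.Lib.MP_79abb3_an.P25

section
variable {H : ℝ} [hH : Fact (0 < H)]

/-- locally Lipschitz functions of one mode -/
private def LL (C : ℝ) (q : Xn H → ℝ) : Prop :=
  q 0 = 0 ∧ ∀ u v, |q u - q v| ≤ C * (1 + ‖u‖ + ‖v‖) * ‖u - v‖

private theorem sb_le (x : L1 (Xn H)) (n : ℤ) : ‖x n‖ ≤ ‖x‖ := by
  rw [l1_norm]
  exact (l1_summable x).le_tsum n (fun _ _ => norm_nonneg _)

private theorem LL_summable {C : ℝ} (hC : 0 ≤ C) {q : ℤ → Xn H → ℝ} (h : ∀ n, LL C (q n))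
    (x : L1 (Xn H)) : Summable fun n => q n (x n) := by
  refine Summable.of_norm_bounded ((l1_summable x).mul_left (C * (1 + ‖x‖))) fun n => ?_
  have h1 := (h n).2 (x n) 0
  rw [(h n).1, sub_zero, sub_zero, norm_zero, add_zero] at h1
  rw [Real.norm_eq_abs]
  refine h1.trans ?_
  have h2 := sb_le x n
  have h3 := norm_nonneg (x n)
  gcongr

private theorem LL_cont {C : ℝ} (hC : 0 ≤ C) {q : ℤ → Xn H → ℝ} (h : ∀ n, LL C (q n)) :
    Continuous (fun x : L1 (Xn H) => ∑' n, q n (x n)) := by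
  have key : ∀ x y : L1 (Xn H), |(∑' n, q n (x n)) - ∑' n, q n (y n)| ≤
      C * (1 + ‖x‖ + ‖y‖) * ‖x - y‖ := by
    intro x y
    have hx := LL_summable hC h x
    have hy := LL_summable hC h y
    rw [← hx.tsum_sub hy]
    have hs : Summable fun n => C * (1 + ‖x‖ + ‖y‖) * ‖(x - y) n‖ :=
      (l1_summable (x - y)).mul_left _
    have hb : ∀ n, ‖q n (x n) - q n (y n)‖ ≤ C * (1 + ‖x‖ + ‖y‖) * ‖(x - y) n‖ := by
      intro n
      have h1 := (h n).2 (x n) (y n)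
      rw [Real.norm_eq_abs]
      refine h1.trans ?_
      have h2 := sb_le x n
      have h3 := sb_le y n
      have h4 : (x - y) n = x n - y n := rfl
      rw [h4]
      gcongr
    have h1 := tsum_of_norm_bounded hs.hasSum hb
    rw [Real.norm_eq_abs] at h1
    refine h1.trans (le_of_eq ?_)
    rw [tsum_mul_left, ← l1_norm]
  rw [continuous_iff_continuousAt]
  intro y
  rw [ContinuousAt, tendsto_iff_norm_sub_tendsto_zero]
  have hlim : Tendsto (fun x : L1 (Xn H) => C * (1 + ‖x‖ + ‖y‖) * ‖x - y‖) (𝓝 y) (𝓝 0) := by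
    have hc : Continuous (fun x : L1 (Xn H) => C * (1 + ‖x‖ + ‖y‖) * ‖x - y‖) := by fun_prop
    have := hc.tendsto y
    simpa using this
  exact squeeze_zero (fun x => norm_nonneg _) (fun x => key x y) hlim

private theorem LL_add {C C' : ℝ} {q q' : Xn H → ℝ} (h : LL C q) (h' : LL C' q') :
    LL (C + C') (fun u => q u + q' u) := by
  refine ⟨by simp [h.1, h'.1], fun u v => ?_⟩
  have h1 := h.2 u v
  have h2 := h'.2 u v
  have h3 : q u + q' u - (q v + q' v) = (q u - q v) + (q' u - q' v) := by ring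
  rw [h3]
  calc |(q u - q v) + (q' u - q' v)| ≤ |q u - q v| + |q' u - q' v| := abs_add_le _ _
    _ ≤ C * (1 + ‖u‖ + ‖v‖) * ‖u - v‖ + C' * (1 + ‖u‖ + ‖v‖) * ‖u - v‖ := add_le_add h1 h2
    _ = _ := by ring

/-- Lipschitz functions on `CI H` -/
private def PP (K : ℝ) (p : CI H → ℝ) : Prop := p 0 = 0 ∧ ∀ f g, |p f - p g| ≤ K * ‖f - g‖

private theorem PP_LL {K : ℝ} (hK : 0 ≤ K) {p : CI H → ℝ} (h : PP K p) {π : Xn H → CI H}
    (h0 : π 0 = 0) (hs : ∀ u v, π u - π v = π (u - v)) (hn : ∀ u, ‖π u‖ ≤ ‖u‖) :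
    LL K (fun u => p (π u)) := by
  refine ⟨by show p (π 0) = 0; rw [h0, h.1], fun u v => ?_⟩
  have h1 := h.2 (π u) (π v)
  rw [hs] at h1
  have h2 := hn (u - v)
  have h3 := norm_nonneg u
  have h4 := norm_nonneg v
  have h5 := norm_nonneg (u - v)
  calc |p (π u) - p (π v)| ≤ K * ‖π (u - v)‖ := h1
    _ ≤ K * ‖u - v‖ := by gcongr
    _ = K * 1 * ‖u - v‖ := by ring
    _ ≤ K * (1 + ‖u‖ + ‖v‖) * ‖u - v‖ := by gcongr; linarith

private theorem PP_LL2 {K : ℝ} (hK : 0 ≤ K) {p : CI H → ℝ} (h : PP K p) {π : Xn H → CI H}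
    (h0 : π 0 = 0) (hs : ∀ u v, π u - π v = π (u - v)) (hn : ∀ u, ‖π u‖ ≤ ‖u‖) :
    LL (K ^ 2) (fun u => p (π u) ^ 2) := by
  refine ⟨by simp [h0, h.1], fun u v => ?_⟩
  have h1 := h.2 (π u) (π v)
  rw [hs] at h1
  have h2 := hn (u - v)
  have h3 := norm_nonneg u
  have h4 := norm_nonneg v
  have h5 := norm_nonneg (u - v)
  have hpu : |p (π u)| ≤ K * ‖u‖ := by
    have h6 := h.2 (π u) 0
    rw [h.1, sub_zero, sub_zero] at h6
    exact h6.trans (mul_le_mul_of_nonneg_left (hn u) hK)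
  have hpv : |p (π v)| ≤ K * ‖v‖ := by
    have h6 := h.2 (π v) 0
    rw [h.1, sub_zero, sub_zero] at h6
    exact h6.trans (mul_le_mul_of_nonneg_left (hn v) hK)
  have h7 : p (π u) ^ 2 - p (π v) ^ 2 = (p (π u) - p (π v)) * (p (π u) + p (π v)) := by ring
  have h8 : |p (π u) - p (π v)| ≤ K * ‖u - v‖ := h1.trans (by gcongr)
  have h9 : |p (π u) + p (π v)| ≤ K * (1 + ‖u‖ + ‖v‖) := by
    calc |p (π u) + p (π v)| ≤ |p (π u)| + |p (π v)| := abs_add_le _ _
      _ ≤ K * ‖u‖ + K * ‖v‖ := add_le_add hpu hpv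
      _ ≤ K * (1 + ‖u‖ + ‖v‖) := by nlinarith
  rw [h7, abs_mul]
  calc |p (π u) - p (π v)| * |p (π u) + p (π v)| ≤ (K * ‖u - v‖) * (K * (1 + ‖u‖ + ‖v‖)) :=
        mul_le_mul h8 h9 (abs_nonneg _) (by positivity)
    _ = _ := by ring

private theorem PP_n2 : PP (√H) (n2 : CI H → ℝ) := by
  refine ⟨n2_zero, fun f g => ?_⟩
  have h1 : n2 f ≤ n2 (f - g) + n2 g := by
    have := n2_add (f - g) g
    rwa [sub_add_cancel] at this
  have h2 : n2 g ≤ n2 (g - f) + n2 f := by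
    have := n2_add (g - f) f
    rwa [sub_add_cancel] at this
  have h3 := n2_le_norm (f - g)
  have h4 := n2_le_norm (g - f)
  rw [norm_sub_rev] at h4
  rw [abs_le]
  constructor <;> linarith

private theorem PP_w (w : CI H) : PP (√H * ‖w‖) (fun f : CI H => n2 (w * f)) := by
  refine ⟨by simp [n2_zero], fun f g => ?_⟩
  have h1 := (PP_n2 (H := H)).2 (w * f) (w * g)
  refine h1.trans ?_
  rw [← mul_sub, mul_assoc]
  exact mul_le_mul_of_nonneg_left (norm_mul_le _ _) (Real.sqrt_nonneg _)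

private theorem PP_Top (k : ℝ) : PP H (fun f : CI H => ‖Top k f‖) := by
  refine ⟨by simp, fun f g => ?_⟩
  refine (abs_norm_sub_norm_le _ _).trans ?_
  rw [← map_sub]
  exact norm_Top_le k _

private theorem sb_tht_cont (z1 M : ℝ) : Continuous (tht z1 M) := by
  unfold tht
  have h1 : Continuous fun z : ℝ => max 0 ((z - z1) / z1) :=
    continuous_const.max ((continuous_id.sub continuous_const).div_const _)
  exact ((Real.continuous_exp.comp (by fun_prop)).mul (h1.pow 2))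

private theorem tht_int (z1 M : ℝ) (f : CI H) :
    ∫ z in (0:ℝ)..H, tht z1 M z ^ 2 * ‖ex f z‖ ^ 2 = n2 (rc (tht z1 M) (sb_tht_cont z1 M) * f) ^ 2 := by
  rw [n2_sq]
  refine intervalIntegral.integral_congr fun z hz => ?_
  have hz' : z ∈ Icc (0:ℝ) H := by
    rwa [uIcc_of_le hH.out.le] at hz
  rw [ex_mul, ex_rc _ _ hz', norm_mul, mul_pow, Complex.norm_real, Real.norm_eq_abs, sq_abs]

private theorem tht_int2 (z1 M : ℝ) (f g : CI H) :
    ∫ z in (0:ℝ)..H, tht z1 M z ^ 2 * (‖ex f z‖ ^ 2 + ‖ex g z‖ ^ 2) =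
      n2 (rc (tht z1 M) (sb_tht_cont z1 M) * f) ^ 2 + n2 (rc (tht z1 M) (sb_tht_cont z1 M) * g) ^ 2 := by
  rw [← tht_int, ← tht_int, ← intervalIntegral.integral_add]
  · refine intervalIntegral.integral_congr fun z _ => ?_
    ring
  · exact (((sb_tht_cont z1 M).pow 2).mul ((continuous_ex f).norm.pow 2)).intervalIntegrable _ _
  · exact (((sb_tht_cont z1 M).pow 2).mul ((continuous_ex g).norm.pow 2)).intervalIntegrable _ _

private theorem chm_smul (m a : ℝ) : (chm m a : CI H) = a • chm m 1 := by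
  refine ci_ext fun z hz => ?_
  rw [ex_rsmul, chm, chm, ex_rc _ _ hz, ex_rc _ _ hz]
  push_cast
  ring

private theorem kap_smul (m a : ℝ) : (kap m a : CI H) = a ^ 2 • kap m 1 := by
  refine ci_ext fun z hz => ?_
  rw [ex_rsmul, kap, kap, ex_rc _ _ hz, ex_rc _ _ hz]
  push_cast
  ring

private theorem K0_eq (m a : ℝ) (x : ℤ → Xn H) : K0 m a x = a ^ 2 * K0 m 1 x := by
  unfold K0
  rw [← tsum_mul_left]
  refine tsum_congr fun n => ?_
  rw [chm_smul, smul_mul_assoc, n2_rsmul, mul_pow, sq_abs]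

private theorem K1_eq (m a : ℝ) (x : ℤ → Xn H) : K1 m a x = (a ^ 2) ^ 2 * K1 m 1 x := by
  unfold K1
  rw [← tsum_mul_left]
  refine tsum_congr fun n => ?_
  rw [kap_smul, smul_mul_assoc, n2_rsmul, mul_pow, sq_abs]

private theorem sq0 : (0:ℝ) ≤ √H := Real.sqrt_nonneg _

private theorem LL_yy (n : ℤ) : LL (√H) (fun u : Xn H => n2 u.2.1) :=
  PP_LL sq0 PP_n2 (π := fun u => u.2.1) rfl (fun _ _ => rfl) n21

private theorem LL_th2 (n : ℤ) : LL ((√H) ^ 2) (fun u : Xn H => n2 u.1.1 ^ 2) :=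
  PP_LL2 sq0 PP_n2 (π := fun u => u.1.1) rfl (fun _ _ => rfl) n11

private theorem LL_dd2 (n : ℤ) : LL ((√H) ^ 2 + (√H) ^ 2)
    (fun u : Xn H => n2 u.1.2.1 ^ 2 + n2 u.1.2.2 ^ 2) :=
  LL_add (PP_LL2 sq0 PP_n2 (π := fun u => u.1.2.1) rfl (fun _ _ => rfl) n121)
    (PP_LL2 sq0 PP_n2 (π := fun u => u.1.2.2) rfl (fun _ _ => rfl) n122)

private theorem LL_bt (k : ℝ) : LL H (fun u : Xn H => ‖Top k u.1.1‖) :=
  PP_LL hH.out.le (PP_Top k) (π := fun u => u.1.1) rfl (fun _ _ => rfl) n11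

private theorem LL_w (w : CI H) : LL ((√H * ‖w‖) ^ 2) (fun u : Xn H => n2 (w * u.2.1) ^ 2) :=
  PP_LL2 (by positivity) (PP_w w) (π := fun u => u.2.1) rfl (fun _ _ => rfl) n21

private theorem LL_w2 (w : CI H) : LL ((√H * ‖w‖) ^ 2 + (√H * ‖w‖) ^ 2)
    (fun u : Xn H => n2 (w * u.2.2.1) ^ 2 + n2 (w * u.2.2.2) ^ 2) :=
  LL_add (PP_LL2 (by positivity) (PP_w w) (π := fun u => u.2.2.1) rfl (fun _ _ => rfl) n221)
    (PP_LL2 (by positivity) (PP_w w) (π := fun u => u.2.2.2) rfl (fun _ _ => rfl) n222)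

/-- Continuity of the functionals. -/
theorem yy_cont : Continuous (fun x : L1 (Xn H) => yy x) := LL_cont sq0 LL_yy

theorem th2_cont : Continuous (fun x : L1 (Xn H) => th2 x) := LL_cont (by positivity) LL_th2

theorem dd2_cont : Continuous (fun x : L1 (Xn H) => dd2 x) := LL_cont (by positivity) LL_dd2

theorem bt_cont (ω : ℝ) : Continuous (fun x : L1 (Xn H) => bt ω x) :=
  LL_cont hH.out.le fun n => LL_bt (ω * n)

theorem Ew_cont (z1 M : ℝ) : Continuous (fun x : L1 (Xn H) => Ew z1 M x) := by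
  have h := LL_cont (H := H) (by positivity) fun _ : ℤ => LL_w (rc (tht z1 M) (sb_tht_cont z1 M))
  refine h.congr fun x => ?_
  unfold Ew
  exact tsum_congr fun n => (tht_int z1 M _).symm

theorem Gw_cont (z1 M : ℝ) : Continuous (fun x : L1 (Xn H) => Gw z1 M x) := by
  have h := LL_cont (H := H) (by positivity) fun _ : ℤ => LL_w2 (rc (tht z1 M) (sb_tht_cont z1 M))
  refine h.congr fun x => ?_
  unfold Gw
  exact tsum_congr fun n => (tht_int2 z1 M _ _).symm

private theorem K0_cont1 (m : ℝ) : Continuous (fun x : L1 (Xn H) => K0 m 1 x) :=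
  LL_cont (by positivity) fun _ => LL_w (chm m 1)

private theorem K1_cont1 (m : ℝ) : Continuous (fun x : L1 (Xn H) => K1 m 1 x) :=
  LL_cont (by positivity) fun _ => LL_w (kap m 1)

theorem K0_cont {m : ℝ} {s : Set ℝ} {A : ℝ → ℝ} (cA : ContinuousOn A s) {x : ℝ → L1 (Xn H)}
    (cx : ContinuousOn x s) : ContinuousOn (fun t => K0 m (A t) (x t)) s := by
  have h1 : ContinuousOn (fun t => K0 m 1 (x t)) s :=
    Continuous.comp_continuousOn (g := fun y : L1 (Xn H) => K0 m 1 y) (f := x) (K0_cont1 m) cx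
  exact ((cA.pow 2).mul h1).congr fun t _ => K0_eq m (A t) (x t)

theorem K1_cont {m : ℝ} {s : Set ℝ} {A : ℝ → ℝ} (cA : ContinuousOn A s) {x : ℝ → L1 (Xn H)}
    (cx : ContinuousOn x s) : ContinuousOn (fun t => K1 m (A t) (x t)) s := by
  have h1 : ContinuousOn (fun t => K1 m 1 (x t)) s :=
    Continuous.comp_continuousOn (g := fun y : L1 (Xn H) => K1 m 1 y) (f := x) (K1_cont1 m) cx
  exact (((cA.pow 2).pow 2).mul h1).congr fun t _ => K1_eq m (A t) (x t)

/-- Summability of the functionals. -/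
theorem fun_summable (x : L1 (Xn H)) (m a z1 M ω : ℝ) :
    (Summable fun n => n2 (x n).2.1) ∧ (Summable fun n => n2 (x n).1.1 ^ 2) ∧
    (Summable fun n => n2 (x n).1.2.1 ^ 2 + n2 (x n).1.2.2 ^ 2) ∧
    (Summable fun n : ℤ => ‖Top (ω * n) (x n).1.1‖) ∧
    (Summable fun n => ∫ z in (0:ℝ)..H, tht z1 M z ^ 2 * ‖ex (x n).2.1 z‖ ^ 2) ∧
    (Summable fun n => ∫ z in (0:ℝ)..H, tht z1 M z ^ 2 * (‖ex (x n).2.2.1 z‖ ^ 2 + ‖ex (x n).2.2.2 z‖ ^ 2)) ∧
    (Summable fun n => n2 (chm m a * (x n).2.1) ^ 2) ∧ (Summable fun n => n2 (kap m a * (x n).2.1) ^ 2) := by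
  refine ⟨LL_summable sq0 LL_yy x, LL_summable (by positivity) LL_th2 x,
    LL_summable (by positivity) LL_dd2 x, LL_summable hH.out.le (fun n => LL_bt (ω * n)) x,
    ?_, ?_, LL_summable (by positivity) (fun _ => LL_w (chm m a)) x,
    LL_summable (by positivity) (fun _ => LL_w (kap m a)) x⟩
  · simp only [tht_int]
    exact LL_summable (by positivity) (fun _ => LL_w (rc (tht z1 M) (sb_tht_cont z1 M))) x
  · simp only [tht_int2]
    exact LL_summable (by positivity) (fun _ => LL_w2 (rc (tht z1 M) (sb_tht_cont z1 M))) x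

end

end Pool.Agent.Lib.MP_79abb3_an.FW
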