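import Pool.Agent.Lib.MP_79abb3_an.FW.VelA

/-!
FW-5b: the nonlinear term for velocity families.
-/

set_option autoImplicit false
set_option linter.unusedSectionVars false

open MeasureTheory Set Filter Topology Function

namespace Pool.Agent.Lib.MP_79abb3_an.FW

open Pool.Agent.Lib.MP_79abb3_an.P25

section
variable {H : ℝ} [hH : Fact (0 < H)]

private theorem velB_top (k c : ℝ) (f : CI H) : Top k (c • f) = c • Top k f :=
  (Top k).map_smul_of_tower c f

private theorem velB_ctop (k : ℝ) (c : ℂ) (f : CI H) : Top k (c • f) = c • Top k f :=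
  (Top k).map_smul c f

private theorem velB_conv_zero (a b : ℤ → CI H) (hb : ∀ n, b n = 0) (n : ℤ) : conv a b n = 0 := by
  unfold conv
  simp [hb]

/-- Second component of `Bf` for velocity families. -/
theorem Bf2_eq {ω : ℝ} {a b : ℤ → Xn H} (hb : ∀ n, (b n).1 = 0) (ha : ∀ n, (a n).1 = 0) (n : ℤ) :
    (Bf ω a b n).2 = conv (fo ω a) (fw ω b) n -
      Top (ω * n) (|ω * n| • conv (fo ω a) (fw ω b) n +
        (Complex.I * ((ω * n : ℝ) : ℂ)) • conv (fo ω a) (fv ω b) n) := by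
  have h0 : N0 ω a b n = 0 := by
    unfold N0
    rw [velB_conv_zero _ _ (fun m => ci_ext fun z _ => by rw [hb m]; simp),
      velB_conv_zero _ _ (fun m => by rw [hb m]; rfl),
      velB_conv_zero _ _ (fun m => by rw [hb m]; rfl)]
    simp
  show Rν (ω * n) (N0 ω a b n) (N1 ω a b n) (N2 ω a b n) = _
  have h1 : N1 ω a b n = -conv (fo ω a) (fw ω b) n := rfl
  have h2 : N2 ω a b n = conv (fo ω a) (fv ω b) n := rfl
  rw [h0, h1, h2]
  unfold Rν
  rw [map_add, map_neg, map_zero, velB_top, velB_ctop]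
  refine ci_ext fun z _ => ?_
  simp only [ex_add, ex_sub, ex_neg, ex_smul, ex_rsmul, ex_zero]
  ring

private theorem velB_bdd {ω : ℝ} {b : ℤ → Xn H} (hb : VF ω b) (j : ℤ) : ‖b j‖ ≤ ∑' i, ‖b i‖ :=
  hb.s.le_tsum j (fun _ _ => norm_nonneg _)

private theorem velB_fo {ω : ℝ} {a : ℤ → Xn H} (ha : VF ω a) (n : ℤ) : ‖fo ω a n‖ ≤ 2 * ‖a n‖ := by
  rw [fo_eq ha.o]
  have h1 : ‖(a n).2.2.2‖ ≤ ‖a n‖ :=
    ((norm_snd_le (a n).2.2).trans (norm_snd_le (a n).2)).trans (norm_snd_le (a n))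
  have h2 : ‖(a n).2.2.1‖ ≤ ‖a n‖ :=
    ((norm_fst_le (a n).2.2).trans (norm_snd_le (a n).2)).trans (norm_snd_le (a n))
  calc ‖(a n).2.2.2 - (a n).2.2.1‖ ≤ ‖(a n).2.2.2‖ + ‖(a n).2.2.1‖ := norm_sub_le _ _
    _ ≤ 2 * ‖a n‖ := by linarith

private theorem velB_21 (x : Xn H) : ‖x.2.1‖ ≤ ‖x‖ := (norm_fst_le x.2).trans (norm_snd_le x)

private theorem velB_fw {ω : ℝ} {b : ℤ → Xn H} (hb : VF ω b) (n : ℤ) : ‖fw ω b n‖ ≤ 2 * ‖b n‖ := by
  have h1 := (vel_bounds (ω := ω) hb.o n).1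
  have h2 := velB_21 (b n)
  have h3 := norm_nonneg (b n)
  linarith

private theorem velB_fv {ω : ℝ} {b : ℤ → Xn H} (hb : VF ω b) (n : ℤ) : ‖fv ω b n‖ ≤ 2 * ‖b n‖ := by
  have h1 := (vel_bounds (ω := ω) hb.o n).2.2.2.1
  have h2 := velB_21 (b n)
  linarith

private theorem velB_summable {ω : ℝ} {a b : ℤ → Xn H} (ha : VF ω a) (hb : VF ω b)
    (f g : ℤ → CI H) (hf : ∀ n, ‖f n‖ ≤ 2 * ‖a n‖) (hg : ∀ n, ‖g n‖ ≤ 2 * ‖b n‖) (n : ℤ) :
    Summable fun m => f m * g (n - m) := by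
  refine Summable.of_norm_bounded (g := fun m => ‖a m‖ * (4 * ∑' i, ‖b i‖))
    (ha.s.mul_right _) (fun m => ?_)
  have h1 := hf m
  have h2 := hg (n - m)
  have h3 := velB_bdd hb (n - m)
  calc ‖f m * g (n - m)‖ ≤ ‖f m‖ * ‖g (n - m)‖ := norm_mul_le _ _
    _ ≤ (2 * ‖a m‖) * (2 * ∑' i, ‖b i‖) := by
        apply mul_le_mul h1 (h2.trans (by linarith)) (norm_nonneg _) (by positivity)
    _ = ‖a m‖ * (4 * ∑' i, ‖b i‖) := by ring

private theorem velB_conv_add_left (f f' g : ℤ → CI H) (n : ℤ)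
    (h1 : Summable fun m => f m * g (n - m)) (h2 : Summable fun m => f' m * g (n - m)) :
    conv (fun m => f m + f' m) g n = conv f g n + conv f' g n := by
  unfold conv
  rw [← h1.tsum_add h2]
  simp only [add_mul]

private theorem velB_conv_add_right (f g g' : ℤ → CI H) (n : ℤ)
    (h1 : Summable fun m => f m * g (n - m)) (h2 : Summable fun m => f m * g' (n - m)) :
    conv f (fun m => g m + g' m) n = conv f g n + conv f g' n := by
  unfold conv
  rw [← h1.tsum_add h2]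
  simp only [mul_add]

private theorem velB_alg (k : ℝ) (A A' B B' : CI H) :
    (A + A') - Top k (|k| • (A + A') + (Complex.I * (k : ℂ)) • (B + B')) =
      (A - Top k (|k| • A + (Complex.I * (k : ℂ)) • B)) +
        (A' - Top k (|k| • A' + (Complex.I * (k : ℂ)) • B')) := by
  rw [map_add, map_add, map_add, velB_top, velB_ctop, velB_top, velB_ctop, velB_top, velB_ctop,
    map_add, map_add]
  refine ci_ext fun z _ => ?_
  simp only [ex_add, ex_sub, ex_smul, ex_rsmul]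
  ring

theorem Bf2_add_left {ω : ℝ} {a a' b : ℤ → Xn H} (ha : VF ω a) (ha' : VF ω a') (hb : VF ω b) (n : ℤ) :
    (Bf ω (fun n => a n + a' n) b n).2 = (Bf ω a b n).2 + (Bf ω a' b n).2 := by
  have ho : ∀ n, ((fun n => a n + a' n) n).1 = 0 := fun n => by
    show (a n).1 + (a' n).1 = 0
    rw [ha.o, ha'.o, add_zero]
  have e : fo ω (fun n => a n + a' n) = fun n => fo ω a n + fo ω a' n := by
    funext m
    exact fo_add ω a a' m
  rw [Bf2_eq hb.o ho, Bf2_eq hb.o ha.o, Bf2_eq hb.o ha'.o, e,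
    velB_conv_add_left _ _ _ n (velB_summable ha hb _ _ (velB_fo ha) (velB_fw hb) n)
      (velB_summable ha' hb _ _ (velB_fo ha') (velB_fw hb) n),
    velB_conv_add_left _ _ _ n (velB_summable ha hb _ _ (velB_fo ha) (velB_fv hb) n)
      (velB_summable ha' hb _ _ (velB_fo ha') (velB_fv hb) n), velB_alg]

theorem Bf2_add_right {ω : ℝ} {a b b' : ℤ → Xn H} (ha : VF ω a) (hb : VF ω b) (hb' : VF ω b') (n : ℤ) :
    (Bf ω a (fun n => b n + b' n) n).2 = (Bf ω a b n).2 + (Bf ω a b' n).2 := by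
  have ho : ∀ n, ((fun n => b n + b' n) n).1 = 0 := fun n => by
    show (b n).1 + (b' n).1 = 0
    rw [hb.o, hb'.o, add_zero]
  have e : fw ω (fun n => b n + b' n) = fun n => fw ω b n + fw ω b' n := by
    funext m
    exact fw_add ω b b' m
  have e' : fv ω (fun n => b n + b' n) = fun n => fv ω b n + fv ω b' n := by
    funext m
    exact fv_add ω b b' m
  rw [Bf2_eq ho ha.o, Bf2_eq hb.o ha.o, Bf2_eq hb'.o ha.o, e, e',
    velB_conv_add_right _ _ _ n (velB_summable ha hb _ _ (velB_fo ha) (velB_fw hb) n)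
      (velB_summable ha hb' _ _ (velB_fo ha) (velB_fw hb') n),
    velB_conv_add_right _ _ _ n (velB_summable ha hb _ _ (velB_fo ha) (velB_fv hb) n)
      (velB_summable ha hb' _ _ (velB_fo ha) (velB_fv hb') n), velB_alg]

end

end Pool.Agent.Lib.MP_79abb3_an.FW
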