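import Pool.Agent.Lib.MP_79abb3_an.FW.NormsB
import Pool.Agent.Lib.MP_79abb3_an.FW.YoungA

/-!
FW-4b: convolutions of families of modes.
-/

set_option autoImplicit false
set_option linter.unusedSectionVars false

open MeasureTheory Set Filter Topology Function

namespace Pool.Agent.Lib.MP_79abb3_an.FW

open Pool.Agent.Lib.MP_79abb3_an.P25

section
variable {H : ℝ} [hH : Fact (0 < H)]

theorem conv_comm (a b : ℤ → CI H) (n : ℤ) : conv a b n = conv b a n := by
  unfold conv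
  rw [← (Equiv.subLeft n).tsum_eq (fun m => b m * a (n - m))]
  refine tsum_congr fun m => ?_
  rw [Equiv.subLeft_apply, sub_sub_cancel, mul_comm]

private theorem nsum {a b : ℤ → CI H} (ha : Summable fun n => ‖a n‖)
    (hb : Summable fun n => ‖b n‖) (n : ℤ) : Summable fun m => ‖a m * b (n - m)‖ :=
  Summable.of_nonneg_of_le (fun _ => norm_nonneg _) (fun _ => norm_mul_le _ _)
    ((young11 (fun _ => norm_nonneg _) (fun _ => norm_nonneg _) ha hb).1 n)

theorem conv_rc {a b : ℤ → CI H} (ha : Summable fun n => ‖a n‖) (hb : Summable fun n => ‖b n‖)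
    (g : CI H) (n : ℤ) : g * conv a b n = conv a (fun m => g * b m) n := by
  unfold conv
  rw [← (nsum ha hb n).of_norm.tsum_mul_left g]
  refine tsum_congr fun m => ?_
  ring

theorem n2_conv_le {a b : ℤ → CI H} (ha : Summable fun n => ‖a n‖) (hb : Summable fun n => ‖b n‖)
    (n : ℤ) : n2 (conv a b n) ≤ ∑' m, ‖a m‖ * n2 (b (n - m)) := by
  unfold conv
  refine (n2_tsum_le (nsum ha hb n)).trans ?_
  exact (n2_summable (nsum ha hb n)).1.tsum_le_tsum (fun m => n2_mul_le _ _)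
    ((young11 (fun _ => norm_nonneg _) (fun _ => n2_nonneg _) ha (n2_summable hb).1).1 n)

theorem n1_conv_le {a b : ℤ → CI H} (ha : Summable fun n => ‖a n‖) (hb : Summable fun n => ‖b n‖)
    (n : ℤ) : n1 (conv a b n) ≤ ∑' m, n2 (a m) * n2 (b (n - m)) := by
  unfold conv
  refine (n1_tsum_le (nsum ha hb n)).trans ?_
  exact (n1_summable (nsum ha hb n)).tsum_le_tsum (fun m => n1_mul_le _ _)
    ((young11 (fun _ => n2_nonneg _) (fun _ => n2_nonneg _) (n2_summable ha).1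
      (n2_summable hb).1).1 n)

theorem conv_l1l2 {a b : ℤ → CI H} (ha : Summable fun n => ‖a n‖) (hb : Summable fun n => ‖b n‖) :
    (Summable fun n => n2 (conv a b n)) ∧
      ∑' n, n2 (conv a b n) ≤ (∑' n, ‖a n‖) * ∑' n, n2 (b n) := by
  have h := young11 (a := fun n => ‖a n‖) (b := fun n => n2 (b n)) (fun _ => norm_nonneg _)
    (fun _ => n2_nonneg _) ha (n2_summable hb).1
  have h1 : Summable fun n => n2 (conv a b n) :=
    Summable.of_nonneg_of_le (fun _ => n2_nonneg _) (fun n => n2_conv_le ha hb n) h.2.1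
  refine ⟨h1, ?_⟩
  rw [← h.2.2]
  exact h1.tsum_le_tsum (fun n => n2_conv_le ha hb n) h.2.1

theorem conv_l2l2 {a b : ℤ → CI H} (ha : Summable fun n => ‖a n‖) (hb : Summable fun n => ‖b n‖) :
    (Summable fun n => n2 (conv a b n) ^ 2) ∧
      ∑' n, n2 (conv a b n) ^ 2 ≤ (∑' n, ‖a n‖) ^ 2 * ∑' n, n2 (b n) ^ 2 := by
  have h := young12 (a := fun n => ‖a n‖) (b := fun n => n2 (b n)) (fun _ => norm_nonneg _)
    (fun _ => n2_nonneg _) ha (n2_summable hb).2
  have hle : ∀ n, n2 (conv a b n) ^ 2 ≤ (∑' m, ‖a m‖ * n2 (b (n - m))) ^ 2 := fun n =>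
    pow_le_pow_left₀ (n2_nonneg _) (n2_conv_le ha hb n) 2
  have h1 : Summable fun n => n2 (conv a b n) ^ 2 :=
    Summable.of_nonneg_of_le (fun _ => sq_nonneg _) hle h.2.1
  exact ⟨h1, (h1.tsum_le_tsum hle h.2.1).trans h.2.2⟩

theorem conv_n1l2 {a b : ℤ → CI H} (ha : Summable fun n => ‖a n‖) (hb : Summable fun n => ‖b n‖) :
    (Summable fun n => n1 (conv a b n) ^ 2) ∧
      ∑' n, n1 (conv a b n) ^ 2 ≤ (∑' n, n2 (a n)) ^ 2 * ∑' n, n2 (b n) ^ 2 := by
  have h := young12 (a := fun n => n2 (a n)) (b := fun n => n2 (b n)) (fun _ => n2_nonneg _)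
    (fun _ => n2_nonneg _) (n2_summable ha).1 (n2_summable hb).2
  have hle : ∀ n, n1 (conv a b n) ^ 2 ≤ (∑' m, n2 (a m) * n2 (b (n - m))) ^ 2 := fun n =>
    pow_le_pow_left₀ (n1_nonneg _) (n1_conv_le ha hb n) 2
  have h1 : Summable fun n => n1 (conv a b n) ^ 2 :=
    Summable.of_nonneg_of_le (fun _ => sq_nonneg _) hle h.2.1
  exact ⟨h1, (h1.tsum_le_tsum hle h.2.1).trans h.2.2⟩

end

end Pool.Agent.Lib.MP_79abb3_an.FW
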