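import Pool.Agent.Lib.MP_79abb3_an.FW.OpNb
import Pool.Agent.Lib.MP_79abb3_an.FW.OpNc
import Pool.Agent.Lib.MP_79abb3_an.FW.SumsB
import Pool.Agent.Lib.MP_79abb3_an.FW.VelB
import Pool.Agent.Lib.MP_79abb3_an.FW.YoungB

/-!
FW-17: weighted energy, static part, outer velocity (3.3).
-/

set_option autoImplicit false
set_option linter.unusedSectionVars false

open MeasureTheory Set Filter Topology Function

namespace Pool.Agent.Lib.MP_79abb3_an.FW

open Pool.Agent.Lib.MP_79abb3_an.P25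

section
variable {H : ℝ} [hH : Fact (0 < H)]

private theorem wEa_cs {u v : ℤ → ℝ} (hu : ∀ n, 0 ≤ u n) (hv : ∀ n, 0 ≤ v n)
    (su : Summable fun n => u n ^ 2) (sv : Summable fun n => v n ^ 2) :
    (Summable fun n => u n * v n) ∧
      ∑' n, u n * v n ≤ √(∑' n, u n ^ 2) * √(∑' n, v n ^ 2) := by
  have hu2 : ∀ n : ℤ, u n ^ (2:ℝ) = u n ^ 2 := fun n => Real.rpow_two _
  have hv2 : ∀ n : ℤ, v n ^ (2:ℝ) = v n ^ 2 := fun n => Real.rpow_two _
  have key := Real.summable_and_inner_le_Lp_mul_Lq_tsum_of_nonneg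
    (f := u) (g := v) Real.HolderConjugate.two_two hu hv
    (by simp only [hu2]; exact su) (by simp only [hv2]; exact sv)
  refine ⟨key.1, key.2.trans (le_of_eq ?_)⟩
  simp only [hu2, hv2]
  rw [← Real.sqrt_eq_rpow, ← Real.sqrt_eq_rpow]

private theorem wEa_norm (z1 M : ℝ) (f : CI H) {z : ℝ} (hz : z ∈ Icc (0:ℝ) H) :
    ‖ex (rc (tht z1 M) (tht_cont z1 M) * f) z‖ = tht z1 M z * ‖ex f z‖ := by
  rw [ex_mul, ex_rc _ _ hz, norm_mul, Complex.norm_real, Real.norm_eq_abs,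
    abs_of_nonneg (tht_nonneg z1 M z)]

private theorem wEa_int (z1 M : ℝ) (f : CI H) :
    ∫ z in (0:ℝ)..H, tht z1 M z ^ 2 * ‖ex f z‖ ^ 2 =
      n2 (rc (tht z1 M) (tht_cont z1 M) * f) ^ 2 := by
  rw [n2_sq]
  refine intervalIntegral.integral_congr fun z hz => ?_
  have hz' : z ∈ Icc (0:ℝ) H := by
    rwa [uIcc_of_le hH.out.le] at hz
  show _ = ‖ex (rc (tht z1 M) (tht_cont z1 M) * f) z‖ ^ 2
  rw [wEa_norm z1 M f hz', mul_pow]

private theorem wEa_fo (ω : ℝ) (x : ℤ → Xn H) (n : ℤ) :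
    fo ω (iv x) n = (x n).2.2.2 - (x n).2.2.1 := fo_eq (fun _ => rfl) n

/-- The weight times the vorticity of the inner part. -/
theorem wE_om (z1 M : ℝ) (x : L1 (Xn H)) (ω : ℝ) :
    (Summable fun n => n2 (rc (tht z1 M) (tht_cont z1 M) * fo ω (iv x) n) ^ 2) ∧
      ∑' n, n2 (rc (tht z1 M) (tht_cont z1 M) * fo ω (iv x) n) ^ 2 ≤ 2 * Gw z1 M x := by
  have ct := tht_cont z1 M
  have sG := (fun_summable x 0 0 z1 M ω).2.2.2.2.2.1
  have hb : ∀ n, n2 (rc (tht z1 M) (tht_cont z1 M) * fo ω (iv x) n) ^ 2 ≤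
      2 * ∫ z in (0:ℝ)..H, tht z1 M z ^ 2 * (‖ex (x n).2.2.1 z‖ ^ 2 + ‖ex (x n).2.2.2 z‖ ^ 2) := by
    intro n
    have c1 := continuous_ex (x n).2.2.1
    have c2 := continuous_ex (x n).2.2.2
    have c3 := continuous_ex (fo ω (iv x) n)
    rw [← wEa_int, ← intervalIntegral.integral_const_mul]
    refine intervalIntegral.integral_mono_on hH.out.le ?_ ?_ fun z hz => ?_
    · exact Continuous.intervalIntegrable (by fun_prop) _ _
    · exact Continuous.intervalIntegrable (by fun_prop) _ _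
    · rw [wEa_fo, ex_sub]
      have h1 := norm_sub_le (ex (x n).2.2.2 z) (ex (x n).2.2.1 z)
      have h2 := norm_nonneg (ex (x n).2.2.2 z - ex (x n).2.2.1 z)
      have h3 : ‖ex (x n).2.2.2 z - ex (x n).2.2.1 z‖ ^ 2 ≤
          2 * (‖ex (x n).2.2.1 z‖ ^ 2 + ‖ex (x n).2.2.2 z‖ ^ 2) := by
        nlinarith [sq_nonneg (‖ex (x n).2.2.2 z‖ - ‖ex (x n).2.2.1 z‖)]
      have h4 := mul_le_mul_of_nonneg_left h3 (sq_nonneg (tht z1 M z))
      linarith
  have s1 : Summable fun n => n2 (rc (tht z1 M) (tht_cont z1 M) * fo ω (iv x) n) ^ 2 :=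
    Summable.of_nonneg_of_le (fun n => sq_nonneg _) hb (sG.mul_left 2)
  refine ⟨s1, (s1.tsum_le_tsum hb (sG.mul_left 2)).trans (le_of_eq ?_)⟩
  rw [tsum_mul_left]
  rfl

private theorem wEa_one (f : CI H) : rc (fun _ => 1) continuous_const * f = f := by
  refine ci_ext fun z hz => ?_
  rw [ex_mul, ex_rc _ _ hz]
  simp

private theorem wEa_T {z1 M : ℝ} (hz1 : 0 < z1) (hM : 0 ≤ M) (k : ℝ) (f V : CI H) :
    ∫ z in (0:ℝ)..H, tht z1 M z ^ 2 * ((|k| * ‖ex (Top k f) z‖) * ‖ex V z‖) ≤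
      n2 (rc (tht z1 M) (tht_cont z1 M) * V) * n2 (rc (tht z1 M) (tht_cont z1 M) * f) := by
  have h := (wTop (p := tht z1 M) (q := fun _ => 1) (r := fun _ => 1) (s := tht z1 M)
    (tht_cont z1 M) continuous_const continuous_const (tht_cont z1 M) (tht_nonneg z1 M)
    (fun _ => zero_le_one) (fun _ => zero_le_one) (tht_nonneg z1 M) (fun z x hzx => by
      rw [mul_one, one_mul]
      refine (tht_mono hz1 hM hzx).trans ?_
      have h1 : Real.exp (-(M * (x - z))) ≤ 1 := by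
        rw [Real.exp_le_one_iff]
        have := mul_nonneg hM (sub_nonneg.2 hzx)
        linarith
      exact mul_le_of_le_one_left (tht_nonneg z1 M x) h1) k f).2
      (rc (tht z1 M) (tht_cont z1 M) * V)
  rw [wEa_one, wEa_one] at h
  refine le_trans (le_of_eq ?_) h
  rw [← intervalIntegral.integral_const_mul]
  refine intervalIntegral.integral_congr fun z hz => ?_
  have hz' : z ∈ Icc (0:ℝ) H := by
    rwa [uIcc_of_le hH.out.le] at hz
  show _ = |k| * (tht z1 M z * ‖ex (rc (tht z1 M) (tht_cont z1 M) * V) z‖ * ‖ex (Top k f) z‖)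
  rw [wEa_norm z1 M V hz']
  ring

private theorem wEa_P {z1 M : ℝ} (f V : CI H) :
    ∫ z in (0:ℝ)..H, tht z1 M z ^ 2 * (‖ex f z‖ * ‖ex V z‖) ≤
      n2 (rc (tht z1 M) (tht_cont z1 M) * V) * n2 (rc (tht z1 M) (tht_cont z1 M) * f) := by
  refine le_trans (le_of_eq ?_) (n1_mul_le _ _)
  unfold n1
  refine intervalIntegral.integral_congr fun z hz => ?_
  have hz' : z ∈ Icc (0:ℝ) H := by
    rwa [uIcc_of_le hH.out.le] at hz
  show _ = ‖ex (rc (tht z1 M) (tht_cont z1 M) * V * (rc (tht z1 M) (tht_cont z1 M) * f)) z‖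
  rw [ex_mul, norm_mul, wEa_norm z1 M V hz', wEa_norm z1 M f hz']
  ring

theorem wE_o {ω : ℝ} (hω : 0 < ω) {N : ℕ} (hN : 1 ≤ N) {a z1 M : ℝ} (hz1 : 0 < z1) (hM : 0 ≤ M)
    {x : L1 (Xn H)} (hx : ∀ n : ℤ, Cm (ω * n) (ex (pu ω N a n : Xn H).2.1 0) (x n)) :
    (Summable fun n => ∫ z in (0:ℝ)..H,
      tht z1 M z ^ 2 * (‖ex (Bf ω (iv x) (ov ω x) n).2 z‖ * ‖ex (x n).2.1 z‖)) ∧
    ∑' n, ∫ z in (0:ℝ)..H, tht z1 M z ^ 2 * (‖ex (Bf ω (iv x) (ov ω x) n).2 z‖ * ‖ex (x n).2.1 z‖) ≤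
      6 * bt ω x * √(Ew z1 M x) * √(Gw z1 M x) := by
  have ct := tht_cont z1 M
  set θ : CI H := rc (tht z1 M) (tht_cont z1 M) with hθ
  have hfs := fun_summable x 0 0 z1 M ω
  have sbt : Summable fun n : ℤ => ‖Top (ω * n) (x n).1.1‖ := hfs.2.2.2.1
  have sEw := hfs.2.2.2.2.1
  -- summability of the factors
  have sfo : Summable fun n => ‖fo ω (iv x) n‖ := by
    refine Summable.of_nonneg_of_le (fun n => norm_nonneg _) (fun n => ?_)
      ((l1_summable x).mul_left 2)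
    rw [wEa_fo]
    have h1 : ‖(x n).2.2.2‖ ≤ ‖x n‖ :=
      ((norm_snd_le (x n).2.2).trans (norm_snd_le (x n).2)).trans (norm_snd_le (x n))
    have h2 : ‖(x n).2.2.1‖ ≤ ‖x n‖ :=
      ((norm_fst_le (x n).2.2).trans (norm_snd_le (x n).2)).trans (norm_snd_le (x n))
    have h3 := norm_sub_le (x n).2.2.2 (x n).2.2.1
    linarith
  have hfw : ∀ n : ℤ, ‖fw ω (ov ω x) n‖ ≤ ‖Top (ω * n) (x n).1.1‖ := fun n =>
    (vel_bounds (a := ov ω x) (fun _ => rfl) n).1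
  have hfv : ∀ n : ℤ, ‖fv ω (ov ω x) n‖ ≤ 2 * ‖Top (ω * n) (x n).1.1‖ := fun n =>
    (vel_bounds (a := ov ω x) (fun _ => rfl) n).2.2.2.1
  have sfw : Summable fun n => ‖fw ω (ov ω x) n‖ :=
    Summable.of_nonneg_of_le (fun n => norm_nonneg _) hfw sbt
  have sfv : Summable fun n => ‖fv ω (ov ω x) n‖ :=
    Summable.of_nonneg_of_le (fun n => norm_nonneg _) hfv (sbt.mul_left 2)
  have hbt0 : 0 ≤ bt ω x := tsum_nonneg fun n => norm_nonneg _
  have tfw : ∑' n, ‖fw ω (ov ω x) n‖ ≤ bt ω x := sfw.tsum_le_tsum hfw sbt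
  have tfv : ∑' n, ‖fv ω (ov ω x) n‖ ≤ 2 * bt ω x := by
    refine (sfv.tsum_le_tsum hfv (sbt.mul_left 2)).trans (le_of_eq ?_)
    rw [tsum_mul_left]
    rfl
  have sθfo : Summable fun n => ‖θ * fo ω (iv x) n‖ :=
    Summable.of_nonneg_of_le (fun n => norm_nonneg _) (fun n => norm_mul_le _ _)
      (sfo.mul_left ‖θ‖)
  obtain ⟨som, tom⟩ := wE_om z1 M x ω
  have hG0 : 0 ≤ Gw z1 M x := by
    have : 0 ≤ ∑' n, n2 (rc (tht z1 M) (tht_cont z1 M) * fo ω (iv x) n) ^ 2 :=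
      tsum_nonneg fun n => sq_nonneg _
    linarith
  -- the weighted convolutions
  have hc : ∀ w : ℤ → CI H, (Summable fun n => ‖w n‖) → ∀ n,
      θ * conv (fo ω (iv x)) w n = conv w (fun m => θ * fo ω (iv x) m) n := by
    intro w hw n
    rw [conv_comm, conv_rc hw sfo]
  have hcb : ∀ (w : ℤ → CI H) (B : ℝ), (Summable fun n => ‖w n‖) → ∑' n, ‖w n‖ ≤ B →
      (Summable fun n => n2 (θ * conv (fo ω (iv x)) w n) ^ 2) ∧
        √(∑' n, n2 (θ * conv (fo ω (iv x)) w n) ^ 2) ≤ B * √(2 * Gw z1 M x) := by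
    intro w B hw hB
    have hw0 : 0 ≤ ∑' n, ‖w n‖ := tsum_nonneg fun n => norm_nonneg _
    have hB0 : 0 ≤ B := hw0.trans hB
    simp only [hc w hw]
    obtain ⟨h1, h2⟩ := conv_l2l2 hw sθfo
    refine ⟨h1, ?_⟩
    refine Real.sqrt_le_iff.2 ⟨by positivity, h2.trans ?_⟩
    rw [mul_pow, Real.sq_sqrt (by positivity)]
    exact mul_le_mul (pow_le_pow_left₀ hw0 hB 2) tom (tsum_nonneg fun n => sq_nonneg _)
      (by positivity)
  obtain ⟨s1, t1⟩ := hcb (fw ω (ov ω x)) (bt ω x) sfw tfw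
  obtain ⟨s2, t2⟩ := hcb (fv ω (ov ω x)) (2 * bt ω x) sfv tfv
  -- the weighted velocity
  have sV : Summable fun n => n2 (θ * (x n).2.1) ^ 2 := by
    refine sEw.congr fun n => ?_
    rw [hθ, ← wEa_int]
  have tV : ∑' n, n2 (θ * (x n).2.1) ^ 2 = Ew z1 M x := by
    unfold Ew
    refine tsum_congr fun n => ?_
    rw [hθ, ← wEa_int]
  obtain ⟨p1, q1⟩ := wEa_cs (fun n => n2_nonneg (θ * (x n).2.1))
    (fun n => n2_nonneg (θ * conv (fo ω (iv x)) (fw ω (ov ω x)) n)) sV s1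
  obtain ⟨p2, q2⟩ := wEa_cs (fun n => n2_nonneg (θ * (x n).2.1))
    (fun n => n2_nonneg (θ * conv (fo ω (iv x)) (fv ω (ov ω x)) n)) sV s2
  -- the bound of one term
  have hterm : ∀ n : ℤ, ∫ z in (0:ℝ)..H,
      tht z1 M z ^ 2 * (‖ex (Bf ω (iv x) (ov ω x) n).2 z‖ * ‖ex (x n).2.1 z‖) ≤
      2 * (n2 (θ * (x n).2.1) * n2 (θ * conv (fo ω (iv x)) (fw ω (ov ω x)) n)) +
        n2 (θ * (x n).2.1) * n2 (θ * conv (fo ω (iv x)) (fv ω (ov ω x)) n) := by
    intro n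
    set c1 := conv (fo ω (iv x)) (fw ω (ov ω x)) n with hc1
    set c2 := conv (fo ω (iv x)) (fv ω (ov ω x)) n with hc2
    have i0 := continuous_ex (Bf ω (iv x) (ov ω x) n).2
    have i1 := continuous_ex c1
    have i2 := continuous_ex (Top (ω * n) c1)
    have i3 := continuous_ex (Top (ω * n) c2)
    have i4 := continuous_ex (x n).2.1
    have hP : ∀ z, ‖ex (Bf ω (iv x) (ov ω x) n).2 z‖ ≤
        ‖ex c1 z‖ + |ω * n| * ‖ex (Top (ω * n) c1) z‖ + |ω * n| * ‖ex (Top (ω * n) c2) z‖ := by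
      intro z
      rw [Bf2_eq (a := iv x) (b := ov ω x) (fun _ => rfl) (fun _ => rfl) n, ← hc1, ← hc2, map_add,
        ex_sub, ex_add]
      have e1 : ex (Top (ω * n) (|ω * n| • c1)) z = |ω * n| * ex (Top (ω * n) c1) z := by
        rw [show Top (ω * n) (|ω * n| • c1) = |ω * n| • Top (ω * n) c1 from
          (Top (ω * n)).map_smul_of_tower _ _, ex_rsmul]
      have e2 : ex (Top (ω * n) ((Complex.I * ((ω * n : ℝ) : ℂ)) • c2)) z =
          (Complex.I * ((ω * n : ℝ) : ℂ)) * ex (Top (ω * n) c2) z := by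
        rw [map_smul, ex_smul]
      rw [e1, e2]
      have n1' : ‖((|ω * n| : ℝ) : ℂ) * ex (Top (ω * n) c1) z‖ =
          |ω * n| * ‖ex (Top (ω * n) c1) z‖ := by
        rw [norm_mul, Complex.norm_real, Real.norm_eq_abs, abs_abs]
      have n2' : ‖(Complex.I * ((ω * n : ℝ) : ℂ)) * ex (Top (ω * n) c2) z‖ =
          |ω * n| * ‖ex (Top (ω * n) c2) z‖ := by
        rw [norm_mul, norm_mul, Complex.norm_I, one_mul, Complex.norm_real, Real.norm_eq_abs]
      rw [← n1', ← n2']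
      refine (norm_sub_le _ _).trans ?_
      have := norm_add_le (((|ω * n| : ℝ) : ℂ) * ex (Top (ω * n) c1) z)
        ((Complex.I * ((ω * n : ℝ) : ℂ)) * ex (Top (ω * n) c2) z)
      linarith
    have hm : ∫ z in (0:ℝ)..H,
        tht z1 M z ^ 2 * (‖ex (Bf ω (iv x) (ov ω x) n).2 z‖ * ‖ex (x n).2.1 z‖) ≤
        (∫ z in (0:ℝ)..H, tht z1 M z ^ 2 * (‖ex c1 z‖ * ‖ex (x n).2.1 z‖)) +
        (∫ z in (0:ℝ)..H, tht z1 M z ^ 2 *
          ((|ω * n| * ‖ex (Top (ω * n) c1) z‖) * ‖ex (x n).2.1 z‖)) +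
        ∫ z in (0:ℝ)..H, tht z1 M z ^ 2 *
          ((|ω * n| * ‖ex (Top (ω * n) c2) z‖) * ‖ex (x n).2.1 z‖) := by
      rw [← intervalIntegral.integral_add, ← intervalIntegral.integral_add]
      · refine intervalIntegral.integral_mono_on hH.out.le ?_ ?_ fun z _ => ?_
        · exact Continuous.intervalIntegrable (by fun_prop) _ _
        · exact Continuous.intervalIntegrable (by fun_prop) _ _
        · have h1 := mul_le_mul_of_nonneg_right (hP z) (norm_nonneg (ex (x n).2.1 z))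
          have h2 := mul_le_mul_of_nonneg_left h1 (sq_nonneg (tht z1 M z))
          linarith
      · exact Continuous.intervalIntegrable (by fun_prop) _ _
      · exact Continuous.intervalIntegrable (by fun_prop) _ _
      · exact Continuous.intervalIntegrable (by fun_prop) _ _
      · exact Continuous.intervalIntegrable (by fun_prop) _ _
    have b1 := wEa_P (z1 := z1) (M := M) c1 (x n).2.1
    have b2 := wEa_T hz1 hM (ω * n) c1 (x n).2.1
    have b3 := wEa_T hz1 hM (ω * n) c2 (x n).2.1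
    linarith
  have hnn : ∀ n : ℤ, 0 ≤ ∫ z in (0:ℝ)..H,
      tht z1 M z ^ 2 * (‖ex (Bf ω (iv x) (ov ω x) n).2 z‖ * ‖ex (x n).2.1 z‖) := fun n =>
    intervalIntegral.integral_nonneg hH.out.le fun z _ => by positivity
  have sR := (p1.mul_left 2).add p2
  have sL := Summable.of_nonneg_of_le hnn hterm sR
  refine ⟨sL, (sL.tsum_le_tsum hterm sR).trans ?_⟩
  rw [(p1.mul_left 2).tsum_add p2, tsum_mul_left]
  rw [tV] at q1 q2
  have hE := Real.sqrt_nonneg (Ew z1 M x)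
  have hG := Real.sqrt_nonneg (Gw z1 M x)
  have r1 := mul_le_mul_of_nonneg_left t1 hE
  have r2 := mul_le_mul_of_nonneg_left t2 hE
  have h2G : √(2 * Gw z1 M x) ≤ 3 / 2 * √(Gw z1 M x) := by
    rw [Real.sqrt_mul (by norm_num)]
    refine mul_le_mul_of_nonneg_right ?_ hG
    rw [Real.sqrt_le_iff]
    norm_num
  have h3 : √(Ew z1 M x) * (bt ω x * √(2 * Gw z1 M x)) ≤
      √(Ew z1 M x) * (bt ω x * (3 / 2 * √(Gw z1 M x))) := by gcongr
  linarith

end

end Pool.Agent.Lib.MP_79abb3_an.FW
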