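import Pool.Agent.Lib.MP_79abb3_an.FW.NormsC
import Pool.Agent.Lib.MP_79abb3_an.FW.VelC
import Pool.Agent.Lib.MP_79abb3_an.FW.WEa

/-!
FW-18: weighted energy, static part, inner velocity (3.3).
-/

set_option autoImplicit false
set_option linter.unusedSectionVars false

open MeasureTheory Set Filter Topology Function

namespace Pool.Agent.Lib.MP_79abb3_an.FW

open Pool.Agent.Lib.MP_79abb3_an.P25

/-- Cauchy-Schwarz for sums. -/
private theorem wb_cs {A B : ℤ → ℝ} (hA : ∀ n, 0 ≤ A n) (hB : ∀ n, 0 ≤ B n)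
    (sA : Summable fun n => A n ^ 2) (sB : Summable fun n => B n ^ 2) :
    (Summable fun n => A n * B n) ∧
      ∑' n, A n * B n ≤ √(∑' n, A n ^ 2) * √(∑' n, B n ^ 2) := by
  have hs : Summable fun n => A n * B n := by
    refine Summable.of_nonneg_of_le (fun n => mul_nonneg (hA n) (hB n)) (fun n => ?_) (sA.add sB)
    nlinarith [sq_nonneg (A n - B n), sq_nonneg (A n), sq_nonneg (B n)]
  refine ⟨hs, ?_⟩
  refine hs.tsum_le_of_sum_le fun s => ?_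
  have h1 := Finset.sum_mul_sq_le_sq_mul_sq s A B
  have h2 : ∑ n ∈ s, A n ^ 2 ≤ ∑' n, A n ^ 2 := sA.sum_le_tsum s (fun n _ => sq_nonneg _)
  have h3 : ∑ n ∈ s, B n ^ 2 ≤ ∑' n, B n ^ 2 := sB.sum_le_tsum s (fun n _ => sq_nonneg _)
  have h4 : 0 ≤ ∑' n, A n ^ 2 := tsum_nonneg fun n => sq_nonneg _
  rw [← Real.sqrt_mul h4]
  refine (le_abs_self _).trans (Real.abs_le_sqrt (h1.trans ?_))
  exact mul_le_mul h2 h3 (Finset.sum_nonneg fun n _ => sq_nonneg _) h4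

section
variable {H : ℝ} [hH : Fact (0 < H)]

private theorem wb_int (z1 M : ℝ) (f : CI H) :
    ∫ z in (0:ℝ)..H, tht z1 M z ^ 2 * ‖ex f z‖ ^ 2 =
      n2 (rc (tht z1 M) (tht_cont z1 M) * f) ^ 2 := by
  rw [n2_sq]
  refine intervalIntegral.integral_congr fun z hz => ?_
  have hz' : z ∈ Icc (0:ℝ) H := by
    rwa [uIcc_of_le hH.out.le] at hz
  rw [ex_mul, ex_rc _ _ hz', norm_mul, mul_pow, Complex.norm_real, Real.norm_eq_abs, sq_abs]

private theorem wb_int2 (z1 M : ℝ) (f g : CI H) :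
    ∫ z in (0:ℝ)..H, tht z1 M z ^ 2 * (‖ex f z‖ ^ 2 + ‖ex g z‖ ^ 2) =
      n2 (rc (tht z1 M) (tht_cont z1 M) * f) ^ 2 +
        n2 (rc (tht z1 M) (tht_cont z1 M) * g) ^ 2 := by
  rw [← wb_int, ← wb_int, ← intervalIntegral.integral_add]
  · refine intervalIntegral.integral_congr fun z _ => ?_
    ring
  · exact (((tht_cont z1 M).pow 2).mul ((continuous_ex f).norm.pow 2)).intervalIntegrable _ _
  · exact (((tht_cont z1 M).pow 2).mul ((continuous_ex g).norm.pow 2)).intervalIntegrable _ _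

private theorem wb_norm {F : ℝ → ℝ} (cF : Continuous F) (hF : ∀ z, 0 ≤ F z) (f : CI H) {z : ℝ}
    (hz : z ∈ Icc (0:ℝ) H) : ‖ex (rc F cF * f) z‖ = F z * ‖ex f z‖ := by
  rw [ex_mul, ex_rc _ _ hz, norm_mul, Complex.norm_real, Real.norm_eq_abs, abs_of_nonneg (hF z)]

/-- The weighted bound for the operator `Top`. -/
private theorem wb_Top {z1 M : ℝ} (hz1 : 0 < z1) (hM : 0 ≤ M) (k : ℝ) (f : CI H) :
    |k| * n1 (rc (tht z1 M) (tht_cont z1 M) * Top k f) ≤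
      n1 (rc (tht z1 M) (tht_cont z1 M) * f) := by
  have hcf := continuous_ex f
  have hct := tht_cont z1 M
  have hcG : Continuous (fun x : ℝ => ((tht z1 M x * ‖ex f x‖ : ℝ) : ℂ)) :=
    Complex.continuous_ofReal.comp (hct.mul hcf.norm)
  let G : CI H := mkCI (fun x : ℝ => ((tht z1 M x * ‖ex f x‖ : ℝ) : ℂ)) hcG.continuousOn
  have hG : ∀ x ∈ Icc (0:ℝ) H, ex G x = ((tht z1 M x * ‖ex f x‖ : ℝ) : ℂ) :=
    fun x hx => ex_mkCI _ hx
  have hTG : ∀ z ∈ Icc (0:ℝ) H, ex (Top k G) z =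
      (((∫ x in z..H, Real.exp (-|k| * (x - z)) * (tht z1 M x * ‖ex f x‖)) : ℝ) : ℂ) := by
    intro z hz
    rw [Top_apply k G hz, ← intervalIntegral.integral_ofReal]
    apply intervalIntegral.integral_congr
    intro x hx
    rw [uIcc_of_le hz.2] at hx
    have hx' : x ∈ Icc (0:ℝ) H := ⟨hz.1.trans hx.1, hx.2⟩
    simp only
    rw [hG x hx']
    push_cast
    ring
  have hone : (rc (fun _ : ℝ => (1:ℝ)) continuous_const * f : CI H) = f := by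
    refine ci_ext fun z hz => ?_
    rw [ex_mul, ex_rc _ _ hz, Complex.ofReal_one, one_mul]
  have hmono : ∀ z x, z ≤ x → tht z1 M z * 1 ≤ 1 * tht z1 M x := by
    intro z x hzx
    rw [mul_one, one_mul]
    refine (tht_mono hz1 hM hzx).trans ?_
    have h1 : Real.exp (-(M * (x - z))) ≤ 1 := by
      rw [Real.exp_le_one_iff]
      have := mul_nonneg hM (sub_nonneg.2 hzx)
      linarith
    have := mul_le_mul_of_nonneg_right h1 (tht_nonneg z1 M x)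
    linarith
  have hpt := (wTop hct continuous_const continuous_const hct (tht_nonneg z1 M)
    (fun _ => zero_le_one) (fun _ => zero_le_one) (tht_nonneg z1 M) hmono k f).1
  rw [hone] at hpt
  have h1 : n1 (rc (tht z1 M) hct * Top k f) ≤ n1 (Top k G) := by
    refine n1_mono fun z hz => ?_
    rw [wb_norm hct (tht_nonneg z1 M) _ hz, hTG z hz, Complex.norm_real, Real.norm_eq_abs]
    refine le_trans (hpt z hz) ?_
    rw [one_mul]
    exact le_abs_self _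
  have h2 : n1 G ≤ n1 (rc (tht z1 M) hct * f) := by
    refine n1_mono fun z hz => ?_
    rw [wb_norm hct (tht_nonneg z1 M) _ hz, hG z hz, Complex.norm_real, Real.norm_eq_abs,
      abs_of_nonneg (mul_nonneg (tht_nonneg z1 M z) (norm_nonneg _))]
  calc |k| * n1 (rc (tht z1 M) hct * Top k f) ≤ |k| * n1 (Top k G) :=
        mul_le_mul_of_nonneg_left h1 (abs_nonneg k)
    _ ≤ n1 G := n1_Top k G
    _ ≤ _ := h2

private theorem wb_mode (z1 M : ℝ) (P V : CI H) :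
    ∫ z in (0:ℝ)..H, tht z1 M z ^ 2 * (‖ex P z‖ * ‖ex V z‖) ≤
      ‖rc (tht z1 M) (tht_cont z1 M) * V‖ * n1 (rc (tht z1 M) (tht_cont z1 M) * P) := by
  unfold n1
  rw [← intervalIntegral.integral_const_mul]
  apply intervalIntegral.integral_mono_on hH.out.le
  · exact (((tht_cont z1 M).pow 2).mul
      ((continuous_ex P).norm.mul (continuous_ex V).norm)).intervalIntegrable _ _
  · exact (continuous_const.mul (continuous_ex _).norm).intervalIntegrable _ _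
  · intro z hz
    have h1 := norm_ex_le (rc (tht z1 M) (tht_cont z1 M) * V) z
    rw [wb_norm (tht_cont z1 M) (tht_nonneg z1 M) V hz] at h1
    rw [wb_norm (tht_cont z1 M) (tht_nonneg z1 M) P hz]
    have h2 : 0 ≤ tht z1 M z * ‖ex P z‖ := mul_nonneg (tht_nonneg z1 M z) (norm_nonneg _)
    have h3 := mul_le_mul_of_nonneg_right h1 h2
    calc tht z1 M z ^ 2 * (‖ex P z‖ * ‖ex V z‖) =
        tht z1 M z * ‖ex V z‖ * (tht z1 M z * ‖ex P z‖) := by ring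
      _ ≤ _ := h3

private theorem wb_P {z1 M : ℝ} (hz1 : 0 < z1) (hM : 0 ≤ M) (k : ℝ) (c1 c2 : CI H) :
    n1 (rc (tht z1 M) (tht_cont z1 M) *
      (c1 - Top k (|k| • c1 + (Complex.I * ((k : ℝ) : ℂ)) • c2))) ≤
    2 * n1 (rc (tht z1 M) (tht_cont z1 M) * c1) + n1 (rc (tht z1 M) (tht_cont z1 M) * c2) := by
  set Θ : CI H := rc (tht z1 M) (tht_cont z1 M) with hΘ
  have e : Θ * (c1 - Top k (|k| • c1 + (Complex.I * ((k : ℝ) : ℂ)) • c2)) =
      Θ * c1 + (-((|k| : ℝ) : ℂ)) • (Θ * Top k c1) +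
        (-(Complex.I * ((k : ℝ) : ℂ))) • (Θ * Top k c2) := by
    have e1 : (|k| • c1 : CI H) = ((|k| : ℝ) : ℂ) • c1 := rfl
    rw [e1, map_add, map_smul, map_smul]
    refine ci_ext fun z _ => ?_
    simp only [ex_mul, ex_add, ex_sub, ex_smul]
    ring
  rw [e]
  have h1 := n1_add (Θ * c1 + (-((|k| : ℝ) : ℂ)) • (Θ * Top k c1))
    ((-(Complex.I * ((k : ℝ) : ℂ))) • (Θ * Top k c2))
  have h2 := n1_add (Θ * c1) ((-((|k| : ℝ) : ℂ)) • (Θ * Top k c1))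
  have h3 : n1 ((-((|k| : ℝ) : ℂ)) • (Θ * Top k c1)) = |k| * n1 (Θ * Top k c1) := by
    rw [n1_smul, norm_neg, Complex.norm_real, Real.norm_eq_abs, abs_abs]
  have h4 : n1 ((-(Complex.I * ((k : ℝ) : ℂ))) • (Θ * Top k c2)) = |k| * n1 (Θ * Top k c2) := by
    rw [n1_smul, norm_neg, norm_mul, Complex.norm_I, one_mul, Complex.norm_real, Real.norm_eq_abs]
  have h5 := wb_Top hz1 hM k c1
  have h6 := wb_Top hz1 hM k c2
  rw [← hΘ] at h5 h6
  linarith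

private theorem wb_isD {z1 M : ℝ} (hz1 : 0 < z1) {V V1 : CI H} (h : IsD V V1) :
    IsD (rc (tht z1 M) (tht_cont z1 M) * V)
      (rc (tht1 z1 M) (tht1_cont z1 M) * V + rc (tht z1 M) (tht_cont z1 M) * V1) := by
  intro z hz
  have h1 : HasDerivWithinAt (fun z : ℝ => ((tht z1 M z : ℝ) : ℂ)) ((tht1 z1 M z : ℝ) : ℂ)
      (Icc 0 H) z := ((tht_deriv hz1 z).ofReal_comp).hasDerivWithinAt
  have h2 := h1.mul (h z hz)
  have h3 : HasDerivWithinAt (ex (rc (tht z1 M) (tht_cont z1 M) * V))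
      (((tht1 z1 M z : ℝ) : ℂ) * ex V z + ((tht z1 M z : ℝ) : ℂ) * ex V1 z) (Icc 0 H) z := by
    refine h2.congr (fun y hy => ?_) ?_
    · rw [ex_mul, ex_rc _ _ hy]; rfl
    · rw [ex_mul, ex_rc _ _ hz]; rfl
  rw [ex_add, ex_mul, ex_mul, ex_rc _ _ hz, ex_rc _ _ hz]
  exact h3

private theorem wb_V {z1 M : ℝ} (hz1 : 0 < z1) (hM : 0 ≤ M) {V V1 : CI H} (h : IsD V V1) :
    ‖rc (tht z1 M) (tht_cont z1 M) * V‖ ^ 2 ≤
      2 * (n2 (rc (tht z1 M) (tht_cont z1 M) * V) *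
        n2 (rc (tht1 z1 M) (tht1_cont z1 M) * V + rc (tht z1 M) (tht_cont z1 M) * V1)) ∧
    n2 (rc (tht1 z1 M) (tht1_cont z1 M) * V + rc (tht z1 M) (tht_cont z1 M) * V1) ^ 2 ≤
      2 * n2 (rc (tht z1 M) (tht_cont z1 M) * V1) ^ 2 +
        4 * (M + 2 / z1) ^ 2 * n2 (rc (tht z1 M) (tht_cont z1 M) * V) ^ 2 +
        16 / z1 ^ 2 * n2 V ^ 2 := by
  constructor
  · have h0 : ex (rc (tht z1 M) (tht_cont z1 M) * V) 0 = 0 := by
      rw [ex_mul, ex_rc _ _ ⟨le_refl _, hH.out.le⟩, tht_zero hz1 hz1.le]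
      simp
    have := agmon (wb_isD (M := M) hz1 h) h0
    linarith
  · have h1 := n2_add (rc (tht1 z1 M) (tht1_cont z1 M) * V) (rc (tht z1 M) (tht_cont z1 M) * V1)
    have h2 : n2 (rc (tht1 z1 M) (tht1_cont z1 M) * V) ^ 2 ≤
        2 * (M + 2 / z1) ^ 2 * n2 (rc (tht z1 M) (tht_cont z1 M) * V) ^ 2 +
          8 / z1 ^ 2 * n2 V ^ 2 := by
      rw [n2_sq, n2_sq, n2_sq, ← intervalIntegral.integral_const_mul,
        ← intervalIntegral.integral_const_mul, ← intervalIntegral.integral_add]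
      · apply intervalIntegral.integral_mono_on hH.out.le
        · exact ((continuous_ex _).norm.pow 2).intervalIntegrable _ _
        · exact ((continuous_const.mul ((continuous_ex _).norm.pow 2)).add
            (continuous_const.mul ((continuous_ex _).norm.pow 2))).intervalIntegrable _ _
        · intro z hz
          rw [wb_norm (tht_cont z1 M) (tht_nonneg z1 M) V hz, ex_mul, ex_rc _ _ hz, norm_mul,
            Complex.norm_real, Real.norm_eq_abs, mul_pow, sq_abs, mul_pow]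
          have h3 := mul_le_mul_of_nonneg_right (tht1_sq_le hz1 hM z) (sq_nonneg ‖ex V z‖)
          linarith
      · exact (continuous_const.mul ((continuous_ex _).norm.pow 2)).intervalIntegrable _ _
      · exact (continuous_const.mul ((continuous_ex _).norm.pow 2)).intervalIntegrable _ _
    have n_1 := n2_nonneg (rc (tht1 z1 M) (tht1_cont z1 M) * V)
    have n_2 := n2_nonneg (rc (tht z1 M) (tht_cont z1 M) * V1)
    have n_3 := n2_nonneg (rc (tht1 z1 M) (tht1_cont z1 M) * V + rc (tht z1 M) (tht_cont z1 M) * V1)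
    have h4 : n2 (rc (tht1 z1 M) (tht1_cont z1 M) * V + rc (tht z1 M) (tht_cont z1 M) * V1) ^ 2 ≤
        2 * n2 (rc (tht1 z1 M) (tht1_cont z1 M) * V) ^ 2 +
          2 * n2 (rc (tht z1 M) (tht_cont z1 M) * V1) ^ 2 := by
      have h5 := pow_le_pow_left₀ n_3 h1 2
      nlinarith [sq_nonneg (n2 (rc (tht1 z1 M) (tht1_cont z1 M) * V) -
        n2 (rc (tht z1 M) (tht_cont z1 M) * V1))]
    have e : 2 * (2 * (M + 2 / z1) ^ 2 * n2 (rc (tht z1 M) (tht_cont z1 M) * V) ^ 2 +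
          8 / z1 ^ 2 * n2 V ^ 2) = 4 * (M + 2 / z1) ^ 2 *
            n2 (rc (tht z1 M) (tht_cont z1 M) * V) ^ 2 + 16 / z1 ^ 2 * n2 V ^ 2 := by ring
    linarith

theorem wE_i {ω : ℝ} (hω : 0 < ω) {N : ℕ} (hN : 1 ≤ N) {a z1 M : ℝ} (hz1 : 0 < z1) (hM : 0 ≤ M)
    {x : L1 (Xn H)} (hx : ∀ n : ℤ, Cm (ω * n) (ex (pu ω N a n : Xn H).2.1 0) (x n)) :
    (Summable fun n => ∫ z in (0:ℝ)..H,
      tht z1 M z ^ 2 * (‖ex (Bf ω (iv x) (iv x) n).2 z‖ * ‖ex (x n).2.1 z‖)) ∧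
    ∑' n, ∫ z in (0:ℝ)..H, tht z1 M z ^ 2 * (‖ex (Bf ω (iv x) (iv x) n).2 z‖ * ‖ex (x n).2.1 z‖) ≤
      6 * yy x * √(Gw z1 M x) * √(2 * √(Ew z1 M x) *
        √(2 * Gw z1 M x + 4 * (M + 2 / z1) ^ 2 * Ew z1 M x + 16 / z1 ^ 2 * yy x ^ 2)) := by
  have _ := hω
  set Θ : CI H := rc (tht z1 M) (tht_cont z1 M) with hΘ
  have hV : VF ω (iv x) := VF_iv hx
  have hvo : ∀ n, (iv x n).1 = 0 := hV.o
  have fs := fun_summable x (ω * N) a z1 M ω
  obtain ⟨fs1, -, -, -, fs5, fs6, -, -⟩ := fs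
  -- summability of norms
  have snorm : Summable fun n => ‖iv x n‖ := hV.s
  have hn21 : ∀ n, ‖(iv x n).2.1‖ ≤ ‖iv x n‖ := fun n =>
    (norm_fst_le (iv x n).2).trans (norm_snd_le (iv x n))
  have sfw : Summable fun n => ‖fw ω (iv x) n‖ :=
    Summable.of_nonneg_of_le (fun n => norm_nonneg _)
      (fun n => (vel_bounds (ω := ω) hvo n).1.trans (hn21 n)) snorm
  have sfv : Summable fun n => ‖fv ω (iv x) n‖ :=
    Summable.of_nonneg_of_le (fun n => norm_nonneg _)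
      (fun n => (vel_bounds (ω := ω) hvo n).2.2.2.1.trans
        (mul_le_mul_of_nonneg_left (hn21 n) zero_le_two)) (snorm.mul_left 2)
  have sfo : Summable fun n => ‖fo ω (iv x) n‖ := by
    refine Summable.of_nonneg_of_le (fun n => norm_nonneg _) (fun n => ?_) (snorm.mul_left 2)
    rw [fo_eq (ω := ω) hvo n]
    have h1 : ‖(iv x n).2.2.2‖ ≤ ‖iv x n‖ :=
      (norm_snd_le (iv x n).2.2).trans ((norm_snd_le (iv x n).2).trans (norm_snd_le (iv x n)))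
    have h2 : ‖(iv x n).2.2.1‖ ≤ ‖iv x n‖ :=
      (norm_fst_le (iv x n).2.2).trans ((norm_snd_le (iv x n).2).trans (norm_snd_le (iv x n)))
    have h3 := norm_sub_le (iv x n).2.2.2 (iv x n).2.2.1
    linarith
  have sΘo : Summable fun n => ‖Θ * fo ω (iv x) n‖ :=
    Summable.of_nonneg_of_le (fun n => norm_nonneg _) (fun n => norm_mul_le _ _)
      (sfo.mul_left ‖Θ‖)
  -- the vorticity
  have hom := wE_om z1 M x ω
  rw [← hΘ] at hom
  -- sums of the velocity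
  have hyy : ∑' n, n2 (x n).2.1 = yy x := rfl
  have hyy0 : 0 ≤ yy x := tsum_nonneg fun n => n2_nonneg _
  have sw2 : (Summable fun n => n2 (fw ω (iv x) n)) ∧ ∑' n, n2 (fw ω (iv x) n) ≤ yy x := by
    have h1 : ∀ n, n2 (fw ω (iv x) n) ≤ n2 (x n).2.1 := fun n => (vel_bounds (ω := ω) hvo n).2.1
    have h2 := Summable.of_nonneg_of_le (fun n => n2_nonneg _) h1 fs1
    exact ⟨h2, h2.tsum_le_tsum h1 fs1⟩
  have sv2 : (Summable fun n => n2 (fv ω (iv x) n)) ∧ ∑' n, n2 (fv ω (iv x) n) ≤ 2 * yy x := by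
    have h1 : ∀ n, n2 (fv ω (iv x) n) ≤ 2 * n2 (x n).2.1 :=
      fun n => (vel_bounds (ω := ω) hvo n).2.2.2.2.1
    have h2 := Summable.of_nonneg_of_le (fun n => n2_nonneg _) h1 (fs1.mul_left 2)
    refine ⟨h2, (h2.tsum_le_tsum h1 (fs1.mul_left 2)).trans_eq ?_⟩
    rw [tsum_mul_left, hyy]
  have hw0 : 0 ≤ ∑' n, n2 (fw ω (iv x) n) := tsum_nonneg fun n => n2_nonneg _
  have hv0 : 0 ≤ ∑' n, n2 (fv ω (iv x) n) := tsum_nonneg fun n => n2_nonneg _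
  have hG0 : 0 ≤ Gw z1 M x := by
    refine tsum_nonneg fun n => ?_
    rw [wb_int2]
    positivity
  have hE0 : 0 ≤ Ew z1 M x := by
    refine tsum_nonneg fun n => ?_
    rw [wb_int]
    positivity
  -- the two convolutions
  have hc1 : (Summable fun n => n1 (Θ * conv (fo ω (iv x)) (fw ω (iv x)) n) ^ 2) ∧
      ∑' n, n1 (Θ * conv (fo ω (iv x)) (fw ω (iv x)) n) ^ 2 ≤ yy x ^ 2 * (2 * Gw z1 M x) := by
    have e : ∀ n, Θ * conv (fo ω (iv x)) (fw ω (iv x)) n =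
        conv (fw ω (iv x)) (fun m => Θ * fo ω (iv x) m) n := by
      intro n
      rw [conv_comm, conv_rc sfw sfo]
    simp only [e]
    have h := conv_n1l2 sfw sΘo
    refine ⟨h.1, h.2.trans ?_⟩
    have h1 : (∑' n, n2 (fw ω (iv x) n)) ^ 2 ≤ yy x ^ 2 := pow_le_pow_left₀ hw0 sw2.2 2
    exact mul_le_mul h1 hom.2 (tsum_nonneg fun n => sq_nonneg _) (sq_nonneg _)
  have hc2 : (Summable fun n => n1 (Θ * conv (fo ω (iv x)) (fv ω (iv x)) n) ^ 2) ∧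
      ∑' n, n1 (Θ * conv (fo ω (iv x)) (fv ω (iv x)) n) ^ 2 ≤
        (2 * yy x) ^ 2 * (2 * Gw z1 M x) := by
    have e : ∀ n, Θ * conv (fo ω (iv x)) (fv ω (iv x)) n =
        conv (fv ω (iv x)) (fun m => Θ * fo ω (iv x) m) n := by
      intro n
      rw [conv_comm, conv_rc sfv sfo]
    simp only [e]
    have h := conv_n1l2 sfv sΘo
    refine ⟨h.1, h.2.trans ?_⟩
    have h1 : (∑' n, n2 (fv ω (iv x) n)) ^ 2 ≤ (2 * yy x) ^ 2 := pow_le_pow_left₀ hv0 sv2.2 2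
    exact mul_le_mul h1 hom.2 (tsum_nonneg fun n => sq_nonneg _) (sq_nonneg _)
  -- the nonlinear term
  have hB : ∀ n, n1 (Θ * (Bf ω (iv x) (iv x) n).2) ^ 2 ≤
      8 * n1 (Θ * conv (fo ω (iv x)) (fw ω (iv x)) n) ^ 2 +
        2 * n1 (Θ * conv (fo ω (iv x)) (fv ω (iv x)) n) ^ 2 := by
    intro n
    rw [Bf2_eq hvo hvo n]
    have h1 := wb_P (H := H) hz1 hM (ω * n) (conv (fo ω (iv x)) (fw ω (iv x)) n)
      (conv (fo ω (iv x)) (fv ω (iv x)) n)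
    rw [← hΘ] at h1
    have h2 := pow_le_pow_left₀ (n1_nonneg _) h1 2
    nlinarith [sq_nonneg (2 * n1 (Θ * conv (fo ω (iv x)) (fw ω (iv x)) n) -
      n1 (Θ * conv (fo ω (iv x)) (fv ω (iv x)) n))]
  have hBs : (Summable fun n => n1 (Θ * (Bf ω (iv x) (iv x) n).2) ^ 2) ∧
      ∑' n, n1 (Θ * (Bf ω (iv x) (iv x) n).2) ^ 2 ≤ 36 * (yy x ^ 2 * Gw z1 M x) := by
    have s1 := (hc1.1.mul_left 8).add (hc2.1.mul_left 2)
    have h1 := Summable.of_nonneg_of_le (fun n => sq_nonneg _) hB s1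
    refine ⟨h1, (h1.tsum_le_tsum hB s1).trans ?_⟩
    rw [(hc1.1.mul_left 8).tsum_add (hc2.1.mul_left 2), tsum_mul_left, tsum_mul_left]
    have h3 : 0 ≤ yy x ^ 2 * Gw z1 M x := by positivity
    nlinarith [hc1.2, hc2.2]
  -- the velocity in sup norm
  have sE : Summable fun n => n2 (Θ * (x n).2.1) ^ 2 := by
    have := fs5
    simp only [wb_int] at this
    exact this
  have eE : ∑' n, n2 (Θ * (x n).2.1) ^ 2 = Ew z1 M x := by
    unfold Ew
    exact tsum_congr fun n => (wb_int z1 M _).symm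
  have sG' : Summable fun n => n2 (Θ * (x n).2.2.1) ^ 2 + n2 (Θ * (x n).2.2.2) ^ 2 := by
    have := fs6
    simp only [wb_int2] at this
    exact this
  have sG : (Summable fun n => n2 (Θ * (x n).2.2.1) ^ 2) ∧
      ∑' n, n2 (Θ * (x n).2.2.1) ^ 2 ≤ Gw z1 M x := by
    have h1 : ∀ n, n2 (Θ * (x n).2.2.1) ^ 2 ≤
        n2 (Θ * (x n).2.2.1) ^ 2 + n2 (Θ * (x n).2.2.2) ^ 2 := fun n =>
      le_add_of_nonneg_right (sq_nonneg _)
    have h2 := Summable.of_nonneg_of_le (fun n => sq_nonneg _) h1 sG'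
    refine ⟨h2, (h2.tsum_le_tsum h1 sG').trans_eq ?_⟩
    unfold Gw
    exact tsum_congr fun n => (wb_int2 z1 M _ _).symm
  have sy2 : (Summable fun n => n2 (x n).2.1 ^ 2) ∧ ∑' n, n2 (x n).2.1 ^ 2 ≤ yy x ^ 2 := by
    have h1 : ∀ n, n2 (x n).2.1 ^ 2 ≤ yy x * n2 (x n).2.1 := by
      intro n
      have h2 : n2 (x n).2.1 ≤ yy x := fs1.le_tsum n (fun m _ => n2_nonneg _)
      nlinarith [n2_nonneg (x n).2.1]
    have h2 := Summable.of_nonneg_of_le (fun n => sq_nonneg _) h1 (fs1.mul_left (yy x))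
    refine ⟨h2, (h2.tsum_le_tsum h1 (fs1.mul_left (yy x))).trans_eq ?_⟩
    rw [tsum_mul_left, hyy, sq]
  set D : ℤ → CI H := fun n => rc (tht1 z1 M) (tht1_cont z1 M) * (x n).2.1 + Θ * (x n).2.2.1 with hD
  have hVn : ∀ n, ‖Θ * (x n).2.1‖ ^ 2 ≤ 2 * (n2 (Θ * (x n).2.1) * n2 (D n)) ∧
      n2 (D n) ^ 2 ≤ 2 * n2 (Θ * (x n).2.2.1) ^ 2 +
        4 * (M + 2 / z1) ^ 2 * n2 (Θ * (x n).2.1) ^ 2 + 16 / z1 ^ 2 * n2 (x n).2.1 ^ 2 :=
    fun n => wb_V hz1 hM (hx n).d2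
  have sD : (Summable fun n => n2 (D n) ^ 2) ∧ ∑' n, n2 (D n) ^ 2 ≤
      2 * Gw z1 M x + 4 * (M + 2 / z1) ^ 2 * Ew z1 M x + 16 / z1 ^ 2 * yy x ^ 2 := by
    have s1 := ((sG.1.mul_left 2).add (sE.mul_left (4 * (M + 2 / z1) ^ 2)))
    have s2 := s1.add (sy2.1.mul_left (16 / z1 ^ 2))
    have h1 := Summable.of_nonneg_of_le (fun n => sq_nonneg _) (fun n => (hVn n).2) s2
    refine ⟨h1, (h1.tsum_le_tsum (fun n => (hVn n).2) s2).trans ?_⟩
    rw [s1.tsum_add (sy2.1.mul_left (16 / z1 ^ 2)),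
      (sG.1.mul_left 2).tsum_add (sE.mul_left (4 * (M + 2 / z1) ^ 2)), tsum_mul_left,
      tsum_mul_left, tsum_mul_left, eE]
    have h2 : 0 ≤ 16 / z1 ^ 2 := by positivity
    have h3 := mul_le_mul_of_nonneg_left sy2.2 h2
    linarith [sG.2]
  have hcs1 := wb_cs (fun n => n2_nonneg (Θ * (x n).2.1)) (fun n => n2_nonneg (D n)) sE sD.1
  rw [eE] at hcs1
  set R : ℝ := 2 * Gw z1 M x + 4 * (M + 2 / z1) ^ 2 * Ew z1 M x + 16 / z1 ^ 2 * yy x ^ 2 with hR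
  have sV : (Summable fun n => ‖Θ * (x n).2.1‖ ^ 2) ∧
      ∑' n, ‖Θ * (x n).2.1‖ ^ 2 ≤ 2 * √(Ew z1 M x) * √R := by
    have s1 := hcs1.1.mul_left 2
    have h1 := Summable.of_nonneg_of_le (fun n => sq_nonneg _) (fun n => (hVn n).1) s1
    refine ⟨h1, (h1.tsum_le_tsum (fun n => (hVn n).1) s1).trans ?_⟩
    rw [tsum_mul_left]
    have h2 : √(∑' n, n2 (D n) ^ 2) ≤ √R := Real.sqrt_le_sqrt sD.2
    have h3 := mul_le_mul_of_nonneg_left h2 (Real.sqrt_nonneg (Ew z1 M x))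
    linarith [hcs1.2]
  -- conclusion
  have hcs2 := wb_cs (fun n => norm_nonneg (Θ * (x n).2.1))
    (fun n => n1_nonneg (Θ * (Bf ω (iv x) (iv x) n).2)) sV.1 hBs.1
  have hm : ∀ n, ∫ z in (0:ℝ)..H, tht z1 M z ^ 2 *
      (‖ex (Bf ω (iv x) (iv x) n).2 z‖ * ‖ex (x n).2.1 z‖) ≤
        ‖Θ * (x n).2.1‖ * n1 (Θ * (Bf ω (iv x) (iv x) n).2) := fun n => wb_mode z1 M _ _
  have h0 : ∀ n, 0 ≤ ∫ z in (0:ℝ)..H, tht z1 M z ^ 2 *
      (‖ex (Bf ω (iv x) (iv x) n).2 z‖ * ‖ex (x n).2.1 z‖) := fun n =>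
    intervalIntegral.integral_nonneg hH.out.le fun z _ => by positivity
  have hs := Summable.of_nonneg_of_le h0 hm hcs2.1
  refine ⟨hs, (hs.tsum_le_tsum hm hcs2.1).trans (hcs2.2.trans ?_)⟩
  have h1 : √(∑' n, ‖Θ * (x n).2.1‖ ^ 2) ≤ √(2 * √(Ew z1 M x) * √R) := Real.sqrt_le_sqrt sV.2
  have h2 : √(∑' n, n1 (Θ * (Bf ω (iv x) (iv x) n).2) ^ 2) ≤ 6 * yy x * √(Gw z1 M x) := by
    refine (Real.sqrt_le_sqrt hBs.2).trans_eq ?_
    have e : 36 * (yy x ^ 2 * Gw z1 M x) = (6 * yy x) ^ 2 * Gw z1 M x := by ring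
    rw [e, Real.sqrt_mul (sq_nonneg _), Real.sqrt_sq (by positivity)]
  calc √(∑' n, ‖Θ * (x n).2.1‖ ^ 2) * √(∑' n, n1 (Θ * (Bf ω (iv x) (iv x) n).2) ^ 2)
      ≤ √(2 * √(Ew z1 M x) * √R) * (6 * yy x * √(Gw z1 M x)) :=
        mul_le_mul h1 h2 (Real.sqrt_nonneg _) (Real.sqrt_nonneg _)
    _ = _ := by ring

end

end Pool.Agent.Lib.MP_79abb3_an.FW
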