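import Pool.Agent.Lib.MP_79abb3_an.FW.VelC
import Pool.Agent.Lib.MP_79abb3_an.FW.WEa

/-!
FW-19: weighted energy, static part, potential flow (3.3).
-/

set_option autoImplicit false
set_option linter.unusedSectionVars false

open MeasureTheory Set Filter Topology Function

namespace Pool.Agent.Lib.MP_79abb3_an.FW

open Pool.Agent.Lib.MP_79abb3_an.P25

section
variable {H : ℝ} [hH : Fact (0 < H)]

private theorem wc_conv {N : ℕ} (hN : 1 ≤ N) (a b : ℤ → CI H)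
    (hb : ∀ j : ℤ, j ≠ N → j ≠ -N → b j = 0) (n : ℤ) :
    conv a b n = a (n - N) * b N + a (n + N) * b (-N) := by
  unfold conv
  have hne : n - (N:ℤ) ≠ n + N := by omega
  rw [tsum_eq_sum (s := ({n - (N:ℤ), n + (N:ℤ)} : Finset ℤ))]
  · rw [Finset.sum_pair hne]
    have e1 : n - (n - (N:ℤ)) = N := by ring
    have e2 : n - (n + (N:ℤ)) = -N := by ring
    rw [e1, e2]
  · intro m hm
    simp only [Finset.mem_insert, Finset.mem_singleton, not_or] at hm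
    rw [hb (n - m) (by intro h; apply hm.1; omega) (by intro h; apply hm.2; omega), mul_zero]

private theorem wc_cs {f g : ℤ → ℝ} (hf : ∀ n, 0 ≤ f n) (hg : ∀ n, 0 ≤ g n)
    (sf : Summable fun n => f n ^ 2) (sg : Summable fun n => g n ^ 2) :
    (Summable fun n => f n * g n) ∧ ∑' n, f n * g n ≤ √(∑' n, f n ^ 2) * √(∑' n, g n ^ 2) := by
  have key := Real.summable_and_inner_le_Lp_mul_Lq_tsum_of_nonneg Real.HolderConjugate.two_two hf hg
    (by simpa using sf) (by simpa using sg)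
  refine ⟨key.1, key.2.trans (le_of_eq ?_)⟩
  simp only [Real.rpow_two, Real.sqrt_eq_rpow]

private theorem wc_sN0 {N : ℕ} (j : ℤ) (h1 : j ≠ N) (h2 : j ≠ -N) : sN N j = 0 := by
  unfold sN
  rw [if_neg h1, if_neg h2]

private theorem wc_sN1 {N : ℕ} : sN N (N:ℤ) = 1 := by
  unfold sN
  rw [if_pos rfl]

private theorem wc_sN2 {N : ℕ} (hN : 1 ≤ N) : sN N (-(N:ℤ)) = -1 := by
  unfold sN
  rw [if_neg (by omega), if_pos rfl]

/-- `(a/2) |sinh (m z)|` and `(a/2) cosh (m z)` -/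
private noncomputable def qs (m a z : ℝ) : ℝ := a / 2 * |Real.sinh (m * z)|
private noncomputable def qc (m a z : ℝ) : ℝ := a / 2 * Real.cosh (m * z)

private theorem qs_cont (m a : ℝ) : Continuous (qs m a) := by
  unfold qs
  fun_prop

private theorem qc_cont (m a : ℝ) : Continuous (qc m a) := by
  unfold qc
  fun_prop

private theorem qs_nonneg {m a : ℝ} (ha : 0 ≤ a) (z : ℝ) : 0 ≤ qs m a z := by
  unfold qs
  positivity

private theorem qc_nonneg {m a : ℝ} (ha : 0 ≤ a) (z : ℝ) : 0 ≤ qc m a z := by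
  unfold qc
  have := Real.cosh_pos (m * z)
  positivity

private theorem qs_le {m a : ℝ} (ha : 0 ≤ a) (z : ℝ) : qs m a z ≤ qc m a z := by
  unfold qs qc
  apply mul_le_mul_of_nonneg_left _ (by positivity)
  rw [abs_le]
  constructor
  · rw [← Real.cosh_neg, neg_le, ← Real.sinh_neg]
    exact (Real.sinh_lt_cosh _).le
  · exact (Real.sinh_lt_cosh _).le

private theorem wc_cosh {m z x : ℝ} (hm : 0 ≤ m) (h : z ≤ x) :
    Real.cosh (m * x) ≤ Real.exp (m * (x - z)) * Real.cosh (m * z) := by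
  have e : m * x = m * z + m * (x - z) := by ring
  have h1 : 0 ≤ m * (x - z) := mul_nonneg hm (by linarith)
  rw [e, Real.cosh_add, ← Real.cosh_add_sinh (m * (x - z))]
  have e2 : m * z + m * (x - z) - m * z = m * (x - z) := by ring
  have h2 : 0 ≤ Real.sinh (m * (x - z)) := Real.sinh_nonneg_iff.2 h1
  have h3 : Real.sinh (m * z) ≤ Real.cosh (m * z) := (Real.sinh_lt_cosh _).le
  nlinarith

private theorem wc_wt {m a z1 M : ℝ} (ha : 0 ≤ a) (hm : 0 ≤ m) (hz1 : 0 < z1) (hM : m ≤ M) {z x : ℝ}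
    (h : z ≤ x) : tht z1 M z * qc m a x ≤ qc m a z * tht z1 M x := by
  have h1 := tht_mono (M := M) hz1 (hm.trans hM) h
  have h2 := wc_cosh hm h
  have h3 : Real.exp (-(M * (x - z))) * Real.exp (m * (x - z)) ≤ 1 := by
    rw [← Real.exp_add]
    apply Real.exp_le_one_iff.2
    nlinarith
  have hx := tht_nonneg z1 M x
  have hz := tht_nonneg z1 M z
  have hc := Real.cosh_pos (m * z)
  have hcx := Real.cosh_pos (m * x)
  have h4 : tht z1 M z * Real.cosh (m * x) ≤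
      (Real.exp (-(M * (x - z))) * tht z1 M x) * (Real.exp (m * (x - z)) * Real.cosh (m * z)) :=
    mul_le_mul h1 h2 hcx.le (by positivity)
  have h5 : (Real.exp (-(M * (x - z))) * tht z1 M x) * (Real.exp (m * (x - z)) * Real.cosh (m * z)) ≤
      tht z1 M x * Real.cosh (m * z) := by
    have := mul_le_mul_of_nonneg_right h3 (mul_nonneg hx hc.le)
    nlinarith
  unfold qc
  have h6 := mul_le_mul_of_nonneg_left (h4.trans h5) (by positivity : 0 ≤ a / 2)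
  nlinarith

/-- The weighted pairing. -/
private noncomputable def FF (z1 M : ℝ) (V g : CI H) : ℝ :=
  ∫ z in (0:ℝ)..H, tht z1 M z ^ 2 * (‖ex g z‖ * ‖ex V z‖)

private theorem FF_int (z1 M : ℝ) (V g : CI H) :
    IntervalIntegrable (fun z => tht z1 M z ^ 2 * (‖ex g z‖ * ‖ex V z‖)) volume 0 H := by
  have h1 := continuous_ex g
  have h2 := continuous_ex V
  have h3 := tht_cont z1 M
  exact Continuous.intervalIntegrable (by fun_prop) _ _

private theorem FF_nonneg (z1 M : ℝ) (V g : CI H) : 0 ≤ FF z1 M V g :=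
  intervalIntegral.integral_nonneg hH.out.le fun z _ => by positivity

private theorem FF_add (z1 M : ℝ) (V g g' : CI H) : FF z1 M V (g + g') ≤ FF z1 M V g + FF z1 M V g' := by
  unfold FF
  rw [← intervalIntegral.integral_add (FF_int z1 M V g) (FF_int z1 M V g')]
  apply intervalIntegral.integral_mono_on hH.out.le (FF_int z1 M V _)
    ((FF_int z1 M V g).add (FF_int z1 M V g'))
  intro z _
  rw [ex_add, ← mul_add, ← add_mul]
  have := norm_add_le (ex g z) (ex g' z)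
  gcongr

private theorem FF_smul (z1 M : ℝ) (V g : CI H) (c : ℂ) : FF z1 M V (c • g) = ‖c‖ * FF z1 M V g := by
  unfold FF
  rw [← intervalIntegral.integral_const_mul]
  congr 1
  funext z
  rw [ex_smul, norm_mul]
  ring

private theorem FF_t1 {m a z1 M : ℝ} (ha : 0 ≤ a) (V f : CI H) :
    FF z1 M V (rc (qs m a) (qs_cont m a) * f) ≤
      n2 (rc (qc m a) (qc_cont m a) * (rc (tht z1 M) (tht_cont z1 M) * V)) *
        n2 (rc (tht z1 M) (tht_cont z1 M) * f) := by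
  have h1 : FF z1 M V (rc (qs m a) (qs_cont m a) * f) =
      n1 ((rc (qs m a) (qs_cont m a) * (rc (tht z1 M) (tht_cont z1 M) * V)) *
        (rc (tht z1 M) (tht_cont z1 M) * f)) := by
    unfold FF n1
    apply intervalIntegral.integral_congr
    intro z hz
    rw [uIcc_of_le hH.out.le] at hz
    have hs := qs_nonneg (m := m) ha z
    have ht := tht_nonneg z1 M z
    simp only [ex_mul, norm_mul, ex_rc _ _ hz, Complex.norm_real, Real.norm_eq_abs, abs_of_nonneg hs,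
      abs_of_nonneg ht]
    ring
  rw [h1]
  refine (n1_mul_le _ _).trans ?_
  apply mul_le_mul_of_nonneg_right _ (n2_nonneg _)
  apply n2_mono
  intro z hz
  have hs := qs_nonneg (m := m) ha z
  have hc := qc_nonneg (m := m) ha z
  have hle := qs_le (m := m) ha z
  simp only [ex_mul, norm_mul, ex_rc _ _ hz, Complex.norm_real, Real.norm_eq_abs, abs_of_nonneg hs,
    abs_of_nonneg hc]
  gcongr

private theorem FF_t2 {m a z1 M : ℝ} (ha : 0 ≤ a) (hm : 0 ≤ m) (hz1 : 0 < z1) (hM : m ≤ M)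
    {q : ℝ → ℝ} (cq : Continuous q) (hq0 : ∀ z, 0 ≤ q z) (hq : ∀ z, q z ≤ qc m a z) (k : ℝ) (V f : CI H) :
    |k| * FF z1 M V (Top k (rc q cq * f)) ≤
      n2 (rc (qc m a) (qc_cont m a) * (rc (tht z1 M) (tht_cont z1 M) * V)) *
        n2 (rc (tht z1 M) (tht_cont z1 M) * f) := by
  have h := (wTop (H := H) (p := tht z1 M) (q := q) (r := qc m a) (s := tht z1 M) (tht_cont z1 M) cq
    (qc_cont m a) (tht_cont z1 M) (tht_nonneg z1 M) hq0 (qc_nonneg ha) (tht_nonneg z1 M)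
    (fun z x hzx => (mul_le_mul_of_nonneg_left (hq x) (tht_nonneg z1 M z)).trans
      (wc_wt ha hm hz1 hM hzx)) k f).2 (rc (tht z1 M) (tht_cont z1 M) * V)
  refine le_trans (le_of_eq ?_) h
  congr 1
  unfold FF
  apply intervalIntegral.integral_congr
  intro z hz
  rw [uIcc_of_le hH.out.le] at hz
  have ht := tht_nonneg z1 M z
  simp only [ex_mul, norm_mul, ex_rc _ _ hz, Complex.norm_real, Real.norm_eq_abs, abs_of_nonneg ht]
  ring

private theorem wc_top (k c : ℝ) (f : CI H) : Top k (c • f) = c • Top k f :=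
  (Top k).map_smul_of_tower c f

private theorem wc_sinh {m : ℝ} (hm : 0 ≤ m) {z : ℝ} (hz : z ∈ Icc (0:ℝ) H) :
    |Real.sinh (m * z)| = Real.sinh (m * z) :=
  abs_of_nonneg (Real.sinh_nonneg_iff.2 (mul_nonneg hm hz.1))

private theorem wc_fw {ω : ℝ} (hω : 0 < ω) {N : ℕ} (hN : 1 ≤ N) (a : ℝ) :
    fw ω (pu ω N a : ℤ → Xn H) N = rc (qs (ω * N) a) (qs_cont _ _) ∧
      fw ω (pu ω N a : ℤ → Xn H) (-N) = rc (qs (ω * N) a) (qs_cont _ _) ∧
      ∀ j : ℤ, j ≠ N → j ≠ -N → fw ω (pu ω N a : ℤ → Xn H) j = 0 := by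
  have hm : 0 ≤ ω * N := by positivity
  refine ⟨ci_ext fun z hz => ?_, ci_ext fun z hz => ?_, fun j h1 h2 => ci_ext fun z hz => ?_⟩
  · rw [fw_pu a hω hN _ hz, ex_rc _ _ hz, wc_sN1, qs, wc_sinh hm hz]
    norm_num
  · rw [fw_pu a hω hN _ hz, ex_rc _ _ hz, wc_sN2 hN, qs, wc_sinh hm hz]
    norm_num
  · rw [fw_pu a hω hN _ hz, wc_sN0 j h1 h2, ex_zero]
    norm_num

private theorem wc_fv {ω : ℝ} (hω : 0 < ω) {N : ℕ} (hN : 1 ≤ N) (a : ℝ) :
    fv ω (pu ω N a : ℤ → Xn H) N = Complex.I • rc (qc (ω * N) a) (qc_cont _ _) ∧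
      fv ω (pu ω N a : ℤ → Xn H) (-N) = (-Complex.I) • rc (qc (ω * N) a) (qc_cont _ _) ∧
      ∀ j : ℤ, j ≠ N → j ≠ -N → fv ω (pu ω N a : ℤ → Xn H) j = 0 := by
  refine ⟨ci_ext fun z hz => ?_, ci_ext fun z hz => ?_, fun j h1 h2 => ci_ext fun z hz => ?_⟩
  · rw [fv_pu a hω hN _ hz, ex_smul, ex_rc _ _ hz, wc_sN1, qc, mul_one]
  · rw [fv_pu a hω hN _ hz, ex_smul, ex_rc _ _ hz, wc_sN2 hN, qc]
    push_cast
    ring
  · rw [fv_pu a hω hN _ hz, wc_sN0 j h1 h2, ex_zero]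
    norm_num

private theorem wc_Bf {ω : ℝ} (hω : 0 < ω) {N : ℕ} (hN : 1 ≤ N) (a : ℝ) (x : ℤ → Xn H) (n : ℤ) :
    (Bf ω (iv x) (pu ω N a) n).2 =
      rc (qs (ω * N) a) (qs_cont _ _) * fo ω (iv x) (n - N) +
      rc (qs (ω * N) a) (qs_cont _ _) * fo ω (iv x) (n + N) +
      (-((|ω * n| : ℝ) : ℂ)) • Top (ω * n) (rc (qs (ω * N) a) (qs_cont _ _) * fo ω (iv x) (n - N)) +
      (-((|ω * n| : ℝ) : ℂ)) • Top (ω * n) (rc (qs (ω * N) a) (qs_cont _ _) * fo ω (iv x) (n + N)) +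
      ((ω * n : ℝ) : ℂ) • Top (ω * n) (rc (qc (ω * N) a) (qc_cont _ _) * fo ω (iv x) (n - N)) +
      (-((ω * n : ℝ) : ℂ)) • Top (ω * n) (rc (qc (ω * N) a) (qc_cont _ _) * fo ω (iv x) (n + N)) := by
  obtain ⟨w1, w2, w3⟩ := wc_fw (H := H) hω hN a
  obtain ⟨v1, v2, v3⟩ := wc_fv (H := H) hω hN a
  rw [Bf2_eq (fun _ => rfl) (fun _ => rfl), wc_conv hN _ _ w3, wc_conv hN _ _ v3, w1, w2, v1, v2]
  set P : CI H := rc (qs (ω * N) a) (qs_cont _ _)
  set Q : CI H := rc (qc (ω * N) a) (qc_cont _ _)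
  set f := fo ω (iv x) (n - N)
  set g := fo ω (iv x) (n + N)
  have e1 : f * (Complex.I • Q) + g * ((-Complex.I) • Q) =
      Complex.I • (Q * f) + (-Complex.I) • (Q * g) := by
    refine ci_ext fun z _ => ?_
    simp only [ex_add, ex_mul, ex_smul]
    ring
  rw [e1, mul_comm f P, mul_comm g P, map_add, wc_top, map_smul, map_add, map_add, map_smul, map_smul]
  refine ci_ext fun z _ => ?_
  simp only [ex_add, ex_sub, ex_smul, ex_rsmul]
  push_cast
  linear_combination (-(ω * n) * ex (Top (ω * n) (Q * f)) z + (ω * n) * ex (Top (ω * n) (Q * g)) z) *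
    Complex.I_mul_I

private theorem wc_bound {ω : ℝ} (hω : 0 < ω) {N : ℕ} (hN : 1 ≤ N) {a z1 M : ℝ} (ha : 0 ≤ a)
    (hz1 : 0 < z1) (hM : ω * N ≤ M) (x : ℤ → Xn H) (n : ℤ) (V : CI H) :
    FF z1 M V (Bf ω (iv x) (pu ω N a) n).2 ≤
      3 * (n2 (rc (qc (ω * N) a) (qc_cont _ _) * (rc (tht z1 M) (tht_cont z1 M) * V)) *
        n2 (rc (tht z1 M) (tht_cont z1 M) * fo ω (iv x) (n - N))) +
      3 * (n2 (rc (qc (ω * N) a) (qc_cont _ _) * (rc (tht z1 M) (tht_cont z1 M) * V)) *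
        n2 (rc (tht z1 M) (tht_cont z1 M) * fo ω (iv x) (n + N))) := by
  have hm : 0 ≤ ω * N := by positivity
  rw [wc_Bf hω hN a x n]
  refine (FF_add _ _ _ _ _).trans ?_
  have h1 := FF_add z1 M V (rc (qs (ω * N) a) (qs_cont _ _) * fo ω (iv x) (n - N) +
      rc (qs (ω * N) a) (qs_cont _ _) * fo ω (iv x) (n + N) +
      (-((|ω * n| : ℝ) : ℂ)) • Top (ω * n) (rc (qs (ω * N) a) (qs_cont _ _) * fo ω (iv x) (n - N)) +
      (-((|ω * n| : ℝ) : ℂ)) • Top (ω * n) (rc (qs (ω * N) a) (qs_cont _ _) * fo ω (iv x) (n + N)))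
      (((ω * n : ℝ) : ℂ) • Top (ω * n) (rc (qc (ω * N) a) (qc_cont _ _) * fo ω (iv x) (n - N)))
  have h2 := FF_add z1 M V (rc (qs (ω * N) a) (qs_cont _ _) * fo ω (iv x) (n - N) +
      rc (qs (ω * N) a) (qs_cont _ _) * fo ω (iv x) (n + N) +
      (-((|ω * n| : ℝ) : ℂ)) • Top (ω * n) (rc (qs (ω * N) a) (qs_cont _ _) * fo ω (iv x) (n - N)))
      ((-((|ω * n| : ℝ) : ℂ)) • Top (ω * n) (rc (qs (ω * N) a) (qs_cont _ _) * fo ω (iv x) (n + N)))
  have h3 := FF_add z1 M V (rc (qs (ω * N) a) (qs_cont _ _) * fo ω (iv x) (n - N) +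
      rc (qs (ω * N) a) (qs_cont _ _) * fo ω (iv x) (n + N))
      ((-((|ω * n| : ℝ) : ℂ)) • Top (ω * n) (rc (qs (ω * N) a) (qs_cont _ _) * fo ω (iv x) (n - N)))
  have h4 := FF_add z1 M V (rc (qs (ω * N) a) (qs_cont _ _) * fo ω (iv x) (n - N))
      (rc (qs (ω * N) a) (qs_cont _ _) * fo ω (iv x) (n + N))
  rw [FF_smul, norm_neg, Complex.norm_real, Real.norm_eq_abs] at h2 h3 ⊢
  rw [FF_smul, Complex.norm_real, Real.norm_eq_abs] at h1
  rw [abs_abs] at h2 h3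
  have a1 := FF_t1 (z1 := z1) (M := M) (m := ω * N) ha V (fo ω (iv x) (n - N))
  have a2 := FF_t1 (z1 := z1) (M := M) (m := ω * N) ha V (fo ω (iv x) (n + N))
  have b1 := FF_t2 ha hm hz1 hM (qs_cont (ω * N) a) (qs_nonneg ha) (qs_le ha) (ω * n) V
    (fo ω (iv x) (n - N))
  have b2 := FF_t2 ha hm hz1 hM (qs_cont (ω * N) a) (qs_nonneg ha) (qs_le ha) (ω * n) V
    (fo ω (iv x) (n + N))
  have c1 := FF_t2 ha hm hz1 hM (qc_cont (ω * N) a) (qc_nonneg ha) (fun _ => le_rfl) (ω * n) V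
    (fo ω (iv x) (n - N))
  have c2 := FF_t2 ha hm hz1 hM (qc_cont (ω * N) a) (qc_nonneg ha) (fun _ => le_rfl) (ω * n) V
    (fo ω (iv x) (n + N))
  linarith

private theorem wc_sq_summable {f : ℤ → ℝ} (hf : ∀ n, 0 ≤ f n) (sf : Summable f) :
    Summable fun n => f n ^ 2 := by
  refine Summable.of_nonneg_of_le (fun n => sq_nonneg _) (fun n => ?_) (sf.mul_left (∑' j, f j))
  rw [sq]
  exact mul_le_mul_of_nonneg_right (sf.le_tsum n fun j _ => hf j) (hf n)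

theorem wE_U {ω : ℝ} (hω : 0 < ω) {N : ℕ} (hN : 1 ≤ N) {a z1 M : ℝ} (ha : 0 ≤ a) (hz1 : 0 < z1)
    (hM : ω * N ≤ M) {x : L1 (Xn H)}
    (hx : ∀ n : ℤ, Cm (ω * n) (ex (pu ω N a n : Xn H).2.1 0) (x n)) :
    (Summable fun n => ∫ z in (0:ℝ)..H, tht z1 M z ^ 2 * ((a * Real.cosh (ω * N * z)) ^ 2 *
      ‖ex (x n).2.1 z‖ ^ 2)) ∧
    (Summable fun n => ∫ z in (0:ℝ)..H,
      tht z1 M z ^ 2 * (‖ex (Bf ω (iv x) (pu ω N a) n).2 z‖ * ‖ex (x n).2.1 z‖)) ∧
    ∑' n, ∫ z in (0:ℝ)..H, tht z1 M z ^ 2 * (‖ex (Bf ω (iv x) (pu ω N a) n).2 z‖ * ‖ex (x n).2.1 z‖) ≤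
      5 * √(Gw z1 M x) * √(∑' n, ∫ z in (0:ℝ)..H, tht z1 M z ^ 2 * ((a * Real.cosh (ω * N * z)) ^ 2 *
        ‖ex (x n).2.1 z‖ ^ 2)) := by
  set X : ℤ → ℝ := fun n =>
    n2 (rc (qc (ω * N) a) (qc_cont _ _) * (rc (tht z1 M) (tht_cont z1 M) * (x n).2.1)) with hX
  set Y : ℤ → ℝ := fun n => n2 (rc (tht z1 M) (tht_cont z1 M) * fo ω (iv x) n) with hY
  have hX0 : ∀ n, 0 ≤ X n := fun n => n2_nonneg _
  have hY0 : ∀ n, 0 ≤ Y n := fun n => n2_nonneg _
  have hXsq : ∀ n, ∫ z in (0:ℝ)..H, tht z1 M z ^ 2 * ((a * Real.cosh (ω * N * z)) ^ 2 *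
      ‖ex (x n).2.1 z‖ ^ 2) = 4 * X n ^ 2 := by
    intro n
    rw [hX]
    simp only
    rw [n2_sq, ← intervalIntegral.integral_const_mul]
    apply intervalIntegral.integral_congr
    intro z hz
    rw [uIcc_of_le hH.out.le] at hz
    have ht := tht_nonneg z1 M z
    have hc := qc_nonneg (m := ω * N) ha z
    simp only [ex_mul, norm_mul, ex_rc _ _ hz, Complex.norm_real, Real.norm_eq_abs, abs_of_nonneg hc,
      abs_of_nonneg ht]
    unfold qc
    ring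
  have hb : ∀ n, ∫ z in (0:ℝ)..H,
      tht z1 M z ^ 2 * (‖ex (Bf ω (iv x) (pu ω N a) n).2 z‖ * ‖ex (x n).2.1 z‖) ≤
        3 * (X n * Y (n - N)) + 3 * (X n * Y (n + N)) :=
    fun n => wc_bound hω hN ha hz1 hM x n (x n).2.1
  have sX : Summable fun n => X n ^ 2 := by
    have h1 := (fun_summable x (ω * N) a z1 M ω).1
    have h2 := wc_sq_summable (fun n => n2_nonneg _) h1
    refine Summable.of_nonneg_of_le (fun n => sq_nonneg _) (fun n => ?_)
      (h2.mul_left (‖(rc (qc (ω * N) a) (qc_cont _ _) : CI H)‖ ^ 2 *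
        ‖(rc (tht z1 M) (tht_cont z1 M) : CI H)‖ ^ 2))
    rw [← mul_pow, ← mul_pow]
    have h3 : X n ≤ ‖(rc (qc (ω * N) a) (qc_cont _ _) : CI H)‖ *
        ‖(rc (tht z1 M) (tht_cont z1 M) : CI H)‖ * n2 (x n).2.1 := by
      rw [mul_assoc]
      exact (n2_mul_le _ _).trans (mul_le_mul_of_nonneg_left (n2_mul_le _ _) (norm_nonneg _))
    exact pow_le_pow_left₀ (hX0 n) h3 2
  have sY : Summable fun n => Y n ^ 2 := (wE_om z1 M x ω).1
  have bY : ∑' n, Y n ^ 2 ≤ 2 * Gw z1 M x := (wE_om z1 M x ω).2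
  clear_value X Y
  have sYm : Summable fun n : ℤ => Y (n - N) ^ 2 :=
    (Equiv.subRight (N:ℤ)).summable_iff (f := fun n => Y n ^ 2) |>.2 sY
  have sYp : Summable fun n : ℤ => Y (n + N) ^ 2 :=
    (Equiv.addRight (N:ℤ)).summable_iff (f := fun n => Y n ^ 2) |>.2 sY
  have tYm : ∑' n : ℤ, Y (n - N) ^ 2 = ∑' n, Y n ^ 2 :=
    (Equiv.subRight (N:ℤ)).tsum_eq fun n => Y n ^ 2
  have tYp : ∑' n : ℤ, Y (n + N) ^ 2 = ∑' n, Y n ^ 2 :=
    (Equiv.addRight (N:ℤ)).tsum_eq fun n => Y n ^ 2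
  obtain ⟨s1, b1⟩ := wc_cs hX0 (fun n => hY0 (n - N)) sX sYm
  obtain ⟨s2, b2⟩ := wc_cs hX0 (fun n => hY0 (n + N)) sX sYp
  have sB : Summable fun n : ℤ => 3 * (X n * Y (n - N)) + 3 * (X n * Y (n + N)) :=
    (s1.mul_left 3).add (s2.mul_left 3)
  have sI : Summable fun n => ∫ z in (0:ℝ)..H,
      tht z1 M z ^ 2 * (‖ex (Bf ω (iv x) (pu ω N a) n).2 z‖ * ‖ex (x n).2.1 z‖) :=
    Summable.of_nonneg_of_le (fun n => FF_nonneg z1 M _ _) hb sB
  refine ⟨?_, sI, ?_⟩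
  · simp only [hXsq]
    exact sX.mul_left 4
  · refine (sI.tsum_le_tsum hb sB).trans ?_
    rw [(s1.mul_left 3).tsum_add (s2.mul_left 3), tsum_mul_left, tsum_mul_left]
    simp only [hXsq]
    rw [tsum_mul_left]
    rw [tYm] at b1
    rw [tYp] at b2
    have hSX : 0 ≤ ∑' n, X n ^ 2 := tsum_nonneg fun n => sq_nonneg _
    have e4 : √(4 * ∑' n, X n ^ 2) = 2 * √(∑' n, X n ^ 2) := by
      rw [Real.sqrt_mul (by norm_num), show (4:ℝ) = 2 ^ 2 by norm_num, Real.sqrt_sq (by norm_num)]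
    have hG : √(∑' n, Y n ^ 2) ≤ 5 / 3 * √(Gw z1 M x) := by
      have h1 : √(∑' n, Y n ^ 2) ≤ √(2 * Gw z1 M x) := Real.sqrt_le_sqrt bY
      have h2 : √(2 * Gw z1 M x) = √2 * √(Gw z1 M x) := Real.sqrt_mul (by norm_num) _
      have h3 : √2 ≤ 5 / 3 := by
        rw [Real.sqrt_le_left (by norm_num)]
        norm_num
      rw [h2] at h1
      exact h1.trans (mul_le_mul_of_nonneg_right h3 (Real.sqrt_nonneg _))
    rw [e4]
    have hs := Real.sqrt_nonneg (∑' n, X n ^ 2)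
    have := mul_le_mul_of_nonneg_left hG hs
    nlinarith

end

end Pool.Agent.Lib.MP_79abb3_an.FW
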