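import Pool.Agent.Lib.MP_79abb3_an.FW.HEe
import Pool.Agent.Lib.MP_79abb3_an.FW.SumsA
import Pool.Agent.Lib.MP_79abb3_an.FW.WEb
import Pool.Agent.Lib.MP_79abb3_an.FW.WEc

/-!
FW-20: weighted energy inequality (3.3).
-/

set_option autoImplicit false
set_option linter.unusedSectionVars false

open MeasureTheory Set Filter Topology Function

namespace Pool.Agent.Lib.MP_79abb3_an.FW

open Pool.Agent.Lib.MP_79abb3_an.P25

section
variable {H : ℝ} [hH : Fact (0 < H)]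

/-- Time derivative of the weighted energy of a mode. -/
private noncomputable def wdE (z1 M k : ℝ) (f f1 G : CI H) : ℝ :=
  ∫ z in (0:ℝ)..H, (2 * (tht z1 M z ^ 2) * ((ex G z * star (ex f z)).re - ‖ex f1 z‖ ^ 2 -
    k ^ 2 * ‖ex f z‖ ^ 2) - 2 * (2 * tht z1 M z * tht1 z1 M z) * (ex f1 z * star (ex f z)).re)

/-- The weighted parts. -/
private noncomputable def wdI (z1 M : ℝ) (g f : CI H) : ℝ :=
  ∫ z in (0:ℝ)..H, tht z1 M z ^ 2 * (‖ex g z‖ * ‖ex f z‖)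

private noncomputable def wdX (z1 M m a : ℝ) (f : CI H) : ℝ :=
  ∫ z in (0:ℝ)..H, tht z1 M z ^ 2 * ((a * Real.cosh (m * z)) ^ 2 * ‖ex f z‖ ^ 2)

private noncomputable def wdG (z1 M : ℝ) (f1 f3 : CI H) : ℝ :=
  ∫ z in (0:ℝ)..H, tht z1 M z ^ 2 * (‖ex f1 z‖ ^ 2 + ‖ex f3 z‖ ^ 2)

private noncomputable def wdF (z1 M : ℝ) (f : CI H) : ℝ :=
  ∫ z in (0:ℝ)..H, tht z1 M z ^ 2 * ‖ex f z‖ ^ 2

private theorem wd_re_le (u v : ℂ) : |(u * star v).re| ≤ ‖u‖ * ‖v‖ := by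
  have h := Complex.abs_re_le_norm (u * star v)
  rwa [norm_mul, norm_star] at h

private theorem wd_self (c : ℝ) (v : ℂ) : (((c : ℂ) * v) * star v).re = c * ‖v‖ ^ 2 := by
  have h : v * star v = ((‖v‖ ^ 2 : ℝ) : ℂ) := by
    show v * (starRingEnd ℂ) v = _
    rw [Complex.mul_conj, Complex.normSq_eq_norm_sq]
  rw [mul_assoc, h, ← Complex.ofReal_mul, Complex.ofReal_re]

/-- Pointwise estimates. -/
private theorem wd_pt {z1 M k m a : ℝ} (hz1 : 0 < z1) (hM : 0 ≤ M) {f f1 f3 G Go Gi Gu : CI H}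
    (h3 : f3 = |k| • f) (hG : G = Go + Gi + Gu - kap m a * f) {z : ℝ} (hz : z ∈ Icc (0:ℝ) H) :
    (2 * (tht z1 M z ^ 2) * ((ex G z * star (ex f z)).re - ‖ex f1 z‖ ^ 2 -
      k ^ 2 * ‖ex f z‖ ^ 2) - 2 * (2 * tht z1 M z * tht1 z1 M z) * (ex f1 z * star (ex f z)).re ≤
      2 * (tht z1 M z ^ 2 * (‖ex Go z‖ * ‖ex f z‖)) + 2 * (tht z1 M z ^ 2 * (‖ex Gi z‖ * ‖ex f z‖)) +
      2 * (tht z1 M z ^ 2 * (‖ex Gu z‖ * ‖ex f z‖)) -
      128 * (tht z1 M z ^ 2 * ((a * Real.cosh (m * z)) ^ 2 * ‖ex f z‖ ^ 2)) -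
      7 / 4 * (tht z1 M z ^ 2 * (‖ex f1 z‖ ^ 2 + ‖ex f3 z‖ ^ 2)) +
      32 * (M + 2 / z1) ^ 2 * (tht z1 M z ^ 2 * ‖ex f z‖ ^ 2) + 128 / z1 ^ 2 * ‖ex f z‖ ^ 2) ∧
    (|2 * (tht z1 M z ^ 2) * ((ex G z * star (ex f z)).re - ‖ex f1 z‖ ^ 2 -
      k ^ 2 * ‖ex f z‖ ^ 2) - 2 * (2 * tht z1 M z * tht1 z1 M z) * (ex f1 z * star (ex f z)).re| ≤
      2 * (tht z1 M z ^ 2 * (‖ex Go z‖ * ‖ex f z‖)) + 2 * (tht z1 M z ^ 2 * (‖ex Gi z‖ * ‖ex f z‖)) +
      2 * (tht z1 M z ^ 2 * (‖ex Gu z‖ * ‖ex f z‖)) +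
      128 * (tht z1 M z ^ 2 * ((a * Real.cosh (m * z)) ^ 2 * ‖ex f z‖ ^ 2)) +
      3 * (tht z1 M z ^ 2 * (‖ex f1 z‖ ^ 2 + ‖ex f3 z‖ ^ 2)) +
      32 * (M + 2 / z1) ^ 2 * (tht z1 M z ^ 2 * ‖ex f z‖ ^ 2) + 128 / z1 ^ 2 * ‖ex f z‖ ^ 2) := by
  have e3 : ‖ex f3 z‖ ^ 2 = k ^ 2 * ‖ex f z‖ ^ 2 := by
    rw [h3, ex_rsmul, norm_mul, mul_pow, Complex.norm_real, Real.norm_eq_abs, sq_abs, sq_abs]
  have eG : (ex G z * star (ex f z)).re = (ex Go z * star (ex f z)).re + (ex Gi z * star (ex f z)).re +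
      (ex Gu z * star (ex f z)).re - 64 * (a * Real.cosh (m * z)) ^ 2 * ‖ex f z‖ ^ 2 := by
    rw [hG, ex_sub, ex_add, ex_add, ex_mul, kap, ex_rc _ _ hz, sub_mul, add_mul, add_mul,
      Complex.sub_re, Complex.add_re, Complex.add_re, wd_self]
    ring
  rw [eG, ← e3]
  have ho := abs_le.1 (wd_re_le (ex Go z) (ex f z))
  have hi := abs_le.1 (wd_re_le (ex Gi z) (ex f z))
  have hu := abs_le.1 (wd_re_le (ex Gu z) (ex f z))
  have h1 := abs_le.1 (wd_re_le (ex f1 z) (ex f z))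
  have hT := tht1_sq_le hz1 hM z
  have t0 := tht_nonneg z1 M z
  generalize (ex Go z * star (ex f z)).re = ro at *
  generalize (ex Gi z * star (ex f z)).re = ri at *
  generalize (ex Gu z * star (ex f z)).re = ru at *
  generalize (ex f1 z * star (ex f z)).re = r1 at *
  have n1' := norm_nonneg (ex f1 z)
  have nf := norm_nonneg (ex f z)
  generalize ‖ex Go z‖ * ‖ex f z‖ = po at *
  generalize ‖ex Gi z‖ * ‖ex f z‖ = pi at *
  generalize ‖ex Gu z‖ * ‖ex f z‖ = pu at *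
  generalize ‖ex f z‖ = F at *
  generalize ‖ex f1 z‖ = F1 at *
  generalize ‖ex f3 z‖ = F3 at *
  generalize tht1 z1 M z = s at *
  generalize tht z1 M z = t at *
  generalize a * Real.cosh (m * z) = c at *
  have t2 : 0 ≤ t ^ 2 := sq_nonneg _
  -- the term with the derivative of the weight
  have hs : |2 * (2 * t * s) * r1| ≤ 1 / 4 * (t ^ 2 * F1 ^ 2) + 16 * (s ^ 2 * F ^ 2) := by
    rw [abs_mul, abs_mul, abs_mul, abs_mul, abs_of_nonneg t0, abs_two]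
    have hr : |r1| ≤ F1 * F := abs_le.2 h1
    have h2 : 2 * (2 * t * |s|) * |r1| ≤ 2 * (2 * t * |s|) * (F1 * F) :=
      mul_le_mul_of_nonneg_left hr (by positivity)
    refine h2.trans ?_
    have h3' := sq_nonneg (1 / 2 * (t * F1) - 4 * (|s| * F))
    have h4 : |s| ^ 2 = s ^ 2 := sq_abs s
    have h5 : (1 / 2 * (t * F1) - 4 * (|s| * F)) ^ 2 =
        1 / 4 * (t ^ 2 * F1 ^ 2) + 16 * (s ^ 2 * F ^ 2) - 2 * (2 * t * |s|) * (F1 * F) := by
      rw [← h4]; ring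
    linarith
  have hs2 : 16 * (s ^ 2 * F ^ 2) ≤ 32 * (M + 2 / z1) ^ 2 * (t ^ 2 * F ^ 2) + 128 / z1 ^ 2 * F ^ 2 := by
    have h2 := mul_le_mul_of_nonneg_right hT (sq_nonneg F)
    have h3' : (2 * (M + 2 / z1) ^ 2 * t ^ 2 + 8 / z1 ^ 2) * F ^ 2 * 16 =
        32 * (M + 2 / z1) ^ 2 * (t ^ 2 * F ^ 2) + 128 / z1 ^ 2 * F ^ 2 := by ring
    linarith
  have ho' := mul_le_mul_of_nonneg_left ho.2 t2
  have hi' := mul_le_mul_of_nonneg_left hi.2 t2
  have hu' := mul_le_mul_of_nonneg_left hu.2 t2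
  have ho'' := mul_le_mul_of_nonneg_left ho.1 t2
  have hi'' := mul_le_mul_of_nonneg_left hi.1 t2
  have hu'' := mul_le_mul_of_nonneg_left hu.1 t2
  have q1 : 0 ≤ t ^ 2 * F1 ^ 2 := by positivity
  have q3 : 0 ≤ t ^ 2 * F3 ^ 2 := by positivity
  have qc : 0 ≤ t ^ 2 * (c ^ 2 * F ^ 2) := by positivity
  have hs' := abs_le.1 hs
  obtain ⟨hs1, hs3⟩ := hs'
  clear ho hi hu h1 hT hs t0 n1' nf eG e3 hG h3
  constructor
  · linarith
  · rw [abs_le]
    constructor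
    · linarith
    · linarith

private theorem wd_iint {F : ℝ → ℝ} (hF : Continuous F) : IntervalIntegrable F volume 0 H :=
  hF.intervalIntegrable _ _

private theorem wd_mode {z1 M k m a : ℝ} (hz1 : 0 < z1) (hM : 0 ≤ M) {f f1 f3 G Go Gi Gu : CI H}
    (h3 : f3 = |k| • f) (hG : G = Go + Gi + Gu - kap m a * f) :
    (wdE z1 M k f f1 G ≤ 2 * wdI z1 M Go f + 2 * wdI z1 M Gi f + 2 * wdI z1 M Gu f -
      128 * wdX z1 M m a f - 7 / 4 * wdG z1 M f1 f3 + 32 * (M + 2 / z1) ^ 2 * wdF z1 M f +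
      128 / z1 ^ 2 * n2 f ^ 2) ∧
    (|wdE z1 M k f f1 G| ≤ 2 * wdI z1 M Go f + 2 * wdI z1 M Gi f + 2 * wdI z1 M Gu f +
      128 * wdX z1 M m a f + 3 * wdG z1 M f1 f3 + 32 * (M + 2 / z1) ^ 2 * wdF z1 M f +
      128 / z1 ^ 2 * n2 f ^ 2) := by
  have cT := tht_cont z1 M
  have cT1 := tht1_cont z1 M
  have cf := continuous_ex f
  have cf1 := continuous_ex f1
  have cf3 := continuous_ex f3
  have cG := continuous_ex G
  have co := continuous_ex Go
  have ci := continuous_ex Gi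
  have cu := continuous_ex Gu
  have hH0 : (0:ℝ) ≤ H := hH.out.le
  have cE : Continuous fun z => 2 * (tht z1 M z ^ 2) * ((ex G z * star (ex f z)).re - ‖ex f1 z‖ ^ 2 -
      k ^ 2 * ‖ex f z‖ ^ 2) - 2 * (2 * tht z1 M z * tht1 z1 M z) * (ex f1 z * star (ex f z)).re := by
    have h1 : Continuous fun z => (ex G z * star (ex f z)).re := Complex.continuous_re.comp (cG.mul cf.star)
    have h2 : Continuous fun z => (ex f1 z * star (ex f z)).re := Complex.continuous_re.comp (cf1.mul cf.star)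
    fun_prop
  unfold wdE wdI wdX wdG wdF
  rw [n2_sq]
  constructor
  · rw [← intervalIntegral.integral_const_mul, ← intervalIntegral.integral_const_mul,
      ← intervalIntegral.integral_const_mul, ← intervalIntegral.integral_const_mul,
      ← intervalIntegral.integral_const_mul, ← intervalIntegral.integral_const_mul,
      ← intervalIntegral.integral_const_mul, ← intervalIntegral.integral_add,
      ← intervalIntegral.integral_add, ← intervalIntegral.integral_sub,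
      ← intervalIntegral.integral_sub, ← intervalIntegral.integral_add,
      ← intervalIntegral.integral_add]
    · exact intervalIntegral.integral_mono_on hH0 (wd_iint cE) (wd_iint (by fun_prop))
        fun z hz => (wd_pt hz1 hM h3 hG hz).1
    all_goals exact wd_iint (by fun_prop)
  · refine (intervalIntegral.abs_integral_le_integral_abs hH0).trans ?_
    rw [← intervalIntegral.integral_const_mul, ← intervalIntegral.integral_const_mul,
      ← intervalIntegral.integral_const_mul, ← intervalIntegral.integral_const_mul,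
      ← intervalIntegral.integral_const_mul, ← intervalIntegral.integral_const_mul,
      ← intervalIntegral.integral_const_mul, ← intervalIntegral.integral_add,
      ← intervalIntegral.integral_add, ← intervalIntegral.integral_add,
      ← intervalIntegral.integral_add, ← intervalIntegral.integral_add,
      ← intervalIntegral.integral_add]
    · exact intervalIntegral.integral_mono_on hH0 (wd_iint cE.abs) (wd_iint (by fun_prop))
        fun z hz => (wd_pt hz1 hM h3 hG hz).2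
    all_goals exact wd_iint (by fun_prop)

/-- The map `f ↦ ∫ ex f`. -/
private theorem wd_J_cont : Continuous fun f : CI H => ∫ z in (0:ℝ)..H, ex f z := by
  have hb : ∀ f : CI H, ‖∫ z in (0:ℝ)..H, ex f z‖ ≤ H * ‖f‖ := by
    intro f
    have h := intervalIntegral.norm_integral_le_of_norm_le_const (a := (0:ℝ)) (b := H) (C := ‖f‖)
      (f := ex f) fun z _ => norm_ex_le f z
    rw [sub_zero, abs_of_pos hH.out] at h
    linarith
  let J : CI H →ₗ[ℝ] ℂ :=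
    { toFun := fun f => ∫ z in (0:ℝ)..H, ex f z
      map_add' := fun f g => by
        simp only [ex_add]
        exact intervalIntegral.integral_add ((continuous_ex f).intervalIntegrable _ _)
          ((continuous_ex g).intervalIntegrable _ _)
      map_smul' := fun c f => by
        simp only [ex_rsmul, RingHom.id_apply]
        rw [intervalIntegral.integral_const_mul, Complex.real_smul] }
  exact (J.mkContinuous H hb).continuous

private theorem wd_cont {z1 M k : ℝ} {s : Set ℝ} {f f1 G : ℝ → CI H} (cf : ContinuousOn f s)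
    (cf1 : ContinuousOn f1 s) (cG : ContinuousOn G s) :
    ContinuousOn (fun t => wdE z1 M k (f t) (f1 t) (G t)) s := by
  let W : CI H := rc (fun z => 2 * tht z1 M z ^ 2) (by have := tht_cont z1 M; fun_prop)
  let K : CI H := rc (fun _ => k ^ 2) continuous_const
  let W1 : CI H := rc (fun z => 2 * (2 * tht z1 M z * tht1 z1 M z))
    (by have := tht_cont z1 M; have := tht1_cont z1 M; fun_prop)
  let R : ℝ → CI H := fun t => W * (G t * star (f t) - f1 t * star (f1 t) -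
    K * (f t * star (f t))) - W1 * (f1 t * star (f t))
  have cR : ContinuousOn R s := by
    have h1 : ContinuousOn (fun t => star (f t)) s := continuous_star.comp_continuousOn cf
    have h2 : ContinuousOn (fun t => star (f1 t)) s := continuous_star.comp_continuousOn cf1
    have h3 : ContinuousOn (fun t => G t * star (f t)) s := cG.mul h1
    have h4 : ContinuousOn (fun t => f1 t * star (f1 t)) s := cf1.mul h2
    have h5 : ContinuousOn (fun t => f t * star (f t)) s := cf.mul h1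
    have h6 : ContinuousOn (fun t => f1 t * star (f t)) s := cf1.mul h1
    have h7 : ContinuousOn (fun t => K * (f t * star (f t))) s := continuousOn_const.mul h5
    have h8 : ContinuousOn (fun t => G t * star (f t) - f1 t * star (f1 t)) s := h3.sub h4
    have h9 : ContinuousOn (fun t => G t * star (f t) - f1 t * star (f1 t) -
      K * (f t * star (f t))) s := h8.sub h7
    have h10 : ContinuousOn (fun t => W * (G t * star (f t) - f1 t * star (f1 t) -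
      K * (f t * star (f t)))) s := continuousOn_const.mul h9
    have h11 : ContinuousOn (fun t => W1 * (f1 t * star (f t))) s := continuousOn_const.mul h6
    exact h10.sub h11
  have e : ∀ t, wdE z1 M k (f t) (f1 t) (G t) = (∫ z in (0:ℝ)..H, ex (R t) z).re := by
    intro t
    have hre : (∫ z in (0:ℝ)..H, ex (R t) z).re = ∫ z in (0:ℝ)..H, (ex (R t) z).re := by
      have h := intervalIntegral.intervalIntegral_re (𝕜 := ℂ) (f := ex (R t)) (a := (0:ℝ)) (b := H)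
        (μ := volume) ((continuous_ex (R t)).intervalIntegrable _ _)
      simpa using h.symm
    rw [hre, wdE]
    refine intervalIntegral.integral_congr fun z hz => ?_
    have hz' : z ∈ Icc (0:ℝ) H := by rwa [uIcc_of_le hH.out.le] at hz
    have hn : ∀ v : ℂ, v * star v = ((‖v‖ ^ 2 : ℝ) : ℂ) := fun v => by
      show v * (starRingEnd ℂ) v = _
      rw [Complex.mul_conj, Complex.normSq_eq_norm_sq]
    have hW : ex W z = ((2 * tht z1 M z ^ 2 : ℝ) : ℂ) := ex_rc _ _ hz'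
    have hW1 : ex W1 z = ((2 * (2 * tht z1 M z * tht1 z1 M z) : ℝ) : ℂ) := ex_rc _ _ hz'
    have hK : ex K z = ((k ^ 2 : ℝ) : ℂ) := ex_rc _ _ hz'
    show _ = (ex (W * (G t * star (f t) - f1 t * star (f1 t) -
      K * (f t * star (f t))) - W1 * (f1 t * star (f t))) z).re
    rw [ex_sub, ex_mul, ex_mul, ex_sub, ex_sub, ex_mul, ex_mul, ex_mul, ex_mul, ex_mul, ex_star,
      ex_star, hn, hn, hW, hW1, hK, ← Complex.ofReal_mul, Complex.sub_re,
      Complex.re_ofReal_mul, Complex.re_ofReal_mul, Complex.sub_re, Complex.sub_re,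
      Complex.ofReal_re, Complex.ofReal_re]
  simp only [e]
  exact Complex.continuous_re.comp_continuousOn (wd_J_cont.comp_continuousOn cR)

private theorem wd_alg {β E G Y X Q z1 M : ℝ} (_hβ : 0 ≤ β) (hE : 0 ≤ E) (hG : 0 ≤ G) (_hY : 0 ≤ Y)
    (hX : 0 ≤ X) (hz1 : 0 < z1) (_hM : 0 ≤ M) (hQ : Q ≤ Y ^ 2) :
    12 * β * √E * √G + 12 * Y * √G * √(2 * √E * √(2 * G + 4 * (M + 2 / z1) ^ 2 * E +
      16 / z1 ^ 2 * Y ^ 2)) + 10 * √G * √X - 128 * X - 7 / 4 * G + 32 * (M + 2 / z1) ^ 2 * E +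
      128 / z1 ^ 2 * Q ≤ -G + 1679616 * (M ^ 2 + (z1⁻¹) ^ 2 + β ^ 2 + Y ^ 4) * E +
      1679616 * (z1⁻¹) ^ 2 * Y ^ 2 := by
  have hi : 16 / z1 ^ 2 = 16 * (z1⁻¹) ^ 2 := by rw [div_eq_mul_inv, inv_pow]
  have hi' : 128 / z1 ^ 2 = 128 * (z1⁻¹) ^ 2 := by rw [div_eq_mul_inv, inv_pow]
  have hi'' : 2 / z1 = 2 * z1⁻¹ := by rw [div_eq_mul_inv]
  rw [hi, hi', hi'']
  have hi0 : 0 ≤ z1⁻¹ := by positivity
  generalize z1⁻¹ = i at *
  obtain ⟨g, hg⟩ : ∃ g, g = √G := ⟨_, rfl⟩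
  obtain ⟨e, he⟩ : ∃ e, e = √E := ⟨_, rfl⟩
  obtain ⟨xx, hxx⟩ : ∃ e, e = √X := ⟨_, rfl⟩
  obtain ⟨r, hr⟩ : ∃ r, r = √(2 * G + 4 * (M + 2 * i) ^ 2 * E + 16 * i ^ 2 * Y ^ 2) := ⟨_, rfl⟩
  obtain ⟨S, hS⟩ : ∃ S, S = √(2 * e * r) := ⟨_, rfl⟩
  rw [← hg, ← he, ← hxx, ← hr, ← hS]
  have g2 : g ^ 2 = G := by rw [hg, Real.sq_sqrt hG]
  have e2 : e ^ 2 = E := by rw [he, Real.sq_sqrt hE]
  have x2 : xx ^ 2 = X := by rw [hxx, Real.sq_sqrt hX]
  have e0 : 0 ≤ e := by rw [he]; exact Real.sqrt_nonneg _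
  have r0 : 0 ≤ r := by rw [hr]; exact Real.sqrt_nonneg _
  have r2 : r ^ 2 = 2 * G + 4 * (M + 2 * i) ^ 2 * E + 16 * i ^ 2 * Y ^ 2 := by
    rw [hr, Real.sq_sqrt (by positivity)]
  have S2 : S ^ 2 = 2 * e * r := by rw [hS, Real.sq_sqrt (by positivity)]
  have h1 : 12 * β * e * g ≤ 1 / 4 * G + 144 * β ^ 2 * E := by
    rw [← g2, ← e2]
    linarith [sq_nonneg (1 / 2 * g - 12 * β * e)]
  have h2 : 12 * Y * g * S ≤ 1 / 9 * G + 324 * (Y ^ 2 * S ^ 2) := by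
    rw [← g2]
    linarith [sq_nonneg (1 / 3 * g - 18 * Y * S)]
  have h3 : 324 * (Y ^ 2 * S ^ 2) ≤ 1 / 16 * r ^ 2 + 1679616 * (Y ^ 4 * E) := by
    rw [S2, ← e2]
    linarith [sq_nonneg (1 / 4 * r - 1296 * Y ^ 2 * e)]
  have h4 : 10 * g * xx ≤ 1 / 4 * G + 100 * X := by
    rw [← g2, ← x2]
    linarith [sq_nonneg (1 / 2 * g - 10 * xx)]
  have h5 : (M + 2 * i) ^ 2 * E ≤ (2 * M ^ 2 + 8 * i ^ 2) * E := by
    refine mul_le_mul_of_nonneg_right ?_ hE
    linarith [sq_nonneg (M - 2 * i)]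
  have h6 : 128 * i ^ 2 * Q ≤ 128 * i ^ 2 * Y ^ 2 := mul_le_mul_of_nonneg_left hQ (by positivity)
  rw [r2] at h3
  have q1 : 0 ≤ M ^ 2 * E := by positivity
  have q2 : 0 ≤ i ^ 2 * E := by positivity
  have q3 : 0 ≤ β ^ 2 * E := by positivity
  have q4 : 0 ≤ i ^ 2 * Y ^ 2 := by positivity
  linarith

private theorem wd_sqsum (x : L1 (Xn H)) : (Summable fun n => n2 (x n).2.1 ^ 2) ∧
    ∑' n, n2 (x n).2.1 ^ 2 ≤ yy x ^ 2 := by
  obtain ⟨s1, -⟩ := fun_summable x 0 0 0 0 0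
  have hle : ∀ n, n2 (x n).2.1 ≤ yy x := fun n =>
    s1.le_tsum n (fun m _ => n2_nonneg _)
  have hsq : ∀ n, n2 (x n).2.1 ^ 2 ≤ yy x * n2 (x n).2.1 := fun n => by
    rw [pow_two]
    exact mul_le_mul_of_nonneg_right (hle n) (n2_nonneg _)
  have s2 : Summable fun n => n2 (x n).2.1 ^ 2 :=
    Summable.of_nonneg_of_le (fun n => sq_nonneg _) hsq (s1.mul_left _)
  refine ⟨s2, ?_⟩
  calc ∑' n, n2 (x n).2.1 ^ 2 ≤ ∑' n, yy x * n2 (x n).2.1 := s2.tsum_le_tsum hsq (s1.mul_left _)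
    _ = yy x * yy x := by rw [tsum_mul_left]; rfl
    _ = yy x ^ 2 := by ring

private theorem wd_Xle {z1 M m a : ℝ} (f : CI H) :
    wdX z1 M m a f ≤ (a * Real.cosh (m * H)) ^ 2 * wdF z1 M f := by
  have cT := tht_cont z1 M
  have cf := continuous_ex f
  unfold wdX wdF
  rw [← intervalIntegral.integral_const_mul]
  refine intervalIntegral.integral_mono_on hH.out.le (wd_iint (by fun_prop)) (wd_iint (by fun_prop))
    fun z hz => ?_
  have h1 : Real.cosh (m * z) ≤ Real.cosh (m * H) := by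
    rw [Real.cosh_le_cosh, abs_mul, abs_mul, abs_of_nonneg hz.1, abs_of_pos hH.out]
    exact mul_le_mul_of_nonneg_left hz.2 (abs_nonneg _)
  have h2 : (a * Real.cosh (m * z)) ^ 2 ≤ (a * Real.cosh (m * H)) ^ 2 := by
    rw [mul_pow, mul_pow]
    exact mul_le_mul_of_nonneg_left (pow_le_pow_left₀ (Real.cosh_pos _).le h1 2) (sq_nonneg _)
  have h3 := mul_le_mul_of_nonneg_right h2 (by positivity : 0 ≤ tht z1 M z ^ 2 * ‖ex f z‖ ^ 2)
  nlinarith

private theorem wd_si {ω : ℝ} (hω : 0 < ω) {N : ℕ} (hN : 1 ≤ N) {a : ℝ} {x : L1 (Xn H)}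
    (hx : ∀ n : ℤ, Cm (ω * n) (ex (pu ω N a n : Xn H).2.1 0) (x n)) (n : ℤ) :
    si ω N a x n = (Bf ω (iv x) (ov ω x) n).2 + (Bf ω (iv x) (iv x) n).2 +
      (Bf ω (iv x) (pu ω N a) n).2 - kap (ω * N) a * (x n).2.1 := by
  have h1 := Bf2_add_right (VF_iv hx) ((VF_ov (x := x)).add (VF_iv hx)) (VF_pu a hω hN) n
  have h2 := Bf2_add_right (VF_iv hx) (VF_ov (x := x)) (VF_iv hx) n
  rw [← h2, ← h1]
  rfl

private theorem wd_state {ω : ℝ} (hω : 0 < ω) {N : ℕ} (hN : 1 ≤ N) {a z1 M : ℝ} (ha : 0 ≤ a)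
    (hz1 : 0 < z1) (hM : ω * N ≤ M) {x : L1 (Xn H)}
    (hx : ∀ n : ℤ, Cm (ω * n) (ex (pu ω N a n : Xn H).2.1 0) (x n)) :
    (Summable fun n : ℤ => |wdE z1 M (ω * n) (x n).2.1 (x n).2.2.1 (si ω N a x n)|) ∧
    (∑' n : ℤ, |wdE z1 M (ω * n) (x n).2.1 (x n).2.2.1 (si ω N a x n)| ≤
      12 * bt ω x * √(Ew z1 M x) * √(Gw z1 M x) +
      12 * yy x * √(Gw z1 M x) * √(2 * √(Ew z1 M x) *
        √(2 * Gw z1 M x + 4 * (M + 2 / z1) ^ 2 * Ew z1 M x + 16 / z1 ^ 2 * yy x ^ 2)) +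
      10 * √(Gw z1 M x) * √((a * Real.cosh (ω * N * H)) ^ 2 * Ew z1 M x) +
      128 * ((a * Real.cosh (ω * N * H)) ^ 2 * Ew z1 M x) + 3 * Gw z1 M x +
      32 * (M + 2 / z1) ^ 2 * Ew z1 M x + 128 / z1 ^ 2 * yy x ^ 2) ∧
    (∑' n : ℤ, wdE z1 M (ω * n) (x n).2.1 (x n).2.2.1 (si ω N a x n) ≤
      -Gw z1 M x + 1679616 * (M ^ 2 + (z1⁻¹) ^ 2 + bt ω x ^ 2 + yy x ^ 4) * Ew z1 M x +
      1679616 * (z1⁻¹) ^ 2 * yy x ^ 2) := by
  have hM0 : 0 ≤ M := le_trans (by positivity) hM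
  obtain ⟨so, bo⟩ := wE_o hω hN hz1 hM0 hx
  obtain ⟨sI, bi⟩ := wE_i hω hN hz1 hM0 hx
  obtain ⟨sX, su, bu⟩ := wE_U hω hN ha hz1 hM hx
  obtain ⟨-, -, -, -, sF, sG, -⟩ := fun_summable x 0 0 z1 M ω
  obtain ⟨sQ, bQ⟩ := wd_sqsum x
  have hm := fun n : ℤ => wd_mode (k := ω * n) hz1 hM0 (hx n).e2 (wd_si hω hN hx n)
    (f1 := (x n).2.2.1)
  change Summable fun n : ℤ => wdI z1 M (Bf ω (iv x) (ov ω x) n).2 (x n).2.1 at so
  change Summable fun n : ℤ => wdI z1 M (Bf ω (iv x) (iv x) n).2 (x n).2.1 at sI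
  change Summable fun n : ℤ => wdI z1 M (Bf ω (iv x) (pu ω N a) n).2 (x n).2.1 at su
  change Summable fun n : ℤ => wdX z1 M (ω * N) a (x n).2.1 at sX
  change Summable fun n : ℤ => wdF z1 M (x n).2.1 at sF
  change Summable fun n : ℤ => wdG z1 M (x n).2.2.1 (x n).2.2.2 at sG
  have bo' : ∑' n, wdI z1 M (Bf ω (iv x) (ov ω x) n).2 (x n).2.1 ≤
    6 * bt ω x * √(Ew z1 M x) * √(Gw z1 M x) := bo
  have bi' : ∑' n, wdI z1 M (Bf ω (iv x) (iv x) n).2 (x n).2.1 ≤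
      6 * yy x * √(Gw z1 M x) * √(2 * √(Ew z1 M x) *
        √(2 * Gw z1 M x + 4 * (M + 2 / z1) ^ 2 * Ew z1 M x + 16 / z1 ^ 2 * yy x ^ 2)) := bi
  obtain ⟨X, hX⟩ : ∃ X, X = ∑' n, wdX z1 M (ω * N) a (x n).2.1 := ⟨_, rfl⟩
  have bu' : ∑' n, wdI z1 M (Bf ω (iv x) (pu ω N a) n).2 (x n).2.1 ≤ 5 * √(Gw z1 M x) * √X := by
    rw [hX]; exact bu
  have hE : Ew z1 M x = ∑' n, wdF z1 M (x n).2.1 := rfl
  have hG : Gw z1 M x = ∑' n, wdG z1 M (x n).2.2.1 (x n).2.2.2 := rfl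
  have hF0 : ∀ f : CI H, 0 ≤ wdF z1 M f := fun f =>
    intervalIntegral.integral_nonneg hH.out.le fun z _ => by positivity
  have hX0' : ∀ f : CI H, 0 ≤ wdX z1 M (ω * N) a f := fun f =>
    intervalIntegral.integral_nonneg hH.out.le fun z _ => by positivity
  have hG0' : ∀ f g : CI H, 0 ≤ wdG z1 M f g := fun f g =>
    intervalIntegral.integral_nonneg hH.out.le fun z _ => by positivity
  have hE0 : 0 ≤ Ew z1 M x := by rw [hE]; exact tsum_nonneg fun n => hF0 _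
  have hG0 : 0 ≤ Gw z1 M x := by rw [hG]; exact tsum_nonneg fun n => hG0' _ _
  have hX0 : 0 ≤ X := by rw [hX]; exact tsum_nonneg fun n => hX0' _
  have hY0 : 0 ≤ yy x := tsum_nonneg fun n => n2_nonneg _
  have hB0 : 0 ≤ bt ω x := tsum_nonneg fun n => norm_nonneg _
  have hXE : X ≤ (a * Real.cosh (ω * N * H)) ^ 2 * Ew z1 M x := by
    rw [hX, hE, ← tsum_mul_left]
    exact sX.tsum_le_tsum (fun n => wd_Xle _) (sF.mul_left _)
  -- the two majorants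
  have S1 := ((((((so.hasSum.mul_left 2).add (sI.hasSum.mul_left 2)).add (su.hasSum.mul_left 2)).add
    (sX.hasSum.mul_left 128)).add (sG.hasSum.mul_left 3)).add
    (sF.hasSum.mul_left (32 * (M + 2 / z1) ^ 2))).add (sQ.hasSum.mul_left (128 / z1 ^ 2))
  have S2 := ((((((so.hasSum.mul_left 2).add (sI.hasSum.mul_left 2)).add (su.hasSum.mul_left 2)).sub
    (sX.hasSum.mul_left 128)).sub (sG.hasSum.mul_left (7 / 4))).add
    (sF.hasSum.mul_left (32 * (M + 2 / z1) ^ 2))).add (sQ.hasSum.mul_left (128 / z1 ^ 2))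
  have sA : Summable fun n : ℤ => |wdE z1 M (ω * n) (x n).2.1 (x n).2.2.1 (si ω N a x n)| :=
    Summable.of_nonneg_of_le (fun n => abs_nonneg _) (fun n => (hm n).2) S1.summable
  refine ⟨sA, ?_, ?_⟩
  · have h := hasSum_le (fun n => (hm n).2) sA.hasSum S1
    rw [← hX, ← hE, ← hG] at h
    have h1 : √X ≤ √((a * Real.cosh (ω * N * H)) ^ 2 * Ew z1 M x) := Real.sqrt_le_sqrt hXE
    have h2 := mul_le_mul_of_nonneg_left h1 (by positivity : 0 ≤ 10 * √(Gw z1 M x))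
    have h3 : 128 / z1 ^ 2 * ∑' n, n2 (x n).2.1 ^ 2 ≤ 128 / z1 ^ 2 * yy x ^ 2 :=
      mul_le_mul_of_nonneg_left bQ (by positivity)
    linarith
  · have h := hasSum_le (fun n => (hm n).1) sA.of_abs.hasSum S2
    rw [← hX, ← hE, ← hG] at h
    have h4 := wd_alg hB0 hE0 hG0 hY0 hX0 hz1 hM0 bQ
    linarith

theorem weighted : ∃ C, 0 ≤ C ∧ ∀ {ω : ℝ} {N : ℕ} {A A1 : ℝ → ℝ} {a b : ℝ} {x : ℝ → L1 (Xn H)} {z1 M : ℝ},
    CS ω N A A1 a b x → 0 < ω → 1 ≤ N → (∀ t ∈ Icc a b, 0 ≤ A t) → 0 < z1 → ω * N ≤ M →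
    ∀ t1 ∈ Icc a b, ∀ t2 ∈ Icc t1 b,
      Ew z1 M (x t2) - Ew z1 M (x t1) + ∫ t in t1..t2, Gw z1 M (x t) ≤
        ∫ t in t1..t2, (C * (M ^ 2 + (z1⁻¹) ^ 2 + bt ω (x t) ^ 2 + yy (x t) ^ 4) * Ew z1 M (x t) +
          C * (z1⁻¹) ^ 2 * yy (x t) ^ 2) := by
  refine ⟨1679616, by norm_num, ?_⟩
  intro ω N A A1 a b x z1 M cs hω hN hA hz1 hM t1 ht1 t2 ht2
  have hab : a ≤ b := ht1.1.trans ht1.2
  have hst := fun t (ht : t ∈ Icc a b) => wd_state (x := x t) hω hN (hA t ht) hz1 hM (cs.cm t ht)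
  have cT := tht_cont z1 M
  have cT1 := tht1_cont z1 M
  have cE : ContinuousOn (fun t => Ew z1 M (x t)) (Icc a b) :=
    Continuous.comp_continuousOn (g := fun y : L1 (Xn H) => Ew z1 M y) (f := x) (Ew_cont z1 M) cs.c
  have cG : ContinuousOn (fun t => Gw z1 M (x t)) (Icc a b) :=
    Continuous.comp_continuousOn (g := fun y : L1 (Xn H) => Gw z1 M y) (f := x) (Gw_cont z1 M) cs.c
  have cY : ContinuousOn (fun t => yy (x t)) (Icc a b) :=
    Continuous.comp_continuousOn (g := fun y : L1 (Xn H) => yy y) (f := x) yy_cont cs.c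
  have cB : ContinuousOn (fun t => bt ω (x t)) (Icc a b) :=
    Continuous.comp_continuousOn (g := fun y : L1 (Xn H) => bt ω y) (f := x) (bt_cont ω) cs.c
  have cA := cs.cA
  obtain ⟨R, hR⟩ := isCompact_Icc.exists_bound_of_continuousOn (s := Icc a b) (f := fun t =>
      12 * bt ω (x t) * √(Ew z1 M (x t)) * √(Gw z1 M (x t)) +
      12 * yy (x t) * √(Gw z1 M (x t)) * √(2 * √(Ew z1 M (x t)) *
        √(2 * Gw z1 M (x t) + 4 * (M + 2 / z1) ^ 2 * Ew z1 M (x t) + 16 / z1 ^ 2 * yy (x t) ^ 2)) +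
      10 * √(Gw z1 M (x t)) * √((A t * Real.cosh (ω * N * H)) ^ 2 * Ew z1 M (x t)) +
      128 * ((A t * Real.cosh (ω * N * H)) ^ 2 * Ew z1 M (x t)) + 3 * Gw z1 M (x t) +
      32 * (M + 2 / z1) ^ 2 * Ew z1 M (x t) + 128 / z1 ^ 2 * yy (x t) ^ 2) (by fun_prop)
  have hde : ∀ n : ℤ, ∀ t ∈ Icc a b, HasDerivWithinAt
      (fun t => ∫ z in (0:ℝ)..H, tht z1 M z ^ 2 * ‖ex (x t n).2.1 z‖ ^ 2)
      (wdE z1 M (ω * n) (x t n).2.1 (x t n).2.2.1 (si ω N (A t) (x t) n)) (Icc a b) t := by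
    intro n t ht
    refine (cs.ei n).energy (W := fun z => tht z1 M z ^ 2)
      (W1 := fun z => 2 * tht z1 M z * tht1 z1 M z) (by fun_prop) (by fun_prop) (fun z => ?_)
      (fun t ht => (cs.cm t ht n).h2) (Or.inl ?_) t ht
    · have h : HasDerivAt (fun z => tht z1 M z ^ 2)
          (((2:ℕ):ℝ) * tht z1 M z ^ (2 - 1) * tht1 z1 M z) z := (tht_deriv (M := M) hz1 z).pow 2
      refine h.congr_deriv ?_
      norm_num
    · show tht z1 M 0 ^ 2 = 0
      rw [tht_zero hz1 hz1.le]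
      norm_num
  have hce : ∀ n : ℤ, ContinuousOn (fun t =>
      wdE z1 M (ω * n) (x t n).2.1 (x t n).2.2.1 (si ω N (A t) (x t) n)) (Icc a b) :=
    fun n => wd_cont (cs.ei n).cf (cs.ei n).cf1 (cs.ei n).cG
  obtain ⟨hI, hftc⟩ := sum_ftc (R := R) hab hde hce
    (fun t _ => (fun_summable (x t) 0 0 z1 M ω).2.2.2.2.1)
    (fun t ht => ⟨(hst t ht).1, (hst t ht).2.1.trans ((le_abs_self _).trans (hR t ht))⟩)
  have h := hftc t1 ht1 t2 ht2
  have hsub : Icc t1 t2 ⊆ Icc a b := Icc_subset_Icc ht1.1 ht2.2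
  have hu : uIcc t1 t2 ⊆ Icc a b := by rw [uIcc_of_le ht2.1]; exact hsub
  have hI' : IntervalIntegrable (fun t => ∑' n : ℤ,
      wdE z1 M (ω * n) (x t n).2.1 (x t n).2.2.1 (si ω N (A t) (x t) n)) volume t1 t2 :=
    hI.mono_set (by rw [uIcc_of_le hab]; exact hu)
  have hIG : IntervalIntegrable (fun t => Gw z1 M (x t)) volume t1 t2 :=
    (cG.mono hu).intervalIntegrable
  have e1 : Ew z1 M (x t2) - Ew z1 M (x t1) = ∫ t in t1..t2, ∑' n : ℤ,
      wdE z1 M (ω * n) (x t n).2.1 (x t n).2.2.1 (si ω N (A t) (x t) n) := h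
  rw [e1, ← intervalIntegral.integral_add hI' hIG]
  refine intervalIntegral.integral_mono_on ht2.1 (hI'.add hIG) ?_ fun t ht => ?_
  · refine ContinuousOn.intervalIntegrable (ContinuousOn.mono ?_ hu)
    fun_prop
  · have h := (hst t (hsub ht)).2.2
    linarith

end

end Pool.Agent.Lib.MP_79abb3_an.FW
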