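import Pool.Agent.Lib.MP_79abb3_an.FW.Kap
import Pool.Agent.Lib.MP_79abb3_an.FW.ApBa
import Pool.Agent.Lib.MP_79abb3_an.FW.WEd

/-!
FW-26b: the weighted energy under the bootstrap hypotheses.
-/

set_option autoImplicit false
set_option linter.unusedSectionVars false

open MeasureTheory Set Filter Topology Function

namespace Pool.Agent.Lib.MP_79abb3_an.FW

open Pool.Agent.Lib.MP_79abb3_an.P25

section
variable {H : ℝ} [hH : Fact (0 < H)]

private theorem apBb_Ew_nonneg (z1 M : ℝ) (x : ℤ → Xn H) : 0 ≤ Ew z1 M x := by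
  unfold Ew
  refine tsum_nonneg fun n => ?_
  refine intervalIntegral.integral_nonneg hH.out.le fun z _ => ?_
  positivity

private theorem apBb_Gw_nonneg (z1 M : ℝ) (x : ℤ → Xn H) : 0 ≤ Gw z1 M x := by
  unfold Gw
  refine tsum_nonneg fun n => ?_
  refine intervalIntegral.integral_nonneg hH.out.le fun z _ => ?_
  positivity

private theorem apBb_Ew_zero {z1 : ℝ} (hz1 : 0 < z1) (M : ℝ) (x : ℤ → Xn H)
    (hx : ∀ n, ∀ z ∈ Icc z1 H, ex (x n).2.1 z = 0) : Ew z1 M x = 0 := by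
  unfold Ew
  have h : ∀ n, ∫ z in (0:ℝ)..H, tht z1 M z ^ 2 * ‖ex (x n).2.1 z‖ ^ 2 = 0 := by
    intro n
    rw [intervalIntegral.integral_congr (g := fun _ => (0 : ℝ))]
    · simp
    · intro z hz
      rw [uIcc_of_le hH.out.le] at hz
      rcases le_total z z1 with h | h
      · simp [tht_zero hz1 h]
      · simp [hx n z ⟨h, hz.2⟩]
  simp only [h, tsum_zero]

private theorem apBb_yy_nonneg (x : ℤ → Xn H) : 0 ≤ yy x := tsum_nonneg fun _ => n2_nonneg _

private theorem apBb_cE {s : Set ℝ} {x : ℝ → L1 (Xn H)} (cx : ContinuousOn x s) (z M : ℝ) :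
    ContinuousOn (fun t => Ew z M (x t)) s :=
  Continuous.comp_continuousOn (g := fun y : L1 (Xn H) => Ew z M y) (f := x) (Ew_cont z M) cx

private theorem apBb_cB {s : Set ℝ} {x : ℝ → L1 (Xn H)} (cx : ContinuousOn x s) (ω : ℝ) :
    ContinuousOn (fun t => bt ω (x t)) s :=
  Continuous.comp_continuousOn (g := fun y : L1 (Xn H) => bt ω y) (f := x) (bt_cont ω) cx

private theorem apBb_cY {s : Set ℝ} {x : ℝ → L1 (Xn H)} (cx : ContinuousOn x s) :
    ContinuousOn (fun t => yy (x t)) s :=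
  Continuous.comp_continuousOn (g := fun y : L1 (Xn H) => yy y) (f := x) yy_cont cx

/-- Weighted energy. -/
theorem ew_bound {ω : ℝ} (hω : 0 < ω) {Θ : ℝ} : ∃ C, 1 ≤ C ∧ ∀ {N : ℕ}, 1 ≤ N → 1 ≤ ω * N →
    ∀ {A A1 : ℝ → ℝ} {b : ℝ} {x : ℝ → L1 (Xn H)}, 0 ≤ b → b ≤ 1 / (8 * (ω * N) ^ 2) →
    CS ω N A A1 0 b x → (∀ t ∈ Icc 0 b, 0 ≤ A t) →
    (∀ n, ∀ z ∈ Icc (zl (ω * N)) H, ex (x 0 n).2.1 z = 0) →
    (∀ t ∈ Icc 0 b, yy (x t) ≤ 1) →
    (∀ t ∈ Icc 0 b, th2 (x t) + ∫ s in (0:ℝ)..t, dd2 (x s) ≤ Θ ^ 2 + 2) →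
    ∀ t ∈ Icc 0 b, Ew (zl (ω * N)) (4 * (ω * N)) (x t) ≤ C := by
  obtain ⟨Cw, hCw, hw⟩ := weighted (H := H)
  obtain ⟨Cb, hCb, hbi⟩ := be_int (H := H) hω (Θ := Θ)
  refine ⟨1 + 32 * Cw * Real.exp (Cw * (36 + Cb)), ?_, ?_⟩
  · have : 0 ≤ 32 * Cw * Real.exp (Cw * (36 + Cb)) := by positivity
    linarith
  intro N hN hm A A1 b x hb hb8 hCS hA hx0 hy hth t ht
  obtain ⟨m, hmd⟩ : ∃ m, m = ω * N := ⟨_, rfl⟩
  rw [← hmd] at hm hb8 hx0 ⊢
  have hm0 : 0 < m := by linarith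
  have hsm : 0 < √m := Real.sqrt_pos.2 hm0
  have hz1 : 0 < zl m := by unfold zl; positivity
  have hzi : ((zl m)⁻¹) ^ 2 = 256 * m := by
    unfold zl
    rw [one_div, inv_inv, mul_pow, Real.sq_sqrt hm0.le]
    norm_num
  -- smallness of the time
  have hb8' : b * (8 * m ^ 2) ≤ 1 := by
    rwa [le_div_iff₀ (by positivity)] at hb8
  have hmm : m ≤ m ^ 2 := by rw [sq]; exact le_mul_of_one_le_left hm0.le hm
  have hbm2 : b * m ^ 2 ≤ 1 / 8 := by linarith
  have hbm : b * m ≤ 1 / 8 := (mul_le_mul_of_nonneg_left hmm hb).trans hbm2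
  have hb1 : b ≤ 1 := by
    have := mul_le_mul_of_nonneg_left hm hb
    linarith
  have cx := hCS.c
  have cE := apBb_cE cx (zl m) (4 * m)
  have cB := apBb_cB cx ω
  have cY := apBb_cY cx
  have cα : ContinuousOn (fun t => Cw * ((4 * m) ^ 2 + ((zl m)⁻¹) ^ 2 + bt ω (x t) ^ 2 +
      yy (x t) ^ 4)) (Icc 0 b) :=
    continuousOn_const.mul (((continuousOn_const.add continuousOn_const).add (cB.pow 2)).add
      (cY.pow 4))
  have cγ : ContinuousOn (fun t => Cw * ((zl m)⁻¹) ^ 2 * yy (x t) ^ 2) (Icc 0 b) :=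
    continuousOn_const.mul (cY.pow 2)
  have hE0 : Ew (zl m) (4 * m) (x 0) = 0 := apBb_Ew_zero hz1 _ _ hx0
  have hg := gron hb cE cα cγ (fun t _ => by positivity) (fun t _ => by positivity)
    (fun t _ => apBb_Ew_nonneg _ _ _) (fun t ht => by
      have h1 := hw hCS hω hN hA hz1 (M := 4 * m) (by linarith) 0 ⟨le_refl _, hb⟩ t ht
      have h2 : 0 ≤ ∫ s in (0:ℝ)..t, Gw (zl m) (4 * m) (x s) :=
        intervalIntegral.integral_nonneg ht.1 fun s _ => apBb_Gw_nonneg _ _ _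
      simp only
      linarith) t ht
  simp only [hE0, zero_add] at hg
  have hsub : Icc 0 t ⊆ Icc 0 b := Icc_subset_Icc le_rfl ht.2
  have hu : uIcc 0 t = Icc 0 t := uIcc_of_le ht.1
  have iα : IntervalIntegrable (fun t => Cw * ((4 * m) ^ 2 + ((zl m)⁻¹) ^ 2 + bt ω (x t) ^ 2 +
      yy (x t) ^ 4)) volume 0 t := ContinuousOn.intervalIntegrable (by rw [hu]; exact cα.mono hsub)
  have iγ : IntervalIntegrable (fun t => Cw * ((zl m)⁻¹) ^ 2 * yy (x t) ^ 2) volume 0 t :=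
    ContinuousOn.intervalIntegrable (by rw [hu]; exact cγ.mono hsub)
  have iB : IntervalIntegrable (fun t => bt ω (x t) ^ 8) volume 0 t :=
    ContinuousOn.intervalIntegrable (by rw [hu]; exact (cB.pow 8).mono hsub)
  have h8 := hbi hb hb1 hCS hth t ht
  have hα : ∫ r in (0:ℝ)..t, Cw * ((4 * m) ^ 2 + ((zl m)⁻¹) ^ 2 + bt ω (x r) ^ 2 + yy (x r) ^ 4) ≤
      Cw * (36 + Cb) := by
    have h1 : ∫ r in (0:ℝ)..t, Cw * ((4 * m) ^ 2 + ((zl m)⁻¹) ^ 2 + bt ω (x r) ^ 2 +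
        yy (x r) ^ 4) ≤ ∫ r in (0:ℝ)..t, (Cw * (16 * m ^ 2 + 256 * m + 2) +
          Cw * bt ω (x r) ^ 8) := by
      refine intervalIntegral.integral_mono_on ht.1 iα ?_ fun r hr => ?_
      · exact (intervalIntegrable_const).add (iB.const_mul Cw)
      · have e1 : bt ω (x r) ^ 2 ≤ 1 + bt ω (x r) ^ 8 := by
          have : bt ω (x r) ^ 8 = (bt ω (x r) ^ 2) ^ 4 := by ring
          rw [this]
          have h0 := sq_nonneg (bt ω (x r))
          rcases le_total (bt ω (x r) ^ 2) 1 with h | h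
          · have : 0 ≤ (bt ω (x r) ^ 2) ^ 4 := by positivity
            linarith
          · have := le_self_pow₀ h (show (4 : ℕ) ≠ 0 by norm_num)
            linarith
        have e2 : yy (x r) ^ 4 ≤ 1 :=
          pow_le_one₀ (apBb_yy_nonneg _) (hy r (hsub hr))
        rw [hzi, ← mul_add]
        exact mul_le_mul_of_nonneg_left (by linarith) hCw
    refine h1.trans ?_
    rw [intervalIntegral.integral_add intervalIntegrable_const (iB.const_mul Cw),
      intervalIntegral.integral_const, intervalIntegral.integral_const_mul, smul_eq_mul, sub_zero]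
    have e3 : t * (16 * m ^ 2 + 256 * m + 2) ≤ 36 := by
      have f1 : t * m ^ 2 ≤ b * m ^ 2 := mul_le_mul_of_nonneg_right ht.2 (sq_nonneg _)
      have f2 : t * m ≤ b * m := mul_le_mul_of_nonneg_right ht.2 hm0.le
      have f3 := ht.2
      have f4 : t * (16 * m ^ 2 + 256 * m + 2) = 16 * (t * m ^ 2) + 256 * (t * m) + 2 * t := by
        ring
      rw [f4]
      linarith
    have e4 := mul_le_mul_of_nonneg_left e3 hCw
    have e5 := mul_le_mul_of_nonneg_left h8 hCw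
    refine (le_of_eq ?_).trans ((add_le_add e4 e5).trans (le_of_eq ?_))
    · ring
    · ring
  have hγ : ∫ r in (0:ℝ)..t, Cw * ((zl m)⁻¹) ^ 2 * yy (x r) ^ 2 ≤ 32 * Cw := by
    have h1 : ∫ r in (0:ℝ)..t, Cw * ((zl m)⁻¹) ^ 2 * yy (x r) ^ 2 ≤
        ∫ r in (0:ℝ)..t, Cw * (256 * m) := by
      refine intervalIntegral.integral_mono_on ht.1 iγ intervalIntegrable_const fun r hr => ?_
      have e2 : yy (x r) ^ 2 ≤ 1 :=
        pow_le_one₀ (apBb_yy_nonneg _) (hy r (hsub hr))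
      rw [hzi]
      exact mul_le_of_le_one_right (by positivity) e2
    refine h1.trans ?_
    rw [intervalIntegral.integral_const, smul_eq_mul, sub_zero]
    have f2 : t * m ≤ b * m := mul_le_mul_of_nonneg_right ht.2 hm0.le
    have e3 : t * (256 * m) ≤ 32 := by linarith
    have e4 := mul_le_mul_of_nonneg_left e3 hCw
    linarith
  have hfin : (∫ r in (0:ℝ)..t, Cw * ((zl m)⁻¹) ^ 2 * yy (x r) ^ 2) *
      Real.exp (∫ r in (0:ℝ)..t, Cw * ((4 * m) ^ 2 + ((zl m)⁻¹) ^ 2 + bt ω (x r) ^ 2 +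
        yy (x r) ^ 4)) ≤ 32 * Cw * Real.exp (Cw * (36 + Cb)) :=
    mul_le_mul hγ (Real.exp_le_exp.2 hα) (Real.exp_pos _).le (by positivity)
  linarith

end

end Pool.Agent.Lib.MP_79abb3_an.FW
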