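import Pool.Agent.Lib.MP_79abb3_an.FW.Def
import Pool.Agent.Lib.MP_79abb3_an.P25.PairAlg

/-!
FW-1a: the norms `n2`, `n1` and the pairing `bpJ`.
-/

set_option autoImplicit false
set_option linter.unusedSectionVars false

open MeasureTheory Set Filter Topology Function

namespace Pool.Agent.Lib.MP_79abb3_an.FW

open Pool.Agent.Lib.MP_79abb3_an.P25

section
variable {H : ℝ} [hH : Fact (0 < H)]

private theorem na_c (f : CI H) : Continuous fun z => ‖ex f z‖ := (continuous_ex f).norm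

private theorem na_i (f : CI H) : IntervalIntegrable (fun z => ‖ex f z‖) volume 0 H :=
  (na_c f).intervalIntegrable _ _

private theorem na_i2 (f : CI H) : IntervalIntegrable (fun z => ‖ex f z‖ ^ 2) volume 0 H :=
  ((na_c f).pow 2).intervalIntegrable _ _

private theorem na_pos : (0:ℝ) ≤ H := hH.out.le

/-- Cauchy-Schwarz. -/
private theorem na_cs {H : ℝ} (hH0 : 0 ≤ H) (u v : ℝ → ℝ) (hu : Continuous u) (hv : Continuous v) :
    ∫ z in (0:ℝ)..H, u z * v z ≤ √(∫ z in (0:ℝ)..H, u z ^ 2) * √(∫ z in (0:ℝ)..H, v z ^ 2) := by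
  have hA : 0 ≤ ∫ z in (0:ℝ)..H, u z ^ 2 :=
    intervalIntegral.integral_nonneg hH0 fun z _ => sq_nonneg _
  have key : ∀ t : ℝ, 0 ≤ (∫ z in (0:ℝ)..H, v z ^ 2) * (t * t) +
      (-2 * ∫ z in (0:ℝ)..H, u z * v z) * t + ∫ z in (0:ℝ)..H, u z ^ 2 := by
    intro t
    have h1 : 0 ≤ ∫ z in (0:ℝ)..H, (u z - t * v z) ^ 2 :=
      intervalIntegral.integral_nonneg hH0 fun z _ => sq_nonneg _
    have h2 : ∫ z in (0:ℝ)..H, (u z - t * v z) ^ 2 =
        (∫ z in (0:ℝ)..H, u z ^ 2) + ((-2 * t) * ∫ z in (0:ℝ)..H, u z * v z) +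
          (t * t) * ∫ z in (0:ℝ)..H, v z ^ 2 := by
      rw [← intervalIntegral.integral_const_mul, ← intervalIntegral.integral_const_mul,
        ← intervalIntegral.integral_add, ← intervalIntegral.integral_add]
      · congr 1
        ext z
        ring
      · exact Continuous.intervalIntegrable (by fun_prop) _ _
      · exact Continuous.intervalIntegrable (by fun_prop) _ _
      · exact Continuous.intervalIntegrable (by fun_prop) _ _
      · exact Continuous.intervalIntegrable (by fun_prop) _ _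
    rw [h2] at h1
    linarith
  have h3 := discrim_le_zero key
  rw [discrim] at h3
  rw [← Real.sqrt_mul hA]
  refine (le_abs_self _).trans (Real.abs_le_sqrt ?_)
  nlinarith

theorem n2_nonneg (f : CI H) : 0 ≤ n2 f := Real.sqrt_nonneg _

theorem n1_nonneg (f : CI H) : 0 ≤ n1 f :=
  intervalIntegral.integral_nonneg na_pos fun z _ => norm_nonneg _

private theorem na_n2i (f : CI H) : 0 ≤ ∫ z in (0:ℝ)..H, ‖ex f z‖ ^ 2 :=
  intervalIntegral.integral_nonneg na_pos fun z _ => sq_nonneg _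

theorem n2_sq (f : CI H) : n2 f ^ 2 = ∫ z in (0:ℝ)..H, ‖ex f z‖ ^ 2 := Real.sq_sqrt (na_n2i f)

theorem n2_zero : n2 (0 : CI H) = 0 := by
  unfold n2
  simp

theorem n1_zero : n1 (0 : CI H) = 0 := by
  unfold n1
  simp

theorem n2_mono {f g : CI H} (h : ∀ z ∈ Icc (0:ℝ) H, ‖ex f z‖ ≤ ‖ex g z‖) : n2 f ≤ n2 g := by
  apply Real.sqrt_le_sqrt
  exact intervalIntegral.integral_mono_on na_pos (na_i2 f) (na_i2 g) fun z hz =>
    pow_le_pow_left₀ (norm_nonneg _) (h z hz) 2

theorem n1_mono {f g : CI H} (h : ∀ z ∈ Icc (0:ℝ) H, ‖ex f z‖ ≤ ‖ex g z‖) : n1 f ≤ n1 g :=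
  intervalIntegral.integral_mono_on na_pos (na_i f) (na_i g) h

/-- Cauchy-Schwarz for the norms. -/
private theorem na_cs' (f g : CI H) : ∫ z in (0:ℝ)..H, ‖ex f z‖ * ‖ex g z‖ ≤ n2 f * n2 g :=
  na_cs na_pos _ _ (na_c f) (na_c g)

theorem n2_add (f g : CI H) : n2 (f + g) ≤ n2 f + n2 g := by
  have h0 := n2_nonneg f
  have h0' := n2_nonneg g
  refine abs_le_of_sq_le_sq' ?_ (by positivity) |>.2
  rw [n2_sq]
  have h1 : ∫ z in (0:ℝ)..H, ‖ex (f + g) z‖ ^ 2 ≤
      ∫ z in (0:ℝ)..H, (‖ex f z‖ ^ 2 + 2 * (‖ex f z‖ * ‖ex g z‖) + ‖ex g z‖ ^ 2) := by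
    refine intervalIntegral.integral_mono_on na_pos (na_i2 _) ?_ fun z _ => ?_
    · have := na_c f
      have := na_c g
      exact Continuous.intervalIntegrable (by fun_prop) _ _
    · rw [ex_add]
      have h2 := norm_add_le (ex f z) (ex g z)
      have h3 := norm_nonneg (ex f z + ex g z)
      calc ‖ex f z + ex g z‖ ^ 2 ≤ (‖ex f z‖ + ‖ex g z‖) ^ 2 := pow_le_pow_left₀ h3 h2 2
        _ = _ := by ring
  have h4 : ∫ z in (0:ℝ)..H, (‖ex f z‖ ^ 2 + 2 * (‖ex f z‖ * ‖ex g z‖) + ‖ex g z‖ ^ 2) =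
      n2 f ^ 2 + 2 * (∫ z in (0:ℝ)..H, ‖ex f z‖ * ‖ex g z‖) + n2 g ^ 2 := by
    have hf := na_c f
    have hg := na_c g
    rw [n2_sq, n2_sq, ← intervalIntegral.integral_const_mul, ← intervalIntegral.integral_add,
      ← intervalIntegral.integral_add]
    · exact Continuous.intervalIntegrable (by fun_prop) _ _
    · exact na_i2 g
    · exact na_i2 f
    · exact Continuous.intervalIntegrable (by fun_prop) _ _
  have h5 := na_cs' f g
  nlinarith

theorem n2_neg (f : CI H) : n2 (-f) = n2 f := by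
  unfold n2
  simp

theorem n2_sub (f g : CI H) : n2 (f - g) ≤ n2 f + n2 g := by
  rw [sub_eq_add_neg, ← n2_neg g]
  exact n2_add f (-g)

theorem n2_smul (c : ℂ) (f : CI H) : n2 (c • f) = ‖c‖ * n2 f := by
  unfold n2
  simp only [ex_smul, norm_mul, mul_pow]
  rw [intervalIntegral.integral_const_mul, Real.sqrt_mul (sq_nonneg _),
    Real.sqrt_sq (norm_nonneg _)]

theorem n2_rsmul (c : ℝ) (f : CI H) : n2 (c • f) = |c| * n2 f := by
  unfold n2
  simp only [ex_rsmul, norm_mul, mul_pow, Complex.norm_real, Real.norm_eq_abs]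
  rw [intervalIntegral.integral_const_mul, Real.sqrt_mul (sq_nonneg _),
    Real.sqrt_sq (abs_nonneg _)]

theorem n2_star (f : CI H) : n2 (star f) = n2 f := by
  unfold n2
  simp only [ex_star, norm_star]

theorem n1_add (f g : CI H) : n1 (f + g) ≤ n1 f + n1 g := by
  unfold n1
  rw [← intervalIntegral.integral_add (na_i f) (na_i g)]
  refine intervalIntegral.integral_mono_on na_pos (na_i _) ((na_i f).add (na_i g)) fun z _ => ?_
  rw [ex_add]
  exact norm_add_le _ _

theorem n1_smul (c : ℂ) (f : CI H) : n1 (c • f) = ‖c‖ * n1 f := by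
  unfold n1
  simp only [ex_smul, norm_mul]
  rw [intervalIntegral.integral_const_mul]

theorem n1_rsmul (c : ℝ) (f : CI H) : n1 (c • f) = |c| * n1 f := by
  unfold n1
  simp only [ex_rsmul, norm_mul, Complex.norm_real, Real.norm_eq_abs]
  rw [intervalIntegral.integral_const_mul]

theorem n2_le_norm (f : CI H) : n2 f ≤ √H * ‖f‖ := by
  unfold n2
  rw [← Real.sqrt_sq (norm_nonneg f), ← Real.sqrt_mul na_pos]
  apply Real.sqrt_le_sqrt
  have h1 : ∫ z in (0:ℝ)..H, ‖ex f z‖ ^ 2 ≤ ∫ _ in (0:ℝ)..H, ‖f‖ ^ 2 := by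
    refine intervalIntegral.integral_mono_on na_pos (na_i2 f) (by simp) fun z _ => ?_
    exact pow_le_pow_left₀ (norm_nonneg _) (norm_ex_le f z) 2
  rw [intervalIntegral.integral_const, sub_zero, smul_eq_mul] at h1
  exact h1

theorem n1_le_n2 (f : CI H) : n1 f ≤ √H * n2 f := by
  have h1 := na_cs (na_pos (H := H)) (fun _ => (1:ℝ)) (fun z => ‖ex f z‖) continuous_const (na_c f)
  have h2 : ∫ z in (0:ℝ)..H, ((1:ℝ) ^ 2) = H := by simp
  simp only [one_mul] at h1
  rw [h2] at h1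
  exact h1

theorem n2_mul_le (f g : CI H) : n2 (f * g) ≤ ‖f‖ * n2 g := by
  have h1 : ‖f‖ * n2 g = n2 (((‖f‖ : ℝ) : ℂ) • g) := by
    rw [n2_smul, Complex.norm_real, norm_norm]
  rw [h1]
  refine n2_mono fun z _ => ?_
  rw [ex_mul, ex_smul, norm_mul, norm_mul, Complex.norm_real, norm_norm]
  exact mul_le_mul_of_nonneg_right (norm_ex_le f z) (norm_nonneg _)

theorem n1_mul_le (f g : CI H) : n1 (f * g) ≤ n2 f * n2 g := by
  refine le_trans (le_of_eq ?_) (na_cs' f g)
  unfold n1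
  simp only [ex_mul, norm_mul]

theorem norm_bpJ_le (f g : CI H) : ‖bpJ f g‖ ≤ n2 f * n2 g := by
  refine (intervalIntegral.norm_integral_le_integral_norm na_pos).trans ?_
  refine le_trans (le_of_eq ?_) (na_cs' f g)
  simp only [norm_mul]

theorem norm_bpJ_le' (f g : CI H) : ‖bpJ f g‖ ≤ n1 f * ‖g‖ := by
  refine (intervalIntegral.norm_integral_le_integral_norm na_pos).trans ?_
  unfold n1
  rw [← intervalIntegral.integral_mul_const]
  refine intervalIntegral.integral_mono_on na_pos ?_ ?_ fun z _ => ?_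
  · exact ((continuous_ex f).mul (continuous_ex g)).norm.intervalIntegrable _ _
  · exact (na_i f).mul_const _
  · rw [norm_mul]
    exact mul_le_mul_of_nonneg_left (norm_ex_le g z) (norm_nonneg _)

theorem bpJ_star_self (f : CI H) : bpJ f (star f) = ((n2 f ^ 2 : ℝ) : ℂ) := by
  rw [n2_sq]
  unfold bpJ
  rw [← intervalIntegral.integral_ofReal]
  congr 1
  ext z
  rw [ex_star]
  show ex f z * (starRingEnd ℂ) (ex f z) = _
  rw [Complex.mul_conj, Complex.normSq_eq_norm_sq]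

end

end Pool.Agent.Lib.MP_79abb3_an.FW
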