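import Pool.Agent.Lib.MP_79abb3_an.FW.HEt
import Pool.Agent.Lib.MP_79abb3_an.FW.NormsA
import Pool.Agent.Lib.MP_79abb3_an.P25.FieldAt

/-!
FW-12: duality formula.
-/

set_option autoImplicit false
set_option linter.unusedSectionVars false

open MeasureTheory Set Filter Topology Function

namespace Pool.Agent.Lib.MP_79abb3_an.FW

open Pool.Agent.Lib.MP_79abb3_an.P25

section
variable {H : ℝ} [hH : Fact (0 < H)]

theorem hec_bpJ_le (f g : CI H) : ‖bpJ f g‖ ≤ H * ‖f‖ * ‖g‖ := by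
  have h1 := norm_bpJ_le f g
  have h2 := n2_le_norm f
  have h3 := n2_le_norm g
  have h4 : √H * √H = H := Real.mul_self_sqrt hH.out.le
  calc ‖bpJ f g‖ ≤ n2 f * n2 g := h1
    _ ≤ (√H * ‖f‖) * (√H * ‖g‖) := mul_le_mul h2 h3 (n2_nonneg g) (by positivity)
    _ = (√H * √H) * ‖f‖ * ‖g‖ := by ring
    _ = H * ‖f‖ * ‖g‖ := by rw [h4]

theorem hec_add_right (f g g' : CI H) : bpJ f (g + g') = bpJ f g + bpJ f g' := by
  rw [bpJ_comm, bpJ_add_left, bpJ_comm g, bpJ_comm g']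

theorem hec_sub_right (f g g' : CI H) : bpJ f (g - g') = bpJ f g - bpJ f g' := by
  rw [bpJ_comm, bpJ_sub_left, bpJ_comm g, bpJ_comm g']

theorem hec_smul_right (c : ℂ) (f g : CI H) : bpJ f (c • g) = c * bpJ f g := by
  rw [bpJ_comm, bpJ_smul_left, bpJ_comm]

theorem hec_rsmul_right (c : ℝ) (f g : CI H) : bpJ f (c • g) = c * bpJ f g := by
  rw [bpJ_comm, bpJ_rsmul_left, bpJ_comm]

/-- the pairing as a continuous bilinear map -/
noncomputable def hecB (H : ℝ) [Fact (0 < H)] : CI H →L[ℂ] CI H →L[ℂ] ℂ :=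
  LinearMap.mkContinuous₂ (LinearMap.mk₂ ℂ (bpJ : CI H → CI H → ℂ)
    (fun f f' g => bpJ_add_left f f' g) (fun c f g => bpJ_smul_left c f g)
    (fun f g g' => hec_add_right f g g') (fun c f g => hec_smul_right c f g)) H
    (fun f g => hec_bpJ_le f g)

theorem hec_cont : Continuous fun p : CI H × CI H => bpJ p.1 p.2 :=
  (hecB H).continuous₂

variable {S D A : ℝ → (CI H →L[ℂ] CI H)}

/-- derivative of the adjoint flow -/
theorem hec_psi (hS : DirSG H S D A) (k t : ℝ) (φ : CI H) {r : ℝ} (hr : r < t) :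
    HasDerivAt (fun r => ((Real.exp (-(k ^ 2 * (t - r))) : ℝ) : ℂ) • S (t - r) φ)
      (((Real.exp (-(k ^ 2 * (t - r))) : ℝ) : ℂ) • (-(A (t - r) φ)) +
        ((Real.exp (-(k ^ 2 * (t - r))) * k ^ 2 : ℝ) : ℂ) • S (t - r) φ) r := by
  have h1 : HasDerivAt (fun r => S (t - r) φ) (-(A (t - r) φ)) r :=
    HasDerivAt.comp_const_sub t r (hS.S_time (t - r) (by linarith) φ)
  have h2 : HasDerivAt (fun r : ℝ => Real.exp (-(k ^ 2 * (t - r))))
      (Real.exp (-(k ^ 2 * (t - r))) * k ^ 2) r := by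
    have h3 : HasDerivAt (fun r : ℝ => -(k ^ 2 * (t - r))) (k ^ 2) r := by
      have h4 := ((hasDerivAt_id' r).sub_const t).const_mul (k ^ 2)
      have h5 : (fun r : ℝ => -(k ^ 2 * (t - r))) = fun r => k ^ 2 * (r - t) := by
        funext x
        ring
      rw [h5]
      simpa using h4
    exact h3.exp
  exact h2.ofReal_comp.smul h1

/-- the derivative of the pairing with the adjoint flow -/
theorem hec_deriv (hS : DirSG H S D A) {k a b : ℝ} {f f1 G : ℝ → CI H} (h : HE k a b f f1 G)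
    (hH' : ∀ t ∈ Icc a b, ex (f t) H = 0) {t : ℝ} (ht : t ≤ b) (φ : CI H) {r : ℝ}
    (hr : r ∈ Ioo a t) :
    HasDerivAt (fun r => bpJ (f r) (((Real.exp (-(k ^ 2 * (t - r))) : ℝ) : ℂ) • S (t - r) φ))
      (((Real.exp (-(k ^ 2 * (t - r))) : ℝ) : ℂ) *
        (bpJ (G r) (S (t - r) φ) + ex (f r) 0 * ex (D (t - r) φ) 0)) r := by
  have hrt : 0 < t - r := by linarith [hr.2]
  have hrab : r ∈ Ioo a b := ⟨hr.1, by linarith [hr.2]⟩
  have hnhds : Icc a b ∈ 𝓝 r := Icc_mem_nhds hrab.1 hrab.2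
  set e : ℂ := ((Real.exp (-(k ^ 2 * (t - r))) : ℝ) : ℂ) with he
  -- the pairing with the fixed function
  have hd1 : IsD (e • S (t - r) φ) (e • D (t - r) φ) := (hS.S_der _ hrt φ).fa_csmul e
  have hd2 : IsD (e • D (t - r) φ) (e • A (t - r) φ) := (hS.D_der _ hrt φ).fa_csmul e
  have h1 := (h.test hd1 hd2 r ⟨hrab.1.le, hrab.2.le⟩).hasDerivAt hnhds
  -- the derivative of the adjoint flow
  have h2 := hec_psi hS k t φ hr.2
  -- continuity of f
  have hfc : ContinuousAt f r := h.cf.continuousAt hnhds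
  rw [hasDerivAt_iff_tendsto_slope] at h1 h2 ⊢
  have h3 : Tendsto (fun r' => bpJ (f r')
      (slope (fun r => ((Real.exp (-(k ^ 2 * (t - r))) : ℝ) : ℂ) • S (t - r) φ) r r'))
      (𝓝[≠] r) (𝓝 (bpJ (f r) (e • (-(A (t - r) φ)) +
        ((Real.exp (-(k ^ 2 * (t - r))) * k ^ 2 : ℝ) : ℂ) • S (t - r) φ))) := by
    have h4 : Tendsto f (𝓝[≠] r) (𝓝 (f r)) := hfc.tendsto.mono_left nhdsWithin_le_nhds
    have h5 := h4.prodMk_nhds h2
    exact (hec_cont.tendsto _).comp h5
  have h6 := h1.add h3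
  have e1 : (ex (f1 r) H * ex (e • S (t - r) φ) H - ex (f1 r) 0 * ex (e • S (t - r) φ) 0 -
        (ex (f r) H * ex (e • D (t - r) φ) H - ex (f r) 0 * ex (e • D (t - r) φ) 0) +
        bpJ (f r) (e • A (t - r) φ) - ((k ^ 2 : ℝ) : ℂ) * bpJ (f r) (e • S (t - r) φ) +
        bpJ (G r) (e • S (t - r) φ)) +
      bpJ (f r) (e • (-(A (t - r) φ)) +
        ((Real.exp (-(k ^ 2 * (t - r))) * k ^ 2 : ℝ) : ℂ) • S (t - r) φ) =
      e * (bpJ (G r) (S (t - r) φ) + ex (f r) 0 * ex (D (t - r) φ) 0) := by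
    rw [hec_add_right, hec_smul_right, hec_smul_right, hec_smul_right, hec_smul_right,
      hec_smul_right, ex_smul, ex_smul, ex_smul, ex_smul, hS.S_zero _ hrt, hS.S_H _ hrt,
      hH' r ⟨hrab.1.le, hrab.2.le⟩]
    have e2 : bpJ (f r) (-(A (t - r) φ)) = -bpJ (f r) (A (t - r) φ) := by
      rw [bpJ_comm, bpJ_neg_left, bpJ_comm]
    rw [e2, Complex.ofReal_mul, ← he]
    push_cast
    ring
  rw [e1] at h6
  refine h6.congr fun r' => ?_
  simp only [slope, vsub_eq_sub]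
  rw [hec_rsmul_right, hec_sub_right]
  simp only [Complex.real_smul, he]
  ring

theorem hec_sing (a t : ℝ) : IntervalIntegrable (fun r => (√(t - r))⁻¹) volume a t := by
  have h := (intervalIntegrable_inv_sqrt 0 (t - a)).comp_sub_left t
  simpa using h.symm

theorem HE.dual (hS : DirSG H S D A) {k a b : ℝ} {f f1 G : ℝ → CI H} (h : HE k a b f f1 G)
    (hH' : ∀ t ∈ Icc a b, ex (f t) H = 0) {t : ℝ} (ht : t ∈ Ioc a b) (φ : CI H) :
    IntervalIntegrable (fun r => Real.exp (-(k ^ 2 * (t - r))) *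
        (‖bpJ (G r) (S (t - r) φ)‖ + ‖ex (f r) 0 * ex (D (t - r) φ) 0‖)) volume a t ∧
    bpJ (f t) φ = ((Real.exp (-(k ^ 2 * (t - a))) : ℝ) : ℂ) * bpJ (f a) (S (t - a) φ) +
      ∫ r in a..t, ((Real.exp (-(k ^ 2 * (t - r))) : ℝ) : ℂ) *
        (bpJ (G r) (S (t - r) φ) + ex (f r) 0 * ex (D (t - r) φ) 0) := by
  have hat : a < t := ht.1
  have htb : t ≤ b := ht.2
  have hH0 : 0 < H := hH.out
  -- bounds for f and G
  obtain ⟨Cf, hCf⟩ := isCompact_Icc.exists_bound_of_continuousOn h.cf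
  obtain ⟨CG, hCG⟩ := isCompact_Icc.exists_bound_of_continuousOn h.cG
  have hCf0 : 0 ≤ Cf := (norm_nonneg _).trans (hCf t ⟨hat.le, htb⟩)
  have hCG0 : 0 ≤ CG := (norm_nonneg _).trans (hCG t ⟨hat.le, htb⟩)
  -- continuity on [a, t)
  have hsub : Ico a t ⊆ Icc a b := fun r hr => ⟨hr.1, by linarith [hr.2]⟩
  have hSc : ContinuousOn (fun r => S (t - r) φ) (Ico a t) := by
    intro r hr
    have h1 : ContinuousAt (fun r => S (t - r) φ) r :=
      (HasDerivAt.comp_const_sub t r (hS.S_time (t - r) (by linarith [hr.2]) φ)).continuousAt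
    exact h1.continuousWithinAt
  have hDc : ContinuousOn (fun r => D (t - r) φ) (Ico a t) := by
    refine (hS.D_cont φ).comp (by fun_prop) fun r hr => ?_
    show 0 < t - r
    linarith [hr.2]
  have hGS : ContinuousOn (fun r => bpJ (G r) (S (t - r) φ)) (Ico a t) :=
    hec_cont.comp_continuousOn ((h.cG.mono hsub).prodMk hSc)
  have hfD : ContinuousOn (fun r => ex (f r) 0 * ex (D (t - r) φ) 0) (Ico a t) :=
    ((evL (H := H) 0).continuous.comp_continuousOn (h.cf.mono hsub)).mul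
      ((evL (H := H) 0).continuous.comp_continuousOn hDc)
  have hexp : Continuous fun r : ℝ => Real.exp (-(k ^ 2 * (t - r))) := by fun_prop
  have hexp1 : ∀ r ∈ Ico a t, Real.exp (-(k ^ 2 * (t - r))) ≤ 1 := by
    intro r hr
    rw [Real.exp_le_one_iff]
    have h1 : 0 ≤ t - r := by linarith [hr.2]
    have h2 : 0 ≤ k ^ 2 * (t - r) := by positivity
    linarith
  -- pointwise bound
  have hbd : ∀ r ∈ Ico a t, Real.exp (-(k ^ 2 * (t - r))) *
      (‖bpJ (G r) (S (t - r) φ)‖ + ‖ex (f r) 0 * ex (D (t - r) φ) 0‖) ≤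
      H * CG * ‖φ‖ + Cf * ‖φ‖ * (√(t - r))⁻¹ := by
    intro r hr
    have htr : 0 < t - r := by linarith [hr.2]
    have h1 : ‖bpJ (G r) (S (t - r) φ)‖ ≤ H * CG * ‖φ‖ := by
      refine (hec_bpJ_le _ _).trans ?_
      have h2 := hCG r (hsub hr)
      have h3 := hS.S_norm _ htr φ
      gcongr
    have h2 : ‖ex (f r) 0 * ex (D (t - r) φ) 0‖ ≤ Cf * ‖φ‖ * (√(t - r))⁻¹ := by
      rw [norm_mul]
      have h3 : ‖ex (f r) 0‖ ≤ Cf := (norm_ex_le _ _).trans (hCf r (hsub hr))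
      have h4 : ‖ex (D (t - r) φ) 0‖ ≤ (√(t - r))⁻¹ * ‖φ‖ :=
        (norm_ex_le _ _).trans (hS.D_norm _ htr φ)
      calc ‖ex (f r) 0‖ * ‖ex (D (t - r) φ) 0‖ ≤ Cf * ((√(t - r))⁻¹ * ‖φ‖) :=
            mul_le_mul h3 h4 (norm_nonneg _) hCf0
        _ = Cf * ‖φ‖ * (√(t - r))⁻¹ := by ring
    calc Real.exp (-(k ^ 2 * (t - r))) *
          (‖bpJ (G r) (S (t - r) φ)‖ + ‖ex (f r) 0 * ex (D (t - r) φ) 0‖)
        ≤ 1 * (‖bpJ (G r) (S (t - r) φ)‖ + ‖ex (f r) 0 * ex (D (t - r) φ) 0‖) :=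
          mul_le_mul_of_nonneg_right (hexp1 r hr) (by positivity)
      _ ≤ _ := by linarith
  have hdom : IntervalIntegrable (fun r => H * CG * ‖φ‖ + Cf * ‖φ‖ * (√(t - r))⁻¹) volume a t :=
    intervalIntegrable_const.add ((hec_sing a t).const_mul _)
  -- integrability
  have hmeas : ∀ {E : Type} [NormedAddCommGroup E] (F : ℝ → E), ContinuousOn F (Ico a t) →
      (∀ r ∈ Ico a t, ‖F r‖ ≤ H * CG * ‖φ‖ + Cf * ‖φ‖ * (√(t - r))⁻¹) →
      IntervalIntegrable F volume a t := by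
    intro E _ F hF hb
    rw [intervalIntegrable_iff_integrableOn_Ico_of_le hat.le] at hdom ⊢
    refine Integrable.mono' hdom (hF.aestronglyMeasurable measurableSet_Ico) ?_
    rw [ae_restrict_iff' measurableSet_Ico]
    exact ae_of_all _ hb
  have hint1 : IntervalIntegrable (fun r => Real.exp (-(k ^ 2 * (t - r))) *
      (‖bpJ (G r) (S (t - r) φ)‖ + ‖ex (f r) 0 * ex (D (t - r) φ) 0‖)) volume a t := by
    refine hmeas _ (hexp.continuousOn.mul (hGS.norm.add hfD.norm)) fun r hr => ?_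
    rw [Real.norm_of_nonneg (by positivity)]
    exact hbd r hr
  have hint2 : IntervalIntegrable (fun r => ((Real.exp (-(k ^ 2 * (t - r))) : ℝ) : ℂ) *
      (bpJ (G r) (S (t - r) φ) + ex (f r) 0 * ex (D (t - r) φ) 0)) volume a t := by
    refine hmeas _ ((Complex.continuous_ofReal.comp hexp).continuousOn.mul (hGS.add hfD))
      fun r hr => ?_
    rw [norm_mul, Complex.norm_real, Real.norm_of_nonneg (Real.exp_pos _).le]
    refine le_trans ?_ (hbd r hr)
    exact mul_le_mul_of_nonneg_left (norm_add_le _ _) (Real.exp_pos _).le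
  refine ⟨hint1, ?_⟩
  -- limits at the ends
  have hlima : Tendsto
      (fun r => bpJ (f r) (((Real.exp (-(k ^ 2 * (t - r))) : ℝ) : ℂ) • S (t - r) φ))
      (𝓝[>] a) (𝓝 (((Real.exp (-(k ^ 2 * (t - a))) : ℝ) : ℂ) * bpJ (f a) (S (t - a) φ))) := by
    have h1 : ContinuousWithinAt
        (fun r => bpJ (f r) (((Real.exp (-(k ^ 2 * (t - r))) : ℝ) : ℂ) • S (t - r) φ))
        (Ico a t) a := by
      refine (hec_cont.comp_continuousOn ((h.cf.mono hsub).prodMk
        ((Complex.continuous_ofReal.comp hexp).continuousOn.smul hSc))) a ⟨le_rfl, hat⟩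
    have h2 := h1.tendsto
    simp only [hec_smul_right] at h2 ⊢
    refine h2.mono_left ?_
    refine nhdsWithin_le_iff.2 ?_
    exact mem_of_superset (Ioo_mem_nhdsGT hat) (fun x hx => ⟨hx.1.le, hx.2⟩)
  have hlimb : Tendsto
      (fun r => bpJ (f r) (((Real.exp (-(k ^ 2 * (t - r))) : ℝ) : ℂ) • S (t - r) φ))
      (𝓝[<] t) (𝓝 (bpJ (f t) φ)) := by
    -- the flow converges in L²
    have h1 : Tendsto (fun r => n2 (S (t - r) φ - φ)) (𝓝[<] t) (𝓝 0) := by
      have h2 : Tendsto (fun r : ℝ => t - r) (𝓝[<] t) (𝓝[>] 0) := by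
        refine tendsto_nhdsWithin_iff.2 ⟨?_, ?_⟩
        · have : Tendsto (fun r : ℝ => t - r) (𝓝 t) (𝓝 (t - t)) :=
            (continuous_const.sub continuous_id).tendsto t
          rw [sub_self] at this
          exact this.mono_left nhdsWithin_le_nhds
        · filter_upwards [self_mem_nhdsWithin] with r hr
          show 0 < t - r
          have : r < t := hr
          linarith
      have h3 := ((hS.S_L2 φ).comp h2).sqrt
      rw [Real.sqrt_zero] at h3
      exact h3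
    have h4 : Tendsto (fun r => bpJ (f r) (S (t - r) φ)) (𝓝[<] t) (𝓝 (bpJ (f t) φ)) := by
      rw [tendsto_iff_norm_sub_tendsto_zero]
      have h5 : Tendsto (fun r => H * ‖f r - f t‖ * ‖φ‖ + n2 (f t) * n2 (S (t - r) φ - φ))
          (𝓝[<] t) (𝓝 (H * 0 * ‖φ‖ + n2 (f t) * 0)) := by
        have h6 : Tendsto f (𝓝[<] t) (𝓝 (f t)) := by
          have h7 : ContinuousWithinAt f (Icc a b) t := h.cf t ⟨hat.le, htb⟩
          refine h7.tendsto.mono_left (nhdsWithin_le_iff.2 ?_)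
          exact mem_of_superset (Ioo_mem_nhdsLT hat) (fun x hx => ⟨hx.1.le, by linarith [hx.2]⟩)
        have h8 : Tendsto (fun r => ‖f r - f t‖) (𝓝[<] t) (𝓝 0) := by
          have := (h6.sub_const (f t)).norm
          rwa [sub_self, norm_zero] at this
        exact ((h8.const_mul H).mul_const _).add (h1.const_mul _)
      simp only [mul_zero, zero_mul, add_zero] at h5
      refine squeeze_zero' (Eventually.of_forall fun r => norm_nonneg _) ?_ h5
      filter_upwards [self_mem_nhdsWithin] with r hr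
      have hr' : r < t := hr
      have e1 : bpJ (f r) (S (t - r) φ) - bpJ (f t) φ =
          bpJ (f r - f t) (S (t - r) φ) + bpJ (f t) (S (t - r) φ - φ) := by
        rw [bpJ_sub_left, hec_sub_right]
        ring
      rw [e1]
      refine (norm_add_le _ _).trans (add_le_add ?_ (norm_bpJ_le _ _))
      refine (hec_bpJ_le _ _).trans ?_
      have h9 := hS.S_norm _ (show 0 < t - r by linarith) φ
      gcongr
    have h10 : Tendsto (fun r : ℝ => ((Real.exp (-(k ^ 2 * (t - r))) : ℝ) : ℂ)) (𝓝[<] t)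
        (𝓝 1) := by
      have h11 : Continuous fun r : ℝ => ((Real.exp (-(k ^ 2 * (t - r))) : ℝ) : ℂ) :=
        Complex.continuous_ofReal.comp hexp
      have h12 := (h11.tendsto t).mono_left (nhdsWithin_le_nhds (s := Iio t))
      simpa using h12
    have h13 := h10.mul h4
    rw [one_mul] at h13
    refine h13.congr fun r => ?_
    rw [hec_smul_right]
  have hftc := intervalIntegral.integral_eq_sub_of_hasDerivAt_of_tendsto hat
    (fun r hr => hec_deriv hS h hH' htb φ hr) hint2 hlima hlimb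
  rw [hftc]
  ring

end

end Pool.Agent.Lib.MP_79abb3_an.FW
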