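import Pool.Agent.Lib.MP_79abb3_an.FW.VoB
import Pool.Agent.Lib.MP_79abb3_an.FW.HEc
import Pool.Agent.Lib.MP_79abb3_an.P25.Dir

/-!
FW-24: the inequality for `yy` (3.5).
-/

set_option autoImplicit false
set_option linter.unusedSectionVars false

attribute [-instance] PreLp.ring SubfieldClass.toSubringClass SubringClass.toSubsemiringClass
  NonUnitalSubringClass.toNonUnitalSubsemiringClass RingConeClass.toSubsemiringClass
  SubsemiringClass.nonUnitalSubsemiringClass SubringClass.nonUnitalSubringClass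
  AddSubgroup.seminormedAddCommGroup SetLike.GradeZero.instSemiring SetLike.GradeZero.instCommRing
  SetLike.GradeZero.instCommSemiring SetLike.GradeZero.instRing LieAdmissibleAlgebra.toModule
  RightPreLieAlgebra.toModule LeftPreLieAlgebra.toModule

open MeasureTheory Set Filter Topology Function

namespace Pool.Agent.Lib.MP_79abb3_an.FW

open Pool.Agent.Lib.MP_79abb3_an.P25

section
variable {H : ℝ} [hH : Fact (0 < H)]

private theorem voc_q4 {s : ℝ} (hs : 0 ≤ s) : q4 s = s ^ (1 / 4 : ℝ) := by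
  unfold q4
  rw [Real.sqrt_eq_rpow, Real.sqrt_eq_rpow, ← Real.rpow_mul hs]
  norm_num

private theorem voc_k2 {a t : ℝ} (hat : a ≤ t) :
    IntervalIntegrable (fun r => (√(t - r))⁻¹ * (q4 (t - r))⁻¹) volume a t := by
  have h1 : IntervalIntegrable (fun s : ℝ => s ^ (-(3 / 4) : ℝ)) volume 0 (t - a) :=
    intervalIntegral.intervalIntegrable_rpow' (by norm_num)
  have h2 := (h1.comp_sub_left t).symm
  rw [sub_sub_cancel, sub_zero] at h2
  refine h2.congr fun r hr => ?_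
  rw [uIoc_of_le hat] at hr
  have hs : 0 ≤ t - r := by linarith [hr.2]
  show (t - r) ^ (-(3 / 4) : ℝ) = (√(t - r))⁻¹ * (q4 (t - r))⁻¹
  rw [voc_q4 hs, Real.sqrt_eq_rpow, Real.rpow_neg hs, ← mul_inv,
    ← Real.rpow_add_of_nonneg hs (by norm_num) (by norm_num)]
  norm_num

private theorem voc_k1 {a t : ℝ} (hat : a ≤ t) :
    IntervalIntegrable (fun r => (q4 (t - r))⁻¹) volume a t := by
  have h1 : IntervalIntegrable (fun s : ℝ => s ^ (-(1 / 4) : ℝ)) volume 0 (t - a) :=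
    intervalIntegral.intervalIntegrable_rpow' (by norm_num)
  have h2 := (h1.comp_sub_left t).symm
  rw [sub_sub_cancel, sub_zero] at h2
  refine h2.congr fun r hr => ?_
  rw [uIoc_of_le hat] at hr
  have hs : 0 ≤ t - r := by linarith [hr.2]
  show (t - r) ^ (-(1 / 4) : ℝ) = (q4 (t - r))⁻¹
  rw [voc_q4 hs, Real.rpow_neg hs]

/-- the bound `vT` is integrable in time -/
private theorem voc_vT {ω : ℝ} {N : ℕ} {A A1 : ℝ → ℝ} {a b : ℝ} {x : ℝ → L1 (Xn H)}
    (h : CS ω N A A1 a b x) {t : ℝ} (ht : t ∈ Icc a b) :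
    IntervalIntegrable (fun r => vT ω N (A r) (t - r) (x r)) volume a t := by
  have hat : a ≤ t := ht.1
  have hsub : Icc a t ⊆ Icc a b := Icc_subset_Icc_right ht.2
  have cA := h.cA.mono hsub
  have cx := h.c.mono hsub
  have c1 : ContinuousOn (fun r => bt ω (x r)) (Icc a t) :=
    Continuous.comp_continuousOn (g := fun y : L1 (Xn H) => bt ω y) (f := x) (bt_cont ω) cx
  have c2 : ContinuousOn (fun r => yy (x r)) (Icc a t) :=
    Continuous.comp_continuousOn (g := fun y : L1 (Xn H) => yy y) (f := x) yy_cont cx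
  have c3 : ContinuousOn (fun r => th2 (x r)) (Icc a t) :=
    Continuous.comp_continuousOn (g := fun y : L1 (Xn H) => th2 y) (f := x) th2_cont cx
  have c4 : ContinuousOn (fun r => K0 (ω * N) (A r) (x r)) (Icc a t) := K0_cont cA cx
  have c5 : ContinuousOn (fun r => K1 (ω * N) (A r) (x r)) (Icc a t) := K1_cont cA cx
  have F1 : ContinuousOn (fun r => bt ω (x r) + A r + yy (x r) ^ 2 + √(K0 (ω * N) (A r) (x r)))
      (uIcc a t) := by
    rw [uIcc_of_le hat]
    exact ((c1.add cA).add (c2.pow 2)).add c4.sqrt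
  have F2 : ContinuousOn (fun r => (bt ω (x r) + √(th2 (x r))) * yy (x r)) (uIcc a t) := by
    rw [uIcc_of_le hat]
    exact (c1.add c3.sqrt).mul c2
  have F3 : ContinuousOn (fun r => ω * N * √(K0 (ω * N) (A r) (x r)) + √(K1 (ω * N) (A r) (x r)))
      (uIcc a t) := by
    rw [uIcc_of_le hat]
    exact (continuousOn_const.mul c4.sqrt).add c5.sqrt
  have G1 := (voc_k2 hat).mul_continuousOn F1
  have G2 := (hec_sing a t).mul_continuousOn F2
  have G3 := (voc_k1 hat).mul_continuousOn F3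
  have G := (G1.add G2).add G3
  refine G.congr fun r _ => ?_
  show (√(t - r))⁻¹ * (q4 (t - r))⁻¹ *
      (bt ω (x r) + A r + yy (x r) ^ 2 + √(K0 (ω * N) (A r) (x r))) +
      (√(t - r))⁻¹ * ((bt ω (x r) + √(th2 (x r))) * yy (x r)) +
      (q4 (t - r))⁻¹ * (ω * N * √(K0 (ω * N) (A r) (x r)) + √(K1 (ω * N) (A r) (x r))) =
      vT ω N (A r) (t - r) (x r)
  unfold vT
  ring

/-- one mode -/
private theorem voc_mode {ω : ℝ} (hω : 0 < ω) {N : ℕ} {A A1 : ℝ → ℝ} {a b : ℝ}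
    {x : ℝ → L1 (Xn H)} (hN : 1 ≤ N) (hab : b ≤ a + 1) (h : CS ω N A A1 a b x)
    (hA : ∀ t ∈ Icc a b, 0 ≤ A t) {t : ℝ} (hat : a < t) (htb : t ≤ b) (n : ℤ)
    (hv : ∀ r ∈ Ioo a t, 0 ≤ vB ω N (A r) (t - r) (x r) n) :
    ∃ J : ℝ → ℝ, IntervalIntegrable J volume a t ∧
      (∀ r ∈ Ioo a t, J r ≤ 1000 * vB ω N (A r) (t - r) (x r) n) ∧
      n2 (x t n).2.1 ≤ n2 (x a n).2.1 + ∫ r in a..t, J r := by
  by_cases h0 : n2 (x t n).2.1 = 0
  · refine ⟨fun _ => 0, intervalIntegrable_const, fun r hr => ?_, ?_⟩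
    · have := hv r hr
      positivity
    · rw [h0, intervalIntegral.integral_zero, add_zero]
      exact n2_nonneg _
  obtain ⟨S, D, A0, hS⟩ := exists_dir H
  have hH' : ∀ t ∈ Icc a b, ex (x t n).2.1 H = 0 := fun t ht => (h.cm t ht n).h2
  set φ : CI H := star (x t n).2.1 with hφ
  have hnφ : n2 φ = n2 (x t n).2.1 := n2_star _
  have hpos : 0 < n2 (x t n).2.1 := lt_of_le_of_ne (n2_nonneg _) (Ne.symm h0)
  have hd := (HE.dual hS (h.ei n) hH' (t := t) ⟨hat, htb⟩ φ).2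
  have hself : bpJ (x t n).2.1 φ = ((n2 (x t n).2.1 ^ 2 : ℝ) : ℂ) := bpJ_star_self _
  rw [hself] at hd
  set I : ℝ → ℂ := fun r => ((Real.exp (-((ω * n) ^ 2 * (t - r))) : ℝ) : ℂ) *
        (bpJ (si ω N (A r) (x r) n) (S (t - r) φ) + ex (x r n).2.1 0 * ex (D (t - r) φ) 0) with hI
  have hIb : ∀ r ∈ Ioo a t, ‖I r‖ ≤ 1000 * vB ω N (A r) (t - r) (x r) n * n2 (x t n).2.1 := by
    intro r hr
    have hrab : r ∈ Icc a b := ⟨hr.1.le, hr.2.le.trans htb⟩
    have hs : t - r ∈ Ioc (0:ℝ) 1 := ⟨by linarith [hr.2], by linarith [hr.1]⟩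
    have h1 := vo_pt hS hω hN (hA r hrab) (x := x r) (h.cm r hrab) hs n φ
    rw [hnφ] at h1
    refine le_trans (le_of_eq ?_) h1
    rw [hI]
    simp only
    rw [norm_mul, Complex.norm_real, Real.norm_of_nonneg (Real.exp_pos _).le]
  have hfirst : ‖((Real.exp (-((ω * n) ^ 2 * (t - a))) : ℝ) : ℂ) *
      bpJ (x a n).2.1 (S (t - a) φ)‖ ≤ n2 (x a n).2.1 * n2 (x t n).2.1 := by
    rw [norm_mul, Complex.norm_real, Real.norm_of_nonneg (Real.exp_pos _).le]
    have h1 : Real.exp (-((ω * n) ^ 2 * (t - a))) ≤ 1 := by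
      rw [Real.exp_le_one_iff]
      have h2 : 0 ≤ t - a := by linarith
      have h3 : 0 ≤ (ω * n) ^ 2 * (t - a) := by positivity
      linarith
    have h4 : ‖bpJ (x a n).2.1 (S (t - a) φ)‖ ≤ n2 (x a n).2.1 * n2 (x t n).2.1 := by
      refine (norm_bpJ_le _ _).trans ?_
      have h5 := sg_S2 hS (show 0 < t - a by linarith) φ
      rw [hnφ] at h5
      exact mul_le_mul_of_nonneg_left h5 (n2_nonneg _)
    calc Real.exp (-((ω * n) ^ 2 * (t - a))) * ‖bpJ (x a n).2.1 (S (t - a) φ)‖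
        ≤ 1 * ‖bpJ (x a n).2.1 (S (t - a) φ)‖ := mul_le_mul_of_nonneg_right h1 (norm_nonneg _)
      _ ≤ _ := by rw [one_mul]; exact h4
  have hsq : n2 (x t n).2.1 ^ 2 ≤ n2 (x a n).2.1 * n2 (x t n).2.1 + ‖∫ r in a..t, I r‖ := by
    have h1 : ‖((n2 (x t n).2.1 ^ 2 : ℝ) : ℂ)‖ = n2 (x t n).2.1 ^ 2 := by
      rw [Complex.norm_real, Real.norm_of_nonneg (by positivity)]
    rw [← h1, hd]
    exact (norm_add_le _ _).trans (add_le_add hfirst le_rfl)
  by_cases hint : IntervalIntegrable I volume a t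
  · refine ⟨fun r => ‖I r‖ * (n2 (x t n).2.1)⁻¹, hint.norm.mul_const _, fun r hr => ?_, ?_⟩
    · show ‖I r‖ * (n2 (x t n).2.1)⁻¹ ≤ _
      rw [← div_eq_mul_inv, div_le_iff₀ hpos]
      exact hIb r hr
    · rw [intervalIntegral.integral_mul_const]
      have h1 := intervalIntegral.norm_integral_le_integral_norm (f := I) (μ := volume) hat.le
      have h2 : n2 (x t n).2.1 * n2 (x t n).2.1 ≤
          (n2 (x a n).2.1 + (∫ r in a..t, ‖I r‖) * (n2 (x t n).2.1)⁻¹) * n2 (x t n).2.1 := by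
        rw [add_mul, mul_assoc, inv_mul_cancel₀ hpos.ne', mul_one, ← sq]
        linarith
      exact le_of_mul_le_mul_right h2 hpos
  · refine ⟨fun _ => 0, intervalIntegrable_const, fun r hr => ?_, ?_⟩
    · have := hv r hr
      positivity
    · rw [intervalIntegral.integral_undef hint, norm_zero, add_zero, sq] at hsq
      rw [intervalIntegral.integral_zero, add_zero]
      exact le_of_mul_le_mul_right hsq hpos

theorem volterra {ω : ℝ} (hω : 0 < ω) : ∃ C, 0 ≤ C ∧ ∀ {N : ℕ} {A A1 : ℝ → ℝ} {a b : ℝ}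
    {x : ℝ → L1 (Xn H)}, 1 ≤ N → a ≤ b → b ≤ a + 1 → CS ω N A A1 a b x →
    (∀ t ∈ Icc a b, 0 ≤ A t) → ∀ t ∈ Icc a b,
      IntervalIntegrable (fun r => vT ω N (A r) (t - r) (x r)) volume a t ∧
      yy (x t) ≤ yy (x a) + C * ∫ r in a..t, vT ω N (A r) (t - r) (x r) := by
  obtain ⟨C0, hC0, hsum⟩ := vo_sum (H := H) hω
  refine ⟨1000 * C0, by positivity, ?_⟩
  intro N A A1 a b x hN hab hab1 h hA t ht
  have hvT := voc_vT h ht
  refine ⟨hvT, ?_⟩
  rcases eq_or_lt_of_le ht.1 with heq | hat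
  · rw [← heq, intervalIntegral.integral_same]
    simp
  have hvs : ∀ r ∈ Ioo a t, (∀ n, 0 ≤ vB ω N (A r) (t - r) (x r) n) ∧
      (Summable fun n => vB ω N (A r) (t - r) (x r) n) ∧
        ∑' n, vB ω N (A r) (t - r) (x r) n ≤ C0 * vT ω N (A r) (t - r) (x r) := by
    intro r hr
    have hrab : r ∈ Icc a b := ⟨hr.1.le, hr.2.le.trans ht.2⟩
    exact hsum hN (hA r hrab) (h.cm r hrab) (s := t - r) ⟨by linarith [hr.2], by linarith [hr.1, ht.2]⟩
  have hm := fun n : ℤ => voc_mode hω hN hab1 h hA hat ht.2 n (fun r hr => (hvs r hr).1 n)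
  choose J hJi hJb hJ using hm
  have hfin : ∀ F : Finset ℤ, ∑ n ∈ F, n2 (x t n).2.1 ≤
      yy (x a) + 1000 * C0 * ∫ r in a..t, vT ω N (A r) (t - r) (x r) := by
    intro F
    have h1 : ∑ n ∈ F, n2 (x t n).2.1 ≤ ∑ n ∈ F, n2 (x a n).2.1 + ∑ n ∈ F, ∫ r in a..t, J n r := by
      rw [← Finset.sum_add_distrib]
      exact Finset.sum_le_sum fun n _ => hJ n
    have h2 : ∑ n ∈ F, n2 (x a n).2.1 ≤ yy (x a) :=
      (fun_summable (x a) 0 0 0 0 0).1.sum_le_tsum F fun n _ => n2_nonneg _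
    have h3 : ∑ n ∈ F, ∫ r in a..t, J n r = ∫ r in a..t, ∑ n ∈ F, J n r :=
      (intervalIntegral.integral_finsetSum fun n _ => hJi n).symm
    have h4 : ∫ r in a..t, ∑ n ∈ F, J n r ≤
        ∫ r in a..t, 1000 * C0 * vT ω N (A r) (t - r) (x r) := by
      refine intervalIntegral.integral_mono_on_of_le_Ioo hat.le ?_ (hvT.const_mul _) fun r hr => ?_
      · have h5 := IntervalIntegrable.sum F (f := fun n => J n) fun n _ => hJi n
        have h6 : (∑ n ∈ F, J n) = fun r => ∑ n ∈ F, J n r := by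
          funext r
          rw [Finset.sum_apply]
        rwa [h6] at h5
      · obtain ⟨hv1, hv2, hv3⟩ := hvs r hr
        calc ∑ n ∈ F, J n r ≤ ∑ n ∈ F, 1000 * vB ω N (A r) (t - r) (x r) n :=
              Finset.sum_le_sum fun n _ => hJb n r hr
          _ = 1000 * ∑ n ∈ F, vB ω N (A r) (t - r) (x r) n := by rw [Finset.mul_sum]
          _ ≤ 1000 * (C0 * vT ω N (A r) (t - r) (x r)) := by
              have := (hv2.sum_le_tsum F fun n _ => hv1 n).trans hv3
              linarith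
          _ = _ := by ring
    rw [intervalIntegral.integral_const_mul] at h4
    linarith
  exact (fun_summable (x t) 0 0 0 0 0).1.tsum_le_of_sum_le hfin

end

end Pool.Agent.Lib.MP_79abb3_an.FW
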