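import Pool.Agent.Lib.MP_79abb3_an.FW.Def

/-!
FW-4d: singular integrals in time.
-/

set_option autoImplicit false
set_option linter.unusedSectionVars false

open MeasureTheory Set Filter Topology Function

namespace Pool.Agent.Lib.MP_79abb3_an.FW

open Pool.Agent.Lib.MP_79abb3_an.P25

private theorem YD_q4_eq {s : ℝ} (hs : 0 ≤ s) : q4 s = s ^ (1 / 4 : ℝ) := by
  unfold q4
  rw [Real.sqrt_eq_rpow, Real.sqrt_eq_rpow, ← Real.rpow_mul hs]
  norm_num

private theorem YD_q4_inv {s : ℝ} (hs : 0 ≤ s) : (q4 s)⁻¹ = s ^ (-(1 / 4) : ℝ) := by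
  rw [YD_q4_eq hs, Real.rpow_neg hs]

private theorem YD_q34_inv {s : ℝ} (hs : 0 ≤ s) :
    (√s)⁻¹ * (q4 s)⁻¹ = s ^ (-(3 / 4) : ℝ) := by
  rw [YD_q4_eq hs, Real.sqrt_eq_rpow, ← mul_inv, Real.rpow_neg hs]
  rcases hs.eq_or_lt with h | h
  · rw [← h, Real.zero_rpow (by norm_num), Real.zero_rpow (by norm_num),
      Real.zero_rpow (by norm_num), mul_zero]
  · rw [← Real.rpow_add h]
    norm_num

private theorem YD_int (t : ℝ) {p : ℝ} (hp : -1 < p) :
    IntervalIntegrable (fun r => (t - r) ^ p) volume 0 t ∧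
      ∫ r in (0:ℝ)..t, (t - r) ^ p = t ^ (p + 1) / (p + 1) := by
  constructor
  · have h := (intervalIntegral.intervalIntegrable_rpow' (a := 0) (b := t) hp).comp_sub_left t
    simp only [sub_zero, sub_self] at h
    exact h.symm
  · have h := intervalIntegral.integral_comp_sub_left (a := 0) (b := t) (fun s : ℝ => s ^ p) t
    simp only [sub_zero, sub_self] at h
    rw [h, integral_rpow (Or.inl hp), Real.zero_rpow (by linarith), sub_zero]

private theorem YD_congr {t : ℝ} (ht : 0 ≤ t) {f g : ℝ → ℝ} (h : ∀ r ∈ Icc 0 t, f r = g r) :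
    (IntervalIntegrable g volume 0 t → IntervalIntegrable f volume 0 t) ∧
      ∫ r in (0:ℝ)..t, f r = ∫ r in (0:ℝ)..t, g r := by
  constructor
  · intro hg
    rw [intervalIntegrable_iff_integrableOn_Icc_of_le ht] at hg ⊢
    exact hg.congr_fun (fun r hr => (h r hr).symm) measurableSet_Icc
  · apply intervalIntegral.integral_congr
    rw [uIcc_of_le ht]
    exact h

section
variable {H : ℝ} [hH : Fact (0 < H)]

theorem int_q4 {t : ℝ} (ht : 0 ≤ t) :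
    IntervalIntegrable (fun r => (q4 (t - r))⁻¹) volume 0 t ∧ ∫ r in (0:ℝ)..t, (q4 (t - r))⁻¹ ≤ 2 * (t / q4 t) := by
  have h1 := YD_int t (p := -(1 / 4)) (by norm_num)
  have h2 := YD_congr ht (f := fun r => (q4 (t - r))⁻¹) (g := fun r => (t - r) ^ (-(1 / 4) : ℝ))
    (fun r hr => YD_q4_inv (by linarith [hr.2]))
  refine ⟨h2.1 h1.1, ?_⟩
  rw [h2.2, h1.2]
  rcases ht.eq_or_lt with h | h
  · rw [← h, Real.zero_rpow (by norm_num)]
    simp
  · have h3 : t / q4 t = t ^ (3 / 4 : ℝ) := by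
      rw [YD_q4_eq ht, div_eq_iff (by positivity), ← Real.rpow_add h]
      norm_num
    rw [h3]
    have h4 : (-(1 / 4) + 1 : ℝ) = 3 / 4 := by norm_num
    rw [h4]
    have h5 : 0 < t ^ (3 / 4 : ℝ) := by positivity
    rw [div_le_iff₀ (by norm_num)]
    linarith

theorem int_q34 {t : ℝ} (ht : 0 ≤ t) :
    IntervalIntegrable (fun r => (√(t - r))⁻¹ * (q4 (t - r))⁻¹) volume 0 t ∧
      ∫ r in (0:ℝ)..t, (√(t - r))⁻¹ * (q4 (t - r))⁻¹ = 4 * q4 t := by
  have h1 := YD_int t (p := -(3 / 4)) (by norm_num)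
  have h2 := YD_congr ht (f := fun r => (√(t - r))⁻¹ * (q4 (t - r))⁻¹)
    (g := fun r => (t - r) ^ (-(3 / 4) : ℝ)) (fun r hr => YD_q34_inv (by linarith [hr.2]))
  refine ⟨h2.1 h1.1, ?_⟩
  rw [h2.2, h1.2, YD_q4_eq ht]
  have h4 : (-(3 / 4) + 1 : ℝ) = 1 / 4 := by norm_num
  rw [h4]
  ring

/-- Hölder with exponents `8/7`, `8`. -/
theorem int_q34_l8 {t : ℝ} (ht : 0 ≤ t) {β : ℝ → ℝ} (cβ : ContinuousOn β (Icc 0 t))
    (hβ : ∀ r ∈ Icc 0 t, 0 ≤ β r) :
    IntervalIntegrable (fun r => (√(t - r))⁻¹ * (q4 (t - r))⁻¹ * β r) volume 0 t ∧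
      ∫ r in (0:ℝ)..t, (√(t - r))⁻¹ * (q4 (t - r))⁻¹ * β r ≤
        8 * t ^ (1 / 8 : ℝ) * (∫ r in (0:ℝ)..t, β r ^ 8) ^ (1 / 8 : ℝ) := by
  refine ⟨(int_q34 ht).1.mul_continuousOn (by rwa [uIcc_of_le ht]), ?_⟩
  have h1 := YD_int t (p := -(3 / 4)) (by norm_num)
  have h6 := YD_int t (p := -(6 / 7)) (by norm_num)
  have h2 := YD_congr ht (f := fun r => (√(t - r))⁻¹ * (q4 (t - r))⁻¹ * β r)
    (g := fun r => (t - r) ^ (-(3 / 4) : ℝ) * β r)
    (fun r hr => by rw [YD_q34_inv (by linarith [hr.2] : (0:ℝ) ≤ t - r)])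
  rw [h2.2, intervalIntegral.integral_of_le ht]
  have hpq : Real.HolderConjugate (8 / 7 : ℝ) 8 := by
    rw [Real.holderConjugate_iff]
    norm_num
  -- measurability and integrability
  have hfm : AEStronglyMeasurable (fun r : ℝ => (t - r) ^ (-(3 / 4) : ℝ))
      (volume.restrict (Ioc 0 t)) := by
    have h := h1.1
    rw [intervalIntegrable_iff_integrableOn_Ioc_of_le ht] at h
    exact h.aestronglyMeasurable
  have hgm : AEStronglyMeasurable β (volume.restrict (Ioc 0 t)) :=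
    (cβ.mono Ioc_subset_Icc_self).aestronglyMeasurable measurableSet_Ioc
  have hpow : ∀ r ∈ Icc 0 t, ((t - r) ^ (-(3 / 4) : ℝ)) ^ (8 / 7 : ℝ) = (t - r) ^ (-(6 / 7) : ℝ) := by
    intro r hr
    rw [← Real.rpow_mul (by linarith [hr.2])]
    norm_num
  have hf8 : MemLp (fun r : ℝ => (t - r) ^ (-(3 / 4) : ℝ)) (ENNReal.ofReal (8 / 7))
      (volume.restrict (Ioc 0 t)) := by
    rw [← integrable_norm_rpow_iff hfm (by simp) (by simp),
      ENNReal.toReal_ofReal (by norm_num)]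
    have h := h6.1
    rw [intervalIntegrable_iff_integrableOn_Ioc_of_le ht] at h
    refine h.congr_fun ?_ measurableSet_Ioc
    intro r hr
    have hr' : (0:ℝ) ≤ t - r := by linarith [hr.2]
    show (t - r) ^ (-(6 / 7) : ℝ) = ‖(t - r) ^ (-(3 / 4) : ℝ)‖ ^ (8 / 7 : ℝ)
    rw [Real.norm_of_nonneg (Real.rpow_nonneg hr' _), hpow r ⟨hr.1.le, hr.2⟩]
  have hg8 : MemLp β (ENNReal.ofReal 8) (volume.restrict (Ioc 0 t)) := by
    rw [← integrable_norm_rpow_iff hgm (by simp) (by simp),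
      ENNReal.toReal_ofReal (by norm_num)]
    have hc : ContinuousOn (fun r => ‖β r‖ ^ (8 : ℝ)) (Icc 0 t) :=
      (cβ.norm).rpow_const (fun r _ => Or.inr (by norm_num))
    exact (hc.integrableOn_Icc).mono_set Ioc_subset_Icc_self
  have hH := integral_mul_le_Lp_mul_Lq_of_nonneg hpq
    (f := fun r : ℝ => (t - r) ^ (-(3 / 4) : ℝ)) (g := β) (μ := volume.restrict (Ioc 0 t))
    (by
      filter_upwards [ae_restrict_mem measurableSet_Ioc] with r hr
      exact Real.rpow_nonneg (by linarith [hr.2]) _)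
    (by
      filter_upwards [ae_restrict_mem measurableSet_Ioc] with r hr
      exact hβ r ⟨hr.1.le, hr.2⟩) hf8 hg8
  refine hH.trans ?_
  have e1 : ∫ a in Ioc 0 t, ((t - a) ^ (-(3 / 4) : ℝ)) ^ (8 / 7 : ℝ) = 7 * t ^ (1 / 7 : ℝ) := by
    rw [← intervalIntegral.integral_of_le ht,
      (YD_congr ht (f := fun a => ((t - a) ^ (-(3 / 4) : ℝ)) ^ (8 / 7 : ℝ))
        (g := fun a => (t - a) ^ (-(6 / 7) : ℝ)) hpow).2, h6.2]
    norm_num
    ring
  have e2 : ∫ a in Ioc 0 t, β a ^ (8 : ℝ) = ∫ r in (0:ℝ)..t, β r ^ 8 := by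
    rw [intervalIntegral.integral_of_le ht]
    refine integral_congr_ae (Filter.Eventually.of_forall fun r => ?_)
    show β r ^ (8 : ℝ) = β r ^ 8
    exact_mod_cast Real.rpow_natCast (β r) 8
  show (∫ a in Ioc 0 t, ((t - a) ^ (-(3 / 4) : ℝ)) ^ (8 / 7 : ℝ)) ^ (1 / (8 / 7) : ℝ) *
    (∫ a in Ioc 0 t, β a ^ (8 : ℝ)) ^ (1 / 8 : ℝ) ≤ _
  rw [e1, e2]
  have e3 : (7 * t ^ (1 / 7 : ℝ)) ^ (1 / (8 / 7) : ℝ) ≤ 8 * t ^ (1 / 8 : ℝ) := by
    rw [Real.mul_rpow (by norm_num) (Real.rpow_nonneg ht _), ← Real.rpow_mul ht]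
    have e4 : (7 : ℝ) ^ (1 / (8 / 7) : ℝ) ≤ 7 ^ (1 : ℝ) :=
      Real.rpow_le_rpow_of_exponent_le (by norm_num) (by norm_num)
    rw [Real.rpow_one] at e4
    have e5 : (1 / 7 * (1 / (8 / 7)) : ℝ) = 1 / 8 := by norm_num
    rw [e5]
    have e6 : 0 ≤ t ^ (1 / 8 : ℝ) := Real.rpow_nonneg ht _
    nlinarith
  refine mul_le_mul_of_nonneg_right e3 (Real.rpow_nonneg ?_ _)
  exact intervalIntegral.integral_nonneg ht fun r hr => pow_nonneg (hβ r hr) 8

end

end Pool.Agent.Lib.MP_79abb3_an.FW
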