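import Pool.Agent.Lib.MP_79abb3_an.FW.Kap
import Pool.Agent.Lib.MP_79abb3_an.FW.VoC
import Pool.Agent.Lib.MP_79abb3_an.FW.YoungD

/-!
FW-27: the estimate of `yy` under the bootstrap hypotheses.
-/

set_option autoImplicit false
set_option linter.unusedSectionVars false

attribute [-instance] PreLp.ring SubfieldClass.toSubringClass SubringClass.toSubsemiringClass
  NonUnitalSubringClass.toNonUnitalSubsemiringClass RingConeClass.toSubsemiringClass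
  SubsemiringClass.nonUnitalSubsemiringClass SubringClass.nonUnitalSubringClass
  AddSubgroup.seminormedAddCommGroup SetLike.GradeZero.instSemiring SetLike.GradeZero.instCommRing
  SetLike.GradeZero.instCommSemiring SetLike.GradeZero.instRing LieAdmissibleAlgebra.toModule
  RightPreLieAlgebra.toModule LeftPreLieAlgebra.toModule

open MeasureTheory Set Filter Topology Function

namespace Pool.Agent.Lib.MP_79abb3_an.FW

open Pool.Agent.Lib.MP_79abb3_an.P25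

section
variable {H : ℝ} [hH : Fact (0 < H)]

private theorem apc_q4_eq {s : ℝ} (hs : 0 ≤ s) : q4 s = s ^ (1 / 4 : ℝ) := by
  unfold q4
  rw [Real.sqrt_eq_rpow, Real.sqrt_eq_rpow, ← Real.rpow_mul hs]
  norm_num

private theorem apc_q4_nonneg (s : ℝ) : 0 ≤ q4 s := Real.sqrt_nonneg _

private theorem apc_q4_le {s : ℝ} (h1 : s ≤ 1) : q4 s ≤ 1 := by
  unfold q4
  have h2 : √s ≤ 1 := by
    have := Real.sqrt_le_sqrt h1
    rwa [Real.sqrt_one] at this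
  have := Real.sqrt_le_sqrt h2
  rwa [Real.sqrt_one] at this

/-- `(√s)⁻¹ ≤ (√s)⁻¹ (q4 s)⁻¹` and `(q4 s)⁻¹ ≤ (√s)⁻¹ (q4 s)⁻¹` for `s ∈ [0, 1]`. -/
private theorem apc_ker {s : ℝ} (h0 : 0 ≤ s) (h1 : s ≤ 1) :
    (√s)⁻¹ ≤ (√s)⁻¹ * (q4 s)⁻¹ ∧ (q4 s)⁻¹ ≤ (√s)⁻¹ * (q4 s)⁻¹ := by
  rcases h0.eq_or_lt with h | h
  · subst h
    simp [q4]
  · have hs : 0 < √s := Real.sqrt_pos.2 h
    have hq : 0 < q4 s := Real.sqrt_pos.2 hs
    have hs1 : 1 ≤ (√s)⁻¹ := (one_le_inv₀ hs).2 (by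
      have := Real.sqrt_le_sqrt h1
      rwa [Real.sqrt_one] at this)
    have hq1 : 1 ≤ (q4 s)⁻¹ := (one_le_inv₀ hq).2 (apc_q4_le h1)
    constructor
    · exact le_mul_of_one_le_right (by positivity) hq1
    · exact le_mul_of_one_le_left (by positivity) hs1

private theorem apc_alg {P p q β a y k t m k1 S : ℝ} (hP : 0 ≤ P) (hp0 : 0 ≤ p) (hq0 : 0 ≤ q)
    (hp : p ≤ P) (hq : q ≤ P) (hβ : 0 ≤ β)
    (ha : a ≤ 1) (hy0 : 0 ≤ y) (hy : y ≤ 1) (hk : k ≤ S) (ht0 : 0 ≤ t) (ht : t ≤ S)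
    (hmk : m * k ≤ S) (hk1 : k1 ≤ S) (hS : 0 ≤ S) :
    P * (β + a + y ^ 2 + k) + p * (β + t) * y + q * (m * k + k1) ≤
      2 * (P * β) + (2 + 4 * S) * P := by
  have h1 : y ^ 2 ≤ 1 := by nlinarith
  have h2 : P * (β + a + y ^ 2 + k) ≤ P * (β + 1 + 1 + S) :=
    mul_le_mul_of_nonneg_left (by linarith) hP
  have h3 : p * (β + t) * y ≤ P * (β + S) := by
    have h4 : p * (β + t) * y ≤ p * (β + t) * 1 :=
      mul_le_mul_of_nonneg_left hy (by positivity)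
    have h5 : p * (β + t) ≤ P * (β + S) :=
      mul_le_mul hp (by linarith) (by linarith) hP
    linarith
  have h6 : q * (m * k + k1) ≤ P * (S + S) := by
    have h7 : q * (m * k + k1) ≤ q * (S + S) := mul_le_mul_of_nonneg_left (by linarith) hq0
    have h8 : q * (S + S) ≤ P * (S + S) := mul_le_mul_of_nonneg_right hq (by linarith)
    linarith
  nlinarith

theorem yy_bound {ω : ℝ} (hω : 0 < ω) {C0 : ℝ} (hC0 : 0 ≤ C0) : ∃ C, 1 ≤ C ∧ ∀ {N : ℕ}, 1 ≤ N →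
    A0 (ω * N) ≤ 1 → (ω * N) * Real.exp (-√(ω * N) / 2) ≤ 1 →
    ∀ {A A1 : ℝ → ℝ} {b : ℝ} {x : ℝ → L1 (Xn H)}, 0 ≤ b → b ≤ 1 →
    CS ω N A A1 0 b x → (∀ t ∈ Icc 0 b, A t ∈ Icc 0 (A0 (ω * N))) →
    (∀ t ∈ Icc 0 b, yy (x t) ≤ 1 ∧ th2 (x t) ≤ C0 ∧ K0 (ω * N) (A t) (x t) ≤ C0 * Real.exp (-√(ω * N)) ∧
      K1 (ω * N) (A t) (x t) ≤ C0 * Real.exp (-√(ω * N))) →
    ∫ s in (0:ℝ)..b, bt ω (x s) ^ 8 ≤ C0 →
    ∀ t ∈ Icc 0 b, yy (x t) ≤ yy (x 0) + C * b ^ (1 / 8 : ℝ) := by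
  obtain ⟨Cv, hCv, hvol⟩ := volterra (H := H) hω
  set S : ℝ := √C0 with hSdef
  have hS : 0 ≤ S := Real.sqrt_nonneg _
  set K : ℝ := 16 * C0 ^ (1 / 8 : ℝ) + 4 * (2 + 4 * S) with hK
  have hC8 : 0 ≤ C0 ^ (1 / 8 : ℝ) := Real.rpow_nonneg hC0 _
  have hK0 : 0 ≤ K := by positivity
  refine ⟨1 + Cv * K, by nlinarith [mul_nonneg hCv hK0], ?_⟩
  intro N hN hA0 hm A A1 b x hb0 hb1 hcs hA hbd hbe t ht
  have hv := hvol hN hb0 (by linarith) hcs (fun r hr => (hA r hr).1) t ht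
  have hsub : Icc 0 t ⊆ Icc 0 b := Icc_subset_Icc le_rfl ht.2
  have ht1 : t ≤ 1 := ht.2.trans hb1
  -- the function bt
  have cβ : ContinuousOn (fun r => bt ω (x r)) (Icc 0 t) :=
    (bt_cont ω).comp_continuousOn (hcs.c.mono hsub)
  have hβ0 : ∀ r, 0 ≤ bt ω (x r) := fun r => tsum_nonneg fun _ => norm_nonneg _
  have h8 := int_q34_l8 ht.1 cβ (fun r _ => hβ0 r)
  have h34 := int_q34 ht.1
  -- exponentials
  have hmN : 0 ≤ ω * N := by positivity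
  have hex : √(Real.exp (-√(ω * N))) = Real.exp (-√(ω * N) / 2) := by
    rw [Real.exp_half]
  have hex1 : Real.exp (-√(ω * N) / 2) ≤ 1 := by
    rw [Real.exp_le_one_iff]
    have := Real.sqrt_nonneg (ω * N)
    linarith
  have hex0 : 0 < Real.exp (-√(ω * N) / 2) := Real.exp_pos _
  have hsqK : ∀ {k : ℝ}, k ≤ C0 * Real.exp (-√(ω * N)) →
      √k ≤ S * Real.exp (-√(ω * N) / 2) := by
    intro k hk
    refine (Real.sqrt_le_sqrt hk).trans ?_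
    rw [Real.sqrt_mul hC0, hex]
  have hpt : ∀ r ∈ Icc 0 t, vT ω N (A r) (t - r) (x r) ≤
      2 * ((√(t - r))⁻¹ * (q4 (t - r))⁻¹ * bt ω (x r)) +
        (2 + 4 * S) * ((√(t - r))⁻¹ * (q4 (t - r))⁻¹) := by
    intro r hr
    obtain ⟨b1, b2, b3, b4⟩ := hbd r (hsub hr)
    have hk := apc_ker (s := t - r) (by linarith [hr.2]) (by linarith [hr.1])
    have hy0 : 0 ≤ yy (x r) := tsum_nonneg fun n => n2_nonneg _
    have k3 := hsqK b3
    have k4 := hsqK b4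
    have hSe : S * Real.exp (-√(ω * N) / 2) ≤ S := mul_le_of_le_one_right hS hex1
    have hmk : ω * N * √(K0 (ω * N) (A r) (x r)) ≤ S := by
      calc ω * N * √(K0 (ω * N) (A r) (x r)) ≤ ω * N * (S * Real.exp (-√(ω * N) / 2)) :=
            mul_le_mul_of_nonneg_left k3 hmN
        _ = S * (ω * N * Real.exp (-√(ω * N) / 2)) := by ring
        _ ≤ S * 1 := mul_le_mul_of_nonneg_left hm hS
        _ = S := mul_one _
    have hP : 0 ≤ (√(t - r))⁻¹ * (q4 (t - r))⁻¹ :=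
      mul_nonneg (inv_nonneg.2 (Real.sqrt_nonneg _)) (inv_nonneg.2 (apc_q4_nonneg _))
    unfold vT
    exact apc_alg hP (inv_nonneg.2 (Real.sqrt_nonneg _)) (inv_nonneg.2 (apc_q4_nonneg _))
      hk.1 hk.2 (hβ0 r) ((hA r (hsub hr)).2.trans hA0) hy0 b1 (k3.trans hSe)
      (Real.sqrt_nonneg _) (Real.sqrt_le_sqrt b2) hmk (k4.trans hSe) hS
  have hint : ∫ r in (0:ℝ)..t, vT ω N (A r) (t - r) (x r) ≤ K * b ^ (1 / 8 : ℝ) := by
    have i1 : IntervalIntegrable (fun r =>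
        2 * ((√(t - r))⁻¹ * (q4 (t - r))⁻¹ * bt ω (x r))) volume 0 t := h8.1.const_mul 2
    have i2 : IntervalIntegrable (fun r =>
        (2 + 4 * S) * ((√(t - r))⁻¹ * (q4 (t - r))⁻¹)) volume 0 t := h34.1.const_mul _
    have h1 := intervalIntegral.integral_mono_on ht.1 hv.1 (i1.add i2) hpt
    rw [intervalIntegral.integral_add i1 i2, intervalIntegral.integral_const_mul,
      intervalIntegral.integral_const_mul, h34.2] at h1
    refine h1.trans ?_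
    have hbt : t ^ (1 / 8 : ℝ) ≤ b ^ (1 / 8 : ℝ) :=
      Real.rpow_le_rpow ht.1 ht.2 (by norm_num)
    have ht8 : 0 ≤ t ^ (1 / 8 : ℝ) := Real.rpow_nonneg ht.1 _
    have hq : q4 t ≤ t ^ (1 / 8 : ℝ) := by
      rw [apc_q4_eq ht.1]
      exact Real.rpow_le_rpow_of_exponent_ge' ht.1 ht1 (by norm_num) (by norm_num)
    have hI : ∫ r in (0:ℝ)..t, bt ω (x r) ^ 8 ≤ C0 := by
      refine le_trans ?_ hbe
      refine intervalIntegral.integral_mono_interval le_rfl ht.1 ht.2 ?_ ?_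
      · exact Filter.Eventually.of_forall fun r => pow_nonneg (hβ0 r) 8
      · have c8 : ContinuousOn (fun r => bt ω (x r) ^ 8) (uIcc 0 b) := by
          rw [uIcc_of_le hb0]
          exact ((bt_cont ω).comp_continuousOn hcs.c).pow 8
        exact c8.intervalIntegrable
    have hI0 : 0 ≤ ∫ r in (0:ℝ)..t, bt ω (x r) ^ 8 :=
      intervalIntegral.integral_nonneg ht.1 fun r _ => pow_nonneg (hβ0 r) 8
    have hI8 : (∫ r in (0:ℝ)..t, bt ω (x r) ^ 8) ^ (1 / 8 : ℝ) ≤ C0 ^ (1 / 8 : ℝ) :=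
      Real.rpow_le_rpow hI0 hI (by norm_num)
    have h2 : 2 * ∫ r in (0:ℝ)..t, (√(t - r))⁻¹ * (q4 (t - r))⁻¹ * bt ω (x r) ≤
        16 * C0 ^ (1 / 8 : ℝ) * b ^ (1 / 8 : ℝ) := by
      have h3 : 8 * t ^ (1 / 8 : ℝ) * (∫ r in (0:ℝ)..t, bt ω (x r) ^ 8) ^ (1 / 8 : ℝ) ≤
          8 * b ^ (1 / 8 : ℝ) * C0 ^ (1 / 8 : ℝ) :=
        mul_le_mul (by linarith) hI8 (Real.rpow_nonneg hI0 _) (by linarith)
      have h4 := h8.2.trans h3
      linarith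
    have h5 : (2 + 4 * S) * (4 * q4 t) ≤ 4 * (2 + 4 * S) * b ^ (1 / 8 : ℝ) := by
      have h6 : q4 t ≤ b ^ (1 / 8 : ℝ) := hq.trans hbt
      have h7 : 0 ≤ 4 * (2 + 4 * S) := by positivity
      have h9 := mul_le_mul_of_nonneg_left h6 h7
      linarith
    have h9 : K * b ^ (1 / 8 : ℝ) = 16 * C0 ^ (1 / 8 : ℝ) * b ^ (1 / 8 : ℝ) +
        4 * (2 + 4 * S) * b ^ (1 / 8 : ℝ) := by rw [hK]; ring
    rw [h9]
    exact add_le_add h2 h5
  have hb8 : 0 ≤ b ^ (1 / 8 : ℝ) := Real.rpow_nonneg hb0 _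
  calc yy (x t) ≤ yy (x 0) + Cv * ∫ r in (0:ℝ)..t, vT ω N (A r) (t - r) (x r) := hv.2
    _ ≤ yy (x 0) + Cv * (K * b ^ (1 / 8 : ℝ)) := by
        have := mul_le_mul_of_nonneg_left hint hCv
        linarith
    _ ≤ yy (x 0) + (1 + Cv * K) * b ^ (1 / 8 : ℝ) := by nlinarith

end

end Pool.Agent.Lib.MP_79abb3_an.FW
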