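import Pool.Agent.Lib.MP_79abb3_an.FW.Def
import Pool.Agent.Lib.MP_79abb3_an.P25.IGlue

/-!
FW-10a: operations on solutions of the heat equation in integrated form.
-/

set_option autoImplicit false
set_option linter.unusedSectionVars false

open MeasureTheory Set Filter Topology Function

namespace Pool.Agent.Lib.MP_79abb3_an.FW

open Pool.Agent.Lib.MP_79abb3_an.P25

section
variable {H : ℝ} [hH : Fact (0 < H)]

private theorem he_prim_csmul (c : ℂ) (f : CI H) (y : ℝ) : prim (c • f) y = c * prim f y := by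
  unfold prim
  rw [← intervalIntegral.integral_const_mul]
  rfl

private theorem he_rh_add (k : ℝ) (f f1 G f' f1' G' : CI H) (y : ℝ) :
    rh k (f + f') (f1 + f1') (G + G') y = rh k f f1 G y + rh k f' f1' G' y := by
  unfold rh
  rw [prim_add, prim_add, ex_add, ex_add]
  ring

private theorem he_rh_smul (k : ℝ) (c : ℂ) (f f1 G : CI H) (y : ℝ) :
    rh k (c • f) (c • f1) (c • G) y = c * rh k f f1 G y := by
  unfold rh
  rw [he_prim_csmul, he_prim_csmul, ex_smul, ex_smul]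
  ring

private theorem he_sub {a b t1 t2 : ℝ} (h1 : t1 ∈ Icc a b) (h2 : t2 ∈ Icc t1 b) :
    uIcc t1 t2 ⊆ Icc a b := by
  rw [uIcc_of_le h2.1]
  exact Icc_subset_Icc h1.1 h2.2

private theorem HE.int {k a b : ℝ} {f f1 G : ℝ → CI H} (h : HE k a b f f1 G) (y : ℝ) {t1 t2 : ℝ}
    (h1 : t1 ∈ Icc a b) (h2 : t2 ∈ Icc t1 b) :
    IntervalIntegrable (fun s => rh k (f s) (f1 s) (G s) y) volume t1 t2 :=
  ((continuousOn_rh h.cf h.cf1 h.cG).mono (he_sub h1 h2)).intervalIntegrable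

theorem HE.mono {k a b a' b' : ℝ} {f f1 G : ℝ → CI H} (h : HE k a b f f1 G) (ha : a ≤ a') (hb : b' ≤ b) :
    HE k a' b' f f1 G where
  cf := h.cf.mono (Icc_subset_Icc ha hb)
  cf1 := h.cf1.mono (Icc_subset_Icc ha hb)
  cG := h.cG.mono (Icc_subset_Icc ha hb)
  d := fun t ht => h.d t (Icc_subset_Icc ha hb ht)
  eq := fun y hy t1 h1 t2 h2 =>
    h.eq y hy t1 (Icc_subset_Icc ha hb h1) t2 ⟨h2.1, h2.2.trans hb⟩

theorem HE.congr {k a b : ℝ} {f f1 G f' f1' G' : ℝ → CI H} (h : HE k a b f f1 G)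
    (e : ∀ t ∈ Icc a b, f' t = f t) (e1 : ∀ t ∈ Icc a b, f1' t = f1 t) (e2 : ∀ t ∈ Icc a b, G' t = G t) :
    HE k a b f' f1' G' where
  cf := h.cf.congr e
  cf1 := h.cf1.congr e1
  cG := h.cG.congr e2
  d := fun t ht => by
    rw [e t ht, e1 t ht]
    exact h.d t ht
  eq := fun y hy t1 h1 t2 h2 => by
    rw [e t1 h1, e t2 (he_sub h1 h2 right_mem_uIcc), h.eq y hy t1 h1 t2 h2]
    refine intervalIntegral.integral_congr fun s hs => ?_
    have hs' := he_sub h1 h2 hs
    show rh k (f s) (f1 s) (G s) y = rh k (f' s) (f1' s) (G' s) y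
    rw [e s hs', e1 s hs', e2 s hs']

theorem HE.add {k a b : ℝ} {f f1 G f' f1' G' : ℝ → CI H} (h : HE k a b f f1 G) (h' : HE k a b f' f1' G') :
    HE k a b (fun t => f t + f' t) (fun t => f1 t + f1' t) (fun t => G t + G' t) where
  cf := h.cf.add h'.cf
  cf1 := h.cf1.add h'.cf1
  cG := h.cG.add h'.cG
  d := fun t ht => (h.d t ht).add' (h'.d t ht)
  eq := fun y hy t1 h1 t2 h2 => by
    simp only [he_rh_add]
    rw [intervalIntegral.integral_add (h.int y h1 h2) (h'.int y h1 h2), ← h.eq y hy t1 h1 t2 h2,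
      ← h'.eq y hy t1 h1 t2 h2, prim_add, prim_add]
    ring

theorem HE.smul {k a b : ℝ} {f f1 G : ℝ → CI H} (h : HE k a b f f1 G) (c : ℂ) :
    HE k a b (fun t => c • f t) (fun t => c • f1 t) (fun t => c • G t) where
  cf := h.cf.const_smul c
  cf1 := h.cf1.const_smul c
  cG := h.cG.const_smul c
  d := fun t ht z hz => (h.d t ht z hz).const_mul c
  eq := fun y hy t1 h1 t2 h2 => by
    simp only [he_rh_smul]
    rw [intervalIntegral.integral_const_mul, ← h.eq y hy t1 h1 t2 h2, he_prim_csmul,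
      he_prim_csmul]
    ring

theorem HE.shift {k a b : ℝ} {f f1 G : ℝ → CI H} (h : HE k a b f f1 G) (d : ℝ) :
    HE k (a + d) (b + d) (fun t => f (t - d)) (fun t => f1 (t - d)) (fun t => G (t - d)) := by
  have hm : MapsTo (fun t : ℝ => t - d) (Icc (a + d) (b + d)) (Icc a b) := by
    intro t ht
    exact ⟨by linarith [ht.1], by linarith [ht.2]⟩
  have hc : ContinuousOn (fun t : ℝ => t - d) (Icc (a + d) (b + d)) :=
    (continuous_sub_right d).continuousOn
  refine ⟨h.cf.comp hc hm, h.cf1.comp hc hm, h.cG.comp hc hm, fun t ht => h.d _ (hm ht),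
    fun y hy t1 h1 t2 h2 => ?_⟩
  have h2' : t2 - d ∈ Icc (t1 - d) b := ⟨by linarith [h2.1], by linarith [h2.2]⟩
  rw [h.eq y hy (t1 - d) (hm h1) (t2 - d) h2',
    intervalIntegral.integral_comp_sub_right (fun s => rh k (f s) (f1 s) (G s) y) d]

/-- Gluing (the sources agree at `b`). -/
theorem HE.glue {k a b c : ℝ} (hab : a ≤ b) (hbc : b ≤ c) {f f1 G : ℝ → CI H} (h : HE k a b f f1 G)
    (h' : HE k b c f f1 G) : HE k a c f f1 G := by
  have hu : Icc a b ∪ Icc b c = Icc a c := Icc_union_Icc_eq_Icc hab hbc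
  have hcont : ∀ {F : ℝ → CI H}, ContinuousOn F (Icc a b) → ContinuousOn F (Icc b c) →
      ContinuousOn F (Icc a c) := by
    intro F h1 h2
    rw [← hu]
    exact h1.union_of_isClosed h2 isClosed_Icc isClosed_Icc
  refine ⟨hcont h.cf h'.cf, hcont h.cf1 h'.cf1, hcont h.cG h'.cG, fun t ht => ?_,
    fun y hy => ?_⟩
  · rw [← hu] at ht
    rcases ht with ht | ht
    · exact h.d t ht
    · exact h'.d t ht
  · exact glue_prim (Φ := fun t => prim (f t) y) hab hbc (h.eq y hy) (h'.eq y hy)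
      (h.int y (left_mem_Icc.2 hab) (right_mem_Icc.2 hab))
      (h'.int y (left_mem_Icc.2 hbc) (right_mem_Icc.2 hbc))

end

end Pool.Agent.Lib.MP_79abb3_an.FW
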