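import Pool.Agent.Lib.MP_79abb3_an.FW.OpNc
import Pool.Agent.Lib.MP_79abb3_an.FW.SumsB

/-!
FW-15c: bounds by two zones.
-/

set_option autoImplicit false
set_option linter.unusedSectionVars false

open MeasureTheory Set Filter Topology Function

namespace Pool.Agent.Lib.MP_79abb3_an.FW

open Pool.Agent.Lib.MP_79abb3_an.P25

section
variable {H : ℝ} [hH : Fact (0 < H)]

private theorem sc_mode {z1 M p q : ℝ} (hp : 0 ≤ p) (hq : 0 ≤ q) {F : ℝ → ℝ}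
    (cF : Continuous F) (hF0 : ∀ z, 0 ≤ F z) (h1 : ∀ z ∈ Icc 0 (3 * z1), F z ≤ p)
    (h2 : ∀ z, 3 * z1 ≤ z → F z ≤ q * tht z1 M z) (V : CI H) :
    n2 (rc F cF * V) ^ 2 ≤
      p ^ 2 * n2 V ^ 2 + q ^ 2 * ∫ z in (0:ℝ)..H, tht z1 M z ^ 2 * ‖ex V z‖ ^ 2 := by
  have hH0 : (0:ℝ) ≤ H := hH.out.le
  have hcV := (continuous_ex V).norm
  have hcT := tht_cont z1 M
  have hcP := (continuous_ex (rc F cF * V)).norm
  rw [n2_sq, n2_sq, ← intervalIntegral.integral_const_mul, ← intervalIntegral.integral_const_mul,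
    ← intervalIntegral.integral_add]
  · refine intervalIntegral.integral_mono_on hH0 ?_ ?_ fun z hz => ?_
    · exact (hcP.pow 2).intervalIntegrable _ _
    · exact Continuous.intervalIntegrable (by fun_prop) _ _
    · rw [ex_mul, ex_rc F cF hz, norm_mul, mul_pow, Complex.norm_real, Real.norm_eq_abs, sq_abs]
      have hV : 0 ≤ ‖ex V z‖ ^ 2 := sq_nonneg _
      have hT : 0 ≤ tht z1 M z := tht_nonneg z1 M z
      rcases le_total z (3 * z1) with hz3 | hz3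
      · have h3 : F z ^ 2 ≤ p ^ 2 := pow_le_pow_left₀ (hF0 z) (h1 z ⟨hz.1, hz3⟩) 2
        have h4 := mul_le_mul_of_nonneg_right h3 hV
        have h5 : 0 ≤ q ^ 2 * (tht z1 M z ^ 2 * ‖ex V z‖ ^ 2) := by positivity
        linarith
      · have h3 : F z ^ 2 ≤ (q * tht z1 M z) ^ 2 := pow_le_pow_left₀ (hF0 z) (h2 z hz3) 2
        have h4 := mul_le_mul_of_nonneg_right h3 hV
        have h5 : 0 ≤ p ^ 2 * ‖ex V z‖ ^ 2 := by positivity
        have h6 : (q * tht z1 M z) ^ 2 * ‖ex V z‖ ^ 2 =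
            q ^ 2 * (tht z1 M z ^ 2 * ‖ex V z‖ ^ 2) := by ring
        linarith
  · exact Continuous.intervalIntegrable (by fun_prop) _ _
  · exact Continuous.intervalIntegrable (by fun_prop) _ _

/-- Bounds by two zones. -/
theorem two_zone {z1 M p q : ℝ} (hz1 : 0 < z1) (hp : 0 ≤ p) (hq : 0 ≤ q) {F : ℝ → ℝ} (cF : Continuous F)
    (hF0 : ∀ z, 0 ≤ F z) (h1 : ∀ z ∈ Icc 0 (3 * z1), F z ≤ p) (h2 : ∀ z, 3 * z1 ≤ z → F z ≤ q * tht z1 M z)
    (x : L1 (Xn H)) : (Summable fun n => n2 (rc F cF * (x n).2.1) ^ 2) ∧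
      ∑' n, n2 (rc F cF * (x n).2.1) ^ 2 ≤ p ^ 2 * yy x ^ 2 + q ^ 2 * Ew z1 M x := by
  obtain ⟨s1, -, -, -, s5, -⟩ := fun_summable x 0 0 z1 M 0
  have hmode := fun n => sc_mode (z1 := z1) (M := M) hp hq cF hF0 h1 h2 (x n).2.1
  have hle : ∀ n, n2 (x n).2.1 ≤ yy x := fun n =>
    s1.le_tsum n (fun m _ => n2_nonneg _)
  have hy : 0 ≤ yy x := (n2_nonneg _).trans (hle 0)
  have hsq : ∀ n, n2 (x n).2.1 ^ 2 ≤ yy x * n2 (x n).2.1 := fun n => by
    rw [pow_two]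
    exact mul_le_mul_of_nonneg_right (hle n) (n2_nonneg _)
  have s2 : Summable fun n => n2 (x n).2.1 ^ 2 :=
    Summable.of_nonneg_of_le (fun n => sq_nonneg _) hsq (s1.mul_left _)
  have hsum2 : ∑' n, n2 (x n).2.1 ^ 2 ≤ yy x ^ 2 := by
    calc ∑' n, n2 (x n).2.1 ^ 2 ≤ ∑' n, yy x * n2 (x n).2.1 := s2.tsum_le_tsum hsq (s1.mul_left _)
      _ = yy x * yy x := by rw [tsum_mul_left]; rfl
      _ = yy x ^ 2 := by ring
  have s3 : Summable fun n => p ^ 2 * n2 (x n).2.1 ^ 2 +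
      q ^ 2 * ∫ z in (0:ℝ)..H, tht z1 M z ^ 2 * ‖ex (x n).2.1 z‖ ^ 2 :=
    (s2.mul_left _).add (s5.mul_left _)
  have s4 : Summable fun n => n2 (rc F cF * (x n).2.1) ^ 2 :=
    Summable.of_nonneg_of_le (fun n => sq_nonneg _) hmode s3
  refine ⟨s4, ?_⟩
  refine (s4.tsum_le_tsum hmode s3).trans ?_
  rw [(s2.mul_left _).tsum_add (s5.mul_left _), tsum_mul_left, tsum_mul_left]
  have := mul_le_mul_of_nonneg_left hsum2 (sq_nonneg p)
  unfold Ew
  linarith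

end

end Pool.Agent.Lib.MP_79abb3_an.FW
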