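import Pool.Agent.Lib.MP_79abb3_an.FW.Kap
import Pool.Agent.Lib.MP_79abb3_an.FW.SumsC

/-!
FW-21a: the exponentially small quantities (3.4).
-/

set_option autoImplicit false
set_option linter.unusedSectionVars false

open MeasureTheory Set Filter Topology Function

namespace Pool.Agent.Lib.MP_79abb3_an.FW

open Pool.Agent.Lib.MP_79abb3_an.P25

section
variable {H : ℝ} [hH : Fact (0 < H)]

private theorem cosh_le_exp' {x : ℝ} (hx : 0 ≤ x) : Real.cosh x ≤ Real.exp x := by
  rw [Real.cosh_eq]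
  have : Real.exp (-x) ≤ Real.exp x := Real.exp_le_exp.2 (by linarith)
  linarith

private theorem Ew_nonneg' (z1 M : ℝ) (x : ℤ → Xn H) : 0 ≤ Ew z1 M x := by
  unfold Ew
  refine tsum_nonneg fun n => ?_
  refine intervalIntegral.integral_nonneg hH.out.le fun z _ => ?_
  positivity

private theorem kap_aux {m : ℝ} (hm : 0 < m) {c j : ℝ} (hc : 0 ≤ c) (hj : 0 ≤ j) (hj4 : j ≤ 4)
    {F : ℝ → ℝ} (cF : Continuous F) (hF0 : ∀ z, 0 ≤ F z)
    (hF : ∀ z, 0 ≤ z → F z ≤ c * Real.exp (j * (m * z))) (x : L1 (Xn H)) :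
    ∑' n, n2 (rc F cF * (x n).2.1) ^ 2 ≤
      (c * Real.exp (3 * j * (√m / 16))) ^ 2 * (yy x ^ 2 + Ew (zl m) (4 * m) x) := by
  have hs : 0 < √m := Real.sqrt_pos.2 hm
  have hz : 0 < zl m := by unfold zl; positivity
  have hmz : m * zl m = √m / 16 := by
    unfold zl
    have h1 : √m * √m = m := Real.mul_self_sqrt hm.le
    rw [mul_one_div, div_eq_div_iff (by positivity) (by norm_num)]
    nlinarith
  have hP : 0 ≤ c * Real.exp (3 * j * (√m / 16)) := by positivity
  have h := (two_zone (M := 4 * m) hz hP hP cF hF0 ?_ ?_ x).2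
  · refine h.trans (le_of_eq ?_)
    ring
  · intro z hz'
    refine (hF z hz'.1).trans ?_
    apply mul_le_mul_of_nonneg_left _ hc
    apply Real.exp_le_exp.2
    rw [← hmz]
    have h1 : m * z ≤ m * (3 * zl m) := mul_le_mul_of_nonneg_left hz'.2 hm.le
    have h2 := mul_le_mul_of_nonneg_left h1 hj
    linarith
  · intro z hz'
    have hz0 : 0 ≤ z := by linarith
    refine (hF z hz0).trans ?_
    rw [mul_assoc]
    apply mul_le_mul_of_nonneg_left _ hc
    have h1 := tht_ge (M := 4 * m) hz (show 2 * zl m ≤ z by linarith)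
    have h2 : Real.exp (j * (m * z)) ≤
        Real.exp (3 * j * (√m / 16)) * Real.exp (4 * m * (z - 2 * zl m)) := by
      rw [← Real.exp_add]
      apply Real.exp_le_exp.2
      rw [← hmz]
      have h3 : m * (3 * zl m) ≤ m * z := mul_le_mul_of_nonneg_left hz' hm.le
      have h4 : 0 ≤ (4 - j) * (m * z - m * (3 * zl m)) :=
        mul_nonneg (by linarith) (by linarith)
      have h5 : 0 ≤ m * zl m := by positivity
      nlinarith
    refine h2.trans ?_
    exact mul_le_mul_of_nonneg_left h1 (Real.exp_pos _).le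

private theorem large_m : ∃ m0 : ℝ, 1 ≤ m0 ∧ ∀ m, m0 ≤ m → 1 ≤ √m ∧
    2 ^ 34 * √m ^ 12 ≤ Real.exp (√m / 2) := by
  have h1 := Real.tendsto_pow_mul_exp_neg_atTop_nhds_zero 12
  have h2 : ∀ᶠ x : ℝ in atTop, x ^ 12 * Real.exp (-x) < 1 / 2 ^ 46 :=
    h1.eventually (gt_mem_nhds (by norm_num))
  have h3 : Tendsto (fun m : ℝ => √m / 2) atTop atTop :=
    Real.tendsto_sqrt_atTop.atTop_div_const (by norm_num)
  have h4 := h3.eventually h2
  obtain ⟨M, hM⟩ := eventually_atTop.1 h4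
  refine ⟨max M 1, le_max_right _ _, ?_⟩
  intro m hm
  have h5 := hM m ((le_max_left _ _).trans hm)
  have hm1 : 1 ≤ m := (le_max_right _ _).trans hm
  refine ⟨?_, ?_⟩
  · rw [Real.one_le_sqrt]
    exact hm1
  · rw [Real.exp_neg, ← div_eq_mul_inv, div_lt_iff₀ (Real.exp_pos _)] at h5
    have h6 : (√m / 2) ^ 12 = √m ^ 12 / 2 ^ 12 := by rw [div_pow]
    rw [h6] at h5
    have h7 : √m ^ 12 / 2 ^ 12 * 2 ^ 46 < Real.exp (√m / 2) := by
      rw [one_div, inv_mul_eq_div, lt_div_iff₀ (by positivity)] at h5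
      exact h5
    have h8 : √m ^ 12 / 2 ^ 12 * 2 ^ 46 = 2 ^ 34 * √m ^ 12 := by ring
    linarith

private theorem exp_abs {K x u : ℝ} (hK : K ≤ Real.exp (u / 2)) (h : u / 2 + x ≤ -u) :
    K * Real.exp x ≤ Real.exp (-u) := by
  calc K * Real.exp x ≤ Real.exp (u / 2) * Real.exp x :=
        mul_le_mul_of_nonneg_right hK (Real.exp_pos _).le
    _ = Real.exp (u / 2 + x) := (Real.exp_add _ _).symm
    _ ≤ Real.exp (-u) := Real.exp_le_exp.2 h

theorem kap_small : ∃ m0, 1 ≤ m0 ∧ ∀ m, m0 ≤ m → ∀ a ∈ Icc 0 (A0 m), ∀ x : L1 (Xn H),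
    K0 m a x ≤ Real.exp (-√m) * (yy x ^ 2 + Ew (zl m) (4 * m) x) ∧
    K1 m a x ≤ Real.exp (-√m) * (yy x ^ 2 + Ew (zl m) (4 * m) x) ∧
    K2 m (muu m) a x ≤ Real.exp (-√m) * (yy x ^ 2 + Ew (zl m) (4 * m) x) := by
  obtain ⟨m0, hm0, hlarge⟩ := large_m
  refine ⟨m0, hm0, ?_⟩
  intro m hm a ha x
  obtain ⟨hu1, hbig⟩ := hlarge m hm
  have hmpos : 0 < m := by linarith
  have hu0 : 0 < √m := by linarith
  have hmu : m = √m ^ 2 := (Real.sq_sqrt hmpos.le).symm
  have hY : 0 ≤ yy x ^ 2 + Ew (zl m) (4 * m) x := add_nonneg (sq_nonneg _) (Ew_nonneg' _ _ _)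
  have ha0 : 0 ≤ a := ha.1
  have haA : a ≤ 32 * √m ^ 2 * Real.exp (-√m) := by
    have := ha.2
    unfold A0 at this
    rwa [← hmu]
  have hpw : ∀ k : ℕ, k ≤ 12 → √m ^ k ≤ √m ^ 12 := fun k hk => pow_le_pow_right₀ hu1 hk
  have hmuu0 : 0 ≤ muu m := by unfold muu; positivity
  have hmuu : muu m = 2 * √m ^ 2 * Real.exp (-(2 * √m)) := by
    unfold muu
    rw [← hmu]
  have ha2 : a ^ 2 ≤ 1024 * √m ^ 4 * Real.exp (-(2 * √m)) := by
    calc a ^ 2 ≤ (32 * √m ^ 2 * Real.exp (-√m)) ^ 2 := pow_le_pow_left₀ ha0 haA 2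
      _ = 1024 * √m ^ 4 * (Real.exp (-√m)) ^ 2 := by ring
      _ = 1024 * √m ^ 4 * Real.exp (-(2 * √m)) := by
          rw [← Real.exp_nat_mul]
          congr 2
          push_cast
          ring
  have hcosh : ∀ z, 0 ≤ z → Real.cosh (m * z) ≤ Real.exp (m * z) := fun z hz =>
    cosh_le_exp' (by positivity)
  refine ⟨?_, ?_, ?_⟩
  · have h := kap_aux (j := 1) hmpos ha0 (by norm_num) (by norm_num)
      (F := fun z => a * Real.cosh (m * z)) (by fun_prop)
      (fun z => mul_nonneg ha0 (Real.cosh_pos _).le)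
      (fun z hz => by
        rw [one_mul]
        exact mul_le_mul_of_nonneg_left (hcosh z hz) ha0) x
    refine (show K0 m a x ≤ _ from h).trans ?_
    apply mul_le_mul_of_nonneg_right _ hY
    calc (a * Real.exp (3 * 1 * (√m / 16))) ^ 2 = a ^ 2 * (Real.exp (3 * 1 * (√m / 16))) ^ 2 := by ring
      _ ≤ (1024 * √m ^ 4 * Real.exp (-(2 * √m))) * (Real.exp (3 * 1 * (√m / 16))) ^ 2 :=
          mul_le_mul_of_nonneg_right ha2 (by positivity)
      _ = (1024 * √m ^ 4) * Real.exp (-(2 * √m) + 2 * (3 * 1 * (√m / 16))) := by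
          rw [Real.exp_add, ← Real.exp_nat_mul]
          push_cast
          ring
      _ ≤ Real.exp (-√m) := by
          apply exp_abs _ (by linarith)
          refine le_trans ?_ hbig
          have h1 := hpw 4 (by norm_num)
          have h2 : 0 ≤ √m ^ 12 := by positivity
          nlinarith
  · have h := kap_aux (j := 2) hmpos (c := 64 * a ^ 2) (by positivity) (by norm_num) (by norm_num)
      (F := fun z => 64 * a ^ 2 * Real.cosh (m * z) ^ 2) (by fun_prop)
      (fun z => by positivity)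
      (fun z hz => by
        apply mul_le_mul_of_nonneg_left _ (by positivity)
        have h1 : Real.exp (2 * (m * z)) = Real.exp (m * z) ^ 2 := by
          rw [← Real.exp_nat_mul]; push_cast; ring_nf
        rw [h1]
        exact pow_le_pow_left₀ (Real.cosh_pos _).le (hcosh z hz) 2) x
    refine (show K1 m a x ≤ _ from h).trans ?_
    apply mul_le_mul_of_nonneg_right _ hY
    calc (64 * a ^ 2 * Real.exp (3 * 2 * (√m / 16))) ^ 2
        = 4096 * (a ^ 2) ^ 2 * (Real.exp (3 * 2 * (√m / 16))) ^ 2 := by ring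
      _ ≤ 4096 * (1024 * √m ^ 4 * Real.exp (-(2 * √m))) ^ 2 * (Real.exp (3 * 2 * (√m / 16))) ^ 2 := by
          gcongr
      _ = (2 ^ 32 * √m ^ 8) * (Real.exp (-(2 * √m)) ^ 2 * (Real.exp (3 * 2 * (√m / 16))) ^ 2) := by
          ring
      _ = (2 ^ 32 * √m ^ 8) * Real.exp (2 * (-(2 * √m)) + 2 * (3 * 2 * (√m / 16))) := by
          rw [Real.exp_add, ← Real.exp_nat_mul, ← Real.exp_nat_mul]
          push_cast
          ring
      _ ≤ Real.exp (-√m) := by
          apply exp_abs _ (by linarith)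
          refine le_trans ?_ hbig
          have h1 := hpw 8 (by norm_num)
          have h2 : 0 ≤ √m ^ 12 := by positivity
          nlinarith
  · have h := kap_aux (j := 3) hmpos (c := 64 * a ^ 2 * muu m) (by positivity) (by norm_num)
      (by norm_num)
      (F := fun z => 64 * a ^ 2 * muu m * Real.cosh (m * z) ^ 3) (by fun_prop)
      (fun z => by positivity)
      (fun z hz => by
        apply mul_le_mul_of_nonneg_left _ (by positivity)
        have h1 : Real.exp (3 * (m * z)) = Real.exp (m * z) ^ 3 := by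
          rw [← Real.exp_nat_mul]; push_cast; ring_nf
        rw [h1]
        exact pow_le_pow_left₀ (Real.cosh_pos _).le (hcosh z hz) 3) x
    refine (show K2 m (muu m) a x ≤ _ from h).trans ?_
    apply mul_le_mul_of_nonneg_right _ hY
    calc (64 * a ^ 2 * muu m * Real.exp (3 * 3 * (√m / 16))) ^ 2
        = 4096 * (a ^ 2) ^ 2 * muu m ^ 2 * (Real.exp (3 * 3 * (√m / 16))) ^ 2 := by ring
      _ ≤ 4096 * (1024 * √m ^ 4 * Real.exp (-(2 * √m))) ^ 2 * muu m ^ 2 *
            (Real.exp (3 * 3 * (√m / 16))) ^ 2 := by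
          gcongr
      _ = (2 ^ 34 * √m ^ 12) * (Real.exp (-(2 * √m)) ^ 4 * (Real.exp (3 * 3 * (√m / 16))) ^ 2) := by
          rw [hmuu]
          ring
      _ = (2 ^ 34 * √m ^ 12) * Real.exp (4 * (-(2 * √m)) + 2 * (3 * 3 * (√m / 16))) := by
          rw [Real.exp_add, ← Real.exp_nat_mul, ← Real.exp_nat_mul]
          push_cast
          ring
      _ ≤ Real.exp (-√m) := exp_abs hbig (by linarith)

end

end Pool.Agent.Lib.MP_79abb3_an.FW
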