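import Pool.Agent.Lib.MP_79abb3_an.FW.Kap

/-!
FW-21b: limits of the parameters.
-/

set_option autoImplicit false
set_option linter.unusedSectionVars false

open MeasureTheory Set Filter Topology Function

namespace Pool.Agent.Lib.MP_79abb3_an.FW

open Pool.Agent.Lib.MP_79abb3_an.P25

section
variable {H : ℝ} [hH : Fact (0 < H)]

private theorem kb_small {f : ℝ → ℝ} (hf : Tendsto f atTop (𝓝 0)) (C : ℝ) {ε : ℝ} (hε : 0 < ε) :
    ∀ᶠ m in atTop, C * f m ≤ ε := by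
  have h := hf.const_mul C
  rw [mul_zero] at h
  exact (h.eventually (gt_mem_nhds hε)).mono fun _ hm => le_of_lt hm

/-- Limits of the parameters. -/
theorem par_lim (C : ℝ) {ε : ℝ} (hε : 0 < ε) : ∃ m0, 1 ≤ m0 ∧ ∀ m, m0 ≤ m →
    A0 m ≤ 1 ∧ zl m ≤ 1 ∧ muu m ≤ A0 m / 2 ∧ C * Real.exp (-√m / 2) * (1 + m) ≤ ε ∧
    C * (1 / (8 * m ^ 2)) ^ (1 / 8 : ℝ) ≤ ε ∧ C * zl m ≤ ε ∧ C * √(4 / √m) ≤ ε := by
  have hsq : Tendsto (fun m : ℝ => √m) atTop atTop := Real.tendsto_sqrt_atTop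
  have hsq2 : Tendsto (fun m : ℝ => √m / 2) atTop atTop := hsq.atTop_div_const (by norm_num)
  have t2 := Real.tendsto_pow_mul_exp_neg_atTop_nhds_zero 2
  have t0 := Real.tendsto_pow_mul_exp_neg_atTop_nhds_zero 0
  -- 1
  have e1 : ∀ᶠ m : ℝ in atTop, A0 m ≤ 1 := by
    have h := kb_small (t2.comp hsq) 32 (zero_lt_one' ℝ)
    filter_upwards [h, eventually_ge_atTop 0] with m hm h0
    unfold A0
    have h1 : √m ^ 2 = m := Real.sq_sqrt h0
    simp only [comp_apply, h1] at hm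
    linarith
  -- 4
  have e4 : ∀ᶠ m : ℝ in atTop, C * Real.exp (-√m / 2) * (1 + m) ≤ ε := by
    have ht : Tendsto (fun v : ℝ => v ^ 0 * Real.exp (-v) + 4 * (v ^ 2 * Real.exp (-v))) atTop
        (𝓝 0) := by
      have := t0.add (t2.const_mul 4)
      simpa using this
    have h := kb_small (ht.comp hsq2) C hε
    filter_upwards [h, eventually_ge_atTop 0] with m hm h0
    have h1 : √m ^ 2 = m := Real.sq_sqrt h0
    simp only [comp_apply, pow_zero, one_mul, div_pow, h1] at hm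
    have h2 : -√m / 2 = -(√m / 2) := by ring
    rw [h2]
    calc C * Real.exp (-(√m / 2)) * (1 + m)
        = C * (Real.exp (-(√m / 2)) + 4 * (m / 2 ^ 2 * Real.exp (-(√m / 2)))) := by ring
      _ ≤ ε := hm
  -- 5
  have e5 : ∀ᶠ m : ℝ in atTop, C * (1 / (8 * m ^ 2)) ^ (1 / 8 : ℝ) ≤ ε := by
    have h1 : Tendsto (fun m : ℝ => 8 * m ^ 2) atTop atTop :=
      (tendsto_pow_atTop two_ne_zero).const_mul_atTop (by norm_num)
    have h2 : Tendsto (fun m : ℝ => 1 / (8 * m ^ 2)) atTop (𝓝 0) := h1.const_div_atTop 1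
    have h3 := h2.rpow_const (p := (1 / 8 : ℝ)) (Or.inr (by norm_num))
    rw [Real.zero_rpow (by norm_num)] at h3
    exact kb_small h3 C hε
  -- 6
  have e6 : ∀ᶠ m : ℝ in atTop, C * zl m ≤ ε := by
    have h1 : Tendsto (fun m : ℝ => 16 * √m) atTop atTop := hsq.const_mul_atTop (by norm_num)
    have h2 : Tendsto (fun m : ℝ => 1 / (16 * √m)) atTop (𝓝 0) := h1.const_div_atTop 1
    exact kb_small (f := zl) h2 C hε
  -- 7
  have e7 : ∀ᶠ m : ℝ in atTop, C * √(4 / √m) ≤ ε := by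
    have h1 : Tendsto (fun m : ℝ => 4 / √m) atTop (𝓝 0) := hsq.const_div_atTop 4
    have h2 := (Real.continuous_sqrt.tendsto 0).comp h1
    rw [Real.sqrt_zero] at h2
    exact kb_small h2 C hε
  obtain ⟨M, hM⟩ := eventually_atTop.1 (e1.and (e4.and (e5.and (e6.and e7))))
  refine ⟨max 1 M, le_max_left _ _, fun m hm => ?_⟩
  have hm1 : 1 ≤ m := (le_max_left _ _).trans hm
  obtain ⟨a1, a4, a5, a6, a7⟩ := hM m ((le_max_right _ _).trans hm)
  have hs1 : 1 ≤ √m := Real.one_le_sqrt.2 hm1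
  refine ⟨a1, ?_, ?_, a4, a5, a6, a7⟩
  · unfold zl
    rw [div_le_one (by positivity)]
    linarith
  · unfold muu A0
    have h1 : Real.exp (-(2 * √m)) ≤ Real.exp (-√m) := Real.exp_le_exp.2 (by linarith)
    have h2 := Real.exp_pos (-√m)
    have h3 : m * Real.exp (-(2 * √m)) ≤ m * Real.exp (-√m) :=
      mul_le_mul_of_nonneg_left h1 (by linarith)
    have h4 : 0 ≤ m * Real.exp (-√m) := by positivity
    nlinarith

end

end Pool.Agent.Lib.MP_79abb3_an.FW
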