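import Pool.Agent.Lib.MP_79abb3_an.FW.PhDef
import Pool.Agent.Lib.MP_79abb3_an.P25.Fld

/-!
FW-32a: Parseval.
-/

set_option autoImplicit false
set_option linter.unusedSectionVars false

open MeasureTheory Set Filter Topology Function

namespace Pool.Agent.Lib.MP_79abb3_an.FW

open Pool.Agent.Lib.MP_79abb3_an.P25

section
variable {H : ℝ} [hH : Fact (0 < H)]

private theorem hasSum_int {E : Type} [NormedAddCommGroup E] [NormedSpace ℝ E] {F : ℤ → ℝ → E}
    {f : ℝ → E} {B : ℤ → ℝ} {a b : ℝ} (hab : a ≤ b) (hF : ∀ n, Continuous (F n))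
    (hB : ∀ n, ∀ t ∈ Icc a b, ‖F n t‖ ≤ B n) (sB : Summable B)
    (hf : ∀ t, HasSum (fun n => F n t) (f t)) :
    HasSum (fun n => ∫ t in a..b, F n t) (∫ t in a..b, f t) := by
  refine intervalIntegral.hasSum_integral_of_dominated_convergence (fun n _ => B n) ?_ ?_ ?_ ?_ ?_
  · intro n
    exact (hF n).aestronglyMeasurable
  · intro n
    refine Filter.Eventually.of_forall fun t ht => ?_
    rw [uIoc_of_le hab] at ht
    exact hB n t ⟨ht.1.le, ht.2⟩
  · exact Filter.Eventually.of_forall fun t _ => sB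
  · exact intervalIntegrable_const
  · exact Filter.Eventually.of_forall fun t _ => hf t

private theorem int_conj (f : ℝ → ℂ) (a b : ℝ) :
    ∫ y in a..b, (starRingEnd ℂ) (f y) = (starRingEnd ℂ) (∫ y in a..b, f y) := by
  rw [intervalIntegral, intervalIntegral, map_sub, integral_conj, integral_conj]

private theorem ee_per {ω : ℝ} (hω : ω * H = Real.pi) (n : ℤ) (y : ℝ) :
    ee ω n (y + 2 * H) = ee ω n y := by
  unfold ee
  rw [Complex.exp_eq_exp_iff_exists_int]
  refine ⟨n, ?_⟩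
  have h1 : (ω : ℂ) * (H : ℂ) = (Real.pi : ℂ) := by
    rw [← Complex.ofReal_mul, hω]
  push_cast
  rw [← h1]
  ring

private theorem int_ee {ω : ℝ} (hω : ω * H = Real.pi) (k : ℤ) :
    ∫ y in (-H)..H, ee ω k y = if k = 0 then (2 * H : ℂ) else 0 := by
  have hH0 := hH.out
  by_cases hk : k = 0
  · rw [if_pos hk, hk]
    have h1 : ∀ y : ℝ, ee ω 0 y = 1 := by
      intro y
      unfold ee
      simp
    simp only [h1]
    rw [intervalIntegral.integral_const]
    simp
    ring
  · rw [if_neg hk]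
    have hω0 : ω ≠ 0 := by
      rintro rfl
      rw [zero_mul] at hω
      exact Real.pi_ne_zero hω.symm
    have hc : Complex.I * ((ω * k : ℝ) : ℂ) ≠ 0 := by
      apply mul_ne_zero Complex.I_ne_zero
      rw [Complex.ofReal_ne_zero]
      exact mul_ne_zero hω0 (by exact_mod_cast hk)
    have h1 : ∀ y : ℝ, ee ω k y = Complex.exp ((Complex.I * ((ω * k : ℝ) : ℂ)) * y) := by
      intro y
      unfold ee
      congr 1
      push_cast
      ring
    simp only [h1]
    rw [integral_exp_mul_complex hc]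
    have h2 : Complex.exp (Complex.I * ((ω * k : ℝ) : ℂ) * ((H : ℝ) : ℂ)) =
        Complex.exp (Complex.I * ((ω * k : ℝ) : ℂ) * ((-H : ℝ) : ℂ)) := by
      rw [← h1 H, ← h1 (-H), ← ee_per hω k (-H)]
      congr 1
      ring
    rw [h2, sub_self, zero_div]

private theorem summ_ee {ω : ℝ} {c : ℤ → ℂ} (hc : Summable fun n => ‖c n‖) (y : ℝ) :
    Summable fun n : ℤ => c n * ee ω n y :=
  Summable.of_norm_bounded hc fun n => by rw [norm_mul, ee_norm, mul_one]

private theorem coef {ω : ℝ} (hω : ω * H = Real.pi) {c : ℤ → ℂ} (hc : Summable fun n => ‖c n‖)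
    (n : ℤ) : ∫ y in (-H)..H, (∑' m : ℤ, c m * ee ω m y) * star (ee ω n y) = 2 * H * c n := by
  have hH0 := hH.out
  have h1 : HasSum (fun m : ℤ => ∫ y in (-H)..H, (c m * ee ω m y) * star (ee ω n y))
      (∫ y in (-H)..H, (∑' m : ℤ, c m * ee ω m y) * star (ee ω n y)) := by
    refine hasSum_int (B := fun m => ‖c m‖) (by linarith) ?_ ?_ hc ?_
    · intro m
      exact (continuous_const.mul (fld_ee_continuous ω m)).mul (fld_ee_continuous ω n).star
    · intro m t _
      rw [norm_mul, norm_mul, norm_star, ee_norm, ee_norm, mul_one, mul_one]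
    · intro t
      exact (summ_ee hc t).hasSum.mul_right _
  have h2 : (fun m : ℤ => ∫ y in (-H)..H, (c m * ee ω m y) * star (ee ω n y)) =
      fun m : ℤ => if m = n then 2 * H * c n else 0 := by
    funext m
    have h3 : ∀ y : ℝ, (c m * ee ω m y) * star (ee ω n y) = c m * ee ω (m - n) y := by
      intro y
      rw [← ee_neg, mul_assoc, ← ee_add, sub_eq_add_neg]
    simp only [h3]
    rw [intervalIntegral.integral_const_mul, int_ee hω]
    by_cases hmn : m = n
    · rw [if_pos (by omega), if_pos hmn, hmn]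
      ring
    · rw [if_neg (by omega), if_neg hmn, mul_zero]
  rw [h2] at h1
  exact h1.unique (hasSum_ite_eq n _)

private theorem pars {ω : ℝ} (hω : ω * H = Real.pi) {c : ℤ → ℂ} (hc : Summable fun n => ‖c n‖) :
    ∫ y in (-H)..H, (∑' m : ℤ, c m * ee ω m y) * star (∑' m : ℤ, c m * ee ω m y) =
      2 * H * ∑' n, ((‖c n‖ ^ 2 : ℝ) : ℂ) := by
  have hH0 := hH.out
  have hcS : Continuous (fun y : ℝ => ∑' m : ℤ, c m * ee ω m y) := by
    refine continuous_tsum (fun n => continuous_const.mul (fld_ee_continuous ω n)) hc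
      fun n y => ?_
    rw [norm_mul, ee_norm, mul_one]
  have hbS : ∀ y : ℝ, ‖∑' m : ℤ, c m * ee ω m y‖ ≤ ∑' m, ‖c m‖ := by
    intro y
    refine tsum_of_norm_bounded hc.hasSum fun n => ?_
    rw [norm_mul, ee_norm, mul_one]
  have h1 : HasSum (fun n : ℤ => ∫ y in (-H)..H, (c n * ee ω n y) * star (∑' m : ℤ, c m * ee ω m y))
      (∫ y in (-H)..H, (∑' m : ℤ, c m * ee ω m y) * star (∑' m : ℤ, c m * ee ω m y)) := by
    refine hasSum_int (B := fun n => ‖c n‖ * ∑' m, ‖c m‖) (by linarith) ?_ ?_ (hc.mul_right _) ?_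
    · intro m
      exact (continuous_const.mul (fld_ee_continuous ω m)).mul hcS.star
    · intro m t _
      rw [norm_mul, norm_mul, norm_star, ee_norm, mul_one]
      exact mul_le_mul_of_nonneg_left (hbS t) (norm_nonneg _)
    · intro t
      exact (summ_ee hc t).hasSum.mul_right _
  have h2 : (fun n : ℤ => ∫ y in (-H)..H, (c n * ee ω n y) * star (∑' m : ℤ, c m * ee ω m y)) =
      fun n : ℤ => 2 * H * ((‖c n‖ ^ 2 : ℝ) : ℂ) := by
    funext n
    have h3 : ∀ y : ℝ, (c n * ee ω n y) * star (∑' m : ℤ, c m * ee ω m y) =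
        c n * (starRingEnd ℂ) ((∑' m : ℤ, c m * ee ω m y) * star (ee ω n y)) := by
      intro y
      simp only [map_mul, Complex.star_def, Complex.conj_conj]
      ring
    simp only [h3]
    rw [intervalIntegral.integral_const_mul, int_conj, coef hω hc n]
    simp only [map_mul, Complex.conj_ofReal, map_ofNat]
    have h4 : c n * (starRingEnd ℂ) (c n) = ((‖c n‖ ^ 2 : ℝ) : ℂ) := by
      rw [Complex.mul_conj, Complex.normSq_eq_norm_sq]
    rw [← h4]
    ring
  rw [h2] at h1
  rw [← h1.tsum_eq, tsum_mul_left]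

theorem fld_C0P {ω : ℝ} (hω : ω * H = Real.pi) {a : ℤ → CI H} (ha : Summable fun n => ‖a n‖) :
    C0P H (fld ω a) := by
  refine ⟨?_, ?_⟩
  · have := fld_cont (ω := ω) ha
    exact this.continuousOn
  · intro y z _
    unfold fld
    congr 1
    refine tsum_congr fun n => ?_
    rw [ee_per hω]

/-- Parseval. -/
theorem parseval {ω : ℝ} (hω : ω * H = Real.pi) {a : ℤ → CI H} (ha : Summable fun n => ‖a n‖)
    (hs : Sy a) (z : ℝ) : ∫ y in (-H)..H, fld ω a y z ^ 2 = 2 * H * ∑' n, ‖ex (a n) z‖ ^ 2 := by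
  have hc : Summable fun n => ‖ex (a n) z‖ :=
    Summable.of_nonneg_of_le (fun _ => norm_nonneg _) (fun n => norm_ex_le _ _) ha
  have h1 := pars hω hc
  have h2 : ∀ y : ℝ, (∑' m : ℤ, ex (a m) z * ee ω m y) * star (∑' m : ℤ, ex (a m) z * ee ω m y) =
      ((fld ω a y z ^ 2 : ℝ) : ℂ) := by
    intro y
    rw [fld_real ha hs, Complex.star_def, Complex.conj_ofReal]
    push_cast
    ring
  simp only [h2] at h1
  rw [intervalIntegral.integral_ofReal, ← Complex.ofReal_tsum] at h1
  exact_mod_cast h1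

private theorem summ_sq {a : ℤ → CI H} (ha : Summable fun n => ‖a n‖) :
    Summable fun n => ‖a n‖ ^ 2 := by
  refine Summable.of_nonneg_of_le (fun n => by positivity) (fun n => ?_)
    (ha.mul_left (∑' n, ‖a n‖))
  rw [pow_two]
  exact mul_le_mul_of_nonneg_right (ha.le_tsum n fun _ _ => norm_nonneg _) (norm_nonneg _)

theorem parseval2 {ω : ℝ} (hω : ω * H = Real.pi) {a : ℤ → CI H} (ha : Summable fun n => ‖a n‖)
    (hs : Sy a) {W : ℝ → ℝ} (cW : Continuous W) : IQ H (fun y z => W z * fld ω a y z ^ 2) =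
      2 * H * ∑' n, ∫ z in (0:ℝ)..H, W z * ‖ex (a n) z‖ ^ 2 := by
  have hH0 := hH.out
  unfold IQ
  have h1 : ∀ z : ℝ, ∫ y in (-H)..H, W z * fld ω a y z ^ 2 =
      2 * H * (W z * ∑' n, ‖ex (a n) z‖ ^ 2) := by
    intro z
    rw [intervalIntegral.integral_const_mul, parseval hω ha hs]
    ring
  simp only [h1]
  rw [intervalIntegral.integral_const_mul]
  congr 1
  obtain ⟨K, hK⟩ := isCompact_Icc.exists_bound_of_continuousOn (s := Icc (0:ℝ) H) cW.continuousOn
  have hsz : ∀ z : ℝ, Summable fun n => ‖ex (a n) z‖ ^ 2 := by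
    intro z
    refine Summable.of_nonneg_of_le (fun n => by positivity) (fun n => ?_) (summ_sq ha)
    exact pow_le_pow_left₀ (norm_nonneg _) (norm_ex_le _ _) 2
  have h2 : HasSum (fun n : ℤ => ∫ z in (0:ℝ)..H, W z * ‖ex (a n) z‖ ^ 2)
      (∫ z in (0:ℝ)..H, W z * ∑' n, ‖ex (a n) z‖ ^ 2) := by
    refine hasSum_int (B := fun n => K * ‖a n‖ ^ 2) hH0.le ?_ ?_ ((summ_sq ha).mul_left K) ?_
    · intro n
      exact cW.mul ((continuous_ex (a n)).norm.pow 2)
    · intro n t ht
      rw [norm_mul, Real.norm_eq_abs (‖ex (a n) t‖ ^ 2), abs_of_nonneg (by positivity)]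
      have h3 := hK t ht
      have h4 : ‖ex (a n) t‖ ^ 2 ≤ ‖a n‖ ^ 2 :=
        pow_le_pow_left₀ (norm_nonneg _) (norm_ex_le _ _) 2
      exact mul_le_mul h3 h4 (by positivity) ((norm_nonneg _).trans h3)
    · intro t
      exact (hsz t).hasSum.mul_left _
  exact h2.tsum_eq.symm

theorem parseval3 {ω : ℝ} (hω : ω * H = Real.pi) {a : ℤ → CI H} (ha : Summable fun n => ‖a n‖)
    (hs : Sy a) : IQ H (fun y z => fld ω a y z ^ 2) = 2 * H * ∑' n, n2 (a n) ^ 2 := by
  have h := parseval2 hω ha hs (W := fun _ => 1) continuous_const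
  simp only [one_mul] at h
  rw [h]
  congr 1
  refine tsum_congr fun n => ?_
  rw [n2_sq]

end

end Pool.Agent.Lib.MP_79abb3_an.FW
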