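import Pool.Agent.Lib.MP_79abb3_an.FW.PhA
import Pool.Agent.Lib.MP_79abb3_an.FW.PhBa
import Pool.Agent.Lib.MP_79abb3_an.P25.FieldAt

/-!
FW-33c: the transfer term tested.
-/

set_option autoImplicit false
set_option linter.unusedSectionVars false

open MeasureTheory Set Filter Topology Function

namespace Pool.Agent.Lib.MP_79abb3_an.FW

open Pool.Agent.Lib.MP_79abb3_an.P25

section
variable {H : ℝ} [hH : Fact (0 < H)]

private theorem pcc_kap_isD (m a : ℝ) : IsD (kap m a : CI H) (kap1 m a) := by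
  intro z hz
  have h0 : HasDerivAt (fun z : ℝ => m * z) m z := by
    simpa using (hasDerivAt_id z).const_mul m
  have h1 : HasDerivAt (fun z : ℝ => 64 * a ^ 2 * Real.cosh (m * z) ^ 2)
      (128 * a ^ 2 * m * Real.cosh (m * z) * Real.sinh (m * z)) z := by
    have h2 := (h0.cosh.pow 2).const_mul (64 * a ^ 2)
    refine h2.congr_deriv ?_
    norm_num
    ring
  have h2 := h1.ofReal_comp.hasDerivWithinAt (s := Icc 0 H)
  have h3 : ex (kap1 m a : CI H) z =
      ((128 * a ^ 2 * m * Real.cosh (m * z) * Real.sinh (m * z) : ℝ) : ℂ) := ex_rc _ _ hz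
  rw [h3]
  exact h2.congr (fun y hy => ex_rc _ _ hy) (ex_rc _ _ hz)

private theorem pcc_mul {f f1 g g1 : CI H} (hf : IsD f f1) (hg : IsD g g1) :
    IsD (f * g) (f1 * g + f * g1) := fun z hz => (hf z hz).mul (hg z hz)

/-- The transfer term tested. -/
theorem tr_test {ω : ℝ} (hω : ω * H = Real.pi) {N : ℕ} {a : ℝ} {x : L1 (Xn H)}
    (hx : ∀ n : ℤ, Cm (ω * n) (ex (pu ω N a n : Xn H).2.1 0) (x n)) {F Fy Fz : ℝ → ℝ → ℝ}
    (hF : C1P H F Fy Fz) (h0 : ∀ y, F y 0 = 0) (h1 : ∀ y, F y H = 0) :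
    IQ H (fun y z => fld ω (trf ω N a x) y z * F y z) =
      IQ H (fun y z => fld ω (kV ω N a x) y z * Fz y z) -
        IQ H (fun y z => fld ω (kH ω N a x) y z * Fy y z) := by
  set κ : CI H := kap (ω * N) a with hκ
  set κ1 : CI H := kap1 (ω * N) a with hκ1
  have hV : ∀ n : ℤ, |ω * n| * ‖(x n).2.1‖ ≤ ‖x n‖ := fun n => by
    rw [← norm_abs_smul, ← (hx n).e2]
    exact n222 (x n)
  have sx := l1_summable x
  have bV : ∀ n, ‖kV ω N a x n‖ ≤ ‖κ‖ * ‖x n‖ := fun n =>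
    (norm_mul_le _ _).trans (mul_le_mul_of_nonneg_left (n21 (x n)) (norm_nonneg _))
  have sV : Summable fun n => ‖kV ω N a x n‖ :=
    Summable.of_nonneg_of_le (fun n => norm_nonneg _) bV (sx.mul_left ‖κ‖)
  have bH : ∀ n, ‖kH ω N a x n‖ ≤ ‖kV ω N a x n‖ := fun n => by
    unfold kH
    rw [norm_neg]
    exact norm_is_smul_le _ _
  have sH : Summable fun n => ‖kH ω N a x n‖ :=
    Summable.of_nonneg_of_le (fun n => norm_nonneg _) bH sV
  have bkH : ∀ n : ℤ, |ω * n| * ‖kH ω N a x n‖ ≤ ‖κ‖ * ‖x n‖ := fun n => by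
    have h2 : ‖kH ω N a x n‖ ≤ ‖κ‖ * ‖(x n).2.1‖ := (bH n).trans (norm_mul_le _ _)
    have h3 := mul_le_mul_of_nonneg_left h2 (abs_nonneg (ω * n))
    have h4 := mul_le_mul_of_nonneg_left (hV n) (norm_nonneg κ)
    linarith
  have skH : Summable fun n : ℤ => |ω * n| * ‖kH ω N a x n‖ :=
    Summable.of_nonneg_of_le (fun n => by positivity) bkH (sx.mul_left ‖κ‖)
  have sHy : Summable fun n : ℤ => ‖is (ω * n) • (|ω * n| • kH ω N a x n)‖ := by
    refine Summable.of_nonneg_of_le (fun n => norm_nonneg _) (fun n => ?_) (sx.mul_left ‖κ‖)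
    refine (norm_is_smul_le _ _).trans ?_
    rw [norm_abs_smul]
    exact bkH n
  have sVz : Summable fun n : ℤ => ‖κ1 * (x n).2.1 + κ * (x n).2.2.1‖ := by
    refine Summable.of_nonneg_of_le (fun n => norm_nonneg _) (fun n => ?_)
      (sx.mul_left (‖κ1‖ + ‖κ‖))
    have h2 := mul_le_mul_of_nonneg_left (n21 (x n)) (norm_nonneg κ1)
    have h3 := mul_le_mul_of_nonneg_left (n221 (x n)) (norm_nonneg κ)
    calc _ ≤ ‖κ1 * (x n).2.1‖ + ‖κ * (x n).2.2.1‖ := norm_add_le _ _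
      _ ≤ ‖κ1‖ * ‖(x n).2.1‖ + ‖κ‖ * ‖(x n).2.2.1‖ := add_le_add (norm_mul_le _ _) (norm_mul_le _ _)
      _ ≤ _ := by linarith
  have sVz' : Summable fun n : ℤ => ‖-(κ1 * (x n).2.1 + κ * (x n).2.2.1)‖ := by
    simpa only [norm_neg] using sVz
  -- the fields
  set Ky := fld ω (fun n : ℤ => is (ω * n) • (|ω * n| • kH ω N a x n)) with hKy
  set Kz := fld ω (fun n : ℤ => κ1 * (x n).2.1 + κ * (x n).2.2.1) with hKz
  have dH : ∀ y, ∀ z ∈ Icc 0 H, HasDerivAt (fun y => fld ω (kH ω N a x) y z) (Ky y z) y :=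
    fun y z _ => fld_dy sH skH y z
  have dV : ∀ y, ∀ z ∈ Icc 0 H,
      HasDerivWithinAt (fun z => fld ω (kV ω N a x) y z) (Kz y z) (Icc 0 H) z :=
    fun y z hz => fld_dz sV sVz
      (fun n => pcc_mul (pcc_kap_isD (ω * N) a) (hx n).d2) y hz
  have c1 : C0P H (fld ω (kH ω N a x)) := fld_C0P hω sH
  have c2 : C0P H Ky := fld_C0P hω sHy
  have c3 : C0P H (fld ω (kV ω N a x)) := fld_C0P hω sV
  have c4 : C0P H Kz := fld_C0P hω sVz
  have e1 : ∀ y, ∀ z ∈ Icc 0 H, fld ω (trf ω N a x) y z * F y z =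
      Ky y z * F y z - Kz y z * F y z := by
    intro y z _
    have e2 : trf ω N a x = fun n : ℤ => is (ω * n) • (|ω * n| • kH ω N a x n) +
        -(κ1 * (x n).2.1 + κ * (x n).2.2.1) := by
      funext n
      unfold trf tr kH
      rw [(hx n).e2]
      refine ci_ext fun z _ => ?_
      simp only [ex_add, ex_sub, ex_neg, ex_smul, ex_rsmul, ex_mul]
      have h2 := is_sq_mul (ω * n)
      rw [← hκ, ← hκ1]
      linear_combination (ex κ z * ex (x n).2.1 z) * h2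
    rw [e2, fld_add sHy sVz', fld_neg]
    ring
  rw [IQ_congr e1, IQ_sub (c2.mul hF.c) (c4.mul hF.c)]
  have i1 := IQ_dy (c1.mul hF.c) ((c2.mul hF.c).add (c1.mul hF.cy))
    (fun y z hz => (dH y z hz).mul (hF.dy y z hz))
  rw [IQ_add (c2.mul hF.c) (c1.mul hF.cy)] at i1
  have i2 := IQ_dz (c3.mul hF.c) ((c4.mul hF.c).add (c3.mul hF.cz))
    (fun y z hz => (dV y z hz).mul (hF.dz y z hz))
    (fun y => by rw [h0 y, mul_zero]) (fun y => by rw [h1 y, mul_zero])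
  rw [IQ_add (c4.mul hF.c) (c3.mul hF.cz)] at i2
  linarith

end

end Pool.Agent.Lib.MP_79abb3_an.FW
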