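import Pool.Agent.Lib.MP_79abb3_an.FW.PhDef
import Pool.Agent.Lib.MP_79abb3_an.FW.VelC
import Pool.Agent.Lib.MP_79abb3_an.P25.FieldAt

/-!
FW-33b: the source of the outer vorticity in physical space; reality.
-/

set_option autoImplicit false
set_option linter.unusedSectionVars false

open MeasureTheory Set Filter Topology Function

namespace Pool.Agent.Lib.MP_79abb3_an.FW

open Pool.Agent.Lib.MP_79abb3_an.P25

section
variable {H : ℝ} [hH : Fact (0 < H)]

/-! Reality of the pieces. -/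

private theorem pcb_fv {ω : ℝ} {a : ℤ → Xn H} (h : Sy a) : Sy (fv ω a) := fun n => by
  show vv (ω * ((-n : ℤ) : ℝ)) (jn (a (-n))) = star (vv (ω * n) (jn (a n)))
  rw [h n, om_neg_int, jn_star, vv_star]

private theorem pcb_fw {ω : ℝ} {a : ℤ → Xn H} (h : Sy a) : Sy (fw ω a) := fun n => by
  show om (ω * ((-n : ℤ) : ℝ)) (jn (a (-n))) = star (om (ω * n) (jn (a n)))
  rw [h n, om_neg_int, jn_star, om_star]

private theorem pcb_vx (k : ℝ) (V V1 : CI H) : vx (-k) (star V) (star V1) = star (vx k V V1) := by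
  unfold vx
  refine Prod.ext ?_ ?_
  · refine Prod.ext ?_ (Prod.ext ?_ ?_) <;> exact (star_zero _).symm
  · refine Prod.ext rfl (Prod.ext rfl ?_)
    show |(-k)| • star V = star (|k| • V)
    rw [star_rsmul_CI, abs_neg]

private theorem pcb_ov {ω : ℝ} {x : L1 (Xn H)} (hs : Sy x) : Sy (ov ω x) := fun n => by
  show vx (ω * ((-n : ℤ) : ℝ)) (Top (ω * ((-n : ℤ) : ℝ)) (x (-n)).1.1)
    (|ω * ((-n : ℤ) : ℝ)| • Top (ω * ((-n : ℤ) : ℝ)) (x (-n)).1.1 - (x (-n)).1.1) =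
    star (vx (ω * n) (Top (ω * n) (x n).1.1)
      (|ω * n| • Top (ω * n) (x n).1.1 - (x n).1.1))
  have h1 : (x (-n)).1.1 = star (x n).1.1 := by rw [hs n]; rfl
  rw [h1, om_neg_int, Top_neg, Top_star, abs_neg, ← pcb_vx, star_sub, star_rsmul_CI]

private theorem pcb_iv {x : L1 (Xn H)} (hs : Sy x) : Sy (iv x) := fun n => by
  show (((0, 0, 0), (x (-n)).2) : Xn H) = star (((0, 0, 0), (x n).2) : Xn H)
  have h1 : (x (-n)).2 = star (x n).2 := by rw [hs n]; rfl
  rw [h1]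
  refine Prod.ext ?_ rfl
  refine Prod.ext ?_ (Prod.ext ?_ ?_) <;> exact (star_zero _).symm

private theorem pcb_sN {N : ℕ} (hN : 1 ≤ N) (n : ℤ) : sN N (-n) = -sN N n := by
  unfold sN
  by_cases h1 : n = (N : ℤ)
  · have h2 : ¬ (-n = (N : ℤ)) := by omega
    have h3 : -n = -(N : ℤ) := by omega
    rw [if_neg h2, if_pos h3, if_pos h1]
  · by_cases h2 : n = -(N : ℤ)
    · have h3 : -n = (N : ℤ) := by omega
      rw [if_pos h3, if_neg h1, if_pos h2]
      norm_num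
    · have h3 : ¬ (-n = (N : ℤ)) := by omega
      have h4 : ¬ (-n = -(N : ℤ)) := by omega
      rw [if_neg h3, if_neg h4, if_neg h1, if_neg h2]
      norm_num

private theorem pcb_rc (F : ℝ → ℝ) (hF : Continuous F) : star (rc F hF : CI H) = rc F hF := by
  refine ci_ext fun z hz => ?_
  rw [ex_star, ex_rc _ _ hz, Complex.star_def, Complex.conj_ofReal]

private theorem pcb_I (r : ℝ) (F : ℝ → ℝ) (hF : Continuous F) :
    ((Complex.I * ((-r : ℝ) : ℂ)) • (rc F hF : CI H)) =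
      star ((Complex.I * ((r : ℝ) : ℂ)) • (rc F hF : CI H)) := by
  rw [star_smul, pcb_rc, star_mul', Complex.star_def, Complex.conj_I, Complex.conj_ofReal]
  congr 1
  push_cast
  ring

private theorem pcb_pu {ω : ℝ} {N : ℕ} (hN : 1 ≤ N) (a : ℝ) : Sy (pu ω N a : ℤ → Xn H) :=
    fun n => by
  show vx (ω * ((-n : ℤ) : ℝ)) ((Complex.I * ((a / 2 * sN N (-n) : ℝ) : ℂ)) • fexp (ω * N))
    ((Complex.I * ((a / 2 * sN N (-n) * (ω * N) : ℝ) : ℂ)) • fexp (ω * N)) =
    star (vx (ω * n) ((Complex.I * ((a / 2 * sN N n : ℝ) : ℂ)) • fexp (ω * N))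
      ((Complex.I * ((a / 2 * sN N n * (ω * N) : ℝ) : ℂ)) • fexp (ω * N)))
  rw [pcb_sN hN, om_neg_int, ← pcb_vx]
  have e1 : a / 2 * -sN N n = -(a / 2 * sN N n) := by ring
  have e2 : -(a / 2 * sN N n) * (ω * N) = -(a / 2 * sN N n * (ω * N)) := by ring
  rw [e1, e2]
  unfold fexp
  rw [pcb_I, pcb_I]

private theorem pcb_add {a b : ℤ → Xn H} (ha : Sy a) (hb : Sy b) : Sy (fun n => a n + b n) :=
  fun n => by
  show a (-n) + b (-n) = star (a n + b n)
  rw [ha n, hb n, star_add]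

private theorem pcb_tv {ω : ℝ} {N : ℕ} (hN : 1 ≤ N) (a : ℝ) {x : L1 (Xn H)} (hs : Sy x) :
    Sy (tv ω N a x) :=
  pcb_add (pcb_add (pcb_ov hs) (pcb_iv hs)) (pcb_pu hN a)

private theorem pcb_trf {ω : ℝ} {N : ℕ} (a : ℝ) {x : L1 (Xn H)} (hs : Sy x) :
    Sy (trf ω N a x) := fun n => by
  show kap (ω * N) a * (x (-n)).2.2.2 - kap1 (ω * N) a * (x (-n)).2.1 -
    kap (ω * N) a * (x (-n)).2.2.1 = star (kap (ω * N) a * (x n).2.2.2 -
    kap1 (ω * N) a * (x n).2.1 - kap (ω * N) a * (x n).2.2.1)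
  have h1 : (x (-n)).2.1 = star (x n).2.1 := by rw [hs n]; rfl
  have h2 : (x (-n)).2.2.1 = star (x n).2.2.1 := by rw [hs n]; rfl
  have h3 : (x (-n)).2.2.2 = star (x n).2.2.2 := by rw [hs n]; rfl
  rw [h1, h2, h3, star_sub, star_sub, star_mul', star_mul', star_mul']
  unfold kap kap1
  rw [pcb_rc, pcb_rc]

private theorem pcb_kV {ω : ℝ} {N : ℕ} (a : ℝ) {x : L1 (Xn H)} (hs : Sy x) :
    Sy (kV ω N a x) := fun n => by
  show kap (ω * N) a * (x (-n)).2.1 = star (kap (ω * N) a * (x n).2.1)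
  have h1 : (x (-n)).2.1 = star (x n).2.1 := by rw [hs n]; rfl
  rw [h1, star_mul']
  unfold kap
  rw [pcb_rc]

/-- Reality. (`1 ≤ N` is needed: for `N = 0` the potential flow is not real.) -/
theorem sy_fields {ω : ℝ} {N : ℕ} {a : ℝ} {x : L1 (Xn H)} (hs : Sy x) (hN : 1 ≤ N) :
    Sy (m1 x) ∧ Sy (m1y ω x) ∧ Sy (m1z x) ∧ Sy (fv ω (tv ω N a x)) ∧ Sy (fw ω (tv ω N a x)) ∧
    Sy (fv ω (ov ω x)) ∧ Sy (fw ω (ov ω x)) ∧ Sy (fv ω (iv x)) ∧ Sy (fw ω (iv x)) ∧
    Sy (so ω N a x) ∧ Sy (trf ω N a x) ∧ Sy (kV ω N a x) ∧ Sy (kH ω N a x) := by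
  refine ⟨hs.m1, hs.m1y, hs.m1z, pcb_fv (pcb_tv hN a hs), pcb_fw (pcb_tv hN a hs),
    pcb_fv (pcb_ov hs), pcb_fw (pcb_ov hs), pcb_fv (pcb_iv hs), pcb_fw (pcb_iv hs), ?_,
    pcb_trf a hs, pcb_kV a hs, ?_⟩
  · intro n
    show -N0 ω (tv ω N a x) x (-n) + trf ω N a x (-n) =
      star (-N0 ω (tv ω N a x) x n + trf ω N a x n)
    have h1 : N0 ω (tv ω N a x) x (-n) = star (N0 ω (tv ω N a x) x n) := by
      have h2 := N0_star ω (x := tv ω N a x) (y := x) (x' := tv ω N a x) (y' := x)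
        (fun m => by rw [pcb_tv hN a hs m, star_star]) (fun m => by rw [hs m, star_star]) (-n)
      rw [neg_neg] at h2
      exact h2
    rw [h1, pcb_trf a hs n, star_add, star_neg]
  · intro n
    show -(is (ω * ((-n : ℤ) : ℝ)) • kV ω N a x (-n)) = star (-(is (ω * n) • kV ω N a x n))
    rw [pcb_kV a hs n, om_neg_int, star_neg, star_smul, star_is]

/-- Reality of the fields which do not involve the potential flow. -/
theorem sy_fields0 {ω : ℝ} {N : ℕ} {a : ℝ} {x : L1 (Xn H)} (hs : Sy x) :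
    Sy (m1 x) ∧ Sy (m1y ω x) ∧ Sy (m1z x) ∧ Sy (trf ω N a x) ∧ Sy (kV ω N a x) ∧
      Sy (kH ω N a x) := by
  refine ⟨hs.m1, hs.m1y, hs.m1z, pcb_trf a hs, pcb_kV a hs, ?_⟩
  intro n
  show -(is (ω * ((-n : ℤ) : ℝ)) • kV ω N a x (-n)) = star (-(is (ω * n) • kV ω N a x n))
  rw [pcb_kV a hs n, om_neg_int, star_neg, star_smul, star_is]

/-- The source of the outer vorticity in physical space. -/
theorem fld_so {ω : ℝ} (hω : ω * H = Real.pi) {N : ℕ} (hN : 1 ≤ N) {a : ℝ} {x : L1 (Xn H)}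
    (hx : ∀ n : ℤ, Cm (ω * n) (ex (pu ω N a n : Xn H).2.1 0) (x n)) (hs : Sy x) (y : ℝ) {z : ℝ}
    (hz : z ∈ Icc 0 H) : (Summable fun n => ‖so ω N a x n‖) ∧ (Summable fun n => ‖trf ω N a x n‖) ∧
    fld ω (so ω N a x) y z = -(uV ω (tv ω N a x) y z * oOy ω x y z + uW ω (tv ω N a x) y z * oOz ω x y z) +
      fld ω (trf ω N a x) y z := by
  have _ := hz
  have hH0 := hH.out
  have hω0 : 0 < ω := by
    by_contra h
    push Not at h
    have h2 : ω * H ≤ 0 := mul_nonpos_of_nonpos_of_nonneg h hH0.le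
    rw [hω] at h2
    exact absurd Real.pi_pos (not_lt.2 h2)
  have ht := VF_tv hω0 hN hx
  have sx := l1_summable x
  have hb := fun n => vel_bounds (ω := ω) ht.o n
  have sv : Summable fun n => ‖fv ω (tv ω N a x) n‖ :=
    Summable.of_nonneg_of_le (fun n => norm_nonneg _)
      (fun n => (hb n).2.2.2.1.trans (mul_le_mul_of_nonneg_left (n21 _) zero_le_two))
      (ht.s.mul_left 2)
  have sw : Summable fun n => ‖fw ω (tv ω N a x) n‖ :=
    Summable.of_nonneg_of_le (fun n => norm_nonneg _) (fun n => (hb n).1.trans (n21 _)) ht.s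
  have s2 : Summable fun n => ‖m1y ω x n‖ :=
    Summable.of_nonneg_of_le (fun n => norm_nonneg _)
      (fun n => (norm_is_smul_le _ _).trans (n122 (x n))) sx
  have s3 : Summable fun n => ‖m1z x n‖ :=
    Summable.of_nonneg_of_le (fun n => norm_nonneg _) (fun n => n121 (x n)) sx
  have sc1 := conv_summable sv s2
  have sc2 := conv_summable sw s3
  have st : Summable fun n => ‖trf ω N a x n‖ := by
    refine Summable.of_nonneg_of_le (fun n => norm_nonneg _) (fun n => ?_)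
      (sx.mul_left (‖(kap (ω * N) a : CI H)‖ + ‖(kap1 (ω * N) a : CI H)‖ + ‖(kap (ω * N) a : CI H)‖))
    have h1 := mul_le_mul_of_nonneg_left (n222 (x n)) (norm_nonneg (kap (ω * N) a : CI H))
    have h2 := mul_le_mul_of_nonneg_left (n21 (x n)) (norm_nonneg (kap1 (ω * N) a : CI H))
    have h3 := mul_le_mul_of_nonneg_left (n221 (x n)) (norm_nonneg (kap (ω * N) a : CI H))
    have h4 : ‖trf ω N a x n‖ ≤ ‖kap (ω * N) a * (x n).2.2.2‖ + ‖kap1 (ω * N) a * (x n).2.1‖ +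
        ‖kap (ω * N) a * (x n).2.2.1‖ :=
      (norm_sub_le _ _).trans (add_le_add (norm_sub_le _ _) le_rfl)
    have h5 := norm_mul_le (kap (ω * N) a : CI H) (x n).2.2.2
    have h6 := norm_mul_le (kap1 (ω * N) a : CI H) (x n).2.1
    have h7 := norm_mul_le (kap (ω * N) a : CI H) (x n).2.2.1
    linarith
  have e : so ω N a x = fun n => -(conv (fv ω (tv ω N a x)) (m1y ω x) n +
      conv (fw ω (tv ω N a x)) (m1z x) n) + trf ω N a x n := by
    funext n
    have h0 : conv (fun m => (tv ω N a x m).1.1) (fun m => (x m).1.1) n = 0 := by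
      unfold conv
      have : ∀ m, (tv ω N a x m).1.1 * (x (n - m)).1.1 = 0 := fun m => by
        rw [ht.o m]
        exact zero_mul _
      simp only [this, tsum_zero]
    show -N0 ω (tv ω N a x) x n + trf ω N a x n = _
    have h1 : N0 ω (tv ω N a x) x n = conv (fv ω (tv ω N a x)) (m1y ω x) n +
        conv (fw ω (tv ω N a x)) (m1z x) n +
        conv (fun m => (tv ω N a x m).1.1) (fun m => (x m).1.1) n := rfl
    rw [h1, h0, add_zero]
  have s12 : Summable fun n => ‖conv (fv ω (tv ω N a x)) (m1y ω x) n +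
      conv (fw ω (tv ω N a x)) (m1z x) n‖ :=
    Summable.of_nonneg_of_le (fun n => norm_nonneg _) (fun n => norm_add_le _ _) (sc1.add sc2)
  have s12' : Summable fun n => ‖-(conv (fv ω (tv ω N a x)) (m1y ω x) n +
      conv (fw ω (tv ω N a x)) (m1z x) n)‖ := by simpa only [norm_neg] using s12
  have sf := sy_fields (ω := ω) (N := N) (a := a) hs hN
  refine ⟨?_, st, ?_⟩
  · rw [e]
    exact Summable.of_nonneg_of_le (fun n => norm_nonneg _) (fun n => norm_add_le _ _)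
      (s12'.add st)
  · rw [e, fld_add s12' st, fld_neg, fld_add sc1 sc2,
      fld_conv sv s2 sf.2.2.2.1 sf.2.1, fld_conv sw s3 sf.2.2.2.2.1 sf.2.2.1]
    rfl

end

end Pool.Agent.Lib.MP_79abb3_an.FW
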