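import Pool.Agent.Lib.MP_79abb3_an.FW.PhDef

/-!
FW-31: calculus in the period cell.
-/

set_option autoImplicit false
set_option linter.unusedSectionVars false

open MeasureTheory Set Filter Topology Function

namespace Pool.Agent.Lib.MP_79abb3_an.FW

open Pool.Agent.Lib.MP_79abb3_an.P25

section
variable {H : ℝ} [hH : Fact (0 < H)]

/-- extension of a function on the strip to the plane -/
private def pe (H : ℝ) (F : ℝ → ℝ → ℝ) : ℝ → ℝ → ℝ := fun y z => F y (max 0 (min z H))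

private theorem pe_eq {F : ℝ → ℝ → ℝ} {z : ℝ} (hz : z ∈ Icc 0 H) (y : ℝ) : pe H F y z = F y z := by
  unfold pe
  rw [min_eq_left hz.2, max_eq_right hz.1]

private theorem pe_cont {F : ℝ → ℝ → ℝ} (hF : C0P H F) : Continuous (uncurry (pe H F)) := by
  have hH0 := hH.out
  have h1 : Continuous fun p : ℝ × ℝ => (p.1, max 0 (min p.2 H)) := by fun_prop
  have h2 := hF.c.comp_continuous h1 fun p =>
    ⟨mem_univ _, le_max_left _ _, max_le hH0.le (min_le_right _ _)⟩
  exact h2

private theorem pe_y {F : ℝ → ℝ → ℝ} (hF : C0P H F) (z : ℝ) : Continuous fun y => pe H F y z :=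
  (pe_cont hF).comp (continuous_id.prodMk continuous_const)

private theorem pe_z {F : ℝ → ℝ → ℝ} (hF : C0P H F) (y : ℝ) : Continuous fun z => pe H F y z :=
  (pe_cont hF).comp (continuous_const.prodMk continuous_id)

private theorem pe_int {F : ℝ → ℝ → ℝ} (hF : C0P H F) :
    Continuous fun z => ∫ y in (-H)..H, pe H F y z := by
  have h : Continuous (uncurry fun z y => pe H F y z) := (pe_cont hF).comp continuous_swap
  exact intervalIntegral.continuous_parametric_intervalIntegral_of_continuous' h (-H) H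

theorem IQ_congr {F G : ℝ → ℝ → ℝ} (h : ∀ y, ∀ z ∈ Icc 0 H, F y z = G y z) : IQ H F = IQ H G := by
  have hH0 := hH.out
  unfold IQ
  refine intervalIntegral.integral_congr fun z hz => ?_
  rw [uIcc_of_le hH0.le] at hz
  exact intervalIntegral.integral_congr fun y _ => h y z hz

private theorem IQ_pe (F : ℝ → ℝ → ℝ) : IQ H F = IQ H (pe H F) :=
  IQ_congr fun y _ hz => (pe_eq hz y).symm

theorem IQ_add {F G : ℝ → ℝ → ℝ} (hF : C0P H F) (hG : C0P H G) :
    IQ H (fun y z => F y z + G y z) = IQ H F + IQ H G := by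
  rw [IQ_pe F, IQ_pe G, IQ_pe (fun y z => F y z + G y z)]
  unfold IQ
  rw [← intervalIntegral.integral_add ((pe_int hF).intervalIntegrable _ _)
    ((pe_int hG).intervalIntegrable _ _)]
  refine intervalIntegral.integral_congr fun z _ => ?_
  exact intervalIntegral.integral_add ((pe_y hF z).intervalIntegrable _ _)
    ((pe_y hG z).intervalIntegrable _ _)

theorem IQ_mul (c : ℝ) (F : ℝ → ℝ → ℝ) : IQ H (fun y z => c * F y z) = c * IQ H F := by
  unfold IQ
  simp only [intervalIntegral.integral_const_mul]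

theorem C0P.const (c : ℝ) : C0P H (fun _ _ => c) :=
  ⟨continuousOn_const, fun _ _ _ => rfl⟩

theorem C0P.add {F G : ℝ → ℝ → ℝ} (hF : C0P H F) (hG : C0P H G) : C0P H (fun y z => F y z + G y z) :=
  ⟨hF.c.add hG.c, fun y z hz => by rw [hF.p y z hz, hG.p y z hz]⟩

theorem C0P.sub {F G : ℝ → ℝ → ℝ} (hF : C0P H F) (hG : C0P H G) : C0P H (fun y z => F y z - G y z) :=
  ⟨hF.c.sub hG.c, fun y z hz => by rw [hF.p y z hz, hG.p y z hz]⟩

theorem C0P.mul {F G : ℝ → ℝ → ℝ} (hF : C0P H F) (hG : C0P H G) : C0P H (fun y z => F y z * G y z) :=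
  ⟨hF.c.mul hG.c, fun y z hz => by rw [hF.p y z hz, hG.p y z hz]⟩

theorem C0P.pow {F : ℝ → ℝ → ℝ} (hF : C0P H F) (n : ℕ) : C0P H (fun y z => F y z ^ n) :=
  ⟨hF.c.pow n, fun y z hz => by rw [hF.p y z hz]⟩

private theorem C0P.cmul {F : ℝ → ℝ → ℝ} (hF : C0P H F) (c : ℝ) : C0P H (fun y z => c * F y z) :=
  (C0P.const c).mul hF

theorem IQ_sub {F G : ℝ → ℝ → ℝ} (hF : C0P H F) (hG : C0P H G) :
    IQ H (fun y z => F y z - G y z) = IQ H F - IQ H G := by
  have h1 : IQ H (fun y z => F y z - G y z) = IQ H (fun y z => F y z + (-1) * G y z) :=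
    IQ_congr fun y z _ => by ring
  rw [h1, IQ_add hF (hG.cmul (-1)), IQ_mul]
  ring

theorem IQ_mono {F G : ℝ → ℝ → ℝ} (hF : C0P H F) (hG : C0P H G)
    (h : ∀ y, ∀ z ∈ Icc 0 H, F y z ≤ G y z) : IQ H F ≤ IQ H G := by
  have hH0 := hH.out
  rw [IQ_pe F, IQ_pe G]
  unfold IQ
  refine intervalIntegral.integral_mono_on hH0.le ((pe_int hF).intervalIntegrable _ _)
    ((pe_int hG).intervalIntegrable _ _) fun z hz => ?_
  refine intervalIntegral.integral_mono_on (by linarith) ((pe_y hF z).intervalIntegrable _ _)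
    ((pe_y hG z).intervalIntegrable _ _) fun y _ => ?_
  rw [pe_eq hz, pe_eq hz]
  exact h y z hz

theorem IQ_abs {F G : ℝ → ℝ → ℝ} (hF : C0P H F) (hG : C0P H G)
    (h : ∀ y, ∀ z ∈ Icc 0 H, |F y z| ≤ G y z) : |IQ H F| ≤ IQ H G := by
  rw [abs_le]
  constructor
  · have h1 := IQ_mono (hG.cmul (-1)) hF fun y z hz => by
      have := (abs_le.1 (h y z hz)).1
      linarith
    rw [IQ_mul] at h1
    linarith
  · exact IQ_mono hF hG fun y z hz => (abs_le.1 (h y z hz)).2

theorem IQ_cs {F G : ℝ → ℝ → ℝ} (hF : C0P H F) (hG : C0P H G) :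
    |IQ H (fun y z => F y z * G y z)| ≤ √(IQ H fun y z => F y z ^ 2) * √(IQ H fun y z => G y z ^ 2) := by
  obtain ⟨a, ha⟩ : ∃ a, a = IQ H fun y z => F y z ^ 2 := ⟨_, rfl⟩
  obtain ⟨b, hb⟩ : ∃ b, b = IQ H fun y z => F y z * G y z := ⟨_, rfl⟩
  obtain ⟨c, hc⟩ : ∃ c, c = IQ H fun y z => G y z ^ 2 := ⟨_, rfl⟩
  have hz : IQ H (fun _ _ => (0:ℝ)) = 0 := by
    have := IQ_mul (H := H) 0 (fun _ _ => (0:ℝ))
    simpa using this
  have key : ∀ t : ℝ, 0 ≤ a * (t * t) + (2 * b) * t + c := by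
    intro t
    have h1 : 0 ≤ IQ H (fun y z => (t * F y z + G y z) ^ 2) := by
      rw [← hz]
      exact IQ_mono (C0P.const 0) (((hF.cmul t).add hG).pow 2) fun y z _ => sq_nonneg _
    have h2 : IQ H (fun y z => (t * F y z + G y z) ^ 2) =
        IQ H (fun y z => (t * t) * F y z ^ 2 + ((2 * t) * (F y z * G y z) + G y z ^ 2)) :=
      IQ_congr fun y z _ => by ring
    rw [h2, IQ_add ((hF.pow 2).cmul _) (((hF.mul hG).cmul _).add (hG.pow 2)),
      IQ_add ((hF.mul hG).cmul _) (hG.pow 2), IQ_mul, IQ_mul, ← ha, ← hb, ← hc] at h1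
    linarith
  have hd := discrim_le_zero key
  unfold discrim at hd
  have ha0 : 0 ≤ a := by
    rw [ha, ← hz]
    exact IQ_mono (C0P.const 0) (hF.pow 2) fun y z _ => sq_nonneg _
  rw [← ha, ← hb, ← hc, ← Real.sqrt_mul ha0]
  refine Real.abs_le_sqrt ?_
  nlinarith

theorem IQ_dy {f fy : ℝ → ℝ → ℝ} (hf : C0P H f) (hfy : C0P H fy)
    (h : ∀ y, ∀ z ∈ Icc 0 H, HasDerivAt (fun y => f y z) (fy y z) y) : IQ H fy = 0 := by
  have hH0 := hH.out
  unfold IQ
  have hgoal : ∀ z ∈ uIcc 0 H, ∫ y in (-H)..H, fy y z = 0 := by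
    intro z hz
    rw [uIcc_of_le hH0.le] at hz
    have hc : Continuous fun y => fy y z := by
      have := pe_y hfy z
      simpa only [pe_eq hz] using this
    have h1 := intervalIntegral.integral_eq_sub_of_hasDerivAt (a := -H) (b := H)
      (fun y _ => h y z hz) (hc.intervalIntegrable _ _)
    have h2 := hf.p (-H) z hz
    have h3 : -H + 2 * H = H := by ring
    rw [h3] at h2
    rw [h1, h2, sub_self]
  rw [intervalIntegral.integral_congr (g := fun _ => (0:ℝ)) hgoal, intervalIntegral.integral_zero]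

theorem IQ_dz {f fz : ℝ → ℝ → ℝ} (hf : C0P H f) (hfz : C0P H fz)
    (h : ∀ y, ∀ z ∈ Icc 0 H, HasDerivWithinAt (fun z => f y z) (fz y z) (Icc 0 H) z)
    (h0 : ∀ y, f y 0 = 0) (h1 : ∀ y, f y H = 0) : IQ H fz = 0 := by
  have hH0 := hH.out
  have hle : (-H) ≤ H := by linarith
  rw [IQ_pe fz]
  have hI : Integrable (uncurry fun z y => pe H fz y z)
      ((volume.restrict (Ioc (0:ℝ) H)).prod (volume.restrict (Ioc (-H) H))) := by
    rw [Measure.prod_restrict]
    have hcont : Continuous (uncurry fun z y => pe H fz y z) := (pe_cont hfz).comp continuous_swap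
    have hI2 : IntegrableOn (uncurry fun z y => pe H fz y z)
        (Icc (0:ℝ) H ×ˢ Icc (-H) H) (volume.prod volume) :=
      hcont.continuousOn.integrableOn_compact (isCompact_Icc.prod isCompact_Icc)
    exact hI2.mono_set (prod_mono Ioc_subset_Icc_self Ioc_subset_Icc_self)
  have hsw := integral_integral_swap hI
  unfold IQ
  rw [intervalIntegral.integral_of_le hH0.le]
  simp only [intervalIntegral.integral_of_le hle]
  rw [hsw]
  have hzero : ∀ y, ∫ z in Ioc (0:ℝ) H, pe H fz y z = 0 := by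
    intro y
    rw [← intervalIntegral.integral_of_le hH0.le]
    have hcf : ContinuousOn (fun z => f y z) (Icc 0 H) := fun z hz => (h y z hz).continuousWithinAt
    have e1 := intervalIntegral.integral_eq_sub_of_hasDeriv_right_of_le hH0.le hcf
      (f' := fun z => pe H fz y z)
      (fun z hz => by
        have hz' : z ∈ Icc 0 H := Ioo_subset_Icc_self hz
        have h2 := h y z hz'
        rw [← pe_eq (F := fz) hz' y] at h2
        exact (h2.mono_of_mem_nhdsWithin (mem_nhdsWithin_of_mem_nhds (Icc_mem_nhds hz.1 hz.2))))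
      ((pe_z hfz y).intervalIntegrable _ _)
    rw [e1, h0, h1, sub_self]
  simp only [hzero, integral_zero]

theorem C1P.add {f fy fz g gy gz : ℝ → ℝ → ℝ} (hf : C1P H f fy fz) (hg : C1P H g gy gz) :
    C1P H (fun y z => f y z + g y z) (fun y z => fy y z + gy y z) (fun y z => fz y z + gz y z) :=
  ⟨hf.c.add hg.c, hf.cy.add hg.cy, hf.cz.add hg.cz,
    fun y z hz => (hf.dy y z hz).add (hg.dy y z hz),
    fun y z hz => (hf.dz y z hz).add (hg.dz y z hz)⟩

theorem C1P.mul {f fy fz g gy gz : ℝ → ℝ → ℝ} (hf : C1P H f fy fz) (hg : C1P H g gy gz) :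
    C1P H (fun y z => f y z * g y z) (fun y z => fy y z * g y z + f y z * gy y z)
      (fun y z => fz y z * g y z + f y z * gz y z) :=
  ⟨hf.c.mul hg.c, (hf.cy.mul hg.c).add (hf.c.mul hg.cy), (hf.cz.mul hg.c).add (hf.c.mul hg.cz),
    fun y z hz => (hf.dy y z hz).mul (hg.dy y z hz),
    fun y z hz => (hf.dz y z hz).mul (hg.dz y z hz)⟩

end

end Pool.Agent.Lib.MP_79abb3_an.FW
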