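import Pool.Agent.Lib.MP_79abb3_an.FW.PhDef
import Pool.Agent.Lib.MP_79abb3_an.P25.Fld

/-!
FW-32b: pairing with test functions.
-/

set_option autoImplicit false
set_option linter.unusedSectionVars false

open MeasureTheory Set Filter Topology Function

namespace Pool.Agent.Lib.MP_79abb3_an.FW

open Pool.Agent.Lib.MP_79abb3_an.P25

private theorem pbb_ee_deriv (ω : ℝ) (n : ℤ) (y : ℝ) :
    HasDerivAt (fun y : ℝ => ee ω n y) (Complex.I * ((ω * n : ℝ) : ℂ) * ee ω n y) y := by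
  have h3 : HasDerivAt (fun y : ℝ => Complex.I * ((ω * n * y : ℝ) : ℂ))
      (Complex.I * ((ω * n : ℝ) : ℂ)) y := by
    have h4 : HasDerivAt (fun y : ℝ => ω * n * y) (ω * n) y := by
      simpa using (hasDerivAt_id y).const_mul (ω * n)
    exact h4.ofReal_comp.const_mul Complex.I
  exact h3.cexp.congr_deriv (mul_comm _ _)

private theorem pbb_ee_per {ω H : ℝ} (hω : ω * H = Real.pi) (n : ℤ) (y : ℝ) :
    ee ω n (y + 2 * H) = ee ω n y := by
  unfold ee
  have h1 : Complex.I * ((ω * n * (y + 2 * H) : ℝ) : ℂ) =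
      Complex.I * ((ω * n * y : ℝ) : ℂ) + (n : ℂ) * (2 * (Real.pi : ℂ) * Complex.I) := by
    rw [← hω]
    push_cast
    ring
  rw [h1, Complex.exp_add, Complex.exp_int_mul_two_pi_mul_I, mul_one]

private theorem pbb_dom {a b : ℝ} {F : ℤ → ℝ → ℂ} {f : ℝ → ℂ} {c : ℤ → ℝ}
    (hF : ∀ n, Continuous (F n)) (hb : ∀ n, ∀ y ∈ uIoc a b, ‖F n y‖ ≤ c n) (hc : Summable c)
    (hs : ∀ y ∈ uIoc a b, HasSum (fun n => F n y) (f y)) :
    HasSum (fun n => ∫ y in a..b, F n y) (∫ y in a..b, f y) :=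
  intervalIntegral.hasSum_integral_of_dominated_convergence (fun n _ => c n)
    (fun n => (hF n).aestronglyMeasurable) (fun n => Eventually.of_forall (hb n))
    (Eventually.of_forall fun _ _ => hc) intervalIntegrable_const (Eventually.of_forall hs)

section
variable {H : ℝ} [hH : Fact (0 < H)]

/-- Continuous extension in `z`. -/
private noncomputable def pbx (H : ℝ) [hH : Fact (0 < H)] (ψ : ℝ → ℝ → ℝ) (y z : ℝ) : ℝ :=
  ψ y (projIcc 0 H hH.out.le z : ℝ)

private theorem pbx_cont {ψ : ℝ → ℝ → ℝ} (hψ : C0P H ψ) :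
    Continuous (fun p : ℝ × ℝ => pbx H ψ p.1 p.2) := by
  have h1 : Continuous fun p : ℝ × ℝ => (p.1, ((projIcc 0 H hH.out.le p.2 : Icc (0:ℝ) H) : ℝ)) :=
    continuous_fst.prodMk (continuous_subtype_val.comp (continuous_projIcc.comp continuous_snd))
  exact hψ.c.comp_continuous h1 fun p => ⟨mem_univ _, Subtype.coe_prop _⟩

private theorem pbx_eq (ψ : ℝ → ℝ → ℝ) (y : ℝ) {z : ℝ} (hz : z ∈ Icc (0:ℝ) H) :
    pbx H ψ y z = ψ y z := by
  unfold pbx
  rw [projIcc_of_mem _ hz]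

private theorem pbx_int {ω : ℝ} {ψ : ℝ → ℝ → ℝ} (hψ : C0P H ψ) (n : ℤ) :
    Continuous (fun z => ∫ y in (-H)..H, ((pbx H ψ y z : ℝ) : ℂ) * ee ω n y) := by
  refine intervalIntegral.continuous_parametric_intervalIntegral_of_continuous'
    (f := fun z y => ((pbx H ψ y z : ℝ) : ℂ) * ee ω n y) ?_ _ _
  have h1 := (pbx_cont hψ).comp continuous_swap
  exact (Complex.continuous_ofReal.comp h1).mul ((fld_ee_continuous ω n).comp continuous_snd)

private theorem hc_contOn {ω : ℝ} {ψ : ℝ → ℝ → ℝ} (hψ : C0P H ψ) (n : ℤ) :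
    ContinuousOn (fun z => ∫ y in (-H)..H, ((ψ y z : ℝ) : ℂ) * ee ω n y) (Icc 0 H) := by
  refine (pbx_int (ω := ω) hψ n).continuousOn.congr fun z hz => ?_
  refine intervalIntegral.integral_congr fun y _ => ?_
  rw [pbx_eq ψ y hz]

/-- Fourier coefficients of a test function as elements of `CI H`. -/
noncomputable def hc (ω : ℝ) (ψ : ℝ → ℝ → ℝ) (hψ : C0P H ψ) (n : ℤ) : CI H :=
  mkCI (fun z => ∫ y in (-H)..H, ((ψ y z : ℝ) : ℂ) * ee ω n y) (hc_contOn hψ n)

private theorem ex_hc {ω : ℝ} {ψ : ℝ → ℝ → ℝ} (hψ : C0P H ψ) (n : ℤ) {z : ℝ}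
    (hz : z ∈ Icc (0:ℝ) H) :
    ex (hc ω ψ hψ n) z = ∫ y in (-H)..H, ((pbx H ψ y z : ℝ) : ℂ) * ee ω n y := by
  rw [hc, ex_mkCI _ hz]
  refine intervalIntegral.integral_congr fun y _ => ?_
  rw [pbx_eq ψ y hz]

theorem pair_fld {ω : ℝ} {a : ℤ → CI H} (ha : Summable fun n => ‖a n‖) {ψ : ℝ → ℝ → ℝ}
    (hψ : C0P H ψ) : (Summable fun n => ‖bpJ (a n) (hc ω ψ hψ n)‖) ∧
      IQ H (fun y z => fld ω a y z * ψ y z) = (∑' n, bpJ (a n) (hc ω ψ hψ n)).re := by
  have hH0 := hH.out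
  have cψ := pbx_cont hψ
  obtain ⟨C, hC⟩ := (isCompact_Icc.prod isCompact_Icc).exists_bound_of_continuousOn
    (s := Icc (-H) H ×ˢ Icc (0:ℝ) H) cψ.continuousOn
  have hC0 : 0 ≤ C := (norm_nonneg _).trans (hC (0, 0) ⟨⟨by linarith, hH0.le⟩, ⟨le_rfl, hH0.le⟩⟩)
  -- the general term
  let G : ℤ → ℝ → ℝ → ℂ := fun n z y => ex (a n) z * (((pbx H ψ y z : ℝ) : ℂ) * ee ω n y)
  have cG : ∀ n, Continuous (uncurry (G n)) := fun n => by
    have h1 := cψ.comp continuous_swap
    exact ((continuous_ex (a n)).comp continuous_fst).mul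
      ((Complex.continuous_ofReal.comp h1).mul ((fld_ee_continuous ω n).comp continuous_snd))
  have bG : ∀ n, ∀ z ∈ Icc (0:ℝ) H, ∀ y ∈ Icc (-H) H, ‖G n z y‖ ≤ ‖a n‖ * C := by
    intro n z hz y hy
    show ‖ex (a n) z * (((pbx H ψ y z : ℝ) : ℂ) * ee ω n y)‖ ≤ _
    rw [norm_mul, norm_mul, ee_norm, mul_one, Complex.norm_real]
    exact mul_le_mul (norm_ex_le _ _) (hC (y, z) ⟨hy, hz⟩) (norm_nonneg _) (norm_nonneg _)
  have hbp : ∀ n, bpJ (a n) (hc ω ψ hψ n) = ∫ z in (0:ℝ)..H, ∫ y in (-H)..H, G n z y := by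
    intro n
    unfold bpJ
    refine intervalIntegral.integral_congr fun z hz => ?_
    rw [uIcc_of_le hH0.le] at hz
    rw [ex_hc hψ n hz, ← intervalIntegral.integral_const_mul]
  have hsC : Summable fun n => ‖a n‖ * C := ha.mul_right C
  -- the sum
  let S : ℝ → ℝ → ℂ := fun y z => ∑' n : ℤ, ex (a n) z * ee ω n y
  have cS : Continuous fun p : ℝ × ℝ => S p.1 p.2 := by
    refine continuous_tsum (fun n => ?_) ha fun n p => fld_term_le a n p.1 p.2
    exact ((continuous_ex (a n)).comp continuous_snd).mul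
      ((fld_ee_continuous ω n).comp continuous_fst)
  have cSψ : Continuous fun p : ℝ × ℝ => S p.1 p.2 * ((pbx H ψ p.1 p.2 : ℝ) : ℂ) :=
    cS.mul (Complex.continuous_ofReal.comp cψ)
  have hG : ∀ z y, HasSum (fun n => G n z y) (S y z * ((pbx H ψ y z : ℝ) : ℂ)) := by
    intro z y
    have h1 := (fld_summable (ω := ω) ha y z).hasSum.mul_right ((pbx H ψ y z : ℝ) : ℂ)
    refine h1.congr_fun ?_ |> fun h => h
    intro n
    show ex (a n) z * (((pbx H ψ y z : ℝ) : ℂ) * ee ω n y) = _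
    ring
  have cJ : ∀ n, Continuous fun z => ∫ y in (-H)..H, G n z y := fun n =>
    intervalIntegral.continuous_parametric_intervalIntegral_of_continuous' (cG n) _ _
  have cJS : Continuous fun z => ∫ y in (-H)..H, S y z * ((pbx H ψ y z : ℝ) : ℂ) :=
    intervalIntegral.continuous_parametric_intervalIntegral_of_continuous'
      (f := fun z y => S y z * ((pbx H ψ y z : ℝ) : ℂ))
      (Continuous.comp (g := fun p : ℝ × ℝ => S p.1 p.2 * ((pbx H ψ p.1 p.2 : ℝ) : ℂ))
        (f := Prod.swap) cSψ continuous_swap) _ _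
  have hHH : -H ≤ H := by linarith
  have hIoc1 : uIoc (-H) H ⊆ Icc (-H) H := by
    rw [uIoc_of_le hHH]
    exact Ioc_subset_Icc_self
  have hIoc2 : uIoc (0:ℝ) H ⊆ Icc 0 H := by
    rw [uIoc_of_le hH0.le]
    exact Ioc_subset_Icc_self
  have inner : ∀ z ∈ Icc (0:ℝ) H, HasSum (fun n => ∫ y in (-H)..H, G n z y)
      (∫ y in (-H)..H, S y z * ((pbx H ψ y z : ℝ) : ℂ)) := by
    intro z hz
    exact pbb_dom (F := fun n y => G n z y)
      (f := fun y => S y z * ((pbx H ψ y z : ℝ) : ℂ)) (c := fun n => ‖a n‖ * C)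
      (fun n => (cG n).comp (Continuous.prodMk_right z))
      (fun n y hy => bG n z hz y (hIoc1 hy)) hsC (fun y _ => hG z y)
  have bJ : ∀ n, ∀ z ∈ Icc (0:ℝ) H, ‖∫ y in (-H)..H, G n z y‖ ≤ ‖a n‖ * C * |H - -H| := by
    intro n z hz
    exact intervalIntegral.norm_integral_le_of_norm_le_const fun y hy => bG n z hz y (hIoc1 hy)
  have outer : HasSum (fun n => ∫ z in (0:ℝ)..H, ∫ y in (-H)..H, G n z y)
      (∫ z in (0:ℝ)..H, ∫ y in (-H)..H, S y z * ((pbx H ψ y z : ℝ) : ℂ)) := by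
    exact pbb_dom (F := fun n z => ∫ y in (-H)..H, G n z y)
      (f := fun z => ∫ y in (-H)..H, S y z * ((pbx H ψ y z : ℝ) : ℂ))
      (c := fun n => ‖a n‖ * C * |H - -H|) cJ
      (fun n z hz => bJ n z (hIoc2 hz)) (hsC.mul_right _) (fun z hz => inner z (hIoc2 hz))
  constructor
  · refine Summable.of_nonneg_of_le (fun n => norm_nonneg _) (fun n => ?_)
      ((hsC.mul_right |H - -H|).mul_right |H - 0|)
    rw [hbp n]
    exact intervalIntegral.norm_integral_le_of_norm_le_const fun z hz => bJ n z (hIoc2 hz)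
  · have h1 : ∑' n, bpJ (a n) (hc ω ψ hψ n) =
        ∫ z in (0:ℝ)..H, ∫ y in (-H)..H, S y z * ((pbx H ψ y z : ℝ) : ℂ) := by
      rw [← outer.tsum_eq]
      exact tsum_congr hbp
    rw [h1]
    have h2 := Complex.reCLM.intervalIntegral_comp_comm
      (cJS.intervalIntegrable (μ := volume) 0 H)
    simp only [Complex.reCLM_apply] at h2
    rw [← h2]
    unfold IQ
    refine intervalIntegral.integral_congr fun z hz => ?_
    rw [uIcc_of_le hH0.le] at hz
    simp only
    have cz : Continuous fun y => S y z * ((pbx H ψ y z : ℝ) : ℂ) :=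
      Continuous.comp (g := fun p : ℝ × ℝ => S p.1 p.2 * ((pbx H ψ p.1 p.2 : ℝ) : ℂ))
        (f := fun y : ℝ => (y, z)) cSψ (Continuous.prodMk_left z)
    have h3 := Complex.reCLM.intervalIntegral_comp_comm
      (cz.intervalIntegrable (μ := volume) (-H) H)
    simp only [Complex.reCLM_apply] at h3
    rw [← h3]
    refine intervalIntegral.integral_congr fun y _ => ?_
    rw [pbx_eq ψ y hz, Complex.re_mul_ofReal]
    rfl

/-- Derivatives. -/
theorem hc_der {ω : ℝ} (hω : ω * H = Real.pi) {ψ ψy ψz : ℝ → ℝ → ℝ} (h : C1P H ψ ψy ψz) (n : ℤ) :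
    IsD (hc ω ψ h.c n) (hc ω ψz h.cz n) ∧
      hc ω ψy h.cy n = (-(Complex.I * ((ω * n : ℝ) : ℂ))) • hc ω ψ h.c n := by
  have hH0 := hH.out
  have cψ := pbx_cont h.c
  have cψz := pbx_cont h.cz
  have cψy := pbx_cont h.cy
  have cee := fld_ee_continuous ω n
  constructor
  · -- derivative in `z`
    have hz0 : (0:ℝ) ∈ Icc (0:ℝ) H := ⟨le_rfl, hH0.le⟩
    set J1 : ℝ → ℂ := fun s => ∫ y in (-H)..H, ((pbx H ψz y s : ℝ) : ℂ) * ee ω n y with hJ1
    have cJ1 : Continuous J1 := pbx_int h.cz n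
    have hftc : ∀ y, ∀ z ∈ Icc (0:ℝ) H, pbx H ψ y z = ψ y 0 + ∫ s in (0:ℝ)..z, pbx H ψz y s := by
      intro y z hz
      have c1 : Continuous fun s => pbx H ψ y s := cψ.comp (Continuous.prodMk_right y)
      have c2 : Continuous fun s => pbx H ψz y s := cψz.comp (Continuous.prodMk_right y)
      have h1 : ∫ s in (0:ℝ)..z, pbx H ψz y s = pbx H ψ y z - pbx H ψ y 0 := by
        refine intervalIntegral.integral_eq_sub_of_hasDerivAt_of_le hz.1
          c1.continuousOn (fun x hx => ?_) (c2.intervalIntegrable _ _)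
        have hx' : x ∈ Icc (0:ℝ) H := ⟨hx.1.le, hx.2.le.trans hz.2⟩
        have h2 := h.dz y x hx'
        have h3 : HasDerivWithinAt (fun z => pbx H ψ y z) (ψz y x) (Icc 0 H) x :=
          h2.congr (fun w hw => pbx_eq ψ y hw) (pbx_eq ψ y hx')
        rw [pbx_eq ψz y hx']
        exact h3.hasDerivAt (Icc_mem_nhds hx.1 (hx.2.trans_le hz.2))
      rw [h1, pbx_eq ψ y hz0]
      ring
    have hrep : ∀ z ∈ Icc (0:ℝ) H, ex (hc ω ψ h.c n) z =
        (∫ y in (-H)..H, ((ψ y 0 : ℝ) : ℂ) * ee ω n y) + ∫ s in (0:ℝ)..z, J1 s := by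
      intro z hz
      have cF : Continuous (uncurry fun s y => ((pbx H ψz y s : ℝ) : ℂ) * ee ω n y) :=
        (Complex.continuous_ofReal.comp (cψz.comp continuous_swap)).mul
          (cee.comp continuous_snd)
      have hsw : ∫ s in (0:ℝ)..z, J1 s =
          ∫ y in (-H)..H, ∫ s in (0:ℝ)..z, ((pbx H ψz y s : ℝ) : ℂ) * ee ω n y := by
        refine intervalIntegral_intervalIntegral_swap
          (F := fun s y => ((pbx H ψz y s : ℝ) : ℂ) * ee ω n y) ?_
        exact (cF.continuousOn.integrableOn_compact (isCompact_uIcc.prod isCompact_uIcc)).mono_set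
          (prod_mono uIoc_subset_uIcc uIoc_subset_uIcc)
      have c0 : Continuous fun y => ((ψ y 0 : ℝ) : ℂ) * ee ω n y := by
        have h1 : Continuous fun y => pbx H ψ y 0 := cψ.comp (Continuous.prodMk_left 0)
        have h2 : (fun y => pbx H ψ y 0) = fun y => ψ y 0 := funext fun y => pbx_eq ψ y hz0
        rw [h2] at h1
        exact (Complex.continuous_ofReal.comp h1).mul cee
      have c3 : Continuous fun y => ∫ s in (0:ℝ)..z, ((pbx H ψz y s : ℝ) : ℂ) * ee ω n y :=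
        intervalIntegral.continuous_parametric_intervalIntegral_of_continuous'
          (f := fun y s => ((pbx H ψz y s : ℝ) : ℂ) * ee ω n y)
          (cF.comp continuous_swap) _ _
      rw [ex_hc h.c n hz, hsw, ← intervalIntegral.integral_add (c0.intervalIntegrable _ _)
        (c3.intervalIntegrable _ _)]
      refine intervalIntegral.integral_congr fun y _ => ?_
      rw [hftc y z hz, intervalIntegral.integral_mul_const, intervalIntegral.integral_ofReal]
      push_cast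
      ring
    intro z hz
    have h1 : HasDerivAt (fun z : ℝ => (∫ y in (-H)..H, ((ψ y 0 : ℝ) : ℂ) * ee ω n y) +
        ∫ s in (0:ℝ)..z, J1 s) (J1 z) z := by
      have h2 : HasDerivAt (fun z : ℝ => ∫ s in (0:ℝ)..z, J1 s) (J1 z) z :=
        intervalIntegral.integral_hasDerivAt_right (cJ1.intervalIntegrable _ _)
          (cJ1.stronglyMeasurableAtFilter _ _) cJ1.continuousAt
      exact h2.const_add _
    have h3 : ex (hc ω ψz h.cz n) z = J1 z := ex_hc h.cz n hz
    rw [h3]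
    exact h1.hasDerivWithinAt.congr hrep (hrep z hz)
  · refine ci_ext fun z hz => ?_
    rw [ex_smul, ex_hc h.cy n hz, ex_hc h.c n hz]
    have hHm : ψ H z = ψ (-H) z := by
      have h1 := h.c.p (-H) z hz
      have h2 : -H + 2 * H = H := by ring
      rwa [h2] at h1
    have heH : ee ω n H = ee ω n (-H) := by
      have h1 := pbb_ee_per hω n (-H)
      have h2 : -H + 2 * H = H := by ring
      rwa [h2] at h1
    have c1 : Continuous fun y => ((pbx H ψy y z : ℝ) : ℂ) * ee ω n y :=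
      (Complex.continuous_ofReal.comp (cψy.comp (Continuous.prodMk_left z))).mul cee
    have c2 : Continuous fun y => ((pbx H ψ y z : ℝ) : ℂ) * ee ω n y :=
      (Complex.continuous_ofReal.comp (cψ.comp (Continuous.prodMk_left z))).mul cee
    have c3 : Continuous fun y => Complex.I * ((ω * n : ℝ) : ℂ) *
        (((pbx H ψ y z : ℝ) : ℂ) * ee ω n y) := continuous_const.mul c2
    have hF : ∫ y in (-H)..H, (((pbx H ψy y z : ℝ) : ℂ) * ee ω n y +
        Complex.I * ((ω * n : ℝ) : ℂ) * (((pbx H ψ y z : ℝ) : ℂ) * ee ω n y)) = 0 := by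
      have h1 : ∀ y ∈ uIcc (-H) H, HasDerivAt (fun y => ((ψ y z : ℝ) : ℂ) * ee ω n y)
          (((pbx H ψy y z : ℝ) : ℂ) * ee ω n y +
            Complex.I * ((ω * n : ℝ) : ℂ) * (((pbx H ψ y z : ℝ) : ℂ) * ee ω n y)) y := by
        intro y _
        have h2 := (h.dy y z hz).ofReal_comp.mul (pbb_ee_deriv ω n y)
        refine h2.congr_deriv ?_
        rw [pbx_eq ψy y hz, pbx_eq ψ y hz]
        ring
      rw [intervalIntegral.integral_eq_sub_of_hasDerivAt h1
        ((c1.add c3).intervalIntegrable _ _), hHm, heH, sub_self]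
    rw [intervalIntegral.integral_add (c1.intervalIntegrable _ _) (c3.intervalIntegrable _ _),
      intervalIntegral.integral_const_mul] at hF
    linear_combination hF

end

end Pool.Agent.Lib.MP_79abb3_an.FW
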