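import Pool.Agent.Lib.MP_79abb3_an.FW.HEc
import Pool.Agent.Lib.MP_79abb3_an.FW.PhA
import Pool.Agent.Lib.MP_79abb3_an.FW.PhBa
import Pool.Agent.Lib.MP_79abb3_an.FW.PhBb
import Pool.Agent.Lib.MP_79abb3_an.FW.SumsA
import Pool.Agent.Lib.MP_79abb3_an.FW.VelC
import Pool.Agent.Lib.MP_79abb3_an.P25.WeakModes

/-!
FW-34: weak form in the period cell.
-/

set_option autoImplicit false
set_option linter.unusedSectionVars false

open MeasureTheory Set Filter Topology Function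

namespace Pool.Agent.Lib.MP_79abb3_an.FW

open Pool.Agent.Lib.MP_79abb3_an.P25

section
variable {H : ℝ} [hH : Fact (0 < H)]

private theorem phd_parts {u u1 v v1 : CI H} (hu : IsD u u1) (hv : IsD v v1) :
    bpJ u1 v = ex u H * ex v H - ex u 0 * ex v 0 - bpJ u v1 := by
  have h := Tst.LH_isD (Tst.IsD_mul hu hv)
  rw [map_add, ex_mul, ex_mul] at h
  have e : ∀ f g : CI H, bpJ f g = Tst.LH H (f * g) := fun _ _ => rfl
  rw [e, e]
  linear_combination h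

/-- Testing with a fixed function of class `C¹` with zero boundary values. -/
private theorem phd_test {k a b : ℝ} {f f1 G : ℝ → CI H} (h : HE k a b f f1 G) {φ φ1 : CI H}
    (hφ : IsD φ φ1) (z0 : ex φ 0 = 0) (zH : ex φ H = 0) : ∀ t ∈ Icc a b,
    HasDerivWithinAt (fun t => bpJ (f t) φ)
      (-bpJ (f1 t) φ1 - ((k ^ 2 : ℝ) : ℂ) * bpJ (f t) φ + bpJ (G t) φ) (Icc a b) t := by
  intro t ht
  have hprim : ∀ g : CI H, bpJ g φ = -bpJ (Eop 0 g) φ1 := by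
    intro g
    have := phd_parts (Tst.isD_Eop0 g) hφ
    rw [Eop_zero, zH, mul_zero, zero_mul, sub_zero, zero_sub] at this
    exact this
  have h1 := h.prim_deriv t ht
  have h2 : HasDerivWithinAt (fun t => -Tst.LH H (Eop 0 (f t) * φ1))
      (-Tst.LH H (Tst.rC k (f t) (f1 t) (G t) * φ1)) (Icc a b) t :=
    ((Tst.LH H).hasFDerivAt.comp_hasDerivWithinAt t (h1.mul_const φ1)).neg
  have h3 : (fun t => bpJ (f t) φ) = fun t => -Tst.LH H (Eop 0 (f t) * φ1) := by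
    funext s
    rw [hprim]
    rfl
  rw [h3]
  refine h2.congr_deriv ?_
  have p2 := hprim (f t)
  have p3 := hprim (G t)
  have p4 : bpJ (ContinuousMap.const _ (ex (f1 t) 0) : CI H) φ1 = 0 := by
    have h6 := Tst.LH_isD hφ
    rw [z0, zH, sub_zero, Tst.LH_apply] at h6
    have h7 : bpJ (ContinuousMap.const _ (ex (f1 t) 0) : CI H) φ1 =
        ∫ z in (0:ℝ)..H, ex (f1 t) 0 * ex φ1 z := rfl
    rw [h7, intervalIntegral.integral_const_mul, h6, mul_zero]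
  have p5 : bpJ (Tst.rC k (f t) (f1 t) (G t)) φ1 = bpJ (f1 t) φ1 -
      bpJ (ContinuousMap.const _ (ex (f1 t) 0) : CI H) φ1 -
      ((k ^ 2 : ℝ) : ℂ) * bpJ (Eop 0 (f t)) φ1 + bpJ (Eop 0 (G t)) φ1 := by
    unfold Tst.rC
    rw [bpJ_add_left, bpJ_sub_left, bpJ_sub_left, bpJ_rsmul_left]
  show -bpJ (Tst.rC k (f t) (f1 t) (G t)) φ1 = _
  rw [p5, p4, p2, p3]
  ring

private theorem phd_contJ {s : Set ℝ} {f : ℝ → CI H} (hf : ContinuousOn f s) (φ : CI H) :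
    ContinuousOn (fun t => bpJ (f t) φ) s :=
  ((hecB H).flip φ).continuous.comp_continuousOn hf

private theorem phd_kap (m a : ℝ) : (kap m a : CI H) = a ^ 2 • kap m 1 := by
  refine ci_ext fun z hz => ?_
  rw [ex_rsmul]
  simp only [kap]
  rw [ex_rc _ _ hz, ex_rc _ _ hz]
  push_cast
  ring

private theorem phd_kap1 (m a : ℝ) : (kap1 m a : CI H) = a ^ 2 • kap1 m 1 := by
  refine ci_ext fun z hz => ?_
  rw [ex_rsmul]
  simp only [kap1]
  rw [ex_rc _ _ hz, ex_rc _ _ hz]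
  push_cast
  ring

private theorem phd_pu (ω : ℝ) (N : ℕ) (a : ℝ) (n : ℤ) : (pu ω N a n : Xn H) = a • pu ω N 1 n := by
  have e1 : ((Complex.I * ((a / 2 * sN N n : ℝ) : ℂ)) • fexp (ω * N) : CI H) =
      a • ((Complex.I * ((1 / 2 * sN N n : ℝ) : ℂ)) • fexp (ω * N) : CI H) := by
    refine ci_ext fun z hz => ?_
    rw [ex_rsmul, ex_smul, ex_smul]
    push_cast
    ring
  have e2 : ((Complex.I * ((a / 2 * sN N n * (ω * N) : ℝ) : ℂ)) • fexp (ω * N) : CI H) =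
      a • ((Complex.I * ((1 / 2 * sN N n * (ω * N) : ℝ) : ℂ)) • fexp (ω * N) : CI H) := by
    refine ci_ext fun z hz => ?_
    rw [ex_rsmul, ex_smul, ex_smul]
    push_cast
    ring
  have e3 : a • (0 : CI H) = 0 := ci_ext fun z _ => by rw [ex_rsmul, ex_zero, mul_zero]
  simp only [pu, vx, Prod.smul_mk]
  rw [e1, e2, smul_comm |ω * n| a, e3]

private theorem phd_tr_le {m a : ℝ} (x : Xn H) :
    ‖tr m a x‖ ≤ a ^ 2 * (2 * ‖(kap m 1 : CI H)‖ + ‖(kap1 m 1 : CI H)‖) * ‖x‖ := by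
  have h1 : ‖x.2.2.2‖ ≤ ‖x‖ := (norm_snd_le _).trans ((norm_snd_le _).trans (norm_snd_le _))
  have h2 : ‖x.2.1‖ ≤ ‖x‖ := (norm_fst_le _).trans (norm_snd_le _)
  have h3 : ‖x.2.2.1‖ ≤ ‖x‖ := (norm_fst_le _).trans ((norm_snd_le _).trans (norm_snd_le _))
  have k1 : ‖(kap m a : CI H)‖ = a ^ 2 * ‖(kap m 1 : CI H)‖ := by
    rw [phd_kap m a, norm_smul, Real.norm_eq_abs, abs_of_nonneg (sq_nonneg a)]
  have k2 : ‖(kap1 m a : CI H)‖ = a ^ 2 * ‖(kap1 m 1 : CI H)‖ := by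
    rw [phd_kap1 m a, norm_smul, Real.norm_eq_abs, abs_of_nonneg (sq_nonneg a)]
  have m1 : ‖kap m a * x.2.2.2‖ ≤ a ^ 2 * ‖(kap m 1 : CI H)‖ * ‖x‖ := by
    refine (norm_mul_le _ _).trans ?_
    rw [k1]
    exact mul_le_mul_of_nonneg_left h1 (by positivity)
  have m2 : ‖kap1 m a * x.2.1‖ ≤ a ^ 2 * ‖(kap1 m 1 : CI H)‖ * ‖x‖ := by
    refine (norm_mul_le _ _).trans ?_
    rw [k2]
    exact mul_le_mul_of_nonneg_left h2 (by positivity)
  have m3 : ‖kap m a * x.2.2.1‖ ≤ a ^ 2 * ‖(kap m 1 : CI H)‖ * ‖x‖ := by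
    refine (norm_mul_le _ _).trans ?_
    rw [k1]
    exact mul_le_mul_of_nonneg_left h3 (by positivity)
  have := norm_sub_le (kap m a * x.2.2.2 - kap1 m a * x.2.1) (kap m a * x.2.2.1)
  have := norm_sub_le (kap m a * x.2.2.2) (kap1 m a * x.2.1)
  unfold tr
  nlinarith

/-- Uniform bound of the sources. -/
theorem phd_so {ω : ℝ} (hω : 0 < ω) {N : ℕ} (hN : 1 ≤ N) (R X : ℝ) (hX : 0 ≤ X) :
    ∃ C, ∀ (a : ℝ) (x : L1 (Xn H)), |a| ≤ R → ‖x‖ ≤ X →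
    (∀ n : ℤ, Cm (ω * n) (ex (pu ω N a n : Xn H).2.1 0) (x n)) →
    (Summable fun n => ‖so ω N a x n‖) ∧ ∑' n, ‖so ω N a x n‖ ≤ C := by
  have hH0 := hH.out
  set P : ℝ := ∑' n : ℤ, ‖(pu ω N 1 n : Xn H)‖ with hP
  set K : ℝ := 2 * ‖(kap (ω * N) 1 : CI H)‖ + ‖(kap1 (ω * N) 1 : CI H)‖ with hK
  have hP0 : 0 ≤ P := tsum_nonneg fun n => norm_nonneg _
  have hK0 : 0 ≤ K := by positivity
  refine ⟨(2 * H + 4) * (((H + 2) * X + X + R * P) * X) + R ^ 2 * K * X, ?_⟩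
  intro a x ha hx hc
  have hR : 0 ≤ R := (abs_nonneg a).trans ha
  have hs := (VF_tv hω hN hc).s
  set T : L1 (Xn H) := mkL1 (tv ω N a x) hs with hT
  have hov := (VF_ov (ω := ω) (x := x)).s
  have hiv := (VF_iv hc).s
  have hpu := (VF_pu (H := H) a hω hN).s
  have b1 : ∑' n, ‖ov ω x n‖ ≤ (H + 2) * ‖x‖ := by
    rw [l1_norm, ← tsum_mul_left]
    refine hov.tsum_le_tsum (fun n => ?_) ((l1_summable x).mul_left (H + 2))
    have h0 : ‖(x n).1.1‖ ≤ ‖x n‖ := (norm_fst_le (x n).1).trans (norm_fst_le (x n))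
    have h1 := norm_Top_le (ω * n) (x n).1.1
    have h2 := norm_kTop_le (ω * n) (x n).1.1
    have h3 : ‖|ω * n| • Top (ω * n) (x n).1.1‖ ≤ ‖(x n).1.1‖ := by
      rw [norm_smul, Real.norm_eq_abs, abs_abs]
      exact h2
    have hx := norm_nonneg (x n)
    have a1 : ‖Top (ω * n) (x n).1.1‖ ≤ (H + 2) * ‖x n‖ := by
      have := mul_le_mul_of_nonneg_left h0 hH0.le
      nlinarith
    have a2 : ‖|ω * n| • Top (ω * n) (x n).1.1 - (x n).1.1‖ ≤ (H + 2) * ‖x n‖ := by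
      have := norm_sub_le (|ω * n| • Top (ω * n) (x n).1.1) (x n).1.1
      nlinarith
    have a3 : ‖|ω * n| • Top (ω * n) (x n).1.1‖ ≤ (H + 2) * ‖x n‖ := by nlinarith
    have a0 : (0 : ℝ) ≤ (H + 2) * ‖x n‖ := by positivity
    show ‖(((0, 0, 0), (Top (ω * n) (x n).1.1, |ω * n| • Top (ω * n) (x n).1.1 - (x n).1.1,
      |ω * n| • Top (ω * n) (x n).1.1)) : Xn H)‖ ≤ _
    refine max_le ?_ (max_le a1 (max_le a2 a3))
    have : ‖((0, 0, 0) : CI H × CI H × CI H)‖ = 0 := norm_zero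
    exact this.le.trans a0
  have b2 : ∑' n, ‖iv x n‖ ≤ ‖x‖ := by
    rw [l1_norm]
    refine hiv.tsum_le_tsum (fun n => ?_) (l1_summable x)
    show ‖(((0, 0, 0), (x n).2) : Xn H)‖ ≤ _
    refine max_le ?_ (norm_snd_le (x n))
    have : ‖((0, 0, 0) : CI H × CI H × CI H)‖ = 0 := norm_zero
    exact this.le.trans (norm_nonneg _)
  have b3 : ∑' n : ℤ, ‖(pu ω N a n : Xn H)‖ = |a| * P := by
    rw [hP, ← tsum_mul_left]
    refine tsum_congr fun n => ?_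
    rw [phd_pu ω N a n, norm_smul, Real.norm_eq_abs]
  have b4 : ‖T‖ ≤ (H + 2) * X + X + R * P := by
    rw [l1_norm]
    have e1 : ∑' n, ‖T n‖ ≤ ∑' n, (‖ov ω x n‖ + ‖iv x n‖ + ‖(pu ω N a n : Xn H)‖) := by
      refine hs.tsum_le_tsum (fun n => ?_) ((hov.add hiv).add hpu)
      exact (norm_add_le _ _).trans (add_le_add (norm_add_le _ _) le_rfl)
    rw [(hov.add hiv).tsum_add hpu, hov.tsum_add hiv, b3] at e1
    have e2 : (H + 2) * ‖x‖ ≤ (H + 2) * X := mul_le_mul_of_nonneg_left hx (by linarith)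
    have e3 : |a| * P ≤ R * P := mul_le_mul_of_nonneg_right ha hP0
    linarith
  have hN0 := wm_N0 ω T x
  have hN0' : (Summable fun n => ‖-N0 ω (tv ω N a x) x n‖) ∧
      ∑' n, ‖-N0 ω (tv ω N a x) x n‖ ≤ (2 * H + 4) * (((H + 2) * X + X + R * P) * X) := by
    simp only [norm_neg]
    refine ⟨hN0.1, hN0.2.trans ?_⟩
    refine mul_le_mul_of_nonneg_left ?_ (by linarith)
    exact mul_le_mul b4 hx (norm_nonneg _) ((norm_nonneg _).trans b4)
  have htr : (Summable fun n => ‖tr (ω * N) a (x n)‖) ∧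
      ∑' n, ‖tr (ω * N) a (x n)‖ ≤ R ^ 2 * K * X := by
    have h := wm_sum_le (x := x) (a := fun n => tr (ω * N) a (x n)) (c := a ^ 2 * K)
      (fun n => phd_tr_le (x n))
    refine ⟨h.1, h.2.trans ?_⟩
    have h2 : a ^ 2 ≤ R ^ 2 := by
      rw [← sq_abs a]
      exact pow_le_pow_left₀ (abs_nonneg a) ha 2
    exact mul_le_mul (mul_le_mul_of_nonneg_right h2 hK0) hx (norm_nonneg _)
      (mul_nonneg (sq_nonneg R) hK0)
  exact wm_add_sum hN0' htr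

/-- Bounds and boundary values of the Fourier coefficients. -/
private theorem phd_hc (ω : ℝ) {ψ : ℝ → ℝ → ℝ} (hψ : C0P H ψ) : ∃ C, 0 ≤ C ∧ ∀ n : ℤ,
    ‖hc ω ψ hψ n‖ ≤ C := by
  have hH0 := hH.out
  have hK : IsCompact (Icc (-H) H ×ˢ Icc (0:ℝ) H) := isCompact_Icc.prod isCompact_Icc
  obtain ⟨M, hM⟩ := hK.exists_bound_of_continuousOn
    (hψ.c.mono (prod_mono (subset_univ _) Subset.rfl))
  have hM0 : 0 ≤ M := (norm_nonneg _).trans (hM (0, 0) ⟨⟨by linarith, hH0.le⟩, ⟨le_rfl, hH0.le⟩⟩)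
  refine ⟨M * (2 * H), by positivity, fun n => ci_norm_le (by positivity) fun z hz => ?_⟩
  unfold hc
  rw [ex_mkCI _ hz]
  have h := intervalIntegral.norm_integral_le_of_norm_le_const (a := -H) (b := H) (C := M)
    (f := fun y => ((ψ y z : ℝ) : ℂ) * ee ω n y) (fun y hy => by
      rw [uIoc_of_le (by linarith)] at hy
      rw [norm_mul, ee_norm, mul_one, Complex.norm_real]
      exact hM (y, z) ⟨⟨hy.1.le, hy.2⟩, hz⟩)
  refine h.trans (le_of_eq ?_)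
  rw [abs_of_nonneg (by linarith)]
  ring

private theorem phd_hc_zero (ω : ℝ) {ψ : ℝ → ℝ → ℝ} (hψ : C0P H ψ) {z : ℝ} (hz : z ∈ Icc (0:ℝ) H)
    (h : ∀ y, ψ y z = 0) (n : ℤ) : ex (hc ω ψ hψ n) z = 0 := by
  unfold hc
  rw [ex_mkCI _ hz]
  simp [h]

theorem weak_cell {ω : ℝ} (hω : ω * H = Real.pi) {N : ℕ} {A A1 : ℝ → ℝ} {a b : ℝ} {x : ℝ → L1 (Xn H)}
    (hN : 1 ≤ N) (h : CS ω N A A1 a b x) {ψ ψy ψz : ℝ → ℝ → ℝ} (hψ : C1P H ψ ψy ψz)
    (h0 : ∀ y, ψ y 0 = 0) (h1 : ∀ y, ψ y H = 0) : ∀ t1 ∈ Icc a b, ∀ t2 ∈ Icc t1 b,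
    IQ H (fun y z => (oO ω (x t2) y z - oO ω (x t1) y z) * ψ y z) =
      ∫ t in t1..t2, IQ H (fun y z => -(oOy ω (x t) y z * ψy y z + oOz ω (x t) y z * ψz y z) +
        fld ω (so ω N (A t) (x t)) y z * ψ y z) := by
  intro t1 ht1 t2 ht2
  have hH0 := hH.out
  have hω0 : 0 < ω := by
    by_contra hneg
    have : ω * H ≤ 0 := mul_nonpos_of_nonpos_of_nonneg (not_lt.1 hneg) hH0.le
    linarith [Real.pi_pos]
  have hab : a ≤ b := ht1.1.trans ht1.2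
  have ht2' : t2 ∈ Icc a b := ⟨ht1.1.trans ht2.1, ht2.2⟩
  -- bounds
  obtain ⟨X, hX⟩ := isCompact_Icc.exists_bound_of_continuousOn h.c
  obtain ⟨R, hR⟩ := isCompact_Icc.exists_bound_of_continuousOn h.cA
  have hX0 : 0 ≤ X := (norm_nonneg _).trans (hX t1 ht1)
  obtain ⟨Cs, hCs⟩ := phd_so (H := H) hω0 hN R X hX0
  have hso : ∀ t ∈ Icc a b, (Summable fun n => ‖so ω N (A t) (x t) n‖) ∧
      ∑' n, ‖so ω N (A t) (x t) n‖ ≤ Cs := fun t ht => hCs (A t) (x t) (hR t ht) (hX t ht) (h.cm t ht)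
  obtain ⟨C0, hC0, bC0⟩ := phd_hc (H := H) ω hψ.c
  obtain ⟨Cy, hCy, bCy⟩ := phd_hc (H := H) ω hψ.cy
  obtain ⟨Cz, hCz, bCz⟩ := phd_hc (H := H) ω hψ.cz
  -- one mode
  set J : ℤ → ℝ → ℂ := fun n t => -bpJ (m1z (x t) n) (hc ω ψz hψ.cz n) -
    (((ω * n) ^ 2 : ℝ) : ℂ) * bpJ (m1 (x t) n) (hc ω ψ hψ.c n) +
    bpJ (so ω N (A t) (x t) n) (hc ω ψ hψ.c n) with hJ
  have hJ' : ∀ n t, (hJc : t ∈ Icc a b) → J n t = -bpJ (m1z (x t) n) (hc ω ψz hψ.cz n) -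
      bpJ (m1y ω (x t) n) (hc ω ψy hψ.cy n) + bpJ (so ω N (A t) (x t) n) (hc ω ψ hψ.c n) := by
    intro n t ht
    have e1 : m1y ω (x t) n = (Complex.I * ((ω * n : ℝ) : ℂ)) • m1 (x t) n := by
      unfold m1y m1
      rw [(h.cm t ht n).e1, ← bp_is_mul_abs]
      refine ci_ext fun z _ => ?_
      rw [ex_smul, ex_rsmul, ex_smul]
      ring
    rw [hJ, e1, (hc_der hω hψ n).2, bpJ_smul_left, hec_smul_right]
    have e2 : (Complex.I * ((ω * n : ℝ) : ℂ)) * (-(Complex.I * ((ω * n : ℝ) : ℂ)) *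
        bpJ (m1 (x t) n) (hc ω ψ hψ.c n)) = (((ω * n) ^ 2 : ℝ) : ℂ) *
          bpJ (m1 (x t) n) (hc ω ψ hψ.c n) := by
      push_cast
      linear_combination (-(((ω : ℂ) * (n : ℂ)) ^ 2 * bpJ (m1 (x t) n) (hc ω ψ hψ.c n))) *
        Complex.I_sq
    rw [e2]
  have hder : ∀ n, ∀ t ∈ Icc a b, HasDerivWithinAt (fun t => (bpJ (m1 (x t) n) (hc ω ψ hψ.c n)).re)
      (J n t).re (Icc a b) t := by
    intro n t ht
    have h2 := phd_test (h.eo n) (hc_der hω hψ n).1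
      (phd_hc_zero ω hψ.c ⟨le_rfl, hH0.le⟩ h0 n) (phd_hc_zero ω hψ.c ⟨hH0.le, le_rfl⟩ h1 n) t ht
    exact Complex.reCLM.hasFDerivAt.comp_hasDerivWithinAt t h2
  have hcont : ∀ n, ContinuousOn (fun t => (J n t).re) (Icc a b) := by
    intro n
    refine Complex.continuous_re.comp_continuousOn ?_
    exact (((phd_contJ (h.eo n).cf1 _).neg).sub (continuousOn_const.mul (phd_contJ (h.eo n).cf _))).add
      (phd_contJ (h.eo n).cG _)
  -- summability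
  have s1 : ∀ t, Summable fun n => ‖m1 (x t) n‖ := fun t => (wm_sum_le (wm_m1_le (x t))).1
  have s1y : ∀ t, Summable fun n => ‖m1y ω (x t) n‖ := fun t => (wm_sum_le (wm_m1y_le ω (x t))).1
  have s1z : ∀ t, Summable fun n => ‖m1z (x t) n‖ := fun t => (wm_sum_le (wm_m1z_le (x t))).1
  have pr : ∀ {c : ℤ → CI H} {ξ : ℝ → ℝ → ℝ}, (Summable fun n => ‖c n‖) → ∀ hξ : C0P H ξ,
      IQ H (fun y z => fld ω c y z * ξ y z) = ∑' n, (bpJ (c n) (hc ω ξ hξ n)).re ∧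
      (Summable fun n => (bpJ (c n) (hc ω ξ hξ n)).re) := by
    intro c ξ hc' hξ
    obtain ⟨p1, p2⟩ := pair_fld (ω := ω) hc' hξ
    have p3 : Summable fun n => bpJ (c n) (hc ω ξ hξ n) := p1.of_norm
    refine ⟨?_, ?_⟩
    · rw [p2, Complex.re_tsum p3]
    · exact (Complex.hasSum_re p3.hasSum).summable
  have hsum : ∀ t ∈ Icc a b, Summable fun n => (bpJ (m1 (x t) n) (hc ω ψ hψ.c n)).re := fun t _ =>
    (pr (s1 t) hψ.c).2
  have hbd : ∀ t ∈ Icc a b, (Summable fun n => |(J n t).re|) ∧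
      ∑' n, |(J n t).re| ≤ H * (Cz + Cy) * X + H * C0 * Cs := by
    intro t ht
    have hle : ∀ n, |(J n t).re| ≤ H * (Cz + Cy) * ‖x t n‖ + H * C0 * ‖so ω N (A t) (x t) n‖ := by
      intro n
      refine (Complex.abs_re_le_norm _).trans ?_
      rw [hJ' n t ht]
      have q1 : ‖bpJ (m1z (x t) n) (hc ω ψz hψ.cz n)‖ ≤ H * Cz * ‖x t n‖ := by
        refine (hec_bpJ_le _ _).trans ?_
        have := wm_m1z_le (x t) n
        rw [one_mul] at this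
        have h3 := mul_le_mul this (bCz n) (norm_nonneg _) (norm_nonneg _)
        nlinarith
      have q2 : ‖bpJ (m1y ω (x t) n) (hc ω ψy hψ.cy n)‖ ≤ H * Cy * ‖x t n‖ := by
        refine (hec_bpJ_le _ _).trans ?_
        have := wm_m1y_le ω (x t) n
        rw [one_mul] at this
        have h3 := mul_le_mul this (bCy n) (norm_nonneg _) (norm_nonneg _)
        nlinarith
      have q3 : ‖bpJ (so ω N (A t) (x t) n) (hc ω ψ hψ.c n)‖ ≤
          H * C0 * ‖so ω N (A t) (x t) n‖ := by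
        refine (hec_bpJ_le _ _).trans ?_
        have h3 := mul_le_mul_of_nonneg_left (bC0 n) (norm_nonneg (so ω N (A t) (x t) n))
        nlinarith
      have r1 := norm_add_le (-bpJ (m1z (x t) n) (hc ω ψz hψ.cz n) -
        bpJ (m1y ω (x t) n) (hc ω ψy hψ.cy n)) (bpJ (so ω N (A t) (x t) n) (hc ω ψ hψ.c n))
      have r2 := norm_sub_le (-bpJ (m1z (x t) n) (hc ω ψz hψ.cz n))
        (bpJ (m1y ω (x t) n) (hc ω ψy hψ.cy n))
      rw [norm_neg] at r2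
      linarith
    have hS := ((l1_summable (x t)).mul_left (H * (Cz + Cy))).add
      ((hso t ht).1.mul_left (H * C0))
    have h3 : Summable fun n => |(J n t).re| := Summable.of_nonneg_of_le (fun n => abs_nonneg _) hle hS
    refine ⟨h3, (h3.tsum_le_tsum hle hS).trans ?_⟩
    rw [((l1_summable (x t)).mul_left (H * (Cz + Cy))).tsum_add ((hso t ht).1.mul_left (H * C0)),
      tsum_mul_left, tsum_mul_left, ← l1_norm]
    have k1 := mul_le_mul_of_nonneg_left (hX t ht) (show 0 ≤ H * (Cz + Cy) by positivity)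
    have k2 := mul_le_mul_of_nonneg_left (hso t ht).2 (show 0 ≤ H * C0 by positivity)
    linarith
  have key := (sum_ftc hab hder hcont hsum hbd).2 t1 ht1 t2 ht2
  -- the left side
  have cψ := hψ.c
  have fc : ∀ {c : ℤ → CI H}, (Summable fun n => ‖c n‖) → C0P H (fld ω c) := fun hc => fld_C0P hω hc
  have eL : IQ H (fun y z => (oO ω (x t2) y z - oO ω (x t1) y z) * ψ y z) =
      (∑' n, (bpJ (m1 (x t2) n) (hc ω ψ hψ.c n)).re) -
        ∑' n, (bpJ (m1 (x t1) n) (hc ω ψ hψ.c n)).re := by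
    rw [← (pr (s1 t2) hψ.c).1, ← (pr (s1 t1) hψ.c).1,
      ← IQ_sub ((fc (s1 t2)).mul cψ) ((fc (s1 t1)).mul cψ)]
    refine IQ_congr fun y z _ => ?_
    unfold oO
    ring
  have eR : ∀ t ∈ Icc a b, IQ H (fun y z => -(oOy ω (x t) y z * ψy y z + oOz ω (x t) y z * ψz y z) +
        fld ω (so ω N (A t) (x t)) y z * ψ y z) = ∑' n, (J n t).re := by
    intro t ht
    obtain ⟨y1, y2⟩ := pr (s1y t) hψ.cy
    obtain ⟨z1, z2⟩ := pr (s1z t) hψ.cz
    obtain ⟨w1, w2⟩ := pr (hso t ht).1 hψ.c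
    have e1 : ∀ n, (J n t).re = (bpJ (so ω N (A t) (x t) n) (hc ω ψ hψ.c n)).re -
        ((bpJ (m1y ω (x t) n) (hc ω ψy hψ.cy n)).re + (bpJ (m1z (x t) n) (hc ω ψz hψ.cz n)).re) := by
      intro n
      rw [hJ' n t ht, Complex.add_re, Complex.sub_re, Complex.neg_re]
      ring
    simp_rw [e1]
    rw [w2.tsum_sub (y2.add z2), y2.tsum_add z2, ← y1, ← z1, ← w1,
      ← IQ_add ((fc (s1y t)).mul hψ.cy) ((fc (s1z t)).mul hψ.cz),
      ← IQ_sub ((fc (hso t ht).1).mul cψ) (((fc (s1y t)).mul hψ.cy).add ((fc (s1z t)).mul hψ.cz))]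
    refine IQ_congr fun y z _ => ?_
    unfold oOy oOz
    ring
  rw [eL, key]
  refine intervalIntegral.integral_congr fun t ht => ?_
  rw [uIcc_of_le ht2.1] at ht
  exact (eR t ⟨ht1.1.trans ht.1, ht.2.trans ht2.2⟩).symm

end

end Pool.Agent.Lib.MP_79abb3_an.FW
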