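import Pool.Agent.Lib.MP_79abb3_an.FW.PhCa
import Pool.Agent.Lib.MP_79abb3_an.FW.PhCb
import Pool.Agent.Lib.MP_79abb3_an.FW.PhD

/-!
FW-35: weighted enstrophy identity.
-/

set_option autoImplicit false
set_option linter.unusedSectionVars false

open MeasureTheory Set Filter Topology Function

namespace Pool.Agent.Lib.MP_79abb3_an.FW

open Pool.Agent.Lib.MP_79abb3_an.P25

section
variable {H : ℝ} [hH : Fact (0 < H)]

/-! ### Integrals depending on parameters -/

private theorem IQ_param {P : Type} [TopologicalSpace P] [FirstCountableTopology P]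
    {F : P → ℝ → ℝ → ℝ}
    (hF : ContinuousOn (fun q : P × ℝ × ℝ => F q.1 q.2.1 q.2.2) (univ ×ˢ (univ ×ˢ Icc 0 H))) :
    Continuous fun p => IQ H (F p) := by
  have hH0 := hH.out
  have h1 : ∀ p, IQ H (F p) = IQ H (fun y z => F p y ((projIcc 0 H hH0.le z : Icc 0 H) : ℝ)) :=
    fun p => IQ_congr fun y z hz => by rw [projIcc_of_mem _ hz]
  simp only [h1]
  unfold IQ
  have h2 : Continuous (fun q : P × ℝ × ℝ =>
      F q.1 q.2.1 ((projIcc 0 H hH0.le q.2.2 : Icc 0 H) : ℝ)) := by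
    refine hF.comp_continuous (f := fun q : P × ℝ × ℝ =>
      (q.1, q.2.1, ((projIcc 0 H hH0.le q.2.2 : Icc 0 H) : ℝ))) ?_ fun q =>
        ⟨mem_univ _, mem_univ _, (projIcc 0 H hH0.le q.2.2).2⟩
    exact continuous_fst.prodMk ((continuous_fst.comp continuous_snd).prodMk
      (continuous_subtype_val.comp (continuous_projIcc.comp (continuous_snd.comp continuous_snd))))
  refine intervalIntegral.continuous_parametric_intervalIntegral_of_continuous' ?_ _ _
  refine intervalIntegral.continuous_parametric_intervalIntegral_of_continuous'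
    (f := fun (q : P × ℝ) (y : ℝ) => F q.1 y ((projIcc 0 H hH0.le q.2 : Icc 0 H) : ℝ)) ?_ _ _
  exact h2.comp ((continuous_fst.comp continuous_fst).prodMk
    (continuous_snd.prodMk (continuous_snd.comp continuous_fst)))

private theorem IQ_paramOn {P : Type} [TopologicalSpace P] [FirstCountableTopology P] {K : Set P}
    {F : P → ℝ → ℝ → ℝ}
    (hF : ContinuousOn (fun q : P × ℝ × ℝ => F q.1 q.2.1 q.2.2) (K ×ˢ (univ ×ˢ Icc 0 H))) :
    ContinuousOn (fun p => IQ H (F p)) K := by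
  rw [continuousOn_iff_continuous_domRestrict]
  refine IQ_param (P := K) (F := fun p => F p.1) ?_
  refine hF.comp (f := fun q : K × ℝ × ℝ => ((q.1 : P), q.2)) ?_ fun q hq => ⟨q.1.2, hq.2⟩
  exact ((continuous_subtype_val.comp continuous_fst).prodMk continuous_snd).continuousOn

private theorem deriv_of_int {a b t : ℝ} (ht : t ∈ Icc a b) {e : ℝ → ℝ} {Φ : ℝ → ℝ → ℝ}
    (hc : ContinuousOn (fun p : ℝ × ℝ => Φ p.1 p.2) (Icc a b ×ˢ Icc a b))
    (he : ∀ s ∈ Icc a b, e s - e t = ∫ r in t..s, Φ r s) :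
    HasDerivWithinAt e (Φ t t) (Icc a b) t := by
  rw [hasDerivWithinAt_iff_isLittleO, Asymptotics.isLittleO_iff]
  intro ε hε
  have h1 := Metric.continuousWithinAt_iff.1 (hc (t, t) ⟨ht, ht⟩) ε hε
  obtain ⟨δ, hδ, h2⟩ := h1
  filter_upwards [self_mem_nhdsWithin, mem_nhdsWithin_of_mem_nhds (Metric.ball_mem_nhds t hδ)]
    with s hs hsd
  rw [he s hs]
  have hsub : uIcc t s ⊆ Icc a b := uIcc_subset_Icc ht hs
  have hci : ContinuousOn (fun r => Φ r s) (uIcc t s) := by
    refine hc.comp (f := fun r => (r, s)) (continuousOn_id.prodMk continuousOn_const) ?_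
    intro r hr
    exact ⟨hsub hr, hs⟩
  have h3 : (∫ r in t..s, Φ r s) - (s - t) • Φ t t = ∫ r in t..s, (Φ r s - Φ t t) := by
    rw [intervalIntegral.integral_sub hci.intervalIntegrable intervalIntegrable_const,
      intervalIntegral.integral_const]
  rw [h3, Real.norm_eq_abs (s - t)]
  refine intervalIntegral.norm_integral_le_of_norm_le_const fun r hr => ?_
  have hr' : r ∈ uIcc t s := uIoc_subset_uIcc hr
  have h4 : dist (r, s) (t, t) < δ := by
    rw [Prod.dist_eq, max_lt_iff]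
    refine ⟨?_, hsd⟩
    rw [Real.dist_eq]
    have h5 : |r - t| ≤ |s - t| := by
      have := abs_sub_left_of_mem_uIcc hr'
      exact this
    exact h5.trans_lt (by simpa [Real.dist_eq] using hsd)
  have := h2 (x := (r, s)) ⟨hsub hr', hs⟩ h4
  rw [Real.dist_eq] at this
  exact this.le

/-! ### Combinations in an abstract `L1` (fast instance search) -/

section
variable {E : Type} [NormedAddCommGroup E] [NormedSpace ℝ E]

private noncomputable def asm (x : L1 E) (a : ℝ) (y : L1 E) : L1 E := x + a • y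

private theorem asm_apply (x : L1 E) (a : ℝ) (y : L1 E) (n : ℤ) : asm x a y n = x n + a • y n := rfl

private theorem asm_cont {s : Set ℝ} {f : ℝ → L1 E} {a : ℝ → ℝ} (hf : ContinuousOn f s)
    (ha : ContinuousOn a s) (y : L1 E) : ContinuousOn (fun r => asm (f r) (a r) y) s :=
  hf.add (ha.smul continuousOn_const)

private noncomputable def ssm (a : ℝ) (x : L1 E) : L1 E := a ^ 2 • x

private theorem ssm_apply (a : ℝ) (x : L1 E) (n : ℤ) : ssm a x n = a ^ 2 • x n := rfl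

private theorem ssm_cont {s : Set ℝ} {f : ℝ → L1 E} {a : ℝ → ℝ} (hf : ContinuousOn f s)
    (ha : ContinuousOn a s) : ContinuousOn (fun r => ssm (a r) (f r)) s :=
  (ha.pow 2).smul hf

private theorem clm_cont {F : Type} [NormedAddCommGroup F] [NormedSpace ℝ F]
    (T : L1 E →L[ℝ] L1 F) {s : Set ℝ} {f : ℝ → L1 E} (hf : ContinuousOn f s) :
    ContinuousOn (fun r => T (f r)) s :=
  T.continuous.comp_continuousOn hf

private abbrev OL (E F : Type) [NormedAddCommGroup E] [NormedSpace ℝ E] [NormedAddCommGroup F]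
    [NormedSpace ℝ F] : Type := L1 E →L[ℝ] L1 F

private noncomputable def dL {F : Type} [NormedAddCommGroup F] [NormedSpace ℝ F]
    (A : ℤ → (E →ₗ[ℝ] F)) (C : ℝ) (hA : ∀ n x, ‖A n x‖ ≤ C * ‖x‖) : OL E F :=
  diagL (fun n => (A n).mkContinuous C (hA n)) C hA

end

/-! ### The fields in time -/

private noncomputable def m1T (H : ℝ) [Fact (0 < H)] : OL (Xn H) (CI H) :=
  dL (fun _ =>
    { toFun := fun x : Xn H => x.1.1
      map_add' := fun _ _ => rfl
      map_smul' := fun _ _ => rfl }) 1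
    (fun _ x => (n11 x).trans_eq (one_mul _).symm)

private noncomputable def m1zT (H : ℝ) [Fact (0 < H)] : OL (Xn H) (CI H) :=
  dL (fun _ =>
    { toFun := fun x : Xn H => x.1.2.1
      map_add' := fun _ _ => rfl
      map_smul' := fun _ _ => rfl }) 1
    (fun _ x => (n121 x).trans_eq (one_mul _).symm)

private noncomputable def m1yT (H : ℝ) [Fact (0 < H)] (ω : ℝ) : OL (Xn H) (CI H) :=
  dL (fun n : ℤ =>
    { toFun := fun x : Xn H => is (ω * n) • x.1.2.2
      map_add' := fun x y => by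
        show is (ω * n) • (x.1.2.2 + y.1.2.2) = is (ω * n) • x.1.2.2 + is (ω * n) • y.1.2.2
        refine ci_ext fun z _ => ?_
        simp only [ex_smul, ex_add]
        ring
      map_smul' := fun c x => by
        show is (ω * n) • (c • x.1.2.2) = c • (is (ω * n) • x.1.2.2)
        refine ci_ext fun z _ => ?_
        simp only [ex_smul, ex_rsmul]
        ring }) 1
    (fun _ x => ((norm_is_smul_le _ _).trans (n122 x)).trans_eq (one_mul _).symm)

private noncomputable def jvT (H : ℝ) [Fact (0 < H)] (ω : ℝ) : OL (Xn H) (Yn H) :=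
  dL (fun n : ℤ =>
    { toFun := fun x : Xn H => ((0, Top (ω * n) x.1.1 + x.2.1) : Yn H)
      map_add' := fun x y => by
        refine Prod.ext (zero_add _).symm ?_
        show Top (ω * n) (x.1.1 + y.1.1) + (x.2.1 + y.2.1) = _
        rw [map_add]
        show _ = (Top (ω * n) x.1.1 + x.2.1) + (Top (ω * n) y.1.1 + y.2.1)
        abel
      map_smul' := fun c x => by
        refine Prod.ext (show (0 : CI H) = c • (0 : CI H) from
          ci_ext fun z _ => by rw [ex_rsmul, ex_zero, mul_zero]) ?_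
        show Top (ω * n) (c • x.1.1) + c • x.2.1 = c • (Top (ω * n) x.1.1 + x.2.1)
        rw [Top_rsmul]
        refine ci_ext fun z _ => ?_
        simp only [ex_add, ex_rsmul]
        ring }) (H + 1) (by
    intro n x
    have hH0 : 0 < H := Fact.out
    have h1 := norm_Top_le (ω * n) x.1.1
    have h2 := n11 x
    have h3 := n21 x
    have h4 := norm_add_le (Top (ω * n) x.1.1) x.2.1
    have h5 := mul_le_mul_of_nonneg_left h2 hH0.le
    have h6 : (0:ℝ) ≤ (H + 1) * ‖x‖ := by positivity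
    refine max_le ?_ ?_
    · show ‖(0 : CI H)‖ ≤ _
      rw [norm_zero]
      exact h6
    · show ‖Top (ω * n) x.1.1 + x.2.1‖ ≤ _
      linarith)

private theorem summ_jpu {ω : ℝ} (hω : 0 < ω) {N : ℕ} (hN : 1 ≤ N) :
    Summable fun n : ℤ => ‖jn (pu ω N 1 n : Xn H)‖ := by
  refine Summable.of_nonneg_of_le (fun n => norm_nonneg _) (fun n => ?_) (VF_pu (H := H) 1 hω hN).s
  have := norm_jnL_le (pu ω N 1 n : Xn H)
  rwa [one_mul] at this

private theorem jn_pu_smul (ω : ℝ) (N : ℕ) (a : ℝ) (n : ℤ) :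
    jn (pu ω N a n : Xn H) = a • jn (pu ω N 1 n : Xn H) := by
  refine Prod.ext (show (0 : CI H) = a • (0 : CI H) from
    ci_ext fun z _ => by rw [ex_rsmul, ex_zero, mul_zero]) ?_
  show (Complex.I * ((a / 2 * sN N n : ℝ) : ℂ)) • (fexp (ω * N) : CI H) =
    a • ((Complex.I * ((1 / 2 * sN N n : ℝ) : ℂ)) • (fexp (ω * N) : CI H))
  refine ci_ext fun z _ => ?_
  simp only [ex_smul, ex_rsmul]
  push_cast
  ring

private noncomputable def vvT (H : ℝ) [Fact (0 < H)] (ω : ℝ) : OL (Yn H) (CI H) :=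
  diagL (fun n : ℤ => vvL H (ω * n)) (H + 2) (fun n y => norm_vv_le (ω * n) y)

private noncomputable def omT (H : ℝ) [Fact (0 < H)] (ω : ℝ) : OL (Yn H) (CI H) :=
  diagL (fun n : ℤ => omL H (ω * n)) (H + 1) (fun n y => norm_om_le (ω * n) y)

private theorem jn_tv (ω : ℝ) (N : ℕ) (a : ℝ) (x : L1 (Xn H)) (n : ℤ) :
    jn (tv ω N a x n) = jvT H ω x n + a • jn (pu ω N 1 n : Xn H) := by
  rw [← jn_pu_smul]
  have h1 : jvT H ω x n = (0, Top (ω * n) (x n).1.1 + (x n).2.1) := rfl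
  rw [h1]
  refine Prod.ext ?_ rfl
  show (0 : CI H) + 0 + 0 = 0 + 0
  simp

/-- `κ_1`-part of the transfer term. -/
private noncomputable def trT (H : ℝ) [Fact (0 < H)] (m : ℝ) : OL (Xn H) (CI H) :=
  dL (fun _ : ℤ =>
    { toFun := fun x : Xn H => tr m 1 x
      map_add' := fun x y => by
        refine ci_ext fun z _ => ?_
        show ex (kap m 1 * (x.2.2.2 + y.2.2.2) - kap1 m 1 * (x.2.1 + y.2.1) -
          kap m 1 * (x.2.2.1 + y.2.2.1)) z = _
        simp only [tr, ex_add, ex_sub, ex_mul]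
        ring
      map_smul' := fun c x => by
        refine ci_ext fun z _ => ?_
        show ex (kap m 1 * (c • x.2.2.2) - kap1 m 1 * (c • x.2.1) -
          kap m 1 * (c • x.2.2.1)) z = ex (c • tr m 1 x) z
        simp only [tr, ex_sub, ex_mul, ex_rsmul]
        ring }) (‖(kap m 1 : CI H)‖ + ‖(kap1 m 1 : CI H)‖ + ‖(kap m 1 : CI H)‖) (by
    intro _ x
    have h1 := n222 x
    have h2 := n21 x
    have h3 := n221 x
    have e1 : ‖(kap m 1 : CI H) * x.2.2.2‖ ≤ ‖(kap m 1 : CI H)‖ * ‖x‖ :=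
      (norm_mul_le _ _).trans (mul_le_mul_of_nonneg_left h1 (norm_nonneg _))
    have e2 : ‖(kap1 m 1 : CI H) * x.2.1‖ ≤ ‖(kap1 m 1 : CI H)‖ * ‖x‖ :=
      (norm_mul_le _ _).trans (mul_le_mul_of_nonneg_left h2 (norm_nonneg _))
    have e3 : ‖(kap m 1 : CI H) * x.2.2.1‖ ≤ ‖(kap m 1 : CI H)‖ * ‖x‖ :=
      (norm_mul_le _ _).trans (mul_le_mul_of_nonneg_left h3 (norm_nonneg _))
    have e4 := norm_sub_le ((kap m 1 : CI H) * x.2.2.2 - kap1 m 1 * x.2.1) (kap m 1 * x.2.2.1)
    have e5 := norm_sub_le ((kap m 1 : CI H) * x.2.2.2) (kap1 m 1 * x.2.1)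
    show ‖tr m 1 x‖ ≤ _
    unfold tr
    linarith)

private theorem tr_scale (m a : ℝ) (x : Xn H) : tr m a x = a ^ 2 • tr m 1 x := by
  refine ci_ext fun z hz => ?_
  simp only [tr, ex_sub, ex_mul, ex_rsmul, kap, kap1, ex_rc _ _ hz]
  push_cast
  ring

private theorem f_oO (ω : ℝ) (x : L1 (Xn H)) : oO ω x = fld ω (m1T H x) := rfl
private theorem f_oOy (ω : ℝ) (x : L1 (Xn H)) : oOy ω x = fld ω (m1yT H ω x) := rfl
private theorem f_oOz (ω : ℝ) (x : L1 (Xn H)) : oOz ω x = fld ω (m1zT H x) := rfl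

private noncomputable def jpL (H : ℝ) [Fact (0 < H)] {ω : ℝ} (hω : 0 < ω) {N : ℕ} (hN : 1 ≤ N) :
    L1 (Yn H) :=
  mkL1 (fun n : ℤ => jn (pu ω N 1 n : Xn H)) (summ_jpu hω hN)

private theorem jn_tvL {ω : ℝ} (hω : 0 < ω) {N : ℕ} (hN : 1 ≤ N) (a : ℝ) (x : L1 (Xn H)) (n : ℤ) :
    asm (jvT H ω x) a (jpL H hω hN) n = jn (tv ω N a x n) :=
  (asm_apply _ _ _ _).trans (jn_tv ω N a x n).symm

private theorem f_uV {ω : ℝ} (hω : 0 < ω) {N : ℕ} (hN : 1 ≤ N) (a : ℝ) (x : L1 (Xn H)) :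
    uV ω (tv ω N a x) = fld ω (vvT H ω (asm (jvT H ω x) a (jpL H hω hN))) := by
  have h : fv ω (tv ω N a x) = vvT H ω (asm (jvT H ω x) a (jpL H hω hN)) := by
    funext n
    show vv (ω * n) (jn (tv ω N a x n)) = vv (ω * n) (asm (jvT H ω x) a (jpL H hω hN) n)
    rw [jn_tvL]
  rw [uV, h]

private theorem f_uW {ω : ℝ} (hω : 0 < ω) {N : ℕ} (hN : 1 ≤ N) (a : ℝ) (x : L1 (Xn H)) :
    uW ω (tv ω N a x) = fld ω (omT H ω (asm (jvT H ω x) a (jpL H hω hN))) := by
  have h : fw ω (tv ω N a x) = omT H ω (asm (jvT H ω x) a (jpL H hω hN)) := by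
    funext n
    show om (ω * n) (jn (tv ω N a x n)) = om (ω * n) (asm (jvT H ω x) a (jpL H hω hN) n)
    rw [jn_tvL]
  rw [uW, h]

private theorem f_tr (ω : ℝ) (N : ℕ) (a : ℝ) (x : L1 (Xn H)) :
    fld ω (trf ω N a x) = fld ω (ssm a (trT H (ω * N) x)) := by
  have h : trf ω N a x = (ssm a (trT H (ω * N) x) : L1 (CI H)) := by
    funext n
    exact (tr_scale _ _ _).trans (ssm_apply a (trT H (ω * N) x) n).symm
  rw [h]

/-- the source in physical space -/
private noncomputable def Sph (ω : ℝ) (N : ℕ) (a : ℝ) (x : L1 (Xn H)) (y z : ℝ) : ℝ :=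
  -(uV ω (tv ω N a x) y z * oOy ω x y z + uW ω (tv ω N a x) y z * oOz ω x y z) +
      fld ω (trf ω N a x) y z

private theorem pull_t {s : Set ℝ} {a : ℝ → L1 (CI H)} {ω : ℝ} (ha : ContinuousOn a s) {P : Type}
    [TopologicalSpace P] {K : Set P} {τ : P → ℝ} (hτ : Continuous τ) (hK : ∀ p ∈ K, τ p ∈ s) :
    ContinuousOn (fun q : P × ℝ × ℝ => fld ω (a (τ q.1)) q.2.1 q.2.2)
      (K ×ˢ (univ ×ˢ Icc 0 H)) := by
  refine (fld_cont_time (ω := ω) ha).comp (f := fun q : P × ℝ × ℝ => (τ q.1, q.2)) ?_ ?_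
  · exact ((hτ.comp continuous_fst).prodMk continuous_snd).continuousOn
  · rintro q ⟨h1, _⟩
    exact ⟨hK _ h1, mem_univ _⟩

private theorem pull_w {f : ℝ → ℝ → ℝ} (hf : C0P H f) {P : Type}
    [TopologicalSpace P] {K : Set P} :
    ContinuousOn (fun q : P × ℝ × ℝ => f q.2.1 q.2.2) (K ×ˢ (univ ×ˢ Icc 0 H)) := by
  refine hf.c.comp (f := fun q : P × ℝ × ℝ => q.2) continuous_snd.continuousOn ?_
  rintro q ⟨_, h2⟩
  exact h2

theorem enst_id {ω : ℝ} (hω : ω * H = Real.pi) {N : ℕ} {A A1 : ℝ → ℝ} {a b : ℝ} {x : ℝ → L1 (Xn H)}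
    (hN : 1 ≤ N) (h : CS ω N A A1 a b x) {g gy gz gyy gzz : ℝ → ℝ → ℝ} (hg : W2P H g gy gz gyy gzz) :
    ∀ t ∈ Icc a b, HasDerivWithinAt (fun t => IQ H (fun y z => g y z * oO ω (x t) y z ^ 2))
      (IQ H (fun y z => (gyy y z + gzz y z + uV ω (tv ω N (A t) (x t)) y z * gy y z +
          uW ω (tv ω N (A t) (x t)) y z * gz y z) * oO ω (x t) y z ^ 2) -
        2 * IQ H (fun y z => g y z * (oOy ω (x t) y z ^ 2 + oOz ω (x t) y z ^ 2)) +
        2 * IQ H (fun y z => fld ω (trf ω N (A t) (x t)) y z * (g y z * oO ω (x t) y z))) (Icc a b) t := by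
  intro t ht
  have hH0 := hH.out
  have hω0 : 0 < ω := by
    by_contra hc
    have := mul_nonpos_of_nonpos_of_nonneg (not_lt.1 hc) hH0.le
    rw [hω] at this
    exact absurd Real.pi_pos (not_lt.2 this)
  have hO : ∀ r ∈ Icc a b, C1P H (oO ω (x r)) (oOy ω (x r)) (oOz ω (x r)) ∧
      (∀ y, oO ω (x r) y 0 = 0) ∧ ∀ y, oO ω (x r) y H = 0 := fun r hr => oO_C1P hω (h.cm r hr)
  -- the bilinear form
  set Φ : ℝ → ℝ → ℝ := fun r s => IQ H (fun y z =>
    -(oOy ω (x r) y z * (gy y z * (oO ω (x s) y z + oO ω (x t) y z) +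
        g y z * (oOy ω (x s) y z + oOy ω (x t) y z)) +
      oOz ω (x r) y z * (gz y z * (oO ω (x s) y z + oO ω (x t) y z) +
        g y z * (oOz ω (x s) y z + oOz ω (x t) y z))) +
      Sph ω N (A r) (x r) y z * (g y z * (oO ω (x s) y z + oO ω (x t) y z))) with hΦ
  have hso : ∀ r ∈ Icc a b, ∀ y, ∀ z ∈ Icc 0 H, fld ω (so ω N (A r) (x r)) y z =
      Sph ω N (A r) (x r) y z := fun r hr y z hz =>
    (fld_so hω hN (h.cm r hr) (h.sy r hr) y hz).2.2
  have hcΦ : ContinuousOn (fun p : ℝ × ℝ => Φ p.1 p.2) (Icc a b ×ˢ Icc a b) := by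
    have k1 : ContinuousOn (fun r => m1T H (x r)) (Icc a b) := clm_cont (m1T H) h.c
    have k2 : ContinuousOn (fun r => m1yT H ω (x r)) (Icc a b) := clm_cont (m1yT H ω) h.c
    have k3 : ContinuousOn (fun r => m1zT H (x r)) (Icc a b) := clm_cont (m1zT H) h.c
    have k4 : ContinuousOn (fun r => asm (jvT H ω (x r)) (A r) (jpL H hω0 hN)) (Icc a b) :=
      asm_cont (clm_cont (jvT H ω) h.c) h.cA _
    have k5 : ContinuousOn (fun r => vvT H ω (asm (jvT H ω (x r)) (A r) (jpL H hω0 hN)))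
        (Icc a b) := clm_cont (vvT H ω) k4
    have k6 : ContinuousOn (fun r => omT H ω (asm (jvT H ω (x r)) (A r) (jpL H hω0 hN)))
        (Icc a b) := clm_cont (omT H ω) k4
    have k7 : ContinuousOn (fun r => ssm (A r) (trT H (ω * N) (x r))) (Icc a b) :=
      ssm_cont (clm_cont (trT H (ω * N)) h.c) h.cA
    have e1 := fun p (hp : p ∈ Icc a b ×ˢ Icc a b) => hp.1
    refine IQ_paramOn (P := ℝ × ℝ) ?_
    have t1 (ι : ℝ × ℝ → ℝ) (hι : Continuous ι) (hm : ∀ p ∈ Icc a b ×ˢ Icc a b, ι p ∈ Icc a b) :=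
      pull_t (ω := ω) k1 hι hm
    have t2 (ι : ℝ × ℝ → ℝ) (hι : Continuous ι) (hm : ∀ p ∈ Icc a b ×ˢ Icc a b, ι p ∈ Icc a b) :=
      pull_t (ω := ω) k2 hι hm
    have t3 (ι : ℝ × ℝ → ℝ) (hι : Continuous ι) (hm : ∀ p ∈ Icc a b ×ˢ Icc a b, ι p ∈ Icc a b) :=
      pull_t (ω := ω) k3 hι hm
    have c1 : Continuous (fun p : ℝ × ℝ => p.1) := continuous_fst
    have c2 : Continuous (fun p : ℝ × ℝ => p.2) := continuous_snd
    have c3 : Continuous (fun _ : ℝ × ℝ => t) := continuous_const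
    have m1 : ∀ p ∈ Icc a b ×ˢ Icc a b, (fun p : ℝ × ℝ => p.1) p ∈ Icc a b := fun p hp => hp.1
    have m2 : ∀ p ∈ Icc a b ×ˢ Icc a b, (fun p : ℝ × ℝ => p.2) p ∈ Icc a b := fun p hp => hp.2
    have m3 : ∀ p ∈ Icc a b ×ˢ Icc a b, (fun _ : ℝ × ℝ => t) p ∈ Icc a b := fun p _ => ht
    have w0 := pull_w hg.g1.c (P := ℝ × ℝ) (K := Icc a b ×ˢ Icc a b)
    have wy := pull_w hg.g1.cy (P := ℝ × ℝ) (K := Icc a b ×ˢ Icc a b)
    have wz := pull_w hg.g1.cz (P := ℝ × ℝ) (K := Icc a b ×ˢ Icc a b)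
    have v1 := pull_t (ω := ω) k5 c1 m1
    have v2 := pull_t (ω := ω) k6 c1 m1
    have v3 := pull_t (ω := ω) k7 c1 m1
    have O1 := (t1 _ c2 m2).add (t1 _ c3 m3)
    have Oy1 := (t2 _ c2 m2).add (t2 _ c3 m3)
    have Oz1 := (t3 _ c2 m2).add (t3 _ c3 m3)
    have Y := (t2 _ c1 m1).mul ((wy.mul O1).add (w0.mul Oy1))
    have Z := (t3 _ c1 m1).mul ((wz.mul O1).add (w0.mul Oz1))
    have S := ((v1.mul (t2 _ c1 m1)).add (v2.mul (t3 _ c1 m1))).neg.add v3
    have R := (Y.add Z).neg.add (S.mul (w0.mul O1))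
    refine R.congr fun q hq => ?_
    simp only [Sph, f_uV hω0 hN, f_uW hω0 hN, f_tr]
    rfl
  have he : ∀ s ∈ Icc a b, IQ H (fun y z => g y z * oO ω (x s) y z ^ 2) -
      IQ H (fun y z => g y z * oO ω (x t) y z ^ 2) = ∫ r in t..s, Φ r s := by
    intro s hs
    obtain ⟨hOs, hs0, hsH⟩ := hO s hs
    obtain ⟨hOt, ht0, htH⟩ := hO t ht
    have hψ := hg.g1.mul (hOs.add hOt)
    have z0 : ∀ y, g y 0 * (oO ω (x s) y 0 + oO ω (x t) y 0) = 0 := fun y => by
      rw [hs0, ht0]; ring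
    have z1 : ∀ y, g y H * (oO ω (x s) y H + oO ω (x t) y H) = 0 := fun y => by
      rw [hsH, htH]; ring
    have cΦ : ∀ r ∈ Icc a b, IQ H (fun y z =>
        -(oOy ω (x r) y z * (gy y z * (oO ω (x s) y z + oO ω (x t) y z) +
            g y z * (oOy ω (x s) y z + oOy ω (x t) y z)) +
          oOz ω (x r) y z * (gz y z * (oO ω (x s) y z + oO ω (x t) y z) +
            g y z * (oOz ω (x s) y z + oOz ω (x t) y z))) +
          fld ω (so ω N (A r) (x r)) y z * (g y z * (oO ω (x s) y z + oO ω (x t) y z))) =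
        Φ r s := by
      intro r hr
      refine IQ_congr fun y z hz => ?_
      rw [hso r hr y z hz]
    have hsq : ∀ r ∈ Icc a b, C0P H (fun y z => g y z * oO ω (x r) y z ^ 2) := fun r hr =>
      hg.g1.c.mul ((hO r hr).1.c.pow 2)
    rcases le_total t s with hts | hst
    · have h1 := weak_cell hω hN h hψ z0 z1 t ht s ⟨hts, hs.2⟩
      rw [← IQ_sub (hsq s hs) (hsq t ht)]
      have h2 : IQ H (fun y z => g y z * oO ω (x s) y z ^ 2 - g y z * oO ω (x t) y z ^ 2) =
          IQ H (fun y z => (oO ω (x s) y z - oO ω (x t) y z) *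
            (g y z * (oO ω (x s) y z + oO ω (x t) y z))) := IQ_congr fun y z _ => by ring
      rw [h2, h1]
      refine intervalIntegral.integral_congr fun r hr => ?_
      rw [uIcc_of_le hts] at hr
      exact cΦ r ⟨ht.1.trans hr.1, hr.2.trans hs.2⟩
    · have h1 := weak_cell hω hN h hψ z0 z1 s hs t ⟨hst, ht.2⟩
      rw [← IQ_sub (hsq s hs) (hsq t ht), intervalIntegral.integral_symm]
      have h2 : IQ H (fun y z => g y z * oO ω (x s) y z ^ 2 - g y z * oO ω (x t) y z ^ 2) =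
          -IQ H (fun y z => (oO ω (x t) y z - oO ω (x s) y z) *
            (g y z * (oO ω (x s) y z + oO ω (x t) y z))) := by
        have h3 := IQ_mul (H := H) (-1) (fun y z => (oO ω (x t) y z - oO ω (x s) y z) *
            (g y z * (oO ω (x s) y z + oO ω (x t) y z)))
        rw [neg_one_mul] at h3
        rw [← h3]
        exact IQ_congr fun y z _ => by ring
      rw [h2, h1]
      congr 1
      refine intervalIntegral.integral_congr fun r hr => ?_
      rw [uIcc_of_le hst] at hr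
      exact cΦ r ⟨hs.1.trans hr.1, hr.2.trans ht.2⟩
  have hmain := deriv_of_int ht hcΦ he
  -- identification of the derivative
  have hid : Φ t t = IQ H (fun y z => (gyy y z + gzz y z + uV ω (tv ω N (A t) (x t)) y z * gy y z +
          uW ω (tv ω N (A t) (x t)) y z * gz y z) * oO ω (x t) y z ^ 2) -
        2 * IQ H (fun y z => g y z * (oOy ω (x t) y z ^ 2 + oOz ω (x t) y z ^ 2)) +
        2 * IQ H (fun y z => fld ω (trf ω N (A t) (x t)) y z * (g y z * oO ω (x t) y z)) := by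
    obtain ⟨hOt, ht0, htH⟩ := hO t ht
    obtain ⟨vy, vz, wy, wz, hV, hW, hdiv⟩ := u_C1P hω (VF_tv hω0 hN (h.cm t ht))
    have hsum := (fld_so hω hN (h.cm t ht) (h.sy t ht) 0 (z := 0) ⟨le_rfl, hH0.le⟩).2.1
    have cT : C0P H (fld ω (trf ω N (A t) (x t))) := fld_C0P hω hsum
    set V := uV ω (tv ω N (A t) (x t)) with hVd
    set W := uW ω (tv ω N (A t) (x t)) with hWd
    set O := oO ω (x t) with hOd
    set Oy := oOy ω (x t) with hOyd
    set Oz := oOz ω (x t) with hOzd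
    set T := fld ω (trf ω N (A t) (x t)) with hTd
    -- the two divergences
    have cg := hg.g1.c
    have cgy := hg.g1.cy
    have cgz := hg.g1.cz
    have cO := hOt.c
    have d1 : IQ H (fun y z => gyy y z * O y z ^ 2 + gy y z * (2 * O y z * Oy y z) +
        (vy y z * (g y z * O y z ^ 2) + V y z * (gy y z * O y z ^ 2 +
          g y z * (2 * O y z * Oy y z)))) = 0 := by
      refine IQ_dy (f := fun y z => gy y z * O y z ^ 2 + V y z * (g y z * O y z ^ 2)) ?_ ?_ ?_
      · exact (cgy.mul (cO.pow 2)).add (hV.c.mul (cg.mul (cO.pow 2)))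
      · exact ((hg.cyy.mul (cO.pow 2)).add (cgy.mul (((C0P.const 2).mul cO).mul hOt.cy))).add
          ((hV.cy.mul (cg.mul (cO.pow 2))).add (hV.c.mul ((cgy.mul (cO.pow 2)).add
            (cg.mul (((C0P.const 2).mul cO).mul hOt.cy)))))
      · intro y z hz
        have a1 := hg.dyy y z hz
        have a2 := hOt.dy y z hz
        have a3 := hV.dy y z hz
        have a4 := hg.g1.dy y z hz
        have a5 := (a1.mul (a2.pow 2)).add (a3.mul (a4.mul (a2.pow 2)))
        refine (a5.congr_deriv ?_)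
        simp only [Nat.cast_ofNat, Pi.pow_apply]
        norm_num
    have d2 : IQ H (fun y z => gzz y z * O y z ^ 2 + gz y z * (2 * O y z * Oz y z) +
        (wz y z * (g y z * O y z ^ 2) + W y z * (gz y z * O y z ^ 2 +
          g y z * (2 * O y z * Oz y z)))) = 0 := by
      refine IQ_dz (f := fun y z => gz y z * O y z ^ 2 + W y z * (g y z * O y z ^ 2)) ?_ ?_ ?_ ?_ ?_
      · exact (cgz.mul (cO.pow 2)).add (hW.c.mul (cg.mul (cO.pow 2)))
      · exact ((hg.czz.mul (cO.pow 2)).add (cgz.mul (((C0P.const 2).mul cO).mul hOt.cz))).add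
          ((hW.cz.mul (cg.mul (cO.pow 2))).add (hW.c.mul ((cgz.mul (cO.pow 2)).add
            (cg.mul (((C0P.const 2).mul cO).mul hOt.cz)))))
      · intro y z hz
        have a1 := hg.dzz y z hz
        have a2 := hOt.dz y z hz
        have a3 := hW.dz y z hz
        have a4 := hg.g1.dz y z hz
        have a5 := (a1.mul (a2.pow 2)).add (a3.mul (a4.mul (a2.pow 2)))
        refine (a5.congr_deriv ?_)
        simp only [Nat.cast_ofNat, Pi.pow_apply]
        norm_num
      · intro y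
        rw [ht0]; ring
      · intro y
        rw [htH]; ring
    have c1 : C0P H (fun y z => (gyy y z + gzz y z + V y z * gy y z + W y z * gz y z) * O y z ^ 2) :=
      (((hg.cyy.add hg.czz).add (hV.c.mul cgy)).add (hW.c.mul cgz)).mul (cO.pow 2)
    have c2 : C0P H (fun y z => 2 * (g y z * (Oy y z ^ 2 + Oz y z ^ 2))) :=
      (C0P.const 2).mul (cg.mul ((hOt.cy.pow 2).add (hOt.cz.pow 2)))
    have c3 : C0P H (fun y z => 2 * (T y z * (g y z * O y z))) :=
      (C0P.const 2).mul (cT.mul (cg.mul cO))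
    have c4 : C0P H (fun y z => gyy y z * O y z ^ 2 + gy y z * (2 * O y z * Oy y z) +
        (vy y z * (g y z * O y z ^ 2) + V y z * (gy y z * O y z ^ 2 +
          g y z * (2 * O y z * Oy y z)))) :=
      ((hg.cyy.mul (cO.pow 2)).add (cgy.mul (((C0P.const 2).mul cO).mul hOt.cy))).add
          ((hV.cy.mul (cg.mul (cO.pow 2))).add (hV.c.mul ((cgy.mul (cO.pow 2)).add
            (cg.mul (((C0P.const 2).mul cO).mul hOt.cy)))))
    have c5 : C0P H (fun y z => gzz y z * O y z ^ 2 + gz y z * (2 * O y z * Oz y z) +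
        (wz y z * (g y z * O y z ^ 2) + W y z * (gz y z * O y z ^ 2 +
          g y z * (2 * O y z * Oz y z)))) :=
      ((hg.czz.mul (cO.pow 2)).add (cgz.mul (((C0P.const 2).mul cO).mul hOt.cz))).add
          ((hW.cz.mul (cg.mul (cO.pow 2))).add (hW.c.mul ((cgz.mul (cO.pow 2)).add
            (cg.mul (((C0P.const 2).mul cO).mul hOt.cz)))))
    rw [← IQ_mul, ← IQ_mul, ← IQ_sub c1 c2, ← IQ_add (c1.sub c2) c3]
    have key : Φ t t = IQ H (fun y z => (((gyy y z + gzz y z + V y z * gy y z + W y z * gz y z) *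
        O y z ^ 2 - 2 * (g y z * (Oy y z ^ 2 + Oz y z ^ 2))) + 2 * (T y z * (g y z * O y z))) -
        ((gyy y z * O y z ^ 2 + gy y z * (2 * O y z * Oy y z) +
        (vy y z * (g y z * O y z ^ 2) + V y z * (gy y z * O y z ^ 2 +
          g y z * (2 * O y z * Oy y z)))) + (gzz y z * O y z ^ 2 + gz y z * (2 * O y z * Oz y z) +
        (wz y z * (g y z * O y z ^ 2) + W y z * (gz y z * O y z ^ 2 +
          g y z * (2 * O y z * Oz y z)))))) := by
      rw [hΦ]
      refine IQ_congr fun y z hz => ?_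
      have hd := hdiv y z hz
      simp only [Sph, ← hVd, ← hWd, ← hOd, ← hOyd, ← hOzd, ← hTd]
      linear_combination (g y z * O y z ^ 2) * hd
    rw [key, IQ_sub ((c1.sub c2).add c3) (c4.add c5), IQ_add c4 c5, d1, d2]
    ring
  rw [hid] at hmain
  exact hmain

end

end Pool.Agent.Lib.MP_79abb3_an.FW
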