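import Pool.Agent.Lib.MP_79abb3_an.FW.NormsB
import Pool.Agent.Lib.MP_79abb3_an.FW.PhCc
import Pool.Agent.Lib.MP_79abb3_an.FW.PhE
import Pool.Agent.Lib.MP_79abb3_an.FW.SumsB

/-!
FW-36: enstrophy inequality (3.2) and estimate of the transfer term.
-/

set_option autoImplicit false
set_option linter.unusedSectionVars false

open MeasureTheory Set Filter Topology Function

namespace Pool.Agent.Lib.MP_79abb3_an.FW

open Pool.Agent.Lib.MP_79abb3_an.P25

section
variable {H : ℝ} [hH : Fact (0 < H)]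

private theorem phf_s11 (x : L1 (Xn H)) : Summable fun n => ‖(x n).1.1‖ :=
  Summable.of_nonneg_of_le (fun _ => norm_nonneg _)
    (fun n => (norm_fst_le (x n).1).trans (norm_fst_le (x n))) (l1_summable x)

private theorem phf_s121 (x : L1 (Xn H)) : Summable fun n => ‖(x n).1.2.1‖ :=
  Summable.of_nonneg_of_le (fun _ => norm_nonneg _)
    (fun n => (norm_fst_le (x n).1.2).trans ((norm_snd_le (x n).1).trans (norm_fst_le (x n))))
    (l1_summable x)

private theorem phf_s122 (x : L1 (Xn H)) : Summable fun n => ‖(x n).1.2.2‖ :=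
  Summable.of_nonneg_of_le (fun _ => norm_nonneg _)
    (fun n => (norm_snd_le (x n).1.2).trans ((norm_snd_le (x n).1).trans (norm_fst_le (x n))))
    (l1_summable x)

private theorem phf_s21 (x : L1 (Xn H)) : Summable fun n => ‖(x n).2.1‖ :=
  Summable.of_nonneg_of_le (fun _ => norm_nonneg _)
    (fun n => (norm_fst_le (x n).2).trans (norm_snd_le (x n))) (l1_summable x)

private theorem phf_s1y (ω : ℝ) (x : L1 (Xn H)) : Summable fun n => ‖m1y ω x n‖ :=
  Summable.of_nonneg_of_le (fun _ => norm_nonneg _)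
    (fun _ => norm_is_smul_le _ _) (phf_s122 x)

private theorem phf_skV (ω : ℝ) (N : ℕ) (a : ℝ) (x : L1 (Xn H)) :
    Summable fun n => ‖kV ω N a x n‖ :=
  Summable.of_nonneg_of_le (fun _ => norm_nonneg _)
    (fun _ => norm_mul_le _ _) ((phf_s21 x).mul_left _)

private theorem phf_skH (ω : ℝ) (N : ℕ) (a : ℝ) (x : L1 (Xn H)) :
    Summable fun n => ‖kH ω N a x n‖ := by
  refine Summable.of_nonneg_of_le (fun _ => norm_nonneg _) (fun n => ?_) (phf_skV ω N a x)
  show ‖-(is (ω * n) • (kap (ω * N) a * (x n).2.1))‖ ≤ _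
  rw [norm_neg]
  exact norm_is_smul_le _ _

/-- The key estimate. -/
private theorem phf_half {ω : ℝ} (hω : ω * H = Real.pi) {a b b1 : ℤ → CI H}
    (sa : Summable fun n => ‖a n‖) (sb : Summable fun n => ‖b n‖) (sb1 : Summable fun n => ‖b1 n‖)
    (ya : Sy a) (yb : Sy b) (yb1 : Sy b1) {S A B B1 : ℝ} {g g1 : ℝ → ℝ → ℝ} (hg : C0P H g)
    (hg1 : C0P H g1) {c : ℝ} (hc : ∀ y, ∀ z ∈ Icc 0 H, |g y z| ≤ c)
    {β : ℝ → ℝ} (cβ : Continuous β) (hβ : ∀ y, ∀ z ∈ Icc 0 H, |g1 y z| ≤ β z)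
    (hA : ∑' n, n2 (a n) ^ 2 ≤ A) (hS : ∑' n, n2 (rc β cβ * a n) ^ 2 ≤ S)
    (hB : ∑' n, n2 (b n) ^ 2 ≤ B) (hB1 : ∑' n, n2 (b1 n) ^ 2 ≤ B1) :
    |IQ H (fun y z => fld ω a y z * (g1 y z * fld ω b y z + g y z * fld ω b1 y z))| ≤
      2 * H * (c * √A * √B1 + √S * √B) := by
  have hH0 := hH.out
  have Fa := fld_C0P hω sa
  have Fb := fld_C0P hω sb
  have Fb1 := fld_C0P hω sb1
  have h0c : 0 ≤ c := (abs_nonneg _).trans (hc 0 0 ⟨le_rfl, hH0.le⟩)
  have e1 : IQ H (fun y z => fld ω a y z * (g1 y z * fld ω b y z + g y z * fld ω b1 y z)) =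
      IQ H (fun y z => (fld ω a y z * g1 y z) * fld ω b y z) +
      IQ H (fun y z => (fld ω a y z * g y z) * fld ω b1 y z) := by
    rw [← IQ_add ((Fa.mul hg1).mul Fb) ((Fa.mul hg).mul Fb1)]
    refine IQ_congr fun y z _ => ?_
    ring
  rw [e1]
  have Q1 := IQ_cs (Fa.mul hg1) Fb
  have Q2 := IQ_cs (Fa.mul hg) Fb1
  rw [parseval3 hω sb yb] at Q1
  rw [parseval3 hω sb1 yb1] at Q2
  have P1 : IQ H (fun y z => (fld ω a y z * g1 y z) ^ 2) ≤ 2 * H * S := by
    have cβ2 : Continuous fun z => β z ^ 2 := cβ.pow 2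
    have hm := parseval2 hω sa ya cβ2
    have h1 : IQ H (fun y z => (fld ω a y z * g1 y z) ^ 2) ≤
        IQ H (fun y z => β z ^ 2 * fld ω a y z ^ 2) := by
      refine IQ_mono ((Fa.mul hg1).pow 2) ?_ fun y z hz => ?_
      · refine C0P.mul ⟨?_, fun y z _ => rfl⟩ (Fa.pow 2)
        exact (cβ2.comp continuous_snd).continuousOn
      · have := hβ y z hz
        have h2 : g1 y z ^ 2 ≤ β z ^ 2 := by
          rw [← sq_abs (g1 y z)]
          exact pow_le_pow_left₀ (abs_nonneg _) this 2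
        rw [mul_pow, mul_comm (fld ω a y z ^ 2)]
        exact mul_le_mul_of_nonneg_right h2 (sq_nonneg _)
    refine h1.trans ?_
    rw [hm]
    refine mul_le_mul_of_nonneg_left ?_ (by positivity)
    refine le_trans (le_of_eq ?_) hS
    refine tsum_congr fun n => ?_
    rw [n2_sq]
    refine intervalIntegral.integral_congr fun z hz => ?_
    rw [uIcc_of_le hH0.le] at hz
    show β z ^ 2 * ‖ex (a n) z‖ ^ 2 = ‖ex (rc β cβ * a n) z‖ ^ 2
    rw [ex_mul, ex_rc β cβ hz, norm_mul, mul_pow, Complex.norm_real, Real.norm_eq_abs, sq_abs]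
  have P2 : IQ H (fun y z => (fld ω a y z * g y z) ^ 2) ≤ c ^ 2 * (2 * H * A) := by
    have h1 : IQ H (fun y z => (fld ω a y z * g y z) ^ 2) ≤
        IQ H (fun y z => c ^ 2 * fld ω a y z ^ 2) := by
      refine IQ_mono ((Fa.mul hg).pow 2) ((C0P.const _).mul (Fa.pow 2)) fun y z hz => ?_
      have := hc y z hz
      have h2 : g y z ^ 2 ≤ c ^ 2 := by
        rw [← sq_abs (g y z)]
        exact pow_le_pow_left₀ (abs_nonneg _) this 2
      rw [mul_pow, mul_comm (fld ω a y z ^ 2)]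
      exact mul_le_mul_of_nonneg_right h2 (sq_nonneg _)
    refine h1.trans ?_
    rw [IQ_mul, parseval3 hω sa ya]
    refine mul_le_mul_of_nonneg_left ?_ (sq_nonneg _)
    exact mul_le_mul_of_nonneg_left hA (by positivity)
  have hh : √(2 * H) * √(2 * H) = 2 * H := Real.mul_self_sqrt (by positivity)
  have R1 : √(IQ H fun y z => (fld ω a y z * g1 y z) ^ 2) ≤ √(2 * H) * √S := by
    rw [← Real.sqrt_mul (by positivity)]
    exact Real.sqrt_le_sqrt P1
  have R2 : √(IQ H fun y z => (fld ω a y z * g y z) ^ 2) ≤ c * (√(2 * H) * √A) := by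
    rw [← Real.sqrt_mul (by positivity)]
    refine (Real.sqrt_le_sqrt P2).trans (le_of_eq ?_)
    rw [Real.sqrt_mul (sq_nonneg c), Real.sqrt_sq h0c]
  have T1 : √(2 * H * ∑' n, n2 (b n) ^ 2) ≤ √(2 * H) * √B := by
    rw [← Real.sqrt_mul (by positivity)]
    exact Real.sqrt_le_sqrt (mul_le_mul_of_nonneg_left hB (by positivity))
  have T2 : √(2 * H * ∑' n, n2 (b1 n) ^ 2) ≤ √(2 * H) * √B1 := by
    rw [← Real.sqrt_mul (by positivity)]
    exact Real.sqrt_le_sqrt (mul_le_mul_of_nonneg_left hB1 (by positivity))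
  have U1 := Q1.trans (mul_le_mul R1 T1 (Real.sqrt_nonneg _) (by positivity))
  have U2 := Q2.trans (mul_le_mul R2 T2 (Real.sqrt_nonneg _) (by positivity))
  calc |_| ≤ _ := abs_add_le _ _
    _ ≤ _ := add_le_add U1 U2
    _ = 2 * H * (c * √A * √B1 + √S * √B) := by
      rw [show √(2 * H) * √S * (√(2 * H) * √B) = (√(2 * H) * √(2 * H)) * (√S * √B) by ring,
        show c * (√(2 * H) * √A) * (√(2 * H) * √B1) = (√(2 * H) * √(2 * H)) * (c * √A * √B1) by ring,
        hh]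
      ring

private theorem phf_is_le {k : ℝ} (f : CI H) : n2 (is k • f) ≤ n2 f := by
  rw [n2_smul]
  exact mul_le_of_le_one_left (n2_nonneg _) (norm_is_le k)

private theorem phf_mul_is_le {k : ℝ} (w f : CI H) : n2 (w * -(is k • f)) ≤ n2 (w * f) := by
  refine n2_mono fun z _ => ?_
  rw [ex_mul, ex_neg, ex_smul, ex_mul, norm_mul, norm_neg, norm_mul, norm_mul]
  refine mul_le_mul_of_nonneg_left ?_ (norm_nonneg _)
  exact mul_le_of_le_one_left (norm_nonneg _) (norm_is_le k)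

private theorem phf_neg_is_le {k : ℝ} (f : CI H) : n2 (-(is k • f)) ≤ n2 f := by
  rw [n2_neg]
  exact phf_is_le _

private theorem phf_is_eq {k : ℝ} {f g : CI H} (h : f = |k| • g) : n2 (is k • f) = n2 f := by
  rw [n2_smul]
  by_cases hk : k = 0
  · subst hk
    have : f = 0 := by
      rw [h]
      refine ContinuousMap.ext fun z => ?_
      simp
    rw [this, n2_zero, mul_zero]
  · have : ‖is k‖ = 1 := by
      rw [is, norm_mul, Complex.norm_I, one_mul, Complex.norm_real, Real.norm_eq_abs]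
      rcases lt_or_gt_of_ne hk with hk | hk
      · rw [Real.sign_of_neg hk]; simp
      · rw [Real.sign_of_pos hk]; simp
    rw [this, one_mul]

/-- Estimate of the transfer term: `|g| ≤ c`, `|∇ g| ≤ β(z)`. -/
theorem tr_bound {ω : ℝ} (hω : ω * H = Real.pi) {N : ℕ} {a : ℝ} {x : L1 (Xn H)}
    (hx : ∀ n : ℤ, Cm (ω * n) (ex (pu ω N a n : Xn H).2.1 0) (x n)) (hs : Sy x)
    {g gy gz : ℝ → ℝ → ℝ} (hg : C1P H g gy gz) {c : ℝ} (hc : ∀ y, ∀ z ∈ Icc 0 H, |g y z| ≤ c)
    {β : ℝ → ℝ} (cβ : Continuous β) (hβ : ∀ y, ∀ z ∈ Icc 0 H, |gy y z| ≤ β z ∧ |gz y z| ≤ β z) :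
    |IQ H (fun y z => fld ω (trf ω N a x) y z * (g y z * oO ω x y z))| ≤
      4 * H * (c * √(K1 (ω * N) a x) * √(dd2 x) +
        √(∑' n, n2 (rc β cβ * (kap (ω * N) a * (x n).2.1)) ^ 2) * √(th2 x)) := by
  obtain ⟨hO, hO0, hO1⟩ := oO_C1P hω hx
  obtain ⟨y1, y1y, y1z, -, yV, yH⟩ := sy_fields0 (ω := ω) (N := N) (a := a) hs
  have s1 : Summable fun n => ‖m1 x n‖ := phf_s11 x
  have s1y := phf_s1y ω x
  have s1z : Summable fun n => ‖m1z x n‖ := phf_s121 x
  have sV := phf_skV ω N a x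
  have sH := phf_skH ω N a x
  rw [tr_test hω hx (hg.mul hO) (fun y => by rw [hO0, mul_zero]) (fun y => by rw [hO1, mul_zero])]
  have sβV : Summable fun n => n2 (rc β cβ * kV ω N a x n) ^ 2 := by
    refine (n2_summable (f := fun n => rc β cβ * kV ω N a x n) ?_).2
    exact Summable.of_nonneg_of_le (fun _ => norm_nonneg _)
      (fun _ => norm_mul_le _ _) (sV.mul_left _)
  have e2 : ∀ n, n2 (rc β cβ * kH ω N a x n) ≤ n2 (rc β cβ * kV ω N a x n) :=
    fun n => phf_mul_is_le _ _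
  have e3 : ∀ n, n2 (kH ω N a x n) ≤ n2 (kV ω N a x n) := fun n => phf_neg_is_le _
  have sβH : Summable fun n => n2 (rc β cβ * kH ω N a x n) ^ 2 :=
    Summable.of_nonneg_of_le (fun _ => sq_nonneg _)
      (fun n => pow_le_pow_left₀ (n2_nonneg _) (e2 n) 2) sβV
  have hd : (∑' n, n2 (m1z x n) ^ 2 ≤ dd2 x) ∧ (∑' n, n2 (m1y ω x n) ^ 2 ≤ dd2 x) := by
    have sd := (fun_summable x 0 0 0 0 0).2.2.1
    constructor
    · refine Summable.tsum_le_tsum (fun n => ?_) (n2_summable s1z).2 sd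
      show n2 (x n).1.2.1 ^ 2 ≤ n2 (x n).1.2.1 ^ 2 + n2 (x n).1.2.2 ^ 2
      linarith [sq_nonneg (n2 (x n).1.2.2)]
    · refine Summable.tsum_le_tsum (fun n => ?_) (n2_summable s1y).2 sd
      have h1 : n2 (m1y ω x n) ≤ n2 (x n).1.2.2 := phf_is_le _
      have h2 := pow_le_pow_left₀ (n2_nonneg _) h1 2
      linarith [sq_nonneg (n2 (x n).1.2.1)]
  have B1 := phf_half hω sV s1 s1z yV y1 y1z hg.c hg.cz hc cβ (fun y z hz => (hβ y z hz).2)
    (A := K1 (ω * N) a x) (S := ∑' n, n2 (rc β cβ * (kap (ω * N) a * (x n).2.1)) ^ 2)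
    (B := th2 x) (B1 := dd2 x) le_rfl le_rfl le_rfl hd.1
  have B2 := phf_half hω sH s1 s1y yH y1 y1y hg.c hg.cy hc cβ (fun y z hz => (hβ y z hz).1)
    (A := K1 (ω * N) a x) (S := ∑' n, n2 (rc β cβ * (kap (ω * N) a * (x n).2.1)) ^ 2)
    (B := th2 x) (B1 := dd2 x)
    (Summable.tsum_le_tsum (fun n => pow_le_pow_left₀ (n2_nonneg _) (e3 n) 2)
      (n2_summable sH).2 (n2_summable sV).2)
    (Summable.tsum_le_tsum (fun n => pow_le_pow_left₀ (n2_nonneg _) (e2 n) 2) sβH sβV)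
    le_rfl hd.2
  refine (abs_sub _ _).trans ?_
  have := add_le_add B1 B2
  refine this.trans (le_of_eq ?_)
  ring

theorem enst {ω : ℝ} (hω : ω * H = Real.pi) {N : ℕ} {A A1 : ℝ → ℝ} {a b : ℝ} {x : ℝ → L1 (Xn H)}
    (hN : 1 ≤ N) (h : CS ω N A A1 a b x) : ∀ t1 ∈ Icc a b, ∀ t2 ∈ Icc t1 b,
    th2 (x t2) + ∫ t in t1..t2, dd2 (x t) ≤ th2 (x t1) + 8 * ∫ t in t1..t2, K1 (ω * N) (A t) (x t) := by
  intro t1 h1 t2 h2
  have hH0 := hH.out
  have hg : C1P H (fun _ _ => (1:ℝ)) (fun _ _ => 0) (fun _ _ => 0) :=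
    ⟨C0P.const 1, C0P.const 0, C0P.const 0, fun y z _ => hasDerivAt_const _ _,
      fun y z _ => hasDerivWithinAt_const _ _ _⟩
  have hw : W2P H (fun _ _ => (1:ℝ)) (fun _ _ => 0) (fun _ _ => 0) (fun _ _ => 0) (fun _ _ => 0) :=
    ⟨hg, C0P.const 0, C0P.const 0, fun y z _ => hasDerivAt_const _ _,
      fun y z _ => hasDerivWithinAt_const _ _ _⟩
  have hder := enst_id hω hN h hw
  have hsub : Icc t1 t2 ⊆ Icc a b := Icc_subset_Icc h1.1 h2.2
  have hth : ∀ t ∈ Icc a b, IQ H (fun y z => (1:ℝ) * oO ω (x t) y z ^ 2) = 2 * H * th2 (x t) := by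
    intro t ht
    have y1 := (sy_fields0 (ω := ω) (N := N) (a := A t) (h.sy t ht)).1
    have := parseval3 hω (phf_s11 (x t)) y1
    simp only [one_mul]
    exact this
  have hdd : ∀ t ∈ Icc a b, IQ H (fun y z => (1:ℝ) * (oOy ω (x t) y z ^ 2 + oOz ω (x t) y z ^ 2)) =
      2 * H * dd2 (x t) := by
    intro t ht
    have hy := sy_fields0 (ω := ω) (N := N) (a := A t) (h.sy t ht)
    have sy := phf_s1y ω (x t)
    have sz : Summable fun n => ‖m1z (x t) n‖ := phf_s121 (x t)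
    simp only [one_mul]
    rw [IQ_add (F := fun y z => oOy ω (x t) y z ^ 2) (G := fun y z => oOz ω (x t) y z ^ 2)
      ((fld_C0P hω sy).pow 2) ((fld_C0P hω sz).pow 2)]
    have p1 := parseval3 hω sy hy.2.1
    have p2 := parseval3 hω sz hy.2.2.1
    have p1' : IQ H (fun y z => oOy ω (x t) y z ^ 2) = _ := p1
    have p2' : IQ H (fun y z => oOz ω (x t) y z ^ 2) = _ := p2
    rw [p1', p2', ← mul_add, ← Summable.tsum_add (n2_summable sy).2 (n2_summable sz).2]
    congr 1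
    refine tsum_congr fun n => ?_
    have e : n2 (m1y ω (x t) n) = n2 (x t n).1.2.2 := phf_is_eq (h.cm t ht n).e1
    rw [e]
    show n2 (x t n).1.2.2 ^ 2 + n2 (x t n).1.2.1 ^ 2 = _
    ring
  -- the derivative
  have hbound : ∀ t ∈ Icc a b, |IQ H (fun y z => fld ω (trf ω N (A t) (x t)) y z *
      ((1:ℝ) * oO ω (x t) y z))| ≤ H * (4 * K1 (ω * N) (A t) (x t) + dd2 (x t)) := by
    intro t ht
    have := tr_bound hω (h.cm t ht) (h.sy t ht) hg (c := 1) (fun y z _ => by simp)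
      (β := fun _ => 0) continuous_const (fun y z _ => by simp)
    refine this.trans ?_
    have e : ∀ n, n2 (rc (fun _ => (0:ℝ)) continuous_const * (kap (ω * N) (A t) * ((x t) n).2.1)) ^ 2 =
        (0:ℝ) := by
      intro n
      have : (rc (fun _ => (0:ℝ)) continuous_const : CI H) = 0 := by
        refine ContinuousMap.ext fun z => ?_
        simp [rc, mkCI]
      rw [this, zero_mul, n2_zero]
      norm_num
    simp only [e, tsum_zero, Real.sqrt_zero, zero_mul, add_zero, one_mul]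
    have hK : 0 ≤ K1 (ω * N) (A t) (x t) := tsum_nonneg fun n => sq_nonneg _
    have hD : 0 ≤ dd2 (x t) := tsum_nonneg fun n => add_nonneg (sq_nonneg _) (sq_nonneg _)
    have s1 := Real.sq_sqrt hK
    have s2 := Real.sq_sqrt hD
    obtain ⟨p, hp⟩ : ∃ p, p = √(K1 (ω * N) (A t) (x t)) := ⟨_, rfl⟩
    obtain ⟨q, hq⟩ : ∃ q, q = √(dd2 (x t)) := ⟨_, rfl⟩
    rw [← hp] at s1 ⊢
    rw [← hq] at s2 ⊢
    rw [← s1, ← s2, mul_comm 4 H, mul_assoc]
    refine mul_le_mul_of_nonneg_left ?_ hH0.le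
    linarith [sq_nonneg (2 * p - q)]
  have hcth : ContinuousOn (fun t => th2 (x t)) (Icc t1 t2) :=
    Continuous.comp_continuousOn (g := fun y : L1 (Xn H) => th2 y) (f := x) th2_cont
      (h.c.mono hsub)
  have hcd : ContinuousOn (fun t => dd2 (x t)) (Icc t1 t2) :=
    Continuous.comp_continuousOn (g := fun y : L1 (Xn H) => dd2 y) (f := x) dd2_cont
      (h.c.mono hsub)
  have hcK : ContinuousOn (fun t => K1 (ω * N) (A t) (x t)) (Icc t1 t2) :=
    K1_cont (h.cA.mono hsub) (h.c.mono hsub)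
  have hder' : ∀ t ∈ Ioo t1 t2, ∃ D, HasDerivWithinAt (fun t => th2 (x t)) D (Ioi t) t ∧
      D ≤ 8 * K1 (ω * N) (A t) (x t) - dd2 (x t) := by
    intro t ht
    have htI : t ∈ Icc a b := hsub (Ioo_subset_Icc_self ht)
    have hd := hder t htI
    have hd2 := (hd.congr (f₁ := fun t => 2 * H * th2 (x t)) (fun s hs => (hth s hs).symm)
      (hth t htI).symm).const_mul (1 / (2 * H))
    have hnh : Icc a b ∈ 𝓝 t := Icc_mem_nhds (h1.1.trans_lt ht.1) (ht.2.trans_le h2.2)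
    have hF : HasDerivAt (fun t => th2 (x t)) _ t := (hd2.hasDerivAt hnh).congr_of_eventuallyEq
        (Filter.Eventually.of_forall fun s => by field_simp)
    refine ⟨_, hF.hasDerivWithinAt, ?_⟩
    · have z0 : IQ H (fun y z => ((0:ℝ) + 0 + uV ω (tv ω N (A t) (x t)) y z * 0 +
          uW ω (tv ω N (A t) (x t)) y z * 0) * oO ω (x t) y z ^ 2) = 0 := by
        simp [IQ]
      rw [z0, hdd t htI]
      have hb := (abs_le.1 (hbound t htI)).2
      have hK : 0 ≤ K1 (ω * N) (A t) (x t) := tsum_nonneg fun n => sq_nonneg _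
      have h2H : 0 < 2 * H := by positivity
      rw [one_div, inv_mul_le_iff₀ h2H]
      linarith [mul_nonneg hH0.le hK]
  choose! D hD1 hD2 using hder'
  have key := intervalIntegral.sub_le_integral_of_hasDeriv_right_of_le h2.1 hcth hD1
    (φ := fun t => 8 * K1 (ω * N) (A t) (x t) - dd2 (x t))
    ((hcK.const_mul 8 |>.sub hcd).integrableOn_Icc) hD2
  have e := intervalIntegral.integral_sub (μ := volume)
    (f := fun t => 8 * K1 (ω * N) (A t) (x t)) (g := fun t => dd2 (x t)) (a := t1) (b := t2)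
    ((continuousOn_const.mul hcK).intervalIntegrable_of_Icc h2.1)
    (hcd.intervalIntegrable_of_Icc h2.1)
  rw [e, intervalIntegral.integral_const_mul] at key
  linarith

end

end Pool.Agent.Lib.MP_79abb3_an.FW
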