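import Pool.Agent.Lib.MP_79abb3_an.FW.ApA
import Pool.Agent.Lib.MP_79abb3_an.FW.ApBb
import Pool.Agent.Lib.MP_79abb3_an.FW.ApC
import Pool.Agent.Lib.MP_79abb3_an.FW.HEa
import Pool.Agent.Lib.MP_79abb3_an.FW.KapA
import Pool.Agent.Lib.MP_79abb3_an.FW.KapB
import Pool.Agent.Lib.MP_79abb3_an.FW.PhF

/-!
FW-28: the a priori bounds (section 3 of paper 196).
-/

set_option autoImplicit false
set_option linter.unusedSectionVars false

attribute [-instance] PreLp.ring SubfieldClass.toSubringClass SubringClass.toSubsemiringClass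
  NonUnitalSubringClass.toNonUnitalSubsemiringClass RingConeClass.toSubsemiringClass
  SubsemiringClass.nonUnitalSubsemiringClass SubringClass.nonUnitalSubringClass
  AddSubgroup.seminormedAddCommGroup SetLike.GradeZero.instSemiring SetLike.GradeZero.instCommRing
  SetLike.GradeZero.instCommSemiring SetLike.GradeZero.instRing LieAdmissibleAlgebra.toModule
  RightPreLieAlgebra.toModule LeftPreLieAlgebra.toModule

open MeasureTheory Set Filter Topology Function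

namespace Pool.Agent.Lib.MP_79abb3_an.FW

open Pool.Agent.Lib.MP_79abb3_an.P25

section
variable {H : ℝ} [hH : Fact (0 < H)]

private theorem apD_mono {ω : ℝ} {N : ℕ} {A A1 : ℝ → ℝ} {b b' : ℝ} {x : ℝ → L1 (Xn H)}
    (h : CS ω N A A1 0 b x) (hb : b' ≤ b) : CS ω N A A1 0 b' x := by
  have hs : Icc 0 b' ⊆ Icc 0 b := Icc_subset_Icc le_rfl hb
  exact ⟨h.cA.mono hs, h.cA1.mono hs, fun t ht => (h.dA t (hs ht)).mono hs, h.c.mono hs,
    fun t ht => h.cm t (hs ht), fun t ht => h.sy t (hs ht), fun n => (h.eo n).mono le_rfl hb,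
    fun n => (h.ei n).mono le_rfl hb⟩

private theorem apD_K1 (m a : ℝ) (x : ℤ → Xn H) : 0 ≤ K1 m a x := tsum_nonneg fun _ => sq_nonneg _

private theorem apD_yy (x : ℤ → Xn H) : 0 ≤ yy x := tsum_nonneg fun _ => n2_nonneg _

private theorem apD_dd2 (x : ℤ → Xn H) : 0 ≤ dd2 x := tsum_nonneg fun _ => by positivity

private theorem apD_th2 (x : ℤ → Xn H) : 0 ≤ th2 x := tsum_nonneg fun _ => sq_nonneg _

theorem ap {ω : ℝ} (hω : ω * H = Real.pi) {Θ : ℝ} (hΘ : 0 ≤ Θ) : ∃ C, 1 ≤ C ∧ ∃ m0, 1 ≤ m0 ∧ ∀ {N : ℕ},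
    1 ≤ N → m0 ≤ ω * N → ∀ {A A1 : ℝ → ℝ} {b : ℝ} {x : ℝ → L1 (Xn H)}, 0 ≤ b →
    b ≤ 1 / (8 * (ω * N) ^ 2) → CS ω N A A1 0 b x → (∀ t ∈ Icc 0 b, A t ∈ Icc 0 (A0 (ω * N))) →
    th2 (x 0) ≤ Θ ^ 2 → (∀ n, ∀ z ∈ Icc (zl (ω * N)) H, ex (x 0 n).2.1 z = 0) → yy (x 0) ≤ 1 / 4 →
    AB ω N Θ C b A x := by
  have hω0 : 0 < ω := by
    have := Real.pi_pos
    rw [← hω] at this
    exact (mul_pos_iff_of_pos_right hH.out).1 this
  obtain ⟨C1, hC1, hbe⟩ := be_int (H := H) hω0 (Θ := Θ)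
  obtain ⟨C2, hC2, hew⟩ := ew_bound (H := H) hω0 (Θ := Θ)
  obtain ⟨m1, hm1, hks⟩ := kap_small (H := H)
  obtain ⟨C3, hC3, hyb⟩ := yy_bound (H := H) hω0 (C0 := C1 + C2 + (Θ ^ 2 + 2)) (by positivity)
  obtain ⟨m2, hm2, hpar⟩ := par_lim (C3 + 8 * (1 + C2)) (ε := 1 / 4) (by norm_num)
  refine ⟨C1 + C2 + C3, by linarith, max m1 m2, le_max_of_le_left hm1, ?_⟩
  intro N hN hm A A1 b x hb hbm hCS hA hth hx0 hyy0
  set m := ω * N with hmdef
  have hm1' : m1 ≤ m := (le_max_left _ _).trans hm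
  have hm2' : m2 ≤ m := (le_max_right _ _).trans hm
  have hmge : 1 ≤ m := hm1.trans hm1'
  obtain ⟨pA, pz, -, p4, p5, -, -⟩ := hpar m hm2'
  have hb1 : b ≤ 1 := by
    refine hbm.trans ?_
    rw [div_le_one (by positivity)]
    have hm2 : 1 ≤ m ^ 2 := one_le_pow₀ hmge
    clear * - hm2
    linarith
  -- small quantities
  have hE2 : Real.exp (-√m) ≤ Real.exp (-√m / 2) := by
    apply Real.exp_le_exp.2
    have := Real.sqrt_nonneg m
    linarith
  have hE0 : 0 < Real.exp (-√m / 2) := Real.exp_pos _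
  have q1 : m * Real.exp (-√m / 2) ≤ 1 := by
    have h1 : 1 ≤ C3 + 8 * (1 + C2) := by linarith
    have h2 : m * Real.exp (-√m / 2) ≤ (C3 + 8 * (1 + C2)) * Real.exp (-√m / 2) * (1 + m) := by
      have h3 : m * Real.exp (-√m / 2) ≤ (1 + m) * Real.exp (-√m / 2) :=
        mul_le_mul_of_nonneg_right (le_add_of_nonneg_left zero_le_one) hE0.le
      have h4 : (1 + m) * Real.exp (-√m / 2) ≤
          (C3 + 8 * (1 + C2)) * ((1 + m) * Real.exp (-√m / 2)) :=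
        le_mul_of_one_le_left (by positivity) h1
      clear * - h3 h4
      linarith
    clear * - h2 p4 p5
    linarith
  have q2 : 8 * (1 + C2) * Real.exp (-√m) ≤ 1 := by
    have h2 : 8 * (1 + C2) * Real.exp (-√m) ≤ (C3 + 8 * (1 + C2)) * Real.exp (-√m / 2) * (1 + m) := by
      have h3 : 8 * (1 + C2) * Real.exp (-√m) ≤ (C3 + 8 * (1 + C2)) * Real.exp (-√m / 2) := by
        apply mul_le_mul _ hE2 (Real.exp_pos _).le (by linarith)
        linarith
      have h4 : (C3 + 8 * (1 + C2)) * Real.exp (-√m / 2) ≤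
          (C3 + 8 * (1 + C2)) * Real.exp (-√m / 2) * (1 + m) :=
        le_mul_of_one_le_right (by positivity) (by linarith)
      linarith
    linarith
  have q3 : C3 * b ^ (1 / 8 : ℝ) ≤ 1 / 4 := by
    have h1 : b ^ (1 / 8 : ℝ) ≤ (1 / (8 * m ^ 2)) ^ (1 / 8 : ℝ) :=
      Real.rpow_le_rpow hb hbm (by norm_num)
    have h2 : C3 * b ^ (1 / 8 : ℝ) ≤ (C3 + 8 * (1 + C2)) * (1 / (8 * m ^ 2)) ^ (1 / 8 : ℝ) := by
      apply mul_le_mul _ h1 (Real.rpow_nonneg hb _) (by linarith)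
      linarith
    linarith
  -- the consequences of the bootstrap hypotheses
  have cons : ∀ t ∈ Icc 0 b, (∀ s ∈ Icc 0 t, yy (x s) ≤ 1 ∧
      th2 (x s) + ∫ r in (0:ℝ)..s, dd2 (x r) ≤ Θ ^ 2 + 2) →
      (∫ s in (0:ℝ)..t, bt ω (x s) ^ 8 ≤ C1) ∧
      (∀ s ∈ Icc 0 t, K0 m (A s) (x s) ≤ (1 + C2) * Real.exp (-√m) ∧
        K1 m (A s) (x s) ≤ (1 + C2) * Real.exp (-√m) ∧
        K2 m (muu m) (A s) (x s) ≤ (1 + C2) * Real.exp (-√m)) ∧
      (th2 (x t) + ∫ s in (0:ℝ)..t, dd2 (x s) ≤ Θ ^ 2 + 1) ∧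
      yy (x t) ≤ yy (x 0) + C3 * t ^ (1 / 8 : ℝ) := by
    intro t ht hyp
    have hCt := apD_mono hCS ht.2
    have hsub : Icc 0 t ⊆ Icc 0 b := Icc_subset_Icc le_rfl ht.2
    have r1 := hbe ht.1 (ht.2.trans hb1) hCt (fun s hs => (hyp s hs).2) t ⟨ht.1, le_rfl⟩
    have r2 : ∀ s ∈ Icc 0 t, Ew (zl m) (4 * m) (x s) ≤ C2 :=
      hew hN hmge ht.1 (ht.2.trans hbm) hCt (fun s hs => (hA s (hsub hs)).1) hx0
        (fun s hs => (hyp s hs).1) (fun s hs => (hyp s hs).2)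
    have r3 : ∀ s ∈ Icc 0 t, K0 m (A s) (x s) ≤ (1 + C2) * Real.exp (-√m) ∧
        K1 m (A s) (x s) ≤ (1 + C2) * Real.exp (-√m) ∧
        K2 m (muu m) (A s) (x s) ≤ (1 + C2) * Real.exp (-√m) := by
      intro s hs
      have h1 := hks m hm1' (A s) (hA s (hsub hs)) (x s)
      have h2 : yy (x s) ^ 2 ≤ 1 := pow_le_one₀ (apD_yy _) (hyp s hs).1
      have h3 := r2 s hs
      have h4 : Real.exp (-√m) * (yy (x s) ^ 2 + Ew (zl m) (4 * m) (x s)) ≤
          (1 + C2) * Real.exp (-√m) := by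
        rw [mul_comm]
        exact mul_le_mul_of_nonneg_right (by linarith) (Real.exp_pos _).le
      exact ⟨h1.1.trans h4, h1.2.1.trans h4, h1.2.2.trans h4⟩
    have r4 : ∫ s in (0:ℝ)..t, K1 m (A s) (x s) ≤ (1 + C2) * Real.exp (-√m) := by
      have h1 : ‖∫ s in (0:ℝ)..t, K1 m (A s) (x s)‖ ≤ (1 + C2) * Real.exp (-√m) * |t - 0| := by
        apply intervalIntegral.norm_integral_le_of_norm_le_const
        intro s hs
        rw [uIoc_of_le ht.1] at hs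
        rw [Real.norm_eq_abs, abs_of_nonneg (apD_K1 _ _ _)]
        exact (r3 s ⟨hs.1.le, hs.2⟩).2.1
      rw [sub_zero, abs_of_nonneg ht.1] at h1
      have h2 : (1 + C2) * Real.exp (-√m) * t ≤ (1 + C2) * Real.exp (-√m) :=
        mul_le_of_le_one_right (by positivity) (ht.2.trans hb1)
      exact (le_abs_self _).trans (h1.trans h2)
    have r5 := enst hω hN hCt 0 ⟨le_rfl, ht.1⟩ t ⟨ht.1, le_rfl⟩
    rw [← hmdef] at r5
    have r6 : th2 (x t) + ∫ s in (0:ℝ)..t, dd2 (x s) ≤ Θ ^ 2 + 1 := by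
      clear * - r5 r4 q2 hth
      linarith
    refine ⟨r1, r3, r6, ?_⟩
    refine hyb hN pA q1 ht.1 (ht.2.trans hb1) hCt (fun s hs => hA s (hsub hs)) ?_ ?_ t
      ⟨ht.1, le_rfl⟩
    · intro s hs
      have hle : (1 + C2) * Real.exp (-√m) ≤ (C1 + C2 + (Θ ^ 2 + 2)) * Real.exp (-√m) := by
        apply mul_le_mul_of_nonneg_right _ (Real.exp_pos _).le
        have := sq_nonneg Θ
        linarith
      refine ⟨(hyp s hs).1, ?_, (r3 s hs).1.trans hle, (r3 s hs).2.1.trans hle⟩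
      have h1 := (hyp s hs).2
      have h2 : 0 ≤ ∫ r in (0:ℝ)..s, dd2 (x r) :=
        intervalIntegral.integral_nonneg hs.1 fun r _ => apD_dd2 _
      linarith
    · have := sq_nonneg Θ
      linarith
  -- continuity
  have cF : ContinuousOn (fun t => yy (x t)) (Icc 0 b) :=
    Continuous.comp_continuousOn (g := fun y : L1 (Xn H) => yy y) (f := x) yy_cont hCS.c
  have cD : ContinuousOn (fun t => dd2 (x t)) (Icc 0 b) :=
    Continuous.comp_continuousOn (g := fun y : L1 (Xn H) => dd2 y) (f := x) dd2_cont hCS.c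
  have cG : ContinuousOn (fun t => th2 (x t) + ∫ r in (0:ℝ)..t, dd2 (x r)) (Icc 0 b) := by
    have h0 : ContinuousOn (fun t => th2 (x t)) (Icc 0 b) :=
      Continuous.comp_continuousOn (g := fun y : L1 (Xn H) => th2 y) (f := x) th2_cont hCS.c
    refine h0.add ?_
    have h1 : IntegrableOn (fun t => dd2 (x t)) (uIcc 0 b) := by
      rw [uIcc_of_le hb]
      exact cD.integrableOn_Icc
    have h2 := intervalIntegral.continuousOn_primitive_interval h1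
    rwa [uIcc_of_le hb] at h2
  have main : ∀ t ∈ Icc 0 b, yy (x t) ≤ 1 / 2 ∧
      th2 (x t) + ∫ r in (0:ℝ)..t, dd2 (x r) ≤ Θ ^ 2 + 1 := by
    refine boot (p := 1) (q := Θ ^ 2 + 2) cF cG (by norm_num) (by linarith) (by linarith) ?_ ?_
    · rw [intervalIntegral.integral_same]
      linarith
    · intro t ht hyp
      obtain ⟨-, -, h3, h4⟩ := cons t ht hyp
      refine ⟨?_, h3⟩
      have h5 : C3 * t ^ (1 / 8 : ℝ) ≤ C3 * b ^ (1 / 8 : ℝ) :=
        mul_le_mul_of_nonneg_left (Real.rpow_le_rpow ht.1 ht.2 (by norm_num)) (by linarith)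
      linarith
  have hyp : ∀ t ∈ Icc 0 b, ∀ s ∈ Icc 0 t, yy (x s) ≤ 1 ∧
      th2 (x s) + ∫ r in (0:ℝ)..s, dd2 (x r) ≤ Θ ^ 2 + 2 := by
    intro t ht s hs
    have h1 := main s ⟨hs.1, hs.2.trans ht.2⟩
    exact ⟨by linarith [h1.1], by linarith [h1.2]⟩
  have hbb : b ∈ Icc 0 b := ⟨hb, le_rfl⟩
  obtain ⟨e1, e2, -, -⟩ := cons b hbb (hyp b hbb)
  have hle : (1 + C2) * Real.exp (-√m) ≤ (C1 + C2 + C3) * Real.exp (-√m) := by
    apply mul_le_mul_of_nonneg_right _ (Real.exp_pos _).le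
    linarith
  constructor
  · intro t ht
    linarith [(main t ht).1]
  · intro t ht
    have h4 := (cons t ht (hyp t ht)).2.2.2
    have h5 : C3 * t ^ (1 / 8 : ℝ) ≤ (C1 + C2 + C3) * b ^ (1 / 8 : ℝ) := by
      apply mul_le_mul _ (Real.rpow_le_rpow ht.1 ht.2 (by norm_num)) (Real.rpow_nonneg ht.1 _)
        (by linarith)
      linarith
    linarith
  · exact fun t ht => (main t ht).2
  · linarith
  · exact fun t ht => (e2 t ht).1.trans hle
  · exact fun t ht => (e2 t ht).2.1.trans hle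
  · exact fun t ht => (e2 t ht).2.2.trans hle

end

end Pool.Agent.Lib.MP_79abb3_an.FW
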