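import Pool.Agent.Lib.MP_79abb3_an.FW.ApA
import Pool.Agent.Lib.MP_79abb3_an.FW.PhF
import Pool.Agent.Lib.MP_79abb3_an.FW.VoC
import Pool.Agent.Lib.MP_79abb3_an.FW.YoungD

/-!
FW-29: small data (section 5 of paper 196), estimate of `yy`.
-/

set_option autoImplicit false
set_option linter.unusedSectionVars false

attribute [-instance] PreLp.ring SubfieldClass.toSubringClass SubringClass.toSubsemiringClass
  NonUnitalSubringClass.toNonUnitalSubsemiringClass RingConeClass.toSubsemiringClass
  SubsemiringClass.nonUnitalSubsemiringClass SubringClass.nonUnitalSubringClass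
  AddSubgroup.seminormedAddCommGroup SetLike.GradeZero.instSemiring SetLike.GradeZero.instCommRing
  SetLike.GradeZero.instCommSemiring SetLike.GradeZero.instRing LieAdmissibleAlgebra.toModule
  RightPreLieAlgebra.toModule LeftPreLieAlgebra.toModule

open MeasureTheory Set Filter Topology Function

namespace Pool.Agent.Lib.MP_79abb3_an.FW

open Pool.Agent.Lib.MP_79abb3_an.P25

section
variable {H : ℝ} [hH : Fact (0 < H)]

private theorem ape_n2_zero {f : CI H} (h : n2 f = 0) : f = 0 := by
  have h2 : n2 f ^ 2 = 0 := by rw [h]; norm_num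
  rw [n2_sq] at h2
  refine ci_ext fun z hz => ?_
  rw [ex_zero]
  by_contra hne
  have hpos : 0 < ∫ z in (0:ℝ)..H, ‖ex f z‖ ^ 2 := by
    refine intervalIntegral.integral_pos hH.out ?_ (fun x _ => by positivity) ⟨z, hz, ?_⟩
    · exact ((continuous_ex f).norm.pow 2).continuousOn
    · have := norm_pos_iff.2 hne
      positivity
  linarith

private theorem ape_kap (m : ℝ) : (kap m 0 : CI H) = 0 := by
  refine ci_ext fun z hz => ?_
  rw [kap, ex_rc _ _ hz, ex_zero]
  simp

private theorem ape_chm (m : ℝ) : (chm m 0 : CI H) = 0 := by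
  refine ci_ext fun z hz => ?_
  rw [chm, ex_rc _ _ hz, ex_zero]
  simp

private theorem ape_K0 (m : ℝ) (x : ℤ → Xn H) : K0 m 0 x = 0 := by
  unfold K0
  simp [ape_chm, n2_zero]

private theorem ape_K1 (m : ℝ) (x : ℤ → Xn H) : K1 m 0 x = 0 := by
  unfold K1
  simp [ape_kap, n2_zero]

private theorem ape_out {ω : ℝ} (hω : ω * H = Real.pi) {N : ℕ} {a b : ℝ} {x : ℝ → L1 (Xn H)}
    (hN : 1 ≤ N) (h : CS ω N (fun _ => 0) (fun _ => 0) a b x) (h0 : ∀ n, (x a n).1 = 0) :
    ∀ t ∈ Icc a b, ∀ n, (x t n).1 = 0 := by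
  intro t ht n
  have hab : a ≤ b := ht.1.trans ht.2
  have h1 := enst hω hN h a ⟨le_rfl, hab⟩ t ht
  have h2 : th2 (x a) = 0 := by
    unfold th2
    have : ∀ n, n2 (x a n).1.1 ^ 2 = 0 := fun n => by
      rw [h0 n]
      have : n2 ((0 : CI H × CI H × CI H).1) = 0 := n2_zero
      rw [this]
      norm_num
    simp [this]
  have h3 : ∫ s in a..t, K1 (ω * N) ((fun _ => (0:ℝ)) s) (x s) = 0 := by
    simp [ape_K1]
  rw [h2, h3] at h1
  have h4 : 0 ≤ ∫ s in a..t, dd2 (x s) := by
    refine intervalIntegral.integral_nonneg ht.1 fun s _ => ?_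
    exact tsum_nonneg fun n => by positivity
  have h5 : th2 (x t) ≤ 0 := by linarith
  have hs := (fun_summable (x t) 0 0 0 0 ω).2.1
  have h6 : n2 (x t n).1.1 ^ 2 ≤ th2 (x t) := hs.le_tsum n (fun m _ => sq_nonneg _)
  have h7 : n2 (x t n).1.1 = 0 := by
    have : n2 (x t n).1.1 ^ 2 ≤ 0 := h6.trans h5
    nlinarith [n2_nonneg (x t n).1.1, sq_nonneg (n2 (x t n).1.1)]
  have h8 : (x t n).1.1 = 0 := ape_n2_zero h7
  have hc := h.cm t ht n
  have h9 : (x t n).1.2.1 = 0 := by
    have d := hc.d1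
    rw [h8] at d
    refine d.unique ?_
    intro z _
    have : ex (0 : CI H) = fun _ => 0 := funext fun z => ex_zero z
    rw [this]
    exact hasDerivWithinAt_const _ _ _
  have h10 : (x t n).1.2.2 = 0 := by
    rw [hc.e1, h8]
    refine ci_ext fun z _ => ?_
    rw [ex_rsmul, ex_zero, mul_zero]
  exact Prod.ext h8 (Prod.ext h9 h10)

theorem small_yy {ω : ℝ} (hω : ω * H = Real.pi) : ∃ δ, 0 < δ ∧ ∀ {N : ℕ} {a b : ℝ} {x : ℝ → L1 (Xn H)},
    1 ≤ N → a ≤ b → b ≤ a + 1 → CS ω N (fun _ => 0) (fun _ => 0) a b x → (∀ n, (x a n).1 = 0) →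
    yy (x a) ≤ δ → ∀ t ∈ Icc a b, yy (x t) ≤ 2 * yy (x a) ∧ ∀ n, (x t n).1 = 0 := by
  have hω0 : 0 < ω := by
    have h1 := hH.out
    have h2 := Real.pi_pos
    by_contra hn
    push Not at hn
    nlinarith
  obtain ⟨C, hC, hvol⟩ := volterra (H := H) hω0
  refine ⟨1 / (64 * (C + 1)), by positivity, ?_⟩
  intro N a b x hN hab hb1 h h0 hy
  have hout := ape_out hω hN h h0
  have ynn : ∀ t, 0 ≤ yy (x t) := fun t => tsum_nonneg fun n => n2_nonneg _
  -- the integrand
  have hvT : ∀ t, ∀ r ∈ Icc a b, vT ω N ((fun _ => (0:ℝ)) r) (t - r) (x r) =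
      (√(t - r))⁻¹ * (q4 (t - r))⁻¹ * yy (x r) ^ 2 := by
    intro t r hr
    have hb : bt ω (x r) = 0 := by
      unfold bt
      have : ∀ n : ℤ, ‖Top (ω * n) (x r n).1.1‖ = 0 := fun n => by
        rw [hout r hr n]
        have : Top (ω * n) ((0 : CI H × CI H × CI H).1) = 0 := by
          have e := Top_rsmul (H := H) (ω * n) 0 0
          simpa using e
        rw [this, norm_zero]
      simp [this]
    have ht : th2 (x r) = 0 := by
      unfold th2
      have : ∀ n, n2 (x r n).1.1 ^ 2 = 0 := fun n => by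
        rw [hout r hr n]
        have : n2 ((0 : CI H × CI H × CI H).1) = 0 := n2_zero
        rw [this]
        norm_num
      simp [this]
    unfold vT
    simp only [ape_K0, ape_K1, hb, ht, Real.sqrt_zero]
    ring
  have hyc : ContinuousOn (fun t => yy (x t)) (Icc a b) := yy_cont.comp_continuousOn h.c
  -- main estimate with a positive bound
  have main : ∀ y, 0 < y → yy (x a) ≤ y → y ≤ 1 / (64 * (C + 1)) → ∀ t ∈ Icc a b,
      yy (x t) ≤ 2 * y := by
    intro y hy0 hya hyd t ht
    have hCy : 64 * (C + 1) * y ≤ 1 := by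
      have := mul_le_mul_of_nonneg_left hyd (by positivity : 0 ≤ 64 * (C + 1))
      rwa [mul_one_div_cancel (by positivity)] at this
    have cF : ContinuousOn (fun s => yy (x (a + s))) (Icc 0 (b - a)) := by
      refine hyc.comp (by fun_prop) ?_
      intro s hs
      exact ⟨by linarith [hs.1], by linarith [hs.2]⟩
    have hboot := boot (b := b - a) (p := 4 * y) (q := 1) (p' := 2 * y) (q' := 0)
      (F := fun s => yy (x (a + s))) (G := fun _ => 0) cF continuousOn_const (by linarith)
      (by norm_num) (by simp only [add_zero]; linarith) (by norm_num) ?_ (t - a)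
      ⟨by linarith [ht.1], by linarith [ht.2]⟩
    · have := hboot.1
      simpa using this
    · intro s hs hsF
      refine ⟨?_, le_rfl⟩
      have hst : a + s ∈ Icc a b := ⟨by linarith [hs.1], by linarith [hs.2]⟩
      obtain ⟨hi, hle⟩ := hvol hN hab hb1 h (fun _ _ => le_rfl) (a + s) hst
      obtain ⟨j1, j2⟩ := int_q34 hs.1
      have e1 : ∫ r in a..(a + s), vT ω N ((fun _ => (0:ℝ)) r) (a + s - r) (x r) =
          ∫ r in (0:ℝ)..s, (√(s - r))⁻¹ * (q4 (s - r))⁻¹ * yy (x (a + r)) ^ 2 := by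
        have e2 : ∫ r in a..(a + s), vT ω N ((fun _ => (0:ℝ)) r) (a + s - r) (x r) =
            ∫ r in a..(a + s), (√(a + s - r))⁻¹ * (q4 (a + s - r))⁻¹ * yy (x r) ^ 2 := by
          refine intervalIntegral.integral_congr fun r hr => ?_
          rw [uIcc_of_le hst.1] at hr
          exact hvT (a + s) r ⟨hr.1, hr.2.trans hst.2⟩
        rw [e2]
        have e3 := intervalIntegral.integral_comp_add_left
          (fun r => (√(a + s - r))⁻¹ * (q4 (a + s - r))⁻¹ * yy (x r) ^ 2) (a := 0) (b := s) a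
        rw [add_zero] at e3
        rw [← e3]
        refine intervalIntegral.integral_congr fun r _ => ?_
        have e4 : a + s - (a + r) = s - r := by ring
        simp only [e4]
      have cs : ContinuousOn (fun r => yy (x (a + r)) ^ 2) (uIcc 0 s) := by
        rw [uIcc_of_le hs.1]
        exact (cF.mono (Icc_subset_Icc le_rfl hs.2)).pow 2
      have e5 : ∫ r in (0:ℝ)..s, (√(s - r))⁻¹ * (q4 (s - r))⁻¹ * yy (x (a + r)) ^ 2 ≤
          ∫ r in (0:ℝ)..s, (√(s - r))⁻¹ * (q4 (s - r))⁻¹ * (16 * y ^ 2) := by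
        refine intervalIntegral.integral_mono_on hs.1 (j1.mul_continuousOn cs)
          (j1.mul_const _) fun r hr => ?_
        have e6 := (hsF r hr).1
        have e7 := ynn (a + r)
        have e8 : yy (x (a + r)) ^ 2 ≤ 16 * y ^ 2 := by
          have : yy (x (a + r)) ^ 2 ≤ (4 * y) ^ 2 := pow_le_pow_left₀ e7 e6 2
          linarith [this, (by ring : (4 * y) ^ 2 = 16 * y ^ 2)]
        refine mul_le_mul_of_nonneg_left e8 ?_
        unfold q4
        positivity
      rw [intervalIntegral.integral_mul_const, j2] at e5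
      have hq : q4 s ≤ 1 := by
        unfold q4
        exact Real.sqrt_le_one.2 (Real.sqrt_le_one.2 (by linarith [hs.2]))
      have hq0 : 0 ≤ q4 s := Real.sqrt_nonneg _
      rw [e1] at hle
      have e9 : C * ∫ r in (0:ℝ)..s, (√(s - r))⁻¹ * (q4 (s - r))⁻¹ * yy (x (a + r)) ^ 2 ≤
          C * (64 * y ^ 2) := by
        refine mul_le_mul_of_nonneg_left (e5.trans ?_) hC
        nlinarith [sq_nonneg y, mul_nonneg (sub_nonneg.2 hq) (sq_nonneg y)]
      have e10 : C * (64 * y ^ 2) ≤ y := by
        have : C * (64 * y ^ 2) = (64 * C * y) * y := by ring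
        rw [this]
        have e11 : 64 * C * y ≤ 1 := by nlinarith
        nlinarith
      linarith
  intro t ht
  refine ⟨?_, hout t ht⟩
  rcases (ynn a).eq_or_lt with he | hpos
  · have hd : (0:ℝ) < 1 / (64 * (C + 1)) := by positivity
    have h1 : yy (x t) ≤ 0 := by
      refine le_of_forall_pos_le_add fun ε hε => ?_
      have := main (min (1 / (64 * (C + 1))) (ε / 2)) (lt_min hd (by positivity))
        (by rw [← he]; exact (lt_min hd (by positivity)).le) (min_le_left _ _) t ht
      have h2 := min_le_right (1 / (64 * (C + 1))) (ε / 2)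
      linarith
    rw [← he]
    linarith
  · exact main _ hpos le_rfl hy t ht

end

end Pool.Agent.Lib.MP_79abb3_an.FW
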