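import Pool.Agent.Lib.MP_79abb3_an.FW.OpNa
import Pool.Agent.Lib.MP_79abb3_an.FW.SumsB

/-!
FW-16: the sup norm of the outer velocity (3.1).
-/

set_option autoImplicit false
set_option linter.unusedSectionVars false

open MeasureTheory Set Filter Topology Function

namespace Pool.Agent.Lib.MP_79abb3_an.FW

open Pool.Agent.Lib.MP_79abb3_an.P25

private theorem btA_cs {f a b : ℤ → ℝ} (hf : ∀ n, 0 ≤ f n) (ha : ∀ n, 0 ≤ a n)
    (hb : ∀ n, 0 ≤ b n) (sa : Summable a) (sb : Summable b) (h : ∀ n, f n ^ 2 = a n * b n) :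
    Summable f ∧ (∑' n, f n) ^ 2 ≤ (∑' n, a n) * ∑' n, b n := by
  have hA : 0 ≤ ∑' n, a n := tsum_nonneg ha
  have hB : 0 ≤ ∑' n, b n := tsum_nonneg hb
  have key : ∀ s : Finset ℤ, ∑ n ∈ s, f n ≤ √((∑' n, a n) * ∑' n, b n) := by
    intro s
    refine Real.le_sqrt_of_sq_le ?_
    refine (Finset.sum_sq_le_sum_mul_sum_of_sq_le_mul s (fun n _ => ha n) (fun n _ => hb n)
      (fun n _ => (h n).le)).trans ?_
    exact mul_le_mul (sa.sum_le_tsum s fun n _ => ha n) (sb.sum_le_tsum s fun n _ => hb n)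
      (Finset.sum_nonneg fun n _ => hb n) hA
  have hs : Summable f := summable_of_sum_le hf key
  refine ⟨hs, ?_⟩
  have h1 : ∑' n, f n ≤ √((∑' n, a n) * ∑' n, b n) := hs.tsum_le_of_sum_le key
  have h2 := pow_le_pow_left₀ (tsum_nonneg hf) h1 2
  rwa [Real.sq_sqrt (mul_nonneg hA hB)] at h2

private theorem btA_sum : Summable fun n : ℤ => 1 / √(1 + |(n : ℝ)|) ^ 3 := by
  have h1 : Summable fun n : ℤ => |(n : ℝ)| ^ (-(3 / 2 : ℝ)) :=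
    Real.summable_abs_int_rpow (by norm_num)
  have h2 : Summable fun n : ℤ => if n = 0 then (1 : ℝ) else 0 :=
    summable_of_ne_finset_zero (s := {0}) fun n hn => by
      rw [Finset.mem_singleton] at hn
      rw [if_neg hn]
  refine Summable.of_nonneg_of_le (fun n => by positivity) (fun n => ?_) (h1.add h2)
  by_cases hn : n = 0
  · subst hn
    have h3 : (0 : ℝ) ≤ |((0 : ℤ) : ℝ)| ^ (-(3 / 2 : ℝ)) := by positivity
    simp only [Int.cast_zero, abs_zero, add_zero, Real.sqrt_one, one_pow, div_one, if_true] at h3 ⊢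
    linarith
  · rw [if_neg hn, add_zero]
    have h3 : (0 : ℝ) < |(n : ℝ)| := abs_pos.2 (by exact_mod_cast hn)
    have h4 : |(n : ℝ)| ^ (-(3 / 2 : ℝ)) = 1 / √|(n : ℝ)| ^ 3 := by
      rw [Real.rpow_neg h3.le, Real.sqrt_eq_rpow, ← Real.rpow_natCast, ← Real.rpow_mul h3.le,
        one_div]
      norm_num
    rw [h4]
    refine one_div_le_one_div_of_le (pow_pos (Real.sqrt_pos.2 h3) 3) ?_
    exact pow_le_pow_left₀ (Real.sqrt_nonneg _) (Real.sqrt_le_sqrt (by linarith)) 3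

section
variable {H : ℝ} [hH : Fact (0 < H)]

theorem bt_le {ω : ℝ} (hω : 0 < ω) : ∃ C, 0 ≤ C ∧ ∀ x : L1 (Xn H),
    (∀ n : ℤ, (x n).1.2.2 = |ω * n| • (x n).1.1) →
    bt ω x ^ 8 ≤ C * th2 x ^ 3 * (th2 x + dd2 x) := by
  have hH0 := hH.out
  obtain ⟨S0, hS0⟩ : ∃ S0, S0 = ∑' n : ℤ, 1 / √(1 + |(n : ℝ)|) ^ 3 := ⟨_, rfl⟩
  have hS0' : 0 ≤ S0 := by rw [hS0]; exact tsum_nonneg fun n => by positivity
  obtain ⟨c0, hc0⟩ : ∃ c0, c0 = H + 1 / (2 * ω) := ⟨_, rfl⟩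
  have hc0' : 0 ≤ c0 := by rw [hc0]; positivity
  obtain ⟨C1, hC1⟩ : ∃ C1, C1 = 2 + 2 / ω ^ 2 := ⟨_, rfl⟩
  have hC1' : 0 ≤ C1 := by rw [hC1]; positivity
  refine ⟨(S0 * c0) ^ 4 * C1, by positivity, fun x hx => ?_⟩
  obtain ⟨-, s2, s3, s4, -⟩ := fun_summable x 0 0 0 0 ω
  obtain ⟨a, ha⟩ : ∃ a : ℤ → ℝ, a = fun n => n2 (x n).1.1 := ⟨_, rfl⟩
  obtain ⟨T, hT⟩ : ∃ T : ℤ → ℝ, T = fun n : ℤ => ‖Top (ω * n) (x n).1.1‖ := ⟨_, rfl⟩
  obtain ⟨r, hr⟩ : ∃ r : ℤ → ℝ, r = fun n : ℤ => √(1 + |(n : ℝ)|) := ⟨_, rfl⟩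
  have ha0 : ∀ n, 0 ≤ a n := fun n => by rw [ha]; exact n2_nonneg _
  have hT0 : ∀ n, 0 ≤ T n := fun n => by rw [hT]; exact norm_nonneg _
  have hr2 : ∀ n : ℤ, r n ^ 2 = 1 + |(n : ℝ)| := fun n => by
    rw [hr]
    exact Real.sq_sqrt (by positivity)
  have hr0 : ∀ n, 0 < r n := fun n => by
    rw [hr]
    exact Real.sqrt_pos.2 (by positivity)
  -- bound of one mode
  have hT1 : ∀ n, r n ^ 2 * T n ^ 2 ≤ c0 * a n ^ 2 := by
    intro n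
    obtain ⟨e1, e2⟩ := norm_Top_le2 (ω * n) (x n).1.1
    have e3 : √(2 * |ω * n|) * T n ≤ a n := by rw [hT, ha]; exact e1
    have e4 : T n ≤ √H * a n := by rw [hT, ha]; exact e2
    have e5 := pow_le_pow_left₀ (mul_nonneg (Real.sqrt_nonneg _) (hT0 n)) e3 2
    have e6 := pow_le_pow_left₀ (hT0 n) e4 2
    rw [mul_pow, Real.sq_sqrt (by positivity), abs_mul, abs_of_pos hω] at e5
    rw [mul_pow, Real.sq_sqrt hH0.le] at e6
    have e7 : |(n : ℝ)| * T n ^ 2 ≤ 1 / (2 * ω) * a n ^ 2 := by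
      rw [one_div, ← div_eq_inv_mul, le_div_iff₀ (by positivity)]
      linarith
    rw [hr2, hc0]
    linarith
  have hd : ∀ n, r n ^ 4 * a n ^ 2 ≤ C1 * (a n ^ 2 + (n2 (x n).1.2.1 ^ 2 + n2 (x n).1.2.2 ^ 2)) := by
    intro n
    have e1 : n2 (x n).1.2.2 = |ω * n| * a n := by
      rw [hx n, n2_rsmul, abs_abs, ha]
    have e2 : n2 (x n).1.2.2 ^ 2 = ω ^ 2 * ((n : ℝ) ^ 2 * a n ^ 2) := by
      rw [e1, mul_pow, sq_abs]
      ring
    have e3 : r n ^ 4 ≤ 2 + 2 * (n : ℝ) ^ 2 := by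
      have : r n ^ 4 = (r n ^ 2) ^ 2 := by ring
      rw [this, hr2]
      have h1 := sq_abs (n : ℝ)
      nlinarith [sq_nonneg (1 - |(n : ℝ)|)]
    have e4 := mul_le_mul_of_nonneg_right e3 (sq_nonneg (a n))
    have e5 : 2 * ((n : ℝ) ^ 2 * a n ^ 2) = 2 / ω ^ 2 * n2 (x n).1.2.2 ^ 2 := by
      rw [e2]
      field_simp
    have e6 : 0 ≤ 2 / ω ^ 2 := by positivity
    have e7 := sq_nonneg (a n)
    have e8 := sq_nonneg (n2 (x n).1.2.1)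
    have e9 := sq_nonneg (n2 (x n).1.2.2)
    rw [hC1]
    nlinarith [mul_nonneg e6 e7, mul_nonneg e6 e8]
  have sa : Summable fun n => a n ^ 2 := by rw [ha]; exact s2
  have s4a : Summable fun n => r n ^ 4 * a n ^ 2 :=
    Summable.of_nonneg_of_le (fun n => by positivity) hd ((sa.add s3).mul_left C1)
  obtain ⟨s2a, h3⟩ := btA_cs (f := fun n => r n ^ 2 * a n ^ 2) (fun n => by positivity)
    (fun n => sq_nonneg (a n)) (fun n => by positivity) sa s4a (fun n => by ring)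
  obtain ⟨s1a, h2⟩ := btA_cs (f := fun n => r n * a n ^ 2)
    (fun n => mul_nonneg (hr0 n).le (sq_nonneg _))
    (fun n => sq_nonneg (a n)) (fun n => by positivity) sa s2a (fun n => by ring)
  have hle : ∀ n, r n ^ 3 * T n ^ 2 ≤ c0 * (r n * a n ^ 2) := by
    intro n
    have := mul_le_mul_of_nonneg_left (hT1 n) (hr0 n).le
    calc r n ^ 3 * T n ^ 2 = r n * (r n ^ 2 * T n ^ 2) := by ring
      _ ≤ _ := this
      _ = _ := by ring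
  have s3T : Summable fun n => r n ^ 3 * T n ^ 2 :=
    Summable.of_nonneg_of_le (fun n => mul_nonneg (pow_nonneg (hr0 n).le 3) (sq_nonneg _)) hle
      (s1a.mul_left c0)
  have sr : Summable fun n => 1 / r n ^ 3 := by rw [hr]; exact btA_sum
  obtain ⟨-, h1⟩ := btA_cs (f := T) hT0 (fun n => by have := hr0 n; positivity)
    (fun n => mul_nonneg (pow_nonneg (hr0 n).le 3) (sq_nonneg _)) sr s3T (fun n => by
      have := (hr0 n).ne'
      field_simp)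
  have hbt : bt ω x = ∑' n, T n := by rw [hT]; rfl
  have hth : th2 x = ∑' n, a n ^ 2 := by rw [ha]; rfl
  have hS : S0 = ∑' n, 1 / r n ^ 3 := by rw [hS0, hr]
  have h4 : ∑' n, r n ^ 3 * T n ^ 2 ≤ c0 * ∑' n, r n * a n ^ 2 := by
    rw [← tsum_mul_left]
    exact s3T.tsum_le_tsum hle (s1a.mul_left c0)
  have h5 : ∑' n, r n ^ 4 * a n ^ 2 ≤ C1 * (th2 x + dd2 x) := by
    have e1 : th2 x + dd2 x =
        ∑' n, (a n ^ 2 + (n2 (x n).1.2.1 ^ 2 + n2 (x n).1.2.2 ^ 2)) := by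
      rw [sa.tsum_add s3, hth]
      rfl
    rw [e1, ← tsum_mul_left]
    exact s4a.tsum_le_tsum hd ((sa.add s3).mul_left C1)
  rw [← hbt, ← hS] at h1
  rw [← hth] at h2 h3
  obtain ⟨B1, hB1⟩ : ∃ B1, B1 = ∑' n, r n * a n ^ 2 := ⟨_, rfl⟩
  obtain ⟨B2, hB2⟩ : ∃ B2, B2 = ∑' n, r n ^ 2 * a n ^ 2 := ⟨_, rfl⟩
  obtain ⟨B4, hB4⟩ : ∃ B4, B4 = ∑' n, r n ^ 4 * a n ^ 2 := ⟨_, rfl⟩
  rw [← hB1] at h2 h4
  rw [← hB2] at h2 h3
  rw [← hB4] at h3 h5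
  have hB1' : 0 ≤ B1 := by
    rw [hB1]; exact tsum_nonneg fun n => mul_nonneg (hr0 n).le (sq_nonneg _)
  have hB2' : 0 ≤ B2 := by rw [hB2]; exact tsum_nonneg fun n => by positivity
  have hth0 : 0 ≤ th2 x := by rw [hth]; exact tsum_nonneg fun n => sq_nonneg _
  have h6 : bt ω x ^ 2 ≤ S0 * c0 * B1 := by
    refine h1.trans ?_
    rw [mul_assoc]
    exact mul_le_mul_of_nonneg_left h4 hS0'
  have h7 : bt ω x ^ 8 ≤ (S0 * c0) ^ 4 * (B1 ^ 2) ^ 2 := by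
    calc bt ω x ^ 8 = (bt ω x ^ 2) ^ 4 := by ring
      _ ≤ (S0 * c0 * B1) ^ 4 := pow_le_pow_left₀ (sq_nonneg _) h6 4
      _ = _ := by ring
  have h8 : (B1 ^ 2) ^ 2 ≤ th2 x ^ 3 * (C1 * (th2 x + dd2 x)) := by
    calc (B1 ^ 2) ^ 2 ≤ (th2 x * B2) ^ 2 := pow_le_pow_left₀ (sq_nonneg _) h2 2
      _ = th2 x ^ 2 * B2 ^ 2 := by ring
      _ ≤ th2 x ^ 2 * (th2 x * B4) := mul_le_mul_of_nonneg_left h3 (sq_nonneg _)
      _ = th2 x ^ 3 * B4 := by ring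
      _ ≤ _ := mul_le_mul_of_nonneg_left h5 (pow_nonneg hth0 3)
  calc bt ω x ^ 8 ≤ (S0 * c0) ^ 4 * (B1 ^ 2) ^ 2 := h7
    _ ≤ (S0 * c0) ^ 4 * (th2 x ^ 3 * (C1 * (th2 x + dd2 x))) :=
        mul_le_mul_of_nonneg_left h8 (by positivity)
    _ = _ := by ring

end

end Pool.Agent.Lib.MP_79abb3_an.FW
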