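import Pool.Agent.Lib.MP_79abb3_an.FW.VelA
import Pool.Agent.Lib.MP_79abb3_an.P25.Data
import Pool.Agent.Lib.MP_79abb3_an.P25.FieldAt
import Mathlib.MeasureTheory.Integral.CurveIntegral.Poincare

/-!
FW-75: Fourier modes of the data.
-/

set_option autoImplicit false
set_option linter.unusedSectionVars false

open MeasureTheory Set Filter Topology Function

namespace Pool.Agent.Lib.MP_79abb3_an.FW

open Pool.Agent.Lib.MP_79abb3_an.P25

section
variable {H : ℝ} [hH : Fact (0 < H)]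

/-- The velocity family with vorticity `c`. -/
noncomputable def dst (ω : ℝ) (c : ℤ → CI H) (n : ℤ) : Xn H :=
  vx (ω * n) (Top (ω * n) (c n)) (|ω * n| • Top (ω * n) (c n) - c n)

/-- Vorticity modes of admissible data. -/
structure DV (ω : ℝ) (c c1 : ℤ → CI H) : Prop where
  d : ∀ n, IsD (c n) (c1 n)
  s : Summable fun n => ‖c n‖
  sn : Summable fun n : ℤ => |ω * n| * ‖c n‖
  s1 : Summable fun n => ‖c1 n‖
  y : Sy c
  y1 : Sy c1
  h : ∀ n, ex (c n) H = 0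
  w : ∀ n : ℤ, ex (Top (ω * n) (c n)) 0 = 0

/-- Stream function. -/
theorem daA_stream {v0 w0 : ℝ × ℝ → ℝ} (hv : ContDiff ℝ 4 v0)
    (hw : ContDiff ℝ 4 w0) (hd : ∀ p, fderiv ℝ v0 p (1, 0) + fderiv ℝ w0 p (0, 1) = 0)
    (bw : ∀ y, w0 (y, 0) = 0) :
    ∃ ψ : ℝ × ℝ → ℝ, ContDiff ℝ (5 : ℕ) ψ ∧ (∀ y, ψ (y, 0) = 0) ∧
      (∀ p, fderiv ℝ ψ p (0, 1) = v0 p) ∧ ∀ p, fderiv ℝ ψ p (1, 0) = -w0 p := by
  set A : ℝ × ℝ → (ℝ × ℝ →L[ℝ] ℝ) := fun p =>
    v0 p • ContinuousLinearMap.snd ℝ ℝ ℝ - w0 p • ContinuousLinearMap.fst ℝ ℝ ℝ with hA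
  have cA : ContDiff ℝ 4 A := (hv.smul contDiff_const).sub (hw.smul contDiff_const)
  have hv1 : Differentiable ℝ v0 := hv.differentiable (by norm_num)
  have hw1 : Differentiable ℝ w0 := hw.differentiable (by norm_num)
  have hA1 : ∀ p, HasFDerivAt A ((fderiv ℝ v0 p).smulRight (ContinuousLinearMap.snd ℝ ℝ ℝ) -
      (fderiv ℝ w0 p).smulRight (ContinuousLinearMap.fst ℝ ℝ ℝ)) p := by
    intro p
    have h1 := (hv1 p).hasFDerivAt.smul_const (ContinuousLinearMap.snd ℝ ℝ ℝ)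
    have h2 := (hw1 p).hasFDerivAt.smul_const (ContinuousLinearMap.fst ℝ ℝ ℝ)
    exact h1.sub h2
  obtain ⟨f, hf⟩ := convex_univ.exists_forall_hasFDerivAt_of_fderiv_symmetric (s := univ) (ω := A)
    isOpen_univ (cA.differentiable (by norm_num)).differentiableOn (by
      intro a _ x y
      rw [(hA1 a).fderiv]
      have e : ∀ (L : ℝ × ℝ →L[ℝ] ℝ) (x : ℝ × ℝ), L x = x.1 * L (1, 0) + x.2 * L (0, 1) := by
        intro L x
        have : x = x.1 • ((1:ℝ), (0:ℝ)) + x.2 • ((0:ℝ), (1:ℝ)) := by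
          ext <;> simp
        conv_lhs => rw [this]
        rw [map_add, map_smul, map_smul, smul_eq_mul, smul_eq_mul]
      simp only [sub_apply, ContinuousLinearMap.smulRight_apply,
        smul_apply, ContinuousLinearMap.coe_fst', ContinuousLinearMap.coe_snd',
        smul_eq_mul]
      rw [e (fderiv ℝ v0 a) x, e (fderiv ℝ w0 a) x, e (fderiv ℝ v0 a) y, e (fderiv ℝ w0 a) y]
      have h := hd a
      linear_combination (x.1 * y.2 - x.2 * y.1) * h)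
  have hf' : ∀ p, HasFDerivAt f (A p) p := fun p => hf p (mem_univ p)
  have hg : ∀ p, HasFDerivAt (fun p => f p - f (0, 0)) (A p) p := fun p => (hf' p).sub_const _
  refine ⟨fun p => f p - f (0, 0), ?_, ?_, ?_, ?_⟩
  · have h := (contDiff_succ_iff_hasFDerivAt (𝕜 := ℝ) (f := fun p => f p - f (0, 0)) (n := 4)).2
      ⟨A, by exact_mod_cast cA, hg⟩
    exact_mod_cast h
  · intro y
    have h1 : ∀ y : ℝ, HasDerivAt (fun y : ℝ => f (y, 0) - f (0, 0)) 0 y := by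
      intro y
      have h2 : HasDerivAt (fun y : ℝ => (y, (0:ℝ))) ((1:ℝ), (0:ℝ)) y :=
        (hasDerivAt_id y).prodMk (hasDerivAt_const y 0)
      have h3 := (hg (y, 0)).comp_hasDerivAt y h2
      have h4 : A (y, 0) ((1:ℝ), (0:ℝ)) = 0 := by
        simp [hA, bw y]
      rw [h4] at h3
      exact h3
    have h5 := is_const_of_deriv_eq_zero (f := fun y : ℝ => f (y, 0) - f (0, 0))
      (fun y => (h1 y).differentiableAt) (fun y => (h1 y).deriv) y 0
    simp only [sub_self] at h5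
    exact h5
  · intro p
    rw [(hg p).fderiv]
    simp [hA]
  · intro p
    rw [(hg p).fderiv]
    simp [hA]

theorem daA_fco_sub {Y : ℝ} {F G : ℝ × ℝ → ℝ} (hF : Continuous F) (hG : Continuous G) (n : ℤ) (z : ℝ) :
    fco Y (fun p => F p - G p) n z = fco Y F n z - fco Y G n z := by
  have e : ∀ K : ℝ × ℝ → ℝ, Continuous K → IntervalIntegrable
      (fun y => ((K (y, z) : ℝ) : ℂ) * star (ee (Real.pi / Y) n y)) volume (-Y) Y := by
    intro K hK
    exact (fo_continuous_y hK _ n z).intervalIntegrable _ _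
  have h := intervalIntegral.integral_sub (e F hF) (e G hG)
  simp only [fco]
  rw [← mul_sub, ← h]
  congr 2
  funext y
  push_cast
  ring

theorem daA_fco_neg {Y : ℝ} {F : ℝ × ℝ → ℝ} (n : ℤ) (z : ℝ) :
    fco Y (fun p => -F p) n z = -fco Y F n z := by
  simp only [fco]
  rw [← mul_neg, ← intervalIntegral.integral_neg]
  congr 2
  funext y
  push_cast
  ring

theorem data2 {r : ℝ} [Fact (0 < r + 2)] (hr : 0 < r) {v0 w0 : ℝ × ℝ → ℝ} (hv : ContDiff ℝ 4 v0)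
    (hw : ContDiff ℝ 4 w0) (hd : ∀ p, fderiv ℝ v0 p (1, 0) + fderiv ℝ w0 p (0, 1) = 0)
    (bv : ∀ y, v0 (y, 0) = 0) (bw : ∀ y, w0 (y, 0) = 0) :
    ∃ c c1 : ℤ → CI (r + 2), DV (Real.pi / (r + 2)) c c1 ∧ ∀ y z, |y| ≤ r → z ∈ Icc 0 r →
      fld (Real.pi / (r + 2)) (fv (Real.pi / (r + 2)) (dst (Real.pi / (r + 2)) c)) y z = v0 (y, z) ∧
      fld (Real.pi / (r + 2)) (fw (Real.pi / (r + 2)) (dst (Real.pi / (r + 2)) c)) y z = w0 (y, z) := by
  obtain ⟨ψ, cψ, ψ0, ψz, ψy⟩ := daA_stream hv hw hd bw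
  have cψ1 : ContDiff ℝ 1 ψ := cψ.of_le (by norm_num)
  have cP : ContDiff ℝ (5 : ℕ) (dcut r hr ψ) := dcut_contDiff (m := 5) hr cψ
  set Vc : ℝ × ℝ → ℝ := fun p => fderiv ℝ (dcut r hr ψ) p (0, 1) with hVc
  set Wc : ℝ × ℝ → ℝ := fun p => -fderiv ℝ (dcut r hr ψ) p (1, 0) with hWc
  have h45 : (4 : WithTop ℕ∞) + 1 ≤ (5 : ℕ) := by norm_num
  have h34 : (3 : WithTop ℕ∞) + 1 ≤ 4 := by norm_num
  have cV : ContDiff ℝ 4 Vc := fo_contDiff cP h45 _
  have cW : ContDiff ℝ 4 Wc := (fo_contDiff cP h45 _).neg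
  set Oc : ℝ × ℝ → ℝ := fun p => fderiv ℝ Wc p (1, 0) - fderiv ℝ Vc p (0, 1) with hOc
  have cWy : ContDiff ℝ 3 (fun p => fderiv ℝ Wc p (1, 0)) := fo_contDiff cW h34 _
  have cVz : ContDiff ℝ 3 (fun p => fderiv ℝ Vc p (0, 1)) := fo_contDiff cV h34 _
  have cO : ContDiff ℝ 3 Oc := cWy.sub cVz
  -- vanishing far away
  have farP : ∀ y z, r + 1 / 2 < |y| ∨ r + 1 / 2 < |z| → dcut r hr ψ =ᶠ[𝓝 (y, z)] fun _ => 0 := by
    intro y z h
    have h2 : IsOpen {p : ℝ × ℝ | r + 1 / 2 < |p.1| ∨ r + 1 / 2 < |p.2|} :=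
      (isOpen_lt continuous_const (continuous_abs.comp continuous_fst)).union
        (isOpen_lt continuous_const (continuous_abs.comp continuous_snd))
    filter_upwards [h2.mem_nhds (show (y, z) ∈ {p : ℝ × ℝ | r + 1 / 2 < |p.1| ∨ r + 1 / 2 < |p.2|}
      from h)] with p hp
    exact dcut_zero hr ψ (y := p.1) (z := p.2) (hp.imp le_of_lt le_of_lt)
  have fd0 : ∀ (F : ℝ × ℝ → ℝ), (∀ y z, r + 1 / 2 < |y| ∨ r + 1 / 2 < |z| → F =ᶠ[𝓝 (y, z)] fun _ => 0) →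
      ∀ v : ℝ × ℝ, ∀ y z, r + 1 / 2 < |y| ∨ r + 1 / 2 < |z| →
        (fun p => fderiv ℝ F p v) =ᶠ[𝓝 (y, z)] fun _ => 0 := by
    intro F hF v y z h
    filter_upwards [(hF y z h).fderiv (𝕜 := ℝ)] with p hp
    rw [hp, fderiv_const_apply]
    rfl
  have farV : ∀ y z, r + 1 / 2 < |y| ∨ r + 1 / 2 < |z| → Vc =ᶠ[𝓝 (y, z)] fun _ => 0 :=
    fun y z h => fd0 (dcut r hr ψ) farP (0, 1) y z h
  have farW : ∀ y z, r + 1 / 2 < |y| ∨ r + 1 / 2 < |z| → Wc =ᶠ[𝓝 (y, z)] fun _ => 0 := by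
    intro y z h
    filter_upwards [fd0 (dcut r hr ψ) farP (1, 0) y z h] with p hp
    rw [hWc]
    simp only
    rw [hp, neg_zero]
  have farO : ∀ y z, r + 1 / 2 < |y| ∨ r + 1 / 2 < |z| → Oc (y, z) = 0 := by
    intro y z h
    have h1 := (fd0 Wc farW (1, 0) y z h).self_of_nhds
    have h2 := (fd0 Vc farV (0, 1) y z h).self_of_nhds
    simp only at h1 h2
    rw [hOc]
    simp only
    rw [h1, h2, sub_zero]
  have hgt : ∀ y z : ℝ, r + 1 ≤ |y| → r + 1 / 2 < |y| ∨ r + 1 / 2 < |z| := fun y z h =>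
    Or.inl (by linarith)
  -- Fourier
  obtain ⟨P, P1, P_1, P_2, P_3, P_4, P_5, P_6, P_7, P_8, P_9, P_10⟩ := fourier hr
    (cP.of_le (by norm_num)) (fun y z h => (farP y z (hgt y z h)).self_of_nhds)
  obtain ⟨V, V1, V_1, V_2, V_3, V_4, V_5, V_6, V_7, V_8, V_9, V_10⟩ := fourier hr
    (cV.of_le (by norm_num)) (fun y z h => (farV y z (hgt y z h)).self_of_nhds)
  obtain ⟨W, W1, W_1, W_2, W_3, W_4, W_5, W_6, W_7, W_8, W_9, W_10⟩ := fourier hr
    (cW.of_le (by norm_num)) (fun y z h => (farW y z (hgt y z h)).self_of_nhds)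
  obtain ⟨c, c1, c_1, c_2, c_3, c_4, c_5, c_6, c_7, c_8, c_9, c_10⟩ := fourier hr
    cO (fun y z h => farO y z (hgt y z h))
  set ω : ℝ := Real.pi / (r + 2) with hω
  have hω0 : 0 < ω := div_pos Real.pi_pos (by linarith)
  have eV : ∀ n, V n = P1 n := by
    intro n
    apply ci_ext
    intro z hz
    rw [V_1 n z hz, P_2 n z hz]
  have eW : ∀ n : ℤ, W n = (-(Complex.I * ((ω * n : ℝ) : ℂ))) • P n := by
    intro n
    apply ci_ext
    intro z hz
    rw [W_1 n z hz, ex_smul, neg_mul, ← P_10 n z hz]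
    exact daA_fco_neg n z
  have dW : ∀ n : ℤ, IsD (W n) ((-(Complex.I * ((ω * n : ℝ) : ℂ))) • V n) := by
    intro n
    rw [eW n, eV n]
    exact (P_3 n).da_csmul _
  have ec : ∀ n : ℤ, c n = (Complex.I * ((ω * n : ℝ) : ℂ)) • W n - V1 n := by
    intro n
    apply ci_ext
    intro z hz
    rw [c_1 n z hz, ex_sub, ex_smul, V_2 n z hz, ← W_10 n z hz]
    exact daA_fco_sub cWy.continuous cVz.continuous n z
  have hrH : r + 1 / 2 < |r + 2| := by
    rw [abs_of_pos (by linarith)]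
    linarith
  have mH : r + 2 ∈ Icc 0 (r + 2) := ⟨by linarith, le_refl _⟩
  have m0 : (0:ℝ) ∈ Icc 0 (r + 2) := ⟨le_refl _, by linarith⟩
  have V0 : ∀ n, ex (V n) 0 = 0 := by
    intro n
    rw [V_1 n 0 m0]
    exact fco_zero fun y => dcut_dz0 hr cψ1 ψ0 (fun y => by rw [ψz, bv]) y
  have W0 : ∀ n, ex (W n) 0 = 0 := by
    intro n
    rw [W_1 n 0 m0]
    refine fco_zero fun y => ?_
    show -fderiv ℝ (dcut r hr ψ) (y, 0) (1, 0) = 0
    rw [dcut_dy0 hr cψ1 ψ0 y, neg_zero]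
  have VH : ∀ n, ex (V n) (r + 2) = 0 := by
    intro n
    rw [V_1 n _ mH]
    exact fco_zero fun y => (farV y (r + 2) (Or.inr hrH)).self_of_nhds
  have WH : ∀ n, ex (W n) (r + 2) = 0 := by
    intro n
    rw [W_1 n _ mH]
    exact fco_zero fun y => (farW y (r + 2) (Or.inr hrH)).self_of_nhds
  have eT : ∀ n : ℤ, V n + is (ω * n) • W n = Top (ω * n) (c n) := by
    intro n
    refine Top_unique (ω * n) ((V_3 n).da_add ((dW n).da_csmul _)) ?_ ?_
    · rw [ex_add, ex_smul, VH n, WH n, mul_zero, add_zero]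
    · rw [ec n]
      apply ci_ext
      intro z _
      simp only [ex_add, ex_neg, ex_smul, ex_rsmul, ex_sub]
      have h1 := dt_is_sq (ω * n)
      have h2 := fld_is_mul_abs (ω * n)
      linear_combination (-ex (V n) z) * h1 - (ex (W n) z) * h2
  have efw : fw ω (dst ω c) = W := by
    funext n
    rw [fw_eq (fun n => rfl) n]
    have h1 : (dst ω c n).2.1 = V n + is (ω * n) • W n := (eT n).symm
    rw [h1]
    have h2 : W n = Eop (ω * n) ((-(Complex.I * ((ω * n : ℝ) : ℂ))) • V n + |ω * n| • W n) :=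
      Eop_unique (ω * n) (dW n) (W0 n) rfl
    conv_rhs => rw [h2]
    rw [← map_smul, ← map_neg]
    congr 1
    apply ci_ext
    intro z _
    simp only [ex_add, ex_neg, ex_smul, ex_rsmul]
    have h3 := is_sq_mul (ω * n)
    have h4 := fld_is_mul_abs (ω * n)
    linear_combination (-ex (V n) z) * h4 - (ex (W n) z) * h3
  have efv : fv ω (dst ω c) = V := by
    funext n
    rw [fv_eq, efw]
    have h1 : (dst ω c n).2.1 = V n + is (ω * n) • W n := (eT n).symm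
    rw [h1, add_sub_cancel_right]
  refine ⟨c, c1, ⟨c_3, c_4, ?_, c_6, c_7, c_8, ?_, ?_⟩, ?_⟩
  · have h1 := c_5.mul_left ω
    refine h1.congr fun n => ?_
    rw [abs_mul, abs_of_pos hω0, mul_assoc]
  · intro n
    rw [c_1 n _ mH]
    exact fco_zero fun y => farO y (r + 2) (Or.inr hrH)
  · intro n
    rw [← eT n, ex_add, ex_smul, V0 n, W0 n, mul_zero, add_zero]
  · intro y z hy hz
    have hzr : |z| ≤ r := by rw [abs_of_nonneg hz.1]; exact hz.2
    have hy2 : |y| ≤ r + 2 := by linarith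
    have hz2 : z ∈ Icc 0 (r + 2) := ⟨hz.1, by linarith [hz.2]⟩
    have hn := (dcut_near hr ψ hy hzr).fderiv_eq (𝕜 := ℝ)
    rw [efw, efv, V_9 y z hy2 hz2, W_9 y z hy2 hz2]
    constructor
    · show fderiv ℝ (dcut r hr ψ) (y, z) (0, 1) = _
      rw [hn, ψz]
    · show -fderiv ℝ (dcut r hr ψ) (y, z) (1, 0) = _
      rw [hn, ψy, neg_neg]

end

end Pool.Agent.Lib.MP_79abb3_an.FW
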