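import Pool.Agent.Lib.MP_79abb3_an.FW.NormsA

/-!
FW-1b: sums and continuity.
-/

set_option autoImplicit false
set_option linter.unusedSectionVars false

open MeasureTheory Set Filter Topology Function

namespace Pool.Agent.Lib.MP_79abb3_an.FW

open Pool.Agent.Lib.MP_79abb3_an.P25

section
variable {H : ℝ} [hH : Fact (0 < H)]

private theorem n1_le_norm' (f : CI H) : n1 f ≤ H * ‖f‖ := by
  have h1 := n1_le_n2 f
  have h2 := n2_le_norm f
  have h3 : √H * √H = H := Real.mul_self_sqrt hH.out.le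
  calc n1 f ≤ √H * n2 f := h1
    _ ≤ √H * (√H * ‖f‖) := mul_le_mul_of_nonneg_left h2 (Real.sqrt_nonneg _)
    _ = H * ‖f‖ := by rw [← mul_assoc, h3]

theorem n2_continuous : Continuous (n2 : CI H → ℝ) := by
  refine (LipschitzWith.of_dist_le_mul (K := NNReal.mk (√H) (Real.sqrt_nonneg _)) fun f g => ?_).continuous
  rw [Real.dist_eq, dist_eq_norm f g]
  show |n2 f - n2 g| ≤ √H * ‖f - g‖
  have h1 : n2 f ≤ n2 (f - g) + n2 g := by
    have := n2_add (f - g) g
    rwa [sub_add_cancel] at this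
  have h2 : n2 g ≤ n2 (g - f) + n2 f := by
    have := n2_add (g - f) f
    rwa [sub_add_cancel] at this
  have h3 := n2_le_norm (f - g)
  have h4 := n2_le_norm (g - f)
  rw [norm_sub_rev] at h4
  rw [abs_le]
  constructor <;> linarith

private theorem n1_continuous' : Continuous (n1 : CI H → ℝ) := by
  refine (LipschitzWith.of_dist_le_mul (K := NNReal.mk H hH.out.le) fun f g => ?_).continuous
  rw [Real.dist_eq, dist_eq_norm f g]
  show |n1 f - n1 g| ≤ H * ‖f - g‖
  have h1 : n1 f ≤ n1 (f - g) + n1 g := by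
    have := n1_add (f - g) g
    rwa [sub_add_cancel] at this
  have h2 : n1 g ≤ n1 (g - f) + n1 f := by
    have := n1_add (g - f) f
    rwa [sub_add_cancel] at this
  have h3 := n1_le_norm' (f - g)
  have h4 := n1_le_norm' (g - f)
  rw [norm_sub_rev] at h4
  rw [abs_le]
  constructor <;> linarith

theorem n2_summable {f : ℤ → CI H} (hf : Summable fun n => ‖f n‖) :
    (Summable fun n => n2 (f n)) ∧ Summable fun n => n2 (f n) ^ 2 := by
  have h1 : Summable fun n => n2 (f n) :=
    Summable.of_nonneg_of_le (fun n => n2_nonneg _) (fun n => n2_le_norm _) (hf.mul_left (√H))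
  refine ⟨h1, ?_⟩
  refine Summable.of_nonneg_of_le (fun n => sq_nonneg _) (fun n => ?_)
    (h1.mul_left (∑' m, n2 (f m)))
  rw [sq]
  exact mul_le_mul_of_nonneg_right (h1.le_tsum n (fun _ _ => n2_nonneg _)) (n2_nonneg _)

theorem n1_summable {f : ℤ → CI H} (hf : Summable fun n => ‖f n‖) :
    Summable fun n => n1 (f n) :=
  Summable.of_nonneg_of_le (fun n => n1_nonneg _) (fun n => n1_le_norm' _) (hf.mul_left H)

theorem n2_tsum_le {f : ℤ → CI H} (hf : Summable fun n => ‖f n‖) :
    n2 (∑' n, f n) ≤ ∑' n, n2 (f n) := by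
  have h0 : Summable f := hf.of_norm
  have h1 : Tendsto (fun s : Finset ℤ => n2 (∑ n ∈ s, f n)) atTop (𝓝 (n2 (∑' n, f n))) :=
    (n2_continuous.tendsto _).comp h0.hasSum
  refine le_of_tendsto' h1 fun s => ?_
  refine (Finset.le_sum_of_subadditive n2 n2_zero.le n2_add s f).trans ?_
  exact (n2_summable hf).1.sum_le_tsum s (fun _ _ => n2_nonneg _)

theorem n1_tsum_le {f : ℤ → CI H} (hf : Summable fun n => ‖f n‖) :
    n1 (∑' n, f n) ≤ ∑' n, n1 (f n) := by
  have h0 : Summable f := hf.of_norm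
  have h1 : Tendsto (fun s : Finset ℤ => n1 (∑ n ∈ s, f n)) atTop (𝓝 (n1 (∑' n, f n))) :=
    (n1_continuous'.tendsto _).comp h0.hasSum
  refine le_of_tendsto' h1 fun s => ?_
  refine (Finset.le_sum_of_subadditive n1 n1_zero.le n1_add s f).trans ?_
  exact (n1_summable hf).sum_le_tsum s (fun _ _ => n1_nonneg _)

end

end Pool.Agent.Lib.MP_79abb3_an.FW
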