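import Pool.Agent.Lib.MP_79abb3_an.FW.DaA
import Pool.Agent.Lib.MP_79abb3_an.FW.NormsB
import Pool.Agent.Lib.MP_79abb3_an.P25.LinSrc

/-!
FW-76: the initial state.
-/

set_option autoImplicit false
set_option linter.unusedSectionVars false

open MeasureTheory Set Filter Topology Function

namespace Pool.Agent.Lib.MP_79abb3_an.FW

open Pool.Agent.Lib.MP_79abb3_an.P25

section
variable {H : ℝ} [hH : Fact (0 < H)]

/-- The cutoff. -/
private noncomputable def chiF (z1 z : ℝ) : ℝ := Real.smoothTransition (2 * z / z1 - 1)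

private theorem chiF_cd (z1 : ℝ) : ContDiff ℝ 1 (chiF z1) :=
  (Real.smoothTransition.contDiff (n := 1)).comp (by fun_prop)

private theorem chiF_cont (z1 : ℝ) : Continuous (chiF z1) := (chiF_cd z1).continuous

private theorem chiF1_cont (z1 : ℝ) : Continuous (deriv (chiF z1)) :=
  (chiF_cd z1).continuous_deriv le_rfl

private theorem chiF_der (z1 z : ℝ) : HasDerivAt (chiF z1) (deriv (chiF z1) z) z :=
  ((chiF_cd z1).differentiable one_ne_zero z).hasDerivAt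

private theorem chiF_zero (z1 : ℝ) : chiF z1 0 = 0 := by
  unfold chiF
  apply Real.smoothTransition.zero_of_nonpos
  simp

private theorem chiF_one {z1 z : ℝ} (h : 0 < z1) (hz : z1 ≤ z) : chiF z1 z = 1 := by
  unfold chiF
  apply Real.smoothTransition.one_of_one_le
  have : 2 ≤ 2 * z / z1 := by
    rw [le_div_iff₀ h]
    linarith
  linarith

private theorem chiF_nonneg (z1 z : ℝ) : 0 ≤ chiF z1 z := Real.smoothTransition.nonneg _
private theorem chiF_le (z1 z : ℝ) : chiF z1 z ≤ 1 := Real.smoothTransition.le_one _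

private noncomputable def cx (H : ℝ) [Fact (0 < H)] (z1 : ℝ) : CI H := rc (chiF z1) (chiF_cont z1)
private noncomputable def cx1 (H : ℝ) [Fact (0 < H)] (z1 : ℝ) : CI H :=
  rc (deriv (chiF z1)) (chiF1_cont z1)

private theorem cx_isD (z1 : ℝ) : IsD (cx H z1) (cx1 H z1) := by
  intro z hz
  have h1 : HasDerivWithinAt (fun z : ℝ => ((chiF z1 z : ℝ) : ℂ)) ((deriv (chiF z1) z : ℝ) : ℂ)
      (Icc 0 H) z := (chiF_der z1 z).ofReal_comp.hasDerivWithinAt
  have h2 : ex (cx1 H z1) z = ((deriv (chiF z1) z : ℝ) : ℂ) := ex_rc _ _ hz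
  rw [h2]
  exact h1.congr (fun y hy => ex_rc _ _ hy) (ex_rc _ _ hz)

private theorem cx_star (z1 : ℝ) : star (cx H z1) = cx H z1 := by
  refine ci_ext fun z hz => ?_
  rw [ex_star]
  unfold cx
  rw [ex_rc _ _ hz, Complex.star_def, Complex.conj_ofReal]

private theorem cx1_star (z1 : ℝ) : star (cx1 H z1) = cx1 H z1 := by
  refine ci_ext fun z hz => ?_
  rw [ex_star]
  unfold cx1
  rw [ex_rc _ _ hz, Complex.star_def, Complex.conj_ofReal]

private noncomputable def stF (ω z1 : ℝ) (c c1 : ℤ → CI H) (n : ℤ) : Xn H :=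
  ((cx H z1 * c n, cx1 H z1 * c n + cx H z1 * c1 n, |ω * n| • (cx H z1 * c n)),
   (Top (ω * n) (c n - cx H z1 * c n),
    |ω * n| • Top (ω * n) (c n - cx H z1 * c n) - (c n - cx H z1 * c n),
    |ω * n| • Top (ω * n) (c n - cx H z1 * c n)))

private theorem stF_summable {ω : ℝ} {c c1 : ℤ → CI H} (hc : DV ω c c1) (z1 : ℝ) :
    Summable fun n => ‖stF ω z1 c c1 n‖ := by
  set A := ‖cx H z1‖ with hA
  set B := ‖cx1 H z1‖ with hB
  have hA0 : 0 ≤ A := norm_nonneg _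
  have hB0 : 0 ≤ B := norm_nonneg _
  have hH0 : 0 < H := hH.out
  have hsum : Summable fun n : ℤ => (A + B + H * (1 + A) + 2 * (1 + A)) * ‖c n‖ + A * ‖c1 n‖ +
      A * (|ω * n| * ‖c n‖) :=
    ((hc.s.mul_left _).add (hc.s1.mul_left _)).add (hc.sn.mul_left _)
  refine Summable.of_nonneg_of_le (fun n => norm_nonneg _) (fun n => ?_) hsum
  have e1 : ‖cx H z1 * c n‖ ≤ A * ‖c n‖ := norm_mul_le _ _
  have e2 : ‖cx1 H z1 * c n‖ ≤ B * ‖c n‖ := norm_mul_le _ _
  have e3 : ‖cx H z1 * c1 n‖ ≤ A * ‖c1 n‖ := norm_mul_le _ _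
  have e4 : ‖c n - cx H z1 * c n‖ ≤ (1 + A) * ‖c n‖ := by
    calc ‖c n - cx H z1 * c n‖ ≤ ‖c n‖ + ‖cx H z1 * c n‖ := norm_sub_le _ _
      _ ≤ (1 + A) * ‖c n‖ := by linarith
  have e5 : ‖Top (ω * n) (c n - cx H z1 * c n)‖ ≤ H * ((1 + A) * ‖c n‖) :=
    (norm_Top_le _ _).trans (mul_le_mul_of_nonneg_left e4 hH0.le)
  have e6 : ‖|ω * n| • Top (ω * n) (c n - cx H z1 * c n)‖ ≤ (1 + A) * ‖c n‖ := by
    rw [norm_smul, Real.norm_eq_abs, abs_abs]
    exact (norm_kTop_le _ _).trans e4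
  have e7 : ‖|ω * n| • (cx H z1 * c n)‖ ≤ A * (|ω * n| * ‖c n‖) := by
    rw [norm_smul, Real.norm_eq_abs, abs_abs]
    calc |ω * n| * ‖cx H z1 * c n‖ ≤ |ω * n| * (A * ‖c n‖) :=
          mul_le_mul_of_nonneg_left e1 (abs_nonneg _)
      _ = A * (|ω * n| * ‖c n‖) := by ring
  have e8 : ‖cx1 H z1 * c n + cx H z1 * c1 n‖ ≤ B * ‖c n‖ + A * ‖c1 n‖ :=
    (norm_add_le _ _).trans (add_le_add e2 e3)
  have e9 : ‖|ω * n| • Top (ω * n) (c n - cx H z1 * c n) - (c n - cx H z1 * c n)‖ ≤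
      2 * ((1 + A) * ‖c n‖) := by
    refine (norm_sub_le _ _).trans ?_
    linarith
  have p1 : 0 ≤ A * ‖c n‖ := mul_nonneg hA0 (norm_nonneg _)
  have p2 : 0 ≤ B * ‖c n‖ := mul_nonneg hB0 (norm_nonneg _)
  have p3 : 0 ≤ A * ‖c1 n‖ := mul_nonneg hA0 (norm_nonneg _)
  have p4 : 0 ≤ H * ((1 + A) * ‖c n‖) := by positivity
  have p5 : 0 ≤ (1 + A) * ‖c n‖ := by positivity
  have p6 : 0 ≤ A * (|ω * n| * ‖c n‖) := by positivity
  have e : (A + B + H * (1 + A) + 2 * (1 + A)) * ‖c n‖ + A * ‖c1 n‖ + A * (|ω * n| * ‖c n‖) =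
      A * ‖c n‖ + B * ‖c n‖ + H * ((1 + A) * ‖c n‖) + 2 * ((1 + A) * ‖c n‖) + A * ‖c1 n‖ +
        A * (|ω * n| * ‖c n‖) := by ring
  rw [e]
  unfold stF
  simp only [Prod.norm_def]
  refine max_le (max_le ?_ (max_le ?_ ?_)) (max_le ?_ (max_le ?_ ?_)) <;> linarith

private theorem Vz {z1 : ℝ} (hz : 0 < z1) (k : ℝ) (f : CI H) {z : ℝ} (hz' : z ∈ Icc z1 H) :
    ex (Top k (f - cx H z1 * f)) z = 0 := by
  have hz2 : z ∈ Icc (0:ℝ) H := ⟨hz.le.trans hz'.1, hz'.2⟩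
  rw [Top_apply k _ hz2]
  rw [intervalIntegral.integral_congr (g := fun _ => (0:ℂ))]
  · simp
  · intro x hx
    rw [uIcc_of_le hz'.2] at hx
    have hx2 : x ∈ Icc (0:ℝ) H := ⟨hz2.1.trans hx.1, hx.2⟩
    have e1 : ex (cx H z1) x = 1 := by
      unfold cx
      rw [ex_rc _ _ hx2, chiF_one hz (hz'.1.trans hx.1), Complex.ofReal_one]
    simp only [ex_sub, ex_mul, e1, one_mul, sub_self, mul_zero]

private theorem Vb {z1 : ℝ} (hz : 0 < z1) (hzH : z1 ≤ H) (k : ℝ) (f : CI H) {z : ℝ}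
    (hz' : z ∈ Icc 0 z1) : ‖ex (Top k (f - cx H z1 * f)) z‖ ≤ z1 * ‖f‖ := by
  have hz2 : z ∈ Icc (0:ℝ) H := ⟨hz'.1, hz'.2.trans hzH⟩
  have hcf := continuous_ex (f - cx H z1 * f)
  have hcont : Continuous fun x : ℝ => ((Real.exp (-|k| * (x - z)) : ℝ) : ℂ) *
      ex (f - cx H z1 * f) x := Continuous.mul (by fun_prop) hcf
  rw [Top_apply k _ hz2, ← intervalIntegral.integral_add_adjacent_intervals (b := z1)
    (hcont.intervalIntegrable _ _) (hcont.intervalIntegrable _ _)]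
  have h2 : ∫ x in z1..H, ((Real.exp (-|k| * (x - z)) : ℝ) : ℂ) * ex (f - cx H z1 * f) x = 0 := by
    rw [intervalIntegral.integral_congr (g := fun _ => (0:ℂ))]
    · simp
    · intro x hx
      rw [uIcc_of_le hzH] at hx
      have hx2 : x ∈ Icc (0:ℝ) H := ⟨hz.le.trans hx.1, hx.2⟩
      have e1 : ex (cx H z1) x = 1 := by
        unfold cx
        rw [ex_rc _ _ hx2, chiF_one hz hx.1, Complex.ofReal_one]
      simp only [ex_sub, ex_mul, e1, one_mul, sub_self, mul_zero]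
  rw [h2, add_zero]
  refine (intervalIntegral.norm_integral_le_of_norm_le_const (C := ‖f‖) fun x hx => ?_).trans ?_
  · rw [uIoc_of_le hz'.2] at hx
    have hx2 : x ∈ Icc (0:ℝ) H := ⟨hz2.1.trans hx.1.le, hx.2.trans hzH⟩
    rw [norm_mul, Complex.norm_real, Real.norm_eq_abs, abs_of_pos (Real.exp_pos _)]
    have h1 : Real.exp (-|k| * (x - z)) ≤ 1 := by
      rw [Real.exp_le_one_iff]
      have : 0 ≤ x - z := by linarith [hx.1]
      have := abs_nonneg k
      nlinarith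
    have h3 : ‖ex (f - cx H z1 * f) x‖ ≤ ‖f‖ := by
      have e1 : ex (cx H z1) x = ((chiF z1 x : ℝ) : ℂ) := ex_rc _ _ hx2
      have e2 : ex (f - cx H z1 * f) x = ((1 - chiF z1 x : ℝ) : ℂ) * ex f x := by
        rw [ex_sub, ex_mul, e1]
        push_cast
        ring
      rw [e2, norm_mul, Complex.norm_real, Real.norm_eq_abs,
        abs_of_nonneg (by linarith [chiF_le z1 x])]
      calc (1 - chiF z1 x) * ‖ex f x‖ ≤ 1 * ‖f‖ := by
            gcongr
            · linarith [chiF_nonneg z1 x]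
            · exact norm_ex_le f x
        _ = ‖f‖ := one_mul _
    calc Real.exp (-|k| * (x - z)) * ‖ex (f - cx H z1 * f) x‖ ≤ 1 * ‖f‖ := by gcongr
      _ = ‖f‖ := one_mul _
  · rw [abs_of_nonneg (by linarith [hz'.2]), mul_comm]
    gcongr
    linarith [hz'.1]

private theorem Vn2 {z1 : ℝ} (hz : 0 < z1) (hz1 : z1 ≤ 1) (hzH : z1 ≤ H) (k : ℝ) (f : CI H) :
    n2 (Top k (f - cx H z1 * f)) ≤ z1 * ‖f‖ := by
  have h0 : 0 ≤ z1 * ‖f‖ := by positivity
  refine (sq_le_sq₀ (n2_nonneg _) h0).1 ?_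
  rw [n2_sq]
  set V := Top k (f - cx H z1 * f) with hV
  have hc : Continuous fun z => ‖ex V z‖ ^ 2 := (continuous_ex V).norm.pow 2
  rw [← intervalIntegral.integral_add_adjacent_intervals (b := z1)
    (hc.intervalIntegrable _ _) (hc.intervalIntegrable _ _)]
  have h2 : ∫ z in z1..H, ‖ex V z‖ ^ 2 = 0 := by
    rw [intervalIntegral.integral_congr (g := fun _ => (0:ℝ))]
    · simp
    · intro x hx
      rw [uIcc_of_le hzH] at hx
      have := Vz hz k f hx
      simp only [hV, this]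
      simp
  rw [h2, add_zero]
  calc ∫ z in (0:ℝ)..z1, ‖ex V z‖ ^ 2 ≤ ∫ z in (0:ℝ)..z1, (z1 * ‖f‖) ^ 2 := by
        apply intervalIntegral.integral_mono_on hz.le (hc.intervalIntegrable _ _)
          (continuous_const.intervalIntegrable _ _)
        intro z hz'
        exact pow_le_pow_left₀ (norm_nonneg _) (Vb hz hzH k f hz') 2
    _ = z1 * (z1 * ‖f‖) ^ 2 := by
        rw [intervalIntegral.integral_const, sub_zero, smul_eq_mul]
    _ ≤ 1 * (z1 * ‖f‖) ^ 2 := by gcongr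
    _ = (z1 * ‖f‖) ^ 2 := one_mul _

theorem init_state {ω : ℝ} (hω : 0 < ω) {c c1 : ℤ → CI H} (hc : DV ω c c1) {z1 : ℝ} (hz : 0 < z1)
    (hz1 : z1 ≤ 1) (hzH : z1 ≤ H) (N : ℕ) : ∃ x0 : L1 (Xn H),
    (∀ n : ℤ, Cm (ω * n) (ex (pu ω N 0 n : Xn H).2.1 0) (x0 n)) ∧ Sy x0 ∧
    th2 x0 ≤ ∑' n, n2 (c n) ^ 2 ∧ (∀ n, ∀ z ∈ Icc z1 H, ex (x0 n).2.1 z = 0) ∧
    yy x0 ≤ z1 * ∑' n, ‖c n‖ ∧ ∀ n, ov ω x0 n + iv x0 n = dst ω c n := by
  have h00 : (0:ℝ) ∈ Icc (0:ℝ) H := ⟨le_refl _, hH.out.le⟩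
  refine ⟨mkL1 (stF ω z1 c c1) (stF_summable hc z1), ?_, ?_, ?_, ?_, ?_, ?_⟩
  · intro n
    rw [mkL1_apply]
    have e0 : ex (cx H z1) 0 = 0 := by
      unfold cx
      rw [ex_rc _ _ h00, chiF_zero, Complex.ofReal_zero]
    refine ⟨(cx_isD z1).mul (hc.d n), Top_isD _ _, rfl, rfl, ?_, ?_, Top_H _ _, ?_⟩
    · change ex (cx H z1 * c n) 0 = 0
      rw [ex_mul, e0, zero_mul]
    · change ex (cx H z1 * c n) H = 0
      rw [ex_mul, hc.h n, mul_zero]
    · change ex (Top (ω * n) (c n - cx H z1 * c n)) 0 = -ex (Top (ω * n) (cx H z1 * c n)) 0 -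
        ex (pu ω N 0 n : Xn H).2.1 0
      have e1 : (pu ω N 0 n : Xn H).2.1 = 0 := by
        unfold pu vx
        simp only [zero_div, zero_mul, Complex.ofReal_zero, mul_zero]
        exact zero_smul ℂ (fexp (ω * N) : CI H)
      rw [e1, ex_zero, sub_zero, map_sub, ex_sub, hc.w n, zero_sub]
  · intro n
    rw [mkL1_apply, mkL1_apply]
    unfold stF
    have e1 : ω * ((-n : ℤ) : ℝ) = -(ω * n) := by push_cast; ring
    have e2 : star (cx H z1 * c n) = cx H z1 * star (c n) := by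
      rw [star_mul', cx_star]
    have e3 : star (cx1 H z1 * c n) = cx1 H z1 * star (c n) := by
      rw [star_mul', cx1_star]
    have e4 : star (cx H z1 * c1 n) = cx H z1 * star (c1 n) := by
      rw [star_mul', cx_star]
    rw [e1, abs_neg, Top_neg, hc.y n, hc.y1 n]
    refine Prod.ext (Prod.ext ?_ (Prod.ext ?_ ?_)) (Prod.ext ?_ (Prod.ext ?_ ?_))
    · exact e2.symm
    · change _ = star (cx1 H z1 * c n + cx H z1 * c1 n)
      rw [star_add, e3, e4]
    · change _ = star (|ω * n| • (cx H z1 * c n))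
      rw [star_smul, e2]
      simp
    · change _ = star (Top (ω * n) (c n - cx H z1 * c n))
      rw [← Top_star, star_sub, e2]
    · change _ = star (|ω * n| • Top (ω * n) (c n - cx H z1 * c n) - (c n - cx H z1 * c n))
      rw [star_sub, star_smul, ← Top_star, star_sub, e2]
      simp
    · change _ = star (|ω * n| • Top (ω * n) (c n - cx H z1 * c n))
      rw [star_smul, ← Top_star, star_sub, e2]
      simp
  · have h1 : ∀ n, n2 (cx H z1 * c n) ≤ n2 (c n) := by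
      intro n
      apply n2_mono
      intro z hz'
      have e1 : ex (cx H z1) z = ((chiF z1 z : ℝ) : ℂ) := ex_rc _ _ hz'
      rw [ex_mul, e1, norm_mul, Complex.norm_real, Real.norm_eq_abs,
        abs_of_nonneg (chiF_nonneg z1 z)]
      calc chiF z1 z * ‖ex (c n) z‖ ≤ 1 * ‖ex (c n) z‖ := by
            gcongr
            exact chiF_le z1 z
        _ = _ := one_mul _
    have h2 : ∀ n, n2 (cx H z1 * c n) ^ 2 ≤ n2 (c n) ^ 2 := fun n =>
      pow_le_pow_left₀ (n2_nonneg _) (h1 n) 2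
    have h3 := (n2_summable hc.s).2
    exact Summable.tsum_le_tsum h2 (Summable.of_nonneg_of_le (fun n => sq_nonneg _) h2 h3) h3
  · intro n z hz'
    exact Vz hz _ _ hz'
  · have h1 : ∀ n : ℤ, n2 (Top (ω * n) (c n - cx H z1 * c n)) ≤ z1 * ‖c n‖ := fun n =>
      Vn2 hz hz1 hzH _ _
    have h3 := hc.s.mul_left z1
    rw [← tsum_mul_left]
    exact Summable.tsum_le_tsum h1 (Summable.of_nonneg_of_le (fun n => n2_nonneg _) h1 h3) h3
  · intro n
    change (((0, 0, 0), (Top (ω * n) (cx H z1 * c n),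
      |ω * n| • Top (ω * n) (cx H z1 * c n) - cx H z1 * c n,
      |ω * n| • Top (ω * n) (cx H z1 * c n))) : Xn H) +
      ((0, 0, 0), (Top (ω * n) (c n - cx H z1 * c n),
        |ω * n| • Top (ω * n) (c n - cx H z1 * c n) - (c n - cx H z1 * c n),
        |ω * n| • Top (ω * n) (c n - cx H z1 * c n))) =
      ((0, 0, 0), (Top (ω * n) (c n), |ω * n| • Top (ω * n) (c n) - c n,
        |ω * n| • Top (ω * n) (c n)))
    simp only [Prod.mk_add_mk, add_zero, map_sub, smul_sub]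
    refine Prod.ext rfl (Prod.ext ?_ (Prod.ext ?_ ?_))
    · change _ + (_ - _) = _
      abel
    · change _ - _ + (_ - _ - (_ - _)) = _ - _
      abel
    · change _ + (_ - _) = _
      abel

end

end Pool.Agent.Lib.MP_79abb3_an.FW
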