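import Pool.Agent.Lib.MP_79abb3_an.P25.TrajDef

/-!
MP_79abb3_an, d = 2, flat wall, all data (paper 196): definitions.
The state is a family `x : ℤ → Xn H`; `(x n).1 = (o, o', |k| o)` is the mode `n` of the outer vorticity,
`(x n).2 = (V, V', |k| V)` the mode `n` of the inner velocity in Ukai's variable.
-/

set_option autoImplicit false
set_option linter.unusedSectionVars false

open MeasureTheory Set Filter Topology Function

namespace Pool.Agent.Lib.MP_79abb3_an.FW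

open Pool.Agent.Lib.MP_79abb3_an.P25

section
variable {H : ℝ} [hH : Fact (0 < H)]

/-- `L²` norm on `[0,H]` -/
noncomputable def n2 (f : CI H) : ℝ := √(∫ z in (0:ℝ)..H, ‖ex f z‖ ^ 2)

/-- `L¹` norm on `[0,H]` -/
noncomputable def n1 (f : CI H) : ℝ := ∫ z in (0:ℝ)..H, ‖ex f z‖

/-- A continuous real function as an element of `C([0,H])`. -/
noncomputable def rc (F : ℝ → ℝ) (hF : Continuous F) : CI H :=
  mkCI (fun z => ((F z : ℝ) : ℂ)) (Complex.continuous_ofReal.comp hF).continuousOn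

theorem ex_rc (F : ℝ → ℝ) (hF : Continuous F) {z : ℝ} (hz : z ∈ Icc (0:ℝ) H) :
    ex (rc F hF : CI H) z = F z := ex_mkCI _ hz

/-- `exp(m z)` -/
noncomputable def fexp (m : ℝ) : CI H := rc (fun z => Real.exp (m * z)) (by fun_prop)

/-- `64 a² cosh²(m z)` -/
noncomputable def kap (m a : ℝ) : CI H := rc (fun z => 64 * a ^ 2 * Real.cosh (m * z) ^ 2) (by fun_prop)

/-- Its derivative. -/
noncomputable def kap1 (m a : ℝ) : CI H :=
  rc (fun z => 128 * a ^ 2 * m * Real.cosh (m * z) * Real.sinh (m * z)) (by fun_prop)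

/-- `a cosh(m z)` -/
noncomputable def chm (m a : ℝ) : CI H := rc (fun z => a * Real.cosh (m * z)) (by fun_prop)

/-- A velocity mode. -/
noncomputable def vx (k : ℝ) (V V1 : CI H) : Xn H := ((0, 0, 0), (V, V1, |k| • V))

/-- `±1` for `n = ± N`. -/
noncomputable def sN (N : ℕ) (n : ℤ) : ℝ := if n = (N : ℤ) then 1 else if n = -(N : ℤ) then -1 else 0

/-- Modes of the potential cell flow of amplitude `a`: `V_{±N} = ± (i a / 2) exp(m z)`, `m = ω N`. -/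
noncomputable def pu (ω : ℝ) (N : ℕ) (a : ℝ) (n : ℤ) : Xn H :=
  vx (ω * n) ((Complex.I * ((a / 2 * sN N n : ℝ) : ℂ)) • fexp (ω * N))
    ((Complex.I * ((a / 2 * sN N n * (ω * N) : ℝ) : ℂ)) • fexp (ω * N))

/-- The velocity with vorticity `o`. -/
noncomputable def ov (ω : ℝ) (x : ℤ → Xn H) (n : ℤ) : Xn H :=
  vx (ω * n) (Top (ω * n) (x n).1.1) (|ω * n| • Top (ω * n) (x n).1.1 - (x n).1.1)

/-- The inner velocity. -/
noncomputable def iv (x : ℤ → Xn H) (n : ℤ) : Xn H := ((0, 0, 0), (x n).2)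

/-- The total velocity. -/
noncomputable def tv (ω : ℝ) (N : ℕ) (a : ℝ) (x : ℤ → Xn H) (n : ℤ) : Xn H :=
  ov ω x n + iv x n + pu ω N a n

/-- Transfer from the inner to the outer part: `(-∂_z + |k|)(κ V)`. -/
noncomputable def tr (m a : ℝ) (x : Xn H) : CI H :=
  kap m a * x.2.2.2 - kap1 m a * x.2.1 - kap m a * x.2.2.1

/-- Source of the outer vorticity. -/
noncomputable def so (ω : ℝ) (N : ℕ) (a : ℝ) (x : ℤ → Xn H) (n : ℤ) : CI H :=
  -N0 ω (tv ω N a x) x n + tr (ω * N) a (x n)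

/-- Source of the inner velocity. -/
noncomputable def si (ω : ℝ) (N : ℕ) (a : ℝ) (x : ℤ → Xn H) (n : ℤ) : CI H :=
  (Bf ω (iv x) (tv ω N a x) n).2 - kap (ω * N) a * (x n).2.1

/-- `f_t = f_zz - k² f + G` on `[a,b]`, once integrated in `z` and in `t`, with `f1 = f_z`. -/
structure HE (k a b : ℝ) (f f1 G : ℝ → CI H) : Prop where
  cf : ContinuousOn f (Icc a b)
  cf1 : ContinuousOn f1 (Icc a b)
  cG : ContinuousOn G (Icc a b)
  d : ∀ t ∈ Icc a b, IsD (f t) (f1 t)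
  eq : ∀ y ∈ Icc (0:ℝ) H, ∀ t1 ∈ Icc a b, ∀ t2 ∈ Icc t1 b,
    prim (f t2) y - prim (f t1) y = ∫ s in t1..t2, rh k (f s) (f1 s) (G s) y

/-- Compatible modes with the boundary conditions of the coupled system; `s` is the slip of the
potential flow. -/
structure Cm (k : ℝ) (s : ℂ) (x : Xn H) : Prop where
  d1 : IsD x.1.1 x.1.2.1
  d2 : IsD x.2.1 x.2.2.1
  e1 : x.1.2.2 = |k| • x.1.1
  e2 : x.2.2.2 = |k| • x.2.1
  z1 : ex x.1.1 0 = 0
  h1 : ex x.1.1 H = 0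
  h2 : ex x.2.1 H = 0
  z2 : ex x.2.1 0 = -ex (Top k x.1.1) 0 - s

/-- Solutions of the coupled system on `[a,b]` with amplitude `A(t)`, `A' = A1`. -/
structure CS (ω : ℝ) (N : ℕ) (A A1 : ℝ → ℝ) (a b : ℝ) (x : ℝ → L1 (Xn H)) : Prop where
  cA : ContinuousOn A (Icc a b)
  cA1 : ContinuousOn A1 (Icc a b)
  dA : ∀ t ∈ Icc a b, HasDerivWithinAt A (A1 t) (Icc a b) t
  c : ContinuousOn x (Icc a b)
  cm : ∀ t ∈ Icc a b, ∀ n : ℤ, Cm (ω * n) (ex (pu ω N (A t) n : Xn H).2.1 0) (x t n)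
  sy : ∀ t ∈ Icc a b, Sy (x t)
  eo : ∀ n : ℤ, HE (ω * n) a b (fun t => (x t n).1.1) (fun t => (x t n).1.2.1)
    (fun t => so ω N (A t) (x t) n)
  ei : ∀ n : ℤ, HE (ω * n) a b (fun t => (x t n).2.1) (fun t => (x t n).2.2.1)
    (fun t => si ω N (A t) (x t) n)

/-! Functionals of the state. -/

/-- `∑ |V_n|_{L²}` -/
noncomputable def yy (x : ℤ → Xn H) : ℝ := ∑' n, n2 (x n).2.1

/-- Enstrophy of the outer part. -/
noncomputable def th2 (x : ℤ → Xn H) : ℝ := ∑' n, n2 (x n).1.1 ^ 2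

/-- Its dissipation. -/
noncomputable def dd2 (x : ℤ → Xn H) : ℝ := ∑' n, (n2 (x n).1.2.1 ^ 2 + n2 (x n).1.2.2 ^ 2)

/-- Sup norm of the outer velocity. -/
noncomputable def bt (ω : ℝ) (x : ℤ → Xn H) : ℝ := ∑' n : ℤ, ‖Top (ω * n) (x n).1.1‖

/-- The weight function. -/
noncomputable def tht (z1 M z : ℝ) : ℝ := Real.exp (M * (z - 2 * z1)) * (max 0 ((z - z1) / z1)) ^ 2

/-- Weighted energy of the inner part. -/
noncomputable def Ew (z1 M : ℝ) (x : ℤ → Xn H) : ℝ :=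
  ∑' n, ∫ z in (0:ℝ)..H, tht z1 M z ^ 2 * ‖ex (x n).2.1 z‖ ^ 2

/-- Weighted dissipation of the inner part. -/
noncomputable def Gw (z1 M : ℝ) (x : ℤ → Xn H) : ℝ :=
  ∑' n, ∫ z in (0:ℝ)..H, tht z1 M z ^ 2 * (‖ex (x n).2.2.1 z‖ ^ 2 + ‖ex (x n).2.2.2 z‖ ^ 2)

/-- `∑ |a cosh(m z) V_n|²` -/
noncomputable def K0 (m a : ℝ) (x : ℤ → Xn H) : ℝ := ∑' n, n2 (chm m a * (x n).2.1) ^ 2

/-- `∑ |κ V_n|²` -/
noncomputable def K1 (m a : ℝ) (x : ℤ → Xn H) : ℝ := ∑' n, n2 (kap m a * (x n).2.1) ^ 2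

/-- `√(√t)` -/
noncomputable def q4 (t : ℝ) : ℝ := √(√t)

end

end Pool.Agent.Lib.MP_79abb3_an.FW
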