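import Pool.Agent.Lib.MP_79abb3_an.P25.FldDef

/-!
FW-65: planar Navier-Stokes trajectories.
-/

set_option autoImplicit false
set_option linter.unusedSectionVars false

open MeasureTheory Set Filter Topology Function

namespace Pool.Agent.Lib.MP_79abb3_an.FW

open Pool.Agent.Lib.MP_79abb3_an.P25

section
variable {H : ℝ} [hH : Fact (0 < H)]

/-- Test functions `φ ∈ C_c^∞((0,T) × Ω)` of `(t, y, z)`. -/
structure IsTest2 (T : ℝ) (Ω : Set (ℝ × ℝ)) (φ : ℝ × ℝ × ℝ → ℝ) : Prop where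
  smooth : ContDiff ℝ ((⊤ : ℕ∞) : WithTop ℕ∞) φ
  cpt : HasCompactSupport φ
  supp : tsupport φ ⊆ Ioo 0 T ×ˢ Ω

/-- `u = (v, w)` is a trajectory on `[0,T]` of the Navier-Stokes system with viscosity one in the open
set `Ω ⊂ ℝ²` (coordinates `(y, z)`) with no-slip condition on `∂Ω ∖ Γ`: `u` is continuous on
`[0,T] × closure Ω`, Lipschitz in space uniformly in time, vanishes on the wall `∂Ω ∖ Γ` at all times,
is divergence free in `(0,T) × Ω` in the sense of distributions, and satisfies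
`∫ (u · ∂_t φ + u · Δφ + ∑_{ij} u_i u_j ∂_j φ_i) = 0` for all divergence free vector fields `φ` whose
components are in `C_c^∞((0,T) × Ω)`. -/
structure IsTraj2 (Ω Γ : Set (ℝ × ℝ)) (T : ℝ) (v w : ℝ × ℝ × ℝ → ℝ) : Prop where
  cont₁ : ContinuousOn v (Icc 0 T ×ˢ closure Ω)
  cont₂ : ContinuousOn w (Icc 0 T ×ˢ closure Ω)
  lip : ∃ K, ∀ t ∈ Icc 0 T, LipschitzOnWith K (fun q : ℝ × ℝ => v (t, q)) (closure Ω) ∧
    LipschitzOnWith K (fun q : ℝ × ℝ => w (t, q)) (closure Ω)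
  wall : ∀ t ∈ Icc 0 T, ∀ q ∈ frontier Ω \ Γ, v (t, q) = 0 ∧ w (t, q) = 0
  div : ∀ φ, IsTest2 T Ω φ → ∫ q, (v q * py φ q + w q * pz φ q) = 0
  ns : ∀ φ ψ, IsTest2 T Ω φ → IsTest2 T Ω ψ → (∀ q, py φ q + pz ψ q = 0) →
    ∫ q, ((v q * pt φ q + w q * pt ψ q) +
      (v q * (py (py φ) q + pz (pz φ) q) + w q * (py (py ψ) q + pz (pz ψ) q)) +
      (v q * (v q * py φ q + w q * pz φ q) + w q * (v q * py ψ q + w q * pz ψ q))) = 0

end

end Pool.Agent.Lib.MP_79abb3_an.FW
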