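import Pool.Agent.Lib.MP_79abb3_an.FW.ExAa
import Pool.Agent.Lib.MP_79abb3_an.FW.VelC

/-!
FW-50b: lifted states.
-/

set_option autoImplicit false
set_option linter.unusedSectionVars false

open MeasureTheory Set Filter Topology Function

namespace Pool.Agent.Lib.MP_79abb3_an.FW

open Pool.Agent.Lib.MP_79abb3_an.P25

section
variable {H : ℝ} [hH : Fact (0 < H)]

/-- The lifted state: the trace of `V` at `z = 0` is removed. -/
noncomputable def lft (ω : ℝ) (x : ℤ → Xn H) (n : ℤ) : Xn H :=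
  ((x n).1, ((x n).2.1 - ex (x n).2.1 0 • eta (ω * n), (x n).2.2.1 - ex (x n).2.1 0 • eta1 (ω * n),
    |ω * n| • ((x n).2.1 - ex (x n).2.1 0 • eta (ω * n))))

/-- The inverse operation. -/
noncomputable def slp (ω : ℝ) (N : ℕ) (a : ℝ) (X : ℤ → Xn H) (n : ℤ) : ℂ :=
  -ex (Top (ω * n) (X n).1.1) 0 - ex (pu ω N a n : Xn H).2.1 0

noncomputable def unl (ω : ℝ) (N : ℕ) (a : ℝ) (X : ℤ → Xn H) (n : ℤ) : Xn H :=
  ((X n).1, ((X n).2.1 + slp ω N a X n • eta (ω * n), (X n).2.2.1 + slp ω N a X n • eta1 (ω * n),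
    |ω * n| • ((X n).2.1 + slp ω N a X n • eta (ω * n))))

theorem lft_dmode {ω : ℝ} {N : ℕ} {a : ℝ} {x : L1 (Xn H)}
    (hx : ∀ n : ℤ, Cm (ω * n) (ex (pu ω N a n : Xn H).2.1 0) (x n)) (n : ℤ) :
    Dmode (ω * n) (lft ω x n) ∧ slp ω N a (lft ω x) n = ex (x n).2.1 0 ∧
      unl ω N a (lft ω x) n = x n := by
  have hc := hx n
  obtain ⟨he1, he2, he3, he4, he5, -⟩ := eta_facts (H := H) (ω * n)
  have hs : slp ω N a (lft ω x) n = ex (x n).2.1 0 := by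
    rw [slp, hc.z2]
    rfl
  refine ⟨⟨hc.d1, ?_, hc.e1, rfl, hc.z1, ?_, hc.h1, ?_⟩, hs, ?_⟩
  · intro z hz
    exact (hc.d2 z hz).sub ((he1 z hz).const_mul (ex (x n).2.1 0))
  · show ex (x n).2.1 0 - ex (x n).2.1 0 * ex (eta (ω * n)) 0 = 0
    rw [he4, mul_one, sub_self]
  · show ex (x n).2.1 H - ex (x n).2.1 0 * ex (eta (ω * n)) H = 0
    rw [he5, mul_zero, sub_zero, hc.h2]
  · rw [unl, hs]
    refine Prod.ext rfl (Prod.ext ?_ (Prod.ext ?_ ?_))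
    · show (x n).2.1 - ex (x n).2.1 0 • eta (ω * n) + ex (x n).2.1 0 • eta (ω * n) = (x n).2.1
      rw [sub_add_cancel]
    · show (x n).2.2.1 - ex (x n).2.1 0 • eta1 (ω * n) + ex (x n).2.1 0 • eta1 (ω * n) = (x n).2.2.1
      rw [sub_add_cancel]
    · show |ω * n| • ((x n).2.1 - ex (x n).2.1 0 • eta (ω * n) + ex (x n).2.1 0 • eta (ω * n)) =
        (x n).2.2.2
      rw [sub_add_cancel, hc.e2]

theorem unl_cm {ω : ℝ} {N : ℕ} {a : ℝ} {X : L1 (Xn H)} (hX : ∀ n : ℤ, Dmode (ω * n) (X n)) (n : ℤ) :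
    Cm (ω * n) (ex (pu ω N a n : Xn H).2.1 0) (unl ω N a X n) ∧ lft ω (unl ω N a X) n = X n := by
  have hc := hX n
  obtain ⟨he1, he2, he3, he4, he5, -⟩ := eta_facts (H := H) (ω * n)
  have hz2 : ex (unl ω N a X n).2.1 0 = slp ω N a X n := by
    show ex (X n).2.1 0 + slp ω N a X n * ex (eta (ω * n)) 0 = _
    rw [he4, hc.z2, mul_one, zero_add]
  refine ⟨⟨hc.d1, ?_, hc.e1, rfl, hc.z1, hc.h1, ?_, ?_⟩, ?_⟩
  · intro z hz
    exact (hc.d2 z hz).add ((he1 z hz).const_mul (slp ω N a X n))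
  · show ex (X n).2.1 H + slp ω N a X n * ex (eta (ω * n)) H = 0
    rw [he5, hc.h2, mul_zero, zero_add]
  · rw [hz2, slp]
    rfl
  · rw [lft, hz2]
    refine Prod.ext rfl (Prod.ext ?_ (Prod.ext ?_ ?_))
    · show (X n).2.1 + slp ω N a X n • eta (ω * n) - slp ω N a X n • eta (ω * n) = (X n).2.1
      rw [add_sub_cancel_right]
    · show (X n).2.2.1 + slp ω N a X n • eta1 (ω * n) - slp ω N a X n • eta1 (ω * n) = (X n).2.2.1
      rw [add_sub_cancel_right]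
    · show |ω * n| • ((X n).2.1 + slp ω N a X n • eta (ω * n) - slp ω N a X n • eta (ω * n)) =
        (X n).2.2.2
      rw [add_sub_cancel_right, hc.e2]

private theorem xn_le {y : Xn H} {C : ℝ} (h1 : ‖y.1‖ ≤ C) (h2 : ‖y.2.1‖ ≤ C) (h3 : ‖y.2.2.1‖ ≤ C)
    (h4 : ‖y.2.2.2‖ ≤ C) : ‖y‖ ≤ C := by
  rw [Prod.norm_def, Prod.norm_def y.2, Prod.norm_def y.2.2]
  exact max_le h1 (max_le h2 (max_le h3 h4))

private theorem xn_ge (y : Xn H) : ‖y.1‖ ≤ ‖y‖ ∧ ‖y.2.1‖ ≤ ‖y‖ ∧ ‖y.2.2.1‖ ≤ ‖y‖ ∧ ‖y.2.2.2‖ ≤ ‖y‖ ∧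
    ‖y.1.1‖ ≤ ‖y‖ := by
  have h1 : ‖y.1‖ ≤ ‖y‖ := norm_fst_le y
  have h2 : ‖y.2‖ ≤ ‖y‖ := norm_snd_le y
  have h3 : ‖y.2.1‖ ≤ ‖y.2‖ := norm_fst_le y.2
  have h4 : ‖y.2.2‖ ≤ ‖y.2‖ := norm_snd_le y.2
  have h5 : ‖y.2.2.1‖ ≤ ‖y.2.2‖ := norm_fst_le y.2.2
  have h6 : ‖y.2.2.2‖ ≤ ‖y.2.2‖ := norm_snd_le y.2.2
  have h7 : ‖y.1.1‖ ≤ ‖y.1‖ := norm_fst_le y.1
  exact ⟨h1, h3.trans h2, h5.trans (h4.trans h2), h6.trans (h4.trans h2), h7.trans h1⟩

private theorem eta_sm (k : ℝ) (c : ℂ) : ‖c • (eta k : CI H)‖ ≤ ‖c‖ * (1 + |k| + 1 / H) ∧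
    ‖c • (eta1 k : CI H)‖ ≤ ‖c‖ * (1 + |k| + 1 / H) ∧
    ‖|k| • (c • (eta k : CI H))‖ ≤ ‖c‖ * (1 + |k| + 1 / H) := by
  have hH0 := hH.out
  obtain ⟨-, -, -, -, -, h1, h2, -⟩ := eta_facts (H := H) k
  have hi : 0 ≤ 1 / H := by positivity
  have hk := abs_nonneg k
  have hc := norm_nonneg c
  refine ⟨?_, ?_, ?_⟩
  · rw [norm_smul]
    refine mul_le_mul_of_nonneg_left ?_ hc
    linarith
  · rw [norm_smul]
    refine mul_le_mul_of_nonneg_left ?_ hc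
    linarith
  · rw [norm_smul, norm_smul, Real.norm_eq_abs, abs_abs]
    calc |k| * (‖c‖ * ‖(eta k : CI H)‖) = ‖c‖ * (|k| * ‖(eta k : CI H)‖) := by ring
      _ ≤ ‖c‖ * (|k| * 1) := by gcongr
      _ ≤ ‖c‖ * (1 + |k| + 1 / H) := by
        refine mul_le_mul_of_nonneg_left ?_ hc
        linarith

private theorem pu_zero (ω : ℝ) (N : ℕ) (a : ℝ) (n : ℤ) :
    ‖ex (pu ω N a n : Xn H).2.1 0‖ = |a| / 2 * |sN N n| := by
  have hH0 := hH.out
  show ‖(Complex.I * ((a / 2 * sN N n : ℝ) : ℂ)) * ex (fexp (ω * N) : CI H) 0‖ = _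
  rw [fexp, ex_rc _ _ (left_mem_Icc.2 hH0.le), mul_zero, Real.exp_zero, Complex.ofReal_one, mul_one,
    norm_mul, Complex.norm_I, one_mul, Complex.norm_real, Real.norm_eq_abs, abs_mul, abs_div]
  norm_num

private theorem sN_le (N : ℕ) (n : ℤ) :
    |sN N n| ≤ (if n = (N : ℤ) then (1:ℝ) else 0) + (if n = -(N : ℤ) then (1:ℝ) else 0) := by
  unfold sN
  split_ifs <;> norm_num

private theorem abs_mode {ω : ℝ} {N : ℕ} {n : ℤ} (h : sN N n ≠ 0) : |ω * n| = |ω * N| := by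
  unfold sN at h
  split_ifs at h with h1 h2
  · rw [h1]; norm_num
  · rw [h2]; push_cast; rw [mul_neg, abs_neg]
  · exact absurd rfl h

theorem lft_norm {ω : ℝ} {N : ℕ} {R : ℝ} : ∃ C, 1 ≤ C ∧ ∀ {a : ℝ}, |a| ≤ R → ∀ {x : L1 (Xn H)},
    (∀ n : ℤ, Cm (ω * n) (ex (pu ω N a n : Xn H).2.1 0) (x n)) →
    (Summable fun n => ‖lft ω x n‖) ∧ ∑' n, ‖lft ω x n‖ ≤ C * (‖x‖ + 1) ∧
      ‖x‖ ≤ C * ((∑' n, ‖lft ω x n‖) + 1) := by
  have hH0 := hH.out
  have hi : 0 ≤ 1 / H := by positivity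
  have hB0 : 0 ≤ |R| * (1 + |ω * N| + 1 / H) := by positivity
  refine ⟨(3 + 1 / H) + (H + 3) + |R| * (1 + |ω * N| + 1 / H), by linarith, ?_⟩
  intro a ha x hx
  set C := (3 + 1 / H) + (H + 3) + |R| * (1 + |ω * N| + 1 / H) with hC
  have haR : |a| ≤ |R| := ha.trans (le_abs_self R)
  -- upper bound
  have hc1 : ∀ n : ℤ, ‖ex (x n).2.1 0‖ * (1 + |ω * n| + 1 / H) ≤ (2 + 1 / H) * ‖x n‖ := by
    intro n
    obtain ⟨-, g1, -, g3, -⟩ := xn_ge (x n)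
    have h1 : ‖ex (x n).2.1 0‖ ≤ ‖x n‖ := (norm_ex_le _ _).trans g1
    have h2 : |ω * n| * ‖ex (x n).2.1 0‖ ≤ ‖x n‖ := by
      have h3 : ‖ex (x n).2.2.2 0‖ ≤ ‖x n‖ := (norm_ex_le _ _).trans g3
      rw [(hx n).e2, ex_rsmul, norm_mul, Complex.norm_real, Real.norm_eq_abs, abs_abs] at h3
      exact h3
    have h4 : 1 / H * ‖ex (x n).2.1 0‖ ≤ 1 / H * ‖x n‖ := mul_le_mul_of_nonneg_left h1 hi
    nlinarith
  have hup : ∀ n : ℤ, ‖lft ω x n‖ ≤ (3 + 1 / H) * ‖x n‖ := by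
    intro n
    obtain ⟨g0, g1, g2, g3, -⟩ := xn_ge (x n)
    obtain ⟨s1, s2, s3⟩ := eta_sm (H := H) (ω * n) (ex (x n).2.1 0)
    have hx0 := norm_nonneg (x n)
    have hcn := hc1 n
    have key : ‖lft ω x n‖ ≤ ‖x n‖ + ‖ex (x n).2.1 0‖ * (1 + |ω * n| + 1 / H) := by
      refine xn_le ?_ ?_ ?_ ?_
      · show ‖(x n).1‖ ≤ _
        have : 0 ≤ ‖ex (x n).2.1 0‖ * (1 + |ω * n| + 1 / H) := by positivity
        linarith
      · exact (norm_sub_le _ _).trans (add_le_add g1 s1)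
      · exact (norm_sub_le _ _).trans (add_le_add g2 s2)
      · show ‖|ω * n| • ((x n).2.1 - ex (x n).2.1 0 • eta (ω * n))‖ ≤ _
        rw [smul_sub, ← (hx n).e2]
        exact (norm_sub_le _ _).trans (add_le_add g3 s3)
    linarith
  have hsx : Summable fun n => ‖x n‖ := l1_summable x
  have hsum : Summable fun n => ‖lft ω x n‖ :=
    Summable.of_nonneg_of_le (fun n => norm_nonneg _) hup (hsx.mul_left _)
  have hS0 : 0 ≤ ∑' n, ‖lft ω x n‖ := tsum_nonneg fun n => norm_nonneg _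
  have hx0 : 0 ≤ ‖x‖ := norm_nonneg x
  refine ⟨hsum, ?_, ?_⟩
  · have h1 : ∑' n, ‖lft ω x n‖ ≤ (3 + 1 / H) * ‖x‖ := by
      rw [l1_norm, ← tsum_mul_left]
      exact Summable.tsum_le_tsum hup hsum (hsx.mul_left _)
    have h2 : (3 + 1 / H) * ‖x‖ ≤ C * (‖x‖ + 1) := by
      have : 3 + 1 / H ≤ C := by rw [hC]; linarith
      have hC0 : 0 ≤ C := by linarith
      nlinarith
    exact h1.trans h2
  · -- lower bound
    let b : ℤ → ℝ := fun n => |R| / 2 * (1 + |ω * N| + 1 / H) *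
      ((if n = (N : ℤ) then (1:ℝ) else 0) + (if n = -(N : ℤ) then (1:ℝ) else 0))
    have hb1 : HasSum (fun n : ℤ => if n = (N : ℤ) then (1:ℝ) else 0) 1 := hasSum_ite_eq _ _
    have hb2 : HasSum (fun n : ℤ => if n = -(N : ℤ) then (1:ℝ) else 0) 1 := hasSum_ite_eq _ _
    have hb : HasSum b (|R| / 2 * (1 + |ω * N| + 1 / H) * (1 + 1)) := (hb1.add hb2).mul_left _
    have hlow : ∀ n : ℤ, ‖x n‖ ≤ (H + 3) * ‖lft ω x n‖ + b n := by
      intro n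
      obtain ⟨hd, hs, hu⟩ := lft_dmode hx n
      obtain ⟨g0, g1, g2, g3, g4⟩ := xn_ge (lft ω x n)
      obtain ⟨s1, s2, s3⟩ := eta_sm (H := H) (ω * n) (slp ω N a (lft ω x) n)
      have hy0 := norm_nonneg (lft ω x n)
      have key : ‖x n‖ ≤ ‖lft ω x n‖ + ‖slp ω N a (lft ω x) n‖ * (1 + |ω * n| + 1 / H) := by
        rw [← hu]
        refine xn_le ?_ ?_ ?_ ?_
        · show ‖(lft ω x n).1‖ ≤ _
          have : 0 ≤ ‖slp ω N a (lft ω x) n‖ * (1 + |ω * n| + 1 / H) := by positivity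
          linarith
        · exact (norm_add_le _ _).trans (add_le_add g1 s1)
        · exact (norm_add_le _ _).trans (add_le_add g2 s2)
        · show ‖|ω * n| • ((lft ω x n).2.1 + slp ω N a (lft ω x) n • eta (ω * n))‖ ≤ _
          exact (congrArg norm (smul_add _ _ _)).le.trans
            ((norm_add_le _ _).trans (add_le_add ((congrArg norm hd.e2.symm).le.trans g3) s3))
      have ht1 : ‖Top (ω * n) (lft ω x n).1.1‖ ≤ H * ‖lft ω x n‖ :=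
        (norm_Top_le _ _).trans (mul_le_mul_of_nonneg_left g4 hH0.le)
      have ht2 : |ω * n| * ‖Top (ω * n) (lft ω x n).1.1‖ ≤ ‖lft ω x n‖ :=
        (norm_kTop_le _ _).trans g4
      have ht3 : 1 / H * ‖Top (ω * n) (lft ω x n).1.1‖ ≤ ‖lft ω x n‖ := by
        have := mul_le_mul_of_nonneg_left ht1 hi
        rwa [← mul_assoc, one_div, inv_mul_cancel₀ hH0.ne', one_mul, ← one_div] at this
      have hT : ‖ex (Top (ω * n) (lft ω x n).1.1) 0‖ * (1 + |ω * n| + 1 / H) ≤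
          (H + 2) * ‖lft ω x n‖ := by
        have h1 : ‖ex (Top (ω * n) (lft ω x n).1.1) 0‖ * (1 + |ω * n| + 1 / H) ≤
            ‖Top (ω * n) (lft ω x n).1.1‖ * (1 + |ω * n| + 1 / H) :=
          mul_le_mul_of_nonneg_right (norm_ex_le _ _) (by positivity)
        nlinarith
      have hP : ‖ex (pu ω N a n : Xn H).2.1 0‖ * (1 + |ω * n| + 1 / H) ≤ b n := by
        rw [pu_zero]
        by_cases h0 : sN N n = 0
        · rw [h0, abs_zero, mul_zero, zero_mul]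
          show 0 ≤ |R| / 2 * (1 + |ω * N| + 1 / H) * _
          have := sN_le N n
          have h2 : 0 ≤ |sN N n| := abs_nonneg _
          have h3 : 0 ≤ |R| / 2 * (1 + |ω * N| + 1 / H) := by positivity
          exact mul_nonneg h3 (h2.trans this)
        · rw [abs_mode h0]
          show |a| / 2 * |sN N n| * (1 + |ω * N| + 1 / H) ≤ |R| / 2 * (1 + |ω * N| + 1 / H) * _
          have h1 := sN_le N n
          have h2 : 0 ≤ |sN N n| := abs_nonneg _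
          calc |a| / 2 * |sN N n| * (1 + |ω * N| + 1 / H)
              = |a| / 2 * (1 + |ω * N| + 1 / H) * |sN N n| := by ring
            _ ≤ |R| / 2 * (1 + |ω * N| + 1 / H) * |sN N n| := by gcongr
            _ ≤ _ := mul_le_mul_of_nonneg_left h1 (by positivity)
      have hslp : ‖slp ω N a (lft ω x) n‖ ≤ ‖ex (Top (ω * n) (lft ω x n).1.1) 0‖ +
          ‖ex (pu ω N a n : Xn H).2.1 0‖ := by
        rw [slp]
        refine (norm_sub_le _ _).trans ?_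
        rw [norm_neg]
      have hw : 0 ≤ 1 + |ω * n| + 1 / H := by positivity
      have h5 := mul_le_mul_of_nonneg_right hslp hw
      rw [add_mul] at h5
      linarith
    have h1 : ‖x‖ ≤ (H + 3) * (∑' n, ‖lft ω x n‖) + |R| / 2 * (1 + |ω * N| + 1 / H) * (1 + 1) := by
      rw [l1_norm, ← tsum_mul_left, ← hb.tsum_eq, ← Summable.tsum_add (hsum.mul_left _) hb.summable]
      exact Summable.tsum_le_tsum hlow hsx ((hsum.mul_left _).add hb.summable)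
    have h2 : |R| / 2 * (1 + |ω * N| + 1 / H) * (1 + 1) = |R| * (1 + |ω * N| + 1 / H) := by ring
    rw [h2] at h1
    have h3 : H + 3 ≤ C := by rw [hC]; linarith
    have h4 : |R| * (1 + |ω * N| + 1 / H) ≤ C := by rw [hC]; linarith
    have h5 : (H + 3) * (∑' n, ‖lft ω x n‖) ≤ C * (∑' n, ‖lft ω x n‖) :=
      mul_le_mul_of_nonneg_right h3 hS0
    linarith

end

end Pool.Agent.Lib.MP_79abb3_an.FW
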