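import Pool.Agent.Lib.MP_79abb3_an.FW.Def

/-!
FW-50a: the lifting profile.
-/

set_option autoImplicit false
set_option linter.unusedSectionVars false

open MeasureTheory Set Filter Topology Function

namespace Pool.Agent.Lib.MP_79abb3_an.FW

open Pool.Agent.Lib.MP_79abb3_an.P25

section
variable {H : ℝ} [hH : Fact (0 < H)]

/-- `η_k(z) = e^{-|k|z}(1 - z/H)`, its derivative and `η'' - k² η`. -/
noncomputable def eta (k : ℝ) : CI H := rc (fun z => Real.exp (-|k| * z) * (1 - z / H)) (by fun_prop)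
noncomputable def eta1 (k : ℝ) : CI H :=
  rc (fun z => -|k| * (Real.exp (-|k| * z) * (1 - z / H)) - Real.exp (-|k| * z) / H) (by fun_prop)
noncomputable def eta2 (k : ℝ) : CI H :=
  rc (fun z => k ^ 2 * (Real.exp (-|k| * z) * (1 - z / H)) + 2 * |k| / H * Real.exp (-|k| * z)) (by fun_prop)
noncomputable def etr (k : ℝ) : CI H := rc (fun z => 2 * |k| / H * Real.exp (-|k| * z)) (by fun_prop)

theorem ExAa_isD (F F1 : ℝ → ℝ) (hF : Continuous F) (hF1 : Continuous F1)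
    (h : ∀ z, HasDerivAt F (F1 z) z) : IsD (rc F hF : CI H) (rc F1 hF1) := by
  intro z hz
  rw [ex_rc F1 hF1 hz]
  exact ((h z).ofReal_comp.hasDerivWithinAt).congr (fun y hy => ex_rc F hF hy) (ex_rc F hF hz)

theorem ExAa_norm (F : ℝ → ℝ) (hF : Continuous F) (C : ℝ) (hC : 0 ≤ C)
    (h : ∀ z ∈ Icc (0:ℝ) H, |F z| ≤ C) : ‖(rc F hF : CI H)‖ ≤ C := by
  refine ci_norm_le hC fun z hz => ?_
  rw [ex_rc F hF hz, Complex.norm_real]
  exact h z hz

theorem ExAa_star (F : ℝ → ℝ) (hF : Continuous F) : star (rc F hF : CI H) = rc F hF := by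
  refine ci_ext fun z hz => ?_
  rw [ex_star, ex_rc F hF hz]
  exact Complex.conj_ofReal _

theorem ExAa_exp (k z : ℝ) : HasDerivAt (fun z : ℝ => Real.exp (-|k| * z)) (-|k| * Real.exp (-|k| * z)) z := by
  have h := ((hasDerivAt_id z).const_mul (-|k|)).exp
  simp only [id, mul_one] at h
  rw [mul_comm]
  exact h

theorem ExAa_lin (z : ℝ) : HasDerivAt (fun z : ℝ => 1 - z / H) (-(1 / H)) z := by
  have h := ((hasDerivAt_id z).div_const H).const_sub 1
  exact h

theorem eta_facts (k : ℝ) : IsD (eta k : CI H) (eta1 k) ∧ IsD (eta1 k : CI H) (eta2 k) ∧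
    (etr k : CI H) = eta2 k - (k ^ 2) • eta k ∧ ex (eta k : CI H) 0 = 1 ∧ ex (eta k : CI H) H = 0 ∧
    ‖(eta k : CI H)‖ ≤ 1 ∧ ‖(eta1 k : CI H)‖ ≤ |k| + 1 / H ∧ ‖(etr k : CI H)‖ ≤ 2 * |k| / H ∧
    star (eta k : CI H) = eta k ∧ star (eta1 k : CI H) = eta1 k ∧ star (etr k : CI H) = etr k := by
  have hH0 : 0 < H := hH.out
  have hkk : |k| * |k| = k ^ 2 := by rw [abs_mul_abs_self, sq]
  have he1 : ∀ z ∈ Icc (0:ℝ) H, Real.exp (-|k| * z) ≤ 1 := by
    intro z hz
    rw [Real.exp_le_one_iff]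
    nlinarith [abs_nonneg k, hz.1, mul_nonneg (abs_nonneg k) hz.1]
  have hl0 : ∀ z ∈ Icc (0:ℝ) H, 0 ≤ 1 - z / H := by
    intro z hz
    have : z / H ≤ 1 := (div_le_one hH0).2 hz.2
    linarith
  have hl1 : ∀ z ∈ Icc (0:ℝ) H, 1 - z / H ≤ 1 := by
    intro z hz
    have : 0 ≤ z / H := div_nonneg hz.1 hH0.le
    linarith
  have hp : ∀ z ∈ Icc (0:ℝ) H, Real.exp (-|k| * z) * (1 - z / H) ≤ 1 := by
    intro z hz
    exact mul_le_one₀ (he1 z hz) (hl0 z hz) (hl1 z hz)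
  have hp0 : ∀ z ∈ Icc (0:ℝ) H, 0 ≤ Real.exp (-|k| * z) * (1 - z / H) := by
    intro z hz
    exact mul_nonneg (Real.exp_pos _).le (hl0 z hz)
  refine ⟨?_, ?_, ?_, ?_, ?_, ?_, ?_, ?_, ExAa_star _ _, ExAa_star _ _, ExAa_star _ _⟩
  · refine ExAa_isD _ _ _ _ fun z => ?_
    have h := (ExAa_exp k z).mul (ExAa_lin (H := H) z)
    refine h.congr_deriv ?_
    ring
  · refine ExAa_isD _ _ _ _ fun z => ?_
    have h := (((ExAa_exp k z).mul (ExAa_lin (H := H) z)).const_mul (-|k|)).sub ((ExAa_exp k z).div_const H)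
    refine h.congr_deriv ?_
    rw [← hkk]
    ring
  · refine ci_ext fun z hz => ?_
    simp only [etr, eta2, eta, ex_sub, ex_rsmul, ex_rc _ _ hz]
    push_cast
    ring
  · simp only [eta]
    rw [ex_rc _ _ (left_mem_Icc.2 hH0.le)]
    simp
  · simp only [eta]
    rw [ex_rc _ _ (right_mem_Icc.2 hH0.le), div_self hH0.ne']
    simp
  · refine ExAa_norm _ _ _ zero_le_one fun z hz => ?_
    rw [abs_of_nonneg (hp0 z hz)]
    exact hp z hz
  · refine ExAa_norm _ _ _ (by positivity) fun z hz => ?_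
    have h1 := hp z hz
    have h2 := hp0 z hz
    have h3 := he1 z hz
    have h4 : Real.exp (-|k| * z) / H ≤ 1 / H := by gcongr
    have h5 : 0 ≤ Real.exp (-|k| * z) / H := by positivity
    have h6 : |k| * (Real.exp (-|k| * z) * (1 - z / H)) ≤ |k| * 1 :=
      mul_le_mul_of_nonneg_left h1 (abs_nonneg k)
    have h7 : 0 ≤ |k| * (Real.exp (-|k| * z) * (1 - z / H)) := mul_nonneg (abs_nonneg k) h2
    rw [abs_le]
    constructor <;> nlinarith
  · refine ExAa_norm _ _ _ (by positivity) fun z hz => ?_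
    have h3 := he1 z hz
    rw [abs_of_nonneg (by positivity)]
    exact mul_le_of_le_one_right (by positivity) h3

end

end Pool.Agent.Lib.MP_79abb3_an.FW
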