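import Pool.Agent.Lib.MP_79abb3_an.FW.HEt
import Pool.Agent.Lib.MP_79abb3_an.P25.FieldAt
import Pool.Agent.Lib.MP_79abb3_an.P25.IGlue
import Pool.Agent.Lib.MP_79abb3_an.P25.LinSrc

/-!
FW-11b: the operator `Top` and the heat equation; derivative of the slip.
-/

set_option autoImplicit false
set_option linter.unusedSectionVars false

open MeasureTheory Set Filter Topology Function

namespace Pool.Agent.Lib.MP_79abb3_an.FW

open Pool.Agent.Lib.MP_79abb3_an.P25

section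
variable {H : ℝ} [hH : Fact (0 < H)]

theorem heb_ex_one (z : ℝ) : ex (1 : CI H) z = 1 := rfl

theorem heb_fexp {m z : ℝ} (hz : z ∈ Icc (0:ℝ) H) : ex (fexp m : CI H) z = (Real.exp (m * z) : ℝ) :=
  ex_rc _ _ hz

theorem heb_fexp_isD (m : ℝ) : IsD (fexp m : CI H) (((m : ℝ) : ℂ) • fexp m) := by
  intro z hz
  have h1 : HasDerivAt (fun z : ℝ => Real.exp (m * z)) (Real.exp (m * z) * m) z := by
    have h2 : HasDerivAt (fun z : ℝ => m * z) m z := by
      simpa using (hasDerivAt_id z).const_mul m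
    exact h2.exp
  have h3 := h1.ofReal_comp.hasDerivWithinAt (s := Icc (0:ℝ) H)
  have h4 := h3.congr (f₁ := ex (fexp m : CI H)) (fun x hx => heb_fexp hx) (heb_fexp hz)
  refine h4.congr_deriv ?_
  rw [ex_smul, heb_fexp hz]
  push_cast
  ring

theorem heb_one_isD : IsD (1 : CI H) 0 := fun z _ => hasDerivWithinAt_const z (Icc 0 H) (1:ℂ)

theorem heb_prim (g : CI H) {y : ℝ} (hy : y ∈ Icc (0:ℝ) H) : ex (Eop 0 g) y = prim g y := by
  rw [Eop_apply 0 g hy]
  unfold prim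
  simp

theorem heb_ftc {f f1 : CI H} (h : IsD f f1) {y : ℝ} (hy : y ∈ Icc (0:ℝ) H) :
    prim f1 y = ex f y - ex f 0 := by
  have h1 : IsD (f - ex f 0 • (1 : CI H)) f1 := by
    intro z hz
    have h2 := (h z hz).sub (((heb_one_isD (H := H)) z hz).const_mul (ex f 0))
    have e1 : ex f1 z - ex f 0 * ex (0 : CI H) z = ex f1 z := by simp
    rw [e1] at h2
    exact h2
  have h3 := isD_iff.1 ⟨h1, by rw [ex_sub, ex_smul, heb_ex_one]; ring⟩
  have h4 := congrArg (fun g : CI H => ex g y) h3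
  simp only [ex_sub, ex_smul, heb_ex_one, heb_prim _ hy] at h4
  rw [← h4]
  ring

/-- `T f` in terms of the primitive of `f` -/
noncomputable def htL (H : ℝ) [Fact (0 < H)] (k : ℝ) : CI H →L[ℝ] CI H :=
  (evL (H := H) H).smulRight (((Real.exp (-|k| * H) : ℝ) : ℂ) • (fexp |k| : CI H)) -
    ContinuousLinearMap.id ℝ (CI H) + |k| • (Top (H := H) k).restrictScalars ℝ

theorem htL_apply (k : ℝ) (F : CI H) : htL H k F =
    ex F H • (((Real.exp (-|k| * H) : ℝ) : ℂ) • (fexp |k| : CI H)) - F + |k| • Top k F := rfl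

theorem htL_ex (k : ℝ) (F : CI H) (z : ℝ) : ex (htL H k F) z =
    ex F H * (((Real.exp (-|k| * H) : ℝ) : ℂ) * ex (fexp |k| : CI H) z) - ex F z +
      ((|k| : ℝ) : ℂ) * ex (Top k F) z := rfl

theorem heb_expH (k : ℝ) : ((Real.exp (-|k| * H) : ℝ) : ℂ) * ex (fexp |k| : CI H) H = 1 := by
  rw [heb_fexp ⟨hH.out.le, le_rfl⟩, ← Complex.ofReal_mul, ← Real.exp_add]
  have : -|k| * H + |k| * H = 0 := by ring
  rw [this, Real.exp_zero, Complex.ofReal_one]

theorem htL_prim (k : ℝ) (g : CI H) : htL H k (Eop 0 g) = Top k g := by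
  have hF : IsD (Eop 0 g) g := Eop_zero_isD g
  refine Top_unique k (w1 := ex (Eop 0 g) H • (((Real.exp (-|k| * H) : ℝ) : ℂ) •
    (((|k| : ℝ) : ℂ) • (fexp |k| : CI H))) - g + |k| • (|k| • Top k (Eop 0 g) - Eop 0 g))
    ?_ ?_ ?_
  · intro z hz
    have h1 := ((heb_fexp_isD (H := H) |k| z hz).const_mul
      ((Real.exp (-|k| * H) : ℝ) : ℂ)).const_mul (ex (Eop 0 g) H)
    exact (h1.sub (hF z hz)).add ((Top_isD k (Eop 0 g) z hz).const_mul ((|k| : ℝ) : ℂ))
  · rw [htL_ex, heb_expH, Top_H]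
    ring
  · refine ci_ext fun z _ => ?_
    simp only [ex_sub, ex_add, ex_neg, ex_smul, ex_rsmul, htL_ex]
    ring

theorem htL_one (k : ℝ) : htL H k 1 = 0 := by
  have h1 : (1 : CI H) - ((Real.exp (-|k| * H) : ℝ) : ℂ) • (fexp |k| : CI H) =
      Top k (|k| • (1 : CI H)) := by
    refine Top_unique k (w1 := 0 - ((Real.exp (-|k| * H) : ℝ) : ℂ) •
      (((|k| : ℝ) : ℂ) • (fexp |k| : CI H))) ?_ ?_ ?_
    · intro z hz
      exact ((heb_one_isD (H := H)) z hz).sub ((heb_fexp_isD (H := H) |k| z hz).const_mul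
        ((Real.exp (-|k| * H) : ℝ) : ℂ))
    · rw [ex_sub, ex_smul, heb_expH, heb_ex_one]
      ring
    · refine ci_ext fun z _ => ?_
      simp only [ex_sub, ex_neg, ex_smul, ex_rsmul, heb_ex_one, ex_zero]
      ring
  rw [Top_rsmul] at h1
  rw [htL_apply, ← h1, heb_ex_one, one_smul]
  abel

/-- the static identity -/
theorem heb_static (k : ℝ) {f f1 : CI H} (hf : IsD f f1) (hfH : ex f H = 0) (G : CI H) {y : ℝ}
    (hy : y ∈ Icc (0:ℝ) H) :
    prim (htL H k (f1 - ex f1 0 • (1 : CI H) - ((k ^ 2 : ℝ) : ℂ) • Eop 0 f + Eop 0 G)) y =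
      rh k (Top k f) (|k| • Top k f - f)
        (Top k G + (((Real.exp (-|k| * H) : ℝ) : ℂ) * ex f1 H) • fexp |k|) y := by
  have hTf1 : Top k f1 = -f + |k| • Top k f := Top_deriv k hf hfH
  have hsm : ∀ (c : ℂ) (F : CI H), htL H k (c • F) = c • htL H k F := by
    intro c F
    refine ci_ext fun z _ => ?_
    have h1 : Top k (c • F) = c • Top k F := map_smul _ _ _
    simp only [htL_ex, ex_smul, h1]
    ring
  have hone : ∀ c : ℂ, htL H k (c • (1 : CI H)) = 0 := by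
    intro c
    rw [hsm, htL_one]
    exact ci_ext fun z _ => by rw [ex_smul, ex_zero, mul_zero]
  have e1 : htL H k (f1 - ex f1 0 • (1 : CI H) - ((k ^ 2 : ℝ) : ℂ) • Eop 0 f + Eop 0 G) =
      htL H k f1 - ((k ^ 2 : ℝ) : ℂ) • Top k f + Top k G := by
    rw [map_add, map_sub, map_sub, hone, hsm, htL_prim, htL_prim]
    refine ci_ext fun z _ => ?_
    simp only [ex_add, ex_sub, ex_zero]
    ring
  have hpadd : ∀ F F' : CI H, prim (F + F') y = prim F y + prim F' y := fun F F' =>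
    (primCL (H := H) y).map_add F F'
  have hpsub : ∀ F F' : CI H, prim (F - F') y = prim F y - prim F' y := fun F F' =>
    (primCL (H := H) y).map_sub F F'
  have hpsm : ∀ (c : ℂ) (F : CI H), prim (c • F) y = c * prim F y := by
    intro c F
    unfold prim
    rw [← intervalIntegral.integral_const_mul]
    rfl
  have e2 : htL H k f1 = (((Real.exp (-|k| * H) : ℝ) : ℂ) * ex f1 H) • (fexp |k| : CI H) - f1 +
      ((|k| : ℝ) : ℂ) • (((|k| : ℝ) : ℂ) • Top k f - f) := by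
    refine ci_ext fun z _ => ?_
    rw [htL_ex, hTf1]
    simp only [ex_sub, ex_add, ex_neg, ex_smul, ex_rsmul]
    ring
  have h1 := heb_ftc hf hy
  have h2 := heb_ftc (Top_isD k f) hy
  have e3 : prim (|k| • Top k f - f) y = ((|k| : ℝ) : ℂ) * prim (Top k f) y - prim f y := by
    rw [hpsub]
    have : (|k| • Top k f : CI H) = ((|k| : ℝ) : ℂ) • Top k f := ci_ext fun z _ => by
      rw [ex_rsmul, ex_smul]
    rw [this, hpsm]
  rw [e3] at h2
  rw [e1, e2]
  simp only [hpadd, hpsub, hpsm]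
  unfold rh
  rw [hpadd, hpsm, h1]
  simp only [ex_sub, ex_rsmul]
  have hk2 : ((k ^ 2 : ℝ) : ℂ) = ((|k| : ℝ) : ℂ) * ((|k| : ℝ) : ℂ) := by
    rw [← Complex.ofReal_mul, abs_mul_abs_self, sq]
  rw [hk2]
  linear_combination ((|k| : ℝ) : ℂ) * h2

theorem HE.top {k a b : ℝ} {f f1 G : ℝ → CI H} (h : HE k a b f f1 G)
    (hH' : ∀ t ∈ Icc a b, ex (f t) H = 0) :
    HE k a b (fun t => Top k (f t)) (fun t => |k| • Top k (f t) - f t)
      (fun t => Top k (G t) + (((Real.exp (-|k| * H) : ℝ) : ℂ) * ex (f1 t) H) • fexp |k|) where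
  cf := (Top k).continuous.comp_continuousOn h.cf
  cf1 := ((((Top k).continuous.comp_continuousOn h.cf)).const_smul |k|).sub h.cf
  cG := ((Top k).continuous.comp_continuousOn h.cG).add
    ((continuousOn_const.mul ((evL (H := H) H).continuous.comp_continuousOn h.cf1)).smul
      continuousOn_const)
  d := fun t _ => Top_isD k (f t)
  eq := by
    intro y hy t1 ht1 t2 ht2
    have hsub : Icc t1 t2 ⊆ Icc a b := Icc_subset_Icc ht1.1 ht2.2
    set R : ℝ → CI H := fun s => f1 s - ex (f1 s) 0 • (1 : CI H) -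
      ((k ^ 2 : ℝ) : ℂ) • Eop 0 (f s) + Eop 0 (G s) with hR
    have hRc : ContinuousOn R (Icc a b) := by
      refine ((h.cf1.sub ?_).sub ?_).add ((Eop 0).continuous.comp_continuousOn h.cG)
      · exact ((evL (H := H) 0).continuous.comp_continuousOn h.cf1).smul continuousOn_const
      · exact ((Eop 0).continuous.comp_continuousOn h.cf).const_smul ((k ^ 2 : ℝ) : ℂ)
    have hRi : IntervalIntegrable R volume t1 t2 :=
      (hRc.mono (by rw [uIcc_of_le ht2.1]; exact hsub)).intervalIntegrable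
    have hRex : ∀ s, ∀ z ∈ Icc (0:ℝ) H, ex (R s) z = rh k (f s) (f1 s) (G s) z := by
      intro s z hz
      simp only [hR, ex_add, ex_sub, ex_smul, heb_ex_one, heb_prim _ hz, rh]
      ring
    have hF : Eop 0 (f t2) - Eop 0 (f t1) = ∫ s in t1..t2, R s := by
      refine ci_ext fun z hz => ?_
      rw [ex_sub, heb_prim _ hz, heb_prim _ hz, h.eq z hz t1 ht1 t2 ht2]
      have h1 := ContinuousLinearMap.intervalIntegral_comp_comm (evL (H := H) z) hRi
      rw [evL_apply] at h1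
      rw [← h1]
      refine intervalIntegral.integral_congr fun s _ => ?_
      show rh k (f s) (f1 s) (G s) z = ex (R s) z
      rw [hRex s z hz]
    show prim (Top k (f t2)) y - prim (Top k (f t1)) y = _
    have h2 : prim (Top k (f t2)) y - prim (Top k (f t1)) y =
        ((primCL (H := H) y).comp (htL H k)) (Eop 0 (f t2) - Eop 0 (f t1)) := by
      rw [map_sub]
      show _ = prim (htL H k (Eop 0 (f t2))) y - prim (htL H k (Eop 0 (f t1))) y
      rw [htL_prim, htL_prim]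
    rw [h2, hF, ← ContinuousLinearMap.intervalIntegral_comp_comm _ hRi]
    refine intervalIntegral.integral_congr fun s hs => ?_
    rw [uIcc_of_le ht2.1] at hs
    show prim (htL H k (R s)) y = _
    exact heb_static k (h.d s (hsub hs)) (hH' s (hsub hs)) (G s) hy

theorem HE.slip {k a b : ℝ} {f f1 G : ℝ → CI H} (h : HE k a b f f1 G)
    (h0 : ∀ t ∈ Icc a b, ex (f t) 0 = 0) (hH' : ∀ t ∈ Icc a b, ex (f t) H = 0) : ∀ t ∈ Icc a b,
    HasDerivWithinAt (fun t => ex (Top k (f t)) 0)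
      (-ex (f1 t) 0 + ((Real.exp (-|k| * H) : ℝ) : ℂ) * ex (f1 t) H + ex (Top k (G t)) 0)
      (Icc a b) t := by
  intro t ht
  have hz0 : (0:ℝ) ∈ Icc (0:ℝ) H := ⟨le_rfl, hH.out.le⟩
  have hzH : H ∈ Icc (0:ℝ) H := ⟨hH.out.le, le_rfl⟩
  have hT : ∀ g : CI H, ex (Top k g) 0 = bpJ g (fexp (-|k|)) := by
    intro g
    rw [Top_apply k g hz0]
    unfold bpJ
    refine intervalIntegral.integral_congr fun x hx => ?_
    rw [uIcc_of_le hH.out.le] at hx
    show ((Real.exp (-|k| * (x - 0)) : ℝ) : ℂ) * ex g x = ex g x * ex (fexp (-|k|) : CI H) x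
    rw [heb_fexp hx, sub_zero, mul_comm]
  have h1 : IsD (fexp (-|k|) : CI H) (((-|k| : ℝ) : ℂ) • fexp (-|k|)) := heb_fexp_isD _
  have h2 : IsD (((-|k| : ℝ) : ℂ) • (fexp (-|k|) : CI H))
      (((-|k| : ℝ) : ℂ) • (((-|k| : ℝ) : ℂ) • fexp (-|k|))) := h1.fa_csmul _
  have h3 := h.test h1 h2 t ht
  simp only [hT]
  refine h3.congr_deriv ?_
  have hk2 : ((k ^ 2 : ℝ) : ℂ) = ((|k| : ℝ) : ℂ) * ((|k| : ℝ) : ℂ) := by
    rw [← Complex.ofReal_mul, abs_mul_abs_self, sq]
  have hb : ∀ (c : ℂ) (g g' : CI H), bpJ g (c • g') = c * bpJ g g' := by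
    intro c g g'
    rw [bpJ_comm, bpJ_smul_left, bpJ_comm]
  rw [hb, hb, h0 t ht, hH' t ht, heb_fexp hz0, heb_fexp hzH, hk2]
  simp only [mul_zero, Real.exp_zero, Complex.ofReal_one, Complex.ofReal_neg]
  ring

end

end Pool.Agent.Lib.MP_79abb3_an.FW
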