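import Pool.Agent.Lib.MP_79abb3_an.FW.NormsC

/-!
FW-2a: the Dirichlet heat semigroup is symmetric.
-/

set_option autoImplicit false
set_option linter.unusedSectionVars false

open MeasureTheory Set Filter Topology Function

namespace Pool.Agent.Lib.MP_79abb3_an.FW

open Pool.Agent.Lib.MP_79abb3_an.P25

section
variable {H : ℝ} [hH : Fact (0 < H)]

private theorem add_right (f g g' : CI H) : bpJ f (g + g') = bpJ f g + bpJ f g' := by
  rw [bpJ_comm f (g + g'), bpJ_add_left, bpJ_comm g f, bpJ_comm g' f]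

private theorem rsmul_right (c : ℝ) (f g : CI H) : bpJ f (c • g) = c * bpJ f g := by
  rw [bpJ_comm f (c • g), bpJ_rsmul_left, bpJ_comm g f]

private theorem norm_le_H (f g : CI H) : ‖bpJ f g‖ ≤ H * ‖f‖ * ‖g‖ := by
  have hH0 := hH.out
  refine (norm_bpJ_le f g).trans ?_
  have h1 := n2_le_norm f
  have h2 := n2_le_norm g
  calc n2 f * n2 g ≤ (√H * ‖f‖) * (√H * ‖g‖) :=
        mul_le_mul h1 h2 (n2_nonneg g) (by positivity)
    _ = (√H * √H) * ‖f‖ * ‖g‖ := by ring
    _ = H * ‖f‖ * ‖g‖ := by rw [Real.mul_self_sqrt hH0.le]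

/-- the pairing as a continuous bilinear map -/
private noncomputable def bil : CI H →L[ℝ] CI H →L[ℝ] ℂ :=
  LinearMap.mkContinuous₂
    (LinearMap.mk₂ ℝ (fun f g => bpJ f g) (fun f f' g => bpJ_add_left f f' g)
      (fun c f g => by rw [bpJ_rsmul_left]; rfl) (fun f g g' => add_right f g g')
      (fun c f g => by rw [rsmul_right]; rfl)) H
    (fun f g => norm_le_H f g)

private theorem bil_apply (f g : CI H) : bil f g = bpJ f g := rfl

variable {S D A : ℝ → (CI H →L[ℂ] CI H)}

private theorem der_zero (hS : DirSG H S D A) {s r : ℝ} (hs : 0 < s) (hr : 0 < r) (f g : CI H) :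
    bpJ (A s f) (S r g) = bpJ (S s f) (A r g) := by
  have h1 := bpJ_parts (hS.D_der s hs f) (hS.S_der r hr g)
  have h2 := bpJ_parts (hS.D_der r hr g) (hS.S_der s hs f)
  rw [hS.S_zero r hr g, hS.S_H r hr g] at h1
  rw [hS.S_zero s hs f, hS.S_H s hs f] at h2
  rw [bpJ_comm (S s f) (A r g), h1, h2, bpJ_comm (D s f) (D r g)]
  ring

private theorem q_der (hS : DirSG H S D A) {t s : ℝ} (hs : 0 < s) (hst : s < t) (f g : CI H) :
    HasDerivAt (fun s => bpJ (S s f) (S (t - s) g)) 0 s := by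
  have h2 : HasDerivAt (fun s => S (t - s) g) (-(A (t - s) g)) s := by
    have h3 := hS.S_time (t - s) (by linarith) g
    have h4 : HasDerivAt (fun s : ℝ => t - s) (-1) s := by
      simpa using (hasDerivAt_id s).const_sub t
    have h5 := HasDerivAt.scomp s h3 h4
    simpa [Function.comp_def] using h5
  have h6 := (bil (H := H)).hasDerivAt_of_bilinear (fun _ => hS.S_time s hs f) (fun _ => h2)
  have h7 : bil (S s f) (-(A (t - s) g)) + bil (A s f) (S (t - s) g) = 0 := by
    rw [map_neg, bil_apply, bil_apply, der_zero hS hs (by linarith : 0 < t - s)]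
    ring
  rw [h7] at h6
  exact h6

private theorem q_lim (hS : DirSG H S D A) {t : ℝ} (ht : 0 < t) (f g : CI H) :
    Tendsto (fun s => bpJ (S s f) (S (t - s) g)) (𝓝[>] 0) (𝓝 (bpJ f (S t g))) := by
  have hH0 := hH.out
  -- continuity of the second factor
  have hc : Tendsto (fun s => S (t - s) g) (𝓝[>] 0) (𝓝 (S t g)) := by
    have h3 : ContinuousAt (fun t => S t g) t := (hS.S_time t ht g).continuousAt
    have h4 : Tendsto (fun s : ℝ => t - s) (𝓝 0) (𝓝 t) := by
      have : Continuous fun s : ℝ => t - s := by fun_prop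
      simpa using this.tendsto 0
    exact (h3.tendsto.comp h4).mono_left nhdsWithin_le_nhds
  have hc2 : Tendsto (fun s => ‖S (t - s) g - S t g‖) (𝓝[>] 0) (𝓝 0) := by
    have := (hc.sub_const (S t g)).norm
    simpa using this
  have hL : Tendsto (fun s => n2 (S s f - f)) (𝓝[>] 0) (𝓝 0) := by
    have h1 := (Real.continuous_sqrt.tendsto 0).comp (hS.S_L2 f)
    rw [Real.sqrt_zero] at h1
    exact h1
  have hb : Tendsto (fun s => n2 (S s f - f) * (√H * ‖g‖) + H * ‖f‖ * ‖S (t - s) g - S t g‖)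
      (𝓝[>] 0) (𝓝 0) := by
    have := (hL.mul_const (√H * ‖g‖)).add (hc2.const_mul (H * ‖f‖))
    simpa using this
  rw [tendsto_iff_norm_sub_tendsto_zero]
  refine squeeze_zero' (Eventually.of_forall fun s => norm_nonneg _) ?_ hb
  have hmem : Ioo (0:ℝ) t ∈ 𝓝[>] (0:ℝ) := Ioo_mem_nhdsGT ht
  filter_upwards [hmem] with s hs
  have e1 : bpJ (S s f) (S (t - s) g) - bpJ f (S t g)
      = bpJ (S s f - f) (S (t - s) g) + bpJ f (S (t - s) g - S t g) := by
    rw [bpJ_sub_left, bpJ_comm f (S (t - s) g - S t g), bpJ_sub_left, bpJ_comm (S (t - s) g) f,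
      bpJ_comm (S t g) f]
    ring
  rw [e1]
  refine (norm_add_le _ _).trans (add_le_add ?_ ?_)
  · refine (norm_bpJ_le _ _).trans ?_
    refine mul_le_mul_of_nonneg_left ?_ (n2_nonneg _)
    refine (n2_le_norm _).trans ?_
    exact mul_le_mul_of_nonneg_left (hS.S_norm (t - s) (by linarith [hs.2]) g) (Real.sqrt_nonneg _)
  · exact norm_le_H _ _

/-- The semigroup is symmetric. -/
theorem sg_symm (hS : DirSG H S D A) {t : ℝ} (ht : 0 < t) (f g : CI H) :
    bpJ (S t f) g = bpJ f (S t g) := by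
  -- the function is constant
  have hconst : ∀ s ∈ Ioo (0:ℝ) t, bpJ (S s f) (S (t - s) g)
      = bpJ (S (t / 2) f) (S (t - t / 2) g) := by
    intro s hs
    have h2 : t / 2 ∈ Ioo (0:ℝ) t := ⟨by linarith, by linarith⟩
    have := (convex_Ioo (0:ℝ) t).norm_image_sub_le_of_norm_hasDerivWithin_le (𝕜 := ℝ)
      (f := fun s => bpJ (S s f) (S (t - s) g)) (f' := fun _ => (0:ℂ)) (C := 0)
      (fun x hx => (q_der hS hx.1 hx.2 f g).hasDerivWithinAt) (fun x hx => by simp) h2 hs
    rw [zero_mul] at this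
    have h3 := norm_le_zero_iff.1 this
    exact sub_eq_zero.1 h3
  have hmem : Ioo (0:ℝ) t ∈ 𝓝[>] (0:ℝ) := Ioo_mem_nhdsGT ht
  have h1 : bpJ f (S t g) = bpJ (S (t / 2) f) (S (t - t / 2) g) := by
    refine tendsto_nhds_unique (q_lim hS ht f g) ?_
    refine (tendsto_congr' ?_).2 tendsto_const_nhds
    filter_upwards [hmem] with s hs
    exact hconst s hs
  have h2 : bpJ g (S t f) = bpJ (S (t / 2) f) (S (t - t / 2) g) := by
    refine tendsto_nhds_unique (q_lim hS ht g f) ?_
    refine (tendsto_congr' ?_).2 tendsto_const_nhds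
    filter_upwards [hmem] with s hs
    have h3 := hconst (t - s) ⟨by linarith [hs.2], by linarith [hs.1]⟩
    rw [sub_sub_cancel, bpJ_comm] at h3
    exact h3
  rw [bpJ_comm, h2, h1]

end

end Pool.Agent.Lib.MP_79abb3_an.FW
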