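import Pool.Agent.Lib.MP_79abb3_an.FW.HEc
import Pool.Agent.Lib.MP_79abb3_an.FW.SGa

/-!
FW-13: mild formula for Dirichlet solutions.
-/

set_option autoImplicit false
set_option linter.unusedSectionVars false

open MeasureTheory Set Filter Topology Function

namespace Pool.Agent.Lib.MP_79abb3_an.FW

open Pool.Agent.Lib.MP_79abb3_an.P25

section
variable {H : ℝ} [hH : Fact (0 < H)]

variable {S D A : ℝ → (CI H →L[ℂ] CI H)}

/-- the pairing separates -/
theorem hed_zero {f : CI H} (h : ∀ φ : CI H, bpJ f φ = 0) : f = 0 := by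
  have h1 := h (star f)
  rw [bpJ_star_self] at h1
  have h2 : n2 f ^ 2 = 0 := by exact_mod_cast h1
  rw [n2_sq] at h2
  refine ci_ext fun z hz => ?_
  rw [ex_zero]
  by_contra hne
  have hpos : 0 < ∫ z in (0:ℝ)..H, ‖ex f z‖ ^ 2 := by
    refine intervalIntegral.integral_pos hH.out ?_ (fun x _ => by positivity) ⟨z, hz, ?_⟩
    · exact ((continuous_ex f).norm.pow 2).continuousOn
    · have := norm_pos_iff.2 hne
      positivity
  linarith

/-- joint continuity of a family of operators -/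
theorem hed_cont {P : ℝ → (CI H →L[ℂ] CI H)} {m : ℝ → ℝ}
    (hP : ∀ s, 0 < s → ∀ g, ‖P s g‖ ≤ m s * ‖g‖) (hm : ContinuousOn m (Ioi 0))
    (hc : ∀ g, ContinuousOn (fun s => P s g) (Ioi 0)) {a t : ℝ} {G : ℝ → CI H}
    (hG : ContinuousOn G (Ico a t)) : ContinuousOn (fun r => P (t - r) (G r)) (Ico a t) := by
  intro r hr
  have htr : 0 < t - r := by linarith [hr.2]
  have hmap : Tendsto (fun r' : ℝ => t - r') (𝓝[Ico a t] r) (𝓝[Ioi 0] (t - r)) := by
    refine tendsto_nhdsWithin_iff.2 ⟨?_, ?_⟩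
    · exact ((continuous_const.sub continuous_id).tendsto r).mono_left nhdsWithin_le_nhds
    · filter_upwards [self_mem_nhdsWithin] with r' hr'
      show 0 < t - r'
      linarith [hr'.2]
  have h1 : Tendsto (fun r' => P (t - r') (G r)) (𝓝[Ico a t] r) (𝓝 (P (t - r) (G r))) :=
    (hc (G r) (t - r) htr).tendsto.comp hmap
  have h2 : Tendsto (fun r' => m (t - r') * ‖G r' - G r‖) (𝓝[Ico a t] r) (𝓝 0) := by
    have h3 : Tendsto (fun r' => m (t - r')) (𝓝[Ico a t] r) (𝓝 (m (t - r))) :=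
      (hm (t - r) htr).tendsto.comp hmap
    have h4 : Tendsto (fun r' => ‖G r' - G r‖) (𝓝[Ico a t] r) (𝓝 0) := by
      have := ((hG r hr).tendsto.sub_const (G r)).norm
      rwa [sub_self, norm_zero] at this
    have := h3.mul h4
    rwa [mul_zero] at this
  show Tendsto (fun r' => P (t - r') (G r')) (𝓝[Ico a t] r) (𝓝 (P (t - r) (G r)))
  have h5 : Tendsto (fun r' => P (t - r') (G r' - G r)) (𝓝[Ico a t] r) (𝓝 0) := by
    refine squeeze_zero_norm' ?_ h2
    filter_upwards [self_mem_nhdsWithin] with r' hr'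
    exact hP _ (by linarith [hr'.2]) _
  have h6 := h5.add h1
  rw [zero_add] at h6
  refine h6.congr fun r' => ?_
  rw [map_sub, sub_add_cancel]

theorem HE.mild (hS : DirSG H S D A) {k a b : ℝ} {f f1 G : ℝ → CI H} (h : HE k a b f f1 G)
    (h0 : ∀ t ∈ Icc a b, ex (f t) 0 = 0) (hH' : ∀ t ∈ Icc a b, ex (f t) H = 0) {t : ℝ} (ht : t ∈ Ioc a b) :
    IntervalIntegrable (fun r => Real.exp (-(k ^ 2 * (t - r))) • S (t - r) (G r)) volume a t ∧
    IntervalIntegrable (fun r => Real.exp (-(k ^ 2 * (t - r))) • D (t - r) (G r)) volume a t ∧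
    f t = Real.exp (-(k ^ 2 * (t - a))) • S (t - a) (f a) +
      ∫ r in a..t, Real.exp (-(k ^ 2 * (t - r))) • S (t - r) (G r) ∧
    f1 t = Real.exp (-(k ^ 2 * (t - a))) • D (t - a) (f a) +
      ∫ r in a..t, Real.exp (-(k ^ 2 * (t - r))) • D (t - r) (G r) := by
  have hat : a < t := ht.1
  have htb : t ≤ b := ht.2
  obtain ⟨CG, hCG⟩ := isCompact_Icc.exists_bound_of_continuousOn h.cG
  have hCG0 : 0 ≤ CG := (norm_nonneg _).trans (hCG t ⟨hat.le, htb⟩)
  have hsub : Ico a t ⊆ Icc a b := fun r hr => ⟨hr.1, by linarith [hr.2]⟩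
  have hexp : Continuous fun r : ℝ => Real.exp (-(k ^ 2 * (t - r))) := by fun_prop
  have hexp1 : ∀ r ∈ Ico a t, Real.exp (-(k ^ 2 * (t - r))) ≤ 1 := by
    intro r hr
    rw [Real.exp_le_one_iff]
    have h1 : 0 ≤ t - r := by linarith [hr.2]
    have h2 : 0 ≤ k ^ 2 * (t - r) := by positivity
    linarith
  -- integrability
  have hSc : ContinuousOn (fun r => S (t - r) (G r)) (Ico a t) := by
    refine hed_cont (m := fun _ => 1) (fun s hs g => by rw [one_mul]; exact hS.S_norm s hs g)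
      continuousOn_const (fun g s hs => ?_) (h.cG.mono hsub)
    exact (hS.S_time s hs g).continuousAt.continuousWithinAt
  have hDc : ContinuousOn (fun r => D (t - r) (G r)) (Ico a t) := by
    refine hed_cont (m := fun s => (√s)⁻¹) (fun s hs g => hS.D_norm s hs g) ?_
      (fun g => hS.D_cont g) (h.cG.mono hsub)
    intro s hs
    have hs' : (0:ℝ) < s := hs
    exact (Real.continuous_sqrt.continuousAt.inv₀ (Real.sqrt_pos.2 hs').ne').continuousWithinAt
  have hI1 : IntervalIntegrable (fun r => Real.exp (-(k ^ 2 * (t - r))) • S (t - r) (G r))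
      volume a t := by
    have hdom : IntervalIntegrable (fun _ : ℝ => CG) volume a t := intervalIntegrable_const
    rw [intervalIntegrable_iff_integrableOn_Ico_of_le hat.le] at hdom ⊢
    refine Integrable.mono' hdom
      ((hexp.continuousOn.smul hSc).aestronglyMeasurable measurableSet_Ico) ?_
    rw [ae_restrict_iff' measurableSet_Ico]
    refine ae_of_all _ fun r hr => ?_
    have htr : 0 < t - r := by linarith [hr.2]
    rw [norm_smul, Real.norm_of_nonneg (Real.exp_pos _).le]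
    calc Real.exp (-(k ^ 2 * (t - r))) * ‖S (t - r) (G r)‖ ≤ 1 * CG :=
          mul_le_mul (hexp1 r hr) ((hS.S_norm _ htr _).trans (hCG r (hsub hr)))
            (norm_nonneg _) zero_le_one
      _ = CG := one_mul _
  have hI2 : IntervalIntegrable (fun r => Real.exp (-(k ^ 2 * (t - r))) • D (t - r) (G r))
      volume a t := by
    have hdom : IntervalIntegrable (fun r : ℝ => CG * (√(t - r))⁻¹) volume a t :=
      (hec_sing a t).const_mul _
    rw [intervalIntegrable_iff_integrableOn_Ico_of_le hat.le] at hdom ⊢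
    refine Integrable.mono' hdom
      ((hexp.continuousOn.smul hDc).aestronglyMeasurable measurableSet_Ico) ?_
    rw [ae_restrict_iff' measurableSet_Ico]
    refine ae_of_all _ fun r hr => ?_
    have htr : 0 < t - r := by linarith [hr.2]
    have hsq : 0 ≤ (√(t - r))⁻¹ := by positivity
    rw [norm_smul, Real.norm_of_nonneg (Real.exp_pos _).le]
    calc Real.exp (-(k ^ 2 * (t - r))) * ‖D (t - r) (G r)‖ ≤ 1 * ((√(t - r))⁻¹ * CG) :=
          mul_le_mul (hexp1 r hr) ((hS.D_norm _ htr _).trans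
            (mul_le_mul_of_nonneg_left (hCG r (hsub hr)) hsq))
            (norm_nonneg _) zero_le_one
      _ = CG * (√(t - r))⁻¹ := by ring
  -- the formula for f
  have hf : f t = Real.exp (-(k ^ 2 * (t - a))) • S (t - a) (f a) +
      ∫ r in a..t, Real.exp (-(k ^ 2 * (t - r))) • S (t - r) (G r) := by
    rw [← sub_eq_zero]
    refine hed_zero fun φ => ?_
    have hd := (HE.dual hS h hH' ht φ).2
    have h1 : ∫ r in a..t, ((Real.exp (-(k ^ 2 * (t - r))) : ℝ) : ℂ) *
        (bpJ (G r) (S (t - r) φ) + ex (f r) 0 * ex (D (t - r) φ) 0) =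
        ∫ r in a..t, (hecB H).flip φ (Real.exp (-(k ^ 2 * (t - r))) • S (t - r) (G r)) := by
      refine intervalIntegral.integral_congr_Ioo_of_le hat.le fun r hr => ?_
      have htr : 0 < t - r := by linarith [hr.2]
      show ((Real.exp (-(k ^ 2 * (t - r))) : ℝ) : ℂ) *
        (bpJ (G r) (S (t - r) φ) + ex (f r) 0 * ex (D (t - r) φ) 0) =
        bpJ (Real.exp (-(k ^ 2 * (t - r))) • S (t - r) (G r)) φ
      rw [h0 r ⟨hr.1.le, by linarith [hr.2]⟩, zero_mul, add_zero, bpJ_rsmul_left,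
        sg_symm hS htr]
    rw [h1, ContinuousLinearMap.intervalIntegral_comp_comm _ hI1] at hd
    have h2 : (hecB H).flip φ (∫ r in a..t, Real.exp (-(k ^ 2 * (t - r))) • S (t - r) (G r)) =
        bpJ (∫ r in a..t, Real.exp (-(k ^ 2 * (t - r))) • S (t - r) (G r)) φ := rfl
    rw [h2] at hd
    rw [bpJ_sub_left, bpJ_add_left, bpJ_rsmul_left, hd,
      sg_symm hS (show 0 < t - a by linarith)]
    ring
  refine ⟨hI1, hI2, hf, ?_⟩
  -- the derivative
  have hder : f t = Eop 0 (Real.exp (-(k ^ 2 * (t - a))) • D (t - a) (f a) +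
      ∫ r in a..t, Real.exp (-(k ^ 2 * (t - r))) • D (t - r) (G r)) := by
    have hEs : ∀ s, 0 < s → ∀ g, S s g = Eop 0 (D s g) := fun s hs g =>
      isD_iff.1 ⟨hS.S_der s hs g, hS.S_zero s hs g⟩
    have hEr : ∀ (c : ℝ) (g : CI H), Eop 0 (c • g) = c • Eop 0 g := by
      intro c g
      have h1 : (c • g : CI H) = (c : ℂ) • g := ci_ext fun z _ => by
        rw [ex_rsmul, ex_smul]
      have h2 : (c • Eop 0 g : CI H) = (c : ℂ) • Eop 0 g := ci_ext fun z _ => by
        rw [ex_rsmul, ex_smul]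
      rw [h1, h2, map_smul]
    rw [map_add, hEr, ← hEs _ (by linarith), ← ContinuousLinearMap.intervalIntegral_comp_comm _ hI2]
    rw [hf]
    congr 1
    refine intervalIntegral.integral_congr_Ioo_of_le hat.le fun r hr => ?_
    have htr : 0 < t - r := by linarith [hr.2]
    show Real.exp (-(k ^ 2 * (t - r))) • S (t - r) (G r) =
      Eop 0 (Real.exp (-(k ^ 2 * (t - r))) • D (t - r) (G r))
    rw [hEr, ← hEs _ htr]
  exact IsD.unique (h.d t ⟨hat.le, htb⟩) (isD_iff.2 hder).1

end

end Pool.Agent.Lib.MP_79abb3_an.FW
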