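import Pool.Agent.Lib.MP_79abb3_an.FW.Def
import Pool.Agent.Lib.MP_79abb3_an.P25.IGlue

/-!
FW-10b: time dependent multiples of a profile.
-/

set_option autoImplicit false
set_option linter.unusedSectionVars false

open MeasureTheory Set Filter Topology Function

namespace Pool.Agent.Lib.MP_79abb3_an.FW

open Pool.Agent.Lib.MP_79abb3_an.P25

section
variable {H : ℝ} [hH : Fact (0 < H)]

private theorem hep_prim_smul (c : ℂ) (f : CI H) (y : ℝ) : prim (c • f) y = c * prim f y := by
  simp only [prim, ex_smul]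
  exact intervalIntegral.integral_const_mul c _

private theorem hep_prim_rsmul (c : ℝ) (f : CI H) (y : ℝ) : prim (c • f) y = c * prim f y := by
  simp only [prim, ex_rsmul]
  exact intervalIntegral.integral_const_mul (c : ℂ) _

private theorem hep_prim_sub (f g : CI H) (y : ℝ) : prim (f - g) y = prim f y - prim g y := by
  simp only [prim, ex_sub]
  exact intervalIntegral.integral_sub ((continuous_ex f).intervalIntegrable _ _)
    ((continuous_ex g).intervalIntegrable _ _)

private theorem hep_prim_deriv {f f1 : CI H} (h : IsD f f1) {y : ℝ} (hy : y ∈ Icc (0:ℝ) H) :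
    prim f1 y = ex f y - ex f 0 := by
  rw [prim]
  refine intervalIntegral.integral_eq_sub_of_hasDerivAt_of_le hy.1
    ((continuous_ex f).continuousOn) (fun z hz => ?_) ((continuous_ex f1).intervalIntegrable _ _)
  have hz' : z ∈ Ioo (0:ℝ) H := ⟨hz.1, hz.2.trans_le hy.2⟩
  exact (h z (Ioo_subset_Icc_self hz')).hasDerivAt (Icc_mem_nhds hz'.1 hz'.2)

/-- A time dependent multiple of a fixed profile `p` with `p'' - k² p = r`. -/
theorem HE.prof {k a b : ℝ} {p p1 p2 r : CI H} (hp : IsD p p1) (hp1 : IsD p1 p2)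
    (hr : r = p2 - (k ^ 2) • p) {s s1 : ℝ → ℂ} (cs : ContinuousOn s (Icc a b))
    (cs1 : ContinuousOn s1 (Icc a b)) (ds : ∀ t ∈ Icc a b, HasDerivWithinAt s (s1 t) (Icc a b) t) :
    HE k a b (fun t => s t • p) (fun t => s t • p1) (fun t => s1 t • p - s t • r) := by
  refine ⟨cs.smul continuousOn_const, cs.smul continuousOn_const,
    (cs1.smul continuousOn_const).sub (cs.smul continuousOn_const), ?_, ?_⟩
  · intro t _ z hz
    exact (hp z hz).const_mul (s t)
  · intro y hy t1 ht1 t2 ht2
    have hab : Icc t1 t2 ⊆ Icc a b := Icc_subset_Icc ht1.1 ht2.2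
    have e1 : ∀ τ, rh k (s τ • p) (s τ • p1) (s1 τ • p - s τ • r) y = s1 τ * prim p y := by
      intro τ
      rw [rh, hep_prim_sub, hep_prim_smul, hep_prim_smul, hep_prim_smul, hr, hep_prim_sub,
        hep_prim_rsmul, hep_prim_deriv hp1 hy, ex_smul, ex_smul]
      ring
    have e2 : ∫ τ in t1..t2, s1 τ = s t2 - s t1 := by
      refine intervalIntegral.integral_eq_sub_of_hasDerivAt_of_le ht2.1
        (cs.mono hab) (fun τ hτ => ?_)
        ((cs1.mono (by rw [uIcc_of_le ht2.1]; exact hab)).intervalIntegrable)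
      have hτ' : τ ∈ Ioo a b := ⟨ht1.1.trans_lt hτ.1, hτ.2.trans_le ht2.2⟩
      exact (ds τ (Ioo_subset_Icc_self hτ')).hasDerivAt (Icc_mem_nhds hτ'.1 hτ'.2)
    simp only [e1]
    rw [intervalIntegral.integral_mul_const, e2, hep_prim_smul, hep_prim_smul]
    ring

end

end Pool.Agent.Lib.MP_79abb3_an.FW
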