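import Pool.Agent.Lib.MP_79abb3_an.FW.ExA
import Pool.Agent.Lib.MP_79abb3_an.FW.HEa
import Pool.Agent.Lib.MP_79abb3_an.FW.HEb
import Pool.Agent.Lib.MP_79abb3_an.FW.HEd
import Pool.Agent.Lib.MP_79abb3_an.FW.HEp

/-!
FW-51: the equations of the lifted state.
-/

set_option autoImplicit false
set_option linter.unusedSectionVars false

open MeasureTheory Set Filter Topology Function

namespace Pool.Agent.Lib.MP_79abb3_an.FW

open Pool.Agent.Lib.MP_79abb3_an.P25

section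
variable {H : ℝ} [hH : Fact (0 < H)]

/-- Time derivative of the slip. -/
noncomputable def sg (ω : ℝ) (N : ℕ) (a a1 : ℝ) (x : ℤ → Xn H) (n : ℤ) : ℂ :=
  ex (x n).1.2.1 0 - ((Real.exp (-|ω * n| * H) : ℝ) : ℂ) * ex (x n).1.2.1 H -
    ex (Top (ω * n) (so ω N a x n)) 0 - ex (pu ω N a1 n : Xn H).2.1 0

/-- Sources of the lifted state. -/
noncomputable def ls (ω : ℝ) (N : ℕ) (a a1 : ℝ) (x : ℤ → Xn H) (n : ℤ) : Yn H :=
  (so ω N a x n, si ω N a x n - sg ω N a a1 x n • eta (ω * n) + ex (x n).2.1 0 • etr (ω * n))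

private theorem exb_pu (ω : ℝ) (N : ℕ) (a : ℝ) (n : ℤ) : ex (pu ω N a n : Xn H).2.1 0 =
    (a : ℂ) * (Complex.I * ((1 / 2 * sN N n : ℝ) : ℂ) * ex (fexp (ω * N) : CI H) 0) := by
  show ex ((Complex.I * ((a / 2 * sN N n : ℝ) : ℂ)) • fexp (ω * N) : CI H) 0 = _
  rw [ex_smul]
  push_cast
  ring

theorem CS.slip {ω : ℝ} {N : ℕ} {A A1 : ℝ → ℝ} {a b : ℝ} {x : ℝ → L1 (Xn H)} (h : CS ω N A A1 a b x)
    (n : ℤ) : (∀ t ∈ Icc a b, HasDerivWithinAt (fun t => ex (x t n).2.1 0)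
      (sg ω N (A t) (A1 t) (x t) n) (Icc a b) t) ∧
      ContinuousOn (fun t => sg ω N (A t) (A1 t) (x t) n) (Icc a b) := by
  constructor
  · intro t ht
    have h1 := HE.slip (h.eo n) (fun t ht => (h.cm t ht n).z1) (fun t ht => (h.cm t ht n).h1) t ht
    have h2 : HasDerivWithinAt (fun t => ex (pu ω N (A t) n : Xn H).2.1 0)
        (ex (pu ω N (A1 t) n : Xn H).2.1 0) (Icc a b) t := by
      simp only [exb_pu]
      exact ((h.dA t ht).ofReal_comp).mul_const _
    have h3 := (h1.neg).sub h2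
    refine (h3.congr (fun s hs => ?_) ?_).congr_deriv ?_
    · exact (h.cm s hs n).z2
    · exact (h.cm t ht n).z2
    · simp only [sg]
      ring
  · have c1 : ContinuousOn (fun t => ex (x t n).1.2.1 0) (Icc a b) :=
      (evL (H := H) 0).continuous.comp_continuousOn (h.eo n).cf1
    have c2 : ContinuousOn (fun t => ex (x t n).1.2.1 H) (Icc a b) :=
      (evL (H := H) H).continuous.comp_continuousOn (h.eo n).cf1
    have c3 : ContinuousOn (fun t => ex (Top (ω * n) (so ω N (A t) (x t) n)) 0) (Icc a b) :=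
      (evL (H := H) 0).continuous.comp_continuousOn
        ((Top (H := H) (ω * n)).continuous.comp_continuousOn (h.eo n).cG)
    have c4 : ContinuousOn (fun t => ex (pu ω N (A1 t) n : Xn H).2.1 0) (Icc a b) := by
      simp only [exb_pu]
      exact (Complex.continuous_ofReal.comp_continuousOn h.cA1).mul continuousOn_const
    exact ((c1.sub (continuousOn_const.mul c2)).sub c3).sub c4

theorem CS.lift {ω : ℝ} {N : ℕ} {A A1 : ℝ → ℝ} {a b : ℝ} {x : ℝ → L1 (Xn H)} (h : CS ω N A A1 a b x)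
    (n : ℤ) : HE (ω * n) a b (fun t => (lft ω (x t) n).1.1) (fun t => (lft ω (x t) n).1.2.1)
        (fun t => (ls ω N (A t) (A1 t) (x t) n).1) ∧
      HE (ω * n) a b (fun t => (lft ω (x t) n).2.1) (fun t => (lft ω (x t) n).2.2.1)
        (fun t => (ls ω N (A t) (A1 t) (x t) n).2) := by
  refine ⟨h.eo n, ?_⟩
  obtain ⟨hd, hc⟩ := h.slip n
  have ce : ContinuousOn (fun t => ex (x t n).2.1 0) (Icc a b) := fun t ht =>
    (hd t ht).continuousWithinAt
  have hp := HE.prof (H := H) (k := ω * n) (eta_facts (ω * n)).1 (eta_facts (ω * n)).2.1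
    (eta_facts (ω * n)).2.2.1 (a := a) (b := b) (s := fun t => -ex (x t n).2.1 0)
    (s1 := fun t => -sg ω N (A t) (A1 t) (x t) n) ce.neg hc.neg (fun t ht => (hd t ht).neg)
  refine ((h.ei n).add hp).congr (fun t _ => ?_) (fun t _ => ?_) (fun t _ => ?_)
  · refine ci_ext fun z _ => ?_
    show ex ((x t n).2.1 - ex (x t n).2.1 0 • eta (ω * n)) z = _
    simp only [ex_sub, ex_add, ex_smul]
    ring
  · refine ci_ext fun z _ => ?_
    show ex ((x t n).2.2.1 - ex (x t n).2.1 0 • eta1 (ω * n)) z = _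
    simp only [ex_sub, ex_add, ex_smul]
    ring
  · refine ci_ext fun z _ => ?_
    show ex (si ω N (A t) (x t) n - sg ω N (A t) (A1 t) (x t) n • eta (ω * n) +
      ex (x t n).2.1 0 • etr (ω * n)) z = _
    simp only [ex_sub, ex_add, ex_smul]
    ring

private theorem exb_asm {k t a : ℝ} {S D : ℝ → (CI H →L[ℂ] CI H)} {F G : ℝ → CI H}
    {P Q Pa Qa P1 Q1 : CI H}
    (f1 : IntervalIntegrable (fun r => Real.exp (-(k ^ 2 * (t - r))) • S (t - r) (F r)) volume a t)
    (f2 : IntervalIntegrable (fun r => Real.exp (-(k ^ 2 * (t - r))) • D (t - r) (F r)) volume a t)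
    (f3 : P = Real.exp (-(k ^ 2 * (t - a))) • S (t - a) Pa +
      ∫ r in a..t, Real.exp (-(k ^ 2 * (t - r))) • S (t - r) (F r))
    (f4 : P1 = Real.exp (-(k ^ 2 * (t - a))) • D (t - a) Pa +
      ∫ r in a..t, Real.exp (-(k ^ 2 * (t - r))) • D (t - r) (F r))
    (g1 : IntervalIntegrable (fun r => Real.exp (-(k ^ 2 * (t - r))) • S (t - r) (G r)) volume a t)
    (g2 : IntervalIntegrable (fun r => Real.exp (-(k ^ 2 * (t - r))) • D (t - r) (G r)) volume a t)
    (g3 : Q = Real.exp (-(k ^ 2 * (t - a))) • S (t - a) Qa +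
      ∫ r in a..t, Real.exp (-(k ^ 2 * (t - r))) • S (t - r) (G r))
    (g4 : Q1 = Real.exp (-(k ^ 2 * (t - a))) • D (t - a) Qa +
      ∫ r in a..t, Real.exp (-(k ^ 2 * (t - r))) • D (t - r) (G r)) :
    IntervalIntegrable (fun r => Tn S D k (t - r) (F r, G r)) volume a t ∧
    (((P, P1, |k| • P), (Q, Q1, |k| • Q)) : Xn H) = Tn S D k (t - a) (Pa, Qa) +
      ∫ r in a..t, Tn S D k (t - r) (F r, G r) := by
  have key : ∀ (s : ℝ) (u v : CI H), Tn S D k s (u, v) =
      (((Real.exp (-(k ^ 2 * s)) • S s u, Real.exp (-(k ^ 2 * s)) • D s u,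
        |k| • (Real.exp (-(k ^ 2 * s)) • S s u)),
        (Real.exp (-(k ^ 2 * s)) • S s v, Real.exp (-(k ^ 2 * s)) • D s v,
        |k| • (Real.exp (-(k ^ 2 * s)) • S s v))) : Xn H) := by
    intro s u v
    have e : -k ^ 2 * s = -(k ^ 2 * s) := by ring
    simp only [Tn, e, Prod.smul_mk, smul_comm |k|]
  have hI : IntervalIntegrable (fun r => Tn S D k (t - r) (F r, G r)) volume a t := by
    simp only [key]
    exact ⟨(f1.1.prodMk (f2.1.prodMk (f1.smul |k|).1)).prodMk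
        (g1.1.prodMk (g2.1.prodMk (g1.smul |k|).1)),
      (f1.2.prodMk (f2.2.prodMk (f1.smul |k|).2)).prodMk
        (g1.2.prodMk (g2.2.prodMk (g1.smul |k|).2))⟩
  refine ⟨hI, ?_⟩
  have L : ∀ (T : Xn H →L[ℝ] CI H), T (∫ r in a..t, Tn S D k (t - r) (F r, G r)) =
      ∫ r in a..t, T (Tn S D k (t - r) (F r, G r)) := fun T =>
    (ContinuousLinearMap.intervalIntegral_comp_comm T hI).symm
  set p1 := ContinuousLinearMap.fst ℝ (CI H × CI H × CI H) (CI H × CI H × CI H)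
  set p2 := ContinuousLinearMap.snd ℝ (CI H × CI H × CI H) (CI H × CI H × CI H)
  set q1 := ContinuousLinearMap.fst ℝ (CI H) (CI H × CI H)
  set q2 := ContinuousLinearMap.snd ℝ (CI H) (CI H × CI H)
  set r1 := ContinuousLinearMap.fst ℝ (CI H) (CI H)
  set r2 := ContinuousLinearMap.snd ℝ (CI H) (CI H)
  have e1 := L (q1.comp p1)
  have e2 := L ((r1.comp q2).comp p1)
  have e3 := L ((r2.comp q2).comp p1)
  have e4 := L (q1.comp p2)
  have e5 := L ((r1.comp q2).comp p2)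
  have e6 := L ((r2.comp q2).comp p2)
  have hadd : ∀ (u v : CI H), |k| • (u + v) = |k| • u + |k| • v := fun u v => by
    refine ci_ext fun z _ => ?_
    simp only [ex_rsmul, ex_add]
    ring
  have hint : ∀ (K : ℝ → CI H), |k| • (∫ r in a..t, K r) = ∫ r in a..t, |k| • K r := fun K =>
    (intervalIntegral.integral_smul |k| K).symm
  refine Prod.ext (Prod.ext ?_ (Prod.ext ?_ ?_)) (Prod.ext ?_ (Prod.ext ?_ ?_))
  · show P = (Tn S D k (t - a) (Pa, Qa)).1.1 + (∫ r in a..t, Tn S D k (t - r) (F r, G r)).1.1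
    refine f3.trans ?_
    have := e1
    simp only [key] at this ⊢
    exact congrArg _ this.symm
  · show P1 = (Tn S D k (t - a) (Pa, Qa)).1.2.1 + (∫ r in a..t, Tn S D k (t - r) (F r, G r)).1.2.1
    refine f4.trans ?_
    have := e2
    simp only [key] at this ⊢
    exact congrArg _ this.symm
  · show |k| • P = (Tn S D k (t - a) (Pa, Qa)).1.2.2 +
      (∫ r in a..t, Tn S D k (t - r) (F r, G r)).1.2.2
    rw [f3, hadd, hint]
    have := e3
    simp only [key] at this ⊢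
    exact congrArg _ this.symm
  · show Q = (Tn S D k (t - a) (Pa, Qa)).2.1 + (∫ r in a..t, Tn S D k (t - r) (F r, G r)).2.1
    refine g3.trans ?_
    have := e4
    simp only [key] at this ⊢
    exact congrArg _ this.symm
  · show Q1 = (Tn S D k (t - a) (Pa, Qa)).2.2.1 + (∫ r in a..t, Tn S D k (t - r) (F r, G r)).2.2.1
    refine g4.trans ?_
    have := e5
    simp only [key] at this ⊢
    exact congrArg _ this.symm
  · show |k| • Q = (Tn S D k (t - a) (Pa, Qa)).2.2.2 +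
      (∫ r in a..t, Tn S D k (t - r) (F r, G r)).2.2.2
    rw [g3, hadd, hint]
    have := e6
    simp only [key] at this ⊢
    exact congrArg _ this.symm

/-- Mild formula of the lifted state, one mode. -/
theorem CS.lmild {S D B : ℝ → (CI H →L[ℂ] CI H)} (hS : DirSG H S D B) {ω : ℝ} {N : ℕ}
    {A A1 : ℝ → ℝ} {a b : ℝ} {x : ℝ → L1 (Xn H)} (h : CS ω N A A1 a b x) (n : ℤ) {t : ℝ}
    (ht : t ∈ Ioc a b) :
    IntervalIntegrable (fun r => Tn S D (ω * n) (t - r) (ls ω N (A r) (A1 r) (x r) n)) volume a t ∧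
    lft ω (x t) n = Tn S D (ω * n) (t - a) (jn (lft ω (x a) n)) +
      ∫ r in a..t, Tn S D (ω * n) (t - r) (ls ω N (A r) (A1 r) (x r) n) := by
  have hm : ∀ t ∈ Icc a b, Dmode (ω * n) (lft ω (x t) n) := fun t ht => (lft_dmode (h.cm t ht) n).1
  obtain ⟨f1, f2, f3, f4⟩ := HE.mild hS (h.lift n).1 (fun t ht => (hm t ht).z1)
    (fun t ht => (hm t ht).h1) ht
  obtain ⟨g1, g2, g3, g4⟩ := HE.mild hS (h.lift n).2 (fun t ht => (hm t ht).z2)
    (fun t ht => (hm t ht).h2) ht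
  have key := exb_asm f1 f2 f3 f4 g1 g2 g3 g4
  refine ⟨key.1, ?_⟩
  have e : lft ω (x t) n = (((lft ω (x t) n).1.1, (lft ω (x t) n).1.2.1, |ω * n| • (lft ω (x t) n).1.1),
      ((lft ω (x t) n).2.1, (lft ω (x t) n).2.2.1, |ω * n| • (lft ω (x t) n).2.1)) := by
    have e1 := (hm t ⟨ht.1.le, ht.2⟩).e1
    have e2 := (hm t ⟨ht.1.le, ht.2⟩).e2
    rw [← e1, ← e2]
  rw [e]
  exact key.2

end

end Pool.Agent.Lib.MP_79abb3_an.FW
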