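import Pool.Agent.Lib.MP_79abb3_an.FW.ExAa
import Pool.Agent.Lib.MP_79abb3_an.P25.BW

/-!
FW-52a: linear maps for the abstract form of the lifted system.
-/

set_option autoImplicit false
set_option linter.unusedSectionVars false
set_option linter.unusedVariables false

open MeasureTheory Set Filter Topology Function

namespace Pool.Agent.Lib.MP_79abb3_an.FW

open Pool.Agent.Lib.MP_79abb3_an.P25

-- speeds up the search for instances on `L1`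
attribute [-instance] PreLp.ring

section gen
variable {E F : Type} [NormedAddCommGroup E] [NormedSpace ℝ E] [NormedAddCommGroup F] [NormedSpace ℝ F]

private theorem xca_diag (f : ℤ → E → F) (ha : ∀ n x y, f n (x + y) = f n x + f n y)
    (hs : ∀ n (c : ℝ) x, f n (c • x) = c • f n x) {C : ℝ} (hC : ∀ n x, ‖f n x‖ ≤ C * ‖x‖) :
    ∃ A : L1 E →L[ℝ] L1 F, (∀ (x : L1 E) (n : ℤ), A x n = f n (x n)) ∧ ∀ x, ‖A x‖ ≤ C * ‖x‖ :=
  ⟨diagL (fun n => LinearMap.mkContinuous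
    { toFun := f n
      map_add' := ha n
      map_smul' := hs n } C (hC n)) C (fun n x => hC n x), fun _ _ => rfl,
    fun x => norm_diagL_le _ C _ x⟩

private theorem xca_l1 {E' F' : Type} [NormedAddCommGroup E'] [NormedSpace ℝ E']
    [NormedAddCommGroup F'] [NormedSpace ℝ F'] (x : L1 E') (y : L1 F') {C : ℝ}
    (h : ∀ n, ‖y n‖ ≤ C * ‖x n‖) : ‖y‖ ≤ C * ‖x‖ := by
  rw [l1_norm, l1_norm, ← tsum_mul_left]
  exact Summable.tsum_le_tsum h (l1_summable y) ((l1_summable x).mul_left C)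

private theorem xca_diag2 (f : ℤ → E → F) (ha : ∀ n x y, f n (x + y) = f n x + f n y)
    (hs : ∀ n (c : ℝ) x, f n (c • x) = c • f n x) {C C0 : ℝ} (h0 : C ≤ C0)
    (hC : ∀ n x, ‖f n x‖ ≤ C * ‖x‖) :
    ∃ A : L1 E →L[ℝ] L1 F, (∀ (x : L1 E) (n : ℤ), A x n = f n (x n)) ∧ ∀ x, ‖A x‖ ≤ C0 * ‖x‖ :=
  xca_diag f ha hs fun n x => (hC n x).trans (mul_le_mul_of_nonneg_right h0 (norm_nonneg x))

end gen

private theorem xca_rC {H a b : ℝ} (hH : 0 < H) (ha : 0 ≤ a) (hb : 0 ≤ b) :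
    ∃ C : ℝ, 1 ≤ C ∧ H + 3 ≤ C ∧ H ≤ C ∧ 2 * a + b ≤ C ∧ 2 + 2 / H ≤ C := by
  have hd : 0 ≤ 2 / H := by positivity
  exact ⟨(H + 3) + (2 * a + b) + (2 + 2 / H), by linarith, by linarith, by linarith, by linarith,
    by linarith⟩

private theorem xca_r0 {H c t : ℝ} (hH : 0 < H) (hc : 0 ≤ c) (ht : 0 ≤ t) : 0 ≤ (H + c) * t :=
  mul_nonneg (add_nonneg hH.le hc) ht

private theorem xca_r1 {H c t a b : ℝ} (hH : 0 < H) (hc : 0 ≤ c) (ht : 0 ≤ t) (h1 : a ≤ t)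
    (h2 : b ≤ H * a) : b ≤ (H + c) * t := by
  have h3 : H * a ≤ H * t := mul_le_mul_of_nonneg_left h1 hH.le
  have h4 : 0 ≤ c * t := mul_nonneg hc ht
  linarith

private theorem xca_r2 {H c e t b : ℝ} (hH : 0 < H) (hc : e ≤ c) (ht : 0 ≤ t) (h2 : b ≤ e * t) :
    b ≤ (H + c) * t := by
  have h3 : e * t ≤ c * t := mul_le_mul_of_nonneg_right hc ht
  have h4 : 0 ≤ H * t := mul_nonneg hH.le ht
  linarith

private theorem xca_r3 {H a b t : ℝ} (h1 : a ≤ t) (h2 : b ≤ (H + 2) * t) :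
    b + a ≤ (H + 3) * t := by
  linarith

private theorem xca_r4 {H s k a t : ℝ} (hH : 0 < H) (h1 : a ≤ t) (t0 : s ≤ H * a)
    (t1 : k * s ≤ a) : s * (k + 1 / H) ≤ 2 * t := by
  have b2 : s * (1 / H) ≤ a := by
    rw [mul_one_div, div_le_iff₀ hH]
    linarith
  linarith

private theorem xca_r5 {c s a : ℝ} (hc : c ≤ 1) (hs : 0 ≤ s) (h : a ≤ s * c) : a ≤ s :=
  h.trans (mul_le_of_le_one_right hs hc)

section
variable {H : ℝ} [hH : Fact (0 < H)]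

private theorem xca_n3 {a b c d e f : CI H} {C : ℝ} (h1 : ‖a‖ ≤ C) (h2 : ‖b‖ ≤ C) (h3 : ‖c‖ ≤ C)
    (h4 : ‖d‖ ≤ C) (h5 : ‖e‖ ≤ C) (h6 : ‖f‖ ≤ C) : ‖(((a, b, c), (d, e, f)) : Xn H)‖ ≤ C :=
  max_le (max_le h1 (max_le h2 h3)) (max_le h4 (max_le h5 h6))

private theorem xca_n2 {a b : CI H} {C : ℝ} (h1 : ‖a‖ ≤ C) (h2 : ‖b‖ ≤ C) :
    ‖((a, b) : Yn H)‖ ≤ C := max_le h1 h2

private theorem xca_b1 (x : Xn H) : ‖x.1.1‖ ≤ ‖x‖ := (norm_fst_le _).trans (norm_fst_le x)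
private theorem xca_b2 (x : Xn H) : ‖x.1.2.1‖ ≤ ‖x‖ :=
  (norm_fst_le _).trans ((norm_snd_le _).trans (norm_fst_le x))
private theorem xca_b3 (x : Xn H) : ‖x.1.2.2‖ ≤ ‖x‖ :=
  (norm_snd_le _).trans ((norm_snd_le _).trans (norm_fst_le x))
private theorem xca_b4 (x : Xn H) : ‖x.2.1‖ ≤ ‖x‖ := (norm_fst_le _).trans (norm_snd_le x)
private theorem xca_b5 (x : Xn H) : ‖x.2.2.1‖ ≤ ‖x‖ :=
  (norm_fst_le _).trans ((norm_snd_le _).trans (norm_snd_le x))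
private theorem xca_b6 (x : Xn H) : ‖x.2.2.2‖ ≤ ‖x‖ :=
  (norm_snd_le _).trans ((norm_snd_le _).trans (norm_snd_le x))

private theorem xca_csmul (c : ℂ) (f : CI H) : ‖c • f‖ ≤ ‖c‖ * ‖f‖ := norm_smul_le c f

private theorem xca_rsmul (c : ℝ) (f : CI H) : ‖|c| • f‖ = |c| * ‖f‖ := by
  rw [norm_smul, Real.norm_eq_abs, abs_abs]

/-- norms of the trace coefficient -/
private theorem xca_t0 (k : ℝ) (f : CI H) : ‖-ex (Top k f) 0‖ ≤ H * ‖f‖ := by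
  rw [norm_neg]
  exact (norm_ex_le _ _).trans (norm_Top_le k f)

private theorem xca_t1 (k : ℝ) (f : CI H) : |k| * ‖-ex (Top k f) 0‖ ≤ ‖f‖ := by
  rw [norm_neg]
  exact (mul_le_mul_of_nonneg_left (norm_ex_le _ _) (abs_nonneg k)).trans (norm_kTop_le k f)

/-- the velocity map -/
private noncomputable def xcaV (k : ℝ) (x : Xn H) : Xn H :=
  vx k (Top k x.1.1) (|k| • Top k x.1.1 - x.1.1) + ((0, 0, 0), x.2)

private theorem xcaV_add (k : ℝ) (x y : Xn H) : xcaV k (x + y) = xcaV k x + xcaV k y := by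
  refine Prod.ext (Prod.ext ?_ (Prod.ext ?_ ?_)) (Prod.ext ?_ (Prod.ext ?_ ?_)) <;>
    refine ci_ext fun z _ => ?_ <;>
    simp only [xcaV, vx, Prod.fst_add, Prod.snd_add, map_add, ex_add, ex_sub, ex_rsmul, ex_zero] <;>
    ring

private theorem xcaV_smul (k c : ℝ) (x : Xn H) : xcaV k (c • x) = c • xcaV k x := by
  refine Prod.ext (Prod.ext ?_ (Prod.ext ?_ ?_)) (Prod.ext ?_ (Prod.ext ?_ ?_)) <;>
    refine ci_ext fun z _ => ?_ <;>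
    simp only [xcaV, vx, Prod.fst_add, Prod.snd_add, Prod.smul_fst, Prod.smul_snd, Top_rsmul,
      ex_add, ex_sub, ex_rsmul, ex_zero] <;>
    ring

private theorem xcaV_norm (k : ℝ) (x : Xn H) : ‖xcaV k x‖ ≤ (H + 3) * ‖x‖ := by
  have hH0 := hH.out
  have h0 := norm_nonneg x
  have h1 := xca_b1 x
  have h3 : ‖|k| • Top k x.1.1‖ ≤ ‖x.1.1‖ := (xca_rsmul k _).trans_le (norm_kTop_le k _)
  have h4 : ‖|k| • Top k x.1.1 - x.1.1‖ ≤ 2 * ‖x‖ :=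
    (norm_sub_le _ _).trans ((add_le_add (h3.trans h1) h1).trans_eq (two_mul _).symm)
  have hz : ‖(0 : CI H)‖ ≤ (H + 2) * ‖x‖ := norm_zero.trans_le (xca_r0 hH0 zero_le_two h0)
  have h2 : ‖Top k x.1.1‖ ≤ (H + 2) * ‖x‖ := xca_r1 hH0 zero_le_two h0 h1 (norm_Top_le k x.1.1)
  have h5 : ‖(vx k (Top k x.1.1) (|k| • Top k x.1.1 - x.1.1) : Xn H)‖ ≤ (H + 2) * ‖x‖ :=
    xca_n3 hz hz hz h2 (xca_r2 hH0 le_rfl h0 h4)
      (xca_r2 hH0 one_le_two h0 ((h3.trans h1).trans_eq (one_mul _).symm))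
  have hz1 : ‖(0 : CI H)‖ ≤ ‖x‖ := norm_zero.trans_le h0
  have h6 : ‖(((0, 0, 0), x.2) : Xn H)‖ ≤ ‖x‖ :=
    max_le (max_le hz1 (max_le hz1 hz1)) (norm_snd_le x)
  exact (norm_add_le _ _).trans (xca_r3 h6 h5)

private theorem xcaV_jn (k : ℝ) (x : Xn H) : ‖jn (xcaV k x)‖ ≤ (H + 3) * ‖jn x‖ := by
  have hH0 := hH.out
  have h0 := norm_nonneg (jn x)
  have h1 : ‖x.1.1‖ ≤ ‖jn x‖ := norm_fst_le (jn x)
  have h1' : ‖x.2.1‖ ≤ ‖jn x‖ := norm_snd_le (jn x)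
  refine xca_n2 (a := (0 : CI H) + 0) (b := Top k x.1.1 + x.2.1) ?_ ?_
  · rw [add_zero, norm_zero]
    exact xca_r0 hH0 zero_le_three h0
  · exact (norm_add_le _ _).trans
      (xca_r3 h1' (xca_r1 hH0 zero_le_two h0 h1 (norm_Top_le k x.1.1)))

private noncomputable def xcaI (x : Xn H) : Xn H := ((0, 0, 0), x.2)

private theorem xcaI_add (x y : Xn H) : xcaI (x + y) = xcaI x + xcaI y := by
  refine Prod.ext (Prod.ext ?_ (Prod.ext ?_ ?_)) (Prod.ext ?_ (Prod.ext ?_ ?_)) <;>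
    refine ci_ext fun z _ => ?_ <;>
    simp only [xcaI, Prod.fst_add, Prod.snd_add, ex_add, ex_zero] <;>
    ring

private theorem xcaI_smul (c : ℝ) (x : Xn H) : xcaI (c • x) = c • xcaI x := by
  refine Prod.ext (Prod.ext ?_ (Prod.ext ?_ ?_)) (Prod.ext ?_ (Prod.ext ?_ ?_)) <;>
    refine ci_ext fun z _ => ?_ <;>
    simp only [xcaI, Prod.smul_fst, Prod.smul_snd, ex_rsmul, ex_zero] <;>
    ring

private theorem xcaI_norm (x : Xn H) : ‖xcaI x‖ ≤ 1 * ‖x‖ := by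
  rw [one_mul]
  have h0 := norm_nonneg x
  show ‖(((0, 0, 0), x.2) : Xn H)‖ ≤ ‖x‖
  refine max_le ?_ (norm_snd_le x)
  exact max_le (by rw [norm_zero]; exact h0) (max_le (by rw [norm_zero]; exact h0) (by rw [norm_zero]; exact h0))

private theorem xcaI_jn (x : Xn H) : ‖jn (xcaI x)‖ ≤ 1 * ‖jn x‖ := by
  rw [one_mul]
  refine xca_n2 (a := (0 : CI H)) (b := x.2.1) ?_ (norm_snd_le (jn x))
  rw [norm_zero]
  exact norm_nonneg _

private noncomputable def xcaL (k : ℝ) (x : Xn H) : Xn H :=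
  (x.1, (x.2.1 + (-ex (Top k x.1.1) 0) • eta k,
    x.2.2.1 + (-ex (Top k x.1.1) 0) • eta1 k,
    x.2.2.2 + |k| • ((-ex (Top k x.1.1) 0) • eta k)))

private theorem xcaL_add (k : ℝ) (x y : Xn H) : xcaL k (x + y) = xcaL k x + xcaL k y := by
  refine Prod.ext (Prod.ext ?_ (Prod.ext ?_ ?_)) (Prod.ext ?_ (Prod.ext ?_ ?_)) <;>
    refine ci_ext fun z _ => ?_ <;>
    simp only [xcaL, Prod.fst_add, Prod.snd_add, map_add, ex_add, ex_smul, ex_rsmul] <;>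
    ring

private theorem xcaL_smul (k c : ℝ) (x : Xn H) : xcaL k (c • x) = c • xcaL k x := by
  refine Prod.ext (Prod.ext ?_ (Prod.ext ?_ ?_)) (Prod.ext ?_ (Prod.ext ?_ ?_)) <;>
    refine ci_ext fun z _ => ?_ <;>
    simp only [xcaL, Prod.smul_fst, Prod.smul_snd, Top_rsmul, ex_add, ex_smul, ex_rsmul] <;>
    ring

private theorem xcaL_norm (k : ℝ) (x : Xn H) : ‖xcaL k x‖ ≤ (H + 3) * ‖x‖ := by
  have hH0 := hH.out
  obtain ⟨-, -, -, -, -, e1, e2, -, -, -, -⟩ := eta_facts (H := H) k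
  have h0 := norm_nonneg x
  have h1 := xca_b1 x
  have t0 := xca_t0 k x.1.1
  have t1 := xca_t1 k x.1.1
  obtain ⟨s, hs⟩ : ∃ s : ℂ, s = -ex (Top k x.1.1) 0 := ⟨_, rfl⟩
  have hx : xcaL k x = ((x.1.1, x.1.2.1, x.1.2.2), (x.2.1 + s • eta k, x.2.2.1 + s • eta1 k,
    x.2.2.2 + |k| • (s • eta k))) := by rw [hs]; rfl
  rw [← hs] at t0 t1
  rw [hx]
  clear hx hs
  have hs0 := norm_nonneg s
  have a1 : ‖s • (eta k : CI H)‖ ≤ ‖s‖ := xca_r5 e1 hs0 (xca_csmul s _)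
  have a2 : ‖s • (eta1 k : CI H)‖ ≤ 2 * ‖x‖ :=
    ((xca_csmul s _).trans (mul_le_mul_of_nonneg_left e2 hs0)).trans (xca_r4 hH0 h1 t0 t1)
  have a3 : ‖|k| • (s • (eta k : CI H))‖ ≤ 2 * ‖x‖ :=
    (xca_rsmul k _).trans_le (((mul_le_mul_of_nonneg_left a1 (abs_nonneg k)).trans
      (t1.trans h1)).trans (by linarith))
  have w : ∀ {a : ℝ}, a ≤ ‖x‖ → a ≤ (H + 3) * ‖x‖ := fun {a} ha =>
    xca_r2 hH0 (show (1 : ℝ) ≤ 3 by norm_num) h0 (ha.trans_eq (one_mul _).symm)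
  refine xca_n3 (w h1) (w (xca_b2 x)) (w (xca_b3 x)) ?_ ?_ ?_
  · rw [add_comm x.2.1]
    exact (norm_add_le _ _).trans
      (xca_r3 (xca_b4 x) (a1.trans (xca_r1 hH0 zero_le_two h0 h1 t0)))
  · rw [add_comm x.2.2.1]
    exact (norm_add_le _ _).trans (xca_r3 (xca_b5 x) (xca_r2 hH0 le_rfl h0 a2))
  · rw [add_comm x.2.2.2]
    exact (norm_add_le _ _).trans (xca_r3 (xca_b6 x) (xca_r2 hH0 le_rfl h0 a3))

private theorem xcaL_jn (k : ℝ) (x : Xn H) : ‖jn (xcaL k x)‖ ≤ (H + 3) * ‖jn x‖ := by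
  have hH0 := hH.out
  obtain ⟨-, -, -, -, -, e1, -, -, -, -, -⟩ := eta_facts (H := H) k
  have h0 := norm_nonneg (jn x)
  have h1 : ‖x.1.1‖ ≤ ‖jn x‖ := norm_fst_le (jn x)
  have h1' : ‖x.2.1‖ ≤ ‖jn x‖ := norm_snd_le (jn x)
  have t0 := xca_t0 k x.1.1
  refine xca_n2 (a := x.1.1) (b := x.2.1 + (-ex (Top k x.1.1) 0) • eta k) ?_ ?_
  · exact xca_r2 hH0 (show (1 : ℝ) ≤ 3 by norm_num) h0 (h1.trans_eq (one_mul _).symm)
  · rw [add_comm x.2.1]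
    have a1 : ‖(-ex (Top k x.1.1) 0) • (eta k : CI H)‖ ≤ ‖-ex (Top k x.1.1) 0‖ :=
      xca_r5 e1 (norm_nonneg _) (xca_csmul _ _)
    exact (norm_add_le _ _).trans
      (xca_r3 h1' (a1.trans (xca_r1 hH0 zero_le_two h0 h1 t0)))

private noncomputable def xcaE (k : ℝ) (y : Yn H) : Yn H := (0, ex (Top k y.1) 0 • eta k)

private theorem xcaE_add (k : ℝ) (x y : Yn H) : xcaE k (x + y) = xcaE k x + xcaE k y := by
  refine Prod.ext ?_ ?_ <;>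
    refine ci_ext fun z _ => ?_ <;>
    simp only [xcaE, Prod.fst_add, Prod.snd_add, map_add, ex_add, ex_smul, ex_zero] <;>
    ring

private theorem xcaE_smul (k c : ℝ) (x : Yn H) : xcaE k (c • x) = c • xcaE k x := by
  refine Prod.ext ?_ ?_ <;>
    refine ci_ext fun z _ => ?_ <;>
    simp only [xcaE, Prod.smul_fst, Prod.smul_snd, Top_rsmul, ex_smul, ex_rsmul, ex_zero] <;>
    ring

private theorem xcaE_norm (k : ℝ) (y : Yn H) : ‖xcaE k y‖ ≤ H * ‖y‖ := by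
  have hH0 := hH.out
  obtain ⟨-, -, -, -, -, e1, -, -, -, -, -⟩ := eta_facts (H := H) k
  have h1 := norm_fst_le y
  have h2 := norm_Top_le k y.1
  refine xca_n2 (a := (0 : CI H)) (b := ex (Top k y.1) 0 • eta k) ?_ ?_
  · rw [norm_zero]; exact mul_nonneg hH0.le (norm_nonneg y)
  · refine (xca_csmul _ _).trans ?_
    refine (mul_le_of_le_one_right (norm_nonneg _) e1).trans ?_
    refine (norm_ex_le _ _).trans (h2.trans ?_)
    exact mul_le_mul_of_nonneg_left h1 hH0.le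

private noncomputable def xcaT (m : ℝ) (x : Xn H) : Yn H := (tr m 1 x, -(kap m 1 * x.2.1))

private theorem xcaT_add (m : ℝ) (x y : Xn H) : xcaT m (x + y) = xcaT m x + xcaT m y := by
  refine Prod.ext ?_ ?_ <;>
    refine ci_ext fun z _ => ?_ <;>
    simp only [xcaT, tr, Prod.fst_add, Prod.snd_add, ex_add, ex_sub, ex_neg, ex_mul] <;>
    ring

private theorem xcaT_smul (m c : ℝ) (x : Xn H) : xcaT m (c • x) = c • xcaT m x := by
  refine Prod.ext ?_ ?_ <;>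
    refine ci_ext fun z _ => ?_ <;>
    simp only [xcaT, tr, Prod.smul_fst, Prod.smul_snd, ex_sub, ex_neg, ex_mul, ex_rsmul] <;>
    ring

private theorem xcaT_norm (m : ℝ) (x : Xn H) :
    ‖xcaT m x‖ ≤ (2 * ‖(kap m 1 : CI H)‖ + ‖(kap1 m 1 : CI H)‖) * ‖x‖ := by
  have k0 := norm_nonneg (kap m 1 : CI H)
  have k1 := norm_nonneg (kap1 m 1 : CI H)
  have h0 := norm_nonneg x
  have c3 := xca_b4 x
  have c4 := xca_b5 x
  have c5 := xca_b6 x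
  have d1 : ‖(kap m 1 : CI H) * x.2.2.2‖ ≤ ‖(kap m 1 : CI H)‖ * ‖x‖ :=
    (norm_mul_le _ _).trans (mul_le_mul_of_nonneg_left c5 k0)
  have d2 : ‖(kap1 m 1 : CI H) * x.2.1‖ ≤ ‖(kap1 m 1 : CI H)‖ * ‖x‖ :=
    (norm_mul_le _ _).trans (mul_le_mul_of_nonneg_left c3 k1)
  have d3 : ‖(kap m 1 : CI H) * x.2.2.1‖ ≤ ‖(kap m 1 : CI H)‖ * ‖x‖ :=
    (norm_mul_le _ _).trans (mul_le_mul_of_nonneg_left c4 k0)
  have d4 : ‖(kap m 1 : CI H) * x.2.1‖ ≤ ‖(kap m 1 : CI H)‖ * ‖x‖ :=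
    (norm_mul_le _ _).trans (mul_le_mul_of_nonneg_left c3 k0)
  have d5 := mul_nonneg k0 h0
  have d6 := mul_nonneg k1 h0
  refine xca_n2 (a := tr m 1 x) (b := -(kap m 1 * x.2.1)) ?_ ?_
  · unfold tr
    refine (norm_sub_le _ _).trans ?_
    have := norm_sub_le ((kap m 1 : CI H) * x.2.2.2) (kap1 m 1 * x.2.1)
    linarith
  · rw [norm_neg]
    linarith

private noncomputable def xcag (k : ℝ) : CI H :=
  rc (fun z => 2 / H * Real.exp (-|k| * z)) (by fun_prop)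

private theorem xcag_norm (k : ℝ) : ‖(xcag k : CI H)‖ ≤ 2 / H := by
  have hH0 := hH.out
  refine ExAa_norm _ _ _ (by positivity) fun z hz => ?_
  have h3 : Real.exp (-|k| * z) ≤ 1 := by
    rw [Real.exp_le_one_iff]
    linarith [abs_nonneg k, hz.1, mul_nonneg (abs_nonneg k) hz.1]
  rw [abs_of_nonneg (by positivity)]
  exact mul_le_of_le_one_right (by positivity) h3

private noncomputable def xcaM (k : ℝ) (x : Xn H) : Yn H :=
  (0, -(ex x.1.2.1 0 - ((Real.exp (-|k| * H) : ℝ) : ℂ) * ex x.1.2.1 H) • eta k +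
    ex x.2.2.2 0 • xcag k)

private theorem xcaM_add (k : ℝ) (x y : Xn H) : xcaM k (x + y) = xcaM k x + xcaM k y := by
  refine Prod.ext ?_ ?_ <;>
    refine ci_ext fun z _ => ?_ <;>
    simp only [xcaM, Prod.fst_add, Prod.snd_add, ex_add, ex_smul, ex_zero] <;>
    ring

private theorem xcaM_smul (k c : ℝ) (x : Xn H) : xcaM k (c • x) = c • xcaM k x := by
  refine Prod.ext ?_ ?_ <;>
    refine ci_ext fun z _ => ?_ <;>
    simp only [xcaM, Prod.smul_fst, Prod.smul_snd, ex_add, ex_smul, ex_rsmul, ex_zero] <;>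
    ring

private theorem xcaM_norm (k : ℝ) (x : Xn H) : ‖xcaM k x‖ ≤ (2 + 2 / H) * ‖x‖ := by
  have hH0 := hH.out
  obtain ⟨-, -, -, -, -, e1, -, -, -, -, -⟩ := eta_facts (H := H) k
  have h0 := norm_nonneg x
  have c1 := xca_b2 x
  have c5 := xca_b6 x
  have h2H : 0 ≤ 2 / H := by positivity
  refine xca_n2 (a := (0 : CI H)) (b := -(ex x.1.2.1 0 - ((Real.exp (-|k| * H) : ℝ) : ℂ) * ex x.1.2.1 H) • eta k +
    ex x.2.2.2 0 • xcag k) ?_ ?_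
  · rw [norm_zero]
    exact mul_nonneg (by linarith) h0
  · have he : Real.exp (-|k| * H) ≤ 1 := by
      rw [Real.exp_le_one_iff]
      linarith [abs_nonneg k, mul_nonneg (abs_nonneg k) hH0.le]
    have a1 : ‖ex x.1.2.1 0 - ((Real.exp (-|k| * H) : ℝ) : ℂ) * ex x.1.2.1 H‖ ≤ 2 * ‖x‖ := by
      refine (norm_sub_le _ _).trans ?_
      have b1 := norm_ex_le x.1.2.1 0
      have b2 : ‖((Real.exp (-|k| * H) : ℝ) : ℂ) * ex x.1.2.1 H‖ ≤ ‖x.1.2.1‖ := by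
        rw [norm_mul, Complex.norm_real, Real.norm_eq_abs, abs_of_pos (Real.exp_pos _)]
        exact (mul_le_of_le_one_left (norm_nonneg _) he).trans (norm_ex_le _ _)
      linarith
    have a2 : ‖-(ex x.1.2.1 0 - ((Real.exp (-|k| * H) : ℝ) : ℂ) * ex x.1.2.1 H) • (eta k : CI H)‖ ≤
        2 * ‖x‖ := by
      refine (xca_csmul _ _).trans ?_
      rw [norm_neg]
      exact (mul_le_of_le_one_right (norm_nonneg _) e1).trans a1
    have a3 : ‖ex x.2.2.2 0 • (xcag k : CI H)‖ ≤ ‖x‖ * (2 / H) := by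
      refine (xca_csmul _ _).trans ?_
      exact mul_le_mul ((norm_ex_le _ _).trans c5) (xcag_norm k) (norm_nonneg _) h0
    refine (norm_add_le _ _).trans ?_
    linarith

private theorem xcaM_eq (k : ℝ) (x : Xn H) (h : x.2.2.2 = |k| • x.2.1) :
    xcaM k x = (0, -(ex x.1.2.1 0 - ((Real.exp (-|k| * H) : ℝ) : ℂ) * ex x.1.2.1 H) • eta k +
      ex x.2.1 0 • etr k) := by
  refine Prod.ext rfl (ci_ext fun z hz => ?_)
  simp only [xcaM, xcag, etr, ex_add, ex_smul, ex_rc _ _ hz, h, ex_rsmul]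
  push_cast
  ring

private theorem xca_pu_zero {ω : ℝ} {N : ℕ} (a : ℝ) {n : ℤ} (h : sN N n = 0) :
    (pu ω N a n : Xn H) = 0 := by
  have e1 : (Complex.I * ((a / 2 * sN N n : ℝ) : ℂ)) = 0 := by rw [h]; simp
  have e2 : (Complex.I * ((a / 2 * sN N n * (ω * N) : ℝ) : ℂ)) = 0 := by rw [h]; simp
  unfold pu vx
  have z1 : (0 : ℂ) • (fexp (ω * N) : CI H) = 0 := ci_ext fun z _ => by
    rw [ex_smul, zero_mul, ex_zero]
  have z2 : |ω * n| • (0 : CI H) = 0 := ci_ext fun z _ => by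
    rw [ex_rsmul, ex_zero, mul_zero]
  rw [e1, e2, z1, z2]
  rfl

private theorem xca_fin {N : ℕ} (f : ℤ → Xn H) (hf : ∀ n, sN N n = 0 → f n = 0) :
    Summable fun n => ‖f n‖ := by
  refine summable_of_ne_finset_zero (s := {(N : ℤ), -(N : ℤ)}) fun n hn => ?_
  have h : sN N n = 0 := by
    simp only [Finset.mem_insert, Finset.mem_singleton, not_or] at hn
    unfold sN
    rw [if_neg hn.1, if_neg hn.2]
  rw [hf n h, norm_zero]

private theorem xca_diagJ (f : ℤ → Xn H → Xn H) (ha : ∀ n x y, f n (x + y) = f n x + f n y)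
    (hs : ∀ n (c : ℝ) x, f n (c • x) = c • f n x) {C C0 : ℝ} (h0 : C ≤ C0)
    (hC : ∀ n x, ‖f n x‖ ≤ C * ‖x‖) (hJ : ∀ n x, ‖jn (f n x)‖ ≤ C * ‖jn x‖) :
    ∃ A : L1 (Xn H) →L[ℝ] L1 (Xn H), (∀ (x : L1 (Xn H)) (n : ℤ), A x n = f n (x n)) ∧
      (∀ x, ‖A x‖ ≤ C0 * ‖x‖) ∧ ∀ x, ‖jL H (A x)‖ ≤ C0 * ‖jL H x‖ := by
  obtain ⟨A, hA, hA1⟩ := xca_diag2 f ha hs h0 hC
  refine ⟨A, hA, hA1, fun x => xca_l1 (jL H x) (jL H (A x)) fun n => ?_⟩
  rw [jL_apply, jL_apply, hA]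
  exact (hJ n _).trans (mul_le_mul_of_nonneg_right h0 (norm_nonneg _))

private noncomputable def xcaP1 (y : Yn H) : Yn H := (y.1, 0)

private noncomputable def xcaP2 (y : Yn H) : Yn H := (0, y.2)

private theorem xca_P {C : ℝ} (c1 : 1 ≤ C) :
    ∃ P1 P2 : L1 (Yn H) →L[ℝ] L1 (Yn H), (∀ (y : L1 (Yn H)) (n : ℤ), P1 y n = ((y n).1, 0) ∧
        P2 y n = (0, (y n).2)) ∧ ∀ y, ‖P1 y‖ ≤ C * ‖y‖ ∧ ‖P2 y‖ ≤ C * ‖y‖ := by
  obtain ⟨A, hA, hA1⟩ := xca_diag2 (fun _ : ℤ => xcaP1 (H := H))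
    (fun n x y => Prod.ext rfl (add_zero _).symm)
    (fun n c x => Prod.ext rfl (ci_ext fun z _ => by
      show (0:ℂ) = ex (c • (0 : CI H)) z
      rw [ex_rsmul, ex_zero, mul_zero])) c1
    (fun n y => by
      rw [one_mul]
      exact xca_n2 (norm_fst_le y) (by rw [norm_zero]; exact norm_nonneg _))
  obtain ⟨B, hB, hB1⟩ := xca_diag2 (fun _ : ℤ => xcaP2 (H := H))
    (fun n x y => Prod.ext (add_zero _).symm rfl)
    (fun n c x => Prod.ext (ci_ext fun z _ => by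
      show (0:ℂ) = ex (c • (0 : CI H)) z
      rw [ex_rsmul, ex_zero, mul_zero]) rfl) c1
    (fun n y => by
      rw [one_mul]
      exact xca_n2 (by rw [norm_zero]; exact norm_nonneg _) (norm_snd_le y))
  exact ⟨A, B, fun y n => ⟨hA y n, hB y n⟩, fun y => ⟨hA1 y, hB1 y⟩⟩

/-- The linear maps. -/
theorem ex_maps {ω : ℝ} (hω : 0 < ω) {N : ℕ} (hN : 1 ≤ N) : ∃ C, 1 ≤ C ∧
    (∃ vL : L1 (Xn H) →L[ℝ] L1 (Xn H), (∀ x n, vL x n = ov ω x n + iv x n) ∧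
      (∀ x, ‖vL x‖ ≤ C * ‖x‖) ∧ ∀ x, ‖jL H (vL x)‖ ≤ C * ‖jL H x‖) ∧
    (∃ iL : L1 (Xn H) →L[ℝ] L1 (Xn H), (∀ x n, iL x n = iv x n) ∧
      (∀ x, ‖iL x‖ ≤ C * ‖x‖) ∧ ∀ x, ‖jL H (iL x)‖ ≤ C * ‖jL H x‖) ∧
    (∃ L : L1 (Xn H) →L[ℝ] L1 (Xn H), (∀ (x : L1 (Xn H)) (n : ℤ), L x n =
        ((x n).1, ((x n).2.1 + (-ex (Top (ω * n) (x n).1.1) 0) • eta (ω * n),
          (x n).2.2.1 + (-ex (Top (ω * n) (x n).1.1) 0) • eta1 (ω * n),
          (x n).2.2.2 + |ω * n| • ((-ex (Top (ω * n) (x n).1.1) 0) • eta (ω * n))))) ∧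
      (∀ x, ‖L x‖ ≤ C * ‖x‖) ∧ ∀ x, ‖jL H (L x)‖ ≤ C * ‖jL H x‖) ∧
    (∃ E3 : L1 (Yn H) →L[ℝ] L1 (Yn H), (∀ (y : L1 (Yn H)) (n : ℤ), E3 y n =
        (0, ex (Top (ω * n) (y n).1) 0 • eta (ω * n))) ∧ ∀ y, ‖E3 y‖ ≤ C * ‖y‖) ∧
    (∃ P1 P2 : L1 (Yn H) →L[ℝ] L1 (Yn H), (∀ (y : L1 (Yn H)) (n : ℤ), P1 y n = ((y n).1, 0) ∧
        P2 y n = (0, (y n).2)) ∧ ∀ y, ‖P1 y‖ ≤ C * ‖y‖ ∧ ‖P2 y‖ ≤ C * ‖y‖) ∧
    (∃ TR : L1 (Xn H) →L[ℝ] L1 (Yn H), (∀ (x : L1 (Xn H)) (n : ℤ), TR x n =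
        (tr (ω * N) 1 (x n), -(kap (ω * N) 1 * (x n).2.1))) ∧ ∀ x, ‖TR x‖ ≤ C * ‖x‖) ∧
    (∃ L2 : L1 (Xn H) →L[ℝ] L1 (Yn H), (∀ (x : L1 (Xn H)), ∀ n : ℤ,
        (x n).2.2.2 = |ω * n| • (x n).2.1 → L2 x n =
        (0, -(ex (x n).1.2.1 0 - ((Real.exp (-|ω * n| * H) : ℝ) : ℂ) * ex (x n).1.2.1 H) • eta (ω * n) +
          ex (x n).2.1 0 • etr (ω * n))) ∧ ∀ x, ‖L2 x‖ ≤ C * ‖x‖) ∧
    (∃ e p : L1 (Xn H), (∀ n : ℤ, p n = pu ω N 1 n) ∧ (∀ n : ℤ, e n =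
        ((0, 0, 0), ((-ex (pu ω N 1 n : Xn H).2.1 0) • eta (ω * n),
          (-ex (pu ω N 1 n : Xn H).2.1 0) • eta1 (ω * n),
          |ω * n| • ((-ex (pu ω N 1 n : Xn H).2.1 0) • eta (ω * n)))))) := by
  have hH0 := hH.out
  have k0 := norm_nonneg (kap (ω * N) 1 : CI H)
  have k1 := norm_nonneg (kap1 (ω * N) 1 : CI H)
  obtain ⟨C, c1, cV, cH, cT, cM⟩ := xca_rC hH0 k0 k1
  refine ⟨C, c1, ?_, ?_, ?_, ?_, ?_, ?_, ?_, ?_⟩
  · exact xca_diagJ (fun n : ℤ => xcaV (H := H) (ω * n)) (fun n => xcaV_add _)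
      (fun n => xcaV_smul _) cV (fun n => xcaV_norm _) (fun n => xcaV_jn _)
  · exact xca_diagJ (fun _ : ℤ => xcaI (H := H)) (fun n => xcaI_add)
      (fun n => xcaI_smul) c1 (fun n => xcaI_norm) (fun n => xcaI_jn)
  · exact xca_diagJ (fun n : ℤ => xcaL (H := H) (ω * n)) (fun n => xcaL_add _)
      (fun n => xcaL_smul _) cV (fun n => xcaL_norm _) (fun n => xcaL_jn _)
  · exact xca_diag2 (fun n : ℤ => xcaE (H := H) (ω * n)) (fun n => xcaE_add _)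
      (fun n => xcaE_smul _) cH (fun n => xcaE_norm _)
  · exact xca_P c1
  · exact xca_diag2 (fun _ : ℤ => xcaT (H := H) (ω * N)) (fun n => xcaT_add _)
      (fun n => xcaT_smul _) cT (fun n => xcaT_norm _)
  · obtain ⟨A, hA, hA1⟩ := xca_diag2 (fun n : ℤ => xcaM (H := H) (ω * n)) (fun n => xcaM_add _)
      (fun n => xcaM_smul _) cM (fun n => xcaM_norm _)
    exact ⟨A, fun x n h => (hA x n).trans (xcaM_eq _ _ h), hA1⟩
  · refine ⟨mkL1 (fun n : ℤ => (((0, 0, 0), ((-ex (pu ω N 1 n : Xn H).2.1 0) • eta (ω * n),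
          (-ex (pu ω N 1 n : Xn H).2.1 0) • eta1 (ω * n),
          |ω * n| • ((-ex (pu ω N 1 n : Xn H).2.1 0) • eta (ω * n)))) : Xn H))
          (xca_fin (N := N) _ fun n hn => ?_),
        mkL1 (fun n : ℤ => (pu ω N 1 n : Xn H)) (xca_fin (N := N) _ fun n hn => xca_pu_zero 1 hn),
        fun n => rfl, fun n => rfl⟩
    have h0 : (pu ω N 1 n : Xn H) = 0 := xca_pu_zero 1 hn
    have h1 : ex (pu ω N 1 n : Xn H).2.1 0 = 0 := by rw [h0]; rfl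
    refine Prod.ext rfl (Prod.ext ?_ (Prod.ext ?_ ?_)) <;>
      refine ci_ext fun z _ => ?_ <;>
      simp only [h1, ex_smul, ex_rsmul, neg_zero, zero_mul, mul_zero] <;> rfl

end

end Pool.Agent.Lib.MP_79abb3_an.FW
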