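import Pool.Agent.Lib.MP_79abb3_an.FW.ExB
import Pool.Agent.Lib.MP_79abb3_an.FW.ExCa
import Pool.Agent.Lib.MP_79abb3_an.P25.LEPT

/-!
FW-52b: the lifted system as an abstract equation.
-/

set_option autoImplicit false
set_option linter.unusedSectionVars false

open MeasureTheory Set Filter Topology Function

namespace Pool.Agent.Lib.MP_79abb3_an.FW

open Pool.Agent.Lib.MP_79abb3_an.P25

/-- The abstract form of a lifted system. -/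
private theorem exc_abs {X Y : Type} [NormedAddCommGroup X] [NormedSpace ℝ X] [NormedAddCommGroup Y]
    [NormedSpace ℝ Y] {j : X →L[ℝ] Y} {B0 : X →L[ℝ] X →L[ℝ] Y} {C0 c : ℝ} (hC0 : 1 ≤ C0)
    (hc : 1 ≤ c) (hB0 : BilB j B0 C0) {vL iL L : X →L[ℝ] X} {E3 P1 P2 : Y →L[ℝ] Y}
    (TR L2 : X →L[ℝ] Y) (e p : X) (e' : Y)
    (vb : ∀ x, ‖vL x‖ ≤ c * ‖x‖) (vj : ∀ x, ‖j (vL x)‖ ≤ c * ‖j x‖)
    (ib : ∀ x, ‖iL x‖ ≤ c * ‖x‖) (ij : ∀ x, ‖j (iL x)‖ ≤ c * ‖j x‖)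
    (Lb : ∀ x, ‖L x‖ ≤ c * ‖x‖) (Lj : ∀ x, ‖j (L x)‖ ≤ c * ‖j x‖)
    (E3b : ∀ y, ‖E3 y‖ ≤ c * ‖y‖) (P1b : ∀ y, ‖P1 y‖ ≤ c * ‖y‖) (P2b : ∀ y, ‖P2 y‖ ≤ c * ‖y‖) :
    ∃ C, 1 ≤ C ∧ ∃ (B : X →L[ℝ] X →L[ℝ] Y) (Λ : ℝ → (X →L[ℝ] Y)) (F : ℝ → ℝ → Y),
      BilB j B C ∧ (∀ x, Continuous fun a => Λ a x) ∧ Continuous (fun p : ℝ × ℝ => F p.1 p.2) ∧
      (∀ a x, ‖Λ a x‖ ≤ C * (1 + |a|) ^ 4 * ‖x‖) ∧
      (∀ a a1, ‖F a a1‖ ≤ C * (1 + |a|) ^ 4 * (1 + |a1|)) ∧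
      ∀ a a1 z x v, x = L z + a • e → v = vL x + a • p →
        Λ a z + B z z + F a a1 = (P1 (B0 v x) + E3 (P1 (B0 v x))) + P2 (B0 (iL x) v) +
          a ^ 2 • (P1 (TR x) + E3 (P1 (TR x)) + P2 (TR x)) + L2 x + a1 • e' := by
  obtain ⟨Q, hQ⟩ : ∃ Q : Y →L[ℝ] Y, ∀ y, Q y = P1 y + E3 (P1 y) := ⟨P1 + E3.comp P1, fun y => rfl⟩
  obtain ⟨B, hB⟩ : ∃ B : X →L[ℝ] X →L[ℝ] Y, ∀ x y, B x y =
      Q (B0 (vL (L x)) (L y)) + P2 (B0 (iL (L y)) (vL (L x))) :=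
    ⟨((ContinuousLinearMap.compL ℝ X Y Y Q).comp B0).bilinearComp (vL.comp L) L +
      ((ContinuousLinearMap.compL ℝ X Y Y P2).comp B0.flip).bilinearComp (vL.comp L) (iL.comp L),
      fun x y => rfl⟩
  obtain ⟨q, hq⟩ : ∃ q : X, q = vL e + p := ⟨_, rfl⟩
  obtain ⟨K, hK⟩ : ∃ K : X →L[ℝ] Y, ∀ x, K x = Q (TR x) + P2 (TR x) :=
    ⟨Q.comp TR + P2.comp TR, fun x => rfl⟩
  obtain ⟨M1, hM1⟩ : ∃ M : X →L[ℝ] Y, ∀ x, M x =
      (Q (B0 (vL (L x)) e) + P2 (B0 (iL e) (vL (L x)))) +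
      (Q (B0 q (L x)) + P2 (B0 (iL (L x)) q)) :=
    ⟨(Q.comp (B0.flip e) + P2.comp (B0 (iL e))).comp (vL.comp L) +
      ((Q.comp (B0 q)).comp L + (P2.comp (B0.flip q)).comp (iL.comp L)), fun x => rfl⟩
  obtain ⟨f1, hf1⟩ : ∃ f : Y, f = Q (B0 q e) + P2 (B0 (iL e) q) := ⟨_, rfl⟩
  have hc0 : 0 ≤ c := by linarith
  have hC00 : 0 ≤ C0 := by linarith
  obtain ⟨C1, hC1⟩ : ∃ C1, C1 = C0 * ((1 + c) * c ^ 4 + c ^ 5) := ⟨_, rfl⟩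
  have hC11 : 1 ≤ C1 := by
    have h1 : 1 ≤ c ^ 5 := one_le_pow₀ hc
    have h2 : 0 ≤ (1 + c) * c ^ 4 := by positivity
    rw [hC1]
    nlinarith
  refine ⟨C1 + ‖M1‖ + ‖K.comp L‖ + ‖L2.comp L‖ + ‖f1‖ + ‖K e‖ + ‖L2 e‖ + ‖e'‖, ?_, B,
    fun a => a • M1 + a ^ 2 • (K.comp L) + L2.comp L,
    fun a a1 => a ^ 2 • f1 + a ^ 3 • K e + a • L2 e + a1 • e', ?_, ?_, ?_, ?_, ?_, ?_⟩
  · have := norm_nonneg M1
    have := norm_nonneg (K.comp L)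
    have := norm_nonneg (L2.comp L)
    have := norm_nonneg f1
    have := norm_nonneg (K e)
    have := norm_nonneg (L2 e)
    have := norm_nonneg e'
    linarith
  · intro x y
    have hx := norm_nonneg x
    have hy := norm_nonneg y
    have hjx := norm_nonneg (j x)
    have hjy := norm_nonneg (j y)
    have a1 : ‖vL (L x)‖ ≤ c ^ 2 * ‖x‖ := by
      have h1 := vb (L x)
      have h2 := mul_le_mul_of_nonneg_left (Lb x) hc0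
      nlinarith
    have a2 : ‖j (vL (L x))‖ ≤ c ^ 2 * ‖j x‖ := by
      have h1 := vj (L x)
      have h2 := mul_le_mul_of_nonneg_left (Lj x) hc0
      nlinarith
    have a3 : ‖iL (L y)‖ ≤ c ^ 2 * ‖y‖ := by
      have h1 := ib (L y)
      have h2 := mul_le_mul_of_nonneg_left (Lb y) hc0
      nlinarith
    have a4 : ‖j (iL (L y))‖ ≤ c ^ 2 * ‖j y‖ := by
      have h1 := ij (L y)
      have h2 := mul_le_mul_of_nonneg_left (Lj y) hc0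
      nlinarith
    have b1 : ‖B0 (vL (L x)) (L y)‖ ≤ C0 * (c ^ 3 * (‖j x‖ * ‖y‖ + ‖x‖ * ‖j y‖)) := by
      refine (hB0 _ _).trans (mul_le_mul_of_nonneg_left ?_ hC00)
      have h1 : ‖j (vL (L x))‖ * ‖L y‖ ≤ (c ^ 2 * ‖j x‖) * (c * ‖y‖) :=
        mul_le_mul a2 (Lb y) (norm_nonneg _) (by positivity)
      have h2 : ‖vL (L x)‖ * ‖j (L y)‖ ≤ (c ^ 2 * ‖x‖) * (c * ‖j y‖) :=
        mul_le_mul a1 (Lj y) (norm_nonneg _) (by positivity)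
      calc _ ≤ (c ^ 2 * ‖j x‖) * (c * ‖y‖) + (c ^ 2 * ‖x‖) * (c * ‖j y‖) := add_le_add h1 h2
        _ = _ := by ring
    have b2 : ‖B0 (iL (L y)) (vL (L x))‖ ≤ C0 * (c ^ 4 * (‖j x‖ * ‖y‖ + ‖x‖ * ‖j y‖)) := by
      refine (hB0 _ _).trans (mul_le_mul_of_nonneg_left ?_ hC00)
      have h1 : ‖j (iL (L y))‖ * ‖vL (L x)‖ ≤ (c ^ 2 * ‖j y‖) * (c ^ 2 * ‖x‖) :=
        mul_le_mul a4 a1 (norm_nonneg _) (by positivity)
      have h2 : ‖iL (L y)‖ * ‖j (vL (L x))‖ ≤ (c ^ 2 * ‖y‖) * (c ^ 2 * ‖j x‖) :=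
        mul_le_mul a3 a2 (norm_nonneg _) (by positivity)
      calc _ ≤ (c ^ 2 * ‖j y‖) * (c ^ 2 * ‖x‖) + (c ^ 2 * ‖y‖) * (c ^ 2 * ‖j x‖) := add_le_add h1 h2
        _ = _ := by ring
    have b3 : ∀ y, ‖Q y‖ ≤ (1 + c) * c * ‖y‖ := by
      intro y
      rw [hQ]
      have h1 := P1b y
      have h2 := E3b (P1 y)
      have h3 := mul_le_mul_of_nonneg_left h1 hc0
      calc ‖P1 y + E3 (P1 y)‖ ≤ ‖P1 y‖ + ‖E3 (P1 y)‖ := norm_add_le _ _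
        _ ≤ c * ‖y‖ + c * (c * ‖y‖) := add_le_add h1 (h2.trans h3)
        _ = _ := by ring
    obtain ⟨S, hS⟩ : ∃ S, S = ‖j x‖ * ‖y‖ + ‖x‖ * ‖j y‖ := ⟨_, rfl⟩
    have hS0 : 0 ≤ S := by rw [hS]; positivity
    rw [← hS] at b1 b2 ⊢
    have h4 : ‖B x y‖ ≤ C1 * S := by
      rw [hB]
      calc ‖Q (B0 (vL (L x)) (L y)) + P2 (B0 (iL (L y)) (vL (L x)))‖
          ≤ ‖Q (B0 (vL (L x)) (L y))‖ + ‖P2 (B0 (iL (L y)) (vL (L x)))‖ := norm_add_le _ _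
        _ ≤ (1 + c) * c * ‖B0 (vL (L x)) (L y)‖ + c * ‖B0 (iL (L y)) (vL (L x))‖ :=
            add_le_add (b3 _) (P2b _)
        _ ≤ (1 + c) * c * (C0 * (c ^ 3 * S)) + c * (C0 * (c ^ 4 * S)) := by gcongr
        _ = C1 * S := by rw [hC1]; ring
    refine h4.trans (mul_le_mul_of_nonneg_right ?_ hS0)
    have := norm_nonneg M1
    have := norm_nonneg (K.comp L)
    have := norm_nonneg (L2.comp L)
    have := norm_nonneg f1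
    have := norm_nonneg (K e)
    have := norm_nonneg (L2 e)
    have := norm_nonneg e'
    linarith
  · intro x
    show Continuous fun a : ℝ => a • M1 x + a ^ 2 • (K.comp L) x + (L2.comp L) x
    fun_prop
  · show Continuous fun p : ℝ × ℝ => p.1 ^ 2 • f1 + p.1 ^ 3 • K e + p.1 • L2 e + p.2 • e'
    fun_prop
  · intro a x
    have hx := norm_nonneg x
    show ‖a • M1 x + a ^ 2 • (K.comp L) x + (L2.comp L) x‖ ≤ _
    have h1 := M1.le_opNorm x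
    have h2 := (K.comp L).le_opNorm x
    have h3 := (L2.comp L).le_opNorm x
    have hA : 0 ≤ |a| := abs_nonneg a
    have n1 := norm_nonneg M1
    have n2 := norm_nonneg (K.comp L)
    have n3 := norm_nonneg (L2.comp L)
    have n4 := norm_nonneg f1
    have n5 := norm_nonneg (K e)
    have n6 := norm_nonneg (L2 e)
    have n7 := norm_nonneg e'
    have p1 : |a| ≤ (1 + |a|) ^ 4 := by nlinarith [pow_nonneg hA 2, pow_nonneg hA 3, pow_nonneg hA 4]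
    have p2 : |a| ^ 2 ≤ (1 + |a|) ^ 4 := by nlinarith [pow_nonneg hA 2, pow_nonneg hA 3, pow_nonneg hA 4]
    have p3 : 1 ≤ (1 + |a|) ^ 4 := one_le_pow₀ (by linarith)
    calc ‖a • M1 x + a ^ 2 • (K.comp L) x + (L2.comp L) x‖
        ≤ ‖a • M1 x‖ + ‖a ^ 2 • (K.comp L) x‖ + ‖(L2.comp L) x‖ := norm_add₃_le
      _ = |a| * ‖M1 x‖ + |a| ^ 2 * ‖(K.comp L) x‖ + 1 * ‖(L2.comp L) x‖ := by
          rw [norm_smul, norm_smul, norm_pow, Real.norm_eq_abs, one_mul]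
      _ ≤ (1 + |a|) ^ 4 * (‖M1‖ * ‖x‖) + (1 + |a|) ^ 4 * (‖K.comp L‖ * ‖x‖) +
          (1 + |a|) ^ 4 * (‖L2.comp L‖ * ‖x‖) :=
          add_le_add (add_le_add (mul_le_mul p1 h1 (norm_nonneg _) (by positivity))
            (mul_le_mul p2 h2 (norm_nonneg _) (by positivity)))
            (mul_le_mul p3 h3 (norm_nonneg _) (by positivity))
      _ = (‖M1‖ + ‖K.comp L‖ + ‖L2.comp L‖) * (1 + |a|) ^ 4 * ‖x‖ := by ring
      _ ≤ _ := mul_le_mul_of_nonneg_right (mul_le_mul_of_nonneg_right (by linarith) (by positivity)) hx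
  · intro a a1
    show ‖a ^ 2 • f1 + a ^ 3 • K e + a • L2 e + a1 • e'‖ ≤ _
    have hA : 0 ≤ |a| := abs_nonneg a
    have hA1 : 0 ≤ |a1| := abs_nonneg a1
    have n1 := norm_nonneg M1
    have n2 := norm_nonneg (K.comp L)
    have n3 := norm_nonneg (L2.comp L)
    have n4 := norm_nonneg f1
    have n5 := norm_nonneg (K e)
    have n6 := norm_nonneg (L2 e)
    have n7 := norm_nonneg e'
    have q0 : 1 ≤ (1 + |a|) ^ 4 := one_le_pow₀ (by linarith)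
    have q1 : |a| ≤ (1 + |a|) ^ 4 * (1 + |a1|) := by
      have : |a| ≤ (1 + |a|) ^ 4 := by nlinarith [pow_nonneg hA 2, pow_nonneg hA 3, pow_nonneg hA 4]
      nlinarith
    have q2 : |a| ^ 2 ≤ (1 + |a|) ^ 4 * (1 + |a1|) := by
      have : |a| ^ 2 ≤ (1 + |a|) ^ 4 := by nlinarith [pow_nonneg hA 2, pow_nonneg hA 3, pow_nonneg hA 4]
      nlinarith
    have q3 : |a| ^ 3 ≤ (1 + |a|) ^ 4 * (1 + |a1|) := by
      have : |a| ^ 3 ≤ (1 + |a|) ^ 4 := by nlinarith [pow_nonneg hA 2, pow_nonneg hA 3, pow_nonneg hA 4]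
      nlinarith
    have q4 : |a1| ≤ (1 + |a|) ^ 4 * (1 + |a1|) := by nlinarith
    calc ‖a ^ 2 • f1 + a ^ 3 • K e + a • L2 e + a1 • e'‖
        ≤ ‖a ^ 2 • f1 + a ^ 3 • K e + a • L2 e‖ + ‖a1 • e'‖ := norm_add_le _ _
      _ ≤ (‖a ^ 2 • f1‖ + ‖a ^ 3 • K e‖ + ‖a • L2 e‖) + ‖a1 • e'‖ := by gcongr; exact norm_add₃_le
      _ = (|a| ^ 2 * ‖f1‖ + |a| ^ 3 * ‖K e‖ + |a| * ‖L2 e‖) + |a1| * ‖e'‖ := by
          rw [norm_smul, norm_smul, norm_smul, norm_smul, norm_pow, norm_pow, Real.norm_eq_abs,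
            Real.norm_eq_abs]
      _ ≤ (((1 + |a|) ^ 4 * (1 + |a1|)) * ‖f1‖ + ((1 + |a|) ^ 4 * (1 + |a1|)) * ‖K e‖ +
          ((1 + |a|) ^ 4 * (1 + |a1|)) * ‖L2 e‖) + ((1 + |a|) ^ 4 * (1 + |a1|)) * ‖e'‖ := by gcongr
      _ = (‖f1‖ + ‖K e‖ + ‖L2 e‖ + ‖e'‖) * (1 + |a|) ^ 4 * (1 + |a1|) := by ring
      _ ≤ _ := by gcongr; linarith
  · intro a a1 z x v hx hv
    have hv' : v = vL (L z) + a • q := by
      rw [hv, hx, hq, map_add, map_smul, smul_add, add_assoc]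
    show a • M1 z + a ^ 2 • K (L z) + L2 (L z) + B z z + (a ^ 2 • f1 + a ^ 3 • K e + a • L2 e + a1 • e') = _
    rw [← hQ, ← hQ, ← hK, hM1, hB, hf1, hv', hx]
    simp only [map_add, map_smul, add_apply, smul_apply, smul_add, smul_smul]
    module

section
variable {H : ℝ} [hH : Fact (0 < H)]

private theorem exc_sN {N : ℕ} {n : ℤ} (hn : n ∉ ({(N : ℤ), -(N : ℤ)} : Finset ℤ)) : sN N n = 0 := by
  rw [Finset.mem_insert, Finset.mem_singleton, not_or] at hn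
  unfold sN
  rw [if_neg hn.1, if_neg hn.2]

private theorem exc_e (ω : ℝ) (N : ℕ) : ∃ e' : L1 (Yn H), ∀ n : ℤ,
    e' n = (0, ex (pu ω N 1 n : Xn H).2.1 0 • eta (ω * n)) := by
  refine ⟨mkL1 (fun n : ℤ => ((0, ex (pu ω N 1 n : Xn H).2.1 0 • eta (ω * n)) : Yn H)) ?_,
    fun n => rfl⟩
  refine summable_of_ne_finset_zero (s := {(N : ℤ), -(N : ℤ)}) fun n hn => ?_
  have h := exc_sN hn
  have h1 : ex (pu ω N 1 n : Xn H).2.1 0 = 0 := by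
    show ex ((Complex.I * ((1 / 2 * sN N n : ℝ) : ℂ)) • (fexp (ω * N) : CI H)) 0 = 0
    rw [ex_smul, h]
    simp
  have h2 : ((0, ex (pu ω N 1 n : Xn H).2.1 0 • eta (ω * n)) : Yn H) = 0 := by
    refine Prod.ext rfl (ci_ext fun z _ => ?_)
    show ex (ex (pu ω N 1 n : Xn H).2.1 0 • eta (ω * n) : CI H) z = 0
    rw [h1, ex_smul, zero_mul]
  rw [h2, norm_zero]

private theorem exc_tr (m a : ℝ) (x : Xn H) : tr m a x = ((a ^ 2 : ℝ) : ℂ) • tr m 1 x := by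
  refine ci_ext fun z hz => ?_
  simp only [tr, kap, kap1, ex_sub, ex_mul, ex_smul, ex_rc _ _ hz]
  push_cast
  ring

private theorem exc_kap (m a : ℝ) (f : CI H) : kap m a * f = ((a ^ 2 : ℝ) : ℂ) • (kap m 1 * f) := by
  refine ci_ext fun z hz => ?_
  simp only [kap, ex_mul, ex_smul, ex_rc _ _ hz]
  push_cast
  ring

private theorem exc_pu (ω : ℝ) (N : ℕ) (a : ℝ) (n : ℤ) :
    (pu ω N a n : Xn H) = a • (pu ω N 1 n : Xn H) := by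
  refine Prod.ext (Prod.ext ?_ (Prod.ext ?_ ?_)) (Prod.ext ?_ (Prod.ext ?_ ?_)) <;>
    refine ci_ext fun z hz => ?_
  · show (0:ℂ) = a * 0
    ring
  · show (0:ℂ) = a * 0
    ring
  · show (0:ℂ) = a * 0
    ring
  · show (Complex.I * ((a / 2 * sN N n : ℝ) : ℂ)) * ex (fexp (ω * N) : CI H) z =
      (a : ℂ) * ((Complex.I * ((1 / 2 * sN N n : ℝ) : ℂ)) * ex (fexp (ω * N) : CI H) z)
    push_cast
    ring
  · show (Complex.I * ((a / 2 * sN N n * (ω * N) : ℝ) : ℂ)) * ex (fexp (ω * N) : CI H) z =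
      (a : ℂ) * ((Complex.I * ((1 / 2 * sN N n * (ω * N) : ℝ) : ℂ)) * ex (fexp (ω * N) : CI H) z)
    push_cast
    ring
  · show ((|ω * n| : ℝ) : ℂ) * ((Complex.I * ((a / 2 * sN N n : ℝ) : ℂ)) * ex (fexp (ω * N) : CI H) z) =
      (a : ℂ) * (((|ω * n| : ℝ) : ℂ) * ((Complex.I * ((1 / 2 * sN N n : ℝ) : ℂ)) *
        ex (fexp (ω * N) : CI H) z))
    push_cast
    ring

private theorem exc_fst {ω : ℝ} {N : ℕ} {a : ℝ} {x : ℤ → Xn H} {n : ℤ} {b : Yn H}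
    (hb : b = Bf ω (tv ω N a x) x n) : so ω N a x n = b.1 + ((a ^ 2 : ℝ) : ℂ) • tr (ω * N) 1 (x n) := by
  rw [hb, so, exc_tr]
  rfl

theorem ex_form {ω : ℝ} (hω : 0 < ω) {N : ℕ} (hN : 1 ≤ N) : ∃ C, 1 ≤ C ∧
    ∃ (B : L1 (Xn H) →L[ℝ] L1 (Xn H) →L[ℝ] L1 (Yn H)) (Λ : ℝ → (L1 (Xn H) →L[ℝ] L1 (Yn H)))
      (F : ℝ → ℝ → L1 (Yn H)), BilB (jL H) B C ∧ (∀ X, Continuous fun a => Λ a X) ∧
      Continuous (fun p : ℝ × ℝ => F p.1 p.2) ∧ (∀ a X, ‖Λ a X‖ ≤ C * (1 + |a|) ^ 4 * ‖X‖) ∧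
      (∀ a a1, ‖F a a1‖ ≤ C * (1 + |a|) ^ 4 * (1 + |a1|)) ∧
      ∀ a a1, ∀ X : L1 (Xn H), (∀ n : ℤ, Dmode (ω * n) (X n)) → ∀ n,
        (Λ a X + B X X + F a a1) n = ls ω N a a1 (unl ω N a X) n := by
  obtain ⟨c, hc, ⟨vL, hv, vb, vj⟩, ⟨iL, hi, ib, ij⟩, ⟨L, hL, Lb, Lj⟩, ⟨E3, hE3, E3b⟩,
    ⟨P1, P2, hP, Pb⟩, ⟨TR, hTR, -⟩, ⟨L2, hL2, -⟩, ⟨e, p, hp, he⟩⟩ := ex_maps (H := H) hω hN
  obtain ⟨C0, hC0, hBW⟩ := exists_BW H
  obtain ⟨B0, hB0, hB0b⟩ := hBW ω 1 (fun _ => 1) le_rfl lept_wt_one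
  rw [mul_one] at hB0b
  obtain ⟨e', he'⟩ := exc_e (H := H) ω N
  obtain ⟨C, hC, B, Λ, F, h1, h2, h3, h4, h5, h6⟩ := exc_abs (j := jL H) hC0 hc hB0b TR L2 e p e' vb vj
    ib ij Lb Lj E3b (fun y => (Pb y).1) (fun y => (Pb y).2)
  refine ⟨C, hC, B, Λ, F, h1, h2, h3, h4, h5, ?_⟩
  intro a a1 X hX n
  obtain ⟨x, hx⟩ : ∃ x : L1 (Xn H), x = L X + a • e := ⟨_, rfl⟩
  obtain ⟨v, hv'⟩ : ∃ v : L1 (Xn H), v = vL x + a • p := ⟨_, rfl⟩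
  rw [h6 a a1 X x v hx hv']
  have hxn : ∀ n : ℤ, x n = unl ω N a X n := by
    intro n
    have e0 : x n = L X n + a • e n := by rw [hx]; rfl
    have e1 : ex (pu ω N a n : Xn H).2.1 0 = (a : ℂ) * ex (pu ω N 1 n : Xn H).2.1 0 := by
      rw [exc_pu]; rfl
    have e2 := (hX n).e2
    rw [e0, hL, he]
    refine Prod.ext (Prod.ext ?_ (Prod.ext ?_ ?_)) (Prod.ext ?_ (Prod.ext ?_ ?_)) <;>
      refine ci_ext fun z hz => ?_
    · show ex (X n).1.1 z + a * 0 = ex (X n).1.1 z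
      ring
    · show ex (X n).1.2.1 z + a * 0 = ex (X n).1.2.1 z
      ring
    · show ex (X n).1.2.2 z + a * 0 = ex (X n).1.2.2 z
      ring
    · show (ex (X n).2.1 z + (-ex (Top (ω * n) (X n).1.1) 0) * ex (eta (ω * n) : CI H) z) +
          a * ((-ex (pu ω N 1 n : Xn H).2.1 0) * ex (eta (ω * n) : CI H) z) =
        ex (X n).2.1 z + (-ex (Top (ω * n) (X n).1.1) 0 - ex (pu ω N a n : Xn H).2.1 0) *
          ex (eta (ω * n) : CI H) z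
      rw [e1]
      ring
    · show (ex (X n).2.2.1 z + (-ex (Top (ω * n) (X n).1.1) 0) * ex (eta1 (ω * n) : CI H) z) +
          a * ((-ex (pu ω N 1 n : Xn H).2.1 0) * ex (eta1 (ω * n) : CI H) z) =
        ex (X n).2.2.1 z + (-ex (Top (ω * n) (X n).1.1) 0 - ex (pu ω N a n : Xn H).2.1 0) *
          ex (eta1 (ω * n) : CI H) z
      rw [e1]
      ring
    · show (ex (X n).2.2.2 z + ((|ω * n| : ℝ) : ℂ) * ((-ex (Top (ω * n) (X n).1.1) 0) *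
          ex (eta (ω * n) : CI H) z)) + a * (((|ω * n| : ℝ) : ℂ) *
            ((-ex (pu ω N 1 n : Xn H).2.1 0) * ex (eta (ω * n) : CI H) z)) =
        ((|ω * n| : ℝ) : ℂ) * (ex (X n).2.1 z + (-ex (Top (ω * n) (X n).1.1) 0 -
          ex (pu ω N a n : Xn H).2.1 0) * ex (eta (ω * n) : CI H) z)
      rw [e1, e2, ex_rsmul]
      ring
  have hfx : unl ω N a X = fun n => x n := by
    funext n
    exact (hxn n).symm
  have hfv : (fun n => v n) = tv ω N a x := by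
    funext n
    have e0 : v n = vL x n + a • p n := by rw [hv']; rfl
    rw [e0, hv, hp, ← exc_pu]
    rfl
  have hx3 : (x n).2.2.2 = |ω * n| • (x n).2.1 := by
    rw [hxn]
    rfl
  have b1 : (B0 v x) n = Bf ω (tv ω N a x) x n := by
    rw [lept_B1 hB0, ← hfv]
  have hfi : (fun n => iL x n) = iv x := by
    funext n
    exact hi x n
  have b2 : (B0 (iL x) v) n = Bf ω (iv x) (tv ω N a x) n := by
    rw [lept_B1 hB0, ← hfv, ← hfi]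
  rw [hfx]
  have hso := exc_fst b1
  obtain ⟨g1, hg1⟩ : ∃ g : Yn H, g = (B0 v x) n := ⟨_, rfl⟩
  obtain ⟨g2, hg2⟩ : ∃ g : Yn H, g = (B0 (iL x) v) n := ⟨_, rfl⟩
  rw [← hg1] at hso
  rw [← hg2] at b2
  -- values of the maps
  have p1 : (P1 (B0 v x)) n = (g1.1, 0) := by rw [(hP _ n).1, hg1]
  have p2 : (E3 (P1 (B0 v x))) n = (0, ex (Top (ω * n) g1.1) 0 • eta (ω * n)) := by rw [hE3, p1]
  have p3 : (P2 (B0 (iL x) v)) n = (0, g2.2) := by rw [(hP _ n).2, hg2]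
  have p4 : (P1 (TR x)) n = (tr (ω * N) 1 (x n), 0) := by rw [(hP _ n).1, hTR]
  have p5 : (E3 (P1 (TR x))) n = (0, ex (Top (ω * n) (tr (ω * N) 1 (x n))) 0 • eta (ω * n)) := by
    rw [hE3, p4]
  have p6 : (P2 (TR x)) n = (0, -(kap (ω * N) 1 * (x n).2.1)) := by rw [(hP _ n).2, hTR]
  have p7 := hL2 x n hx3
  have hsum : ((P1 (B0 v x) + E3 (P1 (B0 v x))) + P2 (B0 (iL x) v) +
      a ^ 2 • (P1 (TR x) + E3 (P1 (TR x)) + P2 (TR x)) + L2 x + a1 • e') n =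
      (((P1 (B0 v x)) n + (E3 (P1 (B0 v x))) n) + (P2 (B0 (iL x) v)) n +
      a ^ 2 • ((P1 (TR x)) n + (E3 (P1 (TR x))) n + (P2 (TR x)) n) + (L2 x) n + a1 • e' n) := rfl
  rw [hsum, p1, p2, p3, p4, p5, p6, p7, he']
  have q1 : ex (Top (ω * n) (so ω N a x n)) 0 = ex (Top (ω * n) g1.1) 0 +
      ((a ^ 2 : ℝ) : ℂ) * ex (Top (ω * n) (tr (ω * N) 1 (x n))) 0 := by
    rw [hso, map_add, map_smul, ex_add, ex_smul]
  have q2 : ex (pu ω N a1 n : Xn H).2.1 0 = (a1 : ℂ) * ex (pu ω N 1 n : Xn H).2.1 0 := by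
    rw [exc_pu]; rfl
  have q3 : si ω N a x n = g2.2 - ((a ^ 2 : ℝ) : ℂ) • (kap (ω * N) 1 * (x n).2.1) := by
    rw [si, exc_kap, b2]
  refine Prod.ext (ci_ext fun z hz => ?_) (ci_ext fun z hz => ?_)
  · show (ex g1.1 z + 0) + 0 + ((a ^ 2 : ℝ) : ℂ) * (ex (tr (ω * N) 1 (x n)) z + 0 + 0) + 0 + a1 * 0 =
      ex (so ω N a x n) z
    rw [hso, ex_add, ex_smul]
    ring
  · show (0 + ex (Top (ω * n) g1.1) 0 * ex (eta (ω * n) : CI H) z) + ex g2.2 z +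
        ((a ^ 2 : ℝ) : ℂ) * (0 + ex (Top (ω * n) (tr (ω * N) 1 (x n))) 0 * ex (eta (ω * n) : CI H) z +
          -(ex (kap (ω * N) 1 * (x n).2.1) z)) +
        (ex (-(ex (x n).1.2.1 0 - ((Real.exp (-|ω * n| * H) : ℝ) : ℂ) * ex (x n).1.2.1 H) •
          eta (ω * n) : CI H) z + ex (x n).2.1 0 * ex (etr (ω * n) : CI H) z) +
        (a1 : ℂ) * (ex (pu ω N 1 n : Xn H).2.1 0 * ex (eta (ω * n) : CI H) z) =
      ex (si ω N a x n) z - sg ω N a a1 x n * ex (eta (ω * n) : CI H) z +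
        ex (x n).2.1 0 * ex (etr (ω * n) : CI H) z
    rw [q3, sg, q1, q2, ex_sub, ex_smul, ex_smul]
    ring

end

end Pool.Agent.Lib.MP_79abb3_an.FW
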