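import Pool.Agent.Lib.MP_79abb3_an.FW.Def
import Pool.Agent.Lib.MP_79abb3_an.P25.IGlue
import Pool.Agent.Lib.MP_79abb3_an.P25.LEPT

/-!
FW-53: mild solutions solve the integrated equation.
-/

set_option autoImplicit false
set_option linter.unusedSectionVars false

open MeasureTheory Set Filter Topology Function

namespace Pool.Agent.Lib.MP_79abb3_an.FW

open Pool.Agent.Lib.MP_79abb3_an.P25

section
variable {H : ℝ} [hH : Fact (0 < H)]

theorem HE.of_mild {S D A : ℝ → (CI H →L[ℂ] CI H)} (hS : DirSG H S D A) {k a b : ℝ}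
    {f f1 G : ℝ → CI H} (cf : ContinuousOn f (Icc a b)) (cf1 : ContinuousOn f1 (Icc a b))
    (cG : ContinuousOn G (Icc a b)) (d : ∀ t ∈ Icc a b, IsD (f t) (f1 t))
    (h : ∀ t ∈ Ioc a b, f t = Real.exp (-k ^ 2 * (t - a)) • S (t - a) (f a) +
      ∫ r in a..t, Real.exp (-k ^ 2 * (t - r)) • S (t - r) (G r))
    (h1 : ∀ t ∈ Ioc a b, f1 t = Real.exp (-k ^ 2 * (t - a)) • D (t - a) (f a) +
      ∫ r in a..t, Real.exp (-k ^ 2 * (t - r)) • D (t - r) (G r)) :
    HE k a b f f1 G := by
  refine ⟨cf, cf1, cG, d, fun y hy => ?_⟩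
  rcases lt_or_ge a b with hab | hab
  · obtain ⟨M, hM⟩ := isCompact_Icc.exists_bound_of_continuousOn cG
    have hM0 : 0 ≤ M := (norm_nonneg _).trans (hM a (left_mem_Icc.2 hab.le))
    have hb : ∀ t ∈ Ioc a b, ‖G t‖ ≤ (M * √(b - a)) * (√(t - a))⁻¹ := by
      intro t ht
      have h2 : 0 < √(t - a) := Real.sqrt_pos.2 (by linarith [ht.1])
      have h3 : 1 ≤ √(b - a) * (√(t - a))⁻¹ := by
        rw [← div_eq_mul_inv, one_le_div h2]
        exact Real.sqrt_le_sqrt (by linarith [ht.2])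
      calc ‖G t‖ ≤ M * 1 := by
            rw [mul_one]
            exact hM t (Ioc_subset_Icc_self ht)
        _ ≤ M * (√(b - a) * (√(t - a))⁻¹) := mul_le_mul_of_nonneg_left h3 hM0
        _ = _ := by ring
    have key := ti_mode (H := H) hS (k := k) (s := a) (b := b) (f0 := f a) (n := G) (f := f) (f1 := f1)
      (R := M * √(b - a)) (cG.mono Ioc_subset_Icc_self) hb h h1
    have g1 : ContinuousOn (fun t => prim (f t) y) (Icc a b) :=
      (primCL (H := H) y).continuous.comp_continuousOn cf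
    have g2 : ContinuousOn (fun r => rh k (f r) (f1 r) (G r) y) (Icc a b) :=
      continuousOn_rh cf cf1 cG
    exact lept_ext hab g1 g2 fun t1 h1 t2 h2 => key t1 h1 t2 h2 y hy
  · intro t1 h1 t2 h2
    have e1 : t1 = t2 := le_antisymm h2.1 (by linarith [h1.1, h2.2])
    rw [e1, sub_self, intervalIntegral.integral_same]

end

end Pool.Agent.Lib.MP_79abb3_an.FW
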