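import Pool.Agent.Lib.MP_79abb3_an.FW.ExB

/-!
FW-54 (a): conjugation symmetry of the lifted system.
-/

set_option autoImplicit false
set_option linter.unusedSectionVars false

open MeasureTheory Set Filter Topology Function

namespace Pool.Agent.Lib.MP_79abb3_an.FW

open Pool.Agent.Lib.MP_79abb3_an.P25

namespace XE

section
variable {H : ℝ} [hH : Fact (0 < H)]

/-- The family `x'` is the conjugate of the family `x`. -/
def Cj {E : Type} [Star E] (x x' : ℤ → E) : Prop := ∀ m, x' m = star (x (-m))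

theorem Cj.of_sy {E : Type} [InvolutiveStar E] {x : ℤ → E} (h : Sy x) : Cj x x := fun m => by
  rw [h m, star_star]

theorem Cj.sy {E : Type} [InvolutiveStar E] {x : ℤ → E} (h : Cj x x) : Sy x := fun m => by
  rw [h (-m), neg_neg]

theorem cj_cast (ω : ℝ) (m : ℤ) : ω * ((-m : ℤ) : ℝ) = -(ω * m) := by push_cast; ring

theorem star_rc (F : ℝ → ℝ) (hF : Continuous F) : star (rc F hF : CI H) = rc F hF :=
  ci_ext fun z hz => by
    rw [ex_star, ex_rc F hF hz, Complex.star_def, Complex.conj_ofReal]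

theorem star_fexp (m : ℝ) : star (fexp m : CI H) = fexp m := star_rc _ _
theorem star_kap (m a : ℝ) : star (kap m a : CI H) = kap m a := star_rc _ _
theorem star_kap1 (m a : ℝ) : star (kap1 m a : CI H) = kap1 m a := star_rc _ _
theorem star_eta (k : ℝ) : star (eta k : CI H) = eta k := star_rc _ _
theorem star_eta1 (k : ℝ) : star (eta1 k : CI H) = eta1 k := star_rc _ _
theorem star_etr (k : ℝ) : star (etr k : CI H) = etr k := star_rc _ _

theorem eta_neg (k : ℝ) : (eta (-k) : CI H) = eta k :=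
  ci_ext fun z hz => by
    rw [eta, eta, ex_rc _ _ hz, ex_rc _ _ hz, abs_neg]

theorem eta1_neg (k : ℝ) : (eta1 (-k) : CI H) = eta1 k :=
  ci_ext fun z hz => by
    rw [eta1, eta1, ex_rc _ _ hz, ex_rc _ _ hz, abs_neg]

theorem etr_neg (k : ℝ) : (etr (-k) : CI H) = etr k :=
  ci_ext fun z hz => by
    rw [etr, etr, ex_rc _ _ hz, ex_rc _ _ hz, abs_neg]

theorem star_vx (k : ℝ) (V V1 : CI H) : star (vx k V V1) = vx k (star V) (star V1) :=
  Prod.ext (Prod.ext (star_zero _) (Prod.ext (star_zero _) (star_zero _)))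
    (Prod.ext rfl (Prod.ext rfl (star_rsmul_CI _ _)))

theorem vx_neg (k : ℝ) (V V1 : CI H) : vx (-k) V V1 = vx k V V1 := by
  rw [vx, vx, abs_neg]

theorem sN_neg {N : ℕ} (hN : 1 ≤ N) (m : ℤ) : sN N (-m) = -sN N m := by
  have hN' : (1:ℤ) ≤ (N:ℤ) := by exact_mod_cast hN
  unfold sN
  by_cases h1 : m = (N:ℤ)
  · have h2 : ¬ (-m = (N:ℤ)) := by omega
    have h3 : -m = -(N:ℤ) := by omega
    rw [if_neg h2, if_pos h3, if_pos h1]
  · by_cases h2 : m = -(N:ℤ)
    · have h3 : -m = (N:ℤ) := by omega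
      rw [if_pos h3, if_neg h1, if_pos h2, neg_neg]
    · have h3 : ¬ (-m = (N:ℤ)) := by omega
      have h4 : ¬ (-m = -(N:ℤ)) := by omega
      rw [if_neg h3, if_neg h4, if_neg h1, if_neg h2, neg_zero]

theorem cj_pu (ω : ℝ) {N : ℕ} (hN : 1 ≤ N) (a : ℝ) :
    Cj (E := Xn H) (pu ω N a) (pu ω N a) := by
  intro m
  rw [pu, pu, star_vx, star_smul, star_smul, star_fexp, cj_cast, vx_neg, sN_neg hN]
  simp only [star_mul', Complex.star_def, Complex.conj_I, Complex.conj_ofReal]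
  congr 2
  · push_cast; ring
  · push_cast; ring

theorem cj_ov {ω : ℝ} {x x' : ℤ → Xn H} (h : Cj x x') : Cj (ov ω x) (ov ω x') := by
  intro m
  rw [ov, ov, star_vx, cj_cast, vx_neg, Top_neg, abs_neg, star_sub, star_rsmul_CI, ← Top_star, h m]
  rfl

theorem cj_iv {x x' : ℤ → Xn H} (h : Cj x x') : Cj (iv x) (iv x') := by
  intro m
  rw [iv, iv, h m]
  exact Prod.ext (Prod.ext (star_zero _).symm (Prod.ext (star_zero _).symm (star_zero _).symm)) rfl

theorem cj_tv {ω : ℝ} {N : ℕ} (hN : 1 ≤ N) (a : ℝ) {x x' : ℤ → Xn H} (h : Cj x x') :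
    Cj (tv ω N a x) (tv ω N a x') := by
  intro m
  rw [tv, tv, star_add, star_add, ← cj_ov h m, ← cj_iv h m, ← cj_pu ω hN a m]

theorem star_tr (m a : ℝ) (x : Xn H) : tr m a (star x) = star (tr m a x) := by
  rw [tr, tr, star_sub, star_sub, star_mul', star_mul', star_mul', star_kap, star_kap1]
  rfl

theorem cj_so {ω : ℝ} {N : ℕ} (hN : 1 ≤ N) (a : ℝ) {x x' : ℤ → Xn H} (h : Cj x x') :
    Cj (so ω N a x) (so ω N a x') := by
  intro m
  rw [so, so, N0_star ω (cj_tv hN a h) h, h m, star_tr, star_add, star_neg]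

theorem cj_si {ω : ℝ} {N : ℕ} (hN : 1 ≤ N) (a : ℝ) {x x' : ℤ → Xn H} (h : Cj x x') :
    Cj (si ω N a x) (si ω N a x') := by
  intro m
  rw [si, si, Bf_star ω (cj_iv h) (cj_tv hN a h), h m, star_sub, star_mul', star_kap]
  rfl

theorem cj_exTop {k : ℝ} {f : CI H} : ex (Top (-k) (star f)) 0 = star (ex (Top k f) 0) := by
  rw [Top_neg, Top_star, ex_star]

theorem cj_sg {ω : ℝ} {N : ℕ} (hN : 1 ≤ N) (a a1 : ℝ) {x x' : ℤ → Xn H} (h : Cj x x') (m : ℤ) :
    sg ω N a a1 x' m = star (sg ω N a a1 x (-m)) := by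
  have hp : ex (pu ω N a1 m : Xn H).2.1 0 = star (ex (pu ω N a1 (-m) : Xn H).2.1 0) := by
    rw [cj_pu ω hN a1 m]; rfl
  rw [sg, sg, h m, cj_so hN a h m, hp, cj_cast, abs_neg, star_sub, star_sub, star_sub, star_mul',
    Top_neg, Top_star, ex_star, Complex.star_def, Complex.conj_ofReal]
  rfl

theorem cj_ls {ω : ℝ} {N : ℕ} (hN : 1 ≤ N) (a a1 : ℝ) {x x' : ℤ → Xn H} (h : Cj x x') :
    Cj (ls ω N a a1 x) (ls ω N a a1 x') := by
  intro m
  rw [ls, ls, cj_so hN a h m, cj_si hN a h m, cj_sg hN a a1 h m, h m]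
  refine Prod.ext rfl ?_
  show _ = star (si ω N a x (-m) - sg ω N a a1 x (-m) • eta (ω * ((-m : ℤ) : ℝ)) +
    ex (x (-m)).2.1 0 • etr (ω * ((-m : ℤ) : ℝ)))
  rw [star_add, star_sub, star_smul, star_smul, cj_cast, eta_neg, etr_neg, star_eta, star_etr]
  rfl

theorem cj_slp {ω : ℝ} {N : ℕ} (hN : 1 ≤ N) (a : ℝ) {X X' : ℤ → Xn H} (h : Cj X X') (m : ℤ) :
    slp ω N a X' m = star (slp ω N a X (-m)) := by
  have hp : ex (pu ω N a m : Xn H).2.1 0 = star (ex (pu ω N a (-m) : Xn H).2.1 0) := by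
    rw [cj_pu ω hN a m]; rfl
  rw [slp, slp, h m, hp, cj_cast, Top_neg, star_sub, star_neg]
  congr 2
  show ex (Top (ω * m) (star (X (-m)).1.1)) 0 = _
  rw [Top_star, ex_star]

theorem cj_unl {ω : ℝ} {N : ℕ} (hN : 1 ≤ N) (a : ℝ) {X X' : ℤ → Xn H} (h : Cj X X') :
    Cj (unl ω N a X) (unl ω N a X') := by
  intro m
  rw [unl, unl, cj_slp hN a h m, h m, cj_cast, eta_neg, eta1_neg, abs_neg]
  have e1 : ∀ (c : ℂ) (f : CI H), star (f + c • eta (ω * m)) = star f + star c • eta (ω * m) :=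
    fun c f => by rw [star_add, star_smul, star_eta]
  have e2 : ∀ (c : ℂ) (f : CI H), star (f + c • eta1 (ω * m)) = star f + star c • eta1 (ω * m) :=
    fun c f => by rw [star_add, star_smul, star_eta1]
  refine Prod.ext rfl (Prod.ext ?_ (Prod.ext ?_ ?_))
  · exact (e1 _ _).symm
  · exact (e2 _ _).symm
  · show _ = star (|ω * m| • ((X (-m)).2.1 + slp ω N a X (-m) • eta (ω * m)))
    rw [star_rsmul_CI, e1]
    rfl

theorem cj_lft {ω : ℝ} {x x' : ℤ → Xn H} (h : Cj x x') : Cj (lft ω x) (lft ω x') := by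
  intro m
  have e1 : ∀ (c : ℂ) (f : CI H), star (f - c • eta (ω * m)) = star f - star c • eta (ω * m) :=
    fun c f => by rw [star_sub, star_smul, star_eta]
  have e2 : ∀ (c : ℂ) (f : CI H), star (f - c • eta1 (ω * m)) = star f - star c • eta1 (ω * m) :=
    fun c f => by rw [star_sub, star_smul, star_eta1]
  rw [lft, lft, h m, cj_cast, eta_neg, eta1_neg, abs_neg]
  refine Prod.ext rfl (Prod.ext ?_ (Prod.ext ?_ ?_))
  · exact (e1 _ _).symm
  · exact (e2 _ _).symm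
  · show _ = star (|ω * m| • ((x (-m)).2.1 - ex (x (-m)).2.1 0 • eta (ω * m)))
    rw [star_rsmul_CI, e1]
    rfl

end

end XE

end Pool.Agent.Lib.MP_79abb3_an.FW
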