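import Pool.Agent.Lib.MP_79abb3_an.FW.ExB
import Pool.Agent.Lib.MP_79abb3_an.FW.ExD

/-!
FW-54 (b): from a mild solution of the lifted system to the integrated equations.
-/

set_option autoImplicit false
set_option linter.unusedSectionVars false

open MeasureTheory Set Filter Topology Function

namespace Pool.Agent.Lib.MP_79abb3_an.FW

open Pool.Agent.Lib.MP_79abb3_an.P25

namespace XE

section
variable {H : ℝ} [hH : Fact (0 < H)]

/-- The integrated equations of the two components from the mild formula of one mode. -/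
theorem he_of_mode {S D B : ℝ → (CI H →L[ℂ] CI H)} (hS : DirSG H S D B) {k a b : ℝ}
    {X : ℝ → Xn H} {G : ℝ → Yn H} (cX : ContinuousOn X (Icc a b)) (cG : ContinuousOn G (Icc a b))
    (dm : ∀ t ∈ Icc a b, Dmode k (X t))
    (h : ∀ t ∈ Ioc a b, IntervalIntegrable (fun r => Tn S D k (t - r) (G r)) volume a t ∧
      X t = Tn S D k (t - a) (jn (X a)) + ∫ r in a..t, Tn S D k (t - r) (G r)) :
    HE k a b (fun t => (X t).1.1) (fun t => (X t).1.2.1) (fun t => (G t).1) ∧
      HE k a b (fun t => (X t).2.1) (fun t => (X t).2.2.1) (fun t => (G t).2) := by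
  have key : ∀ (q : Xn H →L[ℝ] CI H), ∀ t ∈ Ioc a b,
      q (X t) = q (Tn S D k (t - a) (jn (X a))) + ∫ r in a..t, q (Tn S D k (t - r) (G r)) := by
    intro q t ht
    obtain ⟨hI, he⟩ := h t ht
    have h1 := congrArg q he
    rw [map_add, ← ContinuousLinearMap.intervalIntegral_comp_comm _ hI] at h1
    exact h1
  have cq : ∀ (q : Xn H →L[ℝ] CI H), ContinuousOn (fun t => q (X t)) (Icc a b) := fun q =>
    q.continuous.comp_continuousOn cX
  constructor
  · refine HE.of_mild hS (cq (q1 H)) (cq (q2 H)) (continuous_fst.comp_continuousOn cG)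
      (fun t ht => (dm t ht).d1) (fun t ht => ?_) (fun t ht => ?_)
    · exact key (q1 H) t ht
    · exact key (q2 H) t ht
  · refine HE.of_mild hS (cq (P25.q4 H)) (cq (q5 H)) (continuous_snd.comp_continuousOn cG)
      (fun t ht => (dm t ht).d2) (fun t ht => ?_) (fun t ht => ?_)
    · exact key (P25.q4 H) t ht
    · exact key (q5 H) t ht

/-- The potential flow is linear in the amplitude. -/
theorem pu_smul (ω : ℝ) (N : ℕ) (a : ℝ) (n : ℤ) :
    ex (pu ω N a n : Xn H).2.1 0 = a * ex (pu ω N 1 n : Xn H).2.1 0 := by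
  show (Complex.I * ((a / 2 * sN N n : ℝ) : ℂ)) * ex (fexp (ω * N) : CI H) 0 =
    a * ((Complex.I * ((1 / 2 * sN N n : ℝ) : ℂ)) * ex (fexp (ω * N) : CI H) 0)
  push_cast
  ring

/-- From the equations of the lifted state to the equations of the state (one mode). -/
theorem he_unl {ω : ℝ} {N : ℕ} {A A1 : ℝ → ℝ} {a b : ℝ} {X x : ℝ → L1 (Xn H)}
    (cA1 : ContinuousOn A1 (Icc a b))
    (dA : ∀ t ∈ Icc a b, HasDerivWithinAt A (A1 t) (Icc a b) t)
    (n : ℤ) (dm : ∀ t ∈ Icc a b, Dmode (ω * n) (X t n))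
    (hx : ∀ t ∈ Icc a b, x t n = unl ω N (A t) (X t) n)
    (ho : HE (ω * n) a b (fun t => (X t n).1.1) (fun t => (X t n).1.2.1)
      (fun t => (ls ω N (A t) (A1 t) (x t) n).1))
    (hi : HE (ω * n) a b (fun t => (X t n).2.1) (fun t => (X t n).2.2.1)
      (fun t => (ls ω N (A t) (A1 t) (x t) n).2)) :
    HE (ω * n) a b (fun t => (x t n).1.1) (fun t => (x t n).1.2.1)
      (fun t => so ω N (A t) (x t) n) ∧
    HE (ω * n) a b (fun t => (x t n).2.1) (fun t => (x t n).2.2.1)
      (fun t => si ω N (A t) (x t) n) := by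
  have h1 : ∀ t ∈ Icc a b, (x t n).1 = (X t n).1 := fun t ht => by rw [hx t ht]; rfl
  have ho' : HE (ω * n) a b (fun t => (x t n).1.1) (fun t => (x t n).1.2.1)
      (fun t => so ω N (A t) (x t) n) :=
    ho.congr (fun t ht => by rw [h1 t ht]) (fun t ht => by rw [h1 t ht]) (fun t _ => rfl)
  refine ⟨ho', ?_⟩
  -- the slip and its derivative
  have hslp : ∀ t ∈ Icc a b, ex (x t n).2.1 0 = slp ω N (A t) (X t) n := fun t ht => by
    rw [hx t ht]
    show ex (X t n).2.1 0 + slp ω N (A t) (X t) n * ex (eta (ω * n) : CI H) 0 = _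
    rw [(dm t ht).z2, (eta_facts (H := H) (ω * n)).2.2.2.1]
    ring
  have cG : ContinuousOn (fun t => so ω N (A t) (x t) n) (Icc a b) := ho'.cG
  have hds : ∀ t ∈ Icc a b, HasDerivWithinAt (fun t => slp ω N (A t) (X t) n)
      (sg ω N (A t) (A1 t) (x t) n) (Icc a b) t := by
    intro t ht
    have e1 := ho.slip (fun t ht => (dm t ht).z1) (fun t ht => (dm t ht).h1) t ht
    have e2 : HasDerivWithinAt (fun t => ((A t : ℝ) : ℂ) * ex (pu ω N 1 n : Xn H).2.1 0)
        (((A1 t : ℝ) : ℂ) * ex (pu ω N 1 n : Xn H).2.1 0) (Icc a b) t :=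
      (dA t ht).ofReal_comp.mul_const _
    have e3 := e1.neg.sub e2
    have e4 : sg ω N (A t) (A1 t) (x t) n =
        -(-ex (X t n).1.2.1 0 + ((Real.exp (-|ω * n| * H) : ℝ) : ℂ) * ex (X t n).1.2.1 H +
          ex (Top (ω * n) (ls ω N (A t) (A1 t) (x t) n).1) 0) -
          ((A1 t : ℝ) : ℂ) * ex (pu ω N 1 n : Xn H).2.1 0 := by
      rw [sg, h1 t ht, pu_smul ω N (A1 t) n]
      show _ = -(-ex (X t n).1.2.1 0 + ((Real.exp (-|ω * n| * H) : ℝ) : ℂ) * ex (X t n).1.2.1 H +
          ex (Top (ω * n) (so ω N (A t) (x t) n)) 0) -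
          ((A1 t : ℝ) : ℂ) * ex (pu ω N 1 n : Xn H).2.1 0
      ring
    rw [e4]
    refine e3.congr_of_mem (fun s _ => ?_) ht
    rw [slp, pu_smul ω N (A s) n]
    rfl
  have hcs : ContinuousOn (fun t => slp ω N (A t) (X t) n) (Icc a b) := fun t ht =>
    (hds t ht).continuousWithinAt
  have hcs1 : ContinuousOn (fun t => sg ω N (A t) (A1 t) (x t) n) (Icc a b) := by
    have c1 : ContinuousOn (fun t => (x t n).1.2.1) (Icc a b) := ho'.cf1
    have c2 : ∀ z : ℝ, ContinuousOn (fun t => ex (x t n).1.2.1 z) (Icc a b) := fun z =>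
      (evL (H := H) z).continuous.comp_continuousOn c1
    have c3 : ContinuousOn (fun t => ex (Top (ω * n) (so ω N (A t) (x t) n)) 0) (Icc a b) :=
      (evL (H := H) 0).continuous.comp_continuousOn ((Top (ω * n)).continuous.comp_continuousOn cG)
    have c4 : ContinuousOn (fun t => ex (pu ω N (A1 t) n : Xn H).2.1 0) (Icc a b) := by
      simp_rw [pu_smul ω N (A1 _) n]
      exact (Complex.continuous_ofReal.comp_continuousOn cA1).mul continuousOn_const
    exact (((c2 0).sub (continuousOn_const.mul (c2 H))).sub c3).sub c4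
  obtain ⟨f1, f2, f3, f4, -⟩ := eta_facts (H := H) (ω * n)
  have hp := HE.prof f1 f2 f3 hcs hcs1 hds
  have hadd := hi.add hp
  refine hadd.congr (fun t ht => ?_) (fun t ht => ?_) (fun t ht => ?_)
  · rw [hx t ht]; rfl
  · rw [hx t ht]; rfl
  · show si ω N (A t) (x t) n = (si ω N (A t) (x t) n - sg ω N (A t) (A1 t) (x t) n • eta (ω * n) +
      ex (x t n).2.1 0 • etr (ω * n)) + (sg ω N (A t) (A1 t) (x t) n • eta (ω * n) -
        slp ω N (A t) (X t) n • etr (ω * n))
    rw [hslp t ht]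
    abel

end

end XE

end Pool.Agent.Lib.MP_79abb3_an.FW
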