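import Pool.Agent.Lib.MP_79abb3_an.FW.ExC
import Pool.Agent.Lib.MP_79abb3_an.FW.ExEa
import Pool.Agent.Lib.MP_79abb3_an.FW.ExEb
import Pool.Agent.Lib.MP_79abb3_an.P25.Dir

/-!
FW-54: local existence for the coupled system.
-/

set_option autoImplicit false
set_option linter.unusedSectionVars false

attribute [-instance] PreLp.ring SubfieldClass.toSubringClass SubringClass.toSubsemiringClass
  NonUnitalSubringClass.toNonUnitalSubsemiringClass RingConeClass.toSubsemiringClass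
  SubsemiringClass.nonUnitalSubsemiringClass SubringClass.nonUnitalSubringClass
  AddSubgroup.seminormedAddCommGroup SetLike.GradeZero.instSemiring SetLike.GradeZero.instCommRing
  SetLike.GradeZero.instCommSemiring SetLike.GradeZero.instRing LieAdmissibleAlgebra.toModule
  RightPreLieAlgebra.toModule LeftPreLieAlgebra.toModule

open MeasureTheory Set Filter Topology Function

namespace Pool.Agent.Lib.MP_79abb3_an.FW

open Pool.Agent.Lib.MP_79abb3_an.P25
open XE

section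
variable {H : ℝ} [hH : Fact (0 < H)]

namespace XE

theorem dmode_star {k : ℝ} {x : Xn H} (h : Dmode (-k) x) : Dmode k (star x) where
  d1 := h.d1.star
  d2 := h.d2.star
  e1 := by
    show star x.1.2.2 = |k| • star x.1.1
    rw [h.e1, star_rsmul_CI, abs_neg]
  e2 := by
    show star x.2.2.2 = |k| • star x.2.1
    rw [h.e2, star_rsmul_CI, abs_neg]
  z1 := by
    show ex (star x.1.1) 0 = 0
    rw [ex_star, h.z1, star_zero]
  z2 := by
    show ex (star x.2.1) 0 = 0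
    rw [ex_star, h.z2, star_zero]
  h1 := by
    show ex (star x.1.1) H = 0
    rw [ex_star, h.h1, star_zero]
  h2 := by
    show ex (star x.2.1) H = 0
    rw [ex_star, h.h2, star_zero]

theorem dmode_cj {ω : ℝ} {X : L1 (Xn H)} (h : ∀ n : ℤ, Dmode (ω * n) (X n)) (n : ℤ) :
    Dmode (ω * n) (cjL _ X n) := by
  rw [cjL_apply]
  refine dmode_star ?_
  rw [← cj_cast]
  exact h (-n)

/-- Reality of a mild solution whose source commutes with the conjugation along the solution. -/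
theorem mild_sy {S D A : ℝ → (CI H →L[ℂ] CI H)} (hS : DirSG H S D A) {ω C : ℝ}
    {B : L1 (Xn H) →L[ℝ] L1 (Xn H) →L[ℝ] L1 (Yn H)}
    (hB : BilB (jL H) B C) (hC : 1 ≤ C) {s b M MF : ℝ} (hM : 0 ≤ M) (hsb : b ≤ s + 1)
    {Λ : ℝ → (L1 (Xn H) →L[ℝ] L1 (Yn H))} {F : ℝ → L1 (Yn H)} (hc : Coef (jL H) s b M MF Λ F)
    {u0 : L1 (Yn H)} (hu0 : Sy u0) {u : ℝ → L1 (Xn H)}
    (h : Mild (jL H) (TT hS ω) B Λ F s b u0 u)
    (hcj : ∀ r ∈ Ioc s b, cjL _ (Λ r (u r) + B (u r) (u r) + F r) =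
      Λ r (cjL _ (u r)) + B (cjL _ (u r)) (cjL _ (u r)) + F r) : ∀ t ∈ Ioc s b, Sy (u t) := by
  have hXc : CompleteSpace (L1 (Xn H)) := completeSpace_L1_sym
  have hYc : CompleteSpace (L1 (Yn H)) := completeSpace_L1_sym
  have hT : SG (jL H) (TT hS ω) C := sg_TT hS ω hC
  obtain ⟨hNc, R1, hR1, hNb⟩ := Mild.rhs hT hB hM hc h
  have hint := (duhamel hT hsb hR1 hNc hNb).1
  have h' : Mild (jL H) (TT hS ω) B Λ F s b u0 (fun t => cjL _ (u t)) := by
    refine ⟨(cjL (Xn H)).continuous.comp_continuousOn h.cont, ?_, ?_⟩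
    · obtain ⟨R, hR⟩ := h.bd
      refine ⟨R, fun t ht => ?_⟩
      rw [jL_cj, norm_cjL, norm_cjL]
      exact hR t ht
    · intro t ht
      have e := congrArg (cjL (Xn H)) (h.eq t ht)
      rw [map_add, ← TT_cj, (cjL_eq_iff u0).2 hu0,
        ← ContinuousLinearMap.intervalIntegral_comp_comm _ (hint t ht)] at e
      rw [e]
      congr 1
      refine intervalIntegral.integral_congr_ae (Filter.Eventually.of_forall fun r hr => ?_)
      rw [uIoc_of_le ht.1.le] at hr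
      have hr' : r ∈ Ioc s b := ⟨hr.1, hr.2.trans ht.2⟩
      rw [← TT_cj, hcj r hr']
  intro t ht
  exact (cjL_eq_iff (u t)).1 (Mild.unique hT hB hsb hc h h' t ht).symm

/-- Strong continuity and local bounds give continuity along a continuous curve. -/
theorem clm_cont_comp {E F : Type} [NormedAddCommGroup E] [NormedSpace ℝ E]
    [NormedAddCommGroup F] [NormedSpace ℝ F] {s : Set ℝ} {M : ℝ} {Λ : ℝ → (E →L[ℝ] F)} (hM : 0 ≤ M)
    (hc : ∀ x, ContinuousOn (fun t => Λ t x) s) (hb : ∀ t ∈ s, ∀ x, ‖Λ t x‖ ≤ M * ‖x‖)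
    {u : ℝ → E} (hu : ContinuousOn u s) : ContinuousOn (fun t => Λ t (u t)) s := by
  intro t0 ht0
  have h1 : Tendsto (fun t => Λ t (u t0)) (𝓝[s] t0) (𝓝 (Λ t0 (u t0))) := hc (u t0) t0 ht0
  have h2 : Tendsto (fun t => Λ t (u t - u t0)) (𝓝[s] t0) (𝓝 0) := by
    rw [tendsto_zero_iff_norm_tendsto_zero]
    have h3 : Tendsto (fun t => M * ‖u t - u t0‖) (𝓝[s] t0) (𝓝 0) := by
      have h4 : Tendsto (fun t => ‖u t - u t0‖) (𝓝[s] t0) (𝓝 0) :=
        tendsto_iff_norm_sub_tendsto_zero.1 (hu t0 ht0)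
      simpa using h4.const_mul M
    refine squeeze_zero' (Eventually.of_forall fun t => norm_nonneg _) ?_ h3
    filter_upwards [self_mem_nhdsWithin] with t ht
    exact hb t ht _
  have h9 := h2.add h1
  rw [zero_add] at h9
  refine h9.congr fun t => ?_
  rw [map_sub]; abel

end XE

theorem cs_local {ω : ℝ} (hω : 0 < ω) {N : ℕ} (hN : 1 ≤ N) (R : ℝ) : ∃ h, 0 < h ∧ h ≤ 1 ∧
    ∀ {A A1 : ℝ → ℝ} {a : ℝ} {x0 : L1 (Xn H)}, ContinuousOn A (Icc a (a + h)) →
    ContinuousOn A1 (Icc a (a + h)) →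
    (∀ t ∈ Icc a (a + h), HasDerivWithinAt A (A1 t) (Icc a (a + h)) t) →
    (∀ t ∈ Icc a (a + h), |A t| ≤ R ∧ |A1 t| ≤ R) → ‖x0‖ ≤ R →
    (∀ n : ℤ, Cm (ω * n) (ex (pu ω N (A a) n : Xn H).2.1 0) (x0 n)) → Sy x0 →
    ∃ x : ℝ → L1 (Xn H), CS ω N A A1 a (a + h) x ∧ x a = x0 := by
  obtain ⟨S, D, D2, hS⟩ := exists_dir H
  obtain ⟨C, hC, B, Λ, F, hB, cΛ, cF, bΛ, bF, hls⟩ := ex_form (H := H) hω hN
  obtain ⟨CL, hCL, hlft⟩ := lft_norm (H := H) (ω := ω) (N := N) (R := R)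
  obtain ⟨CC, hCC, -, -, ⟨L, hL, -, -⟩, -, -, -, -, ⟨e, p, -, he⟩⟩ := ex_maps (H := H) hω hN
  have hT : SG (jL H) (TT hS ω) C := sg_TT hS ω hC
  have hXc : CompleteSpace (L1 (Xn H)) := complete_L1 _
  have hYc : CompleteSpace (L1 (Yn H)) := complete_L1 _
  obtain ⟨c, hc, K, hK, hLEX⟩ := LEX hT hB
  have hC0 : 0 ≤ C := by linarith
  have hR0 : 0 ≤ |R| := abs_nonneg R
  set M := C * (1 + |R|) ^ 5 with hM
  set X1 := CL * (|R| + 1) with hX1
  have hM0 : 0 ≤ M := by positivity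
  have hX10 : 0 ≤ X1 := by positivity
  set Q := M + X1 + M + 1 with hQ
  have hQ0 : 0 < Q := by positivity
  set h := min 1 ((c / Q) ^ 2) with hh
  have hh0 : 0 < h := lt_min one_pos (by positivity)
  have hh1 : h ≤ 1 := min_le_left _ _
  refine ⟨h, hh0, hh1, ?_⟩
  intro A A1 a x0 cA cA1 dA hbd hx0 hcm hsy
  have hah : a < a + h := by linarith
  have ha : a ∈ Icc a (a + h) := left_mem_Icc.2 hah.le
  have hsub : Ioc a (a + h) ⊆ Icc a (a + h) := Ioc_subset_Icc_self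
  have hRR : R ≤ |R| := le_abs_self R
  -- the lifted initial state
  obtain ⟨hsum, hle, -⟩ := hlft (hbd a ha).1 hcm
  set X0 : L1 (Xn H) := mkL1 (lft ω x0) hsum with hX0
  have hX0f : ∀ n, X0 n = lft ω x0 n := fun n => rfl
  have hX0n : ‖X0‖ ≤ X1 := by
    rw [hX0, norm_mkL1]
    refine hle.trans ?_
    rw [hX1]
    gcongr
    exact hx0.trans hRR
  have hX0d : ∀ n : ℤ, Dmode (ω * n) (X0 n) := fun n => (lft_dmode hcm n).1
  obtain ⟨hinit, hinb⟩ := TT_init hS ω hX0d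
  -- the coefficients
  have cΛ1 : ∀ X, ContinuousOn (fun t => Λ (A t) X) (Icc a (a + h)) := fun X =>
    (cΛ X).comp_continuousOn cA
  have cF1 : ContinuousOn (fun t => F (A t) (A1 t)) (Icc a (a + h)) :=
    cF.comp_continuousOn (cA.prodMk cA1)
  have cΛ' : ∀ X, ContinuousOn (fun t => Λ (A t) X) (Ioc a (a + h)) := fun X => (cΛ1 X).mono hsub
  have cF' : ContinuousOn (fun t => F (A t) (A1 t)) (Ioc a (a + h)) := cF1.mono hsub
  have hAb : ∀ t ∈ Icc a (a + h), 1 + |A t| ≤ 1 + |R| := fun t ht => by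
    linarith [(hbd t ht).1]
  have hA1b : ∀ t ∈ Icc a (a + h), 1 + |A1 t| ≤ 1 + |R| := fun t ht => by
    linarith [(hbd t ht).2]
  have bΛ1 : ∀ t ∈ Icc a (a + h), ∀ x, ‖Λ (A t) x‖ ≤ M * ‖x‖ := by
    intro t ht x
    refine (bΛ (A t) x).trans ?_
    have h1 := hAb t ht
    have h2 : (1 + |A t|) ^ 4 ≤ (1 + |R|) ^ 5 := by
      calc (1 + |A t|) ^ 4 ≤ (1 + |R|) ^ 4 := by gcongr
        _ ≤ (1 + |R|) ^ 5 := pow_le_pow_right₀ (by linarith) (by norm_num)
    rw [hM]
    gcongr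
  have bF1 : ∀ t ∈ Icc a (a + h), ‖F (A t) (A1 t)‖ ≤ M := by
    intro t ht
    refine (bF (A t) (A1 t)).trans ?_
    have h1 := hAb t ht
    have h2 := hA1b t ht
    calc C * (1 + |A t|) ^ 4 * (1 + |A1 t|) ≤ C * (1 + |R|) ^ 4 * (1 + |R|) := by gcongr
      _ = M := by rw [hM]; ring
  have bΛ' : ∀ t ∈ Ioc a (a + h), ∀ x, ‖Λ (A t) x‖ ≤ M * ‖x‖ := fun t ht => bΛ1 t (hsub ht)
  have bF' : ∀ t ∈ Ioc a (a + h), ‖F (A t) (A1 t)‖ ≤ M := fun t ht => bF1 t (hsub ht)
  have hsmall : √h * (M + ‖X0‖ + √h * M) ≤ c := by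
    have h1 : √h ≤ c / Q := by
      refine Real.sqrt_le_iff.2 ⟨by positivity, min_le_right _ _⟩
    have h2 : √h ≤ 1 := Real.sqrt_le_one.2 hh1
    have h3 : 0 ≤ √h := Real.sqrt_nonneg _
    calc √h * (M + ‖X0‖ + √h * M) ≤ √h * (M + X1 + 1 * M) := by gcongr
      _ ≤ √h * Q := by
          refine mul_le_mul_of_nonneg_left ?_ h3
          rw [hQ]; linarith
      _ ≤ c / Q * Q := by gcongr
      _ = c := div_mul_cancel₀ c hQ0.ne'
  -- the mild solution
  obtain ⟨u, hu, -⟩ := hLEX a h M M X0 (fun t => Λ (A t)) (fun t => F (A t) (A1 t)) hh0 hh1 hM0 hM0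
    cΛ' cF' bΛ' bF' (fun t ht => (hinb t ht).trans (by gcongr)) hsmall
  obtain ⟨hlim, -⟩ := hu.reg hT hB (by linarith) hah hM0 cΛ' cF' bΛ' bF' hinit
  have hcoef : Coef (jL H) a (a + h) M M (fun t => Λ (A t)) (fun t => F (A t) (A1 t)) := by
    refine ⟨cΛ', cF', fun t ht x => (bΛ' t ht x).trans ?_, fun t ht => (bF' t ht).trans ?_⟩
    · gcongr
      have : 0 ≤ (√(t - a))⁻¹ * ‖jL H x‖ := by positivity
      linarith
    · have h1 : 0 < √(t - a) := Real.sqrt_pos.2 (by linarith [ht.1])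
      have h2 : 1 ≤ (√(t - a))⁻¹ := by
        rw [one_le_inv₀ h1]
        exact Real.sqrt_le_one.2 (by linarith [ht.2])
      nlinarith
  have hdm := hu.dmode hS hB hC hM0 (by linarith) hcoef
  have hmode := Mild.mode_aux hS hB hC hM0 (by linarith) hcoef hu
  -- reality
  have hsy0 : Sy (jL H X0) := by
    refine Cj.sy fun m => ?_
    have h1 : lft ω x0 m = star (lft ω x0 (-m)) := cj_lft (Cj.of_sy hsy) m
    show jn (lft ω x0 m) = star (jn (lft ω x0 (-m)))
    rw [h1]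
    rfl
  have hsyu : ∀ t ∈ Ioc a (a + h), Sy (u t) := by
    refine mild_sy hS hB hC hM0 (by linarith) hcoef hsy0 hu fun r hr => ?_
    refine lp.ext (funext fun n => ?_)
    have h1 : Cj (u r) (cjL _ (u r)) := fun m => rfl
    have h2 := cj_ls (ω := ω) hN (A r) (A1 r) (cj_unl (ω := ω) hN (A r) h1) n
    rw [hls (A r) (A1 r) (cjL _ (u r)) (dmode_cj (hdm r hr)) n, h2,
      ← hls (A r) (A1 r) (u r) (hdm r hr) (-n)]
    rfl
  -- the curve
  set X : ℝ → L1 (Xn H) := Function.update u a X0 with hX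
  have hXa : X a = X0 := Function.update_self _ _ _
  have hXu : ∀ t, a < t → X t = u t := fun t ht => Function.update_of_ne ht.ne' _ _
  have cX : ContinuousOn X (Icc a (a + h)) := by
    intro t ht
    rcases eq_or_lt_of_le ht.1 with hta | hta
    · rw [← hta]
      have h1 : ContinuousWithinAt X (Ioi a) a := by
        show Tendsto X (𝓝[>] a) (𝓝 (X a))
        rw [hXa]
        refine hlim.congr' ?_
        filter_upwards [self_mem_nhdsWithin] with r hr
        exact (hXu r hr).symm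
      have h2 : ContinuousWithinAt X (Ici a) a := continuousWithinAt_Ioi_iff_Ici.1 h1
      exact h2.mono Icc_subset_Ici_self
    · have h1 : ContinuousWithinAt u (Ioc a (a + h)) t := hu.cont t ⟨hta, ht.2⟩
      have h2 : ContinuousWithinAt X (Ioc a (a + h)) t :=
        h1.congr (fun r hr => hXu r hr.1) (hXu t hta)
      refine h2.mono_of_mem_nhdsWithin ?_
      rw [mem_nhdsWithin]
      exact ⟨Ioi a, isOpen_Ioi, hta, fun r hr => ⟨hr.1, hr.2.2⟩⟩
  have dmX : ∀ t ∈ Icc a (a + h), ∀ n : ℤ, Dmode (ω * n) (X t n) := by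
    intro t ht n
    rcases eq_or_lt_of_le ht.1 with hta | hta
    · rw [← hta, hXa]; exact hX0d n
    · rw [hXu t hta]; exact hdm t ⟨hta, ht.2⟩ n
  have syX : ∀ t ∈ Icc a (a + h), Sy (X t) := by
    intro t ht
    rcases eq_or_lt_of_le ht.1 with hta | hta
    · rw [← hta, hXa]
      exact Cj.sy (cj_lft (Cj.of_sy hsy))
    · rw [hXu t hta]; exact hsyu t ⟨hta, ht.2⟩
  -- the source
  have cN : ContinuousOn (fun t => Λ (A t) (X t) + B (X t) (X t) + F (A t) (A1 t)) (Icc a (a + h)) := by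
    refine ((?_ : ContinuousOn (fun t => Λ (A t) (X t)) _).add ?_).add cF1
    · exact clm_cont_comp hM0 cΛ1 bΛ1 cX
    · exact (B.continuous.comp_continuousOn cX).clm_apply cX
  set x : ℝ → L1 (Xn H) := fun t => L (X t) + A t • e with hx
  have hxn : ∀ t ∈ Icc a (a + h), ∀ n, x t n = unl ω N (A t) (X t) n := by
    intro t ht n
    show L (X t) n + A t • e n = _
    rw [hL (X t) n, he n, unl, slp, pu_smul ω N (A t) n, (dmX t ht n).e2]
    refine Prod.ext ?_ (Prod.ext ?_ (Prod.ext ?_ ?_))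
    · refine Prod.ext (ci_ext fun z _ => ?_) (Prod.ext (ci_ext fun z _ => ?_)
        (ci_ext fun z _ => ?_))
      · show ex (X t n).1.1 z + ((A t : ℝ) : ℂ) * ex (0 : CI H) z = ex (X t n).1.1 z
        rw [ex_zero, mul_zero, add_zero]
      · show ex (X t n).1.2.1 z + ((A t : ℝ) : ℂ) * ex (0 : CI H) z = ex (X t n).1.2.1 z
        rw [ex_zero, mul_zero, add_zero]
      · show ex (X t n).1.2.2 z + ((A t : ℝ) : ℂ) * ex (0 : CI H) z = ex (X t n).1.2.2 z
        rw [ex_zero, mul_zero, add_zero]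
    · refine ci_ext fun z _ => ?_
      simp only [Prod.snd_add, Prod.fst_add, Prod.smul_snd, Prod.smul_fst, ex_add, ex_smul, ex_rsmul]
      ring
    · refine ci_ext fun z _ => ?_
      simp only [Prod.snd_add, Prod.fst_add, Prod.smul_snd, Prod.smul_fst, ex_add, ex_smul, ex_rsmul]
      ring
    · refine ci_ext fun z _ => ?_
      simp only [Prod.snd_add, Prod.fst_add, Prod.smul_snd, Prod.smul_fst, ex_add, ex_smul, ex_rsmul]
      ring
  have hxf : ∀ t ∈ Icc a (a + h), (x t : ℤ → Xn H) = unl ω N (A t) (X t) := fun t ht =>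
    funext (hxn t ht)
  have hHE : ∀ n : ℤ, HE (ω * n) a (a + h) (fun t => (X t n).1.1) (fun t => (X t n).1.2.1)
      (fun t => (ls ω N (A t) (A1 t) (x t) n).1) ∧
      HE (ω * n) a (a + h) (fun t => (X t n).2.1) (fun t => (X t n).2.2.1)
      (fun t => (ls ω N (A t) (A1 t) (x t) n).2) := by
    intro n
    have h1 := he_of_mode hS (k := ω * n) (a := a) (b := a + h) (X := fun t => X t n)
      (G := fun t => (Λ (A t) (X t) + B (X t) (X t) + F (A t) (A1 t)) n)
      ((evN (Xn H) n).continuous.comp_continuousOn cX)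
      ((evN (Yn H) n).continuous.comp_continuousOn cN) (fun t ht => dmX t ht n) ?_
    · have h2 : ∀ t ∈ Icc a (a + h), ls ω N (A t) (A1 t) (x t) n =
          (Λ (A t) (X t) + B (X t) (X t) + F (A t) (A1 t)) n := fun t ht => by
        rw [hxf t ht, hls (A t) (A1 t) (X t) (dmX t ht) n]
      exact ⟨h1.1.congr (fun _ _ => rfl) (fun _ _ => rfl) (fun t ht => by rw [h2 t ht]),
        h1.2.congr (fun _ _ => rfl) (fun _ _ => rfl) (fun t ht => by rw [h2 t ht])⟩
    · intro t ht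
      obtain ⟨hI, hE⟩ := hmode t ht n
      have hcong : ∀ r ∈ Ioo a t, Tn S D (ω * n) (t - r)
          ((Λ (A r) (u r) + B (u r) (u r) + F (A r) (A1 r)) n) = Tn S D (ω * n) (t - r)
          ((Λ (A r) (X r) + B (X r) (X r) + F (A r) (A1 r)) n) := fun r hr => by
        rw [hXu r hr.1]
      refine ⟨hI.congr_uIoo fun r hr => ?_, ?_⟩
      · rw [uIoo_of_le ht.1.le] at hr
        exact hcong r hr
      · rw [intervalIntegral.integral_congr_Ioo_of_le ht.1.le hcong] at hE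
        rw [hXu t ht.1, hXa]
        exact hE
  refine ⟨x, ⟨cA, cA1, dA, ?_, ?_, ?_, ?_, ?_⟩, ?_⟩
  · exact (L.continuous.comp_continuousOn cX).add (cA.smul continuousOn_const)
  · intro t ht n
    rw [hxn t ht n]
    exact (unl_cm (dmX t ht) n).1
  · intro t ht
    refine Cj.sy ?_
    rw [hxf t ht]
    exact cj_unl hN (A t) (Cj.of_sy (syX t ht))
  · intro n
    exact (he_unl cA1 dA n (fun t ht => dmX t ht n) (fun t ht => hxn t ht n) (hHE n).1 (hHE n).2).1
  · intro n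
    exact (he_unl cA1 dA n (fun t ht => dmX t ht n) (fun t ht => hxn t ht n) (hHE n).1 (hHE n).2).2
  · refine lp.ext (funext fun n => ?_)
    rw [hxn a ha n, hXa]
    exact (lft_dmode hcm n).2.2

end

end Pool.Agent.Lib.MP_79abb3_an.FW
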