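import Pool.Agent.Lib.MP_79abb3_an.FW.ExE

/-!
FW-55: gluing and continuation of solutions.
-/

set_option autoImplicit false
set_option linter.unusedSectionVars false

open MeasureTheory Set Filter Topology Function

namespace Pool.Agent.Lib.MP_79abb3_an.FW

open Pool.Agent.Lib.MP_79abb3_an.P25

section
variable {H : ℝ} [hH : Fact (0 < H)]

theorem CS.mono {ω : ℝ} {N : ℕ} {A A1 : ℝ → ℝ} {a b a' b' : ℝ} {x : ℝ → L1 (Xn H)}
    (h : CS ω N A A1 a b x) (ha : a ≤ a') (hb : b' ≤ b) : CS ω N A A1 a' b' x := by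
  have hs : Icc a' b' ⊆ Icc a b := Icc_subset_Icc ha hb
  exact ⟨h.cA.mono hs, h.cA1.mono hs, fun t ht => (h.dA t (hs ht)).mono hs, h.c.mono hs,
    fun t ht => h.cm t (hs ht), fun t ht => h.sy t (hs ht), fun n => (h.eo n).mono ha hb,
    fun n => (h.ei n).mono ha hb⟩

theorem CS.shift {ω : ℝ} {N : ℕ} {A A1 : ℝ → ℝ} {a b : ℝ} {x : ℝ → L1 (Xn H)}
    (h : CS ω N A A1 a b x) (d : ℝ) :
    CS ω N (fun t => A (t - d)) (fun t => A1 (t - d)) (a + d) (b + d) (fun t => x (t - d)) := by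
  have hm : MapsTo (fun t : ℝ => t - d) (Icc (a + d) (b + d)) (Icc a b) := by
    intro t ht
    exact ⟨by linarith [ht.1], by linarith [ht.2]⟩
  have hc : ContinuousOn (fun t : ℝ => t - d) (Icc (a + d) (b + d)) :=
    (continuous_sub_right d).continuousOn
  refine ⟨h.cA.comp hc hm, h.cA1.comp hc hm, fun t ht => ?_, h.c.comp hc hm,
    fun t ht => h.cm _ (hm ht), fun t ht => h.sy _ (hm ht), fun n => ?_, fun n => ?_⟩
  · have h1 := h.dA (t - d) (hm ht)
    have h2 : HasDerivWithinAt (fun t : ℝ => t - d) 1 (Icc (a + d) (b + d)) t :=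
      ((hasDerivAt_id t).sub_const d).hasDerivWithinAt
    have h3 := HasDerivWithinAt.scomp t h1 h2 hm
    rw [one_smul] at h3
    exact h3
  · exact (h.eo n).shift d
  · exact (h.ei n).shift d

theorem CS.congr {ω : ℝ} {N : ℕ} {A A1 A' A1' : ℝ → ℝ} {a b : ℝ} {x x' : ℝ → L1 (Xn H)}
    (h : CS ω N A A1 a b x) (hA : ∀ t ∈ Icc a b, A' t = A t ∧ A1' t = A1 t)
    (hx : ∀ t ∈ Icc a b, x' t = x t) : CS ω N A' A1' a b x' := by
  refine ⟨h.cA.congr fun t ht => (hA t ht).1, h.cA1.congr fun t ht => (hA t ht).2,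
    fun t ht => ?_, h.c.congr hx, fun t ht n => ?_, fun t ht => ?_, fun n => ?_, fun n => ?_⟩
  · rw [(hA t ht).2]
    exact (h.dA t ht).congr (fun s hs => (hA s hs).1) (hA t ht).1
  · rw [(hA t ht).1, hx t ht]
    exact h.cm t ht n
  · rw [hx t ht]
    exact h.sy t ht
  · refine (h.eo n).congr (fun t ht => ?_) (fun t ht => ?_) (fun t ht => ?_)
    · simp only [hx t ht]
    · simp only [hx t ht]
    · simp only [hx t ht, (hA t ht).1]
  · refine (h.ei n).congr (fun t ht => ?_) (fun t ht => ?_) (fun t ht => ?_)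
    · simp only [hx t ht]
    · simp only [hx t ht]
    · simp only [hx t ht, (hA t ht).1]

/-- A single instant. -/
theorem CS.single {ω : ℝ} {N : ℕ} {A A1 : ℝ → ℝ} {a : ℝ} {x0 : L1 (Xn H)}
    (h : ∀ n : ℤ, Cm (ω * n) (ex (pu ω N (A a) n : Xn H).2.1 0) (x0 n)) (hs : Sy x0) :
    CS ω N A A1 a a (fun _ => x0) := by
  have he : ∀ (k : ℝ) (f f1 G : ℝ → CI H), (∀ t ∈ Icc a a, IsD (f t) (f1 t)) →
      HE k a a f f1 G := by
    intro k f f1 G hd
    refine ⟨?_, ?_, ?_, hd, ?_⟩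
    · rw [Icc_self]; exact continuousOn_singleton _ _
    · rw [Icc_self]; exact continuousOn_singleton _ _
    · rw [Icc_self]; exact continuousOn_singleton _ _
    · intro y hy t1 h1 t2 h2
      have e1 : t1 = a := le_antisymm h1.2 h1.1
      have e2 : t2 = a := le_antisymm h2.2 (by rw [← e1]; exact h2.1)
      rw [e1, e2]
      simp
  have ha : ∀ t ∈ Icc a a, t = a := fun t ht => le_antisymm ht.2 ht.1
  refine ⟨?_, ?_, fun t ht => ?_, ?_, fun t ht n => ?_, fun t ht => hs, fun n => ?_, fun n => ?_⟩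
  · rw [Icc_self]; exact continuousOn_singleton _ _
  · rw [Icc_self]; exact continuousOn_singleton _ _
  · rw [Icc_self, ha t ht]
    exact HasFDerivWithinAt.of_subsingleton subsingleton_singleton
  · rw [Icc_self]; exact continuousOn_singleton _ _
  · rw [ha t ht]; exact h n
  · exact he _ _ _ _ fun t ht => (h n).d1
  · exact he _ _ _ _ fun t ht => (h n).d2

theorem CS.glue {ω : ℝ} {N : ℕ} {A A1 : ℝ → ℝ} {a b c : ℝ} {x x' : ℝ → L1 (Xn H)}
    (h : CS ω N A A1 a b x) (h' : CS ω N A A1 b c x') (hab : a ≤ b) (hbc : b ≤ c) (hx : x b = x' b)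
    (cA1 : ContinuousOn A1 (Icc a c)) (dA : ∀ t ∈ Icc a c, HasDerivWithinAt A (A1 t) (Icc a c) t) :
    CS ω N A A1 a c (fun t => if t ≤ b then x t else x' t) := by
  have g : CS ω N A A1 a b (fun t => if t ≤ b then x t else x' t) := by
    refine h.congr (fun t _ => ⟨rfl, rfl⟩) (fun t ht => ?_)
    simp only [ht.2, if_true]
  have g' : CS ω N A A1 b c (fun t => if t ≤ b then x t else x' t) := by
    refine h'.congr (fun t _ => ⟨rfl, rfl⟩) (fun t ht => ?_)
    rcases eq_or_lt_of_le ht.1 with e | e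
    · subst e
      simp [hx]
    · simp only [not_le.2 e, if_false]
  have hu : Icc a b ∪ Icc b c = Icc a c := Icc_union_Icc_eq_Icc hab hbc
  refine ⟨fun t ht => (dA t ht).continuousWithinAt, cA1, dA, ?_, fun t ht n => ?_, fun t ht => ?_,
    fun n => HE.glue hab hbc (g.eo n) (g'.eo n), fun n => HE.glue hab hbc (g.ei n) (g'.ei n)⟩
  · rw [← hu]
    exact g.c.union_of_isClosed g'.c isClosed_Icc isClosed_Icc
  · rw [← hu] at ht
    rcases ht with ht | ht
    · exact g.cm t ht n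
    · exact g'.cm t ht n
  · rw [← hu] at ht
    rcases ht with ht | ht
    · exact g.sy t ht
    · exact g'.sy t ht

/-- Continuation under an a priori bound. -/
theorem cs_extend {ω : ℝ} (hω : 0 < ω) {N : ℕ} (hN : 1 ≤ N) {A A1 : ℝ → ℝ} {c0 b Λ : ℝ}
    {x0 : ℝ → L1 (Xn H)} (cA1 : Continuous A1) (dA : ∀ t, HasDerivAt A (A1 t) t) (hc0 : 0 ≤ c0)
    (hcb : c0 ≤ b) (h0 : CS ω N A A1 0 c0 x0)
    (hb : ∀ c ∈ Icc c0 b, ∀ x : ℝ → L1 (Xn H), CS ω N A A1 0 c x → (∀ t ∈ Icc 0 c0, x t = x0 t) →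
      ∀ t ∈ Icc 0 c, ‖x t‖ ≤ Λ) :
    ∃ x : ℝ → L1 (Xn H), CS ω N A A1 0 b x ∧ ∀ t ∈ Icc 0 c0, x t = x0 t := by
  have cA : Continuous A := continuous_iff_continuousAt.2 fun t => (dA t).continuousAt
  obtain ⟨RA, hRA⟩ := isCompact_Icc.exists_bound_of_continuousOn (cA.continuousOn (s := Icc 0 (b + 1)))
  obtain ⟨RB, hRB⟩ := isCompact_Icc.exists_bound_of_continuousOn (cA1.continuousOn (s := Icc 0 (b + 1)))
  obtain ⟨h, hh, hh1, hloc⟩ := cs_local (H := H) hω hN (max Λ (max RA RB))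
  have key : ∀ j : ℕ, ∃ x : ℝ → L1 (Xn H), CS ω N A A1 0 (min (c0 + j * h) b) x ∧
      ∀ t ∈ Icc 0 c0, x t = x0 t := by
    intro j
    induction j with
    | zero =>
      refine ⟨x0, ?_, fun t _ => rfl⟩
      have e : min (c0 + ((0 : ℕ) : ℝ) * h) b = c0 := by
        rw [Nat.cast_zero, zero_mul, add_zero, min_eq_left hcb]
      rw [e]
      exact h0
    | succ j ih =>
      obtain ⟨x, hx, hx0⟩ := ih
      set c := min (c0 + (j : ℝ) * h) b with hc
      have hj : (0 : ℝ) ≤ (j : ℝ) * h := mul_nonneg (Nat.cast_nonneg j) hh.le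
      have hc0c : c0 ≤ c := le_min (by linarith) hcb
      have hcb' : c ≤ b := min_le_right _ _
      have h0c : 0 ≤ c := hc0.trans hc0c
      have hsub : Icc c (c + h) ⊆ Icc 0 (b + 1) := Icc_subset_Icc h0c (by linarith)
      have hcc : c ∈ Icc (0 : ℝ) c := ⟨h0c, le_rfl⟩
      obtain ⟨x', hx', hxc⟩ := hloc (A := A) (A1 := A1) (a := c) (x0 := x c) cA.continuousOn
        cA1.continuousOn (fun t _ => (dA t).hasDerivWithinAt)
        (fun t ht => ⟨(hRA t (hsub ht)).trans ((le_max_left _ _).trans (le_max_right _ _)),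
          (hRB t (hsub ht)).trans ((le_max_right _ _).trans (le_max_right _ _))⟩)
        ((hb c ⟨hc0c, hcb'⟩ x hx hx0 c hcc).trans (le_max_left _ _)) (hx.cm c hcc) (hx.sy c hcc)
      have hg := hx.glue (hx'.mono le_rfl (min_le_left (c + h) b)) h0c
        (le_min (by linarith) hcb') hxc.symm cA1.continuousOn
        (fun t _ => (dA t).hasDerivWithinAt)
      refine ⟨_, hg.mono le_rfl ?_, fun t ht => ?_⟩
      · refine le_min ?_ (min_le_right _ _)
        have e : c + h = min (c0 + (j : ℝ) * h + h) (b + h) := by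
          rw [hc, min_add_add_right]
        rw [e]
        refine le_min ?_ ?_
        · refine (min_le_left _ _).trans (le_of_eq ?_)
          push_cast
          ring
        · exact (min_le_right _ _).trans (by linarith)
      · have : t ≤ c := ht.2.trans hc0c
        simp only [this, if_true]
        exact hx0 t ht
  obtain ⟨j, hj⟩ := exists_nat_ge ((b - c0) / h)
  obtain ⟨x, hx, hx0⟩ := key j
  have e : min (c0 + (j : ℝ) * h) b = b := by
    refine min_eq_right ?_
    rw [div_le_iff₀ hh] at hj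
    linarith
  rw [e] at hx
  exact ⟨x, hx, hx0⟩

end

end Pool.Agent.Lib.MP_79abb3_an.FW
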