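import Pool.Agent.Lib.MP_79abb3_an.FW.PhDef

/-!
FW-40a: the flush weight.
-/

set_option autoImplicit false
set_option linter.unusedSectionVars false

open MeasureTheory Set Filter Topology Function

namespace Pool.Agent.Lib.MP_79abb3_an.FW

open Pool.Agent.Lib.MP_79abb3_an.P25

section
variable {H : ℝ} [hH : Fact (0 < H)]

/-- `φ = cos(my) cosh(mz) / m` -/
noncomputable def ph (m y z : ℝ) : ℝ := Real.cos (m * y) * Real.cosh (m * z) / m

/-- The Lyapunov function `G = π - arctan(μ φ)` and `ρ = |∇φ|²/(1+μ²φ²)`. -/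
noncomputable def GG (m μ y z : ℝ) : ℝ := Real.pi - Real.arctan (μ * ph m y z)
noncomputable def rho (m μ y z : ℝ) : ℝ :=
  (Real.sinh (m * z) ^ 2 + Real.sin (m * y) ^ 2) / (1 + (μ * ph m y z) ^ 2)

private theorem den_pos (m μ y z : ℝ) : 0 < 1 + (μ * ph m y z) ^ 2 := by positivity

private theorem ph_cont (m μ : ℝ) : Continuous (fun p : ℝ × ℝ => μ * ph m p.1 p.2) := by
  unfold ph
  fun_prop

private theorem ph_dy {m : ℝ} (hm : m ≠ 0) (μ y z : ℝ) :
    HasDerivAt (fun y => μ * ph m y z) (-(μ * Real.sin (m * y) * Real.cosh (m * z))) y := by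
  have h1 : HasDerivAt (fun y : ℝ => m * y) m y := by
    simpa using (hasDerivAt_id y).const_mul m
  have h2 := (((h1.cos).mul_const (Real.cosh (m * z))).div_const m).const_mul μ
  refine h2.congr_deriv ?_
  field_simp

private theorem ph_dz {m : ℝ} (hm : m ≠ 0) (μ y z : ℝ) :
    HasDerivAt (fun z => μ * ph m y z) (μ * Real.cos (m * y) * Real.sinh (m * z)) z := by
  have h1 : HasDerivAt (fun z : ℝ => m * z) m z := by
    simpa using (hasDerivAt_id z).const_mul m
  have h2 := (((h1.cosh).const_mul (Real.cos (m * y))).div_const m).const_mul μ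
  refine h2.congr_deriv ?_
  field_simp

private theorem sin_dy (m c μ y : ℝ) :
    HasDerivAt (fun y => μ * Real.sin (m * y) * c) (μ * m * Real.cos (m * y) * c) y := by
  have h1 : HasDerivAt (fun y : ℝ => m * y) m y := by
    simpa using (hasDerivAt_id y).const_mul m
  have h2 := ((h1.sin).const_mul μ).mul_const c
  refine h2.congr_deriv ?_
  ring

private theorem sinh_dz (m c μ z : ℝ) :
    HasDerivAt (fun z => -(μ * c * Real.sinh (m * z))) (-(μ * m * c * Real.cosh (m * z))) z := by
  have h1 : HasDerivAt (fun z : ℝ => m * z) m z := by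
    simpa using (hasDerivAt_id z).const_mul m
  have h2 := ((h1.sinh).const_mul (μ * c)).neg
  refine h2.congr_deriv ?_
  ring

private theorem grad_id (a b : ℝ) :
    Real.sin a ^ 2 * Real.cosh b ^ 2 + Real.cos a ^ 2 * Real.sinh b ^ 2 =
      Real.sinh b ^ 2 + Real.sin a ^ 2 := by
  have h1 := Real.sin_sq_add_cos_sq a
  have h2 := Real.cosh_sq b
  rw [h2]
  have h3 : Real.cos a ^ 2 = 1 - Real.sin a ^ 2 := by linarith
  rw [h3]
  ring

/-- `G` is an admissible weight and decreases along the potential flow. -/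
theorem GG_weight {m : ℝ} (hm : 0 < m) {N : ℕ} {ω : ℝ} (hω : ω * H = Real.pi) (hmN : m = ω * N)
    {μ : ℝ} (hμ : 0 < μ) : ∃ gy gz gyy gzz : ℝ → ℝ → ℝ, W2P H (GG m μ) gy gz gyy gzz ∧
      (∀ y z, Real.pi / 2 ≤ GG m μ y z ∧ GG m μ y z ≤ 3 * Real.pi / 2) ∧
      (∀ y z, |gy y z| ≤ μ * Real.cosh (m * z) ∧ |gz y z| ≤ μ * Real.cosh (m * z)) ∧
      (∀ y z, gy y z ^ 2 + gz y z ^ 2 ≤ μ ^ 2 * rho m μ y z) ∧
      ∀ a y z, gyy y z + gzz y z + (-(a * Real.sin (m * y) * Real.cosh (m * z))) * gy y z +
        a * Real.cos (m * y) * Real.sinh (m * z) * gz y z ≤ -(a * μ - μ ^ 2) * rho m μ y z := by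
  have hcosP : ∀ y, Real.cos (m * (y + 2 * H)) = Real.cos (m * y) := by
    intro y
    have h1 : m * (y + 2 * H) = m * y + N * (2 * Real.pi) := by
      rw [← hω, hmN]
      ring
    rw [h1, Real.cos_add_nat_mul_two_pi]
  have hsinP : ∀ y, Real.sin (m * (y + 2 * H)) = Real.sin (m * y) := by
    intro y
    have h1 : m * (y + 2 * H) = m * y + N * (2 * Real.pi) := by
      rw [← hω, hmN]
      ring
    rw [h1, Real.sin_add_nat_mul_two_pi]
  have hphP : ∀ y z, ph m (y + 2 * H) z = ph m y z := by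
    intro y z
    unfold ph
    rw [hcosP]
  have hden := den_pos m μ
  have hden0 : ∀ y z, 1 + (μ * ph m y z) ^ 2 ≠ 0 := fun y z => (hden y z).ne'
  have cph := ph_cont m μ
  have cden : Continuous (fun p : ℝ × ℝ => 1 + (μ * ph m p.1 p.2) ^ 2) :=
    continuous_const.add (cph.pow 2)
  have hdy := fun y z => ph_dy hm.ne' μ y z
  have hdz := fun y z => ph_dz hm.ne' μ y z
  have hddy : ∀ y z, HasDerivAt (fun y => 1 + (μ * ph m y z) ^ 2)
      (2 * (μ * ph m y z) * (-(μ * Real.sin (m * y) * Real.cosh (m * z)))) y := by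
    intro y z
    have h2 := ((hdy y z).pow 2).const_add 1
    refine h2.congr_deriv ?_
    norm_num
  have hddz : ∀ y z, HasDerivAt (fun z => 1 + (μ * ph m y z) ^ 2)
      (2 * (μ * ph m y z) * (μ * Real.cos (m * y) * Real.sinh (m * z))) z := by
    intro y z
    have h2 := ((hdz y z).pow 2).const_add 1
    refine h2.congr_deriv ?_
    norm_num
  refine ⟨fun y z => μ * Real.sin (m * y) * Real.cosh (m * z) / (1 + (μ * ph m y z) ^ 2),
    fun y z => -(μ * Real.cos (m * y) * Real.sinh (m * z)) / (1 + (μ * ph m y z) ^ 2),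
    fun y z => (μ * m * Real.cos (m * y) * Real.cosh (m * z) * (1 + (μ * ph m y z) ^ 2) -
      μ * Real.sin (m * y) * Real.cosh (m * z) *
        (2 * (μ * ph m y z) * (-(μ * Real.sin (m * y) * Real.cosh (m * z))))) /
        (1 + (μ * ph m y z) ^ 2) ^ 2,
    fun y z => (-(μ * m * Real.cos (m * y) * Real.cosh (m * z)) * (1 + (μ * ph m y z) ^ 2) -
      -(μ * Real.cos (m * y) * Real.sinh (m * z)) *
        (2 * (μ * ph m y z) * (μ * Real.cos (m * y) * Real.sinh (m * z)))) /
        (1 + (μ * ph m y z) ^ 2) ^ 2, ?_, ?_, ?_, ?_, ?_⟩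
  · refine ⟨⟨⟨?_, ?_⟩, ⟨?_, ?_⟩, ⟨?_, ?_⟩, ?_, ?_⟩, ⟨?_, ?_⟩, ⟨?_, ?_⟩, ?_, ?_⟩
    · have : Continuous (fun p : ℝ × ℝ => Real.pi - Real.arctan (μ * ph m p.1 p.2)) :=
        continuous_const.sub (Real.continuous_arctan.comp cph)
      exact this.continuousOn
    · intro y z _
      unfold GG
      rw [hphP]
    · have : Continuous (fun p : ℝ × ℝ => μ * Real.sin (m * p.1) * Real.cosh (m * p.2) /
          (1 + (μ * ph m p.1 p.2) ^ 2)) :=
        Continuous.div (by fun_prop) cden (fun p => hden0 _ _)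
      exact this.continuousOn
    · intro y z _
      simp only [hphP, hsinP]
    · have : Continuous (fun p : ℝ × ℝ => -(μ * Real.cos (m * p.1) * Real.sinh (m * p.2)) /
          (1 + (μ * ph m p.1 p.2) ^ 2)) :=
        Continuous.div (by fun_prop) cden (fun p => hden0 _ _)
      exact this.continuousOn
    · intro y z _
      simp only [hphP, hcosP]
    · intro y z _
      have h1 := ((hdy y z).arctan).const_sub Real.pi
      refine h1.congr_deriv ?_
      have := hden0 y z
      field_simp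
    · intro y z _
      have h1 := ((hdz y z).arctan).const_sub Real.pi
      refine (h1.congr_deriv ?_).hasDerivWithinAt
      have := hden0 y z
      field_simp
    · have : Continuous (fun p : ℝ × ℝ => (μ * m * Real.cos (m * p.1) * Real.cosh (m * p.2) *
          (1 + (μ * ph m p.1 p.2) ^ 2) - μ * Real.sin (m * p.1) * Real.cosh (m * p.2) *
          (2 * (μ * ph m p.1 p.2) * (-(μ * Real.sin (m * p.1) * Real.cosh (m * p.2))))) /
          (1 + (μ * ph m p.1 p.2) ^ 2) ^ 2) := by
        refine Continuous.div ?_ (cden.pow 2) (fun p => pow_ne_zero 2 (hden0 _ _))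
        refine Continuous.sub (Continuous.mul (by fun_prop) cden) (Continuous.mul (by fun_prop) ?_)
        exact Continuous.mul (continuous_const.mul cph) (by fun_prop)
      exact this.continuousOn
    · intro y z _
      simp only [hphP, hcosP, hsinP]
    · have : Continuous (fun p : ℝ × ℝ => (-(μ * m * Real.cos (m * p.1) * Real.cosh (m * p.2)) *
          (1 + (μ * ph m p.1 p.2) ^ 2) - -(μ * Real.cos (m * p.1) * Real.sinh (m * p.2)) *
          (2 * (μ * ph m p.1 p.2) * (μ * Real.cos (m * p.1) * Real.sinh (m * p.2)))) /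
          (1 + (μ * ph m p.1 p.2) ^ 2) ^ 2) := by
        refine Continuous.div ?_ (cden.pow 2) (fun p => pow_ne_zero 2 (hden0 _ _))
        refine Continuous.sub (Continuous.mul (by fun_prop) cden) (Continuous.mul (by fun_prop) ?_)
        exact Continuous.mul (continuous_const.mul cph) (by fun_prop)
      exact this.continuousOn
    · intro y z _
      simp only [hphP, hcosP]
    · intro y z _
      exact (sin_dy m (Real.cosh (m * z)) μ y).div (hddy y z) (hden0 y z)
    · intro y z _
      exact ((sinh_dz m (Real.cos (m * y)) μ z).div (hddz y z) (hden0 y z)).hasDerivWithinAt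
  · intro y z
    unfold GG
    have h1 := Real.arctan_lt_pi_div_two (μ * ph m y z)
    have h2 := Real.neg_pi_div_two_lt_arctan (μ * ph m y z)
    constructor <;> linarith
  · intro y z
    have hd1 : 1 ≤ 1 + (μ * ph m y z) ^ 2 := by nlinarith [sq_nonneg (μ * ph m y z)]
    have hc := Real.cosh_pos (m * z)
    constructor
    · rw [abs_div, abs_of_pos (hden y z), div_le_iff₀ (hden y z), abs_mul, abs_mul,
        abs_of_pos hμ, abs_of_pos hc]
      have h1 : |Real.sin (m * y)| ≤ 1 := Real.abs_sin_le_one _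
      calc μ * |Real.sin (m * y)| * Real.cosh (m * z) ≤ μ * 1 * Real.cosh (m * z) := by gcongr
        _ = μ * Real.cosh (m * z) * 1 := by ring
        _ ≤ μ * Real.cosh (m * z) * (1 + (μ * ph m y z) ^ 2) := by gcongr
    · rw [abs_div, abs_of_pos (hden y z), div_le_iff₀ (hden y z), abs_neg, abs_mul, abs_mul,
        abs_of_pos hμ]
      have h1 : |Real.cos (m * y)| ≤ 1 := Real.abs_cos_le_one _
      have h2 : |Real.sinh (m * z)| ≤ Real.cosh (m * z) := by
        rw [abs_le]
        have h3 := Real.cosh_sub_sinh (m * z)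
        have h4 := Real.cosh_add_sinh (m * z)
        have h5 := Real.exp_pos (m * z)
        have h6 := Real.exp_pos (-(m * z))
        constructor <;> linarith
      calc μ * |Real.cos (m * y)| * |Real.sinh (m * z)| ≤ μ * 1 * Real.cosh (m * z) := by gcongr
        _ = μ * Real.cosh (m * z) * 1 := by ring
        _ ≤ μ * Real.cosh (m * z) * (1 + (μ * ph m y z) ^ 2) := by gcongr
  · intro y z
    have hg := grad_id (m * y) (m * z)
    have h0 := hden0 y z
    have hd1 : 1 ≤ 1 + (μ * ph m y z) ^ 2 := by nlinarith [sq_nonneg (μ * ph m y z)]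
    unfold rho
    rw [← hg]
    have e1 : (μ * Real.sin (m * y) * Real.cosh (m * z) / (1 + (μ * ph m y z) ^ 2)) ^ 2 +
        (-(μ * Real.cos (m * y) * Real.sinh (m * z)) / (1 + (μ * ph m y z) ^ 2)) ^ 2 =
        μ ^ 2 * ((Real.sin (m * y) ^ 2 * Real.cosh (m * z) ^ 2 +
          Real.cos (m * y) ^ 2 * Real.sinh (m * z) ^ 2) / (1 + (μ * ph m y z) ^ 2)) /
          (1 + (μ * ph m y z) ^ 2) := by
      field_simp
    rw [e1]
    apply div_le_self _ hd1
    positivity
  · intro a y z
    have hg := grad_id (m * y) (m * z)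
    have h0 := hden0 y z
    have hp := hden y z
    have hr0 : 0 ≤ rho m μ y z := by
      unfold rho
      positivity
    have hid : (μ * m * Real.cos (m * y) * Real.cosh (m * z) * (1 + (μ * ph m y z) ^ 2) -
      μ * Real.sin (m * y) * Real.cosh (m * z) *
        (2 * (μ * ph m y z) * (-(μ * Real.sin (m * y) * Real.cosh (m * z))))) /
        (1 + (μ * ph m y z) ^ 2) ^ 2 +
        (-(μ * m * Real.cos (m * y) * Real.cosh (m * z)) * (1 + (μ * ph m y z) ^ 2) -
      -(μ * Real.cos (m * y) * Real.sinh (m * z)) *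
        (2 * (μ * ph m y z) * (μ * Real.cos (m * y) * Real.sinh (m * z)))) /
        (1 + (μ * ph m y z) ^ 2) ^ 2 +
        (-(a * Real.sin (m * y) * Real.cosh (m * z))) *
          (μ * Real.sin (m * y) * Real.cosh (m * z) / (1 + (μ * ph m y z) ^ 2)) +
        a * Real.cos (m * y) * Real.sinh (m * z) *
          (-(μ * Real.cos (m * y) * Real.sinh (m * z)) / (1 + (μ * ph m y z) ^ 2)) =
        (2 * (μ * ph m y z) / (1 + (μ * ph m y z) ^ 2)) * (μ ^ 2 * rho m μ y z) -
          a * μ * rho m μ y z := by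
      unfold rho
      rw [← hg]
      generalize μ * ph m y z = t at *
      field_simp
      ring
    rw [hid]
    have h2 : 2 * (μ * ph m y z) / (1 + (μ * ph m y z) ^ 2) ≤ 1 := by
      rw [div_le_one hp]
      nlinarith [sq_nonneg (μ * ph m y z - 1)]
    have h3 : (2 * (μ * ph m y z) / (1 + (μ * ph m y z) ^ 2)) * (μ ^ 2 * rho m μ y z) ≤
        1 * (μ ^ 2 * rho m μ y z) := by
      apply mul_le_mul_of_nonneg_right h2
      positivity
    linarith

theorem rho_cont (m μ : ℝ) : Continuous (uncurry (rho m μ)) := by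
  have cden : Continuous (fun p : ℝ × ℝ => 1 + (μ * ph m p.1 p.2) ^ 2) :=
    continuous_const.add ((ph_cont m μ).pow 2)
  have : Continuous (fun p : ℝ × ℝ => (Real.sinh (m * p.2) ^ 2 + Real.sin (m * p.1) ^ 2) /
      (1 + (μ * ph m p.1 p.2) ^ 2)) :=
    Continuous.div (by fun_prop) cden (fun p => (den_pos m μ p.1 p.2).ne')
  exact this

end

end Pool.Agent.Lib.MP_79abb3_an.FW
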