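import Pool.Agent.Lib.MP_79abb3_an.FW.Def

/-!
FW-21: the parameters.
-/

set_option autoImplicit false
set_option linter.unusedSectionVars false

open MeasureTheory Set Filter Topology Function

namespace Pool.Agent.Lib.MP_79abb3_an.FW

open Pool.Agent.Lib.MP_79abb3_an.P25

section
variable {H : ℝ} [hH : Fact (0 < H)]

/-- Amplitude, thickness of the inner layer, slope of the flush weight; `m = ω N`. -/
noncomputable def A0 (m : ℝ) : ℝ := 32 * m * Real.exp (-√m)
noncomputable def zl (m : ℝ) : ℝ := 1 / (16 * √m)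
noncomputable def muu (m : ℝ) : ℝ := 2 * m * Real.exp (-(2 * √m))

/-- `∑ |μ cosh(m z) κ V_n|²` -/
noncomputable def K2 (m μ a : ℝ) (x : ℤ → Xn H) : ℝ :=
  ∑' n, n2 (rc (fun z => 64 * a ^ 2 * μ * Real.cosh (m * z) ^ 3) (by fun_prop) * (x n).2.1) ^ 2

end

end Pool.Agent.Lib.MP_79abb3_an.FW
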