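import Pool.Agent.Lib.MP_79abb3_an.FW.FlAa
import Pool.Agent.Lib.MP_79abb3_an.FW.Kap

/-!
FW-40b: lower bound of `ρ`.
-/

set_option autoImplicit false
set_option linter.unusedSectionVars false

open MeasureTheory Set Filter Topology Function

namespace Pool.Agent.Lib.MP_79abb3_an.FW

open Pool.Agent.Lib.MP_79abb3_an.P25

section
variable {H : ℝ} [hH : Fact (0 < H)]

theorem rho_low {m : ℝ} (hm : 1 ≤ m) (y : ℝ) {z : ℝ} (hz : 2 / √m ≤ z) :
    4 * m ^ 2 * Real.exp √m ≤ A0 m * muu m * rho m (muu m) y z := by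
  have hm0 : 0 < m := by linarith
  have hr1 : 1 ≤ √m := by
    rw [← Real.sqrt_one]
    exact Real.sqrt_le_sqrt hm
  have hr0 : 0 < √m := by linarith
  have hrm : √m * √m = m := Real.mul_self_sqrt hm0.le
  have hz2 : 2 * √m ≤ m * z := by
    have h1 := mul_le_mul_of_nonneg_left hz hm0.le
    have h2 : m * (2 / √m) = 2 * √m := by
      rw [mul_div_assoc', div_eq_iff hr0.ne']
      linear_combination (-2) * hrm
    rwa [h2] at h1
  have hc : Real.exp (m * z) / 2 ≤ Real.cosh (m * z) := by
    rw [Real.cosh_eq]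
    have := Real.exp_pos (-(m * z))
    linarith
  have he : Real.exp (2 * √m) ≤ Real.exp (m * z) := Real.exp_le_exp.2 hz2
  have he2 : 3 ≤ Real.exp (2 * √m) := by
    have := Real.add_one_le_exp (2 * √m)
    linarith
  set c := Real.cosh (m * z) with hcdef
  set E := Real.exp (2 * √m) with hE
  have hcE : E / 2 ≤ c := by linarith
  have hc2 : 3 / 2 ≤ c := by linarith
  have hE0 : 0 < E := Real.exp_pos _
  have hsinh : Real.sinh (m * z) ^ 2 = c ^ 2 - 1 := by
    have := Real.cosh_sq (m * z)
    rw [← hcdef] at this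
    linarith
  have hmu : muu m = 2 * m / E := by
    unfold muu
    rw [Real.exp_neg, hE]
    ring
  have hmu0 : 0 < muu m := by
    rw [hmu]
    positivity
  have hden : 1 + (muu m * ph m y z) ^ 2 ≤ 2 * (muu m * c / m) ^ 2 := by
    have h1 : 1 ≤ muu m * c / m := by
      rw [hmu, le_div_iff₀ hm0, div_mul_eq_mul_div, le_div_iff₀ hE0]
      nlinarith
    have h2 : (muu m * ph m y z) ^ 2 ≤ (muu m * c / m) ^ 2 := by
      have h3 : muu m * ph m y z = Real.cos (m * y) * (muu m * c / m) := by
        unfold ph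
        rw [← hcdef]
        ring
      rw [h3, mul_pow]
      have h4 : Real.cos (m * y) ^ 2 ≤ 1 := Real.cos_sq_le_one _
      have h5 : 0 ≤ (muu m * c / m) ^ 2 := sq_nonneg _
      nlinarith
    have h3 : 1 ≤ (muu m * c / m) ^ 2 := one_le_pow₀ h1
    linarith
  have hden0 : 0 < 1 + (muu m * ph m y z) ^ 2 := by positivity
  have hrho : m ^ 2 / (4 * muu m ^ 2) ≤ rho m (muu m) y z := by
    unfold rho
    rw [le_div_iff₀ hden0]
    calc m ^ 2 / (4 * muu m ^ 2) * (1 + (muu m * ph m y z) ^ 2)
        ≤ m ^ 2 / (4 * muu m ^ 2) * (2 * (muu m * c / m) ^ 2) :=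
          mul_le_mul_of_nonneg_left hden (by positivity)
      _ = c ^ 2 / 2 := by
          field_simp
          ring
      _ ≤ Real.sinh (m * z) ^ 2 + Real.sin (m * y) ^ 2 := by
          rw [hsinh]
          have := sq_nonneg (Real.sin (m * y))
          nlinarith
  have hA : 0 ≤ A0 m * muu m := by
    unfold A0
    positivity
  have hEE : E = Real.exp √m * Real.exp √m := by
    rw [hE, ← Real.exp_add]
    congr 1
    ring
  have hem : 0 < Real.exp √m := Real.exp_pos _
  calc 4 * m ^ 2 * Real.exp √m = A0 m * muu m * (m ^ 2 / (4 * muu m ^ 2)) := by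
        rw [hmu]
        unfold A0
        rw [Real.exp_neg, hEE]
        field_simp
        ring
    _ ≤ _ := mul_le_mul_of_nonneg_left hrho hA

end

end Pool.Agent.Lib.MP_79abb3_an.FW
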