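import Pool.Agent.Lib.MP_79abb3_an.FW.PhDef
import Pool.Agent.Lib.MP_79abb3_an.FW.SumsB
import Pool.Agent.Lib.MP_79abb3_an.FW.VelC

/-!
FW-41a: the potential flow in physical space.
-/

set_option autoImplicit false
set_option linter.unusedSectionVars false

open MeasureTheory Set Filter Topology Function

namespace Pool.Agent.Lib.MP_79abb3_an.FW

open Pool.Agent.Lib.MP_79abb3_an.P25

private theorem fba_ee (ω : ℝ) (n : ℤ) (y : ℝ) :
    ee ω n y = ((Real.cos (ω * n * y) : ℝ) : ℂ) + ((Real.sin (ω * n * y) : ℝ) : ℂ) * Complex.I := by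
  unfold ee
  rw [mul_comm Complex.I, Complex.exp_mul_I, Complex.ofReal_cos, Complex.ofReal_sin]

section
variable {H : ℝ} [hH : Fact (0 < H)]

private theorem fba_sum {ω : ℝ} {a : ℤ → Xn H} (ha : VF ω a) :
    (Summable fun n => ‖fv ω a n‖) ∧ Summable fun n => ‖fw ω a n‖ := by
  have hn21 : ∀ n, ‖(a n).2.1‖ ≤ ‖a n‖ := fun n =>
    (norm_fst_le (a n).2).trans (norm_snd_le (a n))
  exact ⟨Summable.of_nonneg_of_le (fun n => norm_nonneg _)
      (fun n => (vel_bounds (ω := ω) ha.o n).2.2.2.1.trans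
        (mul_le_mul_of_nonneg_left (hn21 n) zero_le_two)) (ha.s.mul_left 2),
    Summable.of_nonneg_of_le (fun n => norm_nonneg _)
      (fun n => (vel_bounds (ω := ω) ha.o n).1.trans (hn21 n)) ha.s⟩

private theorem fba_tsum {N : ℕ} (hN : 1 ≤ N) (F : ℤ → ℂ) (hF : ∀ n, sN N n = 0 → F n = 0) :
    ∑' n, F n = F N + F (-(N : ℤ)) := by
  have hne : (N : ℤ) ≠ -(N : ℤ) := by omega
  rw [tsum_eq_sum (s := {(N : ℤ), -(N : ℤ)}), Finset.sum_pair hne]
  intro n hn
  rw [Finset.mem_insert, Finset.mem_singleton, not_or] at hn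
  apply hF
  unfold sN
  rw [if_neg hn.1, if_neg hn.2]

theorem uU_eq {ω : ℝ} (hω : 0 < ω) {N : ℕ} (hN : 1 ≤ N) (a y : ℝ) {z : ℝ} (hz : z ∈ Icc 0 H) :
    uV ω (pu ω N a : ℤ → Xn H) y z = -(a * Real.sin (ω * N * y) * Real.cosh (ω * N * z)) ∧
    uW ω (pu ω N a : ℤ → Xn H) y z = a * Real.cos (ω * N * y) * Real.sinh (ω * N * z) := by
  have hne : ¬ (-(N : ℤ) = (N : ℤ)) := by omega
  have s1 : sN N (N : ℤ) = 1 := by
    unfold sN
    rw [if_pos rfl]
  have s2 : sN N (-(N : ℤ)) = -1 := by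
    unfold sN
    rw [if_neg hne, if_pos rfl]
  have c1 : Real.cos (ω * ((N : ℤ) : ℝ) * y) = Real.cos (ω * N * y) := by push_cast; rfl
  have d1 : Real.sin (ω * ((N : ℤ) : ℝ) * y) = Real.sin (ω * N * y) := by push_cast; rfl
  have c2 : Real.cos (ω * ((-(N : ℤ) : ℤ) : ℝ) * y) = Real.cos (ω * N * y) := by
    have : ω * ((-(N : ℤ) : ℤ) : ℝ) * y = -(ω * N * y) := by push_cast; ring
    rw [this, Real.cos_neg]
  have d2 : Real.sin (ω * ((-(N : ℤ) : ℤ) : ℝ) * y) = -Real.sin (ω * N * y) := by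
    have : ω * ((-(N : ℤ) : ℤ) : ℝ) * y = -(ω * N * y) := by push_cast; ring
    rw [this, Real.sin_neg]
  constructor
  · unfold uV fld
    rw [fba_tsum hN]
    · rw [fv_pu a hω hN _ hz, fv_pu a hω hN _ hz, fba_ee, fba_ee, s1, s2, c1, c2, d1, d2]
      simp only [Complex.add_re, Complex.mul_re, Complex.mul_im, Complex.add_im,
        Complex.ofReal_re, Complex.ofReal_im, Complex.I_re, Complex.I_im]
      ring
    · intro n hn
      rw [fv_pu a hω hN _ hz, hn]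
      simp
  · unfold uW fld
    rw [fba_tsum hN]
    · rw [fw_pu a hω hN _ hz, fw_pu a hω hN _ hz, fba_ee, fba_ee, s1, s2, c1, c2, d1, d2]
      simp only [Complex.add_re, Complex.mul_re, Complex.mul_im, Complex.add_im,
        Complex.ofReal_re, Complex.ofReal_im, Complex.I_re, Complex.I_im]
      ring
    · intro n hn
      rw [fw_pu a hω hN _ hz, hn]
      simp

theorem u_split {ω : ℝ} {N : ℕ} (hω : 0 < ω) (hN : 1 ≤ N) {a : ℝ} {x : L1 (Xn H)}
    (hx : ∀ n : ℤ, Cm (ω * n) (ex (pu ω N a n : Xn H).2.1 0) (x n)) (y : ℝ) {z : ℝ} (hz : z ∈ Icc 0 H) :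
    uV ω (tv ω N a x) y z = uV ω (ov ω x) y z + uV ω (iv x) y z + uV ω (pu ω N a : ℤ → Xn H) y z ∧
    uW ω (tv ω N a x) y z = uW ω (ov ω x) y z + uW ω (iv x) y z + uW ω (pu ω N a : ℤ → Xn H) y z := by
  have _ := hz
  have ho := fba_sum (VF_ov (ω := ω) (x := x))
  have hi := fba_sum (VF_iv hx)
  have hp := fba_sum (H := H) (VF_pu (H := H) (ω := ω) (N := N) a hω hN)
  have e1 : fv ω (tv ω N a x) = fun n => (fv ω (ov ω x) n + fv ω (iv x) n) +
      fv ω (pu ω N a : ℤ → Xn H) n := by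
    funext n
    have h1 := fv_add ω (fun n => ov ω x n + iv x n) (pu ω N a : ℤ → Xn H) n
    have h2 := fv_add ω (ov ω x) (iv x) n
    rw [h2] at h1
    exact h1
  have e2 : fw ω (tv ω N a x) = fun n => (fw ω (ov ω x) n + fw ω (iv x) n) +
      fw ω (pu ω N a : ℤ → Xn H) n := by
    funext n
    have h1 := fw_add ω (fun n => ov ω x n + iv x n) (pu ω N a : ℤ → Xn H) n
    have h2 := fw_add ω (ov ω x) (iv x) n
    rw [h2] at h1
    exact h1
  have sv : Summable fun n => ‖fv ω (ov ω x) n + fv ω (iv x) n‖ :=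
    Summable.of_nonneg_of_le (fun n => norm_nonneg _) (fun n => norm_add_le _ _) (ho.1.add hi.1)
  have sw : Summable fun n => ‖fw ω (ov ω x) n + fw ω (iv x) n‖ :=
    Summable.of_nonneg_of_le (fun n => norm_nonneg _) (fun n => norm_add_le _ _) (ho.2.add hi.2)
  constructor
  · unfold uV
    rw [e1, fld_add sv hp.1, fld_add ho.1 hi.1]
  · unfold uW
    rw [e2, fld_add sw hp.2, fld_add ho.2 hi.2]

theorem uo_le {ω : ℝ} (x : L1 (Xn H)) (y z : ℝ) :
    |uV ω (ov ω x) y z| ≤ 2 * bt ω x ∧ |uW ω (ov ω x) y z| ≤ bt ω x := by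
  have ho := fba_sum (VF_ov (ω := ω) (x := x))
  have hs : Summable fun n : ℤ => ‖Top (ω * n) (x n).1.1‖ :=
    (fun_summable x 0 0 0 0 ω).2.2.2.1
  have hb := fun n => vel_bounds (ω := ω) (VF_ov (ω := ω) (x := x)).o n
  constructor
  · refine (fld_abs_le ho.1 y z).trans ?_
    have h1 : ∀ n : ℤ, ‖fv ω (ov ω x) n‖ ≤ 2 * ‖Top (ω * n) (x n).1.1‖ := fun n => (hb n).2.2.2.1
    refine (ho.1.tsum_le_tsum h1 (hs.mul_left 2)).trans_eq ?_
    rw [tsum_mul_left]
    rfl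
  · refine (fld_abs_le ho.2 y z).trans ?_
    have h1 : ∀ n : ℤ, ‖fw ω (ov ω x) n‖ ≤ ‖Top (ω * n) (x n).1.1‖ := fun n => (hb n).1
    exact ho.2.tsum_le_tsum h1 hs

end

end Pool.Agent.Lib.MP_79abb3_an.FW
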