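import Pool.Agent.Lib.MP_79abb3_an.FW.NormsA

/-!
FW-1c: Agmon inequality and integration by parts.
-/

set_option autoImplicit false
set_option linter.unusedSectionVars false

open MeasureTheory Set Filter Topology Function

namespace Pool.Agent.Lib.MP_79abb3_an.FW

open Pool.Agent.Lib.MP_79abb3_an.P25

private theorem nc_pos {H : ℝ} (hH : 0 < H) {a : ℝ → ℝ} (hc : Continuous a)
    (hne : ∀ z ∈ Icc (0:ℝ) H, a z ≠ 0) (h0 : 0 < a 0) : 0 < ∫ z in (0:ℝ)..H, a z := by
  have hpos : ∀ z ∈ Icc (0:ℝ) H, 0 < a z := by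
    intro z hz
    by_contra hcon
    have hle : a z ≤ 0 := not_lt.1 hcon
    obtain ⟨w, hw, hw0⟩ := intermediate_value_Icc' hz.1 (hc.continuousOn (s := Icc 0 z))
      (show (0:ℝ) ∈ Icc (a z) (a 0) from ⟨hle, h0.le⟩)
    exact hne w ⟨hw.1, hw.2.trans hz.2⟩ hw0
  exact intervalIntegral.intervalIntegral_pos_of_pos_on (hc.intervalIntegrable _ _)
    (fun z hz => hpos z ⟨hz.1.le, hz.2.le⟩) hH

private theorem nc_zero {H : ℝ} (hH : 0 < H) {a : ℝ → ℝ} (hc : Continuous a)
    (h : ∫ z in (0:ℝ)..H, a z = 0) : ∃ z ∈ Icc (0:ℝ) H, a z = 0 := by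
  by_contra hcon
  push Not at hcon
  have h0 : a 0 ≠ 0 := hcon 0 ⟨le_rfl, hH.le⟩
  rcases lt_or_gt_of_ne h0 with h1 | h1
  · have h2 := nc_pos (a := fun z => - a z) hH hc.neg
      (fun z hz => neg_ne_zero.2 (hcon z hz)) (by simpa using h1)
    rw [intervalIntegral.integral_neg, h, neg_zero] at h2
    exact lt_irrefl _ h2
  · have h2 := nc_pos hH hc hcon h1
    rw [h] at h2
    exact lt_irrefl _ h2

private theorem nc_real {H : ℝ} {a a1 : ℝ → ℝ} (hH : 0 < H) (hc : Continuous a)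
    (hc1 : Continuous a1)
    (hd : ∀ z ∈ Icc (0:ℝ) H, HasDerivWithinAt a (a1 z) (Icc 0 H) z) {z0 z : ℝ}
    (hz0 : z0 ∈ Icc (0:ℝ) H) (hz : z ∈ Icc (0:ℝ) H) (h0 : a z0 = 0) :
    a z ^ 2 ≤ 2 * ∫ s in (0:ℝ)..H, |a s| * |a1 s| := by
  have hint : ∫ s in z0..z, 2 * (a s * a1 s) = a z ^ 2 - a z0 ^ 2 := by
    refine intervalIntegral.integral_eq_sub_of_hasDeriv_right (f := fun s => a s ^ 2)
      ((hc.pow 2).continuousOn) ?_ ((continuous_const.mul (hc.mul hc1)).intervalIntegrable _ _)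
    intro x hx
    have hx1 : 0 < x := lt_of_le_of_lt (le_min hz0.1 hz.1) hx.1
    have hx2 : x < H := lt_of_lt_of_le hx.2 (max_le hz0.2 hz.2)
    have h1 := (hd x ⟨hx1.le, hx2.le⟩).hasDerivAt (Icc_mem_nhds hx1 hx2)
    have h2 := h1.pow 2
    refine (h2.congr_deriv ?_).hasDerivWithinAt
    norm_num
    ring
  rw [h0] at hint
  have h3 : a z ^ 2 = |∫ s in z0..z, 2 * (a s * a1 s)| := by
    rw [hint]
    rw [abs_of_nonneg (by nlinarith [sq_nonneg (a z)])]
    ring
  have hcabs : Continuous fun s => |a s| * |a1 s| := hc.abs.mul hc1.abs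
  have h4 : |∫ s in z0..z, 2 * (a s * a1 s)| ≤ |∫ s in z0..z, 2 * (|a s| * |a1 s|)| := by
    have h5 := intervalIntegral.norm_integral_le_abs_integral_norm (μ := volume) (a := z0) (b := z)
      (f := fun s => 2 * (a s * a1 s))
    rw [Real.norm_eq_abs] at h5
    refine h5.trans (le_of_eq ?_)
    congr 1
    refine intervalIntegral.integral_congr fun s _ => ?_
    simp only [Real.norm_eq_abs, abs_mul, abs_two]
  have h6 : |∫ s in z0..z, 2 * (|a s| * |a1 s|)| ≤ |∫ s in (0:ℝ)..H, 2 * (|a s| * |a1 s|)| := by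
    refine intervalIntegral.abs_integral_mono_interval ?_ ?_
      ((continuous_const.mul hcabs).intervalIntegrable _ _)
    · rw [uIoc_of_le hH.le]
      unfold uIoc
      exact Ioc_subset_Ioc (le_min hz0.1 hz.1) (max_le hz0.2 hz.2)
    · exact Eventually.of_forall fun s => by positivity
  have h7 : 0 ≤ ∫ s in (0:ℝ)..H, 2 * (|a s| * |a1 s|) :=
    intervalIntegral.integral_nonneg hH.le fun s _ => by positivity
  rw [abs_of_nonneg h7] at h6
  rw [h3, ← intervalIntegral.integral_const_mul]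
  exact h4.trans h6

section
variable {H : ℝ} [hH : Fact (0 < H)]

private theorem nc_core {f f1 : CI H} (h : IsD f f1) {za zb : ℝ} (hza : za ∈ Icc (0:ℝ) H)
    (hzb : zb ∈ Icc (0:ℝ) H) (ha : (ex f za).re = 0) (hb : (ex f zb).im = 0) :
    ‖f‖ ^ 2 ≤ 2 * n2 f * n2 f1 := by
  have hH0 := hH.out
  have cf := continuous_ex f
  have cf1 := continuous_ex f1
  have ca : Continuous fun z => (ex f z).re := Complex.continuous_re.comp cf
  have cb : Continuous fun z => (ex f z).im := Complex.continuous_im.comp cf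
  have ca1 : Continuous fun z => (ex f1 z).re := Complex.continuous_re.comp cf1
  have cb1 : Continuous fun z => (ex f1 z).im := Complex.continuous_im.comp cf1
  have da : ∀ z ∈ Icc (0:ℝ) H, HasDerivWithinAt (fun z => (ex f z).re) ((ex f1 z).re) (Icc 0 H) z :=
    fun z hz => Complex.reCLM.hasFDerivAt.comp_hasDerivWithinAt z (h z hz)
  have db : ∀ z ∈ Icc (0:ℝ) H, HasDerivWithinAt (fun z => (ex f z).im) ((ex f1 z).im) (Icc 0 H) z :=
    fun z hz => Complex.imCLM.hasFDerivAt.comp_hasDerivWithinAt z (h z hz)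
  have hn1 : n1 (f * f1) ≤ n2 f * n2 f1 := n1_mul_le f f1
  have hn0 : 0 ≤ n1 (f * f1) := n1_nonneg _
  have key : ∀ z ∈ Icc (0:ℝ) H, ‖ex f z‖ ^ 2 ≤ 2 * n1 (f * f1) := by
    intro z hz
    have e1 := nc_real hH0 ca ca1 da hza hz ha
    have e2 := nc_real hH0 cb cb1 db hzb hz hb
    have e3 : ‖ex f z‖ ^ 2 = (ex f z).re ^ 2 + (ex f z).im ^ 2 := by
      rw [Complex.sq_norm, Complex.normSq_apply]
      ring
    have i1 : IntervalIntegrable (fun s => |(ex f s).re| * |(ex f1 s).re|) volume 0 H :=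
      (ca.abs.mul ca1.abs).intervalIntegrable _ _
    have i2 : IntervalIntegrable (fun s => |(ex f s).im| * |(ex f1 s).im|) volume 0 H :=
      (cb.abs.mul cb1.abs).intervalIntegrable _ _
    have e4 : (∫ s in (0:ℝ)..H, |(ex f s).re| * |(ex f1 s).re|)
        + (∫ s in (0:ℝ)..H, |(ex f s).im| * |(ex f1 s).im|) ≤ n1 (f * f1) := by
      rw [← intervalIntegral.integral_add i1 i2]
      unfold n1
      refine intervalIntegral.integral_mono_on hH0.le
        (((ca.abs.mul ca1.abs).add (cb.abs.mul cb1.abs)).intervalIntegrable _ _)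
        ((continuous_ex (f * f1)).norm.intervalIntegrable _ _) fun s _ => ?_
      rw [ex_mul, norm_mul]
      have n0 := norm_nonneg (ex f s)
      have n0' := norm_nonneg (ex f1 s)
      have q1 : ‖ex f s‖ ^ 2 = |(ex f s).re| ^ 2 + |(ex f s).im| ^ 2 := by
        rw [Complex.sq_norm, Complex.normSq_apply, sq_abs, sq_abs]
        ring
      have q2 : ‖ex f1 s‖ ^ 2 = |(ex f1 s).re| ^ 2 + |(ex f1 s).im| ^ 2 := by
        rw [Complex.sq_norm, Complex.normSq_apply, sq_abs, sq_abs]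
        ring
      apply abs_le_of_sq_le_sq' _ (by positivity) |>.2
      rw [mul_pow, q1, q2]
      nlinarith [sq_nonneg (|(ex f s).re| * |(ex f1 s).im| - |(ex f s).im| * |(ex f1 s).re|)]
    rw [e3]
    linarith
  have hB : 0 ≤ 2 * n1 (f * f1) := by linarith
  have h1 : ‖f‖ ≤ √(2 * n1 (f * f1)) :=
    ci_norm_le (Real.sqrt_nonneg _) fun z hz => Real.le_sqrt_of_sq_le (key z hz)
  calc ‖f‖ ^ 2 ≤ (√(2 * n1 (f * f1))) ^ 2 := pow_le_pow_left₀ (norm_nonneg _) h1 2
    _ = 2 * n1 (f * f1) := Real.sq_sqrt hB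
    _ ≤ 2 * n2 f * n2 f1 := by linarith

/-- Sup norm from `L²` norms, for functions with a zero. -/
theorem agmon {f f1 : CI H} (h : IsD f f1) (h0 : ex f 0 = 0) : ‖f‖ ^ 2 ≤ 2 * n2 f * n2 f1 := by
  have hz : (0:ℝ) ∈ Icc (0:ℝ) H := ⟨le_rfl, hH.out.le⟩
  exact nc_core h hz hz (by rw [h0]; rfl) (by rw [h0]; rfl)

/-- The same for functions of mean zero. -/
theorem agmon_mean {f f1 : CI H} (h : IsD f f1) (h0 : ∫ z in (0:ℝ)..H, ex f z = 0) :
    ‖f‖ ^ 2 ≤ 4 * n2 f * n2 f1 := by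
  have cf := continuous_ex f
  have hre : ∫ z in (0:ℝ)..H, (ex f z).re = 0 := by
    have h1 := Complex.reCLM.intervalIntegral_comp_comm (μ := volume)
      (cf.intervalIntegrable (0:ℝ) H)
    rw [h0, map_zero] at h1
    exact h1
  have him : ∫ z in (0:ℝ)..H, (ex f z).im = 0 := by
    have h1 := Complex.imCLM.intervalIntegral_comp_comm (μ := volume)
      (cf.intervalIntegrable (0:ℝ) H)
    rw [h0, map_zero] at h1
    exact h1
  obtain ⟨za, hza, ha⟩ := nc_zero hH.out (Complex.continuous_re.comp cf) hre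
  obtain ⟨zb, hzb, hb⟩ := nc_zero hH.out (Complex.continuous_im.comp cf) him
  have h1 := nc_core h hza hzb ha hb
  have h2 : 0 ≤ n2 f * n2 f1 := mul_nonneg (n2_nonneg _) (n2_nonneg _)
  linarith

theorem bpJ_parts {f f1 g g1 : CI H} (hf : IsD f f1) (hg : IsD g g1) :
    bpJ f1 g = ex f H * ex g H - ex f 0 * ex g 0 - bpJ f g1 := by
  have hH0 := hH.out
  have hint : ∫ z in (0:ℝ)..H, (ex f1 z * ex g z + ex f z * ex g1 z)
      = ex f H * ex g H - ex f 0 * ex g 0 := by
    refine intervalIntegral.integral_eq_sub_of_hasDerivAt_of_le (f := fun z => ex f z * ex g z)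
      hH0.le (((continuous_ex f).mul (continuous_ex g)).continuousOn) ?_
      ((((continuous_ex f1).mul (continuous_ex g)).add
        ((continuous_ex f).mul (continuous_ex g1))).intervalIntegrable _ _)
    intro z hz
    have h1 := (hf z ⟨hz.1.le, hz.2.le⟩).hasDerivAt (Icc_mem_nhds hz.1 hz.2)
    have h2 := (hg z ⟨hz.1.le, hz.2.le⟩).hasDerivAt (Icc_mem_nhds hz.1 hz.2)
    exact h1.mul h2
  rw [intervalIntegral.integral_add (bpJ_int f1 g) (bpJ_int f g1)] at hint
  unfold bpJ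
  linear_combination hint

end

end Pool.Agent.Lib.MP_79abb3_an.FW
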