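import Pool.Agent.Lib.MP_79abb3_an.FW.FlBa
import Pool.Agent.Lib.MP_79abb3_an.FW.NormsB
import Pool.Agent.Lib.MP_79abb3_an.FW.NormsC
import Pool.Agent.Lib.MP_79abb3_an.FW.PhA
import Pool.Agent.Lib.MP_79abb3_an.FW.PhBa

/-!
FW-41b: products with the outer vorticity.
-/

set_option autoImplicit false
set_option linter.unusedSectionVars false

open MeasureTheory Set Filter Topology Function

namespace Pool.Agent.Lib.MP_79abb3_an.FW

open Pool.Agent.Lib.MP_79abb3_an.P25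

/-- Cauchy-Schwarz for sums. -/
private theorem fbb_cs {A B : ℤ → ℝ} (hA : ∀ n, 0 ≤ A n) (hB : ∀ n, 0 ≤ B n)
    (sA : Summable fun n => A n ^ 2) (sB : Summable fun n => B n ^ 2) :
    (Summable fun n => A n * B n) ∧
      ∑' n, A n * B n ≤ √(∑' n, A n ^ 2) * √(∑' n, B n ^ 2) := by
  have hs : Summable fun n => A n * B n := by
    refine Summable.of_nonneg_of_le (fun n => mul_nonneg (hA n) (hB n)) (fun n => ?_) (sA.add sB)
    nlinarith [sq_nonneg (A n - B n), sq_nonneg (A n), sq_nonneg (B n)]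
  refine ⟨hs, ?_⟩
  refine hs.tsum_le_of_sum_le fun s => ?_
  have h1 := Finset.sum_mul_sq_le_sq_mul_sq s A B
  have h2 : ∑ n ∈ s, A n ^ 2 ≤ ∑' n, A n ^ 2 := sA.sum_le_tsum s (fun n _ => sq_nonneg _)
  have h3 : ∑ n ∈ s, B n ^ 2 ≤ ∑' n, B n ^ 2 := sB.sum_le_tsum s (fun n _ => sq_nonneg _)
  have h4 : 0 ≤ ∑' n, A n ^ 2 := tsum_nonneg fun n => sq_nonneg _
  rw [← Real.sqrt_mul h4]
  refine (le_abs_self _).trans (Real.abs_le_sqrt (h1.trans ?_))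
  exact mul_le_mul h2 h3 (Finset.sum_nonneg fun n _ => sq_nonneg _) h4

section
variable {H : ℝ} [hH : Fact (0 < H)]

private theorem fbb_sum {ω : ℝ} {a : ℤ → Xn H} (ha : VF ω a) :
    (Summable fun n => ‖fv ω a n‖) ∧ Summable fun n => ‖fw ω a n‖ := by
  have hn21 : ∀ n, ‖(a n).2.1‖ ≤ ‖a n‖ := fun n =>
    (norm_fst_le (a n).2).trans (norm_snd_le (a n))
  exact ⟨Summable.of_nonneg_of_le (fun n => norm_nonneg _)
      (fun n => (vel_bounds (ω := ω) ha.o n).2.2.2.1.trans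
        (mul_le_mul_of_nonneg_left (hn21 n) zero_le_two)) (ha.s.mul_left 2),
    Summable.of_nonneg_of_le (fun n => norm_nonneg _)
      (fun n => (vel_bounds (ω := ω) ha.o n).1.trans (hn21 n)) ha.s⟩

/-- A majorant of the field depending only on `z`. -/
private theorem fbb_P (ω : ℝ) {f : ℤ → CI H} (hf : Summable fun n => ‖f n‖) : ∃ P : CI H,
    (∀ y, ∀ z ∈ Icc (0:ℝ) H, |fld ω f y z| ≤ ‖ex P z‖) ∧ n2 P ≤ ∑' n, n2 (f n) := by
  have hF : ∀ g : CI H, ‖OpNa_F g‖ ≤ ‖g‖ := fun g => by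
    refine ci_norm_le (norm_nonneg _) fun z hz => ?_
    rw [OpNa_ex_F g hz, Complex.norm_real, Real.norm_eq_abs, abs_of_nonneg (norm_nonneg _)]
    exact norm_ex_le g z
  have hsF : Summable fun n => ‖OpNa_F (f n)‖ :=
    Summable.of_nonneg_of_le (fun n => norm_nonneg _) (fun n => hF (f n)) hf
  have hsF' : Summable fun n => OpNa_F (f n) := hsF.of_norm
  have h2 : ∀ n, n2 (OpNa_F (f n)) = n2 (f n) := fun n => by
    apply le_antisymm
    · refine n2_mono fun z hz => ?_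
      rw [OpNa_ex_F (f n) hz, Complex.norm_real, Real.norm_eq_abs, abs_of_nonneg (norm_nonneg _)]
    · refine n2_mono fun z hz => ?_
      rw [OpNa_ex_F (f n) hz, Complex.norm_real, Real.norm_eq_abs, abs_of_nonneg (norm_nonneg _)]
  refine ⟨∑' n, OpNa_F (f n), fun y z hz => ?_, ?_⟩
  · have e : ex (∑' n, OpNa_F (f n)) z = ((∑' n, ‖ex (f n) z‖ : ℝ) : ℂ) := by
      have h3 := (evL (H := H) z).map_tsum hsF'
      simp only [evL_apply] at h3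
      rw [h3, Complex.ofReal_tsum]
      exact tsum_congr fun n => OpNa_ex_F (f n) hz
    have hs1 : Summable fun n => ‖ex (f n) z‖ :=
      Summable.of_nonneg_of_le (fun n => norm_nonneg _) (fun n => norm_ex_le (f n) z) hf
    have h0 : 0 ≤ ∑' n, ‖ex (f n) z‖ := tsum_nonneg fun n => norm_nonneg _
    rw [e, Complex.norm_real, Real.norm_eq_abs, abs_of_nonneg h0]
    refine (Complex.abs_re_le_norm _).trans ?_
    refine tsum_of_norm_bounded hs1.hasSum fun n => ?_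
    rw [norm_mul, ee_norm, mul_one]
  · refine (n2_tsum_le hsF).trans_eq ?_
    exact tsum_congr h2

theorem uo_prod {ω : ℝ} (hω : ω * H = Real.pi) {N : ℕ} {a : ℝ} {x : L1 (Xn H)}
    (hx : ∀ n : ℤ, Cm (ω * n) (ex (pu ω N a n : Xn H).2.1 0) (x n)) (hs : Sy x) :
    IQ H (fun y z => (uV ω (ov ω x) y z ^ 2 + uW ω (ov ω x) y z ^ 2) * oO ω x y z ^ 2) ≤
      10 * H * bt ω x ^ 2 * th2 x := by
  have _ := hx
  have ho := fbb_sum (VF_ov (ω := ω) (x := x))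
  have s1 : Summable fun n => ‖m1 x n‖ :=
    Summable.of_nonneg_of_le (fun n => norm_nonneg _) (fun n => n11 (x n)) (l1_summable x)
  have cV : C0P H (uV ω (ov ω x)) := fld_C0P hω ho.1
  have cW : C0P H (uW ω (ov ω x)) := fld_C0P hω ho.2
  have cO : C0P H (oO ω x) := fld_C0P hω s1
  have cF := ((cV.pow 2).add (cW.pow 2)).mul (cO.pow 2)
  have cG := (C0P.const (H := H) (5 * bt ω x ^ 2)).mul (cO.pow 2)
  have h1 := IQ_mono cF cG (fun y z _ => by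
    obtain ⟨h2, h3⟩ := uo_le (ω := ω) x y z
    have h4 : uV ω (ov ω x) y z ^ 2 ≤ (2 * bt ω x) ^ 2 := sq_le_sq' (abs_le.1 h2).1 (abs_le.1 h2).2
    have h5 : uW ω (ov ω x) y z ^ 2 ≤ (bt ω x) ^ 2 := sq_le_sq' (abs_le.1 h3).1 (abs_le.1 h3).2
    refine mul_le_mul_of_nonneg_right ?_ (sq_nonneg _)
    linarith)
  refine h1.trans_eq ?_
  rw [IQ_mul]
  have h2 : IQ H (fun y z => oO ω x y z ^ 2) = 2 * H * th2 x := parseval3 hω s1 hs.m1
  rw [h2]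
  ring

theorem ui_prod {ω : ℝ} (hω : ω * H = Real.pi) {N : ℕ} {a : ℝ} {x : L1 (Xn H)}
    (hx : ∀ n : ℤ, Cm (ω * n) (ex (pu ω N a n : Xn H).2.1 0) (x n)) (hs : Sy x) :
    IQ H (fun y z => (uV ω (iv x) y z ^ 2 + uW ω (iv x) y z ^ 2) * oO ω x y z ^ 2) ≤
      20 * H * yy x ^ 2 * √(th2 x) * √(dd2 x) := by
  have hi := VF_iv hx
  have ho := fbb_sum hi
  have hH0 := hH.out
  have fs := fun_summable x 0 0 0 0 ω
  have s1 : Summable fun n => ‖m1 x n‖ :=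
    Summable.of_nonneg_of_le (fun n => norm_nonneg _) (fun n => n11 (x n)) (l1_summable x)
  obtain ⟨P, hP, hP2⟩ := fbb_P ω ho.1
  obtain ⟨Q, hQ, hQ2⟩ := fbb_P ω ho.2
  have hyy : ∑' n, n2 (x n).2.1 = yy x := rfl
  have hyy0 : 0 ≤ yy x := tsum_nonneg fun n => n2_nonneg _
  have hP3 : n2 P ≤ 2 * yy x := by
    refine hP2.trans ?_
    have h1 : ∀ n, n2 (fv ω (iv x) n) ≤ 2 * n2 (x n).2.1 :=
      fun n => (vel_bounds (ω := ω) hi.o n).2.2.2.2.1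
    have h2 := Summable.of_nonneg_of_le (fun n => n2_nonneg _) h1 (fs.1.mul_left 2)
    refine (h2.tsum_le_tsum h1 (fs.1.mul_left 2)).trans_eq ?_
    rw [tsum_mul_left, hyy]
  have hQ3 : n2 Q ≤ yy x := by
    refine hQ2.trans ?_
    have h1 : ∀ n, n2 (fw ω (iv x) n) ≤ n2 (x n).2.1 :=
      fun n => (vel_bounds (ω := ω) hi.o n).2.1
    have h2 := Summable.of_nonneg_of_le (fun n => n2_nonneg _) h1 fs.1
    exact h2.tsum_le_tsum h1 fs.1
  have hPQ : n2 P ^ 2 + n2 Q ^ 2 ≤ 5 * yy x ^ 2 := by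
    have h1 := pow_le_pow_left₀ (n2_nonneg P) hP3 2
    have h2 := pow_le_pow_left₀ (n2_nonneg Q) hQ3 2
    nlinarith
  have cW : Continuous fun z => ‖ex P z‖ ^ 2 + ‖ex Q z‖ ^ 2 :=
    ((continuous_ex P).norm.pow 2).add ((continuous_ex Q).norm.pow 2)
  have cPQ : C0P H (fun _ z => ‖ex P z‖ ^ 2 + ‖ex Q z‖ ^ 2) :=
    ⟨(cW.comp continuous_snd).continuousOn, fun _ _ _ => rfl⟩
  have cO : C0P H (oO ω x) := fld_C0P hω s1
  have cF := (((fld_C0P hω ho.1).pow 2).add ((fld_C0P hω ho.2).pow 2)).mul (cO.pow 2)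
  have cG := cPQ.mul (cO.pow 2)
  have h1 := IQ_mono cF cG (fun y z hz => by
    have h2 := hP y z hz
    have h3 := hQ y z hz
    have h4 : fld ω (fv ω (iv x)) y z ^ 2 ≤ ‖ex P z‖ ^ 2 :=
      sq_le_sq' (abs_le.1 h2).1 (abs_le.1 h2).2
    have h5 : fld ω (fw ω (iv x)) y z ^ 2 ≤ ‖ex Q z‖ ^ 2 :=
      sq_le_sq' (abs_le.1 h3).1 (abs_le.1 h3).2
    exact mul_le_mul_of_nonneg_right (add_le_add h4 h5) (sq_nonneg _))
  refine h1.trans ?_
  have h2 : IQ H (fun y z => (‖ex P z‖ ^ 2 + ‖ex Q z‖ ^ 2) * oO ω x y z ^ 2) =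
      2 * H * ∑' n, ∫ z in (0:ℝ)..H, (‖ex P z‖ ^ 2 + ‖ex Q z‖ ^ 2) * ‖ex (m1 x n) z‖ ^ 2 :=
    parseval2 hω s1 hs.m1 cW
  rw [h2]
  -- one mode
  have hm : ∀ n, ∫ z in (0:ℝ)..H, (‖ex P z‖ ^ 2 + ‖ex Q z‖ ^ 2) * ‖ex (m1 x n) z‖ ^ 2 ≤
      10 * yy x ^ 2 * (n2 (x n).1.1 * n2 (x n).1.2.1) := by
    intro n
    have h3 : ∫ z in (0:ℝ)..H, (‖ex P z‖ ^ 2 + ‖ex Q z‖ ^ 2) * ‖ex (m1 x n) z‖ ^ 2 ≤
        ∫ z in (0:ℝ)..H, (‖ex P z‖ ^ 2 + ‖ex Q z‖ ^ 2) * ‖m1 x n‖ ^ 2 := by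
      apply intervalIntegral.integral_mono_on hH0.le
      · exact (cW.mul ((continuous_ex _).norm.pow 2)).intervalIntegrable _ _
      · exact (cW.mul continuous_const).intervalIntegrable _ _
      · intro z _
        refine mul_le_mul_of_nonneg_left ?_ (by positivity)
        exact pow_le_pow_left₀ (norm_nonneg _) (norm_ex_le _ z) 2
    have h4 : ∫ z in (0:ℝ)..H, (‖ex P z‖ ^ 2 + ‖ex Q z‖ ^ 2) * ‖m1 x n‖ ^ 2 =
        (n2 P ^ 2 + n2 Q ^ 2) * ‖m1 x n‖ ^ 2 := by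
      rw [intervalIntegral.integral_mul_const, intervalIntegral.integral_add, n2_sq, n2_sq]
      · exact ((continuous_ex P).norm.pow 2).intervalIntegrable _ _
      · exact ((continuous_ex Q).norm.pow 2).intervalIntegrable _ _
    have h5 : ‖m1 x n‖ ^ 2 ≤ 2 * n2 (x n).1.1 * n2 (x n).1.2.1 := agmon (hx n).d1 (hx n).z1
    have h6 := mul_le_mul hPQ h5 (sq_nonneg _) (by positivity)
    calc _ ≤ _ := h3
      _ = _ := h4
      _ ≤ _ := h6
      _ = _ := by ring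
  have h0 : ∀ n, 0 ≤ ∫ z in (0:ℝ)..H, (‖ex P z‖ ^ 2 + ‖ex Q z‖ ^ 2) * ‖ex (m1 x n) z‖ ^ 2 :=
    fun n => intervalIntegral.integral_nonneg hH0.le fun z _ => by positivity
  have sdd : (Summable fun n => n2 (x n).1.2.1 ^ 2) ∧ ∑' n, n2 (x n).1.2.1 ^ 2 ≤ dd2 x := by
    have h3 : ∀ n, n2 (x n).1.2.1 ^ 2 ≤ n2 (x n).1.2.1 ^ 2 + n2 (x n).1.2.2 ^ 2 := fun n =>
      le_add_of_nonneg_right (sq_nonneg _)
    have h4 := Summable.of_nonneg_of_le (fun n => sq_nonneg _) h3 fs.2.2.1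
    exact ⟨h4, h4.tsum_le_tsum h3 fs.2.2.1⟩
  have hcs := fbb_cs (fun n => n2_nonneg (x n).1.1) (fun n => n2_nonneg (x n).1.2.1) fs.2.1 sdd.1
  have hb := hcs.1.mul_left (10 * yy x ^ 2)
  have hsm := Summable.of_nonneg_of_le h0 hm hb
  have h3 := hsm.tsum_le_tsum hm hb
  rw [tsum_mul_left] at h3
  have h4 : √(∑' n, n2 (x n).1.2.1 ^ 2) ≤ √(dd2 x) := Real.sqrt_le_sqrt sdd.2
  have h5 : ∑' n, n2 (x n).1.1 * n2 (x n).1.2.1 ≤ √(th2 x) * √(dd2 x) :=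
    hcs.2.trans (mul_le_mul_of_nonneg_left h4 (Real.sqrt_nonneg _))
  have h6 := mul_le_mul_of_nonneg_left h5 (show 0 ≤ 10 * yy x ^ 2 by positivity)
  have h7 := mul_le_mul_of_nonneg_left (h3.trans h6) (show 0 ≤ 2 * H by positivity)
  refine h7.trans_eq ?_
  ring

end

end Pool.Agent.Lib.MP_79abb3_an.FW
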