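import Pool.Agent.Lib.MP_79abb3_an.FW.SumsB

/-!
FW-42a: outer enstrophy above a height.
-/

set_option autoImplicit false
set_option linter.unusedSectionVars false

attribute [-instance] PreLp.ring SubfieldClass.toSubringClass SubringClass.toSubsemiringClass
  NonUnitalSubringClass.toNonUnitalSubsemiringClass RingConeClass.toSubsemiringClass
  SubsemiringClass.nonUnitalSubsemiringClass SubringClass.nonUnitalSubringClass
  AddSubgroup.seminormedAddCommGroup SetLike.GradeZero.instSemiring SetLike.GradeZero.instCommRing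
  SetLike.GradeZero.instCommSemiring SetLike.GradeZero.instRing LieAdmissibleAlgebra.toModule
  RightPreLieAlgebra.toModule LeftPreLieAlgebra.toModule

open MeasureTheory Set Filter Topology Function

namespace Pool.Agent.Lib.MP_79abb3_an.FW

open Pool.Agent.Lib.MP_79abb3_an.P25

section
variable {H : ℝ} [hH : Fact (0 < H)]

/-- Outer enstrophy above height `c`. -/
noncomputable def thc (c : ℝ) (x : ℤ → Xn H) : ℝ := ∑' n, ∫ z in c..H, ‖ex (x n).1.1 z‖ ^ 2

private theorem fca_le (x : L1 (Xn H)) (n : ℤ) : ‖x n‖ ≤ ‖x‖ := by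
  rw [l1_norm]
  exact (l1_summable x).le_tsum n (fun _ _ => norm_nonneg _)

private theorem fca_lip {c : ℝ} (hc : c ∈ Icc 0 H) (u v : Xn H) :
    |(∫ z in c..H, ‖ex u.1.1 z‖ ^ 2) - ∫ z in c..H, ‖ex v.1.1 z‖ ^ 2| ≤
      H * (‖u‖ + ‖v‖) * ‖u - v‖ := by
  have cu := continuous_ex u.1.1
  have cv := continuous_ex v.1.1
  rw [← intervalIntegral.integral_sub (Continuous.intervalIntegrable (by fun_prop) _ _)
    (Continuous.intervalIntegrable (by fun_prop) _ _)]
  have h1 : ‖∫ z in c..H, (‖ex u.1.1 z‖ ^ 2 - ‖ex v.1.1 z‖ ^ 2)‖ ≤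
      ((‖u‖ + ‖v‖) * ‖u - v‖) * |H - c| := by
    refine intervalIntegral.norm_integral_le_of_norm_le_const fun z _ => ?_
    have h2 : ‖ex u.1.1 z‖ ^ 2 - ‖ex v.1.1 z‖ ^ 2 =
        (‖ex u.1.1 z‖ + ‖ex v.1.1 z‖) * (‖ex u.1.1 z‖ - ‖ex v.1.1 z‖) := by ring
    rw [h2, norm_mul, Real.norm_eq_abs, Real.norm_eq_abs]
    have h3 : |‖ex u.1.1 z‖ + ‖ex v.1.1 z‖| ≤ ‖u‖ + ‖v‖ := by
      rw [abs_of_nonneg (by positivity)]
      exact add_le_add ((norm_ex_le _ z).trans (n11 u)) ((norm_ex_le _ z).trans (n11 v))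
    have h4 : |‖ex u.1.1 z‖ - ‖ex v.1.1 z‖| ≤ ‖u - v‖ := by
      refine (abs_norm_sub_norm_le _ _).trans ?_
      rw [← ex_sub]
      exact (norm_ex_le _ z).trans (n11 (u - v))
    exact mul_le_mul h3 h4 (abs_nonneg _) (by positivity)
  rw [Real.norm_eq_abs] at h1
  refine h1.trans ?_
  rw [abs_of_nonneg (by linarith [hc.2])]
  have h5 : H - c ≤ H := by linarith [hc.1]
  calc ((‖u‖ + ‖v‖) * ‖u - v‖) * (H - c) ≤ ((‖u‖ + ‖v‖) * ‖u - v‖) * H :=
        mul_le_mul_of_nonneg_left h5 (by positivity)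
    _ = _ := by ring

private theorem fca_nonneg {c : ℝ} (hc : c ∈ Icc 0 H) (u : Xn H) :
    0 ≤ ∫ z in c..H, ‖ex u.1.1 z‖ ^ 2 :=
  intervalIntegral.integral_nonneg hc.2 fun z _ => by positivity

private theorem fca_n2 {c : ℝ} (hc : c ∈ Icc 0 H) (u : Xn H) :
    ∫ z in c..H, ‖ex u.1.1 z‖ ^ 2 ≤ n2 u.1.1 ^ 2 := by
  rw [n2_sq]
  have cu := continuous_ex u.1.1
  exact intervalIntegral.integral_mono_interval hc.1 hc.2 le_rfl
    (Filter.Eventually.of_forall fun z => by positivity)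
    (Continuous.intervalIntegrable (by fun_prop) _ _)

private theorem fca_sum {c : ℝ} (hc : c ∈ Icc 0 H) (x : L1 (Xn H)) :
    Summable fun n => ∫ z in c..H, ‖ex (x n).1.1 z‖ ^ 2 :=
  Summable.of_nonneg_of_le (fun n => fca_nonneg hc _) (fun n => fca_n2 hc _)
    (fun_summable x 0 0 0 0 0).2.1

theorem thc_facts {c : ℝ} (hc : c ∈ Icc 0 H) : (Continuous fun x : L1 (Xn H) => thc c x) ∧
    ∀ x : L1 (Xn H), 0 ≤ thc c x ∧ thc c x ≤ th2 x ∧
      Summable fun n => ∫ z in c..H, ‖ex (x n).1.1 z‖ ^ 2 := by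
  have hH0 := hH.out.le
  constructor
  · have key : ∀ x y : L1 (Xn H), |thc c x - thc c y| ≤ H * (‖x‖ + ‖y‖) * ‖x - y‖ := by
      intro x y
      unfold thc
      rw [← (fca_sum hc x).tsum_sub (fca_sum hc y)]
      have hs : Summable fun n => H * (‖x‖ + ‖y‖) * ‖(x - y) n‖ :=
        (l1_summable (x - y)).mul_left _
      have hb : ∀ n, ‖(∫ z in c..H, ‖ex (x n).1.1 z‖ ^ 2) - ∫ z in c..H, ‖ex (y n).1.1 z‖ ^ 2‖ ≤
          H * (‖x‖ + ‖y‖) * ‖(x - y) n‖ := by
        intro n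
        rw [Real.norm_eq_abs]
        refine (fca_lip hc (x n) (y n)).trans ?_
        have h2 := fca_le x n
        have h3 := fca_le y n
        have h4 : (x - y) n = x n - y n := rfl
        rw [h4]
        gcongr
      have h1 := tsum_of_norm_bounded hs.hasSum hb
      rw [Real.norm_eq_abs] at h1
      refine h1.trans (le_of_eq ?_)
      rw [tsum_mul_left, ← l1_norm]
    rw [continuous_iff_continuousAt]
    intro y
    rw [ContinuousAt, tendsto_iff_norm_sub_tendsto_zero]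
    have hlim : Tendsto (fun x : L1 (Xn H) => H * (‖x‖ + ‖y‖) * ‖x - y‖) (𝓝 y) (𝓝 0) := by
      have hc : Continuous (fun x : L1 (Xn H) => H * (‖x‖ + ‖y‖) * ‖x - y‖) := by fun_prop
      have := hc.tendsto y
      simpa using this
    exact squeeze_zero (fun x => norm_nonneg _) (fun x => key x y) hlim
  · intro x
    refine ⟨tsum_nonneg fun n => fca_nonneg hc _, ?_, fca_sum hc x⟩
    exact (fca_sum hc x).tsum_le_tsum (fun n => fca_n2 hc _) (fun_summable x 0 0 0 0 0).2.1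

end

end Pool.Agent.Lib.MP_79abb3_an.FW
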