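import Pool.Agent.Lib.MP_79abb3_an.FW.FlAb
import Pool.Agent.Lib.MP_79abb3_an.FW.FlBb
import Pool.Agent.Lib.MP_79abb3_an.FW.FlCa
import Pool.Agent.Lib.MP_79abb3_an.FW.PhF

/-!
FW-42b: the Lyapunov functional along the flow (section 4 of paper 196), static part.
-/

set_option autoImplicit false
set_option linter.unusedSectionVars false

open MeasureTheory Set Filter Topology Function

namespace Pool.Agent.Lib.MP_79abb3_an.FW

open Pool.Agent.Lib.MP_79abb3_an.P25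

section
variable {H : ℝ} [hH : Fact (0 < H)]

private theorem fc_cont {F : ℝ → ℝ → ℝ} (hF : C0P H F) : ∃ Φ : ℝ → ℝ, Continuous Φ ∧
    ∀ z ∈ Icc 0 H, Φ z = ∫ y in (-H)..H, F y z := by
  have hH0 := hH.out.le
  have hcl : ∀ z : ℝ, max 0 (min z H) ∈ Icc 0 H := fun z =>
    ⟨le_max_left _ _, max_le hH0 (min_le_right _ _)⟩
  refine ⟨fun z => ∫ y in (-H)..H, F y (max 0 (min z H)), ?_, ?_⟩
  · have h1 : Continuous (uncurry fun z y : ℝ => F y (max 0 (min z H))) := by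
      have h2 : Continuous fun p : ℝ × ℝ => (p.2, max 0 (min p.1 H)) := by fun_prop
      exact hF.c.comp_continuous h2 fun p => ⟨mem_univ _, hcl _⟩
    exact intervalIntegral.continuous_parametric_intervalIntegral_of_continuous' h1 _ _
  · intro z hz
    simp only
    rw [min_eq_left hz.2, max_eq_right hz.1]

private theorem fc_in {F : ℝ → ℝ → ℝ} (hF : C0P H F) {z : ℝ} (hz : z ∈ Icc 0 H) (a b : ℝ) :
    IntervalIntegrable (fun y => F y z) volume a b := by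
  have h2 : Continuous fun y : ℝ => (y, z) := by fun_prop
  have h3 : Continuous fun y : ℝ => F y z := hF.c.comp_continuous h2 fun p => ⟨mem_univ _, hz⟩
  exact h3.intervalIntegrable _ _

private theorem fc_low {ω : ℝ} (hω : ω * H = Real.pi) {x : L1 (Xn H)} (hs : Sy (m1 x)) {c : ℝ}
    (hc : c ∈ Icc 0 H) {K : ℝ} {F : ℝ → ℝ → ℝ} (hF : C0P H F)
    (hF0 : ∀ y, ∀ z ∈ Icc 0 H, 0 ≤ F y z) (hO : C0P H (oO ω x))
    (hK : ∀ y, ∀ z ∈ Icc c H, K * oO ω x y z ^ 2 ≤ F y z) : K * (2 * H * thc c x) ≤ IQ H F := by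
  have hH0 := hH.out.le
  obtain ⟨Φ, cΦ, hΦ⟩ := fc_cont hF
  have hΦ0 : ∀ z ∈ Icc 0 H, 0 ≤ Φ z := by
    intro z hz
    rw [hΦ z hz]
    exact intervalIntegral.integral_nonneg (by linarith) fun y _ => hF0 y z hz
  have hsum : Summable fun n => ‖m1 x n‖ :=
    Summable.of_nonneg_of_le (fun n => norm_nonneg _) (fun n => n11 (x n)) (l1_summable x)
  have h1 : IQ H F = (∫ z in (0:ℝ)..c, Φ z) + ∫ z in c..H, Φ z := by
    rw [intervalIntegral.integral_add_adjacent_intervals (cΦ.intervalIntegrable _ _)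
      (cΦ.intervalIntegrable _ _)]
    unfold IQ
    refine intervalIntegral.integral_congr fun z hz => ?_
    rw [uIcc_of_le hH0] at hz
    exact (hΦ z hz).symm
  have h2 : 0 ≤ ∫ z in (0:ℝ)..c, Φ z :=
    intervalIntegral.integral_nonneg hc.1 fun z hz => hΦ0 z ⟨hz.1, hz.2.trans hc.2⟩
  -- interchange
  let f : ℤ → C(ℝ, ℝ) := fun n => ⟨fun z => ‖ex (m1 x n) z‖ ^ 2, (continuous_ex _).norm.pow 2⟩
  have hfs : Summable fun n => ‖m1 x n‖ ^ 2 := by
    refine Summable.of_nonneg_of_le (fun n => by positivity) (fun n => ?_)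
      (hsum.mul_left (∑' m, ‖m1 x m‖))
    rw [sq]
    exact mul_le_mul_of_nonneg_right (hsum.le_tsum n (fun _ _ => norm_nonneg _)) (norm_nonneg _)
  have hfb : ∀ n z, ‖f n z‖ ≤ ‖m1 x n‖ ^ 2 := by
    intro n z
    show ‖‖ex (m1 x n) z‖ ^ 2‖ ≤ _
    rw [Real.norm_eq_abs, abs_of_nonneg (by positivity)]
    exact pow_le_pow_left₀ (norm_nonneg _) (norm_ex_le _ _) 2
  have hcont : Continuous fun z => ∑' n, f n z :=
    continuous_tsum (fun n => (f n).continuous) hfs hfb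
  have hint : ∑' n, ∫ z in c..H, f n z = ∫ z in c..H, ∑' n, f n z := by
    refine intervalIntegral.tsum_intervalIntegral_eq_of_summable_norm ?_
    refine Summable.of_nonneg_of_le (fun n => norm_nonneg _) (fun n => ?_) hfs
    rw [ContinuousMap.norm_le _ (by positivity)]
    intro z
    exact hfb n z
  have h3 : K * (2 * H * thc c x) = ∫ z in c..H, K * (2 * H * ∑' n, f n z) := by
    rw [intervalIntegral.integral_const_mul, intervalIntegral.integral_const_mul, ← hint]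
    rfl
  have h4 : ∫ z in c..H, K * (2 * H * ∑' n, f n z) ≤ ∫ z in c..H, Φ z := by
    refine intervalIntegral.integral_mono_on hc.2 ?_ (cΦ.intervalIntegrable _ _) ?_
    · exact (continuous_const.mul (continuous_const.mul hcont)).intervalIntegrable _ _
    · intro z hz
      have hz' : z ∈ Icc 0 H := ⟨hc.1.trans hz.1, hz.2⟩
      have h5 : ∫ y in (-H)..H, fld ω (m1 x) y z ^ 2 = 2 * H * ∑' n, ‖ex (m1 x n) z‖ ^ 2 :=
        parseval hω hsum hs z
      have h6 : 2 * H * ∑' n, f n z = ∫ y in (-H)..H, oO ω x y z ^ 2 := h5.symm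
      rw [h6, hΦ z hz', ← intervalIntegral.integral_const_mul]
      refine intervalIntegral.integral_mono_on (by linarith) ?_ (fc_in hF hz' _ _) ?_
      · exact (fc_in (hO.pow 2) hz' _ _).const_mul K
      · intro y _
        exact hK y z hz
  linarith

private theorem fc_rho {ω : ℝ} (hω : ω * H = Real.pi) {N : ℕ} (μ : ℝ) :
    C0P H (rho (ω * N) μ) := by
  refine ⟨(rho_cont _ _).continuousOn, fun y z _ => ?_⟩
  have h1 : ω * N * (y + 2 * H) = ω * N * y + N * (2 * Real.pi) := by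
    rw [← hω]
    ring
  unfold rho ph
  rw [h1, Real.cos_add_nat_mul_two_pi, Real.sin_add_nat_mul_two_pi]

private theorem fc_alg {V W v w u1 u2 gy gz gyy gzz a μ r : ℝ} (hμ : 0 ≤ μ) (hma : μ ≤ a / 2)
    (hr : 0 ≤ r) (h2 : gy ^ 2 + gz ^ 2 ≤ μ ^ 2 * r)
    (h3 : gyy + gzz + u1 * gy + u2 * gz ≤ -(a * μ - μ ^ 2) * r) :
    gyy + gzz + (V + v + u1) * gy + (W + w + u2) * gz ≤
      -(1 / 4 * (a * μ * r)) + (V ^ 2 + W ^ 2) + (v ^ 2 + w ^ 2) := by
  have e1 : (V + v) * gy ≤ V ^ 2 + v ^ 2 + gy ^ 2 / 2 := by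
    nlinarith [sq_nonneg (V + v - gy), sq_nonneg (V - v)]
  have e2 : (W + w) * gz ≤ W ^ 2 + w ^ 2 + gz ^ 2 / 2 := by
    nlinarith [sq_nonneg (W + w - gz), sq_nonneg (W - w)]
  have e3 : μ ^ 2 * r ≤ (a / 2 * μ) * r := by
    apply mul_le_mul_of_nonneg_right _ hr
    rw [sq]
    exact mul_le_mul_of_nonneg_right hma hμ
  nlinarith

theorem flush_pt {ω : ℝ} (hω : ω * H = Real.pi) {N : ℕ} (hN : 1 ≤ N) (hm : 1 ≤ ω * N)
    (hmu : muu (ω * N) ≤ A0 (ω * N) / 2) (hz : 2 / √(ω * N) ≤ H) {x : L1 (Xn H)}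
    (hx : ∀ n : ℤ, Cm (ω * n) (ex (pu ω N (A0 (ω * N)) n : Xn H).2.1 0) (x n)) (hs : Sy x)
    {gy gz gyy gzz : ℝ → ℝ → ℝ} (hg : W2P H (GG (ω * N) (muu (ω * N))) gy gz gyy gzz)
    (h1 : ∀ y z, |gy y z| ≤ muu (ω * N) * Real.cosh (ω * N * z) ∧
      |gz y z| ≤ muu (ω * N) * Real.cosh (ω * N * z))
    (h2 : ∀ y z, gy y z ^ 2 + gz y z ^ 2 ≤ muu (ω * N) ^ 2 * rho (ω * N) (muu (ω * N)) y z)
    (h3 : ∀ a y z, gyy y z + gzz y z + (-(a * Real.sin (ω * N * y) * Real.cosh (ω * N * z))) * gy y z +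
        a * Real.cos (ω * N * y) * Real.sinh (ω * N * z) * gz y z ≤
          -(a * muu (ω * N) - muu (ω * N) ^ 2) * rho (ω * N) (muu (ω * N)) y z) :
    IQ H (fun y z => (gyy y z + gzz y z + uV ω (tv ω N (A0 (ω * N)) x) y z * gy y z +
          uW ω (tv ω N (A0 (ω * N)) x) y z * gz y z) * oO ω x y z ^ 2) -
        2 * IQ H (fun y z => GG (ω * N) (muu (ω * N)) y z * (oOy ω x y z ^ 2 + oOz ω x y z ^ 2)) +
        2 * IQ H (fun y z => fld ω (trf ω N (A0 (ω * N)) x) y z *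
          (GG (ω * N) (muu (ω * N)) y z * oO ω x y z)) ≤
      -(2 * H * (ω * N) ^ 2 * Real.exp √(ω * N) * thc (2 / √(ω * N)) x) + 10 * H * bt ω x ^ 2 * th2 x +
        20 * H * yy x ^ 2 * √(th2 x) * √(dd2 x) + 8 * H * (5 * √(K1 (ω * N) (A0 (ω * N)) x) * √(dd2 x) +
          √(K2 (ω * N) (muu (ω * N)) (A0 (ω * N)) x) * √(th2 x)) := by
  have hH0 := hH.out
  have hω0 : 0 < ω := by
    have := Real.pi_pos
    rw [← hω] at this
    exact (mul_pos_iff_of_pos_right hH0).1 this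
  have hm0 : 0 < ω * N := by linarith
  have hμ0 : 0 ≤ muu (ω * N) := by unfold muu; positivity
  have ha0 : 0 ≤ A0 (ω * N) := by unfold A0; positivity
  have hr0 : ∀ y z, 0 ≤ rho (ω * N) (muu (ω * N)) y z := fun y z => by unfold rho; positivity
  have hG0 : ∀ y z, 0 ≤ GG (ω * N) (muu (ω * N)) y z ∧ GG (ω * N) (muu (ω * N)) y z ≤ 5 := by
    intro y z
    unfold GG
    have e1 := Real.arctan_lt_pi_div_two (muu (ω * N) * ph (ω * N) y z)
    have e2 := Real.neg_pi_div_two_lt_arctan (muu (ω * N) * ph (ω * N) y z)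
    have e3 := Real.pi_pos
    have e4 := Real.pi_lt_d2
    constructor <;> linarith
  obtain ⟨hOC, -, -⟩ := oO_C1P hω hx
  obtain ⟨_, _, _, _, hTv, hTw, -⟩ := u_C1P hω (VF_tv hω0 hN hx)
  obtain ⟨_, _, _, _, hov, how, -⟩ := u_C1P (H := H) hω (VF_ov (ω := ω) (x := x))
  obtain ⟨_, _, _, _, hiv, hiw, -⟩ := u_C1P hω (VF_iv hx)
  have hO := hOC.c
  have hOy := hOC.cy
  have hOz := hOC.cz
  have hρ := fc_rho (H := H) hω (N := N) (muu (ω * N))
  have hsy := (sy_fields (ω := ω) (N := N) (a := A0 (ω * N)) hs hN).1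
  have hρO : C0P H (fun y z => 1 / 4 * (A0 (ω * N) * muu (ω * N) * rho (ω * N) (muu (ω * N)) y z) *
      oO ω x y z ^ 2) :=
    ((C0P.const (1 / 4)).mul ((C0P.const (A0 (ω * N) * muu (ω * N))).mul hρ)).mul (hO.pow 2)
  have hovO : C0P H (fun y z => (uV ω (ov ω x) y z ^ 2 + uW ω (ov ω x) y z ^ 2) * oO ω x y z ^ 2) :=
    ((hov.c.pow 2).add (how.c.pow 2)).mul (hO.pow 2)
  have hivO : C0P H (fun y z => (uV ω (iv x) y z ^ 2 + uW ω (iv x) y z ^ 2) * oO ω x y z ^ 2) :=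
    ((hiv.c.pow 2).add (hiw.c.pow 2)).mul (hO.pow 2)
  have hF1 : C0P H (fun y z => (gyy y z + gzz y z + uV ω (tv ω N (A0 (ω * N)) x) y z * gy y z +
      uW ω (tv ω N (A0 (ω * N)) x) y z * gz y z) * oO ω x y z ^ 2) :=
    (((hg.cyy.add hg.czz).add (hTv.c.mul hg.g1.cy)).add (hTw.c.mul hg.g1.cz)).mul (hO.pow 2)
  -- first term
  have t1 : IQ H (fun y z => (gyy y z + gzz y z + uV ω (tv ω N (A0 (ω * N)) x) y z * gy y z +
      uW ω (tv ω N (A0 (ω * N)) x) y z * gz y z) * oO ω x y z ^ 2) ≤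
      -(2 * H * (ω * N) ^ 2 * Real.exp √(ω * N) * thc (2 / √(ω * N)) x) +
        10 * H * bt ω x ^ 2 * th2 x + 20 * H * yy x ^ 2 * √(th2 x) * √(dd2 x) := by
    have e1 : IQ H (fun y z => (gyy y z + gzz y z + uV ω (tv ω N (A0 (ω * N)) x) y z * gy y z +
        uW ω (tv ω N (A0 (ω * N)) x) y z * gz y z) * oO ω x y z ^ 2) ≤
        IQ H (fun y z => ((uV ω (ov ω x) y z ^ 2 + uW ω (ov ω x) y z ^ 2) * oO ω x y z ^ 2 +
          (uV ω (iv x) y z ^ 2 + uW ω (iv x) y z ^ 2) * oO ω x y z ^ 2) -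
          1 / 4 * (A0 (ω * N) * muu (ω * N) * rho (ω * N) (muu (ω * N)) y z) *
            oO ω x y z ^ 2) := by
      refine IQ_mono hF1 ((hovO.add hivO).sub hρO) fun y z hz' => ?_
      obtain ⟨s1, s2⟩ := u_split hω0 hN hx y hz'
      obtain ⟨p1, p2⟩ := uU_eq (H := H) hω0 hN (A0 (ω * N)) y hz'
      rw [s1, s2, p1, p2]
      have e2 := fc_alg (V := uV ω (ov ω x) y z) (W := uW ω (ov ω x) y z) (v := uV ω (iv x) y z)
        (w := uW ω (iv x) y z) hμ0 hmu (hr0 y z) (h2 y z) (h3 (A0 (ω * N)) y z)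
      have e3 := mul_le_mul_of_nonneg_right e2 (sq_nonneg (oO ω x y z))
      refine e3.trans (le_of_eq ?_)
      ring
    rw [IQ_sub (hovO.add hivO) hρO, IQ_add hovO hivO] at e1
    have e4 := uo_prod hω hx hs
    have e5 := ui_prod hω hx hs
    have e6 : (ω * N) ^ 2 * Real.exp √(ω * N) * (2 * H * thc (2 / √(ω * N)) x) ≤
        IQ H (fun y z => 1 / 4 * (A0 (ω * N) * muu (ω * N) * rho (ω * N) (muu (ω * N)) y z) *
            oO ω x y z ^ 2) := by
      refine fc_low hω hsy ⟨by positivity, hz⟩ hρO (fun y z _ => ?_) hO fun y z hz' => ?_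
      · have := hr0 y z
        positivity
      · apply mul_le_mul_of_nonneg_right _ (sq_nonneg _)
        have e7 := rho_low hm y hz'.1
        linarith
    linarith
  -- second term
  have t2 : 0 ≤ IQ H (fun y z => GG (ω * N) (muu (ω * N)) y z * (oOy ω x y z ^ 2 + oOz ω x y z ^ 2)) := by
    have hF2 : C0P H (fun y z => GG (ω * N) (muu (ω * N)) y z * (oOy ω x y z ^ 2 + oOz ω x y z ^ 2)) :=
      hg.g1.c.mul ((hOy.pow 2).add (hOz.pow 2))
    have e1 := IQ_mono (C0P.const 0) hF2 fun y z _ =>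
      mul_nonneg (hG0 y z).1 (by positivity : 0 ≤ oOy ω x y z ^ 2 + oOz ω x y z ^ 2)
    have e2 : IQ H (fun _ _ => (0:ℝ)) = 0 := by
      unfold IQ
      simp
    rwa [e2] at e1
  -- third term
  have t3 := (abs_le.1 (tr_bound hω hx hs hg.g1 (c := 5)
    (fun y z _ => abs_le.2 ⟨by linarith [(hG0 y z).1], (hG0 y z).2⟩)
    (β := fun z => muu (ω * N) * Real.cosh (ω * N * z)) (by fun_prop) fun y z _ => h1 y z)).2
  have hK2 : (∑' n, n2 (rc (fun z => muu (ω * N) * Real.cosh (ω * N * z)) (by fun_prop) *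
      (kap (ω * N) (A0 (ω * N)) * (x n).2.1)) ^ 2) = K2 (ω * N) (muu (ω * N)) (A0 (ω * N)) x := by
    unfold K2
    refine tsum_congr fun n => ?_
    congr 2
    rw [← mul_assoc]
    congr 1
    refine ci_ext fun z hz' => ?_
    rw [ex_mul, ex_rc _ _ hz', ex_rc _ _ hz', kap, ex_rc _ _ hz']
    push_cast
    ring
  rw [hK2] at t3
  linarith

end

end Pool.Agent.Lib.MP_79abb3_an.FW
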