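import Pool.Agent.Lib.MP_79abb3_an.FW.FlC
import Pool.Agent.Lib.MP_79abb3_an.FW.ApA
import Pool.Agent.Lib.MP_79abb3_an.FW.KapB

/-!
FW-43: the flush.
-/

set_option autoImplicit false
set_option linter.unusedSectionVars false

open MeasureTheory Set Filter Topology Function

namespace Pool.Agent.Lib.MP_79abb3_an.FW

open Pool.Agent.Lib.MP_79abb3_an.P25

section
variable {H : ℝ} [hH : Fact (0 < H)]

private theorem th2_nn (x : ℤ → Xn H) : 0 ≤ th2 x := tsum_nonneg fun _ => sq_nonneg _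
private theorem dd2_nn (x : ℤ → Xn H) : 0 ≤ dd2 x :=
  tsum_nonneg fun _ => add_nonneg (sq_nonneg _) (sq_nonneg _)
private theorem yy_nn (x : ℤ → Xn H) : 0 ≤ yy x := tsum_nonneg fun _ => n2_nonneg _
private theorem bt_nn (ω : ℝ) (x : ℤ → Xn H) : 0 ≤ bt ω x := tsum_nonneg fun _ => norm_nonneg _

private theorem sq_le_one_add_pow8 (u : ℝ) : u ^ 2 ≤ 1 + u ^ 8 := by
  nlinarith [sq_nonneg (u ^ 2 - 1), sq_nonneg (u ^ 4 - 1), sq_nonneg (u ^ 4), sq_nonneg (u ^ 2)]

private theorem sqrt_le_one_add {u : ℝ} (hu : 0 ≤ u) : √u ≤ 1 + u := by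
  nlinarith [Real.sq_sqrt hu, sq_nonneg (√u - 1), Real.sqrt_nonneg u]

/-- The bound of the error terms. -/
private theorem err_le {H B C b2 t2 y k1 k2 d2 : ℝ} (hH : 0 ≤ H) (ht : t2 ≤ B) (hB : 0 ≤ B)
    (hy0 : 0 ≤ y) (hy : y ≤ 1) (hk1 : k1 ≤ C) (hk2 : k2 ≤ C) (hd : 0 ≤ d2) :
    10 * H * b2 ^ 2 * t2 + 20 * H * y ^ 2 * √t2 * √d2 + 8 * H * (5 * √k1 * √d2 + √k2 * √t2) ≤
      10 * H * B * (1 + b2 ^ 8) + (20 * H * √B + 40 * H * √C) * (1 + d2) + 8 * H * (√C * √B) := by
  have h1 : √t2 ≤ √B := Real.sqrt_le_sqrt ht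
  have h2 : √k1 ≤ √C := Real.sqrt_le_sqrt hk1
  have h3 : √k2 ≤ √C := Real.sqrt_le_sqrt hk2
  have h4 := sqrt_le_one_add hd
  have h5 := sq_le_one_add_pow8 b2
  have e1 : 10 * H * b2 ^ 2 * t2 ≤ 10 * H * B * (1 + b2 ^ 8) := by
    calc 10 * H * b2 ^ 2 * t2 ≤ 10 * H * b2 ^ 2 * B := by gcongr
      _ = 10 * H * B * b2 ^ 2 := by ring
      _ ≤ 10 * H * B * (1 + b2 ^ 8) := by gcongr
  have e2 : 20 * H * y ^ 2 * √t2 * √d2 ≤ 20 * H * √B * (1 + d2) := by
    have hy2 : y ^ 2 ≤ 1 := by nlinarith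
    calc 20 * H * y ^ 2 * √t2 * √d2 ≤ 20 * H * 1 * √B * (1 + d2) := by gcongr
      _ = 20 * H * √B * (1 + d2) := by ring
  have e3 : 8 * H * (5 * √k1 * √d2 + √k2 * √t2) ≤ 40 * H * √C * (1 + d2) + 8 * H * (√C * √B) := by
    calc 8 * H * (5 * √k1 * √d2 + √k2 * √t2) ≤ 8 * H * (5 * √C * (1 + d2) + √C * √B) := by gcongr
      _ = _ := by ring
  linarith

theorem flush {ω : ℝ} (hω : ω * H = Real.pi) {Θ C : ℝ} (hC : 1 ≤ C) : ∃ C2, 0 ≤ C2 ∧ ∃ m0, 1 ≤ m0 ∧ ∀ {N : ℕ},
    1 ≤ N → m0 ≤ ω * N → ∀ {A A1 : ℝ → ℝ} {b : ℝ} {x : ℝ → L1 (Xn H)},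
    1 / (16 * (ω * N) ^ 2) ≤ b → b ≤ 1 → CS ω N A A1 0 b x → AB ω N Θ C b A x →
    (∀ t ∈ Icc (1 / (32 * (ω * N) ^ 2)) (1 / (16 * (ω * N) ^ 2)), A t = A0 (ω * N)) →
    ∃ t1 ∈ Icc (1 / (32 * (ω * N) ^ 2)) (1 / (16 * (ω * N) ^ 2)),
      thc (2 / √(ω * N)) (x t1) ≤ C2 * Real.exp (-√(ω * N)) := by
  have hHp : 0 < H := hH.out
  have hωp : 0 < ω := by
    by_contra hcon
    push Not at hcon
    have := mul_nonpos_of_nonpos_of_nonneg hcon hHp.le
    linarith [Real.pi_pos]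
  set B : ℝ := Θ ^ 2 + 1 with hBdef
  have hB : 0 < B := by positivity
  set C3 : ℝ := 3 * Real.pi * H * B + (10 * H * B * (1 + C) + (20 * H * √B + 40 * H * √C) * (1 + B) +
    8 * H * (√C * √B)) with hC3
  have hC3p : 0 ≤ C3 := by positivity
  obtain ⟨m0, hm0, hpar⟩ := par_lim 1 (show 0 < √(2 * H) by positivity)
  refine ⟨16 * C3 / H, by positivity, m0, hm0, ?_⟩
  intro N hN hm A A1 b x hb hb1 hCS hAB hA
  obtain ⟨-, -, hmu, -, -, -, hsq⟩ := hpar _ hm
  generalize hmdef : ω * (N:ℝ) = m at *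
  have hm1 : 1 ≤ m := hm0.trans hm
  have hmp : 0 < m := by linarith
  have hsm : 0 < √m := Real.sqrt_pos.2 hmp
  have hz : 2 / √m ≤ H := by
    rw [one_mul] at hsq
    have h1 := Real.sqrt_le_sqrt_iff (by positivity : (0:ℝ) ≤ 2 * H) |>.1 hsq
    have h2 : 4 / √m = 2 * (2 / √m) := by ring
    linarith
  have hmuu : 0 < muu m := by unfold muu; positivity
  obtain ⟨gy, gz, gyy, gzz, hg, hgb, h1, h2, h3⟩ := GG_weight (H := H) hmp hω hmdef.symm hmuu
  set T : ℝ := 1 / (16 * m ^ 2) with hT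
  set T2 : ℝ := 1 / (32 * m ^ 2) with hT2
  have hTT : T = 2 * T2 := by
    rw [hT, hT2]; field_simp; norm_num
  have hT2p : 0 < T2 := by positivity
  have hTp : T2 ≤ T := by linarith
  have hsub : Icc T2 T ⊆ Icc 0 b := Icc_subset_Icc hT2p.le hb
  have hb0 : 0 ≤ b := by linarith
  have hfun : (fun y z : ℝ => (0:ℝ)) = fun _ _ => 0 := rfl
  -- the Lyapunov functional
  set e : ℝ → ℝ := fun t => IQ H (fun y z => GG m (muu m) y z * oO ω (x t) y z ^ 2) with he
  have hN' : ω * (N:ℝ) = m := hmdef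
  subst hmdef
  have hder := enst_id hω hN hCS hg
  have hcx : ContinuousOn x (Icc T2 T) := hCS.c.mono hsub
  have cthc : ContinuousOn (fun t => thc (2 / √(ω * N)) (x t)) (Icc T2 T) :=
    Continuous.comp_continuousOn (g := fun y : L1 (Xn H) => thc (2 / √(ω * N)) y) (f := x)
      (thc_facts (H := H) ⟨by positivity, hz⟩).1 hcx
  have hthc0 : ∀ t, 0 ≤ thc (2 / √(ω * N)) (x t) := fun t =>
    ((thc_facts (H := H) ⟨by positivity, hz⟩).2 (x t)).1
  -- pointwise bound of the derivative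
  set R : ℝ → ℝ := fun t => 10 * H * B * (1 + bt ω (x t) ^ 8) + (20 * H * √B + 40 * H * √C) *
    (1 + dd2 (x t)) + 8 * H * (√C * √B) with hR
  have cR : ContinuousOn R (Icc 0 b) := by
    have c1 : ContinuousOn (fun t => bt ω (x t)) (Icc 0 b) := Continuous.comp_continuousOn (g := fun y : L1 (Xn H) => bt ω y) (f := x)
      (bt_cont ω) hCS.c
    have c2 : ContinuousOn (fun t => dd2 (x t)) (Icc 0 b) := Continuous.comp_continuousOn (g := fun y : L1 (Xn H) => dd2 y) (f := x)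
      dd2_cont hCS.c
    exact ((continuousOn_const.mul (continuousOn_const.add (c1.pow 8))).add
      (continuousOn_const.mul (continuousOn_const.add c2))).add continuousOn_const
  have hR0 : ∀ t, 0 ≤ R t := by
    intro t
    have h4 := dd2_nn (x t)
    simp only [hR]
    positivity
  have hdd : ∀ t ∈ Icc 0 b, 0 ≤ ∫ s in (0:ℝ)..t, dd2 (x s) := fun t ht =>
    intervalIntegral.integral_nonneg ht.1 fun s _ => dd2_nn _
  have hth : ∀ t ∈ Icc 0 b, th2 (x t) ≤ B := by
    intro t ht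
    have := hAB.th t ht
    have := hdd t ht
    linarith
  have hexp1 : C * Real.exp (-√(ω * N)) ≤ C := by
    have : Real.exp (-√(ω * N)) ≤ 1 := Real.exp_le_one_iff.2 (neg_nonpos.2 hsm.le)
    exact mul_le_of_le_one_right (zero_le_one.trans hC) this
  set K : ℝ := 2 * H * (ω * N) ^ 2 * Real.exp √(ω * N) with hK
  have hKp : 0 < K := by positivity
  have hpt : ∀ t ∈ Icc T2 T, (IQ H (fun y z => (gyy y z + gzz y z +
          uV ω (tv ω N (A t) (x t)) y z * gy y z +
          uW ω (tv ω N (A t) (x t)) y z * gz y z) * oO ω (x t) y z ^ 2) -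
        2 * IQ H (fun y z => GG (ω * N) (muu (ω * N)) y z * (oOy ω (x t) y z ^ 2 +
          oOz ω (x t) y z ^ 2)) +
        2 * IQ H (fun y z => fld ω (trf ω N (A t) (x t)) y z *
          (GG (ω * N) (muu (ω * N)) y z * oO ω (x t) y z))) ≤
      R t - K * thc (2 / √(ω * N)) (x t) := by
    intro t ht
    have ht0 := hsub ht
    have hcm := hCS.cm t ht0
    have k1 := hAB.k1 t ht0
    have k2 := hAB.k2 t ht0
    rw [hA t ht] at hcm k1 k2 ⊢
    have h4 := flush_pt hω hN hm1 hmu hz hcm (hCS.sy t ht0) hg h1 h2 h3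
    have h5 := err_le (H := H) (B := B) (C := C) (b2 := bt ω (x t)) (t2 := th2 (x t)) (y := yy (x t))
      (k1 := K1 (ω * N) (A0 (ω * N)) (x t)) (k2 := K2 (ω * N) (muu (ω * N)) (A0 (ω * N)) (x t))
      (d2 := dd2 (x t)) hHp.le (hth t ht0) hB.le (yy_nn _) (hAB.y1 t ht0) (k1.trans hexp1)
      (k2.trans hexp1) (dd2_nn _)
    simp only [hR, hK]
    linarith
  have hDe : ∀ t ∈ Icc 0 b, HasDerivWithinAt e _ (Icc 0 b) t := hder
  have ce : ContinuousOn e (Icc T2 T) := fun t ht =>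
    ((hDe t (hsub ht)).continuousWithinAt).mono hsub
  have cRT : ContinuousOn R (Icc T2 T) := cR.mono hsub
  have cK : ContinuousOn (fun t => K * thc (2 / √(ω * N)) (x t)) (Icc T2 T) :=
    continuousOn_const.mul cthc
  have key : e T - e T2 ≤ ∫ t in T2..T, (R t - K * thc (2 / √(ω * N)) (x t)) := by
    refine intervalIntegral.sub_le_integral_of_hasDeriv_right_of_le hTp ce
      (fun t ht => ?_) ?_ (fun t ht => hpt t (Ioo_subset_Icc_self ht))
    · have ht0 : t ∈ Icc 0 b := hsub (Ioo_subset_Icc_self ht)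
      have hnh : Icc 0 b ∈ 𝓝 t := Icc_mem_nhds (hT2p.trans ht.1) (ht.2.trans_le hb)
      exact ((hDe t ht0).hasDerivAt hnh).hasDerivWithinAt
    · exact (cRT.sub cK).integrableOn_Icc
  rw [intervalIntegral.integral_sub (cRT.intervalIntegrable_of_Icc hTp)
    (cK.intervalIntegrable_of_Icc hTp), intervalIntegral.integral_const_mul] at key
  -- the two ends
  have cO : ∀ t, C0P H (oO ω (x t)) := fun t => fld_C0P hω (m1_summable (x t))
  have cGO : ∀ t, C0P H (fun y z => GG (ω * N) (muu (ω * N)) y z * oO ω (x t) y z ^ 2) := fun t =>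
    hg.g1.c.mul ((cO t).pow 2)
  have eT : 0 ≤ e T := by
    have h := IQ_mono (C0P.const (H := H) 0) (cGO T) (fun y z _ => mul_nonneg
      (by have := (hgb y z).1; have := Real.pi_pos; linarith) (sq_nonneg _))
    have h0 : IQ H (fun _ _ => (0:ℝ)) = 0 := by simp [IQ]
    rw [h0] at h
    exact h
  have hT2m : T2 ∈ Icc 0 b := hsub ⟨le_rfl, hTp⟩
  have eT2 : e T2 ≤ 3 * Real.pi * H * B := by
    have h := IQ_mono (cGO T2) ((C0P.const (H := H) (3 * Real.pi / 2)).mul ((cO T2).pow 2))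
      (fun y z _ => mul_le_mul_of_nonneg_right (hgb y z).2 (sq_nonneg _))
    rw [IQ_mul] at h
    have h4 := parseval3 hω (m1_summable (x T2)) (hCS.sy T2 hT2m).m1
    have h5 : IQ H (fun y z => oO ω (x T2) y z ^ 2) = 2 * H * th2 (x T2) := h4
    rw [h5] at h
    refine h.trans ?_
    have h6 := hth T2 hT2m
    calc 3 * Real.pi / 2 * (2 * H * th2 (x T2)) = 3 * Real.pi * H * th2 (x T2) := by ring
      _ ≤ 3 * Real.pi * H * B := by
          have := Real.pi_pos
          gcongr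
  -- the integral of the errors
  have iR : ∫ t in T2..T, R t ≤ 10 * H * B * (1 + C) + (20 * H * √B + 40 * H * √C) * (1 + B) +
      8 * H * (√C * √B) := by
    have h4 : ∫ t in T2..T, R t ≤ ∫ t in (0:ℝ)..b, R t :=
      intervalIntegral.integral_mono_interval hT2p.le hTp hb
        (Filter.Eventually.of_forall fun t => hR0 t) (cR.intervalIntegrable_of_Icc hb0)
    refine h4.trans ?_
    have c1 : ContinuousOn (fun t => bt ω (x t) ^ 8) (Icc 0 b) :=
      (Continuous.comp_continuousOn (g := fun y : L1 (Xn H) => bt ω y) (f := x)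
      (bt_cont ω) hCS.c).pow 8
    have c2 : ContinuousOn (fun t => dd2 (x t)) (Icc 0 b) := Continuous.comp_continuousOn (g := fun y : L1 (Xn H) => dd2 y) (f := x)
      dd2_cont hCS.c
    have i1 := c1.intervalIntegrable_of_Icc (μ := volume) hb0
    have i2 := c2.intervalIntegrable_of_Icc (μ := volume) hb0
    have i3 : IntervalIntegrable (fun _ : ℝ => (1:ℝ)) volume 0 b := intervalIntegrable_const
    have h5 : ∫ t in (0:ℝ)..b, R t = 10 * H * B * (b + ∫ t in (0:ℝ)..b, bt ω (x t) ^ 8) +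
        (20 * H * √B + 40 * H * √C) * (b + ∫ t in (0:ℝ)..b, dd2 (x t)) + 8 * H * (√C * √B) * b := by
      simp only [hR]
      rw [intervalIntegral.integral_add (((i3.add i1).const_mul _).add ((i3.add i2).const_mul _))
        intervalIntegrable_const, intervalIntegral.integral_add ((i3.add i1).const_mul _)
        ((i3.add i2).const_mul _), intervalIntegral.integral_const_mul,
        intervalIntegral.integral_const_mul, intervalIntegral.integral_add i3 i1,
        intervalIntegral.integral_add i3 i2, intervalIntegral.integral_const,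
        intervalIntegral.integral_const]
      simp only [smul_eq_mul, sub_zero, mul_one]
      ring
    rw [h5]
    have h6 : ∫ t in (0:ℝ)..b, dd2 (x t) ≤ B := by
      have := hAB.th b ⟨hb0, le_rfl⟩
      have := th2_nn (x b)
      linarith
    have h7 := hAB.be
    have h8 : 0 ≤ √C * √B := by positivity
    have e1 : 10 * H * B * (b + ∫ t in (0:ℝ)..b, bt ω (x t) ^ 8) ≤ 10 * H * B * (1 + C) := by
      gcongr
    have e2 : (20 * H * √B + 40 * H * √C) * (b + ∫ t in (0:ℝ)..b, dd2 (x t)) ≤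
        (20 * H * √B + 40 * H * √C) * (1 + B) := by
      gcongr
    have e3 : 8 * H * (√C * √B) * b ≤ 8 * H * (√C * √B) * 1 := by gcongr
    linarith
  have hKI : K * ∫ t in T2..T, thc (2 / √(ω * N)) (x t) ≤ C3 := by
    rw [hC3]
    linarith
  -- a good time
  obtain ⟨t1, ht1, hmin⟩ := isCompact_Icc.exists_isMinOn (nonempty_Icc.2 hTp) cthc
  refine ⟨t1, ht1, ?_⟩
  have hI : thc (2 / √(ω * N)) (x t1) * T2 ≤ ∫ t in T2..T, thc (2 / √(ω * N)) (x t) := by
    have h4 := intervalIntegral.integral_mono_on (μ := volume) hTp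
      (intervalIntegrable_const (c := thc (2 / √(ω * N)) (x t1)))
      (cthc.intervalIntegrable_of_Icc hTp) (fun t ht => hmin ht)
    rw [intervalIntegral.integral_const, smul_eq_mul] at h4
    have h5 : T - T2 = T2 := by linarith
    rw [h5] at h4
    linarith
  have h6 : K * (thc (2 / √(ω * N)) (x t1) * T2) ≤ C3 :=
    (mul_le_mul_of_nonneg_left hI hKp.le).trans hKI
  have h7 : K * (thc (2 / √(ω * N)) (x t1) * T2) =
      (H / 16 * Real.exp √(ω * N)) * thc (2 / √(ω * N)) (x t1) := by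
    rw [hK, hT2]
    field_simp
    ring
  rw [h7] at h6
  rw [Real.exp_neg]
  have h8 : 0 < H / 16 * Real.exp √(ω * N) := by positivity
  have h9 : thc (2 / √(ω * N)) (x t1) ≤ C3 / (H / 16 * Real.exp √(ω * N)) := by
    rw [le_div_iff₀ h8]
    linarith
  refine h9.trans (le_of_eq ?_)
  field_simp

end

end Pool.Agent.Lib.MP_79abb3_an.FW
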