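import Pool.Agent.Lib.MP_79abb3_an.FW.ApA
import Pool.Agent.Lib.MP_79abb3_an.FW.FlBb
import Pool.Agent.Lib.MP_79abb3_an.FW.FlCa
import Pool.Agent.Lib.MP_79abb3_an.FW.PhF

/-!
FW-44: short time intervals (switching off the potential flow).
-/

set_option autoImplicit false
set_option linter.unusedSectionVars false

attribute [-instance] PreLp.ring SubfieldClass.toSubringClass SubringClass.toSubsemiringClass
  NonUnitalSubringClass.toNonUnitalSubsemiringClass RingConeClass.toSubsemiringClass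
  SubsemiringClass.nonUnitalSubsemiringClass SubringClass.nonUnitalSubringClass
  AddSubgroup.seminormedAddCommGroup SetLike.GradeZero.instSemiring SetLike.GradeZero.instCommRing
  SetLike.GradeZero.instCommSemiring SetLike.GradeZero.instRing LieAdmissibleAlgebra.toModule
  RightPreLieAlgebra.toModule LeftPreLieAlgebra.toModule

open MeasureTheory Set Filter Topology Function

namespace Pool.Agent.Lib.MP_79abb3_an.FW

open Pool.Agent.Lib.MP_79abb3_an.P25

section
variable {H : ℝ} [hH : Fact (0 < H)]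

/-- the cut-off and its derivatives -/
private theorem fe_cut {c : ℝ} (hc : 0 < c) : ∃ S S1 S2 : ℝ → ℝ, Continuous S ∧ Continuous S1 ∧
    Continuous S2 ∧ (∀ z, HasDerivAt S (S1 z) z) ∧ (∀ z, HasDerivAt S1 (S2 z) z) ∧
    (∀ z, 0 ≤ S z) ∧ (∀ z, S z ≤ 1) ∧ (∀ z, z ≤ c → S z = 0) ∧ (∀ z, 2 * c ≤ z → S z = 1) := by
  have h0 : ContDiff ℝ 2 (fun z : ℝ => Real.smoothTransition ((z - c) / c)) :=
    (Real.smoothTransition.contDiff (n := 2)).comp ((contDiff_id.sub contDiff_const).div_const c)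
  have h1 : ContDiff ℝ 1 (deriv fun z : ℝ => Real.smoothTransition ((z - c) / c)) := by
    have h0' : ContDiff ℝ (1 + 1) (fun z : ℝ => Real.smoothTransition ((z - c) / c)) := by
      have : ((1 : WithTop ℕ∞) + 1) = 2 := by norm_num
      rw [this]
      exact h0
    exact (contDiff_succ_iff_deriv.1 h0').2.2
  refine ⟨fun z : ℝ => Real.smoothTransition ((z - c) / c),
    deriv fun z : ℝ => Real.smoothTransition ((z - c) / c),
    deriv (deriv fun z : ℝ => Real.smoothTransition ((z - c) / c)), h0.continuous, h1.continuous,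
    h1.continuous_deriv le_rfl, ?_, ?_, ?_, ?_, ?_, ?_⟩
  · exact fun z => (h0.differentiable (by norm_num) z).hasDerivAt
  · exact fun z => (h1.differentiable (by norm_num) z).hasDerivAt
  · exact fun z => Real.smoothTransition.nonneg _
  · exact fun z => Real.smoothTransition.le_one _
  · intro z hz
    apply Real.smoothTransition.zero_of_nonpos
    exact div_nonpos_of_nonpos_of_nonneg (by linarith) hc.le
  · intro z hz
    apply Real.smoothTransition.one_of_one_le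
    rw [le_div_iff₀ hc]
    linarith

private theorem fe_bdd {S : ℝ → ℝ} (hS : Continuous S) : ∃ L, 0 ≤ L ∧ ∀ z ∈ Icc 0 H, |S z| ≤ L := by
  have h := (isCompact_Icc (a := (0:ℝ)) (b := H)).exists_bound_of_continuousOn hS.continuousOn
  obtain ⟨L, hL⟩ := h
  exact ⟨|L|, abs_nonneg _, fun z hz => (hL z hz).trans (le_abs_self _)⟩

private theorem fe_sqrt_le {x : ℝ} (hx : 0 ≤ x) : √x ≤ 1 + x := by
  rw [Real.sqrt_le_left (by linarith)]
  nlinarith

/-- the derivative of the localized enstrophy at one time -/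
private theorem fe_pt {ω : ℝ} (hω : ω * H = Real.pi) {N : ℕ} (hN : 1 ≤ N) {a R L K T : ℝ}
    (hT : 0 ≤ T) (hK : 0 ≤ K) (hL : 0 ≤ L) (haR : |a| ≤ R) {x : L1 (Xn H)}
    (hx : ∀ n : ℤ, Cm (ω * n) (ex (pu ω N a n : Xn H).2.1 0) (x n)) (hs : Sy x)
    {S S1 S2 : ℝ → ℝ} (cS : Continuous S) (cS1 : Continuous S1) (cS2 : Continuous S2)
    (dS : ∀ z, HasDerivAt S (S1 z) z) (dS1 : ∀ z, HasDerivAt S1 (S2 z) z) (hS0 : ∀ z, 0 ≤ S z)
    (hS1 : ∀ z, S z ≤ 1) (hL1 : ∀ z ∈ Icc 0 H, |S1 z| ≤ L) (hL2 : ∀ z ∈ Icc 0 H, |S2 z| ≤ L)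
    (hth : th2 x ≤ T) (hyy : yy x ≤ 1) (hK1 : K1 (ω * N) a x ≤ K) :
    W2P H (fun _ z => S z) (fun _ _ => 0) (fun _ z => S1 z) (fun _ _ => 0) (fun _ z => S2 z) ∧
    IQ H (fun y z => (0 + S2 z + uV ω (tv ω N a x) y z * 0 +
          uW ω (tv ω N a x) y z * S1 z) * oO ω x y z ^ 2) -
        2 * IQ H (fun y z => S z * (oOy ω x y z ^ 2 + oOz ω x y z ^ 2)) +
        2 * IQ H (fun y z => fld ω (trf ω N a x) y z * (S z * oO ω x y z)) ≤
      (2 * H * L * T * (1 + R * Real.cosh (ω * N * H)) + L * √(2 * H * T) * (1 + 20 * H * √T) +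
        8 * H * √K * (1 + L * √T)) * (1 + bt ω x + √(dd2 x)) := by
  have hH0 := hH.out
  have hω0 : 0 < ω := by
    have := Real.pi_pos
    rw [← hω] at this
    exact (mul_pos_iff_of_pos_right hH0).1 this
  have hR0 : 0 ≤ R := (abs_nonneg a).trans haR
  have hbt : 0 ≤ bt ω x := tsum_nonneg fun n => norm_nonneg _
  have hyy0 : 0 ≤ yy x := tsum_nonneg fun n => n2_nonneg _
  have hth0 : 0 ≤ th2 x := tsum_nonneg fun n => sq_nonneg _
  have hK10 : 0 ≤ K1 (ω * N) a x := tsum_nonneg fun n => sq_nonneg _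
  have cP : ∀ {F : ℝ → ℝ}, Continuous F → C0P H (fun _ z => F z) := by
    intro F hF
    exact ⟨(hF.comp continuous_snd).continuousOn, fun _ _ _ => rfl⟩
  have hW : W2P H (fun _ z => S z) (fun _ _ => 0) (fun _ z => S1 z) (fun _ _ => 0)
      (fun _ z => S2 z) :=
    ⟨⟨cP cS, C0P.const 0, cP cS1, fun y z _ => hasDerivAt_const _ _,
      fun y z _ => (dS z).hasDerivWithinAt⟩, C0P.const 0, cP cS2,
      fun y z _ => hasDerivAt_const _ _, fun y z _ => (dS1 z).hasDerivWithinAt⟩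
  refine ⟨hW, ?_⟩
  obtain ⟨hOC, -, -⟩ := oO_C1P hω hx
  obtain ⟨_, _, _, _, hTv, hTw, -⟩ := u_C1P hω (VF_tv hω0 hN hx)
  obtain ⟨_, _, _, _, hov, how, -⟩ := u_C1P (H := H) hω (VF_ov (ω := ω) (x := x))
  obtain ⟨_, _, _, _, hiv, hiw, -⟩ := u_C1P hω (VF_iv hx)
  have hO := hOC.c
  have hOy := hOC.cy
  have hOz := hOC.cz
  have hsum : Summable fun n => ‖m1 x n‖ :=
    Summable.of_nonneg_of_le (fun n => norm_nonneg _) (fun n => n11 (x n)) (l1_summable x)
  have hsy := (sy_fields0 (ω := ω) (N := N) (a := a) hs).1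
  have hIO : IQ H (fun y z => oO ω x y z ^ 2) = 2 * H * th2 x := parseval3 hω hsum hsy
  have q0 : 0 ≤ √(dd2 x) := Real.sqrt_nonneg _
  have hch : ∀ z ∈ Icc 0 H, |Real.sinh (ω * N * z)| ≤ Real.cosh (ω * N * H) := by
    intro z hz
    have hm0 : 0 ≤ ω * N := by positivity
    have h1 : 0 ≤ ω * N * z := mul_nonneg hm0 hz.1
    have h2 : ω * N * z ≤ ω * N * H := mul_le_mul_of_nonneg_left hz.2 hm0
    rw [abs_of_nonneg (Real.sinh_nonneg_iff.2 h1)]
    have h3 : Real.sinh (ω * N * z) ≤ Real.cosh (ω * N * z) := by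
      have h4 := Real.cosh_sub_sinh (ω * N * z)
      have h5 := Real.exp_pos (-(ω * N * z))
      linarith
    refine h3.trans (Real.cosh_le_cosh.2 ?_)
    rw [abs_of_nonneg h1, abs_of_nonneg (h1.trans h2)]
    exact h2
  -- first term
  have hWi : C0P H (fun y z => uW ω (iv x) y z * oO ω x y z) := hiw.c.mul hO
  have hSO : C0P H (fun y z => S1 z * oO ω x y z) := (cP cS1).mul hO
  have t1 : IQ H (fun y z => (0 + S2 z + uV ω (tv ω N a x) y z * 0 +
      uW ω (tv ω N a x) y z * S1 z) * oO ω x y z ^ 2) ≤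
      (L * (1 + bt ω x + R * Real.cosh (ω * N * H))) * (2 * H * T) +
        (1 + 20 * H * √T * √(dd2 x)) * (L * √(2 * H * T)) := by
    have e1 : IQ H (fun y z => (0 + S2 z + uV ω (tv ω N a x) y z * 0 +
        uW ω (tv ω N a x) y z * S1 z) * oO ω x y z ^ 2) ≤
        IQ H (fun y z => (L * (1 + bt ω x + R * Real.cosh (ω * N * H))) * oO ω x y z ^ 2 +
          (uW ω (iv x) y z * oO ω x y z) * (S1 z * oO ω x y z)) := by
      refine IQ_mono ?_ (((C0P.const _).mul (hO.pow 2)).add (hWi.mul hSO)) fun y z hz' => ?_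
      · exact ((((C0P.const 0).add (cP cS2)).add (hTv.c.mul (C0P.const 0))).add
          (hTw.c.mul (cP cS1))).mul (hO.pow 2)
      · obtain ⟨s1, s2⟩ := u_split hω0 hN hx y hz'
        obtain ⟨p1, p2⟩ := uU_eq (H := H) hω0 hN a y hz'
        rw [s2, p2]
        have b1 : |uW ω (ov ω x) y z * S1 z| ≤ bt ω x * L := by
          rw [abs_mul]
          exact mul_le_mul (uo_le x y z).2 (hL1 z hz') (abs_nonneg _) hbt
        have b2 : |a * Real.cos (ω * N * y) * Real.sinh (ω * N * z) * S1 z| ≤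
            R * 1 * Real.cosh (ω * N * H) * L := by
          rw [abs_mul, abs_mul, abs_mul]
          have c1 := Real.abs_cos_le_one (ω * N * y)
          have c2 := hch z hz'
          have c3 := hL1 z hz'
          have c4 := Real.cosh_pos (ω * N * H)
          gcongr
        have b3 := (abs_le.1 (hL2 z hz')).2
        have b4 := (abs_le.1 b1).2
        have b5 := (abs_le.1 b2).2
        have b6 : S2 z + (uW ω (ov ω x) y z * S1 z) +
            a * Real.cos (ω * N * y) * Real.sinh (ω * N * z) * S1 z ≤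
            L * (1 + bt ω x + R * Real.cosh (ω * N * H)) := by linarith
        have b7 := mul_le_mul_of_nonneg_right b6 (sq_nonneg (oO ω x y z))
        linarith
    rw [IQ_add ((C0P.const _).mul (hO.pow 2)) (hWi.mul hSO), IQ_mul, hIO] at e1
    have e2 := (abs_le.1 (IQ_cs hWi hSO)).2
    have e3 : IQ H (fun y z => (uW ω (iv x) y z * oO ω x y z) ^ 2) ≤ 20 * H * √T * √(dd2 x) := by
      have e4 := ui_prod hω hx hs
      have e5 : IQ H (fun y z => (uW ω (iv x) y z * oO ω x y z) ^ 2) ≤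
          IQ H (fun y z => (uV ω (iv x) y z ^ 2 + uW ω (iv x) y z ^ 2) * oO ω x y z ^ 2) := by
        refine IQ_mono (hWi.pow 2) (((hiv.c.pow 2).add (hiw.c.pow 2)).mul (hO.pow 2))
          fun y z _ => ?_
        have : 0 ≤ uV ω (iv x) y z ^ 2 * oO ω x y z ^ 2 := by positivity
        linarith [mul_pow (uW ω (iv x) y z) (oO ω x y z) 2]
      have e6 : yy x ^ 2 ≤ 1 := pow_le_one₀ hyy0 hyy
      have e7 : √(th2 x) ≤ √T := Real.sqrt_le_sqrt hth
      calc _ ≤ 20 * H * yy x ^ 2 * √(th2 x) * √(dd2 x) := e5.trans e4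
        _ ≤ 20 * H * 1 * √T * √(dd2 x) := by gcongr
        _ = _ := by ring
    have e8 : IQ H (fun y z => (S1 z * oO ω x y z) ^ 2) ≤ L ^ 2 * (2 * H * T) := by
      have e9 : IQ H (fun y z => (S1 z * oO ω x y z) ^ 2) ≤
          IQ H (fun y z => L ^ 2 * oO ω x y z ^ 2) := by
        refine IQ_mono (hSO.pow 2) ((C0P.const _).mul (hO.pow 2)) fun y z hz' => ?_
        rw [mul_pow]
        apply mul_le_mul_of_nonneg_right _ (sq_nonneg _)
        rw [← sq_abs]
        exact pow_le_pow_left₀ (abs_nonneg _) (hL1 z hz') 2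
      rw [IQ_mul, hIO] at e9
      refine e9.trans ?_
      gcongr
    have e10 : √(IQ H (fun y z => (uW ω (iv x) y z * oO ω x y z) ^ 2)) ≤
        1 + 20 * H * √T * √(dd2 x) :=
      (Real.sqrt_le_sqrt e3).trans (fe_sqrt_le (by positivity))
    have e11 : √(IQ H (fun y z => (S1 z * oO ω x y z) ^ 2)) ≤ L * √(2 * H * T) := by
      refine (Real.sqrt_le_sqrt e8).trans (le_of_eq ?_)
      rw [Real.sqrt_mul (by positivity), Real.sqrt_sq hL]
    have e12 : √(IQ H (fun y z => (uW ω (iv x) y z * oO ω x y z) ^ 2)) *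
        √(IQ H (fun y z => (S1 z * oO ω x y z) ^ 2)) ≤
        (1 + 20 * H * √T * √(dd2 x)) * (L * √(2 * H * T)) :=
      mul_le_mul e10 e11 (Real.sqrt_nonneg _) (by positivity)
    have e13 : (L * (1 + bt ω x + R * Real.cosh (ω * N * H))) * (2 * H * th2 x) ≤
        (L * (1 + bt ω x + R * Real.cosh (ω * N * H))) * (2 * H * T) := by
      have := Real.cosh_pos (ω * N * H)
      gcongr
    linarith
  -- second term
  have t2 : 0 ≤ IQ H (fun y z => S z * (oOy ω x y z ^ 2 + oOz ω x y z ^ 2)) := by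
    have e1 := IQ_mono (C0P.const 0) ((cP cS).mul ((hOy.pow 2).add (hOz.pow 2))) fun y z _ =>
      mul_nonneg (hS0 z) (by positivity : 0 ≤ oOy ω x y z ^ 2 + oOz ω x y z ^ 2)
    have e2 : IQ H (fun _ _ => (0:ℝ)) = 0 := by
      unfold IQ
      simp
    rwa [e2] at e1
  -- third term
  have t3 := (abs_le.1 (tr_bound hω hx hs hW.g1 (c := 1)
    (fun y z _ => abs_le.2 ⟨by linarith [hS0 z], hS1 z⟩)
    (β := fun _ => L) continuous_const fun y z hz' => ⟨by simpa using hL, hL1 z hz'⟩)).2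
  have hK2 : (∑' n, n2 (rc (fun _ => L) continuous_const *
      (kap (ω * N) a * (x n).2.1)) ^ 2) = L ^ 2 * K1 (ω * N) a x := by
    unfold K1
    rw [← tsum_mul_left]
    refine tsum_congr fun n => ?_
    have e1 : (rc (fun _ => L) continuous_const : CI H) * (kap (ω * N) a * (x n).2.1) =
        L • (kap (ω * N) a * (x n).2.1) := by
      refine ci_ext fun z hz' => ?_
      rw [ex_mul, ex_rc _ _ hz', ex_rsmul]
    rw [e1, n2_rsmul, mul_pow, sq_abs]
  rw [hK2, Real.sqrt_mul (by positivity), Real.sqrt_sq hL] at t3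
  have t4 : 4 * H * (1 * √(K1 (ω * N) a x) * √(dd2 x) + L * √(K1 (ω * N) a x) * √(th2 x)) ≤
      4 * H * (1 * √K * √(dd2 x) + L * √K * √T) := by
    have e1 := Real.sqrt_le_sqrt hK1
    have e2 := Real.sqrt_le_sqrt hth
    gcongr
  -- conclusion
  have hsT : 0 ≤ √T := Real.sqrt_nonneg _
  have hsK : 0 ≤ √K := Real.sqrt_nonneg _
  have hs2 : 0 ≤ √(2 * H * T) := Real.sqrt_nonneg _
  have hc0 := Real.cosh_pos (ω * N * H)
  have f1 : (L * (1 + bt ω x + R * Real.cosh (ω * N * H))) * (2 * H * T) ≤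
      2 * H * L * T * (1 + R * Real.cosh (ω * N * H)) * (1 + bt ω x + √(dd2 x)) := by
    have g1 : 1 + bt ω x + R * Real.cosh (ω * N * H) ≤
        (1 + R * Real.cosh (ω * N * H)) * (1 + bt ω x + √(dd2 x)) := by
      have g2 : 0 ≤ R * Real.cosh (ω * N * H) := by positivity
      nlinarith [mul_nonneg g2 (add_nonneg hbt q0)]
    calc _ = (2 * H * L * T) * (1 + bt ω x + R * Real.cosh (ω * N * H)) := by ring
      _ ≤ (2 * H * L * T) * ((1 + R * Real.cosh (ω * N * H)) * (1 + bt ω x + √(dd2 x))) := by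
          gcongr
      _ = _ := by ring
  have f2 : (1 + 20 * H * √T * √(dd2 x)) * (L * √(2 * H * T)) ≤
      L * √(2 * H * T) * (1 + 20 * H * √T) * (1 + bt ω x + √(dd2 x)) := by
    have g1 : 1 + 20 * H * √T * √(dd2 x) ≤ (1 + 20 * H * √T) * (1 + bt ω x + √(dd2 x)) := by
      have g2 : 0 ≤ 20 * H * √T := by positivity
      nlinarith [mul_nonneg g2 (add_nonneg hbt q0)]
    calc _ = (L * √(2 * H * T)) * (1 + 20 * H * √T * √(dd2 x)) := by ring
      _ ≤ (L * √(2 * H * T)) * ((1 + 20 * H * √T) * (1 + bt ω x + √(dd2 x))) := by gcongr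
      _ = _ := by ring
  have f3 : 2 * (4 * H * (1 * √K * √(dd2 x) + L * √K * √T)) ≤
      8 * H * √K * (1 + L * √T) * (1 + bt ω x + √(dd2 x)) := by
    have g1 : √(dd2 x) + L * √T ≤ (1 + L * √T) * (1 + bt ω x + √(dd2 x)) := by
      have g2 : 0 ≤ L * √T := by positivity
      nlinarith [mul_nonneg g2 (add_nonneg hbt q0)]
    calc _ = (8 * H * √K) * (√(dd2 x) + L * √T) := by ring
      _ ≤ (8 * H * √K) * ((1 + L * √T) * (1 + bt ω x + √(dd2 x))) := by gcongr
      _ = _ := by ring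
  linarith

/-- comparison of the localized enstrophy with `thc` -/
private theorem fe_cmp {ω : ℝ} (hω : ω * H = Real.pi) {x : L1 (Xn H)} (hs : Sy (m1 x)) {c : ℝ}
    (hc : 0 < c) (hcH : 2 * c ≤ H) {S : ℝ → ℝ} (cS : Continuous S) (hS0 : ∀ z, 0 ≤ S z)
    (hS1 : ∀ z, S z ≤ 1) (hSc : ∀ z, z ≤ c → S z = 0) (hS2 : ∀ z, 2 * c ≤ z → S z = 1) :
    2 * H * thc (2 * c) x ≤ IQ H (fun y z => S z * oO ω x y z ^ 2) ∧
      IQ H (fun y z => S z * oO ω x y z ^ 2) ≤ 2 * H * thc c x := by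
  have hH0 := hH.out
  have hsum : Summable fun n => ‖m1 x n‖ :=
    Summable.of_nonneg_of_le (fun n => norm_nonneg _) (fun n => n11 (x n)) (l1_summable x)
  have h1 : IQ H (fun y z => S z * oO ω x y z ^ 2) =
      2 * H * ∑' n, ∫ z in (0:ℝ)..H, S z * ‖ex (m1 x n) z‖ ^ 2 := parseval2 hω hsum hs cS
  have hc1 : c ∈ Icc 0 H := ⟨hc.le, by linarith⟩
  have hc2 : 2 * c ∈ Icc 0 H := ⟨by linarith, hcH⟩
  obtain ⟨-, -, s1⟩ := (thc_facts hc1).2 x
  obtain ⟨-, -, s2⟩ := (thc_facts hc2).2 x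
  have hint : ∀ (n : ℤ) (a b : ℝ), IntervalIntegrable (fun z => S z * ‖ex (m1 x n) z‖ ^ 2)
      volume a b := fun n a b => (cS.mul ((continuous_ex _).norm.pow 2)).intervalIntegrable _ _
  have hint' : ∀ (n : ℤ) (a b : ℝ), IntervalIntegrable (fun z => ‖ex (m1 x n) z‖ ^ 2)
      volume a b := fun n a b => ((continuous_ex _).norm.pow 2).intervalIntegrable _ _
  have up : ∀ n, ∫ z in (0:ℝ)..H, S z * ‖ex (m1 x n) z‖ ^ 2 ≤
      ∫ z in c..H, ‖ex (x n).1.1 z‖ ^ 2 := by
    intro n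
    rw [← intervalIntegral.integral_add_adjacent_intervals (hint n 0 c) (hint n c H)]
    have e1 : ∫ z in (0:ℝ)..c, S z * ‖ex (m1 x n) z‖ ^ 2 = 0 := by
      have : ∫ z in (0:ℝ)..c, S z * ‖ex (m1 x n) z‖ ^ 2 = ∫ z in (0:ℝ)..c, (0:ℝ) := by
        refine intervalIntegral.integral_congr fun z hz => ?_
        rw [uIcc_of_le hc.le] at hz
        rw [hSc z hz.2, zero_mul]
      rw [this, intervalIntegral.integral_zero]
    rw [e1, zero_add]
    refine intervalIntegral.integral_mono_on hc1.2 (hint n c H) (hint' n c H) fun z _ => ?_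
    exact mul_le_of_le_one_left (by positivity) (hS1 z)
  have lo : ∀ n, ∫ z in (2 * c)..H, ‖ex (x n).1.1 z‖ ^ 2 ≤
      ∫ z in (0:ℝ)..H, S z * ‖ex (m1 x n) z‖ ^ 2 := by
    intro n
    rw [← intervalIntegral.integral_add_adjacent_intervals (hint n 0 (2 * c)) (hint n (2 * c) H)]
    have e1 : 0 ≤ ∫ z in (0:ℝ)..(2 * c), S z * ‖ex (m1 x n) z‖ ^ 2 :=
      intervalIntegral.integral_nonneg hc2.1 fun z _ => mul_nonneg (hS0 z) (by positivity)
    have e2 : ∫ z in (2 * c)..H, ‖ex (x n).1.1 z‖ ^ 2 ≤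
        ∫ z in (2 * c)..H, S z * ‖ex (m1 x n) z‖ ^ 2 := by
      refine intervalIntegral.integral_mono_on hc2.2 (hint' n _ H) (hint n _ H) fun z hz => ?_
      rw [hS2 z hz.1, one_mul]
      rfl
    linarith
  have nn : ∀ n, 0 ≤ ∫ z in (0:ℝ)..H, S z * ‖ex (m1 x n) z‖ ^ 2 := fun n =>
    intervalIntegral.integral_nonneg hH0.le fun z _ => mul_nonneg (hS0 z) (by positivity)
  have s3 : Summable fun n => ∫ z in (0:ℝ)..H, S z * ‖ex (m1 x n) z‖ ^ 2 :=
    Summable.of_nonneg_of_le nn up s1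
  rw [h1]
  constructor
  · exact mul_le_mul_of_nonneg_left (s2.tsum_le_tsum lo s3) (by positivity)
  · exact mul_le_mul_of_nonneg_left (s3.tsum_le_tsum up s1) (by positivity)

theorem switch {ω : ℝ} (hω : ω * H = Real.pi) {N : ℕ} (hN : 1 ≤ N) {Θ C R c : ℝ} (hc : 0 < c)
    (hcH : 2 * c ≤ H) : ∃ C3, 0 ≤ C3 ∧ ∀ {A A1 : ℝ → ℝ} {b : ℝ} {x : ℝ → L1 (Xn H)}, 0 ≤ b → b ≤ 1 →
    CS ω N A A1 0 b x → AB ω N Θ C b A x → (∀ t ∈ Icc 0 b, |A t| ≤ R) →
    ∀ t1 ∈ Icc 0 b, ∀ t2 ∈ Icc t1 b, thc (2 * c) (x t2) ≤ thc c (x t1) + C3 * √(t2 - t1) := by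
  have hH0 := hH.out
  obtain ⟨S, S1, S2, cS, cS1, cS2, dS, dS1, hS0, hS1, hSc, hSd⟩ := fe_cut hc
  obtain ⟨La, hLa, hLa'⟩ := fe_bdd (H := H) cS1
  obtain ⟨Lb, hLb, hLb'⟩ := fe_bdd (H := H) cS2
  set L := La + Lb with hL
  have hL0 : 0 ≤ L := by positivity
  set T := Θ ^ 2 + 1 with hT
  have hT0 : 0 ≤ T := by positivity
  set D := 2 * H * L * T * (1 + |R| * Real.cosh (ω * N * H)) + L * √(2 * H * T) * (1 + 20 * H * √T) +
        8 * H * √|C| * (1 + L * √T) with hD
  have hD0 : 0 ≤ D := by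
    have := Real.cosh_pos (ω * N * H)
    positivity
  refine ⟨D * (2 + (1 + |C| + T) / 2) / (2 * H), by positivity, ?_⟩
  intro A A1 b x hb0 hb1 h hAB hAR t1 ht1 t2 ht2
  have h0b : (0:ℝ) ∈ Icc 0 b := ⟨le_rfl, hb0⟩
  have hdd0 : ∀ t, 0 ≤ dd2 (x t) := fun t => tsum_nonneg fun n => by positivity
  have hth0 : ∀ t, 0 ≤ th2 (x t) := fun t => tsum_nonneg fun n => sq_nonneg _
  have hbt0 : ∀ t, 0 ≤ bt ω (x t) := fun t => tsum_nonneg fun n => norm_nonneg _
  have cdd : ContinuousOn (fun t => dd2 (x t)) (Icc 0 b) := dd2_cont.comp_continuousOn h.c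
  have cbt : ContinuousOn (fun t => bt ω (x t)) (Icc 0 b) := (bt_cont ω).comp_continuousOn h.c
  have hCC : ∀ t ∈ Icc 0 b, K1 (ω * N) (A t) (x t) ≤ |C| := by
    intro t ht
    refine (hAB.k1 t ht).trans ?_
    have e1 : Real.exp (-√(ω * N)) ≤ 1 := Real.exp_le_one_iff.2 (by
      have := Real.sqrt_nonneg (ω * N); linarith)
    calc C * Real.exp (-√(ω * N)) ≤ |C| * Real.exp (-√(ω * N)) :=
          mul_le_mul_of_nonneg_right (le_abs_self _) (Real.exp_pos _).le
      _ ≤ |C| * 1 := mul_le_mul_of_nonneg_left e1 (abs_nonneg _)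
      _ = |C| := mul_one _
  have hthT : ∀ t ∈ Icc 0 b, th2 (x t) ≤ T := by
    intro t ht
    have e1 := hAB.th t ht
    have e2 : 0 ≤ ∫ s in (0:ℝ)..t, dd2 (x s) := intervalIntegral.integral_nonneg ht.1
      fun s _ => hdd0 s
    linarith
  have hsub : Icc t1 t2 ⊆ Icc 0 b := Icc_subset_Icc ht1.1 ht2.2
  -- trivial case
  have hcmp1 := fe_cmp hω (sy_fields0 (ω := ω) (N := N) (a := A t1) (h.sy t1 ht1)).1 hc hcH cS hS0 hS1
    hSc hSd
  have ht2' : t2 ∈ Icc 0 b := ⟨ht1.1.trans ht2.1, ht2.2⟩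
  have hcmp2 := fe_cmp hω (sy_fields0 (ω := ω) (N := N) (a := A t2) (h.sy t2 ht2')).1 hc hcH cS hS0 hS1
    hSc hSd
  rcases ht2.1.eq_or_lt with heq | hlt
  · subst heq
    have e1 := hcmp1.1.trans hcmp1.2
    have e2 : thc (2 * c) (x t1) ≤ thc c (x t1) := le_of_mul_le_mul_left e1 (by positivity)
    simpa using e2
  have hs0 : 0 < √(t2 - t1) := Real.sqrt_pos.2 (by linarith)
  set s := √(t2 - t1) with hs
  have hss : s * s = t2 - t1 := Real.mul_self_sqrt (by linarith)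
  have hs1 : s ≤ 1 := by
    rw [hs, ← Real.sqrt_one]
    exact Real.sqrt_le_sqrt (by linarith [ht2.2, ht1.1])
  -- the bound of the derivative
  set φ : ℝ → ℝ := fun t => D * (1 + 1 / s + s / 2 * (1 + bt ω (x t) ^ 8 + dd2 (x t))) with hφ
  have cφ : ContinuousOn φ (Icc t1 t2) := by
    refine continuousOn_const.mul ((continuousOn_const).add (continuousOn_const.mul ?_))
    exact ((continuousOn_const.add (cbt.pow 8)).add cdd).mono hsub
  have hDt : ∀ t ∈ Icc 0 b, ∀ (e' : ℝ), e' ≤ D * (1 + bt ω (x t) + √(dd2 (x t))) → e' ≤ φ t := by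
    intro t ht e' he
    refine he.trans ?_
    rw [hφ]
    apply mul_le_mul_of_nonneg_left _ hD0
    have e1 : bt ω (x t) ≤ 1 / (2 * s) + s / 2 * bt ω (x t) ^ 2 := by
      have e2 : 0 ≤ (1 - s * bt ω (x t)) ^ 2 / (2 * s) := by positivity
      have e3 : (1 - s * bt ω (x t)) ^ 2 / (2 * s) =
          1 / (2 * s) + s / 2 * bt ω (x t) ^ 2 - bt ω (x t) := by
        field_simp
        ring
      linarith
    have e4 : √(dd2 (x t)) ≤ 1 / (2 * s) + s / 2 * dd2 (x t) := by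
      have e2 : 0 ≤ (1 - s * √(dd2 (x t))) ^ 2 / (2 * s) := by positivity
      have e3 : (1 - s * √(dd2 (x t))) ^ 2 / (2 * s) =
          1 / (2 * s) + s / 2 * √(dd2 (x t)) ^ 2 - √(dd2 (x t)) := by
        field_simp
        ring
      rw [Real.sq_sqrt (hdd0 t)] at e3
      linarith
    have e5 : bt ω (x t) ^ 2 ≤ 1 + bt ω (x t) ^ 8 := by
      set B := bt ω (x t) with hB
      have hB0 : 0 ≤ B := hbt0 t
      rcases le_total B 1 with h1 | h1
      · have : B ^ 2 ≤ 1 := pow_le_one₀ hB0 h1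
        have : 0 ≤ B ^ 8 := by positivity
        linarith
      · have : B ^ 2 ≤ B ^ 8 := pow_le_pow_right₀ h1 (by norm_num)
        linarith
    have e6 : s / 2 * bt ω (x t) ^ 2 ≤ s / 2 * (1 + bt ω (x t) ^ 8) :=
      mul_le_mul_of_nonneg_left e5 (by positivity)
    have e7 : 1 / (2 * s) + 1 / (2 * s) = 1 / s := by
      field_simp
      norm_num
    linarith
  have hder : ∀ t ∈ Icc t1 t2, ∃ e', HasDerivWithinAt
      (fun t => IQ H (fun y z => S z * oO ω (x t) y z ^ 2)) e' (Icc 0 b) t ∧ e' ≤ φ t := by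
    intro t ht
    have ht' := hsub ht
    obtain ⟨hW, hb⟩ := fe_pt hω hN hT0 (abs_nonneg C) hL0 ((hAR t ht').trans (le_abs_self R))
      (h.cm t ht') (h.sy t ht') cS cS1 cS2 dS dS1 hS0 hS1
      (fun z hz => (hLa' z hz).trans (by linarith)) (fun z hz => (hLb' z hz).trans (by linarith))
      (hthT t ht') (hAB.y1 t ht') (hCC t ht')
    exact ⟨_, enst_id hω hN h hW t ht', hDt t ht' _ hb⟩
  choose! e' he1 he2 using hder
  have hmain := intervalIntegral.sub_le_integral_of_hasDeriv_right_of_le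
    (g := fun t => IQ H (fun y z => S z * oO ω (x t) y z ^ 2)) (g' := e') (φ := φ) hlt.le
    (fun t ht => ((he1 t ht).continuousWithinAt).mono hsub)
    (fun t ht => by
      have h1 := he1 t ⟨ht.1.le, ht.2.le⟩
      have h2 := h1.hasDerivAt (Icc_mem_nhds (ht1.1.trans_lt ht.1) (ht.2.trans_le ht2.2))
      exact h2.hasDerivWithinAt)
    (cφ.integrableOn_Icc) (fun t ht => he2 t ⟨ht.1.le, ht.2.le⟩)
  -- the integral
  have i1 : IntervalIntegrable (fun t => bt ω (x t) ^ 8) volume t1 t2 :=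
    ((cbt.pow 8).mono (by rw [uIcc_of_le hlt.le]; exact hsub)).intervalIntegrable
  have i2 : IntervalIntegrable (fun t => dd2 (x t)) volume t1 t2 :=
    (cdd.mono (by rw [uIcc_of_le hlt.le]; exact hsub)).intervalIntegrable
  have hI : ∫ t in t1..t2, φ t = D * ((t2 - t1) * (1 + 1 / s + s / 2) +
      s / 2 * ((∫ t in t1..t2, bt ω (x t) ^ 8) + ∫ t in t1..t2, dd2 (x t))) := by
    have e1 : φ = fun t => D * (1 + 1 / s + s / 2) + (D * (s / 2)) * (bt ω (x t) ^ 8 + dd2 (x t)) := by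
      funext t
      rw [hφ]
      ring
    have e2 : ∫ t in t1..t2, (bt ω (x t) ^ 8 + dd2 (x t)) =
        (∫ t in t1..t2, bt ω (x t) ^ 8) + ∫ t in t1..t2, dd2 (x t) :=
      intervalIntegral.integral_add i1 i2
    have e3 : ∫ t in t1..t2, (D * (s / 2)) * (bt ω (x t) ^ 8 + dd2 (x t)) =
        (D * (s / 2)) * ∫ t in t1..t2, (bt ω (x t) ^ 8 + dd2 (x t)) :=
      intervalIntegral.integral_const_mul _ _
    have e4 : ∫ t in t1..t2, D * (1 + 1 / s + s / 2) + (D * (s / 2)) * (bt ω (x t) ^ 8 + dd2 (x t)) =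
        (∫ _ in t1..t2, D * (1 + 1 / s + s / 2)) +
          ∫ t in t1..t2, (D * (s / 2)) * (bt ω (x t) ^ 8 + dd2 (x t)) :=
      intervalIntegral.integral_add intervalIntegrable_const ((i1.add i2).const_mul _)
    rw [e1, e4, e3, e2, intervalIntegral.integral_const, smul_eq_mul]
    ring
  have j1 : ∫ t in t1..t2, bt ω (x t) ^ 8 ≤ |C| := by
    refine le_trans ?_ (hAB.be.trans (le_abs_self C))
    refine intervalIntegral.integral_mono_interval ht1.1 hlt.le ht2.2
      (Filter.Eventually.of_forall fun t => by have := hbt0 t; positivity) ?_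
    exact ((cbt.pow 8).mono (by rw [uIcc_of_le hb0])).intervalIntegrable
  have j2 : ∫ t in t1..t2, dd2 (x t) ≤ T := by
    have e1 := hAB.th b ⟨hb0, le_rfl⟩
    have e2 := hth0 b
    have e3 : ∫ t in t1..t2, dd2 (x t) ≤ ∫ t in (0:ℝ)..b, dd2 (x t) := by
      refine intervalIntegral.integral_mono_interval ht1.1 hlt.le ht2.2
        (Filter.Eventually.of_forall fun t => hdd0 t) ?_
      exact (cdd.mono (by rw [uIcc_of_le hb0])).intervalIntegrable
    linarith
  have hfin : ∫ t in t1..t2, φ t ≤ D * (2 + (1 + |C| + T) / 2) * s := by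
    rw [hI]
    have e1 : (t2 - t1) * (1 + 1 / s + s / 2) ≤ 2 * s + s / 2 := by
      rw [← hss]
      have e2 : s * s * (1 + 1 / s + s / 2) = s * s + s + s * s * s / 2 := by
        field_simp
      rw [e2]
      have e3 : s * s ≤ s * 1 := mul_le_mul_of_nonneg_left hs1 hs0.le
      have e4 : s * s * s ≤ s * 1 * 1 := by
        apply mul_le_mul e3 hs1 hs0.le (by positivity)
      linarith
    have e5 : s / 2 * ((∫ t in t1..t2, bt ω (x t) ^ 8) + ∫ t in t1..t2, dd2 (x t)) ≤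
        s / 2 * (|C| + T) := by
      apply mul_le_mul_of_nonneg_left _ (by positivity)
      linarith
    calc _ ≤ D * (2 * s + s / 2 + s / 2 * (|C| + T)) := by
          apply mul_le_mul_of_nonneg_left _ hD0
          linarith
      _ = _ := by ring
  have k1 : 2 * H * thc (2 * c) (x t2) ≤ 2 * H * thc c (x t1) + D * (2 + (1 + |C| + T) / 2) * s := by
    linarith [hcmp2.1, hcmp1.2]
  have k2 : thc (2 * c) (x t2) ≤ (2 * H * thc c (x t1) + D * (2 + (1 + |C| + T) / 2) * s) / (2 * H) := by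
    rw [le_div_iff₀ (by positivity)]
    linarith
  refine k2.trans (le_of_eq ?_)
  field_simp

end

end Pool.Agent.Lib.MP_79abb3_an.FW
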