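import Pool.Agent.Lib.MP_79abb3_an.FW.NormsA

/-!
FW-3a: the operators `Eop`, `Top` in `L²`, `L¹`.
-/

set_option autoImplicit false
set_option linter.unusedSectionVars false

open MeasureTheory Set Filter Topology Function

namespace Pool.Agent.Lib.MP_79abb3_an.FW

open Pool.Agent.Lib.MP_79abb3_an.P25

section
variable {H : ℝ} [hH : Fact (0 < H)]

/-! ### Auxiliary facts -/

theorem OpNa_ii {φ : ℝ → ℝ} {u v : ℝ} (h : Continuous φ) : IntervalIntegrable φ volume u v :=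
  h.intervalIntegrable u v

theorem OpNa_mono {φ ψ : ℝ → ℝ} {u v : ℝ} (huv : u ≤ v) (hφ : Continuous φ) (hψ : Continuous ψ)
    (h : ∀ x ∈ Icc u v, φ x ≤ ψ x) : ∫ x in u..v, φ x ≤ ∫ x in u..v, ψ x :=
  intervalIntegral.integral_mono_on huv (OpNa_ii hφ) (OpNa_ii hψ) h

theorem OpNa_split {φ : ℝ → ℝ} (u v w : ℝ) (hφ : Continuous φ) :
    ∫ x in u..w, φ x = (∫ x in u..v, φ x) + ∫ x in v..w, φ x :=
  (intervalIntegral.integral_add_adjacent_intervals (OpNa_ii hφ) (OpNa_ii hφ)).symm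

theorem OpNa_cm {φ : ℝ → ℝ} (c : ℝ) (h : Continuous φ) : Continuous fun x => c * φ x := by
  fun_prop

theorem OpNa_lin {φ ψ : ℝ → ℝ} (a b u v : ℝ) (hφ : Continuous φ) (hψ : Continuous ψ) :
    ∫ x in u..v, (a * φ x + b * ψ x) = a * (∫ x in u..v, φ x) + b * ∫ x in u..v, ψ x := by
  rw [intervalIntegral.integral_add (OpNa_ii (OpNa_cm a hφ)) (OpNa_ii (OpNa_cm b hψ)), intervalIntegral.integral_const_mul,
    intervalIntegral.integral_const_mul]

theorem OpNa_lin' {φ ψ : ℝ → ℝ} (a b u v : ℝ) (hφ : Continuous φ) (hψ : Continuous ψ) :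
    ∫ x in u..v, (a * φ x - b * ψ x) = a * (∫ x in u..v, φ x) - b * ∫ x in u..v, ψ x := by
  rw [intervalIntegral.integral_sub (OpNa_ii (OpNa_cm a hφ)) (OpNa_ii (OpNa_cm b hψ)), intervalIntegral.integral_const_mul,
    intervalIntegral.integral_const_mul]

theorem OpNa_cn {φ : ℝ → ℂ} (h : Continuous φ) : Continuous fun x => ‖φ x‖ ^ 2 := by fun_prop

theorem OpNa_ci {φ ψ : ℝ → ℂ} (h : Continuous φ) (h' : Continuous ψ) :
    Continuous fun x => 2 * inner ℝ (φ x) (ψ x) := OpNa_cm 2 (h.inner h')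

theorem OpNa_ca {φ ψ : ℝ → ℝ} (h : Continuous φ) (h' : Continuous ψ) :
    Continuous fun x => φ x + ψ x := by fun_prop

theorem OpNa_cb {φ ψ : ℝ → ℝ} (h : Continuous φ) (h' : Continuous ψ) :
    Continuous fun x => φ x - ψ x := by fun_prop

theorem OpNa_cs {φ : ℝ → ℝ} (hφ : Continuous φ) {u v : ℝ} (huv : u ≤ v) :
    (∫ x in u..v, φ x) ^ 2 ≤ (v - u) * ∫ x in u..v, φ x ^ 2 := by
  rcases huv.eq_or_lt with rfl | h
  · simp
  · set I := ∫ x in u..v, φ x with hI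
    set t := I / (v - u) with ht
    have h0 : 0 ≤ ∫ x in u..v, (φ x - t) ^ 2 :=
      intervalIntegral.integral_nonneg huv fun x _ => sq_nonneg _
    have h1 : ∫ x in u..v, (φ x - t) ^ 2 =
        (∫ x in u..v, φ x ^ 2) - 2 * t * I + t ^ 2 * (v - u) := by
      have h2 : ∀ x, (φ x - t) ^ 2 = φ x ^ 2 - 2 * t * φ x + t ^ 2 := fun x => by ring
      simp_rw [h2]
      rw [intervalIntegral.integral_add (OpNa_ii (by fun_prop))
        (OpNa_ii (by fun_prop)),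
        intervalIntegral.integral_sub (OpNa_ii (by fun_prop))
        (OpNa_ii (by fun_prop)),
        intervalIntegral.integral_const_mul, intervalIntegral.integral_const, smul_eq_mul]
      ring
    have h3 : 0 < v - u := sub_pos.2 h
    have h4 : t * (v - u) = I := by
      rw [ht]
      field_simp
    have h5 : t * I ≤ ∫ x in u..v, φ x ^ 2 := by
      have h6 : t ^ 2 * (v - u) = t * I := by rw [← h4]; ring
      rw [h1, h6] at h0
      linarith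
    calc I ^ 2 = (v - u) * (t * I) := by rw [← h4]; ring
      _ ≤ (v - u) * ∫ x in u..v, φ x ^ 2 := mul_le_mul_of_nonneg_left h5 h3.le

theorem OpNa_cs2 (f : CI H) {u v : ℝ} (huv : u ≤ v) :
    ∫ x in u..v, ‖ex f x‖ ≤ √(v - u) * √(∫ x in u..v, ‖ex f x‖ ^ 2) := by
  have h0 : 0 ≤ ∫ x in u..v, ‖ex f x‖ ^ 2 :=
    intervalIntegral.integral_nonneg huv fun x _ => sq_nonneg _
  rw [← Real.sqrt_mul (sub_nonneg.2 huv)]
  exact Real.le_sqrt_of_sq_le (OpNa_cs (continuous_ex f).norm huv)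

theorem OpNa_int_mono (f : CI H) {u v : ℝ} (hu : 0 ≤ u) (huv : u ≤ v) (hv : v ≤ H) :
    ∫ x in u..v, ‖ex f x‖ ^ 2 ≤ ∫ x in (0:ℝ)..H, ‖ex f x‖ ^ 2 := by
  apply intervalIntegral.integral_mono_interval hu huv hv
  · exact Filter.Eventually.of_forall fun x => sq_nonneg _
  · exact OpNa_ii (OpNa_cn (continuous_ex f))

theorem OpNa_sqrt_le (f : CI H) {u v : ℝ} (hu : 0 ≤ u) (huv : u ≤ v) (hv : v ≤ H) :
    √(∫ x in u..v, ‖ex f x‖ ^ 2) ≤ n2 f :=
  Real.sqrt_le_sqrt (OpNa_int_mono f hu huv hv)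

/-- Derivative of the squared modulus, integrated. -/
theorem OpNa_ftc {g g1 : CI H} (h : IsD g g1) {u v : ℝ} (hu : 0 ≤ u) (huv : u ≤ v) (hv : v ≤ H) :
    ∫ z in u..v, 2 * inner ℝ (ex g z) (ex g1 z) = ‖ex g v‖ ^ 2 - ‖ex g u‖ ^ 2 := by
  have hc := continuous_ex g
  have hc1 := continuous_ex g1
  rw [intervalIntegral.integral_eq_sub_of_hasDerivAt_of_le huv (f := fun z => ‖ex g z‖ ^ 2)]
  · exact (OpNa_cn hc).continuousOn
  · intro x hx
    have hx' : x ∈ Icc (0:ℝ) H := ⟨hu.trans hx.1.le, hx.2.le.trans hv⟩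
    have h1 := (h x hx').norm_sq
    exact h1.hasDerivAt (Icc_mem_nhds (hu.trans_lt hx.1) (hx.2.trans_le hv))
  · exact OpNa_ii (OpNa_ci hc hc1)

theorem OpNa_alg1 (κ : ℝ) (a b : ℂ) :
    κ ^ 2 * ‖a‖ ^ 2 + κ * (2 * inner ℝ a b) ≤ ‖(κ : ℂ) * a + b‖ ^ 2 := by
  have h1 : ((κ : ℂ) * a + b) = κ • a + b := rfl
  rw [h1, norm_add_sq_real, norm_smul, real_inner_smul_left, mul_pow, Real.norm_eq_abs, sq_abs]
  have h2 := sq_nonneg ‖b‖
  linarith

theorem OpNa_alg2 (κ : ℝ) (a b : ℂ) :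
    2 * κ * (2 * inner ℝ a b) ≤ ‖(κ : ℂ) * a + b‖ ^ 2 := by
  have h1 : ((κ : ℂ) * a + b) = κ • a + b := rfl
  have h2 : 0 ≤ ‖κ • a - b‖ ^ 2 := sq_nonneg _
  rw [norm_sub_sq_real, real_inner_smul_left] at h2
  rw [h1, norm_add_sq_real, real_inner_smul_left]
  linarith

theorem OpNa_alg1' (κ : ℝ) (a b : ℂ) :
    κ ^ 2 * ‖a‖ ^ 2 - κ * (2 * inner ℝ a b) ≤ ‖(κ : ℂ) * a - b‖ ^ 2 := by
  have h1 := OpNa_alg1 κ a (-b)
  rw [inner_neg_right] at h1
  have h2 : (κ : ℂ) * a + -b = (κ : ℂ) * a - b := by ring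
  rw [h2] at h1
  linarith

theorem OpNa_alg2' (κ : ℝ) (a b : ℂ) :
    -(2 * κ * (2 * inner ℝ a b)) ≤ ‖(κ : ℂ) * a - b‖ ^ 2 := by
  have h1 := OpNa_alg2 κ a (-b)
  rw [inner_neg_right] at h1
  have h2 : (κ : ℂ) * a + -b = (κ : ℂ) * a - b := by ring
  rw [h2] at h1
  linarith

theorem OpNa_fE (k : ℝ) (f : CI H) (z : ℝ) :
    ex f z = ((|k| : ℝ) : ℂ) * ex (Eop k f) z + ex (f - |k| • Eop k f) z := by
  rw [ex_sub, ex_rsmul]
  ring

theorem OpNa_fT (k : ℝ) (f : CI H) (z : ℝ) :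
    ex f z = ((|k| : ℝ) : ℂ) * ex (Top k f) z - ex (|k| • Top k f - f) z := by
  rw [ex_sub, ex_rsmul]
  ring

theorem OpNa_abs_n2 {g f : CI H} {κ : ℝ} (_hκ : 0 ≤ κ)
    (h : κ ^ 2 * (∫ z in (0:ℝ)..H, ‖ex g z‖ ^ 2) ≤ ∫ z in (0:ℝ)..H, ‖ex f z‖ ^ 2) :
    κ * n2 g ≤ n2 f := by
  have h0 : 0 ≤ ∫ z in (0:ℝ)..H, ‖ex g z‖ ^ 2 :=
    intervalIntegral.integral_nonneg hH.out.le fun x _ => sq_nonneg _
  unfold n2
  apply Real.le_sqrt_of_sq_le
  rw [mul_pow, Real.sq_sqrt h0]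
  exact h

theorem n2_Eop (k : ℝ) (f : CI H) : |k| * n2 (Eop k f) ≤ n2 f := by
  have hcf := continuous_ex f
  have hcg := continuous_ex (Eop k f)
  have hcg1 := continuous_ex (f - |k| • Eop k f)
  apply OpNa_abs_n2 (abs_nonneg k)
  have h1 := OpNa_ftc (Eop_isD k f) le_rfl hH.out.le le_rfl
  rw [Eop_zero, norm_zero] at h1
  have h2 : ∫ z in (0:ℝ)..H, (|k| ^ 2 * ‖ex (Eop k f) z‖ ^ 2 +
      |k| * (2 * inner ℝ (ex (Eop k f) z) (ex (f - |k| • Eop k f) z))) ≤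
      ∫ z in (0:ℝ)..H, ‖ex f z‖ ^ 2 := by
    apply OpNa_mono hH.out.le (OpNa_ca (OpNa_cm _ (OpNa_cn hcg)) (OpNa_cm _ (OpNa_ci hcg hcg1))) (OpNa_cn hcf)
    intro z _
    have h3 := OpNa_alg1 |k| (ex (Eop k f) z) (ex (f - |k| • Eop k f) z)
    rw [← OpNa_fE k f z] at h3
    exact h3
  rw [OpNa_lin _ _ _ _ (OpNa_cn hcg) (OpNa_ci hcg hcg1), h1] at h2
  have h4 : 0 ≤ |k| * (‖ex (Eop k f) H‖ ^ 2 - 0 ^ 2) := by
    rw [zero_pow two_ne_zero, sub_zero]
    positivity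
  linarith

theorem n2_Top (k : ℝ) (f : CI H) : |k| * n2 (Top k f) ≤ n2 f := by
  have hcf := continuous_ex f
  have hcg := continuous_ex (Top k f)
  have hcg1 := continuous_ex (|k| • Top k f - f)
  apply OpNa_abs_n2 (abs_nonneg k)
  have h1 := OpNa_ftc (Top_isD k f) le_rfl hH.out.le le_rfl
  rw [Top_H, norm_zero] at h1
  have h2 : ∫ z in (0:ℝ)..H, (|k| ^ 2 * ‖ex (Top k f) z‖ ^ 2 -
      |k| * (2 * inner ℝ (ex (Top k f) z) (ex (|k| • Top k f - f) z))) ≤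
      ∫ z in (0:ℝ)..H, ‖ex f z‖ ^ 2 := by
    apply OpNa_mono hH.out.le (OpNa_cb (OpNa_cm _ (OpNa_cn hcg)) (OpNa_cm _ (OpNa_ci hcg hcg1))) (OpNa_cn hcf)
    intro z _
    have h3 := OpNa_alg1' |k| (ex (Top k f) z) (ex (|k| • Top k f - f) z)
    rw [← OpNa_fT k f z] at h3
    exact h3
  rw [OpNa_lin' _ _ _ _ (OpNa_cn hcg) (OpNa_ci hcg hcg1), h1] at h2
  have h4 : 0 ≤ |k| * ‖ex (Top k f) 0‖ ^ 2 := by positivity
  rw [zero_pow two_ne_zero, zero_sub, mul_neg] at h2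
  linarith

/-- The modulus as an element of `C([0,H])`. -/
noncomputable def OpNa_F (f : CI H) : CI H :=
  mkCI (fun z => ((‖ex f z‖ : ℝ) : ℂ))
    ((Complex.continuous_ofReal.comp (continuous_ex f).norm).continuousOn)

theorem OpNa_ex_F (f : CI H) {z : ℝ} (hz : z ∈ Icc (0:ℝ) H) :
    ex (OpNa_F f) z = ((‖ex f z‖ : ℝ) : ℂ) := ex_mkCI _ hz

theorem OpNa_E_F (k : ℝ) (f : CI H) {z : ℝ} (hz : z ∈ Icc (0:ℝ) H) :
    ‖ex (Eop k f) z‖ ≤ (ex (Eop k (OpNa_F f)) z).re := by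
  have hcf := continuous_ex f
  have h1 : ex (Eop k (OpNa_F f)) z =
      ((∫ x in (0:ℝ)..z, Real.exp (-|k| * (z - x)) * ‖ex f x‖ : ℝ) : ℂ) := by
    rw [Eop_apply k _ hz, ← intervalIntegral.integral_ofReal]
    apply intervalIntegral.integral_congr
    intro x hx
    rw [uIcc_of_le hz.1] at hx
    simp only
    rw [OpNa_ex_F f ⟨hx.1, hx.2.trans hz.2⟩]
    push_cast
    ring
  rw [h1, Complex.ofReal_re, Eop_apply k f hz]
  apply intervalIntegral.norm_integral_le_of_norm_le hz.1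
  · refine Filter.Eventually.of_forall fun x _ => ?_
    rw [norm_mul, Complex.norm_real, Real.norm_eq_abs, abs_of_pos (Real.exp_pos _)]
  · exact OpNa_ii (by fun_prop)

theorem OpNa_T_F (k : ℝ) (f : CI H) {z : ℝ} (hz : z ∈ Icc (0:ℝ) H) :
    ‖ex (Top k f) z‖ ≤ (ex (Top k (OpNa_F f)) z).re := by
  have hcf := continuous_ex f
  have h1 : ex (Top k (OpNa_F f)) z =
      ((∫ x in z..H, Real.exp (-|k| * (x - z)) * ‖ex f x‖ : ℝ) : ℂ) := by
    rw [Top_apply k _ hz, ← intervalIntegral.integral_ofReal]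
    apply intervalIntegral.integral_congr
    intro x hx
    rw [uIcc_of_le hz.2] at hx
    simp only
    rw [OpNa_ex_F f ⟨hz.1.trans hx.1, hx.2⟩]
    push_cast
    ring
  rw [h1, Complex.ofReal_re, Top_apply k f hz]
  apply intervalIntegral.norm_integral_le_of_norm_le hz.2
  · refine Filter.Eventually.of_forall fun x _ => ?_
    rw [norm_mul, Complex.norm_real, Real.norm_eq_abs, abs_of_pos (Real.exp_pos _)]
  · exact OpNa_ii (by fun_prop)

theorem OpNa_norm_one : ‖(1 : CI H)‖ ≤ 1 :=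
  ci_norm_le zero_le_one fun z hz => by
    rw [ex_apply _ hz]
    simp

theorem OpNa_ex_one (z : ℝ) : ex (1 : CI H) z = 1 := rfl

theorem OpNa_re_int (g : CI H) :
    ∫ z in (0:ℝ)..H, (ex g z).re ≤ ‖∫ z in (0:ℝ)..H, ex g z‖ := by
  have hc := continuous_ex g
  have h1 : ∫ z in (0:ℝ)..H, (ex g z).re = (∫ z in (0:ℝ)..H, ex g z).re := by
    have := Complex.reCLM.intervalIntegral_comp_comm (μ := volume)
      (hc.intervalIntegrable (0:ℝ) H)
    simpa using this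
  rw [h1]
  exact Complex.re_le_norm _

theorem OpNa_int_mul_le (f u : CI H) :
    ‖∫ z in (0:ℝ)..H, ex (OpNa_F f) z * ex u z‖ ≤ n1 f * ‖u‖ := by
  have hcf := continuous_ex f
  have h1 : ‖∫ z in (0:ℝ)..H, ex (OpNa_F f) z * ex u z‖ ≤ ∫ z in (0:ℝ)..H, ‖ex f z‖ * ‖u‖ := by
    apply intervalIntegral.norm_integral_le_of_norm_le hH.out.le
    · refine Filter.Eventually.of_forall fun z hz => ?_
      rw [norm_mul, OpNa_ex_F f ⟨hz.1.le, hz.2⟩, Complex.norm_real, norm_norm]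
      exact mul_le_mul_of_nonneg_left (norm_ex_le u z) (norm_nonneg _)
    · exact OpNa_ii (hcf.norm.mul continuous_const)
  rw [intervalIntegral.integral_mul_const] at h1
  exact h1

theorem n1_Eop (k : ℝ) (f : CI H) : |k| * n1 (Eop k f) ≤ n1 f := by
  have hn1 := n1_nonneg f
  have hc := continuous_ex (Eop k f)
  have hc' := continuous_ex (Eop k (OpNa_F f))
  have h1 : n1 (Eop k f) ≤ ‖∫ z in (0:ℝ)..H, ex (Eop k (OpNa_F f)) z‖ := by
    refine le_trans ?_ (OpNa_re_int _)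
    unfold n1
    exact OpNa_mono hH.out.le hc.norm (Complex.continuous_re.comp hc') fun z hz => OpNa_E_F k f hz
  have h2 := Eop_Top_adj k (OpNa_F f) 1
  simp only [OpNa_ex_one, mul_one] at h2
  rw [h2] at h1
  have h3 := h1.trans (OpNa_int_mul_le f (Top k 1))
  have h4 := (norm_kTop_le k (1 : CI H)).trans OpNa_norm_one
  calc |k| * n1 (Eop k f) ≤ |k| * (n1 f * ‖Top k (1 : CI H)‖) :=
        mul_le_mul_of_nonneg_left h3 (abs_nonneg k)
    _ = n1 f * (|k| * ‖Top k (1 : CI H)‖) := by ring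
    _ ≤ n1 f * 1 := mul_le_mul_of_nonneg_left h4 hn1
    _ = n1 f := mul_one _

theorem n1_Top (k : ℝ) (f : CI H) : |k| * n1 (Top k f) ≤ n1 f := by
  have hn1 := n1_nonneg f
  have hc := continuous_ex (Top k f)
  have hc' := continuous_ex (Top k (OpNa_F f))
  have h1 : n1 (Top k f) ≤ ‖∫ z in (0:ℝ)..H, ex (Top k (OpNa_F f)) z‖ := by
    refine le_trans ?_ (OpNa_re_int _)
    unfold n1
    exact OpNa_mono hH.out.le hc.norm (Complex.continuous_re.comp hc') fun z hz => OpNa_T_F k f hz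
  have h2 := Eop_Top_adj k 1 (OpNa_F f)
  simp only [OpNa_ex_one, one_mul] at h2
  rw [← h2] at h1
  have h5 : ∀ z, ex (Eop k (1 : CI H)) z * ex (OpNa_F f) z =
      ex (OpNa_F f) z * ex (Eop k (1 : CI H)) z := fun z => mul_comm _ _
  simp_rw [h5] at h1
  have h3 := h1.trans (OpNa_int_mul_le f (Eop k 1))
  have h4 := (norm_kEop_le k (1 : CI H)).trans OpNa_norm_one
  calc |k| * n1 (Top k f) ≤ |k| * (n1 f * ‖Eop k (1 : CI H)‖) :=
        mul_le_mul_of_nonneg_left h3 (abs_nonneg k)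
    _ = n1 f * (|k| * ‖Eop k (1 : CI H)‖) := by ring
    _ ≤ n1 f * 1 := mul_le_mul_of_nonneg_left h4 hn1
    _ = n1 f := mul_one _

/-- Pointwise bound by the integral over the part of the interval. -/
theorem OpNa_T_pt (k : ℝ) (f : CI H) {z : ℝ} (hz : z ∈ Icc (0:ℝ) H) :
    ‖ex (Top k f) z‖ ≤ ∫ x in z..H, ‖ex f x‖ := by
  have hcf := continuous_ex f
  rw [Top_apply k f hz]
  apply intervalIntegral.norm_integral_le_of_norm_le hz.2
  · refine Filter.Eventually.of_forall fun x hx => ?_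
    rw [norm_mul, Complex.norm_real, Real.norm_eq_abs, abs_of_pos (Real.exp_pos _)]
    have h1 : Real.exp (-|k| * (x - z)) ≤ 1 := by
      rw [Real.exp_le_one_iff]
      rw [neg_mul]
      exact neg_nonpos.2 (mul_nonneg (abs_nonneg k) (sub_nonneg.2 hx.1.le))
    calc Real.exp (-|k| * (x - z)) * ‖ex f x‖ ≤ 1 * ‖ex f x‖ :=
          mul_le_mul_of_nonneg_right h1 (norm_nonneg _)
      _ = ‖ex f x‖ := one_mul _
  · exact OpNa_ii hcf.norm

theorem OpNa_E_pt (k : ℝ) (f : CI H) {z : ℝ} (hz : z ∈ Icc (0:ℝ) H) :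
    ‖ex (Eop k f) z‖ ≤ ∫ x in (0:ℝ)..z, ‖ex f x‖ := by
  have hcf := continuous_ex f
  rw [Eop_apply k f hz]
  apply intervalIntegral.norm_integral_le_of_norm_le hz.1
  · refine Filter.Eventually.of_forall fun x hx => ?_
    rw [norm_mul, Complex.norm_real, Real.norm_eq_abs, abs_of_pos (Real.exp_pos _)]
    have h1 : Real.exp (-|k| * (z - x)) ≤ 1 := by
      rw [Real.exp_le_one_iff]
      rw [neg_mul]
      exact neg_nonpos.2 (mul_nonneg (abs_nonneg k) (sub_nonneg.2 hx.2))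
    calc Real.exp (-|k| * (z - x)) * ‖ex f x‖ ≤ 1 * ‖ex f x‖ :=
          mul_le_mul_of_nonneg_right h1 (norm_nonneg _)
      _ = ‖ex f x‖ := one_mul _
  · exact OpNa_ii hcf.norm

theorem OpNa_sub_le (f : CI H) {u v : ℝ} (hu : 0 ≤ u) (huv : u ≤ v) (hv : v ≤ H) :
    ∫ x in u..v, ‖ex f x‖ ≤ √H * n2 f := by
  refine (OpNa_cs2 f huv).trans ?_
  apply mul_le_mul (Real.sqrt_le_sqrt (by linarith)) (OpNa_sqrt_le f hu huv hv)
    (Real.sqrt_nonneg _) (Real.sqrt_nonneg _)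

theorem OpNa_sqrt_mul {κ a : ℝ} {f : CI H} (hκ : 0 ≤ κ) (h : 2 * κ * a ^ 2 ≤
    ∫ z in (0:ℝ)..H, ‖ex f z‖ ^ 2) : √(2 * κ) * a ≤ n2 f := by
  unfold n2
  apply Real.le_sqrt_of_sq_le
  rw [mul_pow, Real.sq_sqrt (by positivity)]
  exact h

theorem norm_Eop_le2 (k : ℝ) (f : CI H) : √(2 * |k|) * ‖Eop k f‖ ≤ n2 f ∧ ‖Eop k f‖ ≤ √H * n2 f := by
  have hn2 := n2_nonneg f
  constructor
  · rcases (abs_nonneg k).eq_or_lt with h0 | hk
    · rw [← h0, mul_zero, Real.sqrt_zero, zero_mul]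
      exact hn2
    · have hs : 0 < √(2 * |k|) := Real.sqrt_pos.2 (by positivity)
      rw [mul_comm, ← le_div_iff₀ hs]
      refine ci_norm_le (by positivity) fun z hz => ?_
      rw [le_div_iff₀ hs, mul_comm]
      apply OpNa_sqrt_mul (abs_nonneg k)
      have hcf := continuous_ex f
      have hcg := continuous_ex (Eop k f)
      have hcg1 := continuous_ex (f - |k| • Eop k f)
      have h1 := OpNa_ftc (Eop_isD k f) le_rfl hz.1 hz.2
      rw [Eop_zero, norm_zero, zero_pow two_ne_zero, sub_zero] at h1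
      have h2 : ∫ z in (0:ℝ)..z, 2 * |k| * (2 * inner ℝ (ex (Eop k f) z)
          (ex (f - |k| • Eop k f) z)) ≤ ∫ z in (0:ℝ)..z, ‖ex f z‖ ^ 2 := by
        apply OpNa_mono hz.1 (OpNa_cm _ (OpNa_ci hcg hcg1)) (OpNa_cn hcf)
        intro z _
        have h3 := OpNa_alg2 |k| (ex (Eop k f) z) (ex (f - |k| • Eop k f) z)
        rw [← OpNa_fE k f z] at h3
        exact h3
      rw [intervalIntegral.integral_const_mul, h1] at h2
      exact h2.trans (OpNa_int_mono f le_rfl hz.1 hz.2)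
  · refine ci_norm_le (by positivity) fun z hz => ?_
    exact (OpNa_E_pt k f hz).trans (OpNa_sub_le f le_rfl hz.1 hz.2)

theorem norm_Top_le2 (k : ℝ) (f : CI H) : √(2 * |k|) * ‖Top k f‖ ≤ n2 f ∧ ‖Top k f‖ ≤ √H * n2 f := by
  have hn2 := n2_nonneg f
  constructor
  · rcases (abs_nonneg k).eq_or_lt with h0 | hk
    · rw [← h0, mul_zero, Real.sqrt_zero, zero_mul]
      exact hn2
    · have hs : 0 < √(2 * |k|) := Real.sqrt_pos.2 (by positivity)
      rw [mul_comm, ← le_div_iff₀ hs]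
      refine ci_norm_le (by positivity) fun z hz => ?_
      rw [le_div_iff₀ hs, mul_comm]
      apply OpNa_sqrt_mul (abs_nonneg k)
      have hcf := continuous_ex f
      have hcg := continuous_ex (Top k f)
      have hcg1 := continuous_ex (|k| • Top k f - f)
      have h1 := OpNa_ftc (Top_isD k f) hz.1 hz.2 le_rfl
      rw [Top_H, norm_zero, zero_pow two_ne_zero, zero_sub] at h1
      have h2 : ∫ x in z..H, -(2 * |k|) * (2 * inner ℝ (ex (Top k f) x)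
          (ex (|k| • Top k f - f) x)) ≤ ∫ x in z..H, ‖ex f x‖ ^ 2 := by
        apply OpNa_mono hz.2 (OpNa_cm _ (OpNa_ci hcg hcg1)) (OpNa_cn hcf)
        intro x _
        have h3 := OpNa_alg2' |k| (ex (Top k f) x) (ex (|k| • Top k f - f) x)
        rw [← OpNa_fT k f x] at h3
        linarith
      rw [intervalIntegral.integral_const_mul, h1] at h2
      have h5 := OpNa_int_mono f hz.1 hz.2 le_rfl
      linarith
  · refine ci_norm_le (by positivity) fun z hz => ?_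
    exact (OpNa_T_pt k f hz).trans (OpNa_sub_le f hz.1 hz.2 le_rfl)

theorem n2_Top0 (k : ℝ) (f : CI H) : n2 (Top k f) ≤ H * n2 f := by
  have h1 := n2_le_norm (Top k f)
  have h2 := (norm_Top_le2 k f).2
  have h3 : √H * √H = H := Real.mul_self_sqrt hH.out.le
  calc n2 (Top k f) ≤ √H * ‖Top k f‖ := h1
    _ ≤ √H * (√H * n2 f) := mul_le_mul_of_nonneg_left h2 (Real.sqrt_nonneg _)
    _ = H * n2 f := by rw [← mul_assoc, h3]

/-- Thin layers: a function supported (up to a remainder) in `[0,c]`. -/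
theorem n2_Top_thin (k : ℝ) (f : CI H) {c : ℝ} (hc : c ∈ Icc (0:ℝ) H) :
    n2 (Top k f) ≤ c * n2 f + H * √(∫ z in c..H, ‖ex f z‖ ^ 2) := by
  have hcf := continuous_ex f
  have hcg := continuous_ex (Top k f)
  have hn2 := n2_nonneg f
  have hH0 := hH.out.le
  have hc0 := hc.1
  set R := √(∫ z in c..H, ‖ex f z‖ ^ 2) with hR
  have hR0 : 0 ≤ R := Real.sqrt_nonneg _
  set a := √c * n2 f with ha
  set b := √H * R with hb
  have ha0 : 0 ≤ a := mul_nonneg (Real.sqrt_nonneg _) hn2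
  have hb0 : 0 ≤ b := mul_nonneg (Real.sqrt_nonneg _) hR0
  have hB : ∫ x in c..H, ‖ex f x‖ ≤ b := by
    refine (OpNa_cs2 f hc.2).trans ?_
    exact mul_le_mul_of_nonneg_right (Real.sqrt_le_sqrt (by linarith)) hR0
  have hA : ∀ z ∈ Icc (0:ℝ) c, ∫ x in z..c, ‖ex f x‖ ≤ a := by
    intro z hz
    refine (OpNa_cs2 f hz.2).trans ?_
    exact mul_le_mul (Real.sqrt_le_sqrt (by linarith [hz.1])) (OpNa_sqrt_le f hz.1 hz.2 hc.2)
      (Real.sqrt_nonneg _) (Real.sqrt_nonneg _)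
  have h1 : ∀ z ∈ Icc (0:ℝ) c, ‖ex (Top k f) z‖ ^ 2 ≤ (a + b) ^ 2 := by
    intro z hz
    apply pow_le_pow_left₀ (norm_nonneg _)
    refine (OpNa_T_pt k f ⟨hz.1, hz.2.trans hc.2⟩).trans ?_
    rw [OpNa_split z c H hcf.norm]
    exact add_le_add (hA z hz) hB
  have h2 : ∀ z ∈ Icc c H, ‖ex (Top k f) z‖ ^ 2 ≤ b ^ 2 := by
    intro z hz
    apply pow_le_pow_left₀ (norm_nonneg _)
    refine (OpNa_T_pt k f ⟨hc.1.trans hz.1, hz.2⟩).trans (le_trans ?_ hB)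
    apply intervalIntegral.integral_mono_interval hz.1 hz.2 le_rfl
    · exact Filter.Eventually.of_forall fun x => norm_nonneg _
    · exact OpNa_ii hcf.norm
  have h3 : ∫ z in (0:ℝ)..c, ‖ex (Top k f) z‖ ^ 2 ≤ c * (a + b) ^ 2 := by
    have h : ∫ z in (0:ℝ)..c, ‖ex (Top k f) z‖ ^ 2 ≤ ∫ _z in (0:ℝ)..c, (a + b) ^ 2 :=
      OpNa_mono hc.1 (OpNa_cn hcg) continuous_const h1
    rw [intervalIntegral.integral_const, smul_eq_mul, sub_zero] at h
    exact h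
  have h4 : ∫ z in c..H, ‖ex (Top k f) z‖ ^ 2 ≤ (H - c) * b ^ 2 := by
    have h : ∫ z in c..H, ‖ex (Top k f) z‖ ^ 2 ≤ ∫ _z in c..H, b ^ 2 :=
      OpNa_mono hc.2 (OpNa_cn hcg) continuous_const h2
    rw [intervalIntegral.integral_const, smul_eq_mul] at h
    exact h
  have h5 : ∫ z in (0:ℝ)..H, ‖ex (Top k f) z‖ ^ 2 =
      (∫ z in (0:ℝ)..c, ‖ex (Top k f) z‖ ^ 2) + ∫ z in c..H, ‖ex (Top k f) z‖ ^ 2 :=
    OpNa_split 0 c H (OpNa_cn hcg)
  have hsc : √c * √c = c := Real.mul_self_sqrt hc0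
  have hsH : √H * √H = H := Real.mul_self_sqrt hH0
  have h6 : √c ≤ √H := Real.sqrt_le_sqrt hc.2
  have h7 : c ≤ √c * √H := by
    calc c = √c * √c := hsc.symm
      _ ≤ √c * √H := mul_le_mul_of_nonneg_left h6 (Real.sqrt_nonneg _)
  have h8 : c * n2 f + H * R = √c * a + √H * b := by
    rw [ha, hb, ← mul_assoc, ← mul_assoc, hsc, hsH]
  rw [h8]
  unfold n2
  apply Real.sqrt_le_iff.2
  refine ⟨add_nonneg (mul_nonneg (Real.sqrt_nonneg _) ha0) (mul_nonneg (Real.sqrt_nonneg _) hb0), ?_⟩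
  rw [h5]
  have h9 : (√c * a + √H * b) ^ 2 = c * a ^ 2 + 2 * (√c * √H) * (a * b) + H * b ^ 2 := by
    calc (√c * a + √H * b) ^ 2 = (√c * √c) * a ^ 2 + 2 * (√c * √H) * (a * b) +
          (√H * √H) * b ^ 2 := by ring
      _ = _ := by rw [hsc, hsH]
  rw [h9]
  have h10 : c * (a * b) ≤ (√c * √H) * (a * b) :=
    mul_le_mul_of_nonneg_right h7 (mul_nonneg ha0 hb0)
  calc _ ≤ c * (a + b) ^ 2 + (H - c) * b ^ 2 := add_le_add h3 h4
    _ = c * a ^ 2 + 2 * (c * (a * b)) + H * b ^ 2 := by ring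
    _ ≤ c * a ^ 2 + 2 * ((√c * √H) * (a * b)) + H * b ^ 2 := by
        exact add_le_add_left (add_le_add_right (mul_le_mul_of_nonneg_left h10 zero_le_two) _) _
    _ = _ := by ring

end

end Pool.Agent.Lib.MP_79abb3_an.FW
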