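import Pool.Agent.Lib.MP_79abb3_an.FW.FlCa
import Pool.Agent.Lib.MP_79abb3_an.FW.OpNa

/-!
FW-45: the outer velocity is small if its vorticity lives in a thin layer.
-/

set_option autoImplicit false
set_option linter.unusedSectionVars false

open MeasureTheory Set Filter Topology Function

namespace Pool.Agent.Lib.MP_79abb3_an.FW

open Pool.Agent.Lib.MP_79abb3_an.P25

/-- `∑_{i<n} 1/(1+δ(i+1))² ≤ 1/δ`. -/
private theorem flf_nat {δ : ℝ} (hδ : 0 < δ) (n : ℕ) :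
    ∑ i ∈ Finset.range n, 1 / (1 + δ * ((i : ℝ) + 1)) ^ 2 ≤ 1 / δ * (1 - 1 / (1 + δ * n)) := by
  induction n with
  | zero => simp
  | succ n ih =>
    rw [Finset.sum_range_succ]
    have hp : 0 < 1 + δ * (n : ℝ) := by positivity
    have hq : 0 < 1 + δ * ((n : ℝ) + 1) := by positivity
    have h1 : 1 / (1 + δ * ((n : ℝ) + 1)) ^ 2 ≤
        1 / δ * (1 / (1 + δ * n) - 1 / (1 + δ * ((n : ℝ) + 1))) := by
      have h2 : 1 / δ * (1 / (1 + δ * n) - 1 / (1 + δ * ((n : ℝ) + 1))) =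
          1 / ((1 + δ * n) * (1 + δ * ((n : ℝ) + 1))) := by
        field_simp
        ring
      rw [h2]
      apply one_div_le_one_div_of_le (by positivity)
      nlinarith
    push_cast
    have h3 : 1 / δ * (1 - 1 / (1 + δ * ((n : ℝ) + 1))) =
        1 / δ * (1 - 1 / (1 + δ * n)) + 1 / δ * (1 / (1 + δ * n) - 1 / (1 + δ * ((n : ℝ) + 1))) := by
      ring
    linarith

private theorem flf_nat' {δ : ℝ} (hδ : 0 < δ) (n : ℕ) :
    ∑ i ∈ Finset.range n, 1 / (1 + δ * ((i : ℝ) + 1)) ^ 2 ≤ 1 / δ := by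
  refine (flf_nat hδ n).trans ?_
  have hp : 0 < 1 + δ * (n : ℝ) := by positivity
  have h1 : 0 < 1 / (1 + δ * (n : ℝ)) := by positivity
  have h2 : 0 < 1 / δ := by positivity
  nlinarith

private theorem flf_int {δ : ℝ} (hδ : 0 < δ) :
    (Summable fun n : ℤ => 1 / (1 + δ * |(n : ℝ)|) ^ 2) ∧
      ∑' n : ℤ, 1 / (1 + δ * |(n : ℝ)|) ^ 2 ≤ 1 + 2 / δ := by
  have s1 : Summable fun i : ℕ => 1 / (1 + δ * ((i : ℝ) + 1)) ^ 2 :=
    summable_of_sum_range_le (fun n => by positivity) (flf_nat' hδ)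
  have t1 : ∑' i : ℕ, 1 / (1 + δ * ((i : ℝ) + 1)) ^ 2 ≤ 1 / δ :=
    Real.tsum_le_of_sum_range_le (fun n => by positivity) (flf_nat' hδ)
  have s2 : HasSum (fun i : ℕ => 1 / (1 + δ * |(((i : ℕ) : ℤ) : ℝ)|) ^ 2)
      ((∑' i : ℕ, 1 / (1 + δ * ((i : ℝ) + 1)) ^ 2) + 1) := by
    have h := (hasSum_nat_add_iff (f := fun i : ℕ => 1 / (1 + δ * |(((i : ℕ) : ℤ) : ℝ)|) ^ 2) 1
      (g := ∑' i : ℕ, 1 / (1 + δ * ((i : ℝ) + 1)) ^ 2)).1 ?_
    · simpa using h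
    · have he : (fun i : ℕ => 1 / (1 + δ * |(((i + 1 : ℕ) : ℤ) : ℝ)|) ^ 2) =
          fun i : ℕ => 1 / (1 + δ * ((i : ℝ) + 1)) ^ 2 := by
        funext i
        push_cast
        rw [abs_of_nonneg (by positivity)]
      rw [he]
      exact s1.hasSum
  have s3 : HasSum (fun i : ℕ => 1 / (1 + δ * |((-((i : ℤ) + 1) : ℤ) : ℝ)|) ^ 2)
      (∑' i : ℕ, 1 / (1 + δ * ((i : ℝ) + 1)) ^ 2) := by
    convert s1.hasSum using 2 with i
    push_cast
    rw [abs_neg, abs_of_nonneg (by positivity)]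
  have h := HasSum.of_nat_of_neg_add_one (f := fun n : ℤ => 1 / (1 + δ * |(n : ℝ)|) ^ 2) s2 s3
  refine ⟨h.summable, ?_⟩
  rw [h.tsum_eq]
  have : 2 / δ = 1 / δ + 1 / δ := by ring
  linarith

section
variable {H : ℝ} [hH : Fact (0 < H)]

theorem vo_small {ω : ℝ} (hω : 0 < ω) : ∃ C, 0 ≤ C ∧ ∀ c ∈ Ioc (0:ℝ) 1, c ≤ H → ∀ x : L1 (Xn H),
    (Summable fun n : ℤ => n2 (Top (ω * n) (x n).1.1)) ∧
      ∑' n : ℤ, n2 (Top (ω * n) (x n).1.1) ≤ C * (√c * √(th2 x) + (√c)⁻¹ * √(thc c x)) := by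
  have hH0 := hH.out
  refine ⟨√(4 + 8 / ω) * (1 + H), by positivity, fun c hc hcH x => ?_⟩
  have hc0 := hc.1
  have hc1 := hc.2
  obtain ⟨-, hsa, -⟩ := fun_summable x 0 0 0 0 ω
  obtain ⟨-, -, hst⟩ := (thc_facts (H := H) ⟨hc0.le, hcH⟩).2 x
  obtain ⟨sw, tw⟩ := flf_int (δ := c * ω) (by positivity)
  -- the pointwise bound
  have hpt : ∀ n : ℤ, n2 (Top (ω * n) (x n).1.1) ≤
      (2 * c) * (1 / (1 + c * ω * |(n : ℝ)|) * n2 (x n).1.1) +
        (2 * H) * (1 / (1 + c * ω * |(n : ℝ)|) * √(∫ z in c..H, ‖ex (x n).1.1 z‖ ^ 2)) := by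
    intro n
    have ha := n2_nonneg (x n).1.1
    have ht : 0 ≤ √(∫ z in c..H, ‖ex (x n).1.1 z‖ ^ 2) := Real.sqrt_nonneg _
    have h1 := n2_Top_thin (ω * n) (x n).1.1 ⟨hc0.le, hcH⟩
    have h2 := n2_Top (ω * n) (x n).1.1
    have hk : |ω * (n : ℝ)| = ω * |(n : ℝ)| := by rw [abs_mul, abs_of_pos hω]
    rw [hk] at h2
    have hd : 0 < 1 + c * ω * |(n : ℝ)| := by positivity
    have key : (1 + c * ω * |(n : ℝ)|) * n2 (Top (ω * n) (x n).1.1) ≤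
        2 * c * n2 (x n).1.1 + 2 * H * √(∫ z in c..H, ‖ex (x n).1.1 z‖ ^ 2) := by
      have h3 := mul_le_mul_of_nonneg_left h2 hc0.le
      have h4 : 0 ≤ H * √(∫ z in c..H, ‖ex (x n).1.1 z‖ ^ 2) := by positivity
      linarith
    have h5 : n2 (Top (ω * n) (x n).1.1) ≤
        (2 * c * n2 (x n).1.1 + 2 * H * √(∫ z in c..H, ‖ex (x n).1.1 z‖ ^ 2)) /
          (1 + c * ω * |(n : ℝ)|) := by
      rw [le_div_iff₀ hd]
      linarith
    refine h5.trans (le_of_eq ?_)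
    field_simp
  -- finite sums
  have hfin : ∀ u : Finset ℤ, ∑ n ∈ u, n2 (Top (ω * n) (x n).1.1) ≤
      √(4 + 8 / ω) * (1 + H) * (√c * √(th2 x) + (√c)⁻¹ * √(thc c x)) := by
    intro u
    have hW : ∑ n ∈ u, (1 / (1 + c * ω * |(n : ℝ)|)) ^ 2 ≤ 1 + 2 / (c * ω) := by
      refine le_trans ?_ tw
      have h := sw.sum_le_tsum u (fun n _ => by positivity)
      refine le_trans (le_of_eq ?_) h
      refine Finset.sum_congr rfl fun n _ => ?_
      rw [one_div_pow]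
    have hA : ∑ n ∈ u, n2 (x n).1.1 ^ 2 ≤ th2 x :=
      hsa.sum_le_tsum u (fun n _ => by positivity)
    have hT : ∑ n ∈ u, (√(∫ z in c..H, ‖ex (x n).1.1 z‖ ^ 2)) ^ 2 ≤ thc c x := by
      have h0 : ∀ n, 0 ≤ ∫ z in c..H, ‖ex (x n).1.1 z‖ ^ 2 := fun n =>
        intervalIntegral.integral_nonneg hcH fun z _ => by positivity
      have h := hst.sum_le_tsum u (fun n _ => h0 n)
      refine le_trans (le_of_eq ?_) h
      exact Finset.sum_congr rfl fun n _ => Real.sq_sqrt (h0 n)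
    have h1 : ∑ n ∈ u, 1 / (1 + c * ω * |(n : ℝ)|) * n2 (x n).1.1 ≤
        √(1 + 2 / (c * ω)) * √(th2 x) :=
      (Real.sum_mul_le_sqrt_mul_sqrt u _ _).trans
        (mul_le_mul (Real.sqrt_le_sqrt hW) (Real.sqrt_le_sqrt hA) (Real.sqrt_nonneg _)
          (Real.sqrt_nonneg _))
    have h2 : ∑ n ∈ u, 1 / (1 + c * ω * |(n : ℝ)|) * √(∫ z in c..H, ‖ex (x n).1.1 z‖ ^ 2) ≤
        √(1 + 2 / (c * ω)) * √(thc c x) :=
      (Real.sum_mul_le_sqrt_mul_sqrt u _ _).trans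
        (mul_le_mul (Real.sqrt_le_sqrt hW) (Real.sqrt_le_sqrt hT) (Real.sqrt_nonneg _)
          (Real.sqrt_nonneg _))
    have h3 : 2 * √c * √(1 + 2 / (c * ω)) ≤ √(4 + 8 / ω) := by
      apply Real.le_sqrt_of_sq_le
      rw [mul_pow, mul_pow, Real.sq_sqrt hc0.le, Real.sq_sqrt (by positivity)]
      have h4 : 2 ^ 2 * c * (1 + 2 / (c * ω)) = 4 * c + 8 / ω := by
        field_simp
        ring
      rw [h4]
      linarith
    have hsc : √c * √c = c := Real.mul_self_sqrt hc0.le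
    have hsc0 : 0 < √c := Real.sqrt_pos.2 hc0
    have h5 : 2 * c * √(1 + 2 / (c * ω)) ≤ √(4 + 8 / ω) * √c := by
      calc 2 * c * √(1 + 2 / (c * ω)) = (2 * √c * √(1 + 2 / (c * ω))) * √c := by
            have : 2 * √c * √(1 + 2 / (c * ω)) * √c = 2 * (√c * √c) * √(1 + 2 / (c * ω)) := by ring
            rw [this, hsc]
        _ ≤ _ := mul_le_mul_of_nonneg_right h3 hsc0.le
    have h6 : 2 * √(1 + 2 / (c * ω)) ≤ √(4 + 8 / ω) * (√c)⁻¹ := by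
      rw [← div_eq_mul_inv, le_div_iff₀ hsc0]
      linarith
    have hth : 0 ≤ √(th2 x) := Real.sqrt_nonneg _
    have htc : 0 ≤ √(thc c x) := Real.sqrt_nonneg _
    have hS : 0 ≤ √(4 + 8 / ω) := Real.sqrt_nonneg _
    calc ∑ n ∈ u, n2 (Top (ω * n) (x n).1.1)
        ≤ ∑ n ∈ u, ((2 * c) * (1 / (1 + c * ω * |(n : ℝ)|) * n2 (x n).1.1) +
          (2 * H) * (1 / (1 + c * ω * |(n : ℝ)|) * √(∫ z in c..H, ‖ex (x n).1.1 z‖ ^ 2))) :=
          Finset.sum_le_sum fun n _ => hpt n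
      _ = (2 * c) * (∑ n ∈ u, 1 / (1 + c * ω * |(n : ℝ)|) * n2 (x n).1.1) +
          (2 * H) * (∑ n ∈ u, 1 / (1 + c * ω * |(n : ℝ)|) *
            √(∫ z in c..H, ‖ex (x n).1.1 z‖ ^ 2)) := by
          rw [Finset.sum_add_distrib, Finset.mul_sum, Finset.mul_sum]
      _ ≤ (2 * c) * (√(1 + 2 / (c * ω)) * √(th2 x)) +
          (2 * H) * (√(1 + 2 / (c * ω)) * √(thc c x)) := by
          gcongr
      _ = (2 * c * √(1 + 2 / (c * ω))) * √(th2 x) +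
          H * ((2 * √(1 + 2 / (c * ω))) * √(thc c x)) := by ring
      _ ≤ (√(4 + 8 / ω) * √c) * √(th2 x) + H * ((√(4 + 8 / ω) * (√c)⁻¹) * √(thc c x)) := by
          gcongr
      _ ≤ √(4 + 8 / ω) * (1 + H) * (√c * √(th2 x) + (√c)⁻¹ * √(thc c x)) := by
          have e1 : 0 ≤ √(4 + 8 / ω) * H * (√c * √(th2 x)) := by positivity
          have e2 : 0 ≤ √(4 + 8 / ω) * ((√c)⁻¹ * √(thc c x)) := by positivity
          nlinarith
  have hs : Summable fun n : ℤ => n2 (Top (ω * n) (x n).1.1) :=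
    summable_of_sum_le (fun n => n2_nonneg _) hfin
  exact ⟨hs, hs.tsum_le_of_sum_le hfin⟩

end

end Pool.Agent.Lib.MP_79abb3_an.FW
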