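import Pool.Agent.Lib.MP_79abb3_an.FW.Def
import Pool.Agent.Lib.MP_79abb3_an.P25.EnergyId

/-!
FW-14: weighted energy of one mode.
-/

set_option autoImplicit false
set_option linter.unusedSectionVars false

open MeasureTheory Set Filter Topology Function

namespace Pool.Agent.Lib.MP_79abb3_an.FW

open Pool.Agent.Lib.MP_79abb3_an.P25

section
variable {H : ℝ} [hH : Fact (0 < H)]

/-- The derivative of the test function `W conj f`. -/
private noncomputable def eeT (W W1 : ℝ → ℝ) (f f1 : CI H) (z : ℝ) : ℂ :=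
  (W z : ℂ) * star (ex f1 z) + (W1 z : ℂ) * star (ex f z)

private theorem ee_T_cont {W W1 : ℝ → ℝ} (cW : Continuous W) (cW1 : Continuous W1) (f f1 : CI H) :
    Continuous (eeT W W1 f f1) := by
  have h1 := continuous_ex f
  have h2 := continuous_ex f1
  unfold eeT
  fun_prop

private theorem ee_test {W W1 : ℝ → ℝ} (dW : ∀ z, HasDerivAt W (W1 z) z) {f f1 : CI H}
    (hd : IsD f f1) {z : ℝ} (hz : z ∈ Ioo (0:ℝ) H) :
    HasDerivAt (fun z => (W z : ℂ) * star (ex f z)) (eeT W W1 f f1 z) z := by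
  have h1 := (ei_isD_hasDerivAt hd hz).star
  have h3 := (dW z).ofReal_comp
  refine (h3.mul h1).congr_deriv ?_
  unfold eeT
  ring

private theorem ee_nsq (c : ℂ) : ‖c‖ ^ 2 = c.re ^ 2 + c.im ^ 2 := by
  rw [← Complex.normSq_eq_norm_sq, Complex.normSq_apply]; ring

private theorem ee_slope {W W1 : ℝ → ℝ} (cW : Continuous W) (cW1 : Continuous W1)
    (dW : ∀ z, HasDerivAt W (W1 z) z) {f f1 : ℝ → CI H} {t s : ℝ} (hdt : IsD (f t) (f1 t))
    (hds : IsD (f s) (f1 s)) (h0t : ex (f t) H = 0) (h0s : ex (f s) H = 0) :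
    slope (fun t => ∫ z in (0:ℝ)..H, W z * ‖ex (f t) z‖ ^ 2) t s =
      -(∫ y in (0:ℝ)..H, (((s - t)⁻¹ : ℝ) • (prim (f s) y - prim (f t) y)) *
        (eeT W W1 (f s) (f1 s) y + eeT W W1 (f t) (f1 t) y)).re := by
  have c1 := continuous_ex (f s)
  have c2 := continuous_ex (f t)
  have c3 := continuous_ex (f1 s)
  have c4 := continuous_ex (f1 t)
  set ψ : ℝ → ℂ := fun z => (W z : ℂ) * star (ex (f s) z) + (W z : ℂ) * star (ex (f t) z) with hψ
  have hp := ei_parts (f s - f t) (ψ := ψ)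
    (ψ1 := fun y => eeT W W1 (f s) (f1 s) y + eeT W W1 (f t) (f1 t) y)
    (by rw [hψ]; fun_prop) ((ee_T_cont cW cW1 _ _).add (ee_T_cont cW cW1 _ _))
    (fun z hz => (ee_test dW hds hz).add (ee_test dW hdt hz)) (by simp [hψ, h0t, h0s])
  have e1 : ∀ z, W z * ‖ex (f s) z‖ ^ 2 - W z * ‖ex (f t) z‖ ^ 2 = (ex (f s - f t) z * ψ z).re := by
    intro z
    rw [ee_nsq, ee_nsq, hψ]
    simp only [ex_sub, Complex.mul_re, Complex.sub_re, Complex.sub_im, Complex.add_re, Complex.add_im,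
      Complex.ofReal_re, Complex.ofReal_im, Complex.star_def, Complex.conj_re, Complex.conj_im,
      Complex.mul_im]
    ring
  have c5 : Continuous ψ := by rw [hψ]; fun_prop
  have c6 : Continuous (fun z => ex (f s - f t) z * ψ z) := (continuous_ex _).mul c5
  have e2 : ∫ z in (0:ℝ)..H, (ex (f s - f t) z * ψ z).re =
      (∫ z in (0:ℝ)..H, ex (f s - f t) z * ψ z).re :=
    Complex.reCLM.intervalIntegral_comp_comm (c6.intervalIntegrable _ _)
  have e3 : ∫ y in (0:ℝ)..H, (((s - t)⁻¹ : ℝ) • (prim (f s) y - prim (f t) y)) *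
        (eeT W W1 (f s) (f1 s) y + eeT W W1 (f t) (f1 t) y) =
      ((s - t)⁻¹ : ℝ) • ∫ y in (0:ℝ)..H, prim (f s - f t) y *
        (eeT W W1 (f s) (f1 s) y + eeT W W1 (f t) (f1 t) y) := by
    rw [← intervalIntegral.integral_smul]
    refine intervalIntegral.integral_congr fun y _ => ?_
    simp only [ei_prim_sub, smul_mul_assoc]
  rw [slope_def_field, ← intervalIntegral.integral_sub]
  · simp_rw [e1]
    rw [e2, hp, e3, Complex.neg_re, Complex.real_smul, Complex.re_ofReal_mul]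
    ring
  · exact Continuous.intervalIntegrable (by fun_prop) _ _
  · exact Continuous.intervalIntegrable (by fun_prop) _ _

/-- The limit value. -/
private theorem ee_final {W W1 : ℝ → ℝ} (cW : Continuous W) (cW1 : Continuous W1)
    (dW : ∀ z, HasDerivAt W (W1 z) z) {F F1 N : CI H} (hd : IsD F F1)
    (h0 : W 0 = 0 ∨ ex F 0 = 0) (h1 : ex F H = 0) (k : ℝ) :
    -(∫ y in (0:ℝ)..H, rh k F F1 N y * (eeT W W1 F F1 y + eeT W W1 F F1 y)).re =
      ∫ z in (0:ℝ)..H, (2 * W z * ((ex N z * star (ex F z)).re - ‖ex F1 z‖ ^ 2 -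
          k ^ 2 * ‖ex F z‖ ^ 2) - 2 * W1 z * (ex F1 z * star (ex F z)).re) := by
  have c1 := continuous_ex F
  have c2 := continuous_ex F1
  have c3 := continuous_ex N
  have cT := ee_T_cont cW cW1 F F1
  have cP := ei_prim_cont F
  have cQ := ei_prim_cont N
  set φ : ℝ → ℂ := fun z => (W z : ℂ) * star (ex F z) with hφ
  have cφ : Continuous φ := by rw [hφ]; fun_prop
  have hT0 : ∫ y in (0:ℝ)..H, eeT W W1 F F1 y = 0 := by
    have h2 := intervalIntegral.integral_eq_sub_of_hasDerivAt_of_le hH.out.le (f := φ)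
      (f' := eeT W W1 F F1) cφ.continuousOn (fun x hx => ee_test dW hd hx)
      (cT.intervalIntegrable _ _)
    rw [h2]
    rcases h0 with h0 | h0 <;> simp [hφ, h0, h1]
  have hF : ∫ z in (0:ℝ)..H, ex F z * φ z = -∫ y in (0:ℝ)..H, prim F y * eeT W W1 F F1 y :=
    ei_parts F cφ cT (fun z hz => ee_test dW hd hz) (by simp [hφ, h1])
  have hN : ∫ z in (0:ℝ)..H, ex N z * φ z = -∫ y in (0:ℝ)..H, prim N y * eeT W W1 F F1 y :=
    ei_parts N cφ cT (fun z hz => ee_test dW hd hz) (by simp [hφ, h1])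
  have i1 : IntervalIntegrable (fun y => ex F1 y * eeT W W1 F F1 y) volume 0 H :=
    (c2.mul cT).intervalIntegrable _ _
  have i2 : IntervalIntegrable (fun y => ex F1 0 * eeT W W1 F F1 y) volume 0 H :=
    (continuous_const.mul cT).intervalIntegrable _ _
  have i3 : IntervalIntegrable (fun y => ((k ^ 2 : ℝ) : ℂ) * (prim F y * eeT W W1 F F1 y))
      volume 0 H := (continuous_const.mul (cP.mul cT)).intervalIntegrable _ _
  have i4 : IntervalIntegrable (fun y => prim N y * eeT W W1 F F1 y) volume 0 H :=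
    (cQ.mul cT).intervalIntegrable _ _
  have e1 : ∫ y in (0:ℝ)..H, rh k F F1 N y * (eeT W W1 F F1 y + eeT W W1 F F1 y) =
      2 * ((∫ y in (0:ℝ)..H, ex F1 y * eeT W W1 F F1 y) + ((k ^ 2 : ℝ) : ℂ) *
        (∫ z in (0:ℝ)..H, ex F z * φ z) - ∫ z in (0:ℝ)..H, ex N z * φ z) := by
    have e2 : ∀ y, rh k F F1 N y * (eeT W W1 F F1 y + eeT W W1 F F1 y) =
        2 * (ex F1 y * eeT W W1 F F1 y - ex F1 0 * eeT W W1 F F1 y -
          ((k ^ 2 : ℝ) : ℂ) * (prim F y * eeT W W1 F F1 y) + prim N y * eeT W W1 F F1 y) := by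
      intro y; unfold rh; ring
    simp_rw [e2]
    rw [intervalIntegral.integral_const_mul, intervalIntegral.integral_add ((i1.sub i2).sub i3) i4,
      intervalIntegral.integral_sub (i1.sub i2) i3, intervalIntegral.integral_sub i1 i2,
      intervalIntegral.integral_const_mul, intervalIntegral.integral_const_mul, hT0, hF, hN]
    ring
  have j1 : IntervalIntegrable (fun y => ((k ^ 2 : ℝ) : ℂ) * (ex F y * φ y)) volume 0 H :=
    (continuous_const.mul (c1.mul cφ)).intervalIntegrable _ _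
  have j2 : IntervalIntegrable (fun y => ex N y * φ y) volume 0 H :=
    (c3.mul cφ).intervalIntegrable _ _
  have cc : Continuous (fun y => 2 * (ex F1 y * eeT W W1 F F1 y + ((k ^ 2 : ℝ) : ℂ) *
      (ex F y * φ y) - ex N y * φ y)) := by fun_prop
  rw [e1, ← intervalIntegral.integral_const_mul, ← intervalIntegral.integral_add i1 j1,
    ← intervalIntegral.integral_sub (i1.add j1) j2, ← intervalIntegral.integral_const_mul,
    show (∫ y in (0:ℝ)..H, 2 * (ex F1 y * eeT W W1 F F1 y + ((k ^ 2 : ℝ) : ℂ) *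
      (ex F y * φ y) - ex N y * φ y)).re = ∫ y in (0:ℝ)..H, (2 * (ex F1 y * eeT W W1 F F1 y +
      ((k ^ 2 : ℝ) : ℂ) * (ex F y * φ y) - ex N y * φ y)).re from
      (Complex.reCLM.intervalIntegral_comp_comm (cc.intervalIntegrable _ _)).symm,
    ← intervalIntegral.integral_neg]
  refine intervalIntegral.integral_congr fun y _ => ?_
  simp only [ee_nsq, hφ, eeT, Complex.mul_re, Complex.add_re, Complex.add_im, Complex.sub_re,
    Complex.sub_im, Complex.ofReal_re, Complex.ofReal_im, Complex.star_def, Complex.conj_re,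
    Complex.conj_im, Complex.mul_im, Complex.re_ofNat, Complex.im_ofNat]
  ring

private theorem ee_prim_time {k a b : ℝ} {f f1 G : ℝ → CI H} (h : HE k a b f f1 G)
    {t : ℝ} (ht : t ∈ Icc a b) {y : ℝ} (hy : y ∈ Icc (0:ℝ) H) :
    HasDerivWithinAt (fun s => prim (f s) y) (rh k (f t) (f1 t) (G t) y) (Icc a b) t := by
  have c := ei_rh_continuousOn (k := k) h.cf h.cf1 h.cG hy
  have hab : a ≤ b := ht.1.trans ht.2
  have : Fact (t ∈ Icc a b) := ⟨ht⟩
  have h1 : HasDerivWithinAt (fun s => prim (f a) y + ∫ τ in a..s, rh k (f τ) (f1 τ) (G τ) y)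
      (rh k (f t) (f1 t) (G t) y) (Icc a b) t := by
    refine HasDerivWithinAt.const_add _ ?_
    refine intervalIntegral.integral_hasDerivWithinAt_right ?_ ?_ (c t ht)
    · refine ContinuousOn.intervalIntegrable (c.mono ?_)
      rw [uIcc_of_le ht.1]
      exact Icc_subset_Icc_right ht.2
    · exact ⟨Icc a b, self_mem_nhdsWithin, c.aestronglyMeasurable measurableSet_Icc⟩
  refine h1.congr (fun s hs => ?_) ?_
  · have := h.eq y hy a (left_mem_Icc.2 hab) s hs
    rw [← this]; ring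
  · have := h.eq y hy a (left_mem_Icc.2 hab) t ht
    rw [← this]; ring

theorem HE.energy {k a b : ℝ} {f f1 G : ℝ → CI H} (h : HE k a b f f1 G) {W W1 : ℝ → ℝ}
    (cW : Continuous W) (cW1 : Continuous W1) (dW : ∀ z, HasDerivAt W (W1 z) z)
    (hH' : ∀ t ∈ Icc a b, ex (f t) H = 0) (h0 : W 0 = 0 ∨ ∀ t ∈ Icc a b, ex (f t) 0 = 0) :
    ∀ t ∈ Icc a b, HasDerivWithinAt (fun t => ∫ z in (0:ℝ)..H, W z * ‖ex (f t) z‖ ^ 2)
      (∫ z in (0:ℝ)..H, (2 * W z * ((ex (G t) z * star (ex (f t) z)).re - ‖ex (f1 t) z‖ ^ 2 -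
          k ^ 2 * ‖ex (f t) z‖ ^ 2) - 2 * W1 z * (ex (f1 t) z * star (ex (f t) z)).re))
      (Icc a b) t := by
  intro t ht
  have hH0 := hH.out
  rw [hasDerivWithinAt_iff_tendsto_slope]
  have hnb : ∀ᶠ s in 𝓝[Icc a b \ {t}] t, s ∈ Icc a b ∧ s ≠ t := by
    filter_upwards [self_mem_nhdsWithin] with s hs using ⟨hs.1, hs.2⟩
  have hle : 𝓝[Icc a b \ {t}] t ≤ 𝓝[Icc a b] t := nhdsWithin_mono _ Set.sdiff_subset
  have pc : ∀ {g : ℝ → CI H}, ContinuousOn g (Icc a b) → ∀ z,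
      Tendsto (fun s => ex (g s) z) (𝓝[Icc a b \ {t}] t) (𝓝 (ex (g t) z)) := by
    intro g cg z
    exact (((ei_ex_continuous z).tendsto _).comp (cg t ht)).mono_left hle
  obtain ⟨Mf, hMf⟩ := isCompact_Icc.exists_bound_of_continuousOn h.cf
  obtain ⟨Mg, hMg⟩ := isCompact_Icc.exists_bound_of_continuousOn h.cf1
  obtain ⟨C, hC⟩ := ei_rh_bound (k := k) h.cf h.cf1 h.cG
  obtain ⟨Q, hQ⟩ := (isCompact_Icc (a := (0:ℝ)) (b := H)).exists_bound_of_continuousOn cW.continuousOn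
  obtain ⟨Q1, hQ1⟩ := (isCompact_Icc (a := (0:ℝ)) (b := H)).exists_bound_of_continuousOn
    cW1.continuousOn
  have h00 : (0:ℝ) ∈ Icc (0:ℝ) H := ⟨le_rfl, hH0.le⟩
  have hC0 : 0 ≤ C := (norm_nonneg _).trans (hC t ht 0 h00)
  have hMf0 : 0 ≤ Mf := (norm_nonneg _).trans (hMf t ht)
  have hMg0 : 0 ≤ Mg := (norm_nonneg _).trans (hMg t ht)
  have hQ0 : 0 ≤ Q := (norm_nonneg _).trans (hQ 0 h00)
  have hQ10 : 0 ≤ Q1 := (norm_nonneg _).trans (hQ1 0 h00)
  have hTb : ∀ s ∈ Icc a b, ∀ y ∈ Icc (0:ℝ) H, ‖eeT W W1 (f s) (f1 s) y‖ ≤ Q * Mg + Q1 * Mf := by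
    intro s hs y hy
    unfold eeT
    refine (norm_add_le _ _).trans (add_le_add ?_ ?_)
    · rw [norm_mul, norm_star, Complex.norm_real]
      exact mul_le_mul (hQ y hy) ((norm_ex_le _ _).trans (hMg s hs)) (norm_nonneg _) hQ0
    · rw [norm_mul, norm_star, Complex.norm_real]
      exact mul_le_mul (hQ1 y hy) ((norm_ex_le _ _).trans (hMf s hs)) (norm_nonneg _) hQ10
  have hB : Tendsto (fun s => ∫ y in (0:ℝ)..H, (((s - t)⁻¹ : ℝ) • (prim (f s) y - prim (f t) y)) *
        (eeT W W1 (f s) (f1 s) y + eeT W W1 (f t) (f1 t) y)) (𝓝[Icc a b \ {t}] t)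
      (𝓝 (∫ y in (0:ℝ)..H, rh k (f t) (f1 t) (G t) y *
        (eeT W W1 (f t) (f1 t) y + eeT W W1 (f t) (f1 t) y))) := by
    refine ei_dct (C := C * ((Q * Mg + Q1 * Mf) + (Q * Mg + Q1 * Mf))) ?_ ?_ ?_
    · refine Eventually.of_forall fun s => ?_
      have q1 := ei_prim_cont (f s)
      have q2 := ei_prim_cont (f t)
      have q3 := ee_T_cont cW cW1 (f s) (f1 s)
      have q4 := ee_T_cont cW cW1 (f t) (f1 t)
      fun_prop
    · filter_upwards [hnb] with s hs y hy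
      have hst : s - t ≠ 0 := sub_ne_zero.2 hs.2
      rw [norm_mul, norm_smul, norm_inv, Real.norm_eq_abs]
      refine mul_le_mul ?_ ((norm_add_le _ _).trans (add_le_add (hTb s hs.1 y hy) (hTb t ht y hy)))
        (norm_nonneg _) hC0
      rw [inv_mul_le_iff₀ (abs_pos.2 hst), mul_comm]
      exact ei_prim_diff hC h.eq ht hs.1 hy
    · intro y hy
      have hT : Tendsto (fun s => eeT W W1 (f s) (f1 s) y) (𝓝[Icc a b \ {t}] t)
          (𝓝 (eeT W W1 (f t) (f1 t) y)) := by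
        unfold eeT
        exact (tendsto_const_nhds.mul (pc h.cf1 y).star).add
          (tendsto_const_nhds.mul (pc h.cf y).star)
      refine Tendsto.mul ?_ (hT.add tendsto_const_nhds)
      have := hasDerivWithinAt_iff_tendsto_slope.1 (ee_prim_time h ht hy)
      refine this.congr fun s => ?_
      rw [slope_def_module]
  have h0' : W 0 = 0 ∨ ex (f t) 0 = 0 := h0.imp id fun h => h t ht
  rw [← ee_final cW cW1 dW (h.d t ht) h0' (hH' t ht) k]
  refine ((Complex.continuous_re.tendsto _).comp hB).neg.congr' ?_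
  filter_upwards [hnb] with s hs
  rw [ee_slope cW cW1 dW (h.d t ht) (h.d s hs.1) (hH' t ht) (hH' s hs.1)]
  rfl

end

end Pool.Agent.Lib.MP_79abb3_an.FW
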