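import Pool.Agent.Lib.MP_79abb3_an.FW.Def
import Pool.Agent.Lib.MP_79abb3_an.P25.PairAlg
import Pool.Agent.Lib.MP_79abb3_an.P25.Tested

/-!
FW-11a: testing with a fixed function.
-/

set_option autoImplicit false
set_option linter.unusedSectionVars false

open MeasureTheory Set Filter Topology Function

namespace Pool.Agent.Lib.MP_79abb3_an.FW

open Pool.Agent.Lib.MP_79abb3_an.P25

section
variable {H : ℝ} [hH : Fact (0 < H)]

/-- The primitive in `z` of a solution is differentiable in time, in the sup norm. -/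
theorem HE.prim_deriv {k a b : ℝ} {f f1 G : ℝ → CI H} (h : HE k a b f f1 G) : ∀ t ∈ Icc a b,
    HasDerivWithinAt (fun t => Eop 0 (f t)) (Tst.rC k (f t) (f1 t) (G t)) (Icc a b) t := by
  intro t ht
  have hab : a ≤ b := ht.1.trans ht.2
  have hcont : ContinuousOn (fun t => Tst.rC k (f t) (f1 t) (G t)) (Icc a b) :=
    Tst.rC_cont h.cf h.cf1 h.cG
  obtain ⟨g, hg, hgeq⟩ : ∃ g : ℝ → CI H, Continuous g ∧
      ∀ s ∈ Icc a b, g s = Tst.rC k (f s) (f1 s) (G s) := by
    refine ⟨IccExtend hab ((Icc a b).domRestrict fun t => Tst.rC k (f t) (f1 t) (G t)), ?_, ?_⟩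
    · exact Continuous.Icc_extend' (continuousOn_iff_continuous_domRestrict.1 hcont)
    · intro s hs
      rw [IccExtend_of_mem _ _ hs]
      rfl
  have key : ∀ s ∈ Icc a b, Eop 0 (f s) = Eop 0 (f a) + ∫ u in a..s, g u := by
    intro s hs
    refine ci_ext fun z hz => ?_
    have h1 : ex (∫ u in a..s, g u) z = ∫ u in a..s, ex (g u) z := by
      have := (evL (H := H) z).intervalIntegral_comp_comm (μ := volume) (a := a) (b := s)
        (f := g) (hg.intervalIntegrable a s)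
      simpa only [evL_apply] using this.symm
    rw [ex_add, h1, Tst.ex_Eop0 _ hz, Tst.ex_Eop0 _ hz]
    have h2 := h.eq z hz a ⟨le_rfl, hab⟩ s hs
    have h3 : ∫ u in a..s, ex (g u) z = ∫ u in a..s, rh k (f u) (f1 u) (G u) z := by
      refine intervalIntegral.integral_congr fun u hu => ?_
      rw [uIcc_of_le hs.1] at hu
      rw [hgeq u ⟨hu.1, hu.2.trans hs.2⟩, Tst.ex_rC _ _ _ _ hz]
    rw [h3, ← h2]
    ring
  have h4 : HasDerivAt (fun s => Eop 0 (f a) + ∫ u in a..s, g u) (g t) t :=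
    ((hg.integral_hasStrictDerivAt a t).hasDerivAt).const_add _
  rw [← hgeq t ht]
  exact h4.hasDerivWithinAt.congr key (key t ht)

private theorem het_bpJ (f g : CI H) : bpJ f g = Tst.LH H (f * g) := rfl

/-- Integration by parts on `[0,H]`. -/
private theorem het_parts {u u1 v v1 : CI H} (hu : IsD u u1) (hv : IsD v v1) :
    bpJ u1 v = ex u H * ex v H - ex u 0 * ex v 0 - bpJ u v1 := by
  have h := Tst.LH_isD (Tst.IsD_mul hu hv)
  rw [map_add, ex_mul, ex_mul] at h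
  rw [het_bpJ, het_bpJ]
  linear_combination h

/-- Testing with a fixed function of class `C²` (only `φ`, `φ'` and `φ''` are used). -/
theorem HE.test {k a b : ℝ} {f f1 G : ℝ → CI H} (h : HE k a b f f1 G) {φ φ1 φ2 : CI H}
    (hφ : IsD φ φ1) (hφ1 : IsD φ1 φ2) : ∀ t ∈ Icc a b,
    HasDerivWithinAt (fun t => bpJ (f t) φ)
      (ex (f1 t) H * ex φ H - ex (f1 t) 0 * ex φ 0 - (ex (f t) H * ex φ1 H - ex (f t) 0 * ex φ1 0) +
        bpJ (f t) φ2 - ((k ^ 2 : ℝ) : ℂ) * bpJ (f t) φ + bpJ (G t) φ) (Icc a b) t := by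
  intro t ht
  have hprim : ∀ g : CI H, bpJ g φ = ex (Eop 0 g) H * ex φ H - bpJ (Eop 0 g) φ1 := by
    intro g
    have := het_parts (Tst.isD_Eop0 g) hφ
    rw [Eop_zero, zero_mul, sub_zero] at this
    exact this
  have h1 := h.prim_deriv t ht
  -- the functional
  have hL : ∀ g : CI H, ex g H * ex φ H - bpJ g φ1 =
      (evL H g) * ex φ H - Tst.LH H (g * φ1) := fun g => rfl
  have h2 : HasDerivWithinAt (fun t => (evL H (Eop 0 (f t))) * ex φ H -
      Tst.LH H (Eop 0 (f t) * φ1)) ((evL H (Tst.rC k (f t) (f1 t) (G t))) * ex φ H -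
      Tst.LH H (Tst.rC k (f t) (f1 t) (G t) * φ1)) (Icc a b) t := by
    have a1 : HasDerivWithinAt (fun t => evL H (Eop 0 (f t)))
        (evL H (Tst.rC k (f t) (f1 t) (G t))) (Icc a b) t :=
      (evL (H := H) H).hasFDerivAt.comp_hasDerivWithinAt t h1
    have a2 : HasDerivWithinAt (fun t => Tst.LH H (Eop 0 (f t) * φ1))
        (Tst.LH H (Tst.rC k (f t) (f1 t) (G t) * φ1)) (Icc a b) t :=
      (Tst.LH H).hasFDerivAt.comp_hasDerivWithinAt t (h1.mul_const φ1)
    exact (a1.mul_const _).sub a2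
  have h3 : (fun t => bpJ (f t) φ) = fun t => (evL H (Eop 0 (f t))) * ex φ H -
      Tst.LH H (Eop 0 (f t) * φ1) := by
    funext s
    rw [hprim]
    rfl
  rw [h3]
  refine h2.congr_deriv ?_
  rw [← hL]
  have hH' : H ∈ Icc (0:ℝ) H := ⟨hH.out.le, le_rfl⟩
  -- pieces
  have p1 := het_parts (h.d t ht) hφ1
  have p2 := hprim (f t)
  have p3 := hprim (G t)
  have p4 : bpJ (ContinuousMap.const _ (ex (f1 t) 0) : CI H) φ1 =
      ex (f1 t) 0 * (ex φ H - ex φ 0) := by
    have h5 : IsD (ContinuousMap.const _ (1 : ℂ) : CI H) 0 := Tst.isD_const 1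
    have h6 := Tst.LH_isD hφ
    have h7 : (ContinuousMap.const _ (ex (f1 t) 0) : CI H) * φ1 = (ex (f1 t) 0) • φ1 := by
      refine ci_ext fun z _ => ?_
      rfl
    rw [het_bpJ, h7, Tst.LH_apply]
    rw [Tst.LH_apply] at h6
    rw [← h6, ← intervalIntegral.integral_const_mul]
    rfl
  have p5 : bpJ (Tst.rC k (f t) (f1 t) (G t)) φ1 = bpJ (f1 t) φ1 -
      bpJ (ContinuousMap.const _ (ex (f1 t) 0) : CI H) φ1 -
      ((k ^ 2 : ℝ) : ℂ) * bpJ (Eop 0 (f t)) φ1 + bpJ (Eop 0 (G t)) φ1 := by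
    unfold Tst.rC
    rw [bpJ_add_left, bpJ_sub_left, bpJ_sub_left, bpJ_rsmul_left]
  have p6 : ex (Tst.rC k (f t) (f1 t) (G t)) H = ex (f1 t) H - ex (f1 t) 0 -
      ((k ^ 2 : ℝ) : ℂ) * ex (Eop 0 (f t)) H + ex (Eop 0 (G t)) H := by
    unfold Tst.rC
    rw [ex_add, ex_sub, ex_sub, ex_rsmul]
    rfl
  rw [p5, p6, p4, p1, p2, p3]
  ring

end

end Pool.Agent.Lib.MP_79abb3_an.FW
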