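import Mathlib

/-!
FW-77: the time profile of the potential flow.
-/

set_option autoImplicit false
set_option linter.unusedSectionVars false

open MeasureTheory Set Filter Topology Function

namespace Pool.Agent.Lib.MP_79abb3_an.FW


section
variable {H : ℝ} [hH : Fact (0 < H)]

theorem profile : ∃ P P1 : ℝ → ℝ, Continuous P ∧ Continuous P1 ∧ (∀ t, HasDerivAt P (P1 t) t) ∧
    (∀ t, t ≤ 0 → P t = 0) ∧ (∀ t, 1 ≤ t → P t = 1) ∧ (∀ t, P t ∈ Icc (0:ℝ) 1) ∧
    ∃ L, ∀ t, |P1 t| ≤ L := by
  have hc : ContDiff ℝ 1 Real.smoothTransition := Real.smoothTransition.contDiff (n := 1)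
  have hc1 : Continuous (deriv Real.smoothTransition) := hc.continuous_deriv le_rfl
  refine ⟨Real.smoothTransition, deriv Real.smoothTransition, hc.continuous, hc1, fun t => ?_,
    fun t ht => Real.smoothTransition.zero_of_nonpos ht,
    fun t ht => Real.smoothTransition.one_of_one_le ht,
    fun t => ⟨Real.smoothTransition.nonneg t, Real.smoothTransition.le_one t⟩, ?_⟩
  · exact ((hc.differentiable one_ne_zero) t).hasDerivAt
  · obtain ⟨L, hL⟩ := (isCompact_Icc (a := (0:ℝ)) (b := 1)).exists_bound_of_continuousOn
      hc1.continuousOn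
    have hL0 : 0 ≤ L := (norm_nonneg _).trans (hL 0 ⟨le_rfl, zero_le_one⟩)
    refine ⟨L, fun t => ?_⟩
    rcases lt_or_ge t 0 with h | h
    · have : deriv Real.smoothTransition t = 0 := by
        have h1 : Real.smoothTransition =ᶠ[𝓝 t] fun _ => 0 := by
          filter_upwards [Iio_mem_nhds h] with s hs
          exact Real.smoothTransition.zero_of_nonpos (le_of_lt hs)
        rw [h1.deriv_eq]
        exact deriv_const t 0
      rw [this, abs_zero]
      exact hL0
    rcases lt_or_ge 1 t with h' | h'
    · have : deriv Real.smoothTransition t = 0 := by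
        have h1 : Real.smoothTransition =ᶠ[𝓝 t] fun _ => 1 := by
          filter_upwards [Ioi_mem_nhds h'] with s hs
          exact Real.smoothTransition.one_of_one_le (le_of_lt hs)
        rw [h1.deriv_eq]
        exact deriv_const t 1
      rw [this, abs_zero]
      exact hL0
    · exact hL t ⟨h, h'⟩

end

end Pool.Agent.Lib.MP_79abb3_an.FW
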