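import Pool.Agent.Lib.MP_79abb3_an.FW.ExB
import Pool.Agent.Lib.MP_79abb3_an.FW.SumsB
import Pool.Agent.Lib.MP_79abb3_an.FW.VelB
import Pool.Agent.Lib.MP_79abb3_an.FW.YoungB

/-!
FW-56b: splitting of the sources for the estimate in `X` (3.7).
-/

set_option autoImplicit false
set_option linter.unusedSectionVars false

open MeasureTheory Set Filter Topology Function

namespace Pool.Agent.Lib.MP_79abb3_an.FW

open Pool.Agent.Lib.MP_79abb3_an.P25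

section
variable {H : ℝ} [hH : Fact (0 < H)]

private theorem xb_sum_le {f g : ℤ → ℝ} (hf : ∀ n, 0 ≤ f n) (hg : Summable g) (h : ∀ n, f n ≤ g n) :
    Summable f ∧ ∑' n, f n ≤ ∑' n, g n := by
  have hs := Summable.of_nonneg_of_le hf h hg
  exact ⟨hs, hs.tsum_le_tsum h hg⟩

private theorem xb_conv {a b : ℤ → CI H} (ha : Summable fun n => ‖a n‖)
    (hb : Summable fun n => ‖b n‖) :
    (Summable fun n => ‖conv a b n‖) ∧ ∑' n, ‖conv a b n‖ ≤ (∑' n, ‖a n‖) * ∑' n, ‖b n‖ := by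
  have h := young11 (fun n => norm_nonneg (a n)) (fun n => norm_nonneg (b n)) ha hb
  have hle : ∀ n, ‖conv a b n‖ ≤ ∑' m, ‖a m‖ * ‖b (n - m)‖ := by
    intro n
    unfold conv
    have hs : Summable fun m => ‖a m * b (n - m)‖ :=
      Summable.of_nonneg_of_le (fun _ => norm_nonneg _) (fun m => norm_mul_le _ _) (h.1 n)
    refine (norm_tsum_le_tsum_norm hs).trans ?_
    exact hs.tsum_le_tsum (fun m => norm_mul_le _ _) (h.1 n)
  obtain ⟨h1, h2⟩ := xb_sum_le (fun n => norm_nonneg _) h.2.1 hle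
  exact ⟨h1, h2.trans_eq h.2.2⟩

private theorem xb_conv_add {f f' g : ℤ → CI H} (hf : Summable fun n => ‖f n‖)
    (hf' : Summable fun n => ‖f' n‖) (hg : Summable fun n => ‖g n‖) (n : ℤ) :
    conv (fun m => f m + f' m) g n = conv f g n + conv f' g n := by
  have h1 := (young11 (fun n => norm_nonneg (f n)) (fun n => norm_nonneg (g n)) hf hg).1 n
  have h2 := (young11 (fun n => norm_nonneg (f' n)) (fun n => norm_nonneg (g n)) hf' hg).1 n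
  have s1 : Summable fun m => f m * g (n - m) :=
    Summable.of_norm_bounded h1 fun m => norm_mul_le _ _
  have s2 : Summable fun m => f' m * g (n - m) :=
    Summable.of_norm_bounded h2 fun m => norm_mul_le _ _
  unfold conv
  rw [← s1.tsum_add s2]
  simp only [add_mul]

private theorem xb_N0 {ω : ℝ} {b : ℤ → Xn H} (hb : ∀ n, (b n).1 = 0) (x : ℤ → Xn H) (n : ℤ) :
    N0 ω b x n = conv (fv ω b) (fun m => is (ω * m) • (x m).1.2.2) n +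
      conv (fw ω b) (fun m => (x m).1.2.1) n := by
  unfold N0
  have h : conv (fun m => (b m).1.1) (fun m => (x m).1.1) n = 0 := by
    unfold conv
    have h1 : ∀ m, (b m).1.1 = 0 := fun m => by rw [hb m]; rfl
    simp [h1]
  rw [h, add_zero]
  rfl

private theorem xb_xs {ω : ℝ} {x : ℤ → Xn H} (hx : Summable fun n => ‖x n‖) :
    (Summable fun m : ℤ => ‖is (ω * m) • (x m).1.2.2‖) ∧ (Summable fun m => ‖(x m).1.2.1‖) ∧
    ∑' m : ℤ, ‖is (ω * m) • (x m).1.2.2‖ ≤ ∑' m, ‖x m‖ ∧ ∑' m, ‖(x m).1.2.1‖ ≤ ∑' m, ‖x m‖ := by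
  have h1 : ∀ m : ℤ, ‖is (ω * m) • (x m).1.2.2‖ ≤ ‖x m‖ := fun m => by
    rw [norm_smul]
    exact (mul_le_of_le_one_left (norm_nonneg _) (norm_is_le _)).trans (n122 (x m))
  obtain ⟨a1, a2⟩ := xb_sum_le (fun m => norm_nonneg _) hx h1
  obtain ⟨b1, b2⟩ := xb_sum_le (fun m => norm_nonneg _) hx (fun m => n121 (x m))
  exact ⟨a1, b1, a2, b2⟩

private theorem xb_fs {ω : ℝ} {b : ℤ → Xn H} (hb : VF ω b) :
    (Summable fun n => ‖(b n).2.1‖) ∧ (Summable fun n => ‖fw ω b n‖) ∧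
    (Summable fun n => ‖fv ω b n‖) ∧ ∑' n, ‖fw ω b n‖ ≤ ∑' n, ‖(b n).2.1‖ ∧
    ∑' n, ‖fv ω b n‖ ≤ 2 * ∑' n, ‖(b n).2.1‖ := by
  obtain ⟨h0, -⟩ := xb_sum_le (fun n => norm_nonneg _) hb.s (fun n => n21 (b n))
  obtain ⟨a1, a2⟩ := xb_sum_le (fun n => norm_nonneg _) h0
    (fun n => (vel_bounds (ω := ω) hb.o n).1)
  obtain ⟨c1, c2⟩ := xb_sum_le (fun n => norm_nonneg _) (h0.mul_left 2)
    (fun n => (vel_bounds (ω := ω) hb.o n).2.2.2.1)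
  rw [tsum_mul_left] at c2
  exact ⟨h0, a1, c1, a2, c2⟩

private theorem xb_N0_add {ω : ℝ} {b b' : ℤ → Xn H} (hb : VF ω b) (hb' : VF ω b') {x : ℤ → Xn H}
    (hx : Summable fun n => ‖x n‖) (n : ℤ) :
    N0 ω (fun n => b n + b' n) x n = N0 ω b x n + N0 ω b' x n := by
  have e1 : fv ω (fun n => b n + b' n) = fun n => fv ω b n + fv ω b' n :=
    funext fun m => fv_add ω b b' m
  have e2 : fw ω (fun n => b n + b' n) = fun n => fw ω b n + fw ω b' n :=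
    funext fun m => fw_add ω b b' m
  obtain ⟨-, w1, v1, -, -⟩ := xb_fs hb
  obtain ⟨-, w2, v2, -, -⟩ := xb_fs hb'
  obtain ⟨s1, s2, -, -⟩ := xb_xs (ω := ω) hx
  rw [xb_N0 (hb.add hb').o, xb_N0 hb.o, xb_N0 hb'.o, e1, e2, xb_conv_add v1 v2 s1,
    xb_conv_add w1 w2 s2]
  abel

private theorem xb_N0_le {ω : ℝ} {b : ℤ → Xn H} (hb : VF ω b) {x : ℤ → Xn H}
    (hx : Summable fun n => ‖x n‖) :
    (Summable fun n => ‖N0 ω b x n‖) ∧
      ∑' n, ‖N0 ω b x n‖ ≤ 3 * (∑' n, ‖(b n).2.1‖) * ∑' n, ‖x n‖ := by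
  obtain ⟨-, w1, v1, w2, v2⟩ := xb_fs hb
  obtain ⟨s1, s2, t1, t2⟩ := xb_xs (ω := ω) hx
  obtain ⟨c1, c2⟩ := xb_conv v1 s1
  obtain ⟨d1, d2⟩ := xb_conv w1 s2
  have hle : ∀ n, ‖N0 ω b x n‖ ≤ ‖conv (fv ω b) (fun m => is (ω * m) • (x m).1.2.2) n‖ +
      ‖conv (fw ω b) (fun m => (x m).1.2.1) n‖ := fun n => by
    rw [xb_N0 hb.o]
    exact norm_add_le _ _
  obtain ⟨e1, e2⟩ := xb_sum_le (fun n => norm_nonneg _) (c1.add d1) hle
  refine ⟨e1, e2.trans ?_⟩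
  rw [c1.tsum_add d1]
  have hX : 0 ≤ ∑' n, ‖x n‖ := tsum_nonneg fun n => norm_nonneg _
  have hβ : 0 ≤ ∑' n, ‖(b n).2.1‖ := tsum_nonneg fun n => norm_nonneg _
  have f1 : ∑' n, ‖conv (fv ω b) (fun m => is (ω * m) • (x m).1.2.2) n‖ ≤
      (2 * ∑' n, ‖(b n).2.1‖) * ∑' n, ‖x n‖ :=
    c2.trans (mul_le_mul v2 t1 (tsum_nonneg fun n => norm_nonneg _) (by positivity))
  have f2 : ∑' n, ‖conv (fw ω b) (fun m => (x m).1.2.1) n‖ ≤
      (∑' n, ‖(b n).2.1‖) * ∑' n, ‖x n‖ :=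
    d2.trans (mul_le_mul w2 t2 (tsum_nonneg fun n => norm_nonneg _) hβ)
  linarith

private theorem xb_n2s {ω : ℝ} {b : ℤ → Xn H} (hb : VF ω b) :
    (Summable fun n => n2 (b n).2.1) ∧ (Summable fun n => n2 (fw ω b n)) ∧
    (Summable fun n => n2 (fv ω b n)) ∧ ∑' n, n2 (fw ω b n) ≤ ∑' n, n2 (b n).2.1 ∧
    ∑' n, n2 (fv ω b n) ≤ 2 * ∑' n, n2 (b n).2.1 := by
  have h0 : Summable fun n => n2 (b n).2.1 := (n2_summable (xb_fs hb).1).1
  obtain ⟨a1, a2⟩ := xb_sum_le (fun n => n2_nonneg _) h0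
    (fun n => (vel_bounds (ω := ω) hb.o n).2.1)
  obtain ⟨c1, c2⟩ := xb_sum_le (fun n => n2_nonneg _) (h0.mul_left 2)
    (fun n => (vel_bounds (ω := ω) hb.o n).2.2.2.2.1)
  rw [tsum_mul_left] at c2
  exact ⟨h0, a1, c1, a2, c2⟩

private theorem xb_N0_n2 {ω : ℝ} {b : ℤ → Xn H} (hb : VF ω b) {x : ℤ → Xn H}
    (hx : Summable fun n => ‖x n‖) :
    (Summable fun n => n2 (N0 ω b x n)) ∧
      ∑' n, n2 (N0 ω b x n) ≤ 3 * (∑' n, n2 (b n).2.1) * ∑' n, ‖x n‖ := by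
  obtain ⟨-, w1, v1, -, -⟩ := xb_fs hb
  obtain ⟨-, -, -, w2, v2⟩ := xb_n2s hb
  obtain ⟨s1, s2, t1, t2⟩ := xb_xs (ω := ω) hx
  obtain ⟨c1, c2⟩ := conv_l1l2 s1 v1
  obtain ⟨d1, d2⟩ := conv_l1l2 s2 w1
  have hle : ∀ n, n2 (N0 ω b x n) ≤ n2 (conv (fun m : ℤ => is (ω * m) • (x m).1.2.2) (fv ω b) n) +
      n2 (conv (fun m => (x m).1.2.1) (fw ω b) n) := fun n => by
    rw [xb_N0 hb.o, conv_comm (fv ω b), conv_comm (fw ω b)]
    exact n2_add _ _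
  obtain ⟨e1, e2⟩ := xb_sum_le (fun n => n2_nonneg _) (c1.add d1) hle
  refine ⟨e1, e2.trans ?_⟩
  rw [c1.tsum_add d1]
  have hX : 0 ≤ ∑' n, ‖x n‖ := tsum_nonneg fun n => norm_nonneg _
  have hβ : 0 ≤ ∑' n, n2 (b n).2.1 := tsum_nonneg fun n => n2_nonneg _
  have f1 : ∑' n, n2 (conv (fun m : ℤ => is (ω * m) • (x m).1.2.2) (fv ω b) n) ≤
      (∑' n, ‖x n‖) * (2 * ∑' n, n2 (b n).2.1) :=
    c2.trans (mul_le_mul t1 v2 (tsum_nonneg fun n => n2_nonneg _) hX)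
  have f2 : ∑' n, n2 (conv (fun m => (x m).1.2.1) (fw ω b) n) ≤
      (∑' n, ‖x n‖) * ∑' n, n2 (b n).2.1 :=
    d2.trans (mul_le_mul t2 w2 (tsum_nonneg fun n => n2_nonneg _) hX)
  linarith

private theorem xb_Itop (k : ℝ) (B : CI H) : ‖(Complex.I * (k : ℂ))‖ = |k| := by
  rw [norm_mul, Complex.norm_I, one_mul, Complex.norm_real, Real.norm_eq_abs]

private theorem xb_Top (k : ℝ) (A B : CI H) :
    ‖Top k (|k| • A + (Complex.I * (k : ℂ)) • B)‖ ≤ ‖A‖ + ‖B‖ ∧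
    n2 (Top k (|k| • A + (Complex.I * (k : ℂ)) • B)) ≤ n2 A + n2 B := by
  have e : Top k (|k| • A + (Complex.I * (k : ℂ)) • B) =
      |k| • Top k A + (Complex.I * (k : ℂ)) • Top k B := by
    rw [map_add]
    congr 1
    · exact (Top k).map_smul_of_tower _ A
    · exact (Top k).map_smul _ B
  rw [e]
  constructor
  · refine (norm_add_le _ _).trans (add_le_add ?_ ?_)
    · rw [norm_smul, Real.norm_eq_abs, abs_abs]
      exact norm_kTop_le k A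
    · rw [norm_smul, xb_Itop k B]
      exact norm_kTop_le k B
  · refine (n2_add _ _).trans (add_le_add ?_ ?_)
    · rw [n2_rsmul, abs_abs]
      exact n2_Top k A
    · rw [n2_smul, xb_Itop k B]
      exact n2_Top k B

private theorem xb_fo {ω : ℝ} {a : ℤ → Xn H} (ha : VF ω a) :
    (Summable fun n => ‖fo ω a n‖) ∧ ∑' n, ‖fo ω a n‖ ≤ 2 * ∑' n, ‖a n‖ := by
  have h1 : ∀ n, ‖fo ω a n‖ ≤ 2 * ‖a n‖ := fun n => by
    rw [fo_eq ha.o]
    have h1 := n222 (a n)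
    have h2 := n221 (a n)
    have h3 := norm_sub_le (a n).2.2.2 (a n).2.2.1
    linarith
  obtain ⟨a1, a2⟩ := xb_sum_le (fun n => norm_nonneg _) (ha.s.mul_left 2) h1
  rw [tsum_mul_left] at a2
  exact ⟨a1, a2⟩

private theorem xb_Bf_le {ω : ℝ} {a b : ℤ → Xn H} (ha : VF ω a) (hb : VF ω b) :
    (Summable fun n => ‖(Bf ω a b n).2‖) ∧
      ∑' n, ‖(Bf ω a b n).2‖ ≤ 8 * (∑' n, ‖(b n).2.1‖) * ∑' n, ‖a n‖ := by
  obtain ⟨-, w1, v1, w2, v2⟩ := xb_fs hb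
  obtain ⟨o1, o2⟩ := xb_fo ha
  obtain ⟨c1, c2⟩ := xb_conv o1 w1
  obtain ⟨d1, d2⟩ := xb_conv o1 v1
  have hle : ∀ n, ‖(Bf ω a b n).2‖ ≤ 2 * ‖conv (fo ω a) (fw ω b) n‖ +
      ‖conv (fo ω a) (fv ω b) n‖ := fun n => by
    rw [Bf2_eq hb.o ha.o]
    refine (norm_sub_le _ _).trans ?_
    have h := (xb_Top (ω * n) (conv (fo ω a) (fw ω b) n) (conv (fo ω a) (fv ω b) n)).1
    linarith
  have hX : 0 ≤ ∑' n, ‖a n‖ := tsum_nonneg fun n => norm_nonneg _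
  have hβ : 0 ≤ ∑' n, ‖(b n).2.1‖ := tsum_nonneg fun n => norm_nonneg _
  obtain ⟨e1, e2⟩ := xb_sum_le (fun n => norm_nonneg _) ((c1.mul_left 2).add d1) hle
  refine ⟨e1, e2.trans ?_⟩
  rw [(c1.mul_left 2).tsum_add d1, tsum_mul_left]
  have f1 : ∑' n, ‖conv (fo ω a) (fw ω b) n‖ ≤ (2 * ∑' n, ‖a n‖) * ∑' n, ‖(b n).2.1‖ :=
    c2.trans (mul_le_mul o2 w2 (tsum_nonneg fun n => norm_nonneg _) (by positivity))
  have f2 : ∑' n, ‖conv (fo ω a) (fv ω b) n‖ ≤ (2 * ∑' n, ‖a n‖) * (2 * ∑' n, ‖(b n).2.1‖) :=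
    d2.trans (mul_le_mul o2 v2 (tsum_nonneg fun n => norm_nonneg _) (by positivity))
  linarith

private theorem xb_Bf_n2 {ω : ℝ} {a b : ℤ → Xn H} (ha : VF ω a) (hb : VF ω b) :
    (Summable fun n => n2 (Bf ω a b n).2) ∧
      ∑' n, n2 (Bf ω a b n).2 ≤ 8 * (∑' n, n2 (b n).2.1) * ∑' n, ‖a n‖ := by
  obtain ⟨-, w1, v1, -, -⟩ := xb_fs hb
  obtain ⟨-, -, -, w2, v2⟩ := xb_n2s hb
  obtain ⟨o1, o2⟩ := xb_fo ha
  obtain ⟨c1, c2⟩ := conv_l1l2 o1 w1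
  obtain ⟨d1, d2⟩ := conv_l1l2 o1 v1
  have hle : ∀ n, n2 (Bf ω a b n).2 ≤ 2 * n2 (conv (fo ω a) (fw ω b) n) +
      n2 (conv (fo ω a) (fv ω b) n) := fun n => by
    rw [Bf2_eq hb.o ha.o]
    refine (n2_sub _ _).trans ?_
    have h := (xb_Top (ω * n) (conv (fo ω a) (fw ω b) n) (conv (fo ω a) (fv ω b) n)).2
    linarith
  have hX : 0 ≤ ∑' n, ‖a n‖ := tsum_nonneg fun n => norm_nonneg _
  have hβ : 0 ≤ ∑' n, n2 (b n).2.1 := tsum_nonneg fun n => n2_nonneg _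
  obtain ⟨e1, e2⟩ := xb_sum_le (fun n => n2_nonneg _) ((c1.mul_left 2).add d1) hle
  refine ⟨e1, e2.trans ?_⟩
  rw [(c1.mul_left 2).tsum_add d1, tsum_mul_left]
  have f1 : ∑' n, n2 (conv (fo ω a) (fw ω b) n) ≤ (2 * ∑' n, ‖a n‖) * ∑' n, n2 (b n).2.1 :=
    c2.trans (mul_le_mul o2 w2 (tsum_nonneg fun n => n2_nonneg _) (by positivity))
  have f2 : ∑' n, n2 (conv (fo ω a) (fv ω b) n) ≤ (2 * ∑' n, ‖a n‖) * (2 * ∑' n, n2 (b n).2.1) :=
    d2.trans (mul_le_mul o2 v2 (tsum_nonneg fun n => n2_nonneg _) (by positivity))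
  linarith

private theorem xb_pu (ω : ℝ) (N : ℕ) (a : ℝ) (n : ℤ) :
    (pu ω N a n : Xn H).2.1 = a • (pu ω N 1 n : Xn H).2.1 := by
  show ((Complex.I * ((a / 2 * sN N n : ℝ) : ℂ)) • fexp (ω * N) : CI H) =
    a • ((Complex.I * ((1 / 2 * sN N n : ℝ) : ℂ)) • fexp (ω * N) : CI H)
  refine ci_ext fun z _ => ?_
  rw [ex_rsmul, ex_smul, ex_smul]
  push_cast
  ring

private theorem xb_kap (m a : ℝ) : (kap m a : CI H) = a ^ 2 • kap m 1 := by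
  refine ci_ext fun z hz => ?_
  rw [ex_rsmul, kap, kap, ex_rc _ _ hz, ex_rc _ _ hz]
  push_cast
  ring

private theorem xb_kap1 (m a : ℝ) : (kap1 m a : CI H) = a ^ 2 • kap1 m 1 := by
  refine ci_ext fun z hz => ?_
  rw [ex_rsmul, kap1, kap1, ex_rc _ _ hz, ex_rc _ _ hz]
  push_cast
  ring

private theorem xb_kap_le {m a R : ℝ} (ha : |a| ≤ R) :
    ‖(kap m a : CI H)‖ ≤ R ^ 2 * ‖(kap m 1 : CI H)‖ ∧
    ‖(kap1 m a : CI H)‖ ≤ R ^ 2 * ‖(kap1 m 1 : CI H)‖ := by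
  have h : ‖(a ^ 2 : ℝ)‖ ≤ R ^ 2 := by
    rw [norm_pow, Real.norm_eq_abs]
    exact pow_le_pow_left₀ (abs_nonneg a) ha 2
  constructor
  · rw [xb_kap, norm_smul]
    exact mul_le_mul_of_nonneg_right h (norm_nonneg _)
  · rw [xb_kap1, norm_smul]
    exact mul_le_mul_of_nonneg_right h (norm_nonneg _)

private theorem xb_tr {m a R : ℝ} (ha : |a| ≤ R) (x : Xn H) :
    ‖tr m a x‖ ≤ R ^ 2 * (2 * ‖(kap m 1 : CI H)‖ + ‖(kap1 m 1 : CI H)‖) * ‖x‖ := by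
  obtain ⟨h1, h2⟩ := xb_kap_le (H := H) (m := m) ha
  have hx := norm_nonneg x
  have a1 : ‖kap m a * x.2.2.2‖ ≤ R ^ 2 * ‖(kap m 1 : CI H)‖ * ‖x‖ :=
    (norm_mul_le _ _).trans (mul_le_mul h1 (n222 x) (norm_nonneg _) (by positivity))
  have a2 : ‖kap1 m a * x.2.1‖ ≤ R ^ 2 * ‖(kap1 m 1 : CI H)‖ * ‖x‖ :=
    (norm_mul_le _ _).trans (mul_le_mul h2 (n21 x) (norm_nonneg _) (by positivity))
  have a3 : ‖kap m a * x.2.2.1‖ ≤ R ^ 2 * ‖(kap m 1 : CI H)‖ * ‖x‖ :=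
    (norm_mul_le _ _).trans (mul_le_mul h1 (n221 x) (norm_nonneg _) (by positivity))
  unfold tr
  have b1 := norm_sub_le (kap m a * x.2.2.2 - kap1 m a * x.2.1) (kap m a * x.2.2.1)
  have b2 := norm_sub_le (kap m a * x.2.2.2) (kap1 m a * x.2.1)
  have e : R ^ 2 * (2 * ‖(kap m 1 : CI H)‖ + ‖(kap1 m 1 : CI H)‖) * ‖x‖ =
    R ^ 2 * ‖(kap m 1 : CI H)‖ * ‖x‖ + R ^ 2 * ‖(kap1 m 1 : CI H)‖ * ‖x‖ +
      R ^ 2 * ‖(kap m 1 : CI H)‖ * ‖x‖ := by ring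
  linarith

/-- The non-inner part of the velocity. -/
private noncomputable def xb_b (ω : ℝ) (N : ℕ) (a : ℝ) (x : ℤ → Xn H) (n : ℤ) : Xn H :=
  ov ω x n + pu ω N a n

private theorem xb_tv (ω : ℝ) (N : ℕ) (a : ℝ) (x : ℤ → Xn H) :
    tv ω N a x = fun n => iv x n + xb_b ω N a x n := by
  funext n
  unfold tv xb_b
  abel

private theorem xb_sg {ω : ℝ} {N : ℕ} {a a1 R : ℝ} (ha1 : |a1| ≤ R) (x : ℤ → Xn H) (n : ℤ) :
    ‖sg ω N a a1 x n‖ ≤ 2 * ‖x n‖ + ‖Top (ω * n) (so ω N a x n)‖ +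
      R * ‖(pu ω N 1 n : Xn H).2.1‖ := by
  unfold sg
  have hH0 := hH.out
  have h1 : ‖ex (x n).1.2.1 0‖ ≤ ‖x n‖ := (norm_ex_le _ _).trans (n121 (x n))
  have h2 : ‖((Real.exp (-|ω * n| * H) : ℝ) : ℂ) * ex (x n).1.2.1 H‖ ≤ ‖x n‖ := by
    rw [norm_mul, Complex.norm_real, Real.norm_eq_abs, abs_of_pos (Real.exp_pos _)]
    have h3 : Real.exp (-|ω * n| * H) ≤ 1 := by
      rw [Real.exp_le_one_iff]
      have : 0 ≤ |ω * n| * H := by positivity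
      linarith
    exact (mul_le_of_le_one_left (norm_nonneg _) h3).trans ((norm_ex_le _ _).trans (n121 (x n)))
  have h3 : ‖ex (Top (ω * n) (so ω N a x n)) 0‖ ≤ ‖Top (ω * n) (so ω N a x n)‖ := norm_ex_le _ _
  have h4 : ‖ex (pu ω N a1 n : Xn H).2.1 0‖ ≤ R * ‖(pu ω N 1 n : Xn H).2.1‖ := by
    refine (norm_ex_le _ _).trans ?_
    rw [xb_pu, norm_smul, Real.norm_eq_abs]
    exact mul_le_mul_of_nonneg_right ha1 (norm_nonneg _)
  have b1 := norm_sub_le (ex (x n).1.2.1 0 - ((Real.exp (-|ω * n| * H) : ℝ) : ℂ) *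
    ex (x n).1.2.1 H - ex (Top (ω * n) (so ω N a x n)) 0) (ex (pu ω N a1 n : Xn H).2.1 0)
  have b2 := norm_sub_le (ex (x n).1.2.1 0 - ((Real.exp (-|ω * n| * H) : ℝ) : ℂ) *
    ex (x n).1.2.1 H) (ex (Top (ω * n) (so ω N a x n)) 0)
  have b3 := norm_sub_le (ex (x n).1.2.1 0) (((Real.exp (-|ω * n| * H) : ℝ) : ℂ) *
    ex (x n).1.2.1 H)
  linarith

/-- Pointwise bound of the second component. -/
private theorem xb_p2 {ω : ℝ} {N : ℕ} {a a1 R : ℝ} (ha : |a| ≤ R) (ha1 : |a1| ≤ R)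
    {x : ℤ → Xn H} (hx : ∀ n : ℤ, (x n).2.2.2 = |ω * n| • (x n).2.1) (n : ℤ) (G : CI H) :
    ‖G - kap (ω * N) a * (x n).2.1 - sg ω N a a1 x n • eta (ω * n) +
      ex (x n).2.1 0 • etr (ω * n)‖ ≤ ‖G‖ + R ^ 2 * ‖(kap (ω * N) 1 : CI H)‖ * ‖x n‖ +
        (2 * ‖x n‖ + ‖Top (ω * n) (so ω N a x n)‖ + R * ‖(pu ω N 1 n : Xn H).2.1‖) +
          2 / H * ‖x n‖ := by
  have hH0 := hH.out
  obtain ⟨-, -, -, -, -, n1', -, n3', -⟩ := eta_facts (H := H) (ω * n)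
  have h1 : ‖kap (ω * N) a * (x n).2.1‖ ≤ R ^ 2 * ‖(kap (ω * N) 1 : CI H)‖ * ‖x n‖ :=
    (norm_mul_le _ _).trans (mul_le_mul (xb_kap_le (H := H) ha).1 (n21 (x n)) (norm_nonneg _)
      (by positivity))
  have h2 : ‖sg ω N a a1 x n • (eta (ω * n) : CI H)‖ ≤
      2 * ‖x n‖ + ‖Top (ω * n) (so ω N a x n)‖ + R * ‖(pu ω N 1 n : Xn H).2.1‖ := by
    rw [norm_smul]
    exact (mul_le_of_le_one_right (norm_nonneg _) n1').trans (xb_sg ha1 x n)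
  have h3 : ‖ex (x n).2.1 0 • (etr (ω * n) : CI H)‖ ≤ 2 / H * ‖x n‖ := by
    rw [norm_smul]
    have h4 : |ω * n| * ‖ex (x n).2.1 0‖ ≤ ‖x n‖ := by
      have h5 : ‖ex (x n).2.2.2 0‖ ≤ ‖x n‖ := (norm_ex_le _ _).trans (n222 (x n))
      rw [hx n, ex_rsmul, norm_mul, Complex.norm_real, Real.norm_eq_abs, abs_abs] at h5
      exact h5
    calc ‖ex (x n).2.1 0‖ * ‖(etr (ω * n) : CI H)‖
        ≤ ‖ex (x n).2.1 0‖ * (2 * |ω * n| / H) := mul_le_mul_of_nonneg_left n3' (norm_nonneg _)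
      _ = 2 / H * (|ω * n| * ‖ex (x n).2.1 0‖) := by ring
      _ ≤ 2 / H * ‖x n‖ := mul_le_mul_of_nonneg_left h4 (by positivity)
  have b1 := norm_add_le (G - kap (ω * N) a * (x n).2.1 - sg ω N a a1 x n • (eta (ω * n) : CI H))
    (ex (x n).2.1 0 • (etr (ω * n) : CI H))
  have b2 := norm_sub_le (G - kap (ω * N) a * (x n).2.1) (sg ω N a a1 x n • (eta (ω * n) : CI H))
  have b3 := norm_sub_le G (kap (ω * N) a * (x n).2.1)
  linarith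

/-- Final arithmetic. -/
private theorem xb_arith {b y X β R' cN K K1 h s : ℝ} (hb : 0 ≤ b) (hy : 0 ≤ y) (hX : 0 ≤ X)
    (hβ : 0 ≤ β) (hR : 0 ≤ R') (hcN : 0 ≤ cN) (hK : 0 ≤ K) (hK1 : 0 ≤ K1) (hh : 0 < h) (hs : 0 ≤ s)
    (hβb : β ≤ b + R' * cN) :
    (1 + h) * (3 * β * X) + (1 + h) * (R' ^ 2 * (2 * K + K1)) * X + 8 * β * X +
      (R' ^ 2 * K + 2 + 2 / h) * X + s * (3 * y * X) + R' * cN ≤
    (3 * (1 + h) * (1 + R' * cN) + (1 + h) * (R' ^ 2 * (2 * K + K1)) + 8 * (1 + R' * cN) +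
      (R' ^ 2 * K + 2 + 2 / h) + 3 * s + R' * cN + 12) * (1 + b + y) * (X + 1) := by
  have hX1 : X ≤ X + 1 := le_add_of_nonneg_right zero_le_one
  have hX0 : 1 ≤ X + 1 := le_add_of_nonneg_left hX
  have hX10 : 0 ≤ X + 1 := add_nonneg hX zero_le_one
  have hby : 0 ≤ b + y := add_nonneg hb hy
  have hM : 1 ≤ 1 + b + y := by rw [add_assoc]; exact le_add_of_nonneg_right hby
  have hM0' : 0 ≤ 1 + b + y := zero_le_one.trans hM
  have hRc : 0 ≤ R' * cN := mul_nonneg hR hcN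
  have hbM : β ≤ (1 + R' * cN) * (1 + b + y) := by
    have h1 : 0 ≤ R' * cN * (b + y) := mul_nonneg hRc hby
    have h2 : (1 + R' * cN) * (1 + b + y) = 1 + b + y + R' * cN + R' * cN * (b + y) := by ring
    rw [h2]
    linarith
  have hMX : X ≤ (1 + b + y) * (X + 1) := hX1.trans (le_mul_of_one_le_left hX10 hM)
  have hyM : y ≤ 1 + b + y := le_add_of_nonneg_left (add_nonneg zero_le_one hb)
  have hyX : y * X ≤ (1 + b + y) * (X + 1) := mul_le_mul hyM hX1 hX hM0'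
  have h1MX : 1 ≤ (1 + b + y) * (X + 1) := hX0.trans (le_mul_of_one_le_left hX10 hM)
  have hβX : β * X ≤ (1 + R' * cN) * ((1 + b + y) * (X + 1)) := by
    rw [← mul_assoc]
    exact mul_le_mul hbM hX1 hX (mul_nonneg (add_nonneg zero_le_one hRc) hM0')
  obtain ⟨M, hMdef⟩ : ∃ M, M = (1 + b + y) * (X + 1) := ⟨_, rfl⟩
  rw [← hMdef] at hβX h1MX hyX hMX
  have hM0 : 0 ≤ M := zero_le_one.trans h1MX
  have hh1 : 0 ≤ 1 + h := by linarith
  have hS : 0 ≤ R' ^ 2 * K + 2 + 2 / h :=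
    add_nonneg (add_nonneg (mul_nonneg (sq_nonneg _) hK) zero_le_two) (div_nonneg zero_le_two hh.le)
  have hQ : 0 ≤ (1 + h) * (R' ^ 2 * (2 * K + K1)) :=
    mul_nonneg hh1 (mul_nonneg (sq_nonneg _) (add_nonneg (mul_nonneg zero_le_two hK) hK1))
  have t1 : (1 + h) * (3 * β * X) ≤ 3 * (1 + h) * (1 + R' * cN) * M := by
    have h1 := mul_le_mul_of_nonneg_left hβX (mul_nonneg zero_le_three hh1)
    exact (le_of_eq (by ring)).trans (h1.trans (le_of_eq (by ring)))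
  have t2 : (1 + h) * (R' ^ 2 * (2 * K + K1)) * X ≤ (1 + h) * (R' ^ 2 * (2 * K + K1)) * M :=
    mul_le_mul_of_nonneg_left hMX hQ
  have t3 : 8 * β * X ≤ 8 * (1 + R' * cN) * M := by
    have h1 := mul_le_mul_of_nonneg_left hβX (by norm_num : (0:ℝ) ≤ 8)
    exact (le_of_eq (by ring)).trans (h1.trans (le_of_eq (by ring)))
  have t4 : (R' ^ 2 * K + 2 + 2 / h) * X ≤ (R' ^ 2 * K + 2 + 2 / h) * M :=
    mul_le_mul_of_nonneg_left hMX hS
  have t5 : s * (3 * y * X) ≤ 3 * s * M := by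
    have h1 := mul_le_mul_of_nonneg_left hyX (mul_nonneg zero_le_three hs)
    exact (le_of_eq (by ring)).trans (h1.trans (le_of_eq (by ring)))
  have t6 : R' * cN ≤ R' * cN * M := le_mul_of_one_le_right hRc h1MX
  have e : (3 * (1 + h) * (1 + R' * cN) + (1 + h) * (R' ^ 2 * (2 * K + K1)) + 8 * (1 + R' * cN) +
      (R' ^ 2 * K + 2 + 2 / h) + 3 * s + R' * cN + 12) * (1 + b + y) * (X + 1) =
      3 * (1 + h) * (1 + R' * cN) * M + (1 + h) * (R' ^ 2 * (2 * K + K1)) * M +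
      8 * (1 + R' * cN) * M + (R' ^ 2 * K + 2 + 2 / h) * M + 3 * s * M + R' * cN * M + 12 * M := by
    rw [mul_assoc, ← hMdef]
    simp only [add_mul]
  rw [e]
  exact (add_le_add (add_le_add (add_le_add (add_le_add (add_le_add t1 t2) t3) t4) t5) t6).trans
    (le_add_of_nonneg_right (mul_nonneg (by norm_num) hM0))

theorem ls_split {ω : ℝ} (hω : 0 < ω) {N : ℕ} (hN : 1 ≤ N) (R : ℝ) : ∃ C, 1 ≤ C ∧
    ∀ {a a1 : ℝ}, |a| ≤ R → |a1| ≤ R → ∀ {x : L1 (Xn H)},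
    (∀ n : ℤ, Cm (ω * n) (ex (pu ω N a n : Xn H).2.1 0) (x n)) →
    ∃ p q : ℤ → Yn H, (∀ n, ls ω N a a1 x n = p n + q n) ∧ (Summable fun n => ‖p n‖) ∧
      ∑' n, ‖p n‖ ≤ C * (1 + bt ω x + yy x) * (‖x‖ + 1) ∧
      (Summable fun n => n2 (q n).1 + n2 (q n).2) ∧ ∑' n, (n2 (q n).1 + n2 (q n).2) ≤ C * yy x * ‖x‖ := by
  have hH0 := hH.out
  set cN : ℝ := ∑' n, ‖(pu ω N 1 n : Xn H).2.1‖ with hcN
  set K : ℝ := ‖(kap (ω * N) 1 : CI H)‖ with hK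
  set K1 : ℝ := ‖(kap1 (ω * N) 1 : CI H)‖ with hK1
  set C : ℝ := 3 * (1 + H) * (1 + |R| * cN) + (1 + H) * (|R| ^ 2 * (2 * K + K1)) +
    8 * (1 + |R| * cN) + (|R| ^ 2 * K + 2 + 2 / H) + 3 * √H + |R| * cN + 12 with hC
  have hcN0 : 0 ≤ cN := tsum_nonneg fun n => norm_nonneg _
  have hK0 : 0 ≤ K := norm_nonneg _
  have hK10 : 0 ≤ K1 := norm_nonneg _
  have hC12 : 12 ≤ C := by
    have : 0 ≤ 3 * (1 + H) * (1 + |R| * cN) + (1 + H) * (|R| ^ 2 * (2 * K + K1)) +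
      8 * (1 + |R| * cN) + (|R| ^ 2 * K + 2 + 2 / H) + 3 * √H + |R| * cN := by positivity
    linarith
  refine ⟨C, by linarith, ?_⟩
  intro a a1 ha0 ha10 x hx
  have ha : |a| ≤ |R| := ha0.trans (le_abs_self R)
  have ha1 : |a1| ≤ |R| := ha10.trans (le_abs_self R)
  have hxs := l1_summable x
  have hV : VF ω (iv x) := VF_iv hx
  have hO : VF ω (ov ω x) := VF_ov (ω := ω) (x := x)
  have hP : VF ω (pu ω N a : ℤ → Xn H) := VF_pu (H := H) a hω hN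
  have hP1 : VF ω (pu ω N 1 : ℤ → Xn H) := VF_pu (H := H) 1 hω hN
  have hB : VF ω (xb_b ω N a x) := hO.add hP
  -- the sum of the sup norms of the non-inner part
  set β : ℝ := ∑' n, ‖(xb_b ω N a x n).2.1‖ with hβ
  have hβ0 : 0 ≤ β := tsum_nonneg fun n => norm_nonneg _
  have hbts : Summable fun n : ℤ => ‖Top (ω * n) (x n).1.1‖ := (fun_summable x 0 0 0 0 ω).2.2.2.1
  have hβle : β ≤ bt ω x + |R| * cN := by
    have hle : ∀ n : ℤ, ‖(xb_b ω N a x n).2.1‖ ≤ ‖Top (ω * n) (x n).1.1‖ +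
        |R| * ‖(pu ω N 1 n : Xn H).2.1‖ := fun n => by
      show ‖Top (ω * n) (x n).1.1 + (pu ω N a n : Xn H).2.1‖ ≤ _
      refine (norm_add_le _ _).trans (add_le_add le_rfl ?_)
      rw [xb_pu, norm_smul, Real.norm_eq_abs]
      exact mul_le_mul_of_nonneg_right ha (norm_nonneg _)
    have hs1 := (xb_fs hP1).1.mul_left |R|
    obtain ⟨-, h2⟩ := xb_sum_le (fun n => norm_nonneg _) (hbts.add hs1) hle
    rw [hbts.tsum_add hs1, tsum_mul_left] at h2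
    exact h2
  obtain ⟨A1, A2⟩ := xb_N0_le hB hxs
  obtain ⟨B1, B2⟩ := xb_Bf_le hV hB
  obtain ⟨D1, D2⟩ := xb_N0_n2 hV hxs
  obtain ⟨E1, E2⟩ := xb_Bf_n2 hV hV
  have hivle : ∀ n, ‖iv x n‖ ≤ ‖x n‖ := fun n => by
    show ‖(((0, 0, 0), (x n).2) : Xn H)‖ ≤ _
    refine max_le ?_ (norm_snd_le (x n))
    have : ‖((0, 0, 0) : CI H × CI H × CI H)‖ = 0 := norm_zero
    exact this.le.trans (norm_nonneg _)
  have hiv : ∑' n, ‖iv x n‖ ≤ ‖x‖ := by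
    rw [l1_norm]
    exact hV.s.tsum_le_tsum hivle hxs
  have hX : ∑' n, ‖x n‖ = ‖x‖ := (l1_norm x).symm
  have hyy : ∑' n, n2 (iv x n).2.1 = yy x := rfl
  have hy0 : 0 ≤ yy x := tsum_nonneg fun n => n2_nonneg _
  have hb0 : 0 ≤ bt ω x := tsum_nonneg fun n => norm_nonneg _
  have hX0 : 0 ≤ ‖x‖ := norm_nonneg x
  rw [hX] at A2 D2
  rw [hyy] at D2 E2
  have hN0 : ∀ n, N0 ω (tv ω N a x) x n = N0 ω (iv x) x n + N0 ω (xb_b ω N a x) x n := fun n => by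
    rw [xb_tv]
    exact xb_N0_add hV hB hxs n
  have hBf : ∀ n, (Bf ω (iv x) (tv ω N a x) n).2 =
      (Bf ω (iv x) (iv x) n).2 + (Bf ω (iv x) (xb_b ω N a x) n).2 := fun n => by
    rw [xb_tv]
    exact Bf2_add_right hV hV hB n
  have hso : ∀ n, so ω N a x n = -N0 ω (iv x) x n +
      (-N0 ω (xb_b ω N a x) x n + tr (ω * N) a (x n)) := fun n => by
    unfold so
    rw [hN0 n]
    abel
  refine ⟨fun n => (-N0 ω (xb_b ω N a x) x n + tr (ω * N) a (x n),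
      (Bf ω (iv x) (xb_b ω N a x) n).2 - kap (ω * N) a * (x n).2.1 -
        sg ω N a a1 x n • eta (ω * n) + ex (x n).2.1 0 • etr (ω * n)),
    fun n => (-N0 ω (iv x) x n, (Bf ω (iv x) (iv x) n).2), ?_, ?_⟩
  · intro n
    refine Prod.ext ?_ ?_
    · show so ω N a x n = (-N0 ω (xb_b ω N a x) x n + tr (ω * N) a (x n)) + -N0 ω (iv x) x n
      rw [hso n]
      abel
    · show si ω N a x n - sg ω N a a1 x n • eta (ω * n) + ex (x n).2.1 0 • etr (ω * n) =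
        ((Bf ω (iv x) (xb_b ω N a x) n).2 - kap (ω * N) a * (x n).2.1 -
          sg ω N a a1 x n • eta (ω * n) + ex (x n).2.1 0 • etr (ω * n)) +
          (Bf ω (iv x) (iv x) n).2
      unfold si
      rw [hBf n]
      abel
  · -- pointwise bound of `p`
    have hp1 : ∀ n, ‖-N0 ω (xb_b ω N a x) x n + tr (ω * N) a (x n)‖ ≤
        ‖N0 ω (xb_b ω N a x) x n‖ + |R| ^ 2 * (2 * K + K1) * ‖x n‖ := fun n => by
      refine (norm_add_le _ _).trans (add_le_add (norm_neg _).le ?_)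
      exact xb_tr ha (x n)
    have hTop : ∀ n : ℤ, ‖Top (ω * n) (so ω N a x n)‖ ≤ √H * n2 (N0 ω (iv x) x n) +
        H * (‖N0 ω (xb_b ω N a x) x n‖ + |R| ^ 2 * (2 * K + K1) * ‖x n‖) := fun n => by
      rw [hso n, map_add, map_neg]
      refine (norm_add_le _ _).trans (add_le_add ?_ ?_)
      · rw [norm_neg]
        exact (norm_Top_le2 _ _).2
      · exact (norm_Top_le _ _).trans (mul_le_mul_of_nonneg_left (hp1 n) hH0.le)
    have hpt : ∀ n : ℤ, ‖((-N0 ω (xb_b ω N a x) x n + tr (ω * N) a (x n),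
        (Bf ω (iv x) (xb_b ω N a x) n).2 - kap (ω * N) a * (x n).2.1 -
        sg ω N a a1 x n • eta (ω * n) + ex (x n).2.1 0 • etr (ω * n)) : Yn H)‖ ≤
        (1 + H) * ‖N0 ω (xb_b ω N a x) x n‖ + (1 + H) * (|R| ^ 2 * (2 * K + K1)) * ‖x n‖ +
          ‖(Bf ω (iv x) (xb_b ω N a x) n).2‖ + (|R| ^ 2 * K + 2 + 2 / H) * ‖x n‖ +
          √H * n2 (N0 ω (iv x) x n) + |R| * ‖(pu ω N 1 n : Xn H).2.1‖ := fun n => by
      have h1 := hp1 n
      have h2 := xb_p2 (N := N) ha ha1 (fun n => (hx n).e2) n (Bf ω (iv x) (xb_b ω N a x) n).2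
      have h3 := hTop n
      have h4 : 0 ≤ ‖-N0 ω (xb_b ω N a x) x n + tr (ω * N) a (x n)‖ := norm_nonneg _
      have h5 := norm_nonneg ((Bf ω (iv x) (xb_b ω N a x) n).2 - kap (ω * N) a * (x n).2.1 -
        sg ω N a a1 x n • eta (ω * n) + ex (x n).2.1 0 • etr (ω * n))
      refine (max_le (a := _) (b := _) (le_add_of_nonneg_right h5)
        (le_add_of_nonneg_left h4)).trans ?_
      have e : (1 + H) * ‖N0 ω (xb_b ω N a x) x n‖ +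
          (1 + H) * (|R| ^ 2 * (2 * K + K1)) * ‖x n‖ +
          ‖(Bf ω (iv x) (xb_b ω N a x) n).2‖ + (|R| ^ 2 * K + 2 + 2 / H) * ‖x n‖ +
          √H * n2 (N0 ω (iv x) x n) + |R| * ‖(pu ω N 1 n : Xn H).2.1‖ =
          (‖N0 ω (xb_b ω N a x) x n‖ + |R| ^ 2 * (2 * K + K1) * ‖x n‖) +
          (‖(Bf ω (iv x) (xb_b ω N a x) n).2‖ + |R| ^ 2 * K * ‖x n‖ +
            (2 * ‖x n‖ + (√H * n2 (N0 ω (iv x) x n) +
              H * (‖N0 ω (xb_b ω N a x) x n‖ + |R| ^ 2 * (2 * K + K1) * ‖x n‖)) +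
              |R| * ‖(pu ω N 1 n : Xn H).2.1‖) + 2 / H * ‖x n‖) := by ring
      rw [e]
      linarith
    have S1 := A1.mul_left (1 + H)
    have S2 := hxs.mul_left ((1 + H) * (|R| ^ 2 * (2 * K + K1)))
    have S4 := hxs.mul_left (|R| ^ 2 * K + 2 + 2 / H)
    have S5 := D1.mul_left √H
    have S6 := (xb_fs hP1).1.mul_left |R|
    have S12 := S1.add S2
    have S123 := S12.add B1
    have S1234 := S123.add S4
    have S12345 := S1234.add S5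
    have Sall := S12345.add S6
    obtain ⟨F1, F2⟩ := xb_sum_le (fun n => norm_nonneg _) Sall hpt
    refine ⟨F1, ?_, ?_, ?_⟩
    · refine F2.trans ?_
      rw [S12345.tsum_add S6, S1234.tsum_add S5, S123.tsum_add S4, S12.tsum_add B1,
        S1.tsum_add S2, tsum_mul_left, tsum_mul_left, tsum_mul_left, tsum_mul_left, tsum_mul_left,
        hX]
      have ar := xb_arith (b := bt ω x) (y := yy x) (X := ‖x‖) (β := β) (R' := |R|) (cN := cN)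
        (K := K) (K1 := K1) (h := H) (s := √H) hb0 hy0 hX0 hβ0 (abs_nonneg R) hcN0 hK0 hK10 hH0
        (Real.sqrt_nonneg _) hβle
      have u1 : (1 + H) * ∑' n, ‖N0 ω (xb_b ω N a x) x n‖ ≤ (1 + H) * (3 * β * ‖x‖) :=
        mul_le_mul_of_nonneg_left A2 (by positivity)
      have u2 : ∑' n, ‖(Bf ω (iv x) (xb_b ω N a x) n).2‖ ≤ 8 * β * ‖x‖ :=
        B2.trans (mul_le_mul_of_nonneg_left hiv (by positivity))
      have u3 : √H * ∑' n, n2 (N0 ω (iv x) x n) ≤ √H * (3 * yy x * ‖x‖) :=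
        mul_le_mul_of_nonneg_left D2 (Real.sqrt_nonneg _)
      refine le_trans ?_ ar
      linarith
    · have : (fun n => n2 (-N0 ω (iv x) x n) + n2 (Bf ω (iv x) (iv x) n).2) =
          fun n => n2 (N0 ω (iv x) x n) + n2 (Bf ω (iv x) (iv x) n).2 := by
        funext n
        rw [n2_neg]
      show Summable fun n => n2 (-N0 ω (iv x) x n) + n2 (Bf ω (iv x) (iv x) n).2
      rw [this]
      exact D1.add E1
    · show ∑' n, (n2 (-N0 ω (iv x) x n) + n2 (Bf ω (iv x) (iv x) n).2) ≤ _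
      simp only [n2_neg]
      rw [D1.tsum_add E1]
      have v1 : 8 * yy x * ∑' n, ‖iv x n‖ ≤ 8 * yy x * ‖x‖ :=
        mul_le_mul_of_nonneg_left hiv (mul_nonneg (by norm_num) hy0)
      refine (add_le_add D2 (E2.trans v1)).trans ?_
      have v2 : (12:ℝ) * (yy x * ‖x‖) ≤ C * (yy x * ‖x‖) :=
        mul_le_mul_of_nonneg_right hC12 (mul_nonneg hy0 hX0)
      have v3 : 3 * yy x * ‖x‖ + 8 * yy x * ‖x‖ = 11 * (yy x * ‖x‖) := by ring
      rw [v3, mul_assoc]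
      exact (mul_le_mul_of_nonneg_right (by norm_num) (mul_nonneg hy0 hX0)).trans v2

end

end Pool.Agent.Lib.MP_79abb3_an.FW
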