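import Pool.Agent.Lib.MP_79abb3_an.FW.XbAa
import Pool.Agent.Lib.MP_79abb3_an.FW.XbAb
import Pool.Agent.Lib.MP_79abb3_an.FW.YoungD
import Pool.Agent.Lib.MP_79abb3_an.P25.Dir

/-!
FW-57a: integral inequality for the norm in `X` (3.7).
-/

set_option autoImplicit false
set_option linter.unusedSectionVars false

attribute [-instance] PreLp.ring SubfieldClass.toSubringClass SubringClass.toSubsemiringClass
  NonUnitalSubringClass.toNonUnitalSubsemiringClass RingConeClass.toSubsemiringClass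
  SubsemiringClass.nonUnitalSubsemiringClass SubringClass.nonUnitalSubringClass
  AddSubgroup.seminormedAddCommGroup SetLike.GradeZero.instSemiring SetLike.GradeZero.instCommRing
  SetLike.GradeZero.instCommSemiring SetLike.GradeZero.instRing LieAdmissibleAlgebra.toModule
  RightPreLieAlgebra.toModule LeftPreLieAlgebra.toModule

open MeasureTheory Set Filter Topology Function

namespace Pool.Agent.Lib.MP_79abb3_an.FW

open Pool.Agent.Lib.MP_79abb3_an.P25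

section
variable {H : ℝ} [hH : Fact (0 < H)]

private theorem XbBa_ker {a t : ℝ} (hat : a ≤ t) :
    IntervalIntegrable (fun r => (√(t - r))⁻¹ * (q4 (t - r))⁻¹) volume a t := by
  have h2 := (int_q34 (sub_nonneg.2 hat)).1.comp_sub_right a
  rw [zero_add, sub_add_cancel] at h2
  refine h2.congr (fun r _ => ?_)
  show (√(t - a - (r - a)))⁻¹ * (q4 (t - a - (r - a)))⁻¹ = _
  rw [show t - a - (r - a) = t - r by ring]

private theorem XbBa_q4 {s : ℝ} (hs : s ∈ Ioc (0:ℝ) 1) : 1 ≤ (q4 s)⁻¹ := by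
  unfold q4
  have h1 : 0 < √(√s) := Real.sqrt_pos.2 (Real.sqrt_pos.2 hs.1)
  have h2 : √(√s) ≤ 1 := Real.sqrt_le_one.2 (Real.sqrt_le_one.2 hs.2)
  exact (one_le_inv₀ h1).2 h2

private theorem XbBa_Tn_add (S D : ℝ → (CI H →L[ℂ] CI H)) (k t : ℝ) (p q : Yn H) :
    Tn S D k t (p + q) = Tn S D k t p + Tn S D k t q := by
  rw [← TnL_apply, ← TnL_apply, ← TnL_apply, map_add]

theorem xb_volt {ω : ℝ} (hω : 0 < ω) {N : ℕ} (hN : 1 ≤ N) (R : ℝ) : ∃ C, 1 ≤ C ∧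
    ∀ {A A1 : ℝ → ℝ} {a b : ℝ} {x : ℝ → L1 (Xn H)}, a ≤ b → b ≤ a + 1 → CS ω N A A1 a b x →
    (∀ t ∈ Icc a b, |A t| ≤ R ∧ |A1 t| ≤ R ∧ yy (x t) ≤ 1) → ∀ t ∈ Icc a b,
      IntervalIntegrable (fun r => (√(t - r))⁻¹ * (q4 (t - r))⁻¹ * ((1 + bt ω (x r)) * (‖x r‖ + 1)))
        volume a t ∧
      ‖x t‖ ≤ C * (‖x a‖ + 1) +
        C * ∫ r in a..t, (√(t - r))⁻¹ * (q4 (t - r))⁻¹ * ((1 + bt ω (x r)) * (‖x r‖ + 1)) := by
  obtain ⟨S, D, B, hS⟩ := exists_dir H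
  obtain ⟨C1, hC1, hlft⟩ := lft_norm (H := H) (ω := ω) (N := N) (R := R)
  obtain ⟨C2, hC2, hsp⟩ := ls_split (H := H) hω hN R
  have hCpos : 1 ≤ C1 * (C1 + 1) + 6 * C1 * C2 := by
    have h1 : 1 ≤ C1 * (C1 + 1) := by nlinarith
    have h2 : 0 ≤ 6 * C1 * C2 := by positivity
    linarith
  refine ⟨C1 * (C1 + 1) + 6 * C1 * C2, hCpos, ?_⟩
  intro A A1 a b x hab hb1 hcs hbd t ht
  have hat : a ≤ t := ht.1
  have hbt0 : ∀ r, 0 ≤ bt ω (x r) := fun r => tsum_nonneg fun n => norm_nonneg _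
  have hyy0 : ∀ r, 0 ≤ yy (x r) := fun r => tsum_nonneg fun n => Real.sqrt_nonneg _
  have hint : IntervalIntegrable
      (fun r => (√(t - r))⁻¹ * (q4 (t - r))⁻¹ * ((1 + bt ω (x r)) * (‖x r‖ + 1))) volume a t := by
    refine (XbBa_ker hat).mul_continuousOn ?_
    rw [uIcc_of_le hat]
    have cx : ContinuousOn x (Icc a t) := hcs.c.mono (Icc_subset_Icc_right ht.2)
    exact (continuousOn_const.add ((bt_cont ω).comp_continuousOn cx)).mul
      (cx.norm.add continuousOn_const)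
  refine ⟨hint, ?_⟩
  have hI0 : 0 ≤ ∫ r in a..t, (√(t - r))⁻¹ * (q4 (t - r))⁻¹ * ((1 + bt ω (x r)) * (‖x r‖ + 1)) := by
    apply intervalIntegral.integral_nonneg hat
    intro r hr
    have h1 := hbt0 r
    have h2 := norm_nonneg (x r)
    have h3 : 0 ≤ (√(t - r))⁻¹ * (q4 (t - r))⁻¹ := by
      unfold q4
      positivity
    positivity
  rcases hat.eq_or_lt with rfl | hlt
  · have h2 := norm_nonneg (x a)
    nlinarith
  have haI : a ∈ Icc a b := ⟨le_refl _, hab⟩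
  obtain ⟨sa, na, -⟩ := hlft (hbd a haI).1 (x := x a) (hcs.cm a haI)
  obtain ⟨st, -, nt⟩ := hlft (hbd t ht).1 (x := x t) (hcs.cm t ht)
  -- the initial part
  have hinit : ∀ F : Finset ℤ, ∑ n ∈ F, ‖Tn S D (ω * n) (t - a) (jn (lft ω (x a) n))‖ ≤
      ∑' n, ‖lft ω (x a) n‖ := by
    intro F
    have hD : ∀ n : ℤ, Dmode (ω * n) ((mkL1 (fun n => lft ω (x a) n) sa : L1 (Xn H)) n) :=
      fun n => (lft_dmode (hcs.cm a haI) n).1
    have h1 := (TT_init hS ω hD).2 (t - a) ⟨sub_pos.2 hlt, by linarith [ht.2]⟩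
    rw [one_mul, norm_mkL1, l1_norm] at h1
    refine le_trans ?_ h1
    have h2 : ∀ n, TT hS ω (t - a) (jL H (mkL1 (fun n => lft ω (x a) n) sa)) n =
        Tn S D (ω * n) (t - a) (jn (lft ω (x a) n)) := fun n => by
      rw [TT_apply hS ω (sub_pos.2 hlt)]
      rfl
    have h3 : Summable fun n =>
        ‖TT hS ω (t - a) (jL H (mkL1 (fun n => lft ω (x a) n) sa)) n‖ := by
      have := (lp.memℓp (TT hS ω (t - a) (jL H (mkL1 (fun n => lft ω (x a) n) sa)))).summable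
        (by simp)
      simpa using this
    calc ∑ n ∈ F, ‖Tn S D (ω * n) (t - a) (jn (lft ω (x a) n))‖
        = ∑ n ∈ F, ‖TT hS ω (t - a) (jL H (mkL1 (fun n => lft ω (x a) n) sa)) n‖ :=
          Finset.sum_congr rfl fun n _ => by rw [h2]
      _ ≤ _ := h3.sum_le_tsum F fun n _ => norm_nonneg _
  -- the source part
  have hsrc : ∀ F : Finset ℤ,
      ∑ n ∈ F, ∫ r in a..t, ‖Tn S D (ω * n) (t - r) (ls ω N (A r) (A1 r) (x r) n)‖ ≤
      6 * C2 * ∫ r in a..t, (√(t - r))⁻¹ * (q4 (t - r))⁻¹ * ((1 + bt ω (x r)) * (‖x r‖ + 1)) := by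
    intro F
    have hi : ∀ n ∈ F, IntervalIntegrable
        (fun r => ‖Tn S D (ω * n) (t - r) (ls ω N (A r) (A1 r) (x r) n)‖) volume a t := fun n _ =>
      (hcs.lmild hS n ⟨hlt, ht.2⟩).1.norm
    rw [← intervalIntegral.integral_finsetSum hi, ← intervalIntegral.integral_const_mul]
    refine intervalIntegral.integral_mono_on_of_le_Ioo hat ?_ (hint.const_mul _) ?_
    · have := IntervalIntegrable.sum F hi
      simpa [Finset.sum_fn] using this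
    intro r hr
    have hrI : r ∈ Icc a b := ⟨hr.1.le, hr.2.le.trans ht.2⟩
    have hs : t - r ∈ Ioc (0:ℝ) 1 := ⟨sub_pos.2 hr.2, by linarith [hr.1, ht.2]⟩
    obtain ⟨p, q, hpq, sp, np, sq, nq⟩ := hsp (hbd r hrI).1 (hbd r hrI).2.1 (x := x r) (hcs.cm r hrI)
    have k0 : 0 < (√(t - r))⁻¹ := inv_pos.2 (Real.sqrt_pos.2 hs.1)
    have k1 := XbBa_q4 hs
    have e1 : ∀ n : ℤ, ‖Tn S D (ω * n) (t - r) (ls ω N (A r) (A1 r) (x r) n)‖ ≤
        (√(t - r))⁻¹ * ‖p n‖ + 4 * ((√(t - r))⁻¹ * (q4 (t - r))⁻¹) * (n2 (q n).1 + n2 (q n).2) := by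
      intro n
      rw [hpq n, XbBa_Tn_add]
      refine (norm_add_le _ _).trans (add_le_add ?_ (Tn_n2 hS _ hs _))
      have := norm_Tn_le hS (ω * n) hs.1 (p n)
      rwa [max_one_inv_sqrt hs] at this
    have hyr := (hbd r hrI).2.2
    have hb0 := hbt0 r
    have hy0 := hyy0 r
    have hx0 := norm_nonneg (x r)
    have n1 : ∑ n ∈ F, ‖p n‖ ≤ C2 * (1 + bt ω (x r) + yy (x r)) * (‖x r‖ + 1) :=
      (sp.sum_le_tsum F fun n _ => norm_nonneg _).trans np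
    have n2' : ∑ n ∈ F, (n2 (q n).1 + n2 (q n).2) ≤ C2 * yy (x r) * ‖x r‖ :=
      (sq.sum_le_tsum F fun n _ => add_nonneg (Real.sqrt_nonneg _) (Real.sqrt_nonneg _)).trans nq
    have n3 : C2 * (1 + bt ω (x r) + yy (x r)) * (‖x r‖ + 1) ≤
        2 * C2 * ((1 + bt ω (x r)) * (‖x r‖ + 1)) := by
      have : 1 + bt ω (x r) + yy (x r) ≤ 2 * (1 + bt ω (x r)) := by linarith
      calc C2 * (1 + bt ω (x r) + yy (x r)) * (‖x r‖ + 1)
          ≤ C2 * (2 * (1 + bt ω (x r))) * (‖x r‖ + 1) := by gcongr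
        _ = _ := by ring
    have n4 : C2 * yy (x r) * ‖x r‖ ≤ C2 * ((1 + bt ω (x r)) * (‖x r‖ + 1)) := by
      calc C2 * yy (x r) * ‖x r‖ ≤ C2 * (1 + bt ω (x r)) * (‖x r‖ + 1) := by
            gcongr
            · linarith
            · linarith
        _ = _ := by ring
    have g0 : 0 ≤ (1 + bt ω (x r)) * (‖x r‖ + 1) := by positivity
    calc ∑ n ∈ F, ‖Tn S D (ω * n) (t - r) (ls ω N (A r) (A1 r) (x r) n)‖
        ≤ ∑ n ∈ F, ((√(t - r))⁻¹ * ‖p n‖ +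
            4 * ((√(t - r))⁻¹ * (q4 (t - r))⁻¹) * (n2 (q n).1 + n2 (q n).2)) :=
          Finset.sum_le_sum fun n _ => e1 n
      _ = (√(t - r))⁻¹ * ∑ n ∈ F, ‖p n‖ +
            4 * ((√(t - r))⁻¹ * (q4 (t - r))⁻¹) * ∑ n ∈ F, (n2 (q n).1 + n2 (q n).2) := by
          rw [Finset.sum_add_distrib, Finset.mul_sum, Finset.mul_sum]
      _ ≤ (√(t - r))⁻¹ * (2 * C2 * ((1 + bt ω (x r)) * (‖x r‖ + 1))) +
            4 * ((√(t - r))⁻¹ * (q4 (t - r))⁻¹) * (C2 * ((1 + bt ω (x r)) * (‖x r‖ + 1))) := by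
          have m1 := mul_le_mul_of_nonneg_left (n1.trans n3) k0.le
          have m2 := mul_le_mul_of_nonneg_left (n2'.trans n4)
            (by positivity : 0 ≤ 4 * ((√(t - r))⁻¹ * (q4 (t - r))⁻¹))
          exact add_le_add m1 m2
      _ ≤ ((√(t - r))⁻¹ * (q4 (t - r))⁻¹) * (2 * C2 * ((1 + bt ω (x r)) * (‖x r‖ + 1))) +
            4 * ((√(t - r))⁻¹ * (q4 (t - r))⁻¹) * (C2 * ((1 + bt ω (x r)) * (‖x r‖ + 1))) := by
          have m1 : (√(t - r))⁻¹ ≤ (√(t - r))⁻¹ * (q4 (t - r))⁻¹ := le_mul_of_one_le_right k0.le k1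
          have m2 := mul_le_mul_of_nonneg_right m1
            (by positivity : 0 ≤ 2 * C2 * ((1 + bt ω (x r)) * (‖x r‖ + 1)))
          linarith
      _ = 6 * C2 * ((√(t - r))⁻¹ * (q4 (t - r))⁻¹ * ((1 + bt ω (x r)) * (‖x r‖ + 1))) := by ring
  have hsum : ∑' n, ‖lft ω (x t) n‖ ≤ ∑' n, ‖lft ω (x a) n‖ +
      6 * C2 * ∫ r in a..t, (√(t - r))⁻¹ * (q4 (t - r))⁻¹ * ((1 + bt ω (x r)) * (‖x r‖ + 1)) := by
    refine st.tsum_le_of_sum_le fun F => ?_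
    calc ∑ n ∈ F, ‖lft ω (x t) n‖
        ≤ ∑ n ∈ F, (‖Tn S D (ω * n) (t - a) (jn (lft ω (x a) n))‖ +
            ∫ r in a..t, ‖Tn S D (ω * n) (t - r) (ls ω N (A r) (A1 r) (x r) n)‖) := by
          refine Finset.sum_le_sum fun n _ => ?_
          rw [(hcs.lmild hS n ⟨hlt, ht.2⟩).2]
          refine (norm_add_le _ _).trans (add_le_add le_rfl ?_)
          exact intervalIntegral.norm_integral_le_integral_norm hat
      _ = ∑ n ∈ F, ‖Tn S D (ω * n) (t - a) (jn (lft ω (x a) n))‖ +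
            ∑ n ∈ F, ∫ r in a..t, ‖Tn S D (ω * n) (t - r) (ls ω N (A r) (A1 r) (x r) n)‖ :=
          Finset.sum_add_distrib
      _ ≤ _ := add_le_add (hinit F) (hsrc F)
  have hxa := norm_nonneg (x a)
  set I := ∫ r in a..t, (√(t - r))⁻¹ * (q4 (t - r))⁻¹ * ((1 + bt ω (x r)) * (‖x r‖ + 1)) with hI
  calc ‖x t‖ ≤ C1 * ((∑' n, ‖lft ω (x t) n‖) + 1) := nt
    _ ≤ C1 * ((C1 * (‖x a‖ + 1) + 6 * C2 * I) + 1) := by
        apply mul_le_mul_of_nonneg_left _ (by linarith)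
        linarith
    _ = C1 * C1 * (‖x a‖ + 1) + C1 + 6 * C1 * C2 * I := by ring
    _ ≤ (C1 * (C1 + 1) + 6 * C1 * C2) * (‖x a‖ + 1) + (C1 * (C1 + 1) + 6 * C1 * C2) * I := by
        have f1 : 0 ≤ C1 * ‖x a‖ := by positivity
        have f2 : 0 ≤ 6 * C1 * C2 * (‖x a‖ + 1) := by positivity
        have f3 : 0 ≤ C1 * (C1 + 1) * I := by positivity
        nlinarith

end

end Pool.Agent.Lib.MP_79abb3_an.FW
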