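import Pool.Agent.Lib.MP_79abb3_an.FW.YoungD

/-!
FW-57b: a singular Gronwall inequality on windows.
-/

set_option autoImplicit false
set_option linter.unusedSectionVars false

open MeasureTheory Set Filter Topology Function

namespace Pool.Agent.Lib.MP_79abb3_an.FW

open Pool.Agent.Lib.MP_79abb3_an.P25

section
variable {H : ℝ} [hH : Fact (0 < H)]

private theorem XbBb_q4 {s : ℝ} (hs : 0 ≤ s) : q4 s = s ^ (1 / 4 : ℝ) := by
  unfold q4
  rw [Real.sqrt_eq_rpow, Real.sqrt_eq_rpow, ← Real.rpow_mul hs]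
  norm_num

private theorem XbBb_shift (a t : ℝ) (G : ℝ → ℝ) :
    ∫ r in a..t, (√(t - r))⁻¹ * (q4 (t - r))⁻¹ * G r =
      ∫ s in (0:ℝ)..(t - a), (√(t - a - s))⁻¹ * (q4 (t - a - s))⁻¹ * G (a + s) := by
  have h := intervalIntegral.integral_comp_add_left (a := 0) (b := t - a)
    (fun r => (√(t - r))⁻¹ * (q4 (t - r))⁻¹ * G r) a
  rw [add_zero, add_sub_cancel] at h
  rw [← h]
  apply intervalIntegral.integral_congr
  intro s _
  show (√(t - (a + s)))⁻¹ * (q4 (t - (a + s)))⁻¹ * G (a + s) = _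
  rw [← sub_sub]

private theorem XbBb_shift_int (a t : ℝ) (G : ℝ → ℝ)
    (h : IntervalIntegrable (fun s => (√(t - a - s))⁻¹ * (q4 (t - a - s))⁻¹ * G (a + s))
      volume 0 (t - a)) :
    IntervalIntegrable (fun r => (√(t - r))⁻¹ * (q4 (t - r))⁻¹ * G r) volume a t := by
  have h2 := h.comp_sub_right a
  rw [zero_add, sub_add_cancel] at h2
  refine h2.congr (fun r _ => ?_)
  show (√(t - a - (r - a)))⁻¹ * (q4 (t - a - (r - a)))⁻¹ * G (a + (r - a)) = _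
  rw [show t - a - (r - a) = t - r by ring, show a + (r - a) = r by ring]

/-- one window -/
private theorem XbBb_step {C R h b : ℝ} {u β : ℝ → ℝ} (hC : 1 ≤ C) (hR : 0 ≤ R) (h0 : 0 ≤ h)
    (hh : C * (4 * h ^ (1 / 4 : ℝ) + 8 * h ^ (1 / 8 : ℝ) * R ^ (1 / 8 : ℝ)) ≤ 1 / 2)
    (cu : ContinuousOn u (Icc 0 b)) (cβ : ContinuousOn β (Icc 0 b))
    (hu : ∀ t ∈ Icc 0 b, 0 ≤ u t ∧ 0 ≤ β t)
    (hβ : ∫ t in (0:ℝ)..b, β t ^ 8 ≤ R)
    {a c : ℝ} (ha : 0 ≤ a) (hac : a ≤ c) (hcb : c ≤ b) (hch : c - a ≤ h)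
    (main : ∀ t ∈ Icc a c, u t ≤ C * (u a + 1) +
      C * ∫ r in a..t, (√(t - r))⁻¹ * (q4 (t - r))⁻¹ * ((1 + β r) * (u r + 1))) :
    ∀ t ∈ Icc a c, u t + 1 ≤ 4 * C * (u a + 1) := by
  have hsub : Icc a c ⊆ Icc 0 b := Icc_subset_Icc ha hcb
  obtain ⟨t0, ht0, hmax⟩ := isCompact_Icc.exists_isMaxOn (nonempty_Icc.2 hac) (cu.mono hsub)
  have hW : ∀ t ∈ Icc a c, u t ≤ u t0 := fun t ht => hmax ht
  have hu0 : 0 ≤ u t0 := (hu t0 (hsub ht0)).1
  have hua : 0 ≤ u a := (hu a (hsub ⟨le_refl _, hac⟩)).1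
  have h1 := main t0 ht0
  have hT : 0 ≤ t0 - a := by linarith [ht0.1]
  have hTh : t0 - a ≤ h := by linarith [ht0.2]
  have hsub2 : Icc a t0 ⊆ Icc 0 b := Icc_subset_Icc ha (ht0.2.trans hcb)
  have cβ2 : ContinuousOn (fun s => β (a + s)) (Icc 0 (t0 - a)) := by
    refine (cβ.mono hsub2).comp (by fun_prop) (fun s hs => ⟨by linarith [hs.1], by linarith [hs.2]⟩)
  have cu2 : ContinuousOn (fun s => u (a + s)) (Icc 0 (t0 - a)) := by
    refine (cu.mono hsub2).comp (by fun_prop) (fun s hs => ⟨by linarith [hs.1], by linarith [hs.2]⟩)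
  have hβ2 : ∀ s ∈ Icc 0 (t0 - a), 0 ≤ β (a + s) := fun s hs =>
    (hu _ (hsub2 ⟨by linarith [hs.1], by linarith [hs.2]⟩)).2
  have i1 := int_q34 hT
  have i2 := int_q34_l8 hT cβ2 hβ2
  -- integrability of the three integrands on [a, t0]
  have j3 : IntervalIntegrable
      (fun r => (√(t0 - r))⁻¹ * (q4 (t0 - r))⁻¹ * ((1 + β r) * (u r + 1))) volume a t0 := by
    apply XbBb_shift_int
    refine i1.1.mul_continuousOn ?_
    rw [uIcc_of_le hT]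
    exact (continuousOn_const.add cβ2).mul (cu2.add continuousOn_const)
  have j1 : IntervalIntegrable (fun r => (√(t0 - r))⁻¹ * (q4 (t0 - r))⁻¹ * 1) volume a t0 := by
    apply XbBb_shift_int a t0 (fun _ => 1)
    simpa using i1.1
  have j2 : IntervalIntegrable (fun r => (√(t0 - r))⁻¹ * (q4 (t0 - r))⁻¹ * β r) volume a t0 :=
    XbBb_shift_int a t0 β i2.1
  have k1 : ∫ r in a..t0, (√(t0 - r))⁻¹ * (q4 (t0 - r))⁻¹ * 1 ≤ 4 * h ^ (1 / 4 : ℝ) := by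
    rw [XbBb_shift a t0 (fun _ => 1)]
    simp only [mul_one]
    rw [i1.2, XbBb_q4 hT]
    have := Real.rpow_le_rpow hT hTh (by norm_num : (0:ℝ) ≤ 1 / 4)
    linarith
  have k2 : ∫ r in a..t0, (√(t0 - r))⁻¹ * (q4 (t0 - r))⁻¹ * β r ≤
      8 * h ^ (1 / 8 : ℝ) * R ^ (1 / 8 : ℝ) := by
    rw [XbBb_shift a t0 β]
    refine i2.2.trans ?_
    have e1 : ∫ r in (0:ℝ)..(t0 - a), β (a + r) ^ 8 = ∫ r in a..t0, β r ^ 8 := by
      have := intervalIntegral.integral_comp_add_left (a := 0) (b := t0 - a)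
        (fun r => β r ^ 8) a
      rw [add_zero, add_sub_cancel] at this
      exact this
    have e2 : ∫ r in a..t0, β r ^ 8 ≤ ∫ r in (0:ℝ)..b, β r ^ 8 := by
      have hb : 0 ≤ b := ha.trans (hac.trans hcb)
      refine intervalIntegral.integral_mono_interval ha ht0.1 (ht0.2.trans hcb) ?_ ?_
      · filter_upwards [ae_restrict_mem measurableSet_Ioc] with r hr
        exact pow_nonneg (hu r ⟨hr.1.le, hr.2⟩).2 8
      · apply ContinuousOn.intervalIntegrable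
        rw [uIcc_of_le hb]
        exact cβ.pow 8
    have e3 : 0 ≤ ∫ r in a..t0, β r ^ 8 :=
      intervalIntegral.integral_nonneg ht0.1 fun r hr => pow_nonneg (hu r (hsub2 hr)).2 8
    rw [e1]
    have e4 : (∫ r in a..t0, β r ^ 8) ^ (1 / 8 : ℝ) ≤ R ^ (1 / 8 : ℝ) :=
      Real.rpow_le_rpow e3 (e2.trans hβ) (by norm_num)
    have e5 : (t0 - a) ^ (1 / 8 : ℝ) ≤ h ^ (1 / 8 : ℝ) :=
      Real.rpow_le_rpow hT hTh (by norm_num)
    have e6 : 0 ≤ (t0 - a) ^ (1 / 8 : ℝ) := Real.rpow_nonneg hT _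
    have e7 : 0 ≤ (∫ r in a..t0, β r ^ 8) ^ (1 / 8 : ℝ) := Real.rpow_nonneg e3 _
    gcongr
  have k3 : ∫ r in a..t0, (√(t0 - r))⁻¹ * (q4 (t0 - r))⁻¹ * ((1 + β r) * (u r + 1)) ≤
      (u t0 + 1) * (4 * h ^ (1 / 4 : ℝ) + 8 * h ^ (1 / 8 : ℝ) * R ^ (1 / 8 : ℝ)) := by
    calc ∫ r in a..t0, (√(t0 - r))⁻¹ * (q4 (t0 - r))⁻¹ * ((1 + β r) * (u r + 1))
        ≤ ∫ r in a..t0, (u t0 + 1) * ((√(t0 - r))⁻¹ * (q4 (t0 - r))⁻¹ * 1 +
            (√(t0 - r))⁻¹ * (q4 (t0 - r))⁻¹ * β r) := by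
          refine intervalIntegral.integral_mono_on ht0.1 j3 ((j1.add j2).const_mul _) ?_
          intro r hr
          have f1 : 0 ≤ (√(t0 - r))⁻¹ * (q4 (t0 - r))⁻¹ := by
            unfold q4
            positivity
          have f2 := (hu r (hsub2 hr)).2
          have f3 := hW r ⟨hr.1, hr.2.trans ht0.2⟩
          have f4 : (1 + β r) * (u r + 1) ≤ (1 + β r) * (u t0 + 1) :=
            mul_le_mul_of_nonneg_left (by linarith) (by linarith)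
          calc (√(t0 - r))⁻¹ * (q4 (t0 - r))⁻¹ * ((1 + β r) * (u r + 1))
              ≤ (√(t0 - r))⁻¹ * (q4 (t0 - r))⁻¹ * ((1 + β r) * (u t0 + 1)) :=
                mul_le_mul_of_nonneg_left f4 f1
            _ = (u t0 + 1) * ((√(t0 - r))⁻¹ * (q4 (t0 - r))⁻¹ * 1 +
                (√(t0 - r))⁻¹ * (q4 (t0 - r))⁻¹ * β r) := by ring
      _ = (u t0 + 1) * ((∫ r in a..t0, (√(t0 - r))⁻¹ * (q4 (t0 - r))⁻¹ * 1) +
            ∫ r in a..t0, (√(t0 - r))⁻¹ * (q4 (t0 - r))⁻¹ * β r) := by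
          rw [intervalIntegral.integral_const_mul, intervalIntegral.integral_add j1 j2]
      _ ≤ _ := mul_le_mul_of_nonneg_left (add_le_add k1 k2) (by linarith)
  have h2 : C * ∫ r in a..t0, (√(t0 - r))⁻¹ * (q4 (t0 - r))⁻¹ * ((1 + β r) * (u r + 1)) ≤
      (u t0 + 1) / 2 := by
    calc _ ≤ C * ((u t0 + 1) * (4 * h ^ (1 / 4 : ℝ) + 8 * h ^ (1 / 8 : ℝ) * R ^ (1 / 8 : ℝ))) :=
          mul_le_mul_of_nonneg_left k3 (by linarith)
      _ = (u t0 + 1) * (C * (4 * h ^ (1 / 4 : ℝ) + 8 * h ^ (1 / 8 : ℝ) * R ^ (1 / 8 : ℝ))) := by ring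
      _ ≤ (u t0 + 1) * (1 / 2) := mul_le_mul_of_nonneg_left hh (by linarith)
      _ = (u t0 + 1) / 2 := by ring
  intro t ht
  have h3 := hW t ht
  have h4 : 1 ≤ C * (u a + 1) := by nlinarith
  nlinarith

/-- A singular Gronwall inequality on windows. -/
theorem window (C R u0 : ℝ) : ∃ Λ, ∀ {b : ℝ} {u β : ℝ → ℝ}, 0 ≤ b → b ≤ 1 →
    ContinuousOn u (Icc 0 b) → ContinuousOn β (Icc 0 b) → (∀ t ∈ Icc 0 b, 0 ≤ u t ∧ 0 ≤ β t) →
    ∫ t in (0:ℝ)..b, β t ^ 8 ≤ R → u 0 ≤ u0 →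
    (∀ a ∈ Icc 0 b, ∀ t ∈ Icc a b, u t ≤ C * (u a + 1) +
      C * ∫ r in a..t, (√(t - r))⁻¹ * (q4 (t - r))⁻¹ * ((1 + β r) * (u r + 1))) →
    ∀ t ∈ Icc 0 b, u t ≤ Λ := by
  obtain ⟨C1, hC1, hCC⟩ : ∃ C1 : ℝ, 1 ≤ C1 ∧ C ≤ C1 := ⟨max C 1, le_max_right _ _, le_max_left _ _⟩
  obtain ⟨R1, hR1, hRR⟩ : ∃ R1 : ℝ, 0 ≤ R1 ∧ R ≤ R1 := ⟨max R 0, le_max_right _ _, le_max_left _ _⟩
  obtain ⟨U, hU, hUU⟩ : ∃ U : ℝ, 0 ≤ U ∧ u0 ≤ U := ⟨max u0 0, le_max_right _ _, le_max_left _ _⟩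
  have hR8 : 0 ≤ R1 ^ (1 / 8 : ℝ) := Real.rpow_nonneg hR1 _
  set D : ℝ := C1 * (4 + 8 * R1 ^ (1 / 8 : ℝ)) with hD
  have hD4 : 4 ≤ D := by rw [hD]; nlinarith
  set x : ℝ := 1 / (2 * D) with hx
  have hx0 : 0 < x := by rw [hx]; positivity
  have hx1 : x ≤ 1 := by
    rw [hx, div_le_one (by linarith)]
    linarith
  set h : ℝ := x ^ 8 with hh
  have hh0 : 0 < h := by rw [hh]; positivity
  have hh1 : h ≤ 1 := by rw [hh]; exact pow_le_one₀ hx0.le hx1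
  have h8 : h ^ (1 / 8 : ℝ) = x := by
    rw [hh, ← Real.rpow_natCast, ← Real.rpow_mul hx0.le]
    norm_num
  have h4 : h ^ (1 / 4 : ℝ) ≤ x := by
    rw [← h8]
    exact Real.rpow_le_rpow_of_exponent_ge hh0 hh1 (by norm_num)
  have hwin : C1 * (4 * h ^ (1 / 4 : ℝ) + 8 * h ^ (1 / 8 : ℝ) * R1 ^ (1 / 8 : ℝ)) ≤ 1 / 2 := by
    rw [h8]
    calc C1 * (4 * h ^ (1 / 4 : ℝ) + 8 * x * R1 ^ (1 / 8 : ℝ))
        ≤ C1 * (4 * x + 8 * x * R1 ^ (1 / 8 : ℝ)) := by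
          apply mul_le_mul_of_nonneg_left _ (by linarith)
          linarith
      _ = D * x := by rw [hD]; ring
      _ = 1 / 2 := by rw [hx]; field_simp
  refine ⟨(4 * C1) ^ (⌈1 / h⌉₊) * (U + 1), ?_⟩
  intro b u β hb0 hb1 cu cβ hu hβ hu00 main
  have key : ∀ j : ℕ, ∀ t ∈ Icc 0 b, t ≤ j * h → u t + 1 ≤ (4 * C1) ^ j * (U + 1) := by
    intro j
    induction j with
    | zero =>
      intro t ht htj
      have : t = 0 := le_antisymm (by simpa using htj) ht.1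
      rw [this, pow_zero, one_mul]
      linarith
    | succ j ih =>
      intro t ht htj
      have hpow : (0:ℝ) ≤ (4 * C1) ^ j * (U + 1) := by positivity
      rcases le_total t (j * h) with hle | hge
      · refine (ih t ht hle).trans ?_
        rw [pow_succ]
        nlinarith
      · have ha0 : (0:ℝ) ≤ j * h := by positivity
        have hab : (j:ℝ) * h ∈ Icc 0 b := ⟨ha0, hge.trans ht.2⟩
        have e1 := ih (j * h) hab (le_refl _)
        have e2 := XbBb_step hC1 hR1 hh0.le hwin cu cβ hu (hβ.trans hRR) (a := j * h) (c := t) ha0 hge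
          ht.2 (by push_cast at htj; linarith) (fun s hs => ?_) t ⟨hge, le_refl _⟩
        · calc u t + 1 ≤ 4 * C1 * (u (j * h) + 1) := e2
            _ ≤ 4 * C1 * ((4 * C1) ^ j * (U + 1)) := by
                apply mul_le_mul_of_nonneg_left e1 (by linarith)
            _ = _ := by rw [pow_succ]; ring
        · have e3 := main (j * h) hab s ⟨hs.1, hs.2.trans ht.2⟩
          have e4 : 0 ≤ ∫ r in ((j:ℝ) * h)..s, (√(s - r))⁻¹ * (q4 (s - r))⁻¹ * ((1 + β r) * (u r + 1)) := by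
            apply intervalIntegral.integral_nonneg hs.1
            intro r hr
            obtain ⟨f1, f2⟩ := hu r ⟨ha0.trans hr.1, hr.2.trans (hs.2.trans ht.2)⟩
            unfold q4
            positivity
          have e5 : 0 ≤ u (j * h) := (hu _ hab).1
          have e6 : C * (u (j * h) + 1) ≤ C1 * (u (j * h) + 1) :=
            mul_le_mul_of_nonneg_right hCC (by linarith)
          have e7 := mul_le_mul_of_nonneg_right hCC e4
          linarith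
  intro t ht
  have h1 : t ≤ (⌈1 / h⌉₊ : ℝ) * h := by
    have e1 : 1 / h ≤ (⌈1 / h⌉₊ : ℝ) := Nat.le_ceil _
    have e2 : 1 ≤ (⌈1 / h⌉₊ : ℝ) * h := by
      rw [div_le_iff₀ hh0] at e1
      exact e1
    linarith [ht.2]
  have := key _ t ht h1
  linarith

end

end Pool.Agent.Lib.MP_79abb3_an.FW
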