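import Pool.Agent.Lib.MP_79abb3_an.FW.ExF
import Pool.Agent.Lib.MP_79abb3_an.FW.XbBa
import Pool.Agent.Lib.MP_79abb3_an.FW.XbBb

/-!
FW-57c: the estimate in `X` (3.7).
-/

set_option autoImplicit false
set_option linter.unusedSectionVars false

open MeasureTheory Set Filter Topology Function

namespace Pool.Agent.Lib.MP_79abb3_an.FW

open Pool.Agent.Lib.MP_79abb3_an.P25

section
variable {H : ℝ} [hH : Fact (0 < H)]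

theorem xb {ω : ℝ} (hω : 0 < ω) {N : ℕ} (hN : 1 ≤ N) (R : ℝ) : ∃ Λ,
    ∀ {A A1 : ℝ → ℝ} {b : ℝ} {x : ℝ → L1 (Xn H)}, 0 ≤ b → b ≤ 1 → CS ω N A A1 0 b x →
    (∀ t ∈ Icc 0 b, |A t| ≤ R ∧ |A1 t| ≤ R ∧ yy (x t) ≤ 1) → ∫ t in (0:ℝ)..b, bt ω (x t) ^ 8 ≤ R →
    ‖x 0‖ ≤ R → ∀ t ∈ Icc 0 b, ‖x t‖ ≤ Λ := by
  obtain ⟨C, -, hC⟩ := xb_volt (H := H) hω hN R
  obtain ⟨Λ, hΛ⟩ := window C R R
  refine ⟨Λ, ?_⟩
  intro A A1 b x hb0 hb1 hcs hbd hβ hx0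
  refine hΛ (u := fun t => ‖x t‖) (β := fun t => bt ω (x t)) hb0 hb1 hcs.c.norm
    ((bt_cont ω).comp_continuousOn hcs.c)
    (fun t _ => ⟨norm_nonneg _, tsum_nonneg fun n => norm_nonneg _⟩) hβ hx0 ?_
  intro a ha t ht
  exact (hC ha.2 (by linarith [ha.1]) (hcs.mono ha.1 le_rfl)
    (fun s hs => hbd s ⟨ha.1.trans hs.1, hs.2⟩) t ht).2

end

end Pool.Agent.Lib.MP_79abb3_an.FW
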