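import Pool.Agent.Lib.MP_79abb3_an.FW.ApD
import Pool.Agent.Lib.MP_79abb3_an.FW.DaB
import Pool.Agent.Lib.MP_79abb3_an.FW.FlD
import Pool.Agent.Lib.MP_79abb3_an.FW.FlE
import Pool.Agent.Lib.MP_79abb3_an.FW.FlF
import Pool.Agent.Lib.MP_79abb3_an.FW.Prf
import Pool.Agent.Lib.MP_79abb3_an.FW.XbB

/-!
FW-80: phase 1.
-/

set_option autoImplicit false
set_option linter.unusedSectionVars false

attribute [-instance] PreLp.ring SubfieldClass.toSubringClass SubringClass.toSubsemiringClass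
  NonUnitalSubringClass.toNonUnitalSubsemiringClass RingConeClass.toSubsemiringClass
  SubsemiringClass.nonUnitalSubsemiringClass SubringClass.nonUnitalSubringClass
  AddSubgroup.seminormedAddCommGroup SetLike.GradeZero.instSemiring SetLike.GradeZero.instCommRing
  SetLike.GradeZero.instCommSemiring SetLike.GradeZero.instRing LieAdmissibleAlgebra.toModule
  RightPreLieAlgebra.toModule LeftPreLieAlgebra.toModule

open MeasureTheory Set Filter Topology Function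

namespace Pool.Agent.Lib.MP_79abb3_an.FW

open Pool.Agent.Lib.MP_79abb3_an.P25

section
variable {H : ℝ} [hH : Fact (0 < H)]

/-- Profiles vanish to first order at nonpositive times. -/
private theorem mna_P1_zero {P P1 : ℝ → ℝ} (dP : ∀ t, HasDerivAt P (P1 t) t)
    (h0 : ∀ t, t ≤ 0 → P t = 0) {t : ℝ} (ht : t ≤ 0) : P1 t = 0 := by
  have h1 : HasDerivWithinAt P (P1 t) (Iic t) t := (dP t).hasDerivWithinAt
  have h2 : HasDerivWithinAt P 0 (Iic t) t := by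
    have h3 : HasDerivWithinAt (fun _ : ℝ => (0:ℝ)) 0 (Iic t) t := hasDerivWithinAt_const _ _ _
    refine h3.congr (fun s hs => h0 s (le_trans hs ht)) (h0 t ht)
  exact (uniqueDiffWithinAt_Iic t).eq_deriv _ h1 h2

private theorem mna_dd2_nonneg (x : ℤ → Xn H) : 0 ≤ dd2 x :=
  tsum_nonneg fun n => by positivity

/-- The a priori bound in the form used for continuation. -/
private theorem mna_apri {ω : ℝ} {N : ℕ} {Θ C m Λ R R1 b : ℝ} {A A1 : ℝ → ℝ} {x : ℝ → L1 (Xn H)}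
    (hm : ω * N = m)
    (hap : ∀ {A A1 : ℝ → ℝ} {b : ℝ} {x : ℝ → L1 (Xn H)}, 0 ≤ b →
      b ≤ 1 / (8 * (ω * N) ^ 2) → CS ω N A A1 0 b x → (∀ t ∈ Icc 0 b, A t ∈ Icc 0 (A0 (ω * N))) →
      th2 (x 0) ≤ Θ ^ 2 → (∀ n, ∀ z ∈ Icc (zl (ω * N)) H, ex (x 0 n).2.1 z = 0) → yy (x 0) ≤ 1 / 4 →
      AB ω N Θ C b A x)
    (hxb : ∀ {A A1 : ℝ → ℝ} {b : ℝ} {x : ℝ → L1 (Xn H)}, 0 ≤ b → b ≤ 1 → CS ω N A A1 0 b x →
      (∀ t ∈ Icc 0 b, |A t| ≤ R ∧ |A1 t| ≤ R ∧ yy (x t) ≤ 1) → ∫ t in (0:ℝ)..b, bt ω (x t) ^ 8 ≤ R →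
      ‖x 0‖ ≤ R → ∀ t ∈ Icc 0 b, ‖x t‖ ≤ Λ)
    (hb : 0 ≤ b) (hb1 : b ≤ 1) (hb2 : b ≤ 1 / (8 * m ^ 2)) (hx : CS ω N A A1 0 b x)
    (hA : ∀ t, A t ∈ Icc 0 (A0 m)) (hAR : A0 m ≤ R) (hA1 : ∀ t, |A1 t| ≤ R1) (hR1 : R1 ≤ R)
    (hC : C ≤ R) (h0 : ‖x 0‖ ≤ R)
    (i1 : th2 (x 0) ≤ Θ ^ 2) (i2 : ∀ n, ∀ z ∈ Icc (zl m) H, ex (x 0 n).2.1 z = 0)
    (i3 : yy (x 0) ≤ 1 / 4) : AB ω N Θ C b A x ∧ ∀ t ∈ Icc 0 b, ‖x t‖ ≤ Λ := by
  subst hm
  have hAB : AB ω N Θ C b A x := hap hb hb2 hx (fun t _ => hA t) i1 i2 i3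
  refine ⟨hAB, hxb hb hb1 hx (fun t ht => ⟨?_, (hA1 t).trans hR1, hAB.y1 t ht⟩) (hAB.be.trans hC) h0⟩
  rw [abs_of_nonneg (hA t).1]
  exact (hA t).2.trans hAR

private theorem mna_sum {a r c n : ℝ} (ha : 0 ≤ a) (hr : 0 ≤ r) (hc : 0 ≤ c) (hn : 0 ≤ n) :
    a ≤ a + r + c + n ∧ r ≤ a + r + c + n ∧ c ≤ a + r + c + n ∧ n ≤ a + r + c + n :=
  ⟨by linarith, by linarith, by linarith, by linarith⟩

/-- Choice of the parameter. -/
private theorem mna_params {ω δ T S C M D E m1 m2 : ℝ} (hω : 0 < ω) (hδ : 0 < δ) (hT : 0 < T)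
    (hS : 0 ≤ S) (hC : 0 ≤ C) (hD : 0 ≤ D) (hE : 0 ≤ E) (hM : 0 < M) : ∃ N : ℕ, 1 ≤ N ∧ m1 ≤ ω * N ∧
    m2 ≤ ω * N ∧ 1 ≤ ω * N ∧ zl (ω * N) ≤ 1 ∧ zl (ω * N) ≤ M ∧ S * zl (ω * N) ≤ 1 / 4 ∧
    S * zl (ω * N) ≤ δ / 4 ∧ C * (1 / (8 * (ω * N) ^ 2)) ^ (1 / 8 : ℝ) ≤ δ / 4 ∧
    D * √(4 / √(ω * N)) ≤ δ / 4 ∧ E * Real.exp (-√(ω * N) / 2) * (1 + ω * N) ≤ δ / 4 ∧
    4 / √(ω * N) ≤ 1 ∧ 4 / √(ω * N) ≤ M ∧ 1 / (8 * (ω * N) ^ 2) < T := by
  obtain ⟨m0, -, hm0⟩ := par_lim (max (max (max S C) (max D E)) (max 1 (1 / M)))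
    (ε := min (1 / 4) (δ / 4)) (by positivity)
  set K := max (max (max S C) (max D E)) (max 1 (1 / M)) with hK
  have kS : S ≤ K := ((le_max_left _ _).trans (le_max_left _ _)).trans (le_max_left _ _)
  have kC : C ≤ K := ((le_max_right _ _).trans (le_max_left _ _)).trans (le_max_left _ _)
  have kD : D ≤ K := ((le_max_left _ _).trans (le_max_right _ _)).trans (le_max_left _ _)
  have kE : E ≤ K := ((le_max_right _ _).trans (le_max_right _ _)).trans (le_max_left _ _)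
  have k1 : 1 ≤ K := (le_max_left _ _).trans (le_max_right _ _)
  have kM : 1 / M ≤ K := (le_max_right _ _).trans (le_max_right _ _)
  obtain ⟨N, hN⟩ := exists_nat_ge ((max (max (max m0 m1) (max m2 1)) (1 / T)) / ω + 1)
  have hN1 : (1:ℝ) ≤ N := by
    have : 0 ≤ (max (max (max m0 m1) (max m2 1)) (1 / T)) / ω := by positivity
    linarith
  have hmN : max (max (max m0 m1) (max m2 1)) (1 / T) ≤ ω * N := by
    have h1 : (max (max (max m0 m1) (max m2 1)) (1 / T)) / ω ≤ N := by linarith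
    rw [div_le_iff₀ hω] at h1
    linarith
  have e0 : m0 ≤ ω * N := (((le_max_left _ _).trans (le_max_left _ _)).trans (le_max_left _ _)).trans hmN
  have e1 : m1 ≤ ω * N := (((le_max_right _ _).trans (le_max_left _ _)).trans (le_max_left _ _)).trans hmN
  have e2 : m2 ≤ ω * N := (((le_max_left _ _).trans (le_max_right _ _)).trans (le_max_left _ _)).trans hmN
  have e3 : 1 ≤ ω * N := (((le_max_right _ _).trans (le_max_right _ _)).trans (le_max_left _ _)).trans hmN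
  have e4 : 1 / T ≤ ω * N := (le_max_right _ _).trans hmN
  obtain ⟨-, p1, -, p2, p3, p4, p5⟩ := hm0 (ω * N) e0
  have hmin1 : min (1 / 4 : ℝ) (δ / 4) ≤ 1 / 4 := min_le_left _ _
  have hmin2 : min (1 / 4 : ℝ) (δ / 4) ≤ δ / 4 := min_le_right _ _
  set m := ω * N with hmdef
  have hm0' : 0 < m := by linarith
  have hzl : 0 ≤ zl m := by unfold zl; positivity
  have hsq : 0 ≤ √(4 / √m) := Real.sqrt_nonneg _
  have hKM : ∀ {y : ℝ}, 0 ≤ y → K * y ≤ 1 / 4 → y ≤ M := by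
    intro y hy h
    have h1 : 1 / M * y ≤ K * y := mul_le_mul_of_nonneg_right kM hy
    have h2 : 1 / M * y ≤ 1 := by linarith
    rw [one_div, inv_mul_le_iff₀ hM] at h2
    linarith
  have hq1 : √(4 / √m) ≤ 1 := by
    have : 1 * √(4 / √m) ≤ K * √(4 / √m) := mul_le_mul_of_nonneg_right k1 hsq
    linarith
  have hq2 : 4 / √m ≤ √(4 / √m) := by
    have h1 : √(4 / √m) ^ 2 = 4 / √m := Real.sq_sqrt (by positivity)
    have h2 : √(4 / √m) * √(4 / √m) ≤ √(4 / √m) := mul_le_of_le_one_left hsq hq1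
    rw [← sq, h1] at h2
    exact h2
  refine ⟨N, by exact_mod_cast hN1, e1, e2, e3, p1, hKM hzl (p4.trans hmin1), ?_, ?_, ?_, ?_, ?_,
    hq2.trans hq1, hq2.trans (hKM hsq (p5.trans hmin1)), ?_⟩
  · exact ((mul_le_mul_of_nonneg_right kS hzl).trans p4).trans hmin1
  · exact ((mul_le_mul_of_nonneg_right kS hzl).trans p4).trans hmin2
  · exact ((mul_le_mul_of_nonneg_right kC (by positivity)).trans p3).trans hmin2
  · exact ((mul_le_mul_of_nonneg_right kD hsq).trans p5).trans hmin2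
  · refine (le_trans ?_ p2).trans hmin2
    have h1 : 0 ≤ Real.exp (-√m / 2) * (1 + m) := by positivity
    rw [mul_assoc, mul_assoc]
    exact mul_le_mul_of_nonneg_right kE h1
  · rw [div_lt_iff₀ (by positivity)]
    rw [div_le_iff₀ hT] at e4
    have h1 : m ≤ m ^ 2 := le_self_pow₀ e3 two_ne_zero
    have h2 : m * T ≤ m ^ 2 * T := mul_le_mul_of_nonneg_right h1 hT.le
    clear * - h2 e4 hT
    linarith

private theorem mna_sqrt_exp (s : ℝ) : √(Real.exp (-s)) = Real.exp (-s / 2) := by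
  rw [← Real.exp_half]

private theorem mna_inv_sqrt {m : ℝ} (hm : 1 ≤ m) : (√(4 / √m))⁻¹ ≤ 1 + m := by
  have h1 : 1 ≤ √m := by rw [Real.one_le_sqrt]; exact hm
  have h2 : √m ≤ m := by
    have := Real.sq_sqrt (show 0 ≤ m by linarith)
    nlinarith
  rw [← Real.sqrt_inv, inv_div]
  rw [Real.sqrt_le_left (by linarith)]
  nlinarith

theorem phase1 {ω : ℝ} (hω : ω * H = Real.pi) {c c1 : ℤ → CI H} (hc : DV ω c c1) {δ T : ℝ}
    (hδ : 0 < δ) (hT : 0 < T) : ∃ N : ℕ, 1 ≤ N ∧ ∃ t2 ∈ Ioo 0 T, ∃ (A A1 : ℝ → ℝ) (x : ℝ → L1 (Xn H)),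
    CS ω N A A1 0 t2 x ∧ A 0 = 0 ∧ A t2 = 0 ∧ (∀ n, ov ω (x 0) n + iv (x 0) n = dst ω c n) ∧
    ∑' n, n2 (ov ω (x t2) n + iv (x t2) n).2.1 ≤ δ := by
  have hH0 : 0 < H := hH.out
  have hω' : 0 < ω := by
    by_contra hcon
    push Not at hcon
    have := Real.pi_pos
    nlinarith [mul_nonneg (neg_nonneg.mpr hcon) hH0.le]
  set Θ := √(∑' n, n2 (c n) ^ 2) with hΘdef
  have hΘ : 0 ≤ Θ := Real.sqrt_nonneg _
  have hΘ2 : Θ ^ 2 = ∑' n, n2 (c n) ^ 2 := Real.sq_sqrt (tsum_nonneg fun n => sq_nonneg _)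
  set S := ∑' n, ‖c n‖ with hSdef
  have hS : 0 ≤ S := tsum_nonneg fun n => norm_nonneg _
  obtain ⟨C, hC, m1, -, hap⟩ := ap hω hΘ
  obtain ⟨C2, hC2, m2, -, hflush⟩ := flush hω (Θ := Θ) hC
  obtain ⟨C4, hC4, hvo⟩ := vo_small (H := H) hω'
  obtain ⟨N, hN, g1, g2, g3, g4, g5, g6, g7, g8, g9, g10, g11, g12, g13⟩ :=
    mna_params (ω := ω) (δ := δ) (T := T) (S := S) (C := C) (M := H) (D := C4 * √(Θ ^ 2 + 1))
      (E := C4 * √(C2 + 1)) (m1 := m1) (m2 := m2) hω' hδ hT hS (by linarith) (by positivity)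
      (by positivity) hH0
  have hap := @hap N hN g1
  have hflush := @hflush N hN g2
  set m := ω * N with hm
  have hm0 : 0 < m := by linarith
  have hzl : 0 < zl m := by unfold zl; positivity
  obtain ⟨x0, ix1, ix2, ix3, ix4, ix5, ix6⟩ := init_state hω' hc hzl g4 g5 N
  obtain ⟨P, P1, cP, cP1, dP, P0, P1', PI, L, hL⟩ := profile
  have hL0 : 0 ≤ L := (abs_nonneg _).trans (hL 0)
  have hA0 : 0 ≤ A0 m := by unfold A0; positivity
  -- times
  set τ := 1 / (16 * m ^ 2) with hτ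
  have hτ0 : 0 < τ := by positivity
  have hτ1 : 1 / (8 * m ^ 2) = 2 * τ := by rw [hτ]; field_simp; norm_num
  have hτ2 : 1 / (32 * m ^ 2) = τ / 2 := by rw [hτ]; field_simp; norm_num
  have hτ3 : 32 * m ^ 2 * τ = 2 := by rw [hτ]; field_simp; norm_num
  have hm1 : 1 ≤ m ^ 2 := one_le_pow₀ g3
  have hτ4 : 2 * τ ≤ 1 := by
    rw [← hτ1, div_le_one (by positivity)]
    clear * - hm1
    linarith
  have hτ5 : τ ≤ 2 * τ := by clear * - hτ0; linarith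
  have hτ6 : τ ≤ 1 / (8 * m ^ 2) := by rw [hτ1]; exact hτ5
  -- first profile
  set A : ℝ → ℝ := fun t => A0 m * P (32 * m ^ 2 * t) with hA
  set A1 : ℝ → ℝ := fun t => A0 m * (P1 (32 * m ^ 2 * t) * (32 * m ^ 2)) with hA1
  have cA1 : Continuous A1 := by
    rw [hA1]
    fun_prop
  have dA : ∀ t, HasDerivAt A (A1 t) t := by
    intro t
    have h1 : HasDerivAt (fun t : ℝ => 32 * m ^ 2 * t) (32 * m ^ 2) t := by
      simpa using (hasDerivAt_id t).const_mul (32 * m ^ 2)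
    exact ((dP (32 * m ^ 2 * t)).comp t h1).const_mul (A0 m)
  have hA00 : A 0 = 0 := by simp only [hA, mul_zero, P0 0 le_rfl]
  have hAI : ∀ t, A t ∈ Icc 0 (A0 m) := by
    intro t
    have := PI (32 * m ^ 2 * t)
    exact ⟨mul_nonneg hA0 this.1, mul_le_of_le_one_right hA0 this.2⟩
  set R1 := A0 m * (L * (32 * m ^ 2)) with hR1
  have hR1' : 0 ≤ R1 := by positivity
  have hA1b : ∀ t, |A1 t| ≤ R1 := by
    intro t
    simp only [hA1, abs_mul, abs_of_nonneg hA0]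
    rw [abs_of_nonneg (show (0:ℝ) ≤ m ^ 2 by positivity), abs_of_nonneg (show (0:ℝ) ≤ 32 by norm_num)]
    exact mul_le_mul_of_nonneg_left (mul_le_mul_of_nonneg_right (hL _) (by positivity)) hA0
  -- the first solution
  obtain ⟨Λ, hxb⟩ := xb (H := H) hω' hN (A0 m + R1 + C + ‖x0‖)
  have hn0 := norm_nonneg x0
  have hC00 : 0 ≤ C := zero_le_one.trans hC
  obtain ⟨k1, k2, k3, k4⟩ := mna_sum hA0 hR1' hC00 hn0
  have h0 : CS ω N A A1 0 0 (fun _ => x0) := by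
    apply CS.single _ ix2
    intro n
    rw [hA00]
    exact ix1 n
  have i1 : th2 x0 ≤ Θ ^ 2 := by rw [hΘ2]; exact ix3
  have i3 : yy x0 ≤ 1 / 4 := ix5.trans (by rw [mul_comm]; exact g6)
  obtain ⟨y, hy, hy0⟩ := cs_extend hω' hN (b := τ) (Λ := Λ) cA1 dA le_rfl hτ0.le h0 (by
    intro c hc x hx hx0 t ht
    have e0 : x 0 = x0 := hx0 0 ⟨le_rfl, le_rfl⟩
    refine (mna_apri (R := A0 m + R1 + C + ‖x0‖) hm.symm hap hxb hc.1 (hc.2.trans (hτ5.trans hτ4))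
      (hc.2.trans hτ6) hx hAI k1 hA1b k2 k3 ?_ ?_ ?_ ?_).2 t ht
    · rw [e0]; exact k4
    · rw [e0]; exact i1
    · rw [e0]; exact ix4
    · rw [e0]; exact i3)
  have ey0 : y 0 = x0 := hy0 0 ⟨le_rfl, le_rfl⟩
  have hyAB : AB ω N Θ C τ A y := by
    refine (mna_apri (R := A0 m + R1 + C + ‖x0‖) hm.symm hap hxb hτ0.le (hτ5.trans hτ4) hτ6 hy hAI
      k1 hA1b k2 k3 ?_ ?_ ?_ ?_).1
    · rw [ey0]; exact k4
    · rw [ey0]; exact i1
    · rw [ey0]; exact ix4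
    · rw [ey0]; exact i3
  -- the flush
  obtain ⟨t1, ht1, hth1⟩ := hflush (le_refl τ) (hτ5.trans hτ4) hy hyAB (by
    intro t ht
    have h1 : 1 ≤ 32 * m ^ 2 * t := by
      have h2 := ht.1
      rw [div_le_iff₀ (by positivity)] at h2
      clear * - h2
      linarith
    simp only [hA, P1' _ h1, mul_one])
  rw [hτ2] at ht1
  have ht10 : 0 < t1 := (half_pos hτ0).trans_le ht1.1
  -- switching off
  have hc' : 0 < 2 / √m := by positivity
  have hcc : 2 * (2 / √m) = 4 / √m := by ring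
  obtain ⟨C3, hC3, hsw⟩ := switch hω hN (Θ := Θ) (C := C) (R := A0 m) hc' (by rw [hcc]; exact g12)
  obtain ⟨d, hd0, hd1, hd2⟩ : ∃ d, 0 < d ∧ d ≤ τ ∧ C3 * √d ≤ Real.exp (-√m) := by
    have hq : 0 < Real.exp (-√m) / (C3 + 1) := by positivity
    refine ⟨min τ ((Real.exp (-√m) / (C3 + 1)) ^ 2), by positivity, min_le_left _ _, ?_⟩
    have h1 : √(min τ ((Real.exp (-√m) / (C3 + 1)) ^ 2)) ≤ Real.exp (-√m) / (C3 + 1) := by
      rw [Real.sqrt_le_left hq.le]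
      exact min_le_right _ _
    calc C3 * √(min τ ((Real.exp (-√m) / (C3 + 1)) ^ 2))
        ≤ (C3 + 1) * (Real.exp (-√m) / (C3 + 1)) :=
          mul_le_mul (le_add_of_nonneg_right zero_le_one) h1 (Real.sqrt_nonneg _)
            (by clear * - hC3; linarith)
      _ = Real.exp (-√m) := by field_simp
  -- second profile
  set B : ℝ → ℝ := fun t => A t * (1 - P ((t - t1) / d)) with hB
  set B1 : ℝ → ℝ := fun t => A1 t * (1 - P ((t - t1) / d)) + A t * (-(P1 ((t - t1) / d) * (1 / d))) with hB1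
  have cA : Continuous A := continuous_iff_continuousAt.mpr fun t => (dA t).continuousAt
  have cB1 : Continuous B1 := by
    rw [hB1]
    fun_prop
  have dB : ∀ t, HasDerivAt B (B1 t) t := by
    intro t
    have h1 : HasDerivAt (fun t : ℝ => (t - t1) / d) (1 / d) t :=
      ((hasDerivAt_id t).sub_const t1).div_const d
    have h2 : HasDerivAt (fun t : ℝ => 1 - P ((t - t1) / d)) (-(P1 ((t - t1) / d) * (1 / d))) t := by
      have := ((dP ((t - t1) / d)).comp t h1).const_sub 1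
      exact this
    exact (dA t).mul h2
  have hBI : ∀ t, B t ∈ Icc 0 (A0 m) := by
    intro t
    have h1 := PI ((t - t1) / d)
    have h2 := hAI t
    exact ⟨mul_nonneg h2.1 (sub_nonneg.2 h1.2),
      (mul_le_of_le_one_right h2.1 (sub_le_self _ h1.1)).trans h2.2⟩
  set R2 := R1 + A0 m * (L * (1 / d)) with hR2
  have hR2' : 0 ≤ A0 m * (L * (1 / d)) := by positivity
  have hB1b : ∀ t, |B1 t| ≤ R2 := by
    intro t
    have h1 := PI ((t - t1) / d)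
    have h2 := hAI t
    have e1 : |A1 t * (1 - P ((t - t1) / d))| ≤ R1 := by
      rw [abs_mul, abs_of_nonneg (show 0 ≤ 1 - P ((t - t1) / d) from sub_nonneg.2 h1.2)]
      exact (mul_le_of_le_one_right (abs_nonneg _) (sub_le_self _ h1.1)).trans (hA1b t)
    have e2 : |A t * (-(P1 ((t - t1) / d) * (1 / d)))| ≤ A0 m * (L * (1 / d)) := by
      rw [abs_mul (A t), abs_of_nonneg h2.1, abs_neg, abs_mul (P1 _),
        abs_of_nonneg (show 0 ≤ 1 / d from (one_div_pos.2 hd0).le)]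
      exact mul_le_mul h2.2 (mul_le_mul_of_nonneg_right (hL _) (one_div_pos.2 hd0).le)
        (mul_nonneg (abs_nonneg _) (one_div_pos.2 hd0).le) hA0
    exact (abs_add_le _ _).trans (add_le_add e1 e2)
  have hAB1 : ∀ t ∈ Icc 0 t1, B t = A t ∧ B1 t = A1 t := by
    intro t ht
    have h1 : (t - t1) / d ≤ 0 := div_nonpos_of_nonpos_of_nonneg (sub_nonpos.2 ht.2) hd0.le
    simp only [hB, hB1, P0 _ h1, mna_P1_zero dP P0 h1]
    constructor <;> ring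
  have hBt2 : B (t1 + d) = 0 := by
    have : (t1 + d - t1) / d = 1 := by field_simp; ring
    simp only [hB, this, P1' 1 le_rfl]
    ring
  have hB0 : B 0 = 0 := by rw [(hAB1 0 ⟨le_rfl, ht10.le⟩).1, hA00]
  have hcs1 : CS ω N B B1 0 t1 y := (hy.mono le_rfl ht1.2).congr hAB1 (fun t _ => rfl)
  obtain ⟨Λ', hxb'⟩ := xb (H := H) hω' hN (A0 m + R2 + C + ‖x0‖)
  have ht2 : 0 ≤ t1 + d := add_nonneg ht10.le hd0.le
  have ht2' : t1 + d ≤ 2 * τ := by rw [two_mul]; exact add_le_add ht1.2 hd1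
  have ht2a : t1 + d ≤ 1 := ht2'.trans hτ4
  have ht2b : t1 + d ≤ 1 / (8 * m ^ 2) := by rw [hτ1]; exact ht2'
  have hR20 : 0 ≤ R2 := add_nonneg hR1' hR2'
  obtain ⟨l1, l2, l3, l4⟩ := mna_sum hA0 hR20 hC00 hn0
  obtain ⟨x, hx, hxy⟩ := cs_extend hω' hN (b := t1 + d) (Λ := Λ') cB1 dB ht10.le
    (le_add_of_nonneg_right hd0.le) hcs1 (by
    intro c hc x hx hx0 t ht
    have e0 : x 0 = x0 := (hx0 0 ⟨le_rfl, ht10.le⟩).trans ey0
    refine (mna_apri (R := A0 m + R2 + C + ‖x0‖) hm.symm hap hxb' (ht10.le.trans hc.1)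
      (hc.2.trans ht2a) (hc.2.trans ht2b) hx hBI l1 hB1b l2 l3 ?_ ?_ ?_ ?_).2 t ht
    · rw [e0]; exact l4
    · rw [e0]; exact i1
    · rw [e0]; exact ix4
    · rw [e0]; exact i3)
  have ex0 : x 0 = x0 := (hxy 0 ⟨le_rfl, ht10.le⟩).trans ey0
  have hxAB : AB ω N Θ C (t1 + d) B x := by
    refine (mna_apri (R := A0 m + R2 + C + ‖x0‖) hm.symm hap hxb' ht2 ht2a ht2b hx hBI
      l1 hB1b l2 l3 ?_ ?_ ?_ ?_).1
    · rw [ex0]; exact l4
    · rw [ex0]; exact i1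
    · rw [ex0]; exact ix4
    · rw [ex0]; exact i3
  have hmem : t1 + d ∈ Icc 0 (t1 + d) := ⟨ht2, le_rfl⟩
  have ht2c : t1 ≤ t1 + d := le_add_of_nonneg_right hd0.le
  have hsw1 := hsw ht2 ht2a hx hxAB (fun t _ => by
    rw [abs_of_nonneg (hBI t).1]; exact (hBI t).2) t1 ⟨ht10.le, ht2c⟩ (t1 + d) ⟨ht2c, le_rfl⟩
  rw [hcc, hxy t1 ⟨ht10.le, le_rfl⟩, add_sub_cancel_left] at hsw1
  have hthc : thc (4 / √m) (x (t1 + d)) ≤ (C2 + 1) * Real.exp (-√m) := by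
    clear * - hsw1 hth1 hd2
    linarith
  refine ⟨N, hN, t1 + d, ⟨ht10.trans_le ht2c, ?_⟩, B, B1, x, hx, hB0, hBt2, ?_, ?_⟩
  · rw [hτ1] at g13
    exact ht2'.trans_lt g13
  · intro n
    rw [ex0]
    exact ix6 n
  · -- the estimate
    obtain ⟨v1, v2⟩ := hvo (4 / √m) ⟨by positivity, g11⟩ g12 (x (t1 + d))
    obtain ⟨s1, -⟩ := fun_summable (x (t1 + d)) 0 0 0 0 0
    have hsum : ∑' n, n2 (ov ω (x (t1 + d)) n + iv (x (t1 + d)) n).2.1 ≤
        ∑' n : ℤ, n2 (Top (ω * n) (x (t1 + d) n).1.1) + yy (x (t1 + d)) := by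
      unfold yy
      rw [← v1.tsum_add s1]
      have hle : ∀ n : ℤ, n2 (ov ω (x (t1 + d)) n + iv (x (t1 + d)) n).2.1 ≤
          n2 (Top (ω * n) (x (t1 + d) n).1.1) + n2 (x (t1 + d) n).2.1 := fun n => n2_add _ _
      exact (Summable.of_nonneg_of_le (fun n => n2_nonneg _) hle (v1.add s1)).tsum_le_tsum hle (v1.add s1)
    have hthx : th2 (x (t1 + d)) ≤ Θ ^ 2 + 1 := by
      have h1 := hxAB.th (t1 + d) hmem
      have h2 : 0 ≤ ∫ s in (0:ℝ)..(t1 + d), dd2 (x s) :=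
        intervalIntegral.integral_nonneg ht2 fun s _ => mna_dd2_nonneg _
      clear * - h1 h2
      linarith
    have hyyx : yy (x (t1 + d)) ≤ δ / 4 + δ / 4 := by
      have h1 := hxAB.y2 (t1 + d) hmem
      rw [ex0] at h1
      have h2 : yy x0 ≤ δ / 4 := ix5.trans (by rw [mul_comm]; exact g7)
      have h3 : (t1 + d) ^ (1 / 8 : ℝ) ≤ (1 / (8 * m ^ 2)) ^ (1 / 8 : ℝ) :=
        Real.rpow_le_rpow ht2 (by rw [hτ1]; exact ht2') (by norm_num)
      have h4 : C * (t1 + d) ^ (1 / 8 : ℝ) ≤ C * (1 / (8 * m ^ 2)) ^ (1 / 8 : ℝ) :=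
        mul_le_mul_of_nonneg_left h3 hC00
      clear * - h1 h2 h4 g8
      linarith
    have e1 : C4 * (√(4 / √m) * √(th2 (x (t1 + d)))) ≤ δ / 4 := by
      have h1 : √(th2 (x (t1 + d))) ≤ √(Θ ^ 2 + 1) := Real.sqrt_le_sqrt hthx
      calc C4 * (√(4 / √m) * √(th2 (x (t1 + d)))) ≤ C4 * (√(4 / √m) * √(Θ ^ 2 + 1)) :=
            mul_le_mul_of_nonneg_left (mul_le_mul_of_nonneg_left h1 (Real.sqrt_nonneg _)) hC4
        _ = C4 * √(Θ ^ 2 + 1) * √(4 / √m) := by ring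
        _ ≤ δ / 4 := g9
    have e2 : C4 * ((√(4 / √m))⁻¹ * √(thc (4 / √m) (x (t1 + d)))) ≤ δ / 4 := by
      have h1 : √(thc (4 / √m) (x (t1 + d))) ≤ √(C2 + 1) * Real.exp (-√m / 2) := by
        rw [← mna_sqrt_exp, ← Real.sqrt_mul (by clear * - hC2; linarith)]
        exact Real.sqrt_le_sqrt hthc
      calc C4 * ((√(4 / √m))⁻¹ * √(thc (4 / √m) (x (t1 + d))))
          ≤ C4 * ((1 + m) * (√(C2 + 1) * Real.exp (-√m / 2))) :=
            mul_le_mul_of_nonneg_left (mul_le_mul (mna_inv_sqrt g3) h1 (Real.sqrt_nonneg _)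
              (by clear * - hm0; linarith)) hC4
        _ = C4 * √(C2 + 1) * Real.exp (-√m / 2) * (1 + m) := by ring
        _ ≤ δ / 4 := g10
    have e3 := v2
    rw [mul_add] at e3
    clear * - hsum e3 e1 e2 hyyx
    linarith

end

end Pool.Agent.Lib.MP_79abb3_an.FW
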