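import Pool.Agent.Lib.MP_79abb3_an.FW.NcB
import Pool.Agent.Lib.MP_79abb3_an.P25.LocalNull

/-!
FW-72: local null controllability, zero first component.
-/

set_option autoImplicit false
set_option linter.unusedSectionVars false

open MeasureTheory Set Filter Topology Function

namespace Pool.Agent.Lib.MP_79abb3_an.FW

open Pool.Agent.Lib.MP_79abb3_an.P25

section
variable {H : ℝ} [hH : Fact (0 < H)]

theorem local_null2 {H : ℝ} [Fact (0 < H)] (hH : 1 ≤ H) {T Λ : ℝ} (hT : 0 < T) (hΛ : 1 ≤ Λ) :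
    ∃ μ0 > 0, ∀ (ω : ℝ) (x0 : L1 (Xn H)), (∀ n : ℤ, Cmode (ω * n) (x0 n)) → Sy x0 →
      (∀ n, (x0 n).1 = 0) → ‖jL H x0‖ ≤ μ0 → ‖x0‖ ≤ Λ →
      ∃ b ∈ Ioc 0 T, ∃ (J : Set ℝ) (u : ℝ → L1 (Xn H)),
        Traj ω 0 b J (fun _ => 0) u ∧ u 0 = x0 ∧ u b = 0 ∧ ∀ t ∈ Icc 0 b, ∀ n, (u t n).1 = 0 := by
  obtain ⟨D, K, c, hD, hK, hc, hnl⟩ := nl_step2 (H := H) hH
  -- the lengths
  obtain ⟨l0, hl0, hl01, hl0T, hl0c⟩ : ∃ l0 : ℝ, 0 < l0 ∧ l0 ≤ 1 ∧ 10 * l0 ≤ T ∧ √l0 * Λ ≤ c := by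
    refine ⟨min (min 1 (T / 10)) ((c / Λ) ^ 2), by positivity, (min_le_left _ _).trans (min_le_left _ _), ?_, ?_⟩
    · have : min (min 1 (T / 10)) ((c / Λ) ^ 2) ≤ T / 10 := (min_le_left _ _).trans (min_le_right _ _)
      linarith
    · have h1 : √(min (min 1 (T / 10)) ((c / Λ) ^ 2)) ≤ c / Λ := by
        rw [Real.sqrt_le_left (by positivity)]
        exact min_le_right _ _
      calc √(min (min 1 (T / 10)) ((c / Λ) ^ 2)) * Λ ≤ c / Λ * Λ := by gcongr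
        _ = c := by field_simp
  obtain ⟨a, ha⟩ : ∃ a, a = K / l0 ^ 2 := ⟨_, rfl⟩
  have ha0 : 0 ≤ a := by rw [ha]; positivity
  obtain ⟨B, hB⟩ : ∃ B, B = 4 * (K + a) + 1 / c := ⟨_, rfl⟩
  have hc1 : 0 < 1 / c := by positivity
  have hB1 : 4 * (K + a) ≤ B := by linarith
  have hB2 : a + 1 / c ≤ B := by linarith
  have hB3 : a < B := by linarith
  obtain ⟨l, hl⟩ : ∃ l : ℕ → ℝ, ∀ n, l n = l0 * (4 / 5 : ℝ) ^ n := ⟨_, fun _ => rfl⟩
  have hlpos : ∀ n, 0 < l n := fun n => by rw [hl]; positivity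
  have hlle : ∀ n, l n ≤ l0 := fun n => by
    rw [hl]
    exact mul_le_of_le_one_right hl0.le (pow_le_one₀ (by norm_num) (by norm_num))
  have hlK : ∀ n, K / l n ^ 2 = a * (25 / 16 : ℝ) ^ n := fun n => by rw [hl, ha]; exact ln_scale hl0 n
  obtain ⟨μ0, hμ0, hμ1, hμ2⟩ : ∃ μ0 > 0, Real.exp a * μ0 ≤ c ∧ K * (Real.exp a * μ0) * Λ ≤ lnm B 1 := by
    have hm := lnm_pos B 1
    refine ⟨min (c * Real.exp (-a)) (lnm B 1 / (K * Real.exp a * Λ)), ?_, ?_, ?_⟩
    · have := Real.exp_pos a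
      have := Real.exp_pos (-a)
      exact lt_min (by positivity) (by positivity)
    · calc Real.exp a * min (c * Real.exp (-a)) (lnm B 1 / (K * Real.exp a * Λ)) ≤
          Real.exp a * (c * Real.exp (-a)) := by gcongr; exact min_le_left _ _
        _ = c := by rw [Real.exp_neg]; field_simp
    · have := Real.exp_pos a
      calc K * (Real.exp a * min (c * Real.exp (-a)) (lnm B 1 / (K * Real.exp a * Λ))) * Λ ≤
          K * (Real.exp a * (lnm B 1 / (K * Real.exp a * Λ))) * Λ := by gcongr; exact min_le_right _ _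
        _ = lnm B 1 := by field_simp
  refine ⟨μ0, hμ0, ?_⟩
  intro ω x0 hx0 hsy0 hf0 hj0 hn0
  -- sizes
  obtain ⟨Mx, hMx0, hMx⟩ : ∃ Mx : ℕ → ℝ, Mx 0 = Λ ∧ ∀ n, Mx (n + 1) = lnm B (n + 1) :=
    ⟨fun n => if n = 0 then Λ else lnm B n, by simp, fun n => by simp⟩
  obtain ⟨Mj, hMj0, hMj⟩ : ∃ Mj : ℕ → ℝ, Mj 0 = μ0 ∧ ∀ n, Mj (n + 1) = lnm B (n + 1) :=
    ⟨fun n => if n = 0 then μ0 else lnm B n, by simp, fun n => by simp⟩
  have hBpos : 0 ≤ B := by linarith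
  have hm1 : ∀ n, lnm B n ≤ 1 := fun n => by
    rw [lnm, Real.exp_le_one_iff]
    have : 0 ≤ B * (7 / 4 : ℝ) ^ n := by positivity
    linarith
  have hmc : ∀ n, lnm B n ≤ c := fun n => by
    refine le_trans ?_ (ln_small hc ha0 hB2 n)
    refine le_mul_of_one_le_left (lnm_pos B n).le ?_
    rw [Real.one_le_exp_iff]
    positivity
  have hMxΛ : ∀ n, Mx n ≤ Λ := fun n => by
    rcases n with _ | n
    · rw [hMx0]
    · rw [hMx]; exact (hm1 _).trans hΛ
  have hMx0' : ∀ n, 0 ≤ Mx n := fun n => by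
    rcases n with _ | n
    · rw [hMx0]; linarith
    · rw [hMx]; exact (lnm_pos _ _).le
  have hMj0' : ∀ n, 0 ≤ Mj n := fun n => by
    rcases n with _ | n
    · rw [hMj0]; linarith
    · rw [hMj]; exact (lnm_pos _ _).le
  have hc1' : ∀ n, √(l n) * Mx n ≤ c := fun n => by
    rcases n with _ | n
    · rw [hMx0]
      refine le_trans ?_ hl0c
      gcongr
      exact hlle 0
    · rw [hMx]
      have h1 : √(l (n + 1)) ≤ 1 := by
        rw [← Real.sqrt_one]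
        exact Real.sqrt_le_sqrt ((hlle _).trans hl01)
      calc √(l (n + 1)) * lnm B (n + 1) ≤ 1 * lnm B (n + 1) := by
            gcongr
            exact (lnm_pos _ _).le
        _ ≤ c := by rw [one_mul]; exact hmc _
  have hc2' : ∀ n, Real.exp (K / l n ^ 2) * Mj n ≤ c := fun n => by
    rw [hlK]
    rcases n with _ | n
    · rw [hMj0, pow_zero, mul_one]
      exact hμ1
    · rw [hMj]
      exact ln_small hc ha0 hB2 _
  have hc3' : ∀ n, K * (Real.exp (K / l n ^ 2) * Mj n) * Mx n ≤ lnm B (n + 1) := fun n => by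
    rw [hlK]
    rcases n with _ | n
    · rw [hMj0, hMx0, pow_zero, mul_one]
      exact hμ2
    · rw [hMj, hMx]
      exact ln_step hK ha0 hB1 _
  -- one step
  obtain ⟨h, hh⟩ : ∃ h : ℕ → ℝ, ∀ n, h n = l n + l n / D := ⟨_, fun _ => rfl⟩
  have hD0 : 0 < D := by linarith
  have hhpos : ∀ n, 0 < h n := fun n => by
    rw [hh]
    have := hlpos n
    positivity
  let Q : ℕ → L1 (Xn H) → Prop := fun n x =>
    (∀ j : ℤ, Cmode (ω * j) (x j)) ∧ Sy x ∧ ‖x‖ ≤ Mx n ∧ ‖jL H x‖ ≤ Mj n ∧ ∀ j, (x j).1 = 0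
  have step : ∀ n (x : {x // Q n x}), ∃ u : ℝ → L1 (Xn H), Traj ω 0 (h n) ∅ (fun _ => 0) u ∧
      u 0 = x.1 ∧ Q (n + 1) (u (h n)) ∧ ∀ t ∈ Icc 0 (h n), ‖u t‖ ≤ K * (Λ + 1) ∧
        ‖jL H (u t)‖ ≤ K * (Real.exp (K / l n ^ 2) * Mj n) ∧ ∀ j, (u t j).1 = 0 := by
    rintro n ⟨x, hx1, hx2, hx3, hx4, hx5⟩
    obtain ⟨u, p1, p2, p3, p4, p5, p6, p7⟩ := hnl ω (l n) x ⟨hlpos n, (hlle n).trans hl01⟩ hx1 hx2 hx5
      ((mul_le_mul_of_nonneg_left hx3 (Real.sqrt_nonneg _)).trans (hc1' n))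
      ((mul_le_mul_of_nonneg_left hx4 (Real.exp_pos _).le).trans (hc2' n))
    have hK0 : 0 ≤ K := by linarith
    have hend : ‖u (l n + l n / D)‖ ≤ lnm B (n + 1) := by
      refine p6.trans (le_trans ?_ (hc3' n))
      have := hMj0' n
      gcongr
    refine ⟨u, ?_, p2, ⟨?_, ?_, ?_, ?_, ?_⟩, ?_⟩
    · rw [hh]; exact p1
    · intro j
      rw [hh]
      exact (p3 j).cmode
    · rw [hh]; exact p4
    · rw [hh, hMx]; exact hend
    · rw [hh, hMj]; exact (lept_norm_jL_le _).trans hend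
    · intro j
      rw [hh]
      exact p7 _ ⟨by have := hlpos n; positivity, le_rfl⟩ j
    · intro t ht
      rw [hh] at ht
      obtain ⟨q1, q2⟩ := p5 t ht
      refine ⟨?_, ?_, p7 t ht⟩
      · refine q1.trans ?_
        gcongr
        exact hx3.trans (hMxΛ n)
      · refine q2.trans ?_
        gcongr
  choose U hU1 hU2 hU3 hU4 using step
  have hQ0 : Q 0 x0 := ⟨hx0, hsy0, by rw [hMx0]; exact hn0, by rw [hMj0]; exact hj0, hf0⟩
  let X : ∀ n, {x // Q n x} := fun n => Nat.rec (motive := fun n => {x // Q n x}) ⟨x0, hQ0⟩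
    (fun n x => ⟨U n x (h n), hU3 n x⟩) n
  have hX : ∀ n, (X (n + 1)).1 = U n (X n) (h n) := fun n => rfl
  have hX0 : (X 0).1 = x0 := rfl
  clear_value X
  -- times
  obtain ⟨b, hb⟩ : ∃ b, b = 5 * l0 * (1 + 1 / D) := ⟨_, rfl⟩
  obtain ⟨s, hs⟩ : ∃ s : ℕ → ℝ, ∀ n, s n = b * (1 - (4 / 5 : ℝ) ^ n) := ⟨_, fun _ => rfl⟩
  have hs0 : s 0 = 0 := by rw [hs, pow_zero]; ring
  have hss : ∀ n, s (n + 1) = h n + s n := fun n => by
    rw [hs, hs, hh, hl, hb, pow_succ]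
    field_simp
    ring
  have hsm : StrictMono s := strictMono_nat_of_lt_succ fun n => by
    rw [hss]; linarith [hhpos n]
  have hslim : Tendsto s atTop (𝓝 b) := by
    have h1 : Tendsto (fun n : ℕ => b * (1 - (4 / 5 : ℝ) ^ n)) atTop (𝓝 (b * (1 - 0))) :=
      ((tendsto_pow_atTop_nhds_zero_of_lt_one (by norm_num) (by norm_num)).const_sub 1).const_mul b
    rw [sub_zero, mul_one] at h1
    exact h1.congr fun n => (hs n).symm
  have hbT : b ∈ Ioc 0 T := by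
    have h1 : 1 / D ≤ 1 := by rw [div_le_one hD0]; exact hD
    have h2 : 0 < 1 / D := by positivity
    rw [hb]
    refine ⟨by positivity, ?_⟩
    nlinarith
  have htraj : ∀ k, Traj ω (s k) (s (k + 1)) ∅ (fun _ => 0) (fun t => U k (X k) (t - s k)) := by
    intro k
    have h1 := (hU1 k (X k)).shift (s k)
    rw [zero_add, preimage_empty, ← hss] at h1
    exact h1
  have hmem : ∀ k t, t ∈ Icc (s k) (s (k + 1)) → t - s k ∈ Icc 0 (h k) := by
    intro k t ht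
    have h1 := hss k
    exact ⟨by linarith [ht.1], by linarith [ht.2]⟩
  have hη : Tendsto (fun k => K * (Real.exp (K / l k ^ 2) * Mj k)) atTop (𝓝 0) := by
    have h1 := (ln_tendsto ha0 hB3).const_mul K
    rw [mul_zero] at h1
    refine h1.congr' ?_
    filter_upwards [eventually_ge_atTop 1] with n hn
    obtain ⟨m, rfl⟩ : ∃ m, n = m + 1 := ⟨n - 1, by omega⟩
    rw [hlK, hMj]
  have hKR : 0 ≤ K * (Λ + 1) := by positivity
  obtain ⟨J', P', u', g1, g2, g3, g4, g5⟩ := Traj.iglue_full hsm hslim (J := fun _ => ∅)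
    (P := fun _ _ => 0) htraj (R := K * (Λ + 1))
    (fun k t ht => ⟨by rw [abs_zero]; exact hKR, ((hU4 k (X k)) (t - s k) (hmem k t ht)).1⟩)
    (fun k n => by
      have e1 : s (k + 1) - s k = h k := by rw [hss]; ring
      show jn (U k (X k) (s (k + 1) - s k) n) = jn (U (k + 1) (X (k + 1)) (s (k + 1) - s (k + 1)) n)
      rw [e1, sub_self, hU2 (k + 1) (X (k + 1)), hX k])
    hη (fun k t ht => ((hU4 k (X k)) (t - s k) (hmem k t ht)).2.1)
  have hP' : P' = fun _ => 0 := by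
    funext t
    exact g5 t fun _ => rfl
  rw [hP'] at g1
  refine ⟨b, hbT, J', u', ?_, ?_, g3, ?_⟩
  · rw [hs0] at g1
    exact g1
  · rw [hs0] at g2
    rw [g2]
    show U 0 (X 0) (0 - 0) = x0
    rw [sub_zero, hU2 0 (X 0), hX0]
  · intro t ht n
    rcases ht.2.eq_or_lt with h1 | h1
    · rw [h1, g3]
      rfl
    · obtain ⟨k, hk1, hk2⟩ : ∃ k, s k ≤ t ∧ t < s (k + 1) := by
        have hex : ∃ k, t < s (k + 1) := by
          obtain ⟨k, hk⟩ := ((tendsto_order.1 hslim).1 t h1).exists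
          exact ⟨k, hk.trans (hsm (Nat.lt_succ_self k))⟩
        classical
        refine ⟨Nat.find hex, ?_, Nat.find_spec hex⟩
        rcases Nat.eq_zero_or_pos (Nat.find hex) with h2 | h2
        · rw [h2, hs0]
          exact ht.1
        · have h3 := Nat.find_min hex (m := Nat.find hex - 1) (by omega)
          rw [not_lt, Nat.sub_add_cancel h2] at h3
          exact h3
      rw [(g4 k t hk1 hk2).2]
      exact ((hU4 k (X k)) (t - s k) (hmem k t ⟨hk1, hk2.le⟩)).2.2 n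

end

end Pool.Agent.Lib.MP_79abb3_an.FW
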