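import Pool.Agent.Lib.MP_79abb3_an.FW.PDa
import Pool.Agent.Lib.MP_79abb3_an.FW.VelB
import Pool.Agent.Lib.MP_79abb3_an.FW.VelC

/-!
FW-60: the total velocity solves the Navier-Stokes equations, static identity (2.3).
-/

set_option autoImplicit false
set_option linter.unusedSectionVars false

open MeasureTheory Set Filter Topology Function

namespace Pool.Agent.Lib.MP_79abb3_an.FW

open Pool.Agent.Lib.MP_79abb3_an.P25

section
variable {H : ℝ} [hH : Fact (0 < H)]

private theorem ta_kap_isD (m a : ℝ) : IsD (kap m a : CI H) (kap1 m a) := by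
  intro z hz
  have h1 : HasDerivAt (fun z : ℝ => 64 * a ^ 2 * Real.cosh (m * z) ^ 2)
      (128 * a ^ 2 * m * Real.cosh (m * z) * Real.sinh (m * z)) z := by
    have h2 : HasDerivAt (fun z : ℝ => Real.cosh (m * z)) (Real.sinh (m * z) * m) z := by
      have h3 := ((hasDerivAt_id z).const_mul m).cosh
      simp only [id_eq, mul_one] at h3
      exact h3
    refine ((h2.pow 2).const_mul (64 * a ^ 2)).congr_deriv ?_
    push_cast
    ring
  have h4 : ∀ y ∈ Icc (0:ℝ) H, ex (kap m a : CI H) y =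
      ((64 * a ^ 2 * Real.cosh (m * y) ^ 2 : ℝ) : ℂ) := fun y hy => ex_rc _ _ hy
  refine (h1.ofReal_comp.hasDerivWithinAt.congr h4 (h4 z hz)).congr_deriv ?_
  exact (ex_rc (H := H) (fun z => 128 * a ^ 2 * m * Real.cosh (m * z) * Real.sinh (m * z))
    (by fun_prop) hz).symm

private theorem ta_alg (k : ℝ) (c1 c1' A : CI H) (hT : c1 = Top k (|k| • c1 - c1')) :
    -Top k (c1' + A) = c1 - Top k (|k| • c1 + A) := by
  have h1 : Top k (|k| • c1) - Top k c1' = c1 := by
    rw [← map_sub]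
    exact hT.symm
  have h2 := sub_eq_iff_eq_add.1 h1
  rw [map_add, map_add, h2]
  abel

private theorem ta_tr {k m a : ℝ} {c : ℂ} {x : Xn H} (hx : Cm k c x) :
    Top k (tr m a x) = kap m a * x.2.1 := by
  symm
  refine Top_unique k (pda_isD_mul (ta_kap_isD m a) hx.d2) ?_ ?_
  · rw [ex_mul, hx.h2, mul_zero]
  · unfold tr
    rw [hx.e2]
    refine ci_ext fun z _ => ?_
    simp only [ex_add, ex_sub, ex_neg, ex_mul, ex_rsmul]
    ring

private theorem ta_s11 (x : L1 (Xn H)) : Summable fun n => ‖(x n).1.1‖ :=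
  Summable.of_nonneg_of_le (fun _ => norm_nonneg _)
    (fun n => (norm_fst_le (x n).1).trans (norm_fst_le (x n))) (l1_summable x)

private theorem ta_s121 (x : L1 (Xn H)) : Summable fun n => ‖(x n).1.2.1‖ :=
  Summable.of_nonneg_of_le (fun _ => norm_nonneg _)
    (fun n => ((norm_fst_le (x n).1.2).trans (norm_snd_le (x n).1)).trans (norm_fst_le (x n)))
    (l1_summable x)

private theorem ta_s122 (ω : ℝ) (x : L1 (Xn H)) :
    Summable fun n : ℤ => ‖is (ω * n) • (x n).1.2.2‖ :=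
  Summable.of_nonneg_of_le (fun _ => norm_nonneg _)
    (fun n => (norm_is_smul_le _ _).trans
      (((norm_snd_le (x n).1.2).trans (norm_snd_le (x n).1)).trans (norm_fst_le (x n))))
    (l1_summable x)

private theorem ta_N0 {ω : ℝ} {b : ℤ → Xn H} (hb : VF ω b) {x : L1 (Xn H)}
    (hx : ∀ n : ℤ, (x n).1.2.2 = |ω * n| • (x n).1.1) (n : ℤ) :
    N0 ω b x n = (conv (fun m => (x m).1.2.1) (fw ω b) n + conv (fun m => (x m).1.1) (fw1 ω b) n) +
      (Complex.I * ((ω * n : ℝ) : ℂ)) • conv (fun m => (x m).1.1) (fv ω b) n := by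
  have h3 : conv (fun m => (b m).1.1) (fun m => (x m).1.1) n = 0 := by
    unfold conv
    have : ∀ m, (b m).1.1 * (x (n - m)).1.1 = 0 := fun m => by
      rw [hb.o m]
      exact zero_mul _
    simp only [this, tsum_zero]
  have h1 : conv (fun m => vv (ω * m) (jn (b m))) (fun m => is (ω * m) • (x m).1.2.2) n =
      conv (fun m : ℤ => is (ω * m) • (x m).1.2.2) (fv ω b) n := conv_comm _ _ n
  have h2 : conv (fun m => om (ω * m) (jn (b m))) (fun m => (x m).1.2.1) n =
      conv (fun m => (x m).1.2.1) (fw ω b) n := conv_comm _ _ n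
  have key : conv (fun m : ℤ => is (ω * m) • (x m).1.2.2) (fv ω b) n =
      conv (fun m => (x m).1.1) (fw1 ω b) n +
      (Complex.I * ((ω * n : ℝ) : ℂ)) • conv (fun m => (x m).1.1) (fv ω b) n := by
    have hL := pda_hasSum (ta_s122 ω x) (pda_sv hb) n
    have hR := (pda_hasSum (ta_s11 x) (pda_sw1 hb) n).add
      ((pda_hasSum (ta_s11 x) (pda_sv hb) n).const_smul (Complex.I * ((ω * n : ℝ) : ℂ)))
    refine hL.tsum_eq.symm.trans ((tsum_congr fun m => ?_).trans hR.tsum_eq)
    have d2 := pda_div hb (n - m)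
    have i1 := fld_is_mul_abs (ω * m)
    have cast : ((ω * n : ℝ) : ℂ) = ((ω * m : ℝ) : ℂ) + ((ω * ((n - m : ℤ) : ℝ) : ℝ) : ℂ) := by
      push_cast
      ring
    rw [hx m]
    refine ci_ext fun z _ => ?_
    have e2 := congrArg (fun f : CI H => ex f z) d2
    simp only [ex_add, ex_smul, ex_zero] at e2
    simp only [ex_add, ex_mul, ex_smul, ex_rsmul]
    rw [cast]
    linear_combination (ex (x m).1.1 z * ex (fv ω b (n - m)) z) * i1 - (ex (x m).1.1 z) * e2
  unfold N0
  rw [h1, h2, h3, key]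
  abel

theorem tot_src {ω : ℝ} (hω : 0 < ω) {N : ℕ} (hN : 1 ≤ N) {a : ℝ} {x : L1 (Xn H)}
    (hx : ∀ n : ℤ, Cm (ω * n) (ex (pu ω N a n : Xn H).2.1 0) (x n)) (n : ℤ) :
    Top (ω * n) (so ω N a x n) + si ω N a x n = (Bf ω (tv ω N a x) (tv ω N a x) n).2 := by
  have hv : VF ω (tv ω N a x) := VF_tv hω hN hx
  have hvo : VF ω (ov ω x) := VF_ov
  have hvi : VF ω (iv x) := VF_iv hx
  have hvp : VF ω (pu ω N a : ℤ → Xn H) := VF_pu a hω hN
  have hN0 := ta_N0 hv (x := x) (fun n => (hx n).e1) n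
  set c1 := conv (fun m => (x m).1.1) (fw ω (tv ω N a x)) n with hc1
  set c1' := conv (fun m => (x m).1.2.1) (fw ω (tv ω N a x)) n +
    conv (fun m => (x m).1.1) (fw1 ω (tv ω N a x)) n with hc1'
  set c2 := conv (fun m => (x m).1.1) (fv ω (tv ω N a x)) n with hc2
  have hd : IsD c1 c1' := conv_isD (fun m => (hx m).d1) (fw_isD ω _) (ta_s11 x) (ta_s121 x)
    (pda_sw hv) (pda_sw1 hv) n
  have hcH : ex c1 H = 0 := by
    have hs := (pda_hasSum (ta_s11 x) (pda_sw hv) n)
    have h1 : HasSum (fun m => ex ((x m).1.1 * fw ω (tv ω N a x) (n - m)) H) (ex c1 H) := by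
      have := (evL H : CI H →L[ℝ] ℂ).hasSum hs
      simpa only [evL_apply] using this
    have h2 : ∀ m, ex ((x m).1.1 * fw ω (tv ω N a x) (n - m)) H = 0 := fun m => by
      rw [ex_mul, (hx m).h1, zero_mul]
    simp only [h2] at h1
    exact h1.unique hasSum_zero
  have hT : c1 = Top (ω * n) (|ω * n| • c1 - c1') := by
    refine Top_unique (ω * n) hd hcH ?_
    abel
  have hov : (Bf ω (ov ω x) (tv ω N a x) n).2 =
      c1 - Top (ω * n) (|ω * n| • c1 + (Complex.I * ((ω * n : ℝ) : ℂ)) • c2) := by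
    rw [Bf2_eq hv.o hvo.o n]
    have e : fo ω (ov ω x) = fun m => (x m).1.1 := by
      funext m
      exact fo_ov m
    rw [e]
  have hNov : -Top (ω * n) (N0 ω (tv ω N a x) x n) = (Bf ω (ov ω x) (tv ω N a x) n).2 := by
    rw [hov, hN0]
    exact ta_alg _ _ _ _ hT
  have hpu0 : (Bf ω (pu ω N a : ℤ → Xn H) (tv ω N a x) n).2 = 0 := by
    rw [Bf2_eq hv.o hvp.o n]
    have e : fo ω (pu ω N a : ℤ → Xn H) = fun _ => 0 := by
      funext m
      exact fo_pu a hω hN m
    rw [e]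
    have z0 : ∀ g : ℤ → CI H, conv (fun _ => 0) g n = 0 := fun g => by
      unfold conv
      simp only [zero_mul, tsum_zero]
    have z1 : |ω * n| • (0 : CI H) = 0 := ci_ext fun z _ => by
      rw [ex_rsmul, ex_zero, mul_zero]
    have z2 : (Complex.I * ((ω * n : ℝ) : ℂ)) • (0 : CI H) = 0 := ci_ext fun z _ => by
      rw [ex_smul, ex_zero, mul_zero]
    rw [z0, z0, z1, z2, add_zero, map_zero, sub_zero]
  have htv : (Bf ω (tv ω N a x) (tv ω N a x) n).2 =
      (Bf ω (ov ω x) (tv ω N a x) n).2 + (Bf ω (iv x) (tv ω N a x) n).2 := by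
    have e1 := Bf2_add_left (hvo.add hvi) hvp hv n
    have e2 := Bf2_add_left hvo hvi hv n
    rw [hpu0, add_zero, e2] at e1
    exact e1
  rw [htv, ← hNov]
  unfold so si
  rw [map_add, map_neg, ta_tr (hx n)]
  abel

end

end Pool.Agent.Lib.MP_79abb3_an.FW
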