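import Pool.Agent.Lib.MP_79abb3_an.FW.Def
import Pool.Agent.Lib.MP_79abb3_an.P25.OpA

/-!
FW-61a: trajectories with harmonic pressure terms; the total velocity.
-/

set_option autoImplicit false
set_option linter.unusedSectionVars false

attribute [-instance] PreLp.ring SubfieldClass.toSubringClass SubringClass.toSubsemiringClass
  NonUnitalSubringClass.toNonUnitalSubsemiringClass RingConeClass.toSubsemiringClass
  SubsemiringClass.nonUnitalSubsemiringClass SubringClass.nonUnitalSubringClass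
  AddSubgroup.seminormedAddCommGroup SetLike.GradeZero.instSemiring SetLike.GradeZero.instCommRing
  SetLike.GradeZero.instCommSemiring SetLike.GradeZero.instRing LieAdmissibleAlgebra.toModule
  RightPreLieAlgebra.toModule LeftPreLieAlgebra.toModule

open MeasureTheory Set Filter Topology Function

namespace Pool.Agent.Lib.MP_79abb3_an.FW

open Pool.Agent.Lib.MP_79abb3_an.P25

section
variable {H : ℝ} [hH : Fact (0 < H)]

/-- Trajectories without first component, with free harmonic pressure terms. -/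
def HT (ω a b : ℝ) (u : ℝ → L1 (Xn H)) : Prop :=
  ∃ (J : Set ℝ) (hc : ℝ → ℤ → ℂ), LT ω a b J (fun _ => 0)
    (fun t n => Bf ω (u t) (u t) n + ((0, hc t n • fexp |ω * n|) : Yn H)) u ∧
    ∀ t ∈ Icc a b, ∀ n, (u t n).1 = 0

private noncomputable def totb_fun (k : ℝ) (u : Xn H) : Xn H :=
  vx k (Top k u.1.1) (|k| • Top k u.1.1 - u.1.1) + ((0, 0, 0), u.2)

private theorem totb_ext {u v : Xn H} (h1 : u.1.1 = v.1.1) (h2 : u.1.2.1 = v.1.2.1)
    (h3 : u.1.2.2 = v.1.2.2) (h4 : u.2.1 = v.2.1) (h5 : u.2.2.1 = v.2.2.1)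
    (h6 : u.2.2.2 = v.2.2.2) : u = v :=
  Prod.ext (Prod.ext h1 (Prod.ext h2 h3)) (Prod.ext h4 (Prod.ext h5 h6))

private theorem totb_rsmul (k c : ℝ) (f : CI H) : Top k (c • f) = c • Top k f :=
  (Top k).map_smul_of_tower c f

private theorem totb_add (k : ℝ) (u v : Xn H) : totb_fun k (u + v) = totb_fun k u + totb_fun k v := by
  refine totb_ext ?_ ?_ ?_ ?_ ?_ ?_
  · show (0:CI H) + 0 = (0 + 0) + (0 + 0)
    simp
  · show (0:CI H) + 0 = (0 + 0) + (0 + 0)
    simp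
  · show (0:CI H) + 0 = (0 + 0) + (0 + 0)
    simp
  · show Top k (u.1.1 + v.1.1) + (u.2.1 + v.2.1) = (Top k u.1.1 + u.2.1) + (Top k v.1.1 + v.2.1)
    rw [map_add]
    abel
  · show (|k| • Top k (u.1.1 + v.1.1) - (u.1.1 + v.1.1)) + (u.2.2.1 + v.2.2.1) =
      ((|k| • Top k u.1.1 - u.1.1) + u.2.2.1) + ((|k| • Top k v.1.1 - v.1.1) + v.2.2.1)
    rw [map_add]
    refine ci_ext fun t _ => ?_
    simp only [ex_add, ex_sub, ex_rsmul]
    ring
  · show |k| • Top k (u.1.1 + v.1.1) + (u.2.2.2 + v.2.2.2) =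
      (|k| • Top k u.1.1 + u.2.2.2) + (|k| • Top k v.1.1 + v.2.2.2)
    rw [map_add]
    refine ci_ext fun t _ => ?_
    simp only [ex_add, ex_sub, ex_rsmul]
    ring

private theorem totb_smul (k c : ℝ) (u : Xn H) : totb_fun k (c • u) = c • totb_fun k u := by
  refine totb_ext ?_ ?_ ?_ ?_ ?_ ?_
  · show (0:CI H) + 0 = c • (0 + 0)
    refine ci_ext fun t _ => ?_
    simp
  · show (0:CI H) + 0 = c • (0 + 0)
    refine ci_ext fun t _ => ?_
    simp
  · show (0:CI H) + 0 = c • (0 + 0)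
    refine ci_ext fun t _ => ?_
    simp
  · show Top k (c • u.1.1) + c • u.2.1 = c • (Top k u.1.1 + u.2.1)
    rw [totb_rsmul]
    refine ci_ext fun t _ => ?_
    simp only [ex_add, ex_sub, ex_rsmul]
    ring
  · show (|k| • Top k (c • u.1.1) - c • u.1.1) + c • u.2.2.1 =
      c • ((|k| • Top k u.1.1 - u.1.1) + u.2.2.1)
    rw [totb_rsmul]
    refine ci_ext fun t _ => ?_
    simp only [ex_add, ex_sub, ex_rsmul]
    ring
  · show |k| • Top k (c • u.1.1) + c • u.2.2.2 = c • (|k| • Top k u.1.1 + u.2.2.2)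
    rw [totb_rsmul]
    refine ci_ext fun t _ => ?_
    simp only [ex_add, ex_sub, ex_rsmul]
    ring

private theorem totb_bound (k : ℝ) (u : Xn H) : ‖totb_fun k u‖ ≤ (H + 3) * ‖u‖ := by
  have hH0 := hH.out
  have h11 : ‖u.1.1‖ ≤ ‖u‖ := (norm_fst_le u.1).trans (norm_fst_le u)
  have hu := norm_nonneg u
  have hT := norm_Top_le k u.1.1
  have hk := norm_kTop_le k u.1.1
  have hk' : ‖|k| • Top k u.1.1‖ ≤ ‖u‖ := by
    rw [norm_smul, Real.norm_eq_abs, abs_abs]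
    exact hk.trans h11
  have hT' : ‖Top k u.1.1‖ ≤ (H + 2) * ‖u‖ := by nlinarith
  have hs : ‖|k| • Top k u.1.1 - u.1.1‖ ≤ (H + 2) * ‖u‖ := by
    refine (norm_sub_le _ _).trans ?_
    nlinarith
  have hs3 : ‖|k| • Top k u.1.1‖ ≤ (H + 2) * ‖u‖ := by nlinarith
  have h0 : 0 ≤ (H + 2) * ‖u‖ := by positivity
  have hv : ‖vx k (Top k u.1.1) (|k| • Top k u.1.1 - u.1.1)‖ ≤ (H + 2) * ‖u‖ := by
    refine norm_prod_le_iff.2 ⟨?_, norm_prod_le_iff.2 ⟨hT', norm_prod_le_iff.2 ⟨hs, hs3⟩⟩⟩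
    show ‖((0, 0, 0) : CI H × CI H × CI H)‖ ≤ _
    have : ((0, 0, 0) : CI H × CI H × CI H) = 0 := rfl
    rw [this, norm_zero]
    exact h0
  have hi : ‖(((0, 0, 0), u.2) : Xn H)‖ ≤ ‖u‖ := by
    refine norm_prod_le_iff.2 ⟨?_, norm_snd_le u⟩
    show ‖((0, 0, 0) : CI H × CI H × CI H)‖ ≤ _
    have : ((0, 0, 0) : CI H × CI H × CI H) = 0 := rfl
    rw [this, norm_zero]
    exact hu
  calc ‖totb_fun k u‖ ≤ _ := norm_add_le _ _
    _ ≤ (H + 2) * ‖u‖ + ‖u‖ := add_le_add hv hi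
    _ = (H + 3) * ‖u‖ := by ring

private noncomputable def totb_L (k : ℝ) : Xn H →L[ℝ] Xn H :=
  LinearMap.mkContinuous
    { toFun := totb_fun k
      map_add' := totb_add k
      map_smul' := totb_smul k } (H + 3) (totb_bound k)

private theorem totb_pu (ω : ℝ) (N : ℕ) (a : ℝ) (n : ℤ) :
    (pu ω N a n : Xn H) = a • pu ω N 1 n := by
  refine totb_ext ?_ ?_ ?_ ?_ ?_ ?_
  · show (0:CI H) = a • 0
    refine ci_ext fun t _ => ?_
    simp
  · show (0:CI H) = a • 0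
    refine ci_ext fun t _ => ?_
    simp
  · show (0:CI H) = a • 0
    refine ci_ext fun t _ => ?_
    simp
  · show (Complex.I * ((a / 2 * sN N n : ℝ) : ℂ)) • (fexp (ω * N) : CI H) =
      a • ((Complex.I * ((1 / 2 * sN N n : ℝ) : ℂ)) • (fexp (ω * N) : CI H))
    refine ci_ext fun t _ => ?_
    simp only [ex_smul, ex_rsmul]
    push_cast
    ring
  · show (Complex.I * ((a / 2 * sN N n * (ω * N) : ℝ) : ℂ)) • (fexp (ω * N) : CI H) =
      a • ((Complex.I * ((1 / 2 * sN N n * (ω * N) : ℝ) : ℂ)) • (fexp (ω * N) : CI H))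
    refine ci_ext fun t _ => ?_
    simp only [ex_smul, ex_rsmul]
    push_cast
    ring
  · show |ω * n| • ((Complex.I * ((a / 2 * sN N n : ℝ) : ℂ)) • (fexp (ω * N) : CI H)) =
      a • (|ω * n| • ((Complex.I * ((1 / 2 * sN N n : ℝ) : ℂ)) • (fexp (ω * N) : CI H)))
    refine ci_ext fun t _ => ?_
    simp only [ex_smul, ex_rsmul]
    push_cast
    ring

private theorem totb_pu0 (ω : ℝ) (N : ℕ) (a : ℝ) {n : ℤ} (h : sN N n = 0) :
    (pu ω N a n : Xn H) = 0 := by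
  refine totb_ext rfl rfl rfl ?_ ?_ ?_
  · show (Complex.I * ((a / 2 * sN N n : ℝ) : ℂ)) • (fexp (ω * N) : CI H) = 0
    rw [h]
    refine ci_ext fun t _ => ?_
    simp
  · show (Complex.I * ((a / 2 * sN N n * (ω * N) : ℝ) : ℂ)) • (fexp (ω * N) : CI H) = 0
    rw [h]
    refine ci_ext fun t _ => ?_
    simp
  · show |ω * n| • ((Complex.I * ((a / 2 * sN N n : ℝ) : ℂ)) • (fexp (ω * N) : CI H)) = 0
    rw [h]
    refine ci_ext fun t _ => ?_
    simp

private theorem totb_sum (ω : ℝ) (N : ℕ) : Summable fun n : ℤ => ‖(pu ω N 1 n : Xn H)‖ := by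
  refine summable_of_ne_finset_zero (s := {(N : ℤ), -(N : ℤ)}) fun n hn => ?_
  simp only [Finset.mem_insert, Finset.mem_singleton, not_or] at hn
  rw [totb_pu0 ω N 1 (by rw [sN, if_neg hn.1, if_neg hn.2]), norm_zero]

theorem exists_tot {ω : ℝ} (hω : 0 < ω) {N : ℕ} (hN : 1 ≤ N) : ∃ Tt : ℝ → L1 (Xn H) → L1 (Xn H),
    (Continuous fun p : ℝ × L1 (Xn H) => Tt p.1 p.2) ∧ ∀ a x n, Tt a x n = tv ω N a x n := by
  refine ⟨fun a x => diagL (fun n : ℤ => totb_L (H := H) (ω * n)) (H + 3)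
    (fun n x => totb_bound _ x) x + a • mkL1 (fun n : ℤ => (pu ω N 1 n : Xn H)) (totb_sum ω N),
    ?_, fun a x n => ?_⟩
  · exact ((ContinuousLinearMap.continuous _).comp continuous_snd).add
      (continuous_fst.smul continuous_const)
  · show totb_fun (ω * n) (x n) + a • (pu ω N 1 n : Xn H) = _
    rw [← totb_pu]
    rfl

end

end Pool.Agent.Lib.MP_79abb3_an.FW
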