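import Pool.Agent.Lib.MP_79abb3_an.FW.HEa
import Pool.Agent.Lib.MP_79abb3_an.FW.HEb
import Pool.Agent.Lib.MP_79abb3_an.FW.HEp
import Pool.Agent.Lib.MP_79abb3_an.FW.TotA
import Pool.Agent.Lib.MP_79abb3_an.FW.TotBa
import Pool.Agent.Lib.MP_79abb3_an.P25.ModeOde

/-!
FW-61b: the total velocity is a trajectory.
-/

set_option autoImplicit false
set_option linter.unusedSectionVars false

attribute [-instance] PreLp.ring SubfieldClass.toSubringClass SubringClass.toSubsemiringClass
  NonUnitalSubringClass.toNonUnitalSubsemiringClass RingConeClass.toSubsemiringClass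
  SubsemiringClass.nonUnitalSubsemiringClass SubringClass.nonUnitalSubringClass
  AddSubgroup.seminormedAddCommGroup SetLike.GradeZero.instSemiring SetLike.GradeZero.instCommRing
  SetLike.GradeZero.instCommSemiring SetLike.GradeZero.instRing LieAdmissibleAlgebra.toModule
  RightPreLieAlgebra.toModule LeftPreLieAlgebra.toModule

open MeasureTheory Set Filter Topology Function

namespace Pool.Agent.Lib.MP_79abb3_an.FW

open Pool.Agent.Lib.MP_79abb3_an.P25

section
variable {H : ℝ} [hH : Fact (0 < H)]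

private theorem tb_fexp_norm {m : ℝ} (hm : 0 ≤ m) : ‖(fexp m : CI H)‖ ≤ Real.exp (m * H) := by
  refine ci_norm_le (Real.exp_pos _).le fun z hz => ?_
  rw [heb_fexp hz, Complex.norm_real, Real.norm_eq_abs, abs_of_pos (Real.exp_pos _)]
  exact Real.exp_le_exp.2 (mul_le_mul_of_nonneg_left hz.2 hm)

private theorem tb_sN_abs (N : ℕ) (n : ℤ) : |sN N n| ≤ 1 := by
  unfold sN
  split_ifs <;> norm_num

private theorem tb_mode {ω : ℝ} (hω : 0 < ω) {N : ℕ} {n : ℤ} (h : sN N n ≠ 0) :
    |ω * n| = ω * N := by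
  have h0 : (0:ℝ) ≤ ω * N := by positivity
  unfold sN at h
  split_ifs at h with h1 h2
  · rw [h1]
    push_cast
    exact abs_of_nonneg h0
  · rw [h2]
    push_cast
    rw [mul_neg, abs_neg]
    exact abs_of_nonneg h0
  · exact absurd rfl h

private theorem tb_sN_neg {N : ℕ} (hN : 1 ≤ N) (n : ℤ) : sN N (-n) = -sN N n := by
  have hN' : (1:ℤ) ≤ (N:ℤ) := by exact_mod_cast hN
  unfold sN
  by_cases h1 : n = (N:ℤ)
  · subst h1
    rw [if_neg (by omega), if_pos rfl, if_pos rfl]
  · by_cases h2 : n = -(N:ℤ)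
    · subst h2
      rw [if_pos (by omega), if_neg (by omega), if_pos rfl, neg_neg]
    · rw [if_neg (by omega), if_neg (by omega), if_neg h1, if_neg h2, neg_zero]

private theorem tb_N0 {ω : ℝ} (x y : ℤ → Xn H) (hy : ∀ n, (y n).1 = 0) (n : ℤ) :
    N0 ω x y n = 0 := by
  have hz : ∀ (a b : ℤ → CI H), (∀ n, b n = 0) → conv a b n = 0 := by
    intro a b hb
    unfold conv
    simp [hb]
  unfold N0
  rw [hz _ _ (fun m => ci_ext fun z _ => by rw [hy m]; simp),
    hz _ _ (fun m => by rw [hy m]; rfl), hz _ _ (fun m => by rw [hy m]; rfl)]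
  simp

private theorem tb_norm_add_smul (c d : ℂ) (f : CI H) {P Q : ℝ} (h1 : ‖c • f‖ ≤ P)
    (h2 : ‖d • f‖ ≤ Q) : ‖(c + d) • f‖ ≤ P + Q :=
  (congrArg norm (add_smul c d f)).le.trans ((norm_add_le _ _).trans (add_le_add h1 h2))

/-- coefficient of the harmonic pressure term -/
private noncomputable def tbh (H ω : ℝ) [Fact (0 < H)] (N : ℕ) (A1 : ℝ → ℝ) (x : ℝ → L1 (Xn H))
    (t : ℝ) (n : ℤ) : ℂ :=
  ((Real.exp (-|ω * n| * H) : ℝ) : ℂ) * ex (x t n).1.2.1 H +
    Complex.I * ((A1 t / 2 * sN N n : ℝ) : ℂ)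

private theorem tb_HE {ω : ℝ} (hω : 0 < ω) {N : ℕ} (hN : 1 ≤ N) {A A1 : ℝ → ℝ} {a b : ℝ}
    {x : ℝ → L1 (Xn H)} (h : CS ω N A A1 a b x) (n : ℤ) :
    HE (ω * n) a b (fun t => (tv ω N (A t) (x t) n).2.1) (fun t => (tv ω N (A t) (x t) n).2.2.1)
      (fun t => (Bf ω (tv ω N (A t) (x t)) (tv ω N (A t) (x t)) n).2 +
        tbh H ω N A1 x t n • fexp |ω * n|) := by
  have h1 := (h.eo n).top (fun t ht => (h.cm t ht n).h1)
  have h2 := h.ei n
  have hp1 : IsD (fexp (ω * N) : CI H) (((ω * N : ℝ) : ℂ) • fexp (ω * N)) := heb_fexp_isD _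
  have hp2 : IsD (((ω * N : ℝ) : ℂ) • (fexp (ω * N) : CI H))
      (((ω * N : ℝ) : ℂ) • (((ω * N : ℝ) : ℂ) • fexp (ω * N))) := hp1.fa_csmul _
  have cA : ContinuousOn (fun t => Complex.I * ((A t / 2 * sN N n : ℝ) : ℂ)) (Icc a b) := by
    refine continuousOn_const.mul (Complex.continuous_ofReal.comp_continuousOn ?_)
    exact (h.cA.div_const 2).mul continuousOn_const
  have cA1 : ContinuousOn (fun t => Complex.I * ((A1 t / 2 * sN N n : ℝ) : ℂ)) (Icc a b) := by
    refine continuousOn_const.mul (Complex.continuous_ofReal.comp_continuousOn ?_)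
    exact (h.cA1.div_const 2).mul continuousOn_const
  have dA : ∀ t ∈ Icc a b, HasDerivWithinAt (fun t => Complex.I * ((A t / 2 * sN N n : ℝ) : ℂ))
      (Complex.I * ((A1 t / 2 * sN N n : ℝ) : ℂ)) (Icc a b) t := by
    intro t ht
    exact ((((h.dA t ht).div_const 2).mul_const (sN N n)).ofReal_comp).const_mul Complex.I
  have h3 := HE.prof (k := ω * n) (a := a) (b := b) hp1 hp2 rfl cA cA1 dA
  refine ((h1.add h2).add h3).congr (fun t ht => rfl) (fun t ht => ?_) (fun t ht => ?_)
  · show (|ω * n| • Top (ω * n) (x t n).1.1 - (x t n).1.1) + (x t n).2.2.1 +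
      (Complex.I * ((A t / 2 * sN N n * (ω * N) : ℝ) : ℂ)) • (fexp (ω * N) : CI H) = _
    refine ci_ext fun z _ => ?_
    simp only [ex_add, ex_sub, ex_smul, ex_rsmul]
    push_cast
    ring
  · have h4 := tot_src hω hN (h.cm t ht) n
    rw [← h4]
    refine ci_ext fun z hz => ?_
    simp only [ex_add, ex_sub, ex_smul, ex_rsmul, tbh]
    by_cases h0 : sN N n = 0
    · rw [h0]
      push_cast
      ring
    · have h5 := tb_mode hω h0
      have h6 : ((ω * n : ℝ) : ℂ) ^ 2 = ((ω * N : ℝ) : ℂ) ^ 2 := by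
        rw [← h5, ← Complex.ofReal_pow, ← Complex.ofReal_pow, sq_abs]
      rw [h5]
      push_cast at h6 ⊢
      linear_combination (Complex.I * ((A t : ℂ) / 2 * (sN N n : ℂ)) *
        ex (fexp (ω * N) : CI H) z) * (-h6)

theorem CS.tot {ω : ℝ} (hω : 0 < ω) {N : ℕ} (hN : 1 ≤ N) {A A1 : ℝ → ℝ} {a b : ℝ}
    {x : ℝ → L1 (Xn H)} (hab : a ≤ b) (h : CS ω N A A1 a b x) : ∃ u : ℝ → L1 (Xn H),
    (∀ t n, u t n = tv ω N (A t) (x t) n) ∧ ContinuousOn u (Icc a b) ∧ HT ω a b u := by
  have hH0 := hH.out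
  obtain ⟨Tt, hTc, hT⟩ := exists_tot (H := H) hω hN
  set u : ℝ → L1 (Xn H) := fun t => Tt (A t) (x t) with hu
  have hun : ∀ t n, u t n = tv ω N (A t) (x t) n := fun t n => hT _ _ _
  have huf : ∀ t, (u t : ℤ → Xn H) = tv ω N (A t) (x t) := fun t => funext (hun t)
  have huc : ContinuousOn u (Icc a b) := hTc.comp_continuousOn (h.cA.prodMk h.c)
  have hu0 : ∀ t n, (u t n).1 = 0 := by
    intro t n
    rw [hun]
    show (0 : CI H × CI H × CI H) + 0 + 0 = 0
    simp
  have hu11 : ∀ t n, (u t n).1.1 = 0 := fun t n => by rw [hu0]; rfl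
  have hcx : ∀ n : ℤ, ContinuousOn (fun t => x t n) (Icc a b) := fun n =>
    ((continuous_apply n).comp
      (lp.uniformContinuous_coe (E := fun _ : ℤ => Xn H)).continuous).comp_continuousOn h.c
  have hcc : ∀ n : ℤ, ContinuousOn (fun t => tbh H ω N A1 x t n) (Icc a b) := by
    intro n
    refine ContinuousOn.add (continuousOn_const.mul ?_) ?_
    · exact (evL (H := H) H).continuous.comp_continuousOn
        ((continuous_fst.comp (continuous_snd.comp continuous_fst)).comp_continuousOn (hcx n))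
    · refine continuousOn_const.mul (Complex.continuous_ofReal.comp_continuousOn ?_)
      exact (h.cA1.div_const 2).mul continuousOn_const
  have hHE := tb_HE hω hN h
  refine ⟨u, hun, huc, ∅, tbh H ω N A1 x, ?_, fun t _ n => hu0 t n⟩
  refine ⟨countable_empty, (jL H).continuous.comp_continuousOn huc, huc.mono sdiff_subset,
    continuousOn_const, fun n => ?_, ?_, fun t ht n => ?_, fun t ht n => ?_, fun t ht n => ?_,
    fun n y hy t1 ht1 t2 ht2 => ?_, fun n y hy t1 ht1 t2 ht2 => ?_⟩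
  · refine ContinuousOn.mono ?_ sdiff_subset
    exact (mo_Bf_cont huc n).add (continuousOn_const.prodMk ((hcc n).smul continuousOn_const))
  · -- boundedness
    obtain ⟨C0, hC0, hB⟩ := Bf_bound H
    have hW1 := fa_wt_one
    obtain ⟨R1, hR1⟩ := (isCompact_Icc (a := a) (b := b)).exists_bound_of_continuousOn huc
    obtain ⟨R2, hR2⟩ := (isCompact_Icc (a := a) (b := b)).exists_bound_of_continuousOn h.c
    obtain ⟨R3, hR3⟩ := (isCompact_Icc (a := a) (b := b)).exists_bound_of_continuousOn h.cA1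
    have hR10 : 0 ≤ R1 := (norm_nonneg _).trans (hR1 a ⟨le_rfl, hab⟩)
    have hR20 : 0 ≤ R2 := (norm_nonneg _).trans (hR2 a ⟨le_rfl, hab⟩)
    have hR30 : 0 ≤ R3 := (norm_nonneg _).trans (hR3 a ⟨le_rfl, hab⟩)
    have hE0 := Real.exp_pos (ω * N * H)
    refine ⟨R1 + C0 * (2 * (R1 * R1)) + (R2 + R3 * Real.exp (ω * N * H)), ?_⟩
    intro t ht
    have ht' : t ∈ Icc a b := ht.1
    have q1 : 0 ≤ C0 * (2 * (R1 * R1)) := by positivity
    have q2 : 0 ≤ R3 * Real.exp (ω * N * H) := by positivity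
    refine ⟨?_, ?_, fun n => ?_⟩
    · rw [abs_zero]; positivity
    · have := hR1 t ht'
      linarith
    · have hs : Summable fun n => (1:ℝ) * ‖u t n‖ := by
        simpa only [one_mul] using l1_summable (u t)
      obtain ⟨s1, s2⟩ := hB ω 1 (fun _ => 1) hW1 (u t) (u t) hs hs
      simp only [one_mul] at s1 s2
      have s3 : ∑' n, ‖jn (u t n)‖ ≤ ∑' n, ‖u t n‖ := by
        refine Summable.tsum_le_tsum (fun n => norm_jn_le _) ?_ (l1_summable _)
        exact Summable.of_nonneg_of_le (fun n => norm_nonneg _) (fun n => norm_jn_le _)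
          (l1_summable (u t))
      have s4 : ∑' n, ‖u t n‖ ≤ R1 := by
        rw [← l1_norm]
        exact hR1 t ht'
      have s5 : 0 ≤ ∑' n, ‖u t n‖ := tsum_nonneg fun n => norm_nonneg _
      have s6 : 0 ≤ ∑' n, ‖jn (u t n)‖ := tsum_nonneg fun n => norm_nonneg _
      have s7 : ‖Bf ω (u t) (u t) n‖ ≤ C0 * (2 * (R1 * R1)) := by
        refine (s1.le_tsum n fun _ _ => norm_nonneg _).trans (s2.trans ?_)
        have e1 : (∑' n, ‖jn (u t n)‖) * (∑' n, ‖u t n‖) ≤ R1 * R1 :=
          mul_le_mul (s3.trans s4) s4 s5 hR10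
        have e2 : (∑' n, ‖u t n‖) * (∑' n, ‖jn (u t n)‖) ≤ R1 * R1 :=
          mul_le_mul s4 (s3.trans s4) s6 hR10
        rw [mul_one]
        refine mul_le_mul_of_nonneg_left ?_ (by linarith)
        linarith
      have s8 : ‖((0, tbh H ω N A1 x t n • fexp |ω * n|) : Yn H)‖ ≤
          R2 + R3 * Real.exp (ω * N * H) := by
        rw [Prod.norm_mk, norm_zero]
        refine max_le (by positivity) ?_
        refine tb_norm_add_smul _ _ _ ?_ ?_
        · rw [norm_smul, norm_mul, Complex.norm_real, Real.norm_eq_abs,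
            abs_of_pos (Real.exp_pos _)]
          have e1 : ‖ex (x t n).1.2.1 H‖ ≤ R2 := by
            refine (norm_ex_le _ _).trans ((n121 (x t n)).trans ?_)
            refine le_trans ?_ (hR2 t ht')
            rw [l1_norm]
            exact (l1_summable (x t)).le_tsum n fun _ _ => norm_nonneg _
          have e2 : ‖(fexp |ω * n| : CI H)‖ ≤ Real.exp (|ω * n| * H) :=
            tb_fexp_norm (abs_nonneg _)
          have e3 : Real.exp (-|ω * n| * H) * Real.exp (|ω * n| * H) = 1 := by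
            rw [← Real.exp_add, neg_mul, neg_add_cancel, Real.exp_zero]
          calc Real.exp (-|ω * n| * H) * ‖ex (x t n).1.2.1 H‖ * ‖(fexp |ω * n| : CI H)‖
              ≤ Real.exp (-|ω * n| * H) * R2 * Real.exp (|ω * n| * H) := by gcongr
            _ = R2 * (Real.exp (-|ω * n| * H) * Real.exp (|ω * n| * H)) := by ring
            _ = R2 := by rw [e3, mul_one]
        · by_cases h0 : sN N n = 0
          · rw [norm_smul, h0, mul_zero, Complex.ofReal_zero, mul_zero, norm_zero, zero_mul]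
            exact q2
          · rw [norm_smul, norm_mul, Complex.norm_I, one_mul, Complex.norm_real,
              Real.norm_eq_abs, tb_mode hω h0, abs_mul, abs_div]
            have e1 : |A1 t| ≤ R3 := hR3 t ht'
            have e2 : ‖(fexp (ω * N) : CI H)‖ ≤ Real.exp (ω * N * H) :=
              tb_fexp_norm (by positivity)
            have e3 := tb_sN_abs N n
            have e4 : |A1 t| / |(2:ℝ)| * |sN N n| ≤ R3 := by
              have e5 : |A1 t| / |(2:ℝ)| ≤ R3 := by
                rw [abs_two]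
                have := abs_nonneg (A1 t)
                linarith
              calc |A1 t| / |(2:ℝ)| * |sN N n| ≤ R3 * 1 :=
                    mul_le_mul e5 e3 (abs_nonneg _) hR30
                _ = R3 := mul_one _
            exact mul_le_mul e4 e2 (norm_nonneg _) hR30
      refine (norm_add_le _ _).trans ?_
      linarith
  · have ht' : t ∈ Icc a b := ht.1
    have hd := (hHE n).d t ht'
    refine ⟨?_, ?_, ?_, ?_, ?_, ?_⟩
    · rw [hu0]
      intro z _
      exact hasDerivWithinAt_const z (Icc 0 H) (0:ℂ)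
    · rw [hun]
      exact hd
    · rw [hu0]
      refine ci_ext fun z _ => ?_
      simp
    · rw [hun]
      refine ci_ext fun z _ => ?_
      show ex (|ω * n| • Top (ω * n) (x t n).1.1 + (x t n).2.2.2 +
        |ω * n| • ((Complex.I * ((A t / 2 * sN N n : ℝ) : ℂ)) • (fexp (ω * N) : CI H))) z =
        ex (|ω * n| • (Top (ω * n) (x t n).1.1 + (x t n).2.1 +
          (Complex.I * ((A t / 2 * sN N n : ℝ) : ℂ)) • (fexp (ω * N) : CI H))) z
      rw [(h.cm t ht' n).e2]
      simp only [ex_add, ex_smul, ex_rsmul]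
      ring
    · rw [hu11, ex_zero]
    · rw [hun]
      exact tv_wall (h.cm t ht') n
  · refine ⟨by rw [hu11, ex_zero], ?_⟩
    rw [hun]
    exact tv_wall (h.cm t ht) n
  · have hs := h.sy t ht n
    refine Prod.ext ?_ ?_
    · show (u t (-n)).1.1 = star (u t n).1.1
      rw [hu11, hu11, star_zero]
    · show (u t (-n)).2.1 = star (u t n).2.1
      rw [hun, hun]
      have hk : ω * ((-n : ℤ) : ℝ) = -(ω * n) := by push_cast; ring
      show Top (ω * ((-n : ℤ) : ℝ)) (x t (-n)).1.1 + (x t (-n)).2.1 +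
          (Complex.I * ((A t / 2 * sN N (-n) : ℝ) : ℂ)) • (fexp (ω * N) : CI H) =
        star (Top (ω * n) (x t n).1.1 + (x t n).2.1 +
          (Complex.I * ((A t / 2 * sN N n : ℝ) : ℂ)) • (fexp (ω * N) : CI H))
      rw [hk, hs, Top_neg]
      show Top (ω * n) (star (x t n).1.1) + star (x t n).2.1 + _ = _
      rw [Top_star, tb_sN_neg hN]
      refine ci_ext fun z hz => ?_
      simp only [ex_add, ex_smul, ex_star, star_add, star_mul', heb_fexp hz]
      simp only [Complex.star_def, Complex.conj_I, Complex.conj_ofReal]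
      push_cast
      ring
  · rw [hu11, hu11]
    have h1 : ∀ s, rh (ω * n) (u s n).1.1 (u s n).1.2.1
        (Bf ω (u s) (u s) n + ((0, tbh H ω N A1 x s n • fexp |ω * n|) : Yn H)).1 y = 0 := by
      intro s
      have e1 : (Bf ω (u s) (u s) n + ((0, tbh H ω N A1 x s n • fexp |ω * n|) : Yn H)).1 = 0 := by
        show -N0 ω (u s) (u s) n + 0 = 0
        rw [tb_N0 _ _ (hu0 s), neg_zero, add_zero]
      rw [e1, hu0]
      simp [rh, prim]
    simp only [h1]
    simp
  · have h1 := (hHE n).eq y hy t1 ht1 t2 ht2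
    rw [hun, hun]
    refine h1.trans ?_
    refine intervalIntegral.integral_congr fun s _ => ?_
    show rh (ω * n) (tv ω N (A s) (x s) n).2.1 (tv ω N (A s) (x s) n).2.2.1 _ y =
      rh (ω * n) (u s n).2.1 (u s n).2.2.1 _ y
    rw [hun]
    show _ = rh (ω * n) (tv ω N (A s) (x s) n).2.1 (tv ω N (A s) (x s) n).2.2.1
      ((Bf ω (u s) (u s) n).2 + tbh H ω N A1 x s n • fexp |ω * n|) y
    rw [huf]

end

end Pool.Agent.Lib.MP_79abb3_an.FW
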