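import Pool.Agent.Lib.MP_79abb3_an.FW.TotBa
import Pool.Agent.Lib.MP_79abb3_an.P25.BaseExC
import Pool.Agent.Lib.MP_79abb3_an.P25.LTops

/-!
FW-62: operations on trajectories with harmonic pressure terms.
-/

set_option autoImplicit false
set_option linter.unusedSectionVars false

open MeasureTheory Set Filter Topology Function

namespace Pool.Agent.Lib.MP_79abb3_an.FW

open Pool.Agent.Lib.MP_79abb3_an.P25 Pool.Agent.Lib.MP_79abb3_an.P25.BaseEx

section
variable {H : ℝ} [hH : Fact (0 < H)]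

theorem HT.glue {ω a b c : ℝ} {u u' : ℝ → L1 (Xn H)} (h : HT ω a b u) (h' : HT ω b c u')
    (hab : a ≤ b) (hbc : b ≤ c) (hu : ∀ n, jn (u b n) = jn (u' b n)) :
    HT ω a c (fun t => if t ≤ b then u t else u' t) := by
  obtain ⟨J, hc, h1, h2⟩ := h
  obtain ⟨J', hc', h1', h2'⟩ := h'
  refine ⟨J ∪ J' ∪ {b}, fun t => if t ≤ b then hc t else hc' t, ?_, ?_⟩
  · refine (h1.glue h1' hab hbc hu).congr (fun t _ => ?_) (fun t _ n => ?_) (fun t _ => rfl)
    · simp
    · by_cases ht : t ≤ b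
      · simp only [if_pos ht]
      · simp only [if_neg ht]
  · intro t ht n
    rcases le_or_gt t b with h3 | h3
    · simp only [if_pos h3]
      exact h2 t ⟨ht.1, h3⟩ n
    · simp only [if_neg (not_le.2 h3)]
      exact h2' t ⟨h3.le, ht.2⟩ n

theorem HT.shift {ω a b : ℝ} {u : ℝ → L1 (Xn H)} (h : HT ω a b u) (d : ℝ) :
    HT ω (a + d) (b + d) (fun t => u (t - d)) := by
  obtain ⟨J, hc, h1, h2⟩ := h
  refine ⟨(fun t => t - d) ⁻¹' J, fun t => hc (t - d), h1.shift d, fun t ht n => ?_⟩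
  exact h2 (t - d) ⟨by linarith [ht.1], by linarith [ht.2]⟩ n

theorem HT.of_traj {ω a b : ℝ} {J : Set ℝ} {u : ℝ → L1 (Xn H)} (h : Traj ω a b J (fun _ => 0) u)
    (h0 : ∀ t ∈ Icc a b, ∀ n, (u t n).1 = 0) : HT ω a b u := by
  refine ⟨J, fun _ _ => 0, ?_, h0⟩
  refine LT.congr h (fun t _ => rfl) (fun t _ n => ?_) (fun t _ => rfl)
  have h1 : (((0, (0:ℂ) • fexp |ω * n|) : Yn H)) = 0 := Prod.ext rfl (ci_zero_smul' _)
  rw [h1, add_zero]

theorem HT.zero {ω a b : ℝ} (hab : a ≤ b) : HT ω a b (fun _ => (0 : L1 (Xn H))) := by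
  have hU : (U0 0 0 : L1 (Xn H)) = 0 := by
    refine lp.ext ?_
    funext n
    by_cases hn : n = 0
    · rw [hn, U0_zero]
      rfl
    · rw [U0_ne _ _ hn]
      rfl
  have hB : ∀ n : ℤ, Bf ω (0 : L1 (Xn H)) (0 : L1 (Xn H)) n = 0 := by
    intro n
    rw [← hU, Bf_U0]
    split_ifs
    · rw [mul_zero, mul_zero, sub_zero]
      rfl
    · rfl
  refine HT.of_traj (J := ∅) ?_ (fun t _ n => rfl)
  have hp : ∀ y : ℝ, prim (0 : CI H) y = 0 := fun y => by
    unfold prim
    simp
  have hr : ∀ k y : ℝ, rh k (0 : CI H) 0 0 y = 0 := fun k y => by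
    unfold rh
    rw [hp, ex_zero, ex_zero]
    ring
  have hB' : (fun t : ℝ => Bf ω (((fun _ => (0 : L1 (Xn H))) : ℝ → L1 (Xn H)) t)
      (((fun _ => (0 : L1 (Xn H))) : ℝ → L1 (Xn H)) t)) = fun _ _ => (0 : Yn H) := by
    funext t n
    exact hB n
  unfold Traj
  rw [hB']
  exact
  { count := countable_empty
    cY := continuousOn_const
    cX := continuousOn_const
    cP := continuousOn_const
    cG := fun n => continuousOn_const
    bd := ⟨0, fun t _ => ⟨by simp, by simp, fun n => by simp⟩⟩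
    cm := fun t _ n =>
      { d1 := fun z hz => by
          have := hasDerivWithinAt_const z (Icc (0:ℝ) H) (0 : ℂ)
          exact this
        d2 := fun z hz => by
          have := hasDerivWithinAt_const z (Icc (0:ℝ) H) (0 : ℂ)
          exact this
        e1 := (smul_zero _).symm
        e2 := (smul_zero _).symm
        z1 := ex_zero 0
        z2 := ex_zero 0 }
    z := fun t _ n => ⟨ex_zero 0, ex_zero 0⟩
    sy := fun t _ n => (star_zero _).symm
    eq := fun n y _ t1 _ t2 _ => by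
      have h1 : ∀ s : ℝ, (rh (ω * n) (0 : CI H) 0 0 y + if n = 0 then (((0:ℝ) * y : ℝ) : ℂ) else 0) = 0 := by
        intro s
        rw [hr]
        simp
      show prim (0 : CI H) y - prim (0 : CI H) y = ∫ s in t1..t2,
        (rh (ω * n) (0 : CI H) 0 0 y + if n = 0 then (((0:ℝ) * y : ℝ) : ℂ) else 0)
      rw [sub_self, h1 0, intervalIntegral.integral_zero]
    eq' := fun n y _ t1 _ t2 _ => by
      show prim (0 : CI H) y - prim (0 : CI H) y = ∫ s in t1..t2, rh (ω * n) (0 : CI H) 0 0 y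
      rw [sub_self, hr, intervalIntegral.integral_zero] }

end

end Pool.Agent.Lib.MP_79abb3_an.FW
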