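import Pool.Agent.Lib.MP_79abb3_an.FW.XbB
import Pool.Agent.Lib.MP_79abb3_an.FW.ApE

/-!
FW-58: small data, smallness in `X` (section 5 of paper 196).
-/

set_option autoImplicit false
set_option linter.unusedSectionVars false

open MeasureTheory Set Filter Topology Function

namespace Pool.Agent.Lib.MP_79abb3_an.FW

open Pool.Agent.Lib.MP_79abb3_an.P25

section
variable {H : ℝ} [hH : Fact (0 < H)]

/-! ### velocity states without outer part -/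

private theorem XbC_kap (m : ℝ) : kap m 0 = (0 : CI H) := by
  refine ci_ext fun z hz => ?_
  unfold kap
  rw [ex_rc _ _ hz]
  simp

private theorem XbC_kap1 (m : ℝ) : kap1 m 0 = (0 : CI H) := by
  refine ci_ext fun z hz => ?_
  unfold kap1
  rw [ex_rc _ _ hz]
  simp

private theorem XbC_pu (ω : ℝ) (N : ℕ) (n : ℤ) : pu ω N 0 n = (0 : Xn H) := by
  unfold pu vx
  refine Prod.ext rfl (Prod.ext ?_ (Prod.ext ?_ ?_))
  · refine ci_ext fun z _ => ?_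
    show ex ((Complex.I * ((0 / 2 * sN N n : ℝ) : ℂ)) • (fexp (ω * N) : CI H)) z = 0
    rw [ex_smul]
    simp
  · refine ci_ext fun z _ => ?_
    show ex ((Complex.I * ((0 / 2 * sN N n * (ω * N) : ℝ) : ℂ)) • (fexp (ω * N) : CI H)) z = 0
    rw [ex_smul]
    simp
  · refine ci_ext fun z _ => ?_
    show ex (|ω * n| • ((Complex.I * ((0 / 2 * sN N n : ℝ) : ℂ)) • (fexp (ω * N) : CI H))) z = 0
    rw [ex_rsmul, ex_smul]
    simp

private theorem XbC_iv {x : ℤ → Xn H} (hx : ∀ n, (x n).1 = 0) : iv x = x := by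
  funext n
  exact Prod.ext (hx n).symm rfl

private theorem XbC_tv {ω : ℝ} {N : ℕ} {x : ℤ → Xn H} (hx : ∀ n, (x n).1 = 0) :
    tv ω N 0 x = x := by
  funext n
  have h1 : ov ω x n = 0 := by
    unfold ov vx
    have h2 : (x n).1.1 = 0 := by rw [hx n]; rfl
    rw [h2, map_zero]
    refine Prod.ext rfl (Prod.ext rfl (Prod.ext ?_ ?_))
    · refine ci_ext fun z _ => ?_
      show ex (|ω * n| • (0 : CI H) - 0) z = 0
      rw [ex_sub, ex_rsmul, ex_zero]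
      simp
    · refine ci_ext fun z _ => ?_
      show ex (|ω * n| • (0 : CI H)) z = 0
      rw [ex_rsmul, ex_zero]
      simp
  unfold tv
  rw [h1, XbC_iv hx, XbC_pu, zero_add, add_zero]

private theorem XbC_N0 {ω : ℝ} {y x : ℤ → Xn H} (hx : ∀ n, (x n).1 = 0) (n : ℤ) :
    N0 ω y x n = 0 := by
  have hz : ∀ (a b : ℤ → CI H), (∀ n, b n = 0) → conv a b n = 0 := by
    intro a b hb
    unfold conv
    simp [hb]
  unfold N0
  rw [hz _ _ (fun m => ci_ext fun z _ => by rw [hx m]; simp),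
    hz _ _ (fun m => by rw [hx m]; rfl), hz _ _ (fun m => by rw [hx m]; rfl)]
  simp

private theorem XbC_so {ω : ℝ} {N : ℕ} {x : ℤ → Xn H} (hx : ∀ n, (x n).1 = 0) (n : ℤ) :
    so ω N 0 x n = 0 := by
  unfold so tr
  rw [XbC_N0 hx, XbC_kap, XbC_kap1]
  simp

private theorem XbC_V0 {ω : ℝ} {N : ℕ} {x : L1 (Xn H)}
    (cm : ∀ n : ℤ, Cm (ω * n) (ex (pu ω N 0 n : Xn H).2.1 0) (x n)) (hx : ∀ n, (x n).1 = 0)
    (n : ℤ) : ex (x n).2.1 0 = 0 := by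
  rw [(cm n).z2, XbC_pu]
  have h2 : (x n).1.1 = 0 := by rw [hx n]; rfl
  rw [h2, map_zero]
  simp

private theorem XbC_lft {ω : ℝ} {N : ℕ} {x : L1 (Xn H)}
    (cm : ∀ n : ℤ, Cm (ω * n) (ex (pu ω N 0 n : Xn H).2.1 0) (x n)) (hx : ∀ n, (x n).1 = 0)
    (n : ℤ) : lft ω x n = x n := by
  have h0 := XbC_V0 cm hx n
  unfold lft
  refine Prod.ext rfl (Prod.ext ?_ (Prod.ext ?_ ?_))
  · refine ci_ext fun z _ => ?_
    show ex ((x n).2.1 - ex (x n).2.1 0 • eta (ω * n)) z = ex (x n).2.1 z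
    rw [ex_sub, ex_smul, h0]
    simp
  · refine ci_ext fun z _ => ?_
    show ex ((x n).2.2.1 - ex (x n).2.1 0 • eta1 (ω * n)) z = ex (x n).2.2.1 z
    rw [ex_sub, ex_smul, h0]
    simp
  · refine ci_ext fun z _ => ?_
    show ex (|ω * n| • ((x n).2.1 - ex (x n).2.1 0 • eta (ω * n))) z = ex (x n).2.2.2 z
    rw [(cm n).e2, ex_rsmul, ex_rsmul, ex_sub, ex_smul, h0]
    simp

private theorem XbC_ls {ω : ℝ} {N : ℕ} {x : L1 (Xn H)}
    (cm : ∀ n : ℤ, Cm (ω * n) (ex (pu ω N 0 n : Xn H).2.1 0) (x n)) (hx : ∀ n, (x n).1 = 0)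
    (n : ℤ) : ls ω N 0 0 x n = (0, (Bf ω x x n).2) := by
  have h0 := XbC_V0 cm hx n
  have hsg : sg ω N 0 0 x n = 0 := by
    unfold sg
    rw [XbC_so hx, XbC_pu, map_zero, hx n]
    simp
  have hsi : si ω N 0 x n = (Bf ω x x n).2 := by
    unfold si
    rw [XbC_iv hx, XbC_tv hx, XbC_kap]
    simp
  unfold ls
  refine Prod.ext (XbC_so hx n) ?_
  refine ci_ext fun z _ => ?_
  show ex (si ω N 0 x n - sg ω N 0 0 x n • eta (ω * n) + ex (x n).2.1 0 • etr (ω * n)) z =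
    ex (Bf ω x x n).2 z
  rw [ex_add, ex_sub, ex_smul, ex_smul, h0, hsg, hsi]
  simp

private theorem XbC_VF {ω : ℝ} {s : ℤ → ℂ} {x : L1 (Xn H)}
    (cm : ∀ n : ℤ, Cm (ω * n) (s n) (x n)) (hx : ∀ n, (x n).1 = 0) : VF ω x where
  o := hx
  d n := (cm n).d2
  e n := (cm n).e2
  s := by
    have := (lp.memℓp x).summable (by simp)
    simpa using this

/-! ### the nonlinear term -/

private theorem XbC_21 (x : Xn H) : ‖x.2.1‖ ≤ ‖x‖ := (norm_fst_le x.2).trans (norm_snd_le x)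

private theorem XbC_fo {ω : ℝ} {a : ℤ → Xn H} (ha : VF ω a) (n : ℤ) : ‖fo ω a n‖ ≤ 2 * ‖a n‖ := by
  rw [fo_eq ha.o]
  have h1 : ‖(a n).2.2.2‖ ≤ ‖a n‖ :=
    ((norm_snd_le (a n).2.2).trans (norm_snd_le (a n).2)).trans (norm_snd_le (a n))
  have h2 : ‖(a n).2.2.1‖ ≤ ‖a n‖ :=
    ((norm_fst_le (a n).2.2).trans (norm_snd_le (a n).2)).trans (norm_snd_le (a n))
  calc ‖(a n).2.2.2 - (a n).2.2.1‖ ≤ ‖(a n).2.2.2‖ + ‖(a n).2.2.1‖ := norm_sub_le _ _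
    _ ≤ 2 * ‖a n‖ := by linarith

private theorem XbC_Bf1 {ω : ℝ} {a : ℤ → Xn H} (ha : VF ω a) (n : ℤ) :
    n2 (Bf ω a a n).2 ≤ 2 * n2 (conv (fo ω a) (fw ω a) n) + n2 (conv (fo ω a) (fv ω a) n) := by
  rw [Bf2_eq ha.o ha.o]
  have h1 : Top (ω * n) (|ω * n| • conv (fo ω a) (fw ω a) n +
        (Complex.I * ((ω * n : ℝ) : ℂ)) • conv (fo ω a) (fv ω a) n) =
      |ω * n| • Top (ω * n) (conv (fo ω a) (fw ω a) n) +
        (Complex.I * ((ω * n : ℝ) : ℂ)) • Top (ω * n) (conv (fo ω a) (fv ω a) n) := by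
    rw [map_add]
    congr 1
    · exact (Top (ω * n)).map_smul_of_tower _ _
    · exact (Top (ω * n)).map_smul _ _
  rw [h1]
  have h2 := n2_Top (ω * n) (conv (fo ω a) (fw ω a) n)
  have h3 := n2_Top (ω * n) (conv (fo ω a) (fv ω a) n)
  have h4 : ‖Complex.I * ((ω * n : ℝ) : ℂ)‖ = |ω * n| := by
    rw [norm_mul, Complex.norm_I, one_mul, Complex.norm_real, Real.norm_eq_abs]
  have h5 := n2_sub (conv (fo ω a) (fw ω a) n) (|ω * n| • Top (ω * n) (conv (fo ω a) (fw ω a) n) +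
        (Complex.I * ((ω * n : ℝ) : ℂ)) • Top (ω * n) (conv (fo ω a) (fv ω a) n))
  have h6 := n2_add (|ω * n| • Top (ω * n) (conv (fo ω a) (fw ω a) n))
    ((Complex.I * ((ω * n : ℝ) : ℂ)) • Top (ω * n) (conv (fo ω a) (fv ω a) n))
  rw [n2_rsmul, n2_smul, h4, abs_abs] at h6
  linarith

private theorem XbC_Bf {ω : ℝ} {a : ℤ → Xn H} (ha : VF ω a) :
    (Summable fun n => n2 (Bf ω a a n).2) ∧
      ∑' n, n2 (Bf ω a a n).2 ≤ 8 * (∑' n, ‖a n‖) * ∑' n, n2 (a n).2.1 := by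
  have sV : Summable fun n => ‖(a n).2.1‖ :=
    Summable.of_nonneg_of_le (fun _ => norm_nonneg _) (fun n => XbC_21 (a n)) ha.s
  have so' : Summable fun n => ‖fo ω a n‖ :=
    Summable.of_nonneg_of_le (fun _ => norm_nonneg _) (fun n => XbC_fo ha n) (ha.s.mul_left 2)
  have sw : Summable fun n => ‖fw ω a n‖ :=
    Summable.of_nonneg_of_le (fun _ => norm_nonneg _) (fun n => (vel_bounds ha.o n).1) sV
  have sv : Summable fun n => ‖fv ω a n‖ :=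
    Summable.of_nonneg_of_le (fun _ => norm_nonneg _) (fun n => (vel_bounds ha.o n).2.2.2.1)
      (sV.mul_left 2)
  obtain ⟨c1, c2⟩ := conv_l1l2 so' sw
  obtain ⟨d1, d2⟩ := conv_l1l2 so' sv
  have hsum : Summable fun n => 2 * n2 (conv (fo ω a) (fw ω a) n) + n2 (conv (fo ω a) (fv ω a) n) :=
    (c1.mul_left 2).add d1
  have h1 : Summable fun n => n2 (Bf ω a a n).2 :=
    Summable.of_nonneg_of_le (fun _ => n2_nonneg _) (fun n => XbC_Bf1 ha n) hsum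
  refine ⟨h1, ?_⟩
  have e1 : ∑' n, ‖fo ω a n‖ ≤ 2 * ∑' n, ‖a n‖ := by
    rw [← tsum_mul_left]
    exact so'.tsum_le_tsum (fun n => XbC_fo ha n) (ha.s.mul_left 2)
  have e2 : ∑' n, n2 (fw ω a n) ≤ ∑' n, n2 (a n).2.1 :=
    (n2_summable sw).1.tsum_le_tsum (fun n => (vel_bounds ha.o n).2.1) (n2_summable sV).1
  have e3 : ∑' n, n2 (fv ω a n) ≤ 2 * ∑' n, n2 (a n).2.1 := by
    rw [← tsum_mul_left]
    exact (n2_summable sv).1.tsum_le_tsum (fun n => (vel_bounds ha.o n).2.2.2.2.1)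
      ((n2_summable sV).1.mul_left 2)
  have p1 : 0 ≤ ∑' n, ‖fo ω a n‖ := tsum_nonneg fun _ => norm_nonneg _
  have p2 : 0 ≤ ∑' n, ‖a n‖ := tsum_nonneg fun _ => norm_nonneg _
  have p3 : 0 ≤ ∑' n, n2 (a n).2.1 := tsum_nonneg fun _ => n2_nonneg _
  have p4 : 0 ≤ ∑' n, n2 (fw ω a n) := tsum_nonneg fun _ => n2_nonneg _
  have p5 : 0 ≤ ∑' n, n2 (fv ω a n) := tsum_nonneg fun _ => n2_nonneg _
  calc ∑' n, n2 (Bf ω a a n).2
      ≤ ∑' n, (2 * n2 (conv (fo ω a) (fw ω a) n) + n2 (conv (fo ω a) (fv ω a) n)) :=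
        h1.tsum_le_tsum (fun n => XbC_Bf1 ha n) hsum
    _ = 2 * ∑' n, n2 (conv (fo ω a) (fw ω a) n) + ∑' n, n2 (conv (fo ω a) (fv ω a) n) := by
        rw [(c1.mul_left 2).tsum_add d1, tsum_mul_left]
    _ ≤ 2 * ((2 * ∑' n, ‖a n‖) * ∑' n, n2 (a n).2.1) +
          (2 * ∑' n, ‖a n‖) * (2 * ∑' n, n2 (a n).2.1) := by
        have f1 := mul_le_mul e1 e2 p4 (by linarith)
        have f2 := mul_le_mul e1 e3 p5 (by linarith)
        linarith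
    _ = 8 * (∑' n, ‖a n‖) * ∑' n, n2 (a n).2.1 := by ring

/-! ### the kernel -/

private theorem XbC_ker {t : ℝ} (ht : 0 ≤ t) :
    IntervalIntegrable (fun r => (√r)⁻¹ * (q4 r)⁻¹) volume 0 t ∧
      ∫ r in (0:ℝ)..t, (√r)⁻¹ * (q4 r)⁻¹ = 4 * q4 t := by
  obtain ⟨h1, h2⟩ := int_q34 ht
  constructor
  · have h := h1.comp_sub_left t
    simp only [sub_zero, sub_self, sub_sub_cancel] at h
    exact h.symm
  · have h := intervalIntegral.integral_comp_sub_left (a := 0) (b := t)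
      (fun s : ℝ => (√s)⁻¹ * (q4 s)⁻¹) t
    simp only [sub_zero, sub_self] at h
    rw [← h]
    exact h2

private theorem XbC_anti {s r : ℝ} (hs : 0 < s) (hsr : s ≤ r) :
    (√r)⁻¹ * (q4 r)⁻¹ ≤ (√s)⁻¹ * (q4 s)⁻¹ := by
  unfold q4
  have h1 : 0 < √s := Real.sqrt_pos.2 hs
  have h2 : √s ≤ √r := Real.sqrt_le_sqrt hsr
  have h3 : 0 < √(√s) := Real.sqrt_pos.2 h1
  have h4 : √(√s) ≤ √(√r) := Real.sqrt_le_sqrt h2
  gcongr

private theorem XbC_split {t r : ℝ} (hr : r ∈ Ioo 0 t) :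
    ((√(t - r))⁻¹ * (q4 (t - r))⁻¹) * ((√r)⁻¹ * (q4 r)⁻¹) ≤
      ((√(t / 2))⁻¹ * (q4 (t / 2))⁻¹) * ((√r)⁻¹ * (q4 r)⁻¹ + (√(t - r))⁻¹ * (q4 (t - r))⁻¹) := by
  have ht : 0 < t := hr.1.trans hr.2
  have k0 : ∀ s : ℝ, 0 ≤ (√s)⁻¹ * (q4 s)⁻¹ := by
    intro s
    unfold q4
    positivity
  have a1 := k0 r
  have a2 := k0 (t - r)
  have a3 := k0 (t / 2)
  rcases le_total (t / 2) r with h | h
  · have := XbC_anti (half_pos ht) h
    nlinarith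
  · have := XbC_anti (r := t - r) (half_pos ht) (by linarith)
    nlinarith

private theorem XbC_half {t : ℝ} (ht : 0 < t) (h1 : t ≤ 1) :
    √t * q4 t * (((√(t / 2))⁻¹ * (q4 (t / 2))⁻¹) * (8 * q4 t)) ≤ 32 := by
  unfold q4
  have e1 : √t ≤ 2 * √(t / 2) := by
    rw [Real.sqrt_le_left (by positivity), mul_pow, Real.sq_sqrt (by positivity)]
    linarith
  have p1 : 0 < √(t / 2) := Real.sqrt_pos.2 (half_pos ht)
  have e2 : √(√t) ≤ 2 * √(√(t / 2)) := by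
    rw [Real.sqrt_le_left (by positivity), mul_pow, Real.sq_sqrt (by positivity)]
    linarith
  have p2 : 0 < √(√(t / 2)) := Real.sqrt_pos.2 p1
  have e3 : √(√t) ≤ 1 := Real.sqrt_le_one.2 (Real.sqrt_le_one.2 h1)
  have e4 : √t * (√(t / 2))⁻¹ ≤ 2 := by
    rw [← div_eq_mul_inv, div_le_iff₀ p1]
    exact e1
  have e5 : √(√t) * (√(√(t / 2)))⁻¹ ≤ 2 := by
    rw [← div_eq_mul_inv, div_le_iff₀ p2]
    exact e2
  have p3 : 0 ≤ √t * (√(t / 2))⁻¹ := by positivity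
  have p4 : 0 ≤ √(√t) * (√(√(t / 2)))⁻¹ := by positivity
  have p5 : 0 ≤ √(√t) := Real.sqrt_nonneg _
  calc √t * √√t * (((√(t / 2))⁻¹ * (√√(t / 2))⁻¹) * (8 * √√t))
      = 8 * ((√t * (√(t / 2))⁻¹) * (√(√t) * (√(√(t / 2)))⁻¹) * √(√t)) := by ring
    _ ≤ 8 * (2 * 2 * 1) := by gcongr
    _ = 32 := by norm_num

/-! ### the estimate -/

private theorem XbC_main {ω : ℝ} {N : ℕ} {b : ℝ} {x : ℝ → L1 (Xn H)} (hb1 : b ≤ 1)
    (hcs : CS ω N (fun _ => 0) (fun _ => 0) 0 b x)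
    (hyy : ∀ t ∈ Icc 0 b, yy (x t) ≤ 2 * yy (x 0) ∧ ∀ n, (x t n).1 = 0) {t : ℝ}
    (ht : t ∈ Ioc 0 b) :
    ‖x t‖ ≤ 4 * ((√t)⁻¹ * (q4 t)⁻¹) * yy (x 0) +
      64 * yy (x 0) * ∫ r in (0:ℝ)..t, (√(t - r))⁻¹ * (q4 (t - r))⁻¹ * ‖x r‖ := by
  obtain ⟨S, D, B, hS⟩ := exists_dir H
  have h0b : (0:ℝ) ∈ Icc 0 b := ⟨le_rfl, ht.1.le.trans ht.2⟩
  have htb : t ∈ Icc 0 b := ⟨ht.1.le, ht.2⟩
  have ht1 : t ∈ Ioc (0:ℝ) 1 := ⟨ht.1, ht.2.trans hb1⟩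
  have hcm : ∀ s ∈ Icc 0 b, ∀ n : ℤ, Cm (ω * n) (ex (pu ω N 0 n : Xn H).2.1 0) (x s n) := hcs.cm
  have hyy0 : ∀ s, 0 ≤ yy (x s) := fun s => tsum_nonneg fun n => n2_nonneg _
  have hker0 : ∀ s : ℝ, 0 ≤ (√s)⁻¹ * (q4 s)⁻¹ := by
    intro s
    unfold q4
    positivity
  have hsx : ∀ s : ℝ, Summable fun n => ‖x s n‖ := fun s => by
    have := (lp.memℓp (x s)).summable (by simp)
    simpa using this
  have hint : IntervalIntegrable (fun r => (√(t - r))⁻¹ * (q4 (t - r))⁻¹ * ‖x r‖) volume 0 t := by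
    refine (int_q34 ht.1.le).1.mul_continuousOn ?_
    rw [uIcc_of_le ht.1.le]
    exact (hcs.c.mono (Icc_subset_Icc_right ht.2)).norm
  have hmild := fun n : ℤ => hcs.lmild hS n ht
  have hinit : ∀ F : Finset ℤ, ∑ n ∈ F, ‖Tn S D (ω * n) (t - 0) (jn (lft ω (x 0) n))‖ ≤
      4 * ((√t)⁻¹ * (q4 t)⁻¹) * yy (x 0) := by
    intro F
    have e1 : ∀ n : ℤ, ‖Tn S D (ω * n) (t - 0) (jn (lft ω (x 0) n))‖ ≤
        4 * ((√t)⁻¹ * (q4 t)⁻¹) * n2 (x 0 n).2.1 := by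
      intro n
      rw [sub_zero]
      refine (Tn_n2 hS (ω * n) ht1 _).trans ?_
      rw [XbC_lft (hcm 0 h0b) (hyy 0 h0b).2 n]
      have : n2 (jn (x 0 n)).1 = 0 := by
        show n2 (x 0 n).1.1 = 0
        rw [(hyy 0 h0b).2 n]
        exact n2_zero
      rw [this, zero_add]
      exact le_of_eq rfl
    calc _ ≤ ∑ n ∈ F, 4 * ((√t)⁻¹ * (q4 t)⁻¹) * n2 (x 0 n).2.1 := Finset.sum_le_sum fun n _ => e1 n
      _ = 4 * ((√t)⁻¹ * (q4 t)⁻¹) * ∑ n ∈ F, n2 (x 0 n).2.1 := by rw [Finset.mul_sum]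
      _ ≤ _ := by
        apply mul_le_mul_of_nonneg_left _ (by have := hker0 t; positivity)
        exact (fun_summable (x 0) 0 0 0 0 0).1.sum_le_tsum F fun n _ => n2_nonneg _
  have hsrc : ∀ F : Finset ℤ,
      ∑ n ∈ F, ∫ r in (0:ℝ)..t, ‖Tn S D (ω * n) (t - r) (ls ω N 0 0 (x r) n)‖ ≤
      64 * yy (x 0) * ∫ r in (0:ℝ)..t, (√(t - r))⁻¹ * (q4 (t - r))⁻¹ * ‖x r‖ := by
    intro F
    have hi : ∀ n ∈ F, IntervalIntegrable
        (fun r => ‖Tn S D (ω * n) (t - r) (ls ω N 0 0 (x r) n)‖) volume 0 t := fun n _ =>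
      (hmild n).1.norm
    rw [← intervalIntegral.integral_finsetSum hi, ← intervalIntegral.integral_const_mul]
    refine intervalIntegral.integral_mono_on_of_le_Ioo ht.1.le ?_ (hint.const_mul _) ?_
    · have := IntervalIntegrable.sum F hi
      simpa [Finset.sum_fn] using this
    intro r hr
    have hrI : r ∈ Icc 0 b := ⟨hr.1.le, hr.2.le.trans ht.2⟩
    have hs : t - r ∈ Ioc (0:ℝ) 1 := ⟨sub_pos.2 hr.2, by linarith [hr.1, ht1.2]⟩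
    obtain ⟨y1, y2⟩ := hyy r hrI
    have hVF : VF ω (x r) := XbC_VF (hcm r hrI) y2
    obtain ⟨sB, nB⟩ := XbC_Bf hVF
    have e1 : ∀ n : ℤ, ‖Tn S D (ω * n) (t - r) (ls ω N 0 0 (x r) n)‖ ≤
        4 * ((√(t - r))⁻¹ * (q4 (t - r))⁻¹) * n2 (Bf ω (x r) (x r) n).2 := by
      intro n
      refine (Tn_n2 hS (ω * n) hs _).trans ?_
      rw [XbC_ls (hcm r hrI) y2 n]
      show 4 * ((√(t - r))⁻¹ * (q4 (t - r))⁻¹) * (n2 (0 : CI H) + n2 (Bf ω (x r) (x r) n).2) ≤ _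
      rw [n2_zero, zero_add]
    have k0 := hker0 (t - r)
    have e2 : ∑ n ∈ F, n2 (Bf ω (x r) (x r) n).2 ≤ 8 * ‖x r‖ * yy (x r) := by
      rw [l1_norm (x r)]
      exact (sB.sum_le_tsum F fun n _ => n2_nonneg _).trans nB
    have e3 : 8 * ‖x r‖ * yy (x r) ≤ 16 * yy (x 0) * ‖x r‖ := by
      have := mul_le_mul_of_nonneg_left y1 (by positivity : 0 ≤ 8 * ‖x r‖)
      linarith
    calc ∑ n ∈ F, ‖Tn S D (ω * n) (t - r) (ls ω N 0 0 (x r) n)‖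
        ≤ ∑ n ∈ F, 4 * ((√(t - r))⁻¹ * (q4 (t - r))⁻¹) * n2 (Bf ω (x r) (x r) n).2 :=
          Finset.sum_le_sum fun n _ => e1 n
      _ = 4 * ((√(t - r))⁻¹ * (q4 (t - r))⁻¹) * ∑ n ∈ F, n2 (Bf ω (x r) (x r) n).2 := by
          rw [Finset.mul_sum]
      _ ≤ 4 * ((√(t - r))⁻¹ * (q4 (t - r))⁻¹) * (16 * yy (x 0) * ‖x r‖) :=
          mul_le_mul_of_nonneg_left (e2.trans e3) (by positivity)
      _ = 64 * yy (x 0) * ((√(t - r))⁻¹ * (q4 (t - r))⁻¹ * ‖x r‖) := by ring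
  rw [l1_norm (x t)]
  refine (hsx t).tsum_le_of_sum_le fun F => ?_
  calc ∑ n ∈ F, ‖x t n‖
      ≤ ∑ n ∈ F, (‖Tn S D (ω * n) (t - 0) (jn (lft ω (x 0) n))‖ +
          ∫ r in (0:ℝ)..t, ‖Tn S D (ω * n) (t - r) (ls ω N 0 0 (x r) n)‖) := by
        refine Finset.sum_le_sum fun n _ => ?_
        have h := (hmild n).2
        rw [XbC_lft (hcm t htb) (hyy t htb).2 n] at h
        rw [h]
        refine (norm_add_le _ _).trans (add_le_add le_rfl ?_)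
        exact intervalIntegral.norm_integral_le_integral_norm ht.1.le
    _ = ∑ n ∈ F, ‖Tn S D (ω * n) (t - 0) (jn (lft ω (x 0) n))‖ +
          ∑ n ∈ F, ∫ r in (0:ℝ)..t, ‖Tn S D (ω * n) (t - r) (ls ω N 0 0 (x r) n)‖ :=
        Finset.sum_add_distrib
    _ ≤ _ := add_le_add (hinit F) (hsrc F)

theorem small_X {ω : ℝ} (hω : ω * H = Real.pi) : ∃ δ C, 0 < δ ∧ 1 ≤ C ∧ ∀ {N : ℕ} {b : ℝ}
    {x : ℝ → L1 (Xn H)}, 1 ≤ N → 0 ≤ b → b ≤ 1 → CS ω N (fun _ => 0) (fun _ => 0) 0 b x →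
    (∀ n, (x 0 n).1 = 0) → yy (x 0) ≤ δ → ∀ t ∈ Ioc 0 b, ‖x t‖ ≤ C * ((√t)⁻¹ * (q4 t)⁻¹) * yy (x 0) := by
  obtain ⟨δ0, hδ0, hsm⟩ := small_yy (H := H) hω
  refine ⟨min δ0 (1 / 4096), 8, lt_min hδ0 (by norm_num), by norm_num, ?_⟩
  intro N b x hN hb0 hb1 hcs hx0 hyy0 t ht
  have hyy := hsm hN hb0 (by linarith) hcs hx0 (hyy0.trans (min_le_left _ _))
  have hy4 : yy (x 0) ≤ 1 / 4096 := hyy0.trans (min_le_right _ _)
  have hypos : 0 ≤ yy (x 0) := tsum_nonneg fun n => n2_nonneg _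
  have cφ : ContinuousOn (fun t => √t * q4 t * ‖x t‖) (Icc 0 b) := by
    have h1 : Continuous (fun t : ℝ => √t * q4 t) := by
      unfold q4
      fun_prop
    exact h1.continuousOn.mul hcs.c.norm
  obtain ⟨t0, ht0, hmax⟩ := isCompact_Icc.exists_isMaxOn (nonempty_Icc.2 hb0) cφ
  have hZ : ∀ s ∈ Icc 0 b, √s * q4 s * ‖x s‖ ≤ √t0 * q4 t0 * ‖x t0‖ := fun s hs => hmax hs
  set Z := √t0 * q4 t0 * ‖x t0‖ with hZdef
  have hq0 : ∀ s : ℝ, 0 ≤ q4 s := fun s => Real.sqrt_nonneg _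
  have hZ0 : 0 ≤ Z := by
    have := hq0 t0
    positivity
  have hker0 : ∀ s : ℝ, 0 ≤ (√s)⁻¹ * (q4 s)⁻¹ := by
    intro s
    unfold q4
    positivity
  have hqpos : ∀ s : ℝ, 0 < s → 0 < √s ∧ 0 < q4 s := fun s hs =>
    ⟨Real.sqrt_pos.2 hs, Real.sqrt_pos.2 (Real.sqrt_pos.2 hs)⟩
  have hxZ : ∀ s ∈ Ioc 0 b, ‖x s‖ ≤ Z * ((√s)⁻¹ * (q4 s)⁻¹) := by
    intro s hs
    obtain ⟨p1, p2⟩ := hqpos s hs.1
    have h := hZ s ⟨hs.1.le, hs.2⟩
    rw [← mul_inv, ← div_eq_mul_inv, le_div_iff₀ (by positivity), mul_comm]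
    exact h
  have hZ8 : Z ≤ 8 * yy (x 0) := by
    rcases ht0.1.eq_or_lt with h | h
    · have : Z = 0 := by
        rw [hZdef, ← h]
        simp
      rw [this]
      positivity
    · have ht0' : t0 ∈ Ioc 0 b := ⟨h, ht0.2⟩
      have h1 := XbC_main hb1 hcs hyy ht0'
      obtain ⟨p1, p2⟩ := hqpos t0 h
      have i1 : IntervalIntegrable (fun r => (√(t0 - r))⁻¹ * (q4 (t0 - r))⁻¹ * ‖x r‖) volume 0 t0 := by
        refine (int_q34 h.le).1.mul_continuousOn ?_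
        rw [uIcc_of_le h.le]
        exact (hcs.c.mono (Icc_subset_Icc_right ht0.2)).norm
      have i2 : IntervalIntegrable (fun r => Z * (((√(t0 / 2))⁻¹ * (q4 (t0 / 2))⁻¹) *
          ((√r)⁻¹ * (q4 r)⁻¹ + (√(t0 - r))⁻¹ * (q4 (t0 - r))⁻¹))) volume 0 t0 :=
        ((((XbC_ker h.le).1.add (int_q34 h.le).1).const_mul _).const_mul _)
      have h2 : ∫ r in (0:ℝ)..t0, (√(t0 - r))⁻¹ * (q4 (t0 - r))⁻¹ * ‖x r‖ ≤
          Z * (((√(t0 / 2))⁻¹ * (q4 (t0 / 2))⁻¹) * (8 * q4 t0)) := by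
        calc _ ≤ ∫ r in (0:ℝ)..t0, Z * (((√(t0 / 2))⁻¹ * (q4 (t0 / 2))⁻¹) *
              ((√r)⁻¹ * (q4 r)⁻¹ + (√(t0 - r))⁻¹ * (q4 (t0 - r))⁻¹)) := by
              refine intervalIntegral.integral_mono_on_of_le_Ioo h.le i1 i2 fun r hr => ?_
              have a1 := hxZ r ⟨hr.1, hr.2.le.trans ht0.2⟩
              have a2 := XbC_split hr
              have a3 := hker0 (t0 - r)
              calc (√(t0 - r))⁻¹ * (q4 (t0 - r))⁻¹ * ‖x r‖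
                  ≤ (√(t0 - r))⁻¹ * (q4 (t0 - r))⁻¹ * (Z * ((√r)⁻¹ * (q4 r)⁻¹)) :=
                    mul_le_mul_of_nonneg_left a1 a3
                _ = Z * (((√(t0 - r))⁻¹ * (q4 (t0 - r))⁻¹) * ((√r)⁻¹ * (q4 r)⁻¹)) := by ring
                _ ≤ _ := mul_le_mul_of_nonneg_left a2 hZ0
          _ = Z * (((√(t0 / 2))⁻¹ * (q4 (t0 / 2))⁻¹) *
              ((∫ r in (0:ℝ)..t0, (√r)⁻¹ * (q4 r)⁻¹) +
                ∫ r in (0:ℝ)..t0, (√(t0 - r))⁻¹ * (q4 (t0 - r))⁻¹)) := by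
              rw [intervalIntegral.integral_const_mul, intervalIntegral.integral_const_mul,
                intervalIntegral.integral_add (XbC_ker h.le).1 (int_q34 h.le).1]
          _ = _ := by
              rw [(XbC_ker h.le).2, (int_q34 h.le).2]
              ring
      have h3 : Z ≤ 4 * yy (x 0) + 64 * yy (x 0) * (32 * Z) := by
        calc Z = √t0 * q4 t0 * ‖x t0‖ := rfl
          _ ≤ √t0 * q4 t0 * (4 * ((√t0)⁻¹ * (q4 t0)⁻¹) * yy (x 0) +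
              64 * yy (x 0) * (Z * (((√(t0 / 2))⁻¹ * (q4 (t0 / 2))⁻¹) * (8 * q4 t0)))) := by
              apply mul_le_mul_of_nonneg_left _ (by positivity)
              refine h1.trans (add_le_add le_rfl ?_)
              exact mul_le_mul_of_nonneg_left h2 (by positivity)
          _ = 4 * yy (x 0) * ((√t0 * (√t0)⁻¹) * (q4 t0 * (q4 t0)⁻¹)) + 64 * yy (x 0) * (Z *
              (√t0 * q4 t0 * (((√(t0 / 2))⁻¹ * (q4 (t0 / 2))⁻¹) * (8 * q4 t0)))) := by ring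
          _ ≤ 4 * yy (x 0) * (1 * 1) + 64 * yy (x 0) * (Z * 32) := by
              rw [mul_inv_cancel₀ p1.ne', mul_inv_cancel₀ p2.ne']
              have := XbC_half h (ht0.2.trans hb1)
              gcongr
          _ = _ := by ring
      nlinarith
  have hk := hker0 t
  calc ‖x t‖ ≤ Z * ((√t)⁻¹ * (q4 t)⁻¹) := hxZ t ht
    _ ≤ (8 * yy (x 0)) * ((√t)⁻¹ * (q4 t)⁻¹) := mul_le_mul_of_nonneg_right hZ8 hk
    _ = 8 * ((√t)⁻¹ * (q4 t)⁻¹) * yy (x 0) := by ring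

/-- Global existence for small data on `[0,1]`. -/
theorem small_exist {ω : ℝ} (hω : ω * H = Real.pi) : ∃ δ, 0 < δ ∧ ∀ {N : ℕ} {x0 : L1 (Xn H)}, 1 ≤ N →
    (∀ n : ℤ, Cm (ω * n) (ex (pu ω N 0 n : Xn H).2.1 0) (x0 n)) → Sy x0 → (∀ n, (x0 n).1 = 0) →
    yy x0 ≤ δ → ∃ x : ℝ → L1 (Xn H), CS ω N (fun _ => 0) (fun _ => 0) 0 1 x ∧ x 0 = x0 := by
  obtain ⟨δ0, hδ0, hsm⟩ := small_yy (H := H) hω
  have hω0 : 0 < ω := by
    have h1 : 0 < ω * H := by rw [hω]; exact Real.pi_pos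
    exact (pos_iff_pos_of_mul_pos h1).2 hH.out
  refine ⟨min δ0 (1 / 2), lt_min hδ0 (by norm_num), ?_⟩
  intro N x0 hN hcm hSy hx0 hyy0
  obtain ⟨Λ, hΛ⟩ := xb (H := H) hω0 hN (max 1 ‖x0‖)
  have key : ∀ c ∈ Icc (0:ℝ) 1, ∀ x : ℝ → L1 (Xn H),
      CS ω N (fun _ => (0:ℝ)) (fun _ => (0:ℝ)) 0 c x →
      (∀ t ∈ Icc (0:ℝ) 0, x t = (fun _ : ℝ => x0) t) → ∀ t ∈ Icc 0 c, ‖x t‖ ≤ Λ := by
    intro c hc x hcs hxc
    have hx00 : x 0 = x0 := hxc 0 ⟨le_rfl, le_rfl⟩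
    have hyy := hsm hN hc.1 (by linarith [hc.2]) hcs (by rw [hx00]; exact hx0)
      (by rw [hx00]; exact hyy0.trans (min_le_left _ _))
    have hbt : ∀ t ∈ Icc 0 c, bt ω (x t) = 0 := by
      intro t ht
      unfold bt
      have : ∀ n : ℤ, ‖Top (ω * n) (x t n).1.1‖ = 0 := by
        intro n
        have h2 : (x t n).1.1 = 0 := by rw [(hyy t ht).2 n]; rfl
        rw [h2, map_zero, norm_zero]
      simp [this]
    refine hΛ hc.1 hc.2 hcs ?_ ?_ ?_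
    · intro t ht
      have h1 : yy (x t) ≤ 2 * yy (x 0) := (hyy t ht).1
      have h2 : yy x0 ≤ 1 / 2 := hyy0.trans (min_le_right _ _)
      rw [hx00] at h1
      refine ⟨?_, ?_, by linarith⟩
      · simp
      · simp
    · have : ∫ t in (0:ℝ)..c, bt ω (x t) ^ 8 = ∫ t in (0:ℝ)..c, (0:ℝ) := by
        apply intervalIntegral.integral_congr
        rw [uIcc_of_le hc.1]
        intro t ht
        show bt ω (x t) ^ 8 = 0
        rw [hbt t ht]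
        norm_num
      rw [this]
      simp
    · rw [hx00]
      exact le_max_right _ _
  obtain ⟨x, hx, hx2⟩ := cs_extend (H := H) (A := fun _ => (0:ℝ)) (A1 := fun _ => (0:ℝ)) (c0 := 0)
    (b := 1) (Λ := Λ) (x0 := fun _ => x0) hω0 hN continuous_const
    (fun t => hasDerivAt_const t (0:ℝ)) le_rfl zero_le_one (CS.single hcm hSy) key
  exact ⟨x, hx, hx2 0 ⟨le_rfl, le_rfl⟩⟩

end

end Pool.Agent.Lib.MP_79abb3_an.FW
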