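import Pool.Agent.Lib.MP_79abb3_an.FW.MnA
import Pool.Agent.Lib.MP_79abb3_an.FW.NcC
import Pool.Agent.Lib.MP_79abb3_an.FW.TotB
import Pool.Agent.Lib.MP_79abb3_an.FW.TotC
import Pool.Agent.Lib.MP_79abb3_an.FW.XbC

/-!
FW-81: the trajectory in modes.
-/

set_option autoImplicit false
set_option linter.unusedSectionVars false

open MeasureTheory Set Filter Topology Function

namespace Pool.Agent.Lib.MP_79abb3_an.FW

open Pool.Agent.Lib.MP_79abb3_an.P25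

section
variable {H : ℝ} [hH : Fact (0 < H)]

private theorem mnb_pu (ω : ℝ) (N : ℕ) (n : ℤ) : (pu ω N 0 n : Xn H) = 0 := by
  refine Prod.ext rfl (Prod.ext ?_ (Prod.ext ?_ ?_))
  · refine ci_ext fun z _ => ?_
    show (Complex.I * ((0 / 2 * sN N n : ℝ) : ℂ)) * P25.ex (fexp (ω * N) : CI H) z = 0
    simp
  · refine ci_ext fun z _ => ?_
    show (Complex.I * ((0 / 2 * sN N n * (ω * N) : ℝ) : ℂ)) * P25.ex (fexp (ω * N) : CI H) z = 0
    simp
  · refine ci_ext fun z _ => ?_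
    show ((|ω * n| : ℝ) : ℂ) * ((Complex.I * ((0 / 2 * sN N n : ℝ) : ℂ)) *
      P25.ex (fexp (ω * N) : CI H) z) = 0
    simp

private theorem mnb_tv (ω : ℝ) (N : ℕ) (x : ℤ → Xn H) (n : ℤ) :
    tv ω N 0 x n = ov ω x n + iv x n := by
  rw [tv, mnb_pu, add_zero]

private theorem mnb_tv_of {ω : ℝ} {N : ℕ} {x : ℤ → Xn H} {n : ℤ} (h : (x n).1 = 0) :
    tv ω N 0 x n = x n := by
  have h1 : (x n).1.1 = 0 := by rw [h]; rfl
  have h2 : ov ω x n = 0 := by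
    rw [ov, h1, map_zero]
    refine Prod.ext rfl (Prod.ext rfl (Prod.ext ?_ ?_))
    · refine ci_ext fun z _ => ?_
      show ((|ω * n| : ℝ) : ℂ) * P25.ex (0 : CI H) z - P25.ex (0 : CI H) z = 0
      simp
    · refine ci_ext fun z _ => ?_
      show ((|ω * n| : ℝ) : ℂ) * P25.ex (0 : CI H) z = 0
      simp
  rw [mnb_tv, h2, zero_add]
  exact Prod.ext h.symm rfl

/-- The total velocity at an instant with `A = 0` is an admissible state without outer part. -/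
private theorem mnb_cm {ω : ℝ} {N : ℕ} {x : L1 (Xn H)}
    (hx : ∀ n : ℤ, Cm (ω * n) (P25.ex (pu ω N 0 n : Xn H).2.1 0) (x n)) (n : ℤ) :
    Cm (ω * n) (P25.ex (pu ω N 0 n : Xn H).2.1 0) (tv ω N 0 x n) := by
  have hw := tv_wall hx n
  have hx' := hx n
  rw [mnb_pu] at hx' ⊢
  have e : tv ω N 0 x n = ((0, 0, 0), (Top (ω * n) (x n).1.1 + (x n).2.1,
      (|ω * n| • Top (ω * n) (x n).1.1 - (x n).1.1) + (x n).2.2.1,
      |ω * n| • Top (ω * n) (x n).1.1 + (x n).2.2.2)) := by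
    rw [mnb_tv]
    refine Prod.ext ?_ rfl
    exact Prod.ext (add_zero _) (Prod.ext (add_zero _) (add_zero _))
  rw [e] at hw ⊢
  refine ⟨?_, ?_, ?_, ?_, rfl, rfl, ?_, ?_⟩
  · exact fun z _ => hasDerivWithinAt_const z (Icc 0 H) (0:ℂ)
  · exact fun z hz => (Top_isD (ω * n) (x n).1.1 z hz).add (hx'.d2 z hz)
  · refine ci_ext fun z _ => ?_
    show (0:ℂ) = ((|ω * n| : ℝ) : ℂ) * 0
    simp
  · refine ci_ext fun z _ => ?_
    show ((|ω * n| : ℝ) : ℂ) * P25.ex (Top (ω * n) (x n).1.1) z + P25.ex (x n).2.2.2 z =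
      ((|ω * n| : ℝ) : ℂ) * (P25.ex (Top (ω * n) (x n).1.1) z + P25.ex (x n).2.1 z)
    rw [hx'.e2]
    simp only [ex_rsmul]
    ring
  · show P25.ex (Top (ω * n) (x n).1.1) H + P25.ex (x n).2.1 H = 0
    rw [Top_H, hx'.h2, add_zero]
  · refine hw.trans ?_
    show (0:ℂ) = -P25.ex (Top (ω * n) (0 : CI H)) 0 - 0
    rw [map_zero]
    simp

private theorem mnb_jL (x : L1 (Xn H)) : ‖jL H x‖ ≤ ‖x‖ := by
  have := norm_diagL_le (fun _ : ℤ => jnL H) 1 (fun _ => norm_jnL_le) x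
  rwa [one_mul] at this

theorem main_modes {ω : ℝ} (hω : ω * H = Real.pi) (hH1 : 1 ≤ H) {c c1 : ℤ → CI H} (hc : DV ω c c1)
    {T : ℝ} (hT : 0 < T) : ∃ u : ℝ → L1 (Xn H), HT ω 0 T u ∧ (∀ n, u 0 n = dst ω c n) ∧
      ∀ n, jn (u T n) = 0 := by
  have hHp := hH.out
  have hω0 : 0 < ω := by
    have : 0 < ω * H := by rw [hω]; exact Real.pi_pos
    exact (mul_pos_iff_of_pos_right hHp).1 this
  obtain ⟨δ1, C, hδ1, hC, hX⟩ := small_X (H := H) hω
  obtain ⟨δ2, hδ2, hE⟩ := small_exist (H := H) hω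
  obtain ⟨δ3, hδ3, hY⟩ := small_yy (H := H) hω
  obtain ⟨μ0, hμ0, hN2⟩ := local_null2 (H := H) hH1 (T := T / 4) (Λ := 1) (by positivity) le_rfl
  set T' := min 1 (T / 4) with hT'
  have hT'0 : 0 < T' := lt_min one_pos (by positivity)
  have hT'1 : T' ≤ 1 := min_le_left _ _
  have hT'4 : T' ≤ T / 4 := min_le_right _ _
  set K := C * ((√T')⁻¹ * (FW.q4 T')⁻¹) with hK
  have hq : 0 < FW.q4 T' := Real.sqrt_pos.2 (Real.sqrt_pos.2 hT'0)
  have hs : 0 < √T' := Real.sqrt_pos.2 hT'0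
  have hK0 : 0 < K := by positivity
  set δ := min (min δ1 δ2) (min δ3 (min 1 μ0 / K)) with hδ
  have hδ0 : 0 < δ := by
    refine lt_min (lt_min hδ1 hδ2) (lt_min hδ3 (div_pos (lt_min one_pos hμ0) hK0))
  have hd1 : δ ≤ δ1 := (min_le_left _ _).trans (min_le_left _ _)
  have hd2 : δ ≤ δ2 := (min_le_left _ _).trans (min_le_right _ _)
  have hd3 : δ ≤ δ3 := (min_le_right _ _).trans (min_le_left _ _)
  have hd4 : δ ≤ min 1 μ0 / K := (min_le_right _ _).trans (min_le_right _ _)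
  obtain ⟨N, hN, t2, ht2, A, A1, x, hcs, hA0, hAt, hini, hsm⟩ := phase1 hω hc hδ0
    (show 0 < T / 4 by positivity)
  obtain ⟨u1, hu1, -, hHT1⟩ := CS.tot hω0 hN ht2.1.le hcs
  have ht2m : t2 ∈ Icc 0 t2 := right_mem_Icc.2 ht2.1.le
  -- restart
  have hy0n : ∀ n, u1 t2 n = tv ω N 0 (x t2) n := fun n => by rw [hu1, hAt]
  have hcm2 : ∀ n : ℤ, Cm (ω * n) (P25.ex (pu ω N 0 n : Xn H).2.1 0) (x t2 n) := fun n => by
    have := hcs.cm t2 ht2m n
    rwa [hAt] at this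
  have hy0cm : ∀ n : ℤ, Cm (ω * n) (P25.ex (pu ω N 0 n : Xn H).2.1 0) (u1 t2 n) := fun n => by
    rw [hy0n n]
    exact mnb_cm hcm2 n
  have hy0z : ∀ n, (u1 t2 n).1 = 0 := fun n => by
    rw [hy0n n, mnb_tv]
    exact Prod.ext (add_zero _) (Prod.ext (add_zero _) (add_zero _))
  have hy0s : Sy (u1 t2) := by
    refine XE.Cj.sy fun m => ?_
    rw [hy0n, hy0n]
    exact XE.cj_tv hN 0 (XE.Cj.of_sy (hcs.sy t2 ht2m)) m
  have hyy0 : yy (u1 t2) ≤ δ := by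
    refine le_trans (le_of_eq ?_) hsm
    unfold yy
    refine tsum_congr fun n => ?_
    rw [hy0n n, mnb_tv]
  obtain ⟨y, hycs, hy0⟩ := hE hN hy0cm hy0s hy0z (hyy0.trans hd2)
  have hyz : ∀ t ∈ Icc (0:ℝ) 1, ∀ n, (y t n).1 = 0 := fun t ht =>
    (hY hN zero_le_one (by norm_num) hycs (by rw [hy0]; exact hy0z)
      (by rw [hy0]; exact hyy0.trans hd3) t ht).2
  have hT'm : T' ∈ Icc (0:ℝ) 1 := ⟨hT'0.le, hT'1⟩
  have hyn : ‖y T'‖ ≤ min 1 μ0 := by
    refine (hX hN zero_le_one le_rfl hycs (by rw [hy0]; exact hy0z)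
      (by rw [hy0]; exact hyy0.trans hd1) T' ⟨hT'0, hT'1⟩).trans ?_
    rw [hy0]
    calc K * yy (u1 t2) ≤ K * (min 1 μ0 / K) := by
          gcongr
          exact hyy0.trans hd4
      _ = min 1 μ0 := mul_div_cancel₀ _ hK0.ne'
  have hyc : ∀ n : ℤ, Cmode (ω * n) (y T' n) := fun n => by
    have h1 := hycs.cm T' hT'm n
    refine ⟨h1.d1, h1.d2, h1.e1, h1.e2, h1.z1, ?_⟩
    have h2 : (y T' n).1.1 = 0 := by rw [hyz T' hT'm n]; rfl
    rw [h1.z2, h2, map_zero, mnb_pu]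
    simp
  obtain ⟨b, hb, J, u3, hTr, hu30, hu3b, hu3z⟩ := hN2 ω (y T') hyc (hycs.sy T' hT'm)
    (hyz T' hT'm) (((mnb_jL (y T')).trans hyn).trans (min_le_right _ _))
    (hyn.trans (min_le_left _ _))
  -- the pieces
  obtain ⟨u2, hu2, -, hHT2⟩ := CS.tot hω0 hN hT'0.le (hycs.mono le_rfl hT'1)
  have hHT2s := hHT2.shift t2
  rw [zero_add] at hHT2s
  have hHT3 : HT ω 0 b u3 := HT.of_traj hTr hu3z
  have hHT3s := hHT3.shift (T' + t2)
  rw [zero_add] at hHT3s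
  have hsum : b + (T' + t2) < T := by linarith [hb.2, ht2.2]
  have hHT4 : HT ω (b + (T' + t2)) T (fun _ => (0 : L1 (Xn H))) := HT.zero hsum.le
  have hb0 : 0 < b := hb.1
  have hg1 := hHT3s.glue hHT4 (by linarith) hsum.le (fun n => by
    have e : b + (T' + t2) - (T' + t2) = b := by ring
    rw [e, hu3b])
  have hg2 := hHT2s.glue hg1 (by linarith) (by linarith) (fun n => by
    have e1 : T' + t2 - t2 = T' := by ring
    have e2 : T' + t2 - (T' + t2) = 0 := by ring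
    have e3 : T' + t2 ≤ b + (T' + t2) := by linarith
    rw [e1, if_pos e3, e2, hu30, hu2, mnb_tv_of (hyz T' hT'm n)])
  have hg3 := hHT1.glue hg2 ht2.1.le (by linarith) (fun n => by
    have e1 : t2 ≤ T' + t2 := by linarith
    rw [if_pos e1, sub_self, hu2, mnb_tv_of (hyz 0 ⟨le_rfl, zero_le_one⟩ n), hy0])
  refine ⟨_, hg3, fun n => ?_, fun n => ?_⟩
  · simp only [if_pos ht2.1.le]
    rw [hu1, hA0, mnb_tv, hini n]
  · have e1 : ¬ T ≤ t2 := by linarith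
    have e2 : ¬ T ≤ T' + t2 := by linarith
    have e3 : ¬ T ≤ b + (T' + t2) := by linarith
    simp only [if_neg e1, if_neg e2, if_neg e3]
    rfl

end

end Pool.Agent.Lib.MP_79abb3_an.FW
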