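import Pool.Agent.Lib.MP_79abb3_an.FW.WkAa

/-!
FW-63b: tested equations with harmonic pressure terms, one mode.
-/

set_option autoImplicit false
set_option linter.unusedSectionVars false

open MeasureTheory Set Filter Topology Function

namespace Pool.Agent.Lib.MP_79abb3_an.FW

open Pool.Agent.Lib.MP_79abb3_an.P25

section
variable {H : ℝ} [hH : Fact (0 < H)]

theorem wm_modes_h {ω T : ℝ} {J : Set ℝ} {P : ℝ → ℝ} {u : ℝ → L1 (Xn H)} {hc : ℝ → ℤ → ℂ}
    (hω : 0 < ω) (hT : 0 < T) (h : LT ω 0 T J P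
      (fun t n => Bf ω (u t) (u t) n + ((0, hc t n • fexp |ω * n|) : Yn H)) u)
    {Φ₂ Φ₃ : ℝ × ℝ × ℝ → ℝ} (h2 : IsT3 T H Φ₂) (h3 : IsT3 T H Φ₃)
    (hdiv : ∀ q, py Φ₂ q + pz Φ₃ q = 0) (n : ℤ) :
    (∫ t in (0:ℝ)..T, ∫ z in (0:ℝ)..H, ex (mv ω (u t) n) z * hat ω (Lop Φ₂) n t z) +
      (∫ t in (0:ℝ)..T, ∫ z in (0:ℝ)..H, ex (mw ω (u t) n) z * hat ω (Lop Φ₃) n t z) =
    (∫ t in (0:ℝ)..T, ∫ z in (0:ℝ)..H, ex (N1 ω (u t) (u t) n) z * hat ω Φ₂ n t z) +
      ∫ t in (0:ℝ)..T, ∫ z in (0:ℝ)..H, ex (N2 ω (u t) (u t) n) z * hat ω Φ₃ n t z := by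
  have g1 : ∀ t (m : ℤ), (Bf ω (u t) (u t) m + ((0, hc t m • fexp |ω * m|) : Yn H)).1 =
      (Bf ω (u t) (u t) m).1 := fun t m => add_zero _
  have g2 : ∀ t (m : ℤ) z, ex (Bf ω (u t) (u t) m + ((0, hc t m • fexp |ω * m|) : Yn H)).2 z =
      ex (Bf ω (u t) (u t) m).2 z + hc t m * ex (fexp |ω * m| : CI H) z := fun t m z => by
    show ex ((Bf ω (u t) (u t) m).2 + hc t m • fexp |ω * m|) z = _
    rw [ex_add, ex_smul]
  -- the harmonic terms do not contribute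
  have g3 : ∀ t, ∫ z in (0:ℝ)..H,
      ex (Bf ω (u t) (u t) n + ((0, hc t n • fexp |ω * n|) : Yn H)).2 z *
        (hat ω Φ₂ n t z - is (ω * n) * hat ω Φ₃ n t z) =
      ∫ z in (0:ℝ)..H, ex (Bf ω (u t) (u t) n).2 z *
        (hat ω Φ₂ n t z - is (ω * n) * hat ω Φ₃ n t z) := by
    intro t
    have hc1 : Continuous (fun z => hat ω Φ₂ n t z - is (ω * n) * hat ω Φ₃ n t z) :=
      (h2.wm_hat_cz ω n t).sub (continuous_const.mul (h3.wm_hat_cz ω n t))
    have e : ∀ z, ex (Bf ω (u t) (u t) n + ((0, hc t n • fexp |ω * n|) : Yn H)).2 z *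
        (hat ω Φ₂ n t z - is (ω * n) * hat ω Φ₃ n t z) =
        ex (Bf ω (u t) (u t) n).2 z * (hat ω Φ₂ n t z - is (ω * n) * hat ω Φ₃ n t z) +
        hc t n * (ex (fexp |ω * n| : CI H) z *
          (hat ω Φ₂ n t z - is (ω * n) * hat ω Φ₃ n t z)) := by
      intro z
      rw [g2]; ring
    simp_rw [e]
    rw [intervalIntegral.integral_add (wm_zi hc1) ((wm_zi hc1).const_mul _),
      intervalIntegral.integral_const_mul, harm_pair h2 h3 hdiv hω n t, mul_zero, add_zero]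
  have hH0 := hH.out
  obtain ⟨R, hR⟩ := h.bd
  by_cases hn : n = 0
  · subst hn
    have e0 : ω * ((0:ℤ) : ℝ) = 0 := by simp
    have z3 : ∀ t z, hat ω Φ₃ 0 t z = 0 := fun t z => wm_hat_zero_mode h2 h3 hdiv ω t z
    have z3' : ∀ t z, hat ω (Lop Φ₃) 0 t z = 0 := fun t z =>
      wm_hat_zero_mode h2.wm_L h3.wm_L (wm_div_L h2 h3 hdiv) ω t z
    have e1 : ∀ t z, ex (mv ω (u t) 0) z = ex (u t 0).2.1 z := by
      intro t z
      unfold mv vv
      rw [e0, is_zero]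
      simp [jn]
    have e2 : ∀ t z, ex (Bf ω (u t) (u t) 0).2 z = -ex (N1 ω (u t) (u t) 0) z := by
      intro t z
      unfold Bf Rν
      rw [e0, is_zero]
      simp
    have h4 := (h.wm_tested hT 0 h2 h2 0).2
    simp only [zero_mul, sub_zero] at h4
    simp only [z3, mul_zero, sub_zero] at g3
    simp only [g3] at h4
    simp only [z3, z3', mul_zero, intervalIntegral.integral_zero, add_zero, e1]
    rw [h4]
    simp only [e2, neg_mul, intervalIntegral.integral_neg, neg_neg]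
  · have hk : ω * (n : ℝ) ≠ 0 := mul_ne_zero hω.ne' (by exact_mod_cast hn)
    set k : ℝ := ω * (n : ℝ) with hkdef
    have hu : ∀ t ∈ Icc 0 T \ J, ‖u t‖ ≤ R := fun t ht => (hR t ht).2.1
    have hun : ∀ t ∈ Icc 0 T \ J, ‖u t n‖ ≤ R := fun t ht =>
      (lp.norm_apply_le_norm (by norm_num) (u t) n).trans (hu t ht)
    -- bounds of coefficients
    have bmv : ∀ t ∈ Icc 0 T \ J, ‖mv ω (u t) n‖ ≤ (H + 2) * R := fun t ht =>
      (wm_mv_le ω (u t) n).trans (mul_le_mul_of_nonneg_left (hun t ht) (by linarith))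
    have bmw : ∀ t ∈ Icc 0 T \ J, ‖mw ω (u t) n‖ ≤ (H + 1) * R := fun t ht =>
      (wm_mw_le ω (u t) n).trans (mul_le_mul_of_nonneg_left (hun t ht) (by linarith))
    have bγ : ∀ t ∈ Icc 0 T \ J, ‖(u t n).1.1‖ ≤ R := fun t ht =>
      ((norm_fst_le _).trans (norm_fst_le _)).trans (hun t ht)
    have bν : ∀ t ∈ Icc 0 T \ J, ‖(u t n).2.1‖ ≤ R := fun t ht =>
      ((norm_fst_le _).trans (norm_snd_le _)).trans (hun t ht)
    have hRR : ∀ t ∈ Icc 0 T \ J, ‖u t‖ * ‖u t‖ ≤ R * R := fun t ht =>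
      mul_le_mul (hu t ht) (hu t ht) (norm_nonneg _) ((norm_nonneg _).trans (hu t ht))
    have bN0 : ∀ t ∈ Icc 0 T \ J, ‖N0 ω (u t) (u t) n‖ ≤ (2 * H + 4) * (R * R) := fun t ht =>
      (wm_le_tsum (wm_N0 ω (u t) (u t)) n).trans (mul_le_mul_of_nonneg_left (hRR t ht) (by linarith))
    have bN1 : ∀ t ∈ Icc 0 T \ J, ‖N1 ω (u t) (u t) n‖ ≤ 3 * (H + 1) * (R * R) := fun t ht =>
      (wm_le_tsum (wm_N1 ω (u t) (u t)) n).trans (mul_le_mul_of_nonneg_left (hRR t ht) (by linarith))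
    have bN2 : ∀ t ∈ Icc 0 T \ J, ‖N2 ω (u t) (u t) n‖ ≤ 3 * (H + 2) * (R * R) := fun t ht =>
      (wm_le_tsum (wm_N2 ω (u t) (u t)) n).trans (mul_le_mul_of_nonneg_left (hRR t ht) (by linarith))
    have bR : ∀ t ∈ Icc 0 T \ J,
        ‖(Bf ω (u t) (u t) n + ((0, hc t n • fexp |ω * n|) : Yn H)).2‖ ≤ R := fun t ht =>
      (norm_snd_le _).trans ((hR t ht).2.2 n)
    -- continuity of coefficients
    have cmv := (h.wm_mv_n n).mono (sdiff_subset : Icc 0 T \ J ⊆ Icc 0 T)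
    have cmw := (h.wm_mw_n n).mono (sdiff_subset : Icc 0 T \ J ⊆ Icc 0 T)
    have cγ : ContinuousOn (fun t => (u t n).1.1) (Icc 0 T \ J) :=
      (h.wm_m1_n n).mono (sdiff_subset : Icc 0 T \ J ⊆ Icc 0 T)
    have cν : ContinuousOn (fun t => (u t n).2.1) (Icc 0 T \ J) := by
      have h1 := ((evN (Xn H) n).continuous.comp_continuousOn h.cX)
      exact (continuous_fst.comp continuous_snd).comp_continuousOn h1
    have cN0 := h.wm_cN0 (u := u) (fun t n => g1 t n) n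
    have cN1 := h.wm_N1_n n
    have cN2 := h.wm_N2_n n
    have cR : ContinuousOn
        (fun t => (Bf ω (u t) (u t) n + ((0, hc t n • fexp |ω * n|) : Yn H)).2) (Icc 0 T \ J) :=
      continuous_snd.comp_continuousOn (h.cG n)
    -- continuity of test functions
    have x2 : Continuous (uncurry (hat ω (Lop Φ₂) n)) := h2.wm_L.hat_cont ω n
    have x3 : Continuous (uncurry (hat ω (Lop Φ₃) n)) := h3.wm_L.hat_cont ω n
    have p2 : Continuous (uncurry (hat ω Φ₂ n)) := h2.hat_cont ω n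
    have p3 : Continuous (uncurry (hat ω Φ₃ n)) := h3.hat_cont ω n
    have x23 : Continuous (uncurry fun t z => hat ω (Lop Φ₂) n t z - is k * hat ω (Lop Φ₃) n t z) :=
      x2.sub (continuous_const.mul x3)
    have p23 : Continuous (uncurry fun t z => hat ω Φ₂ n t z - is k * hat ω Φ₃ n t z) :=
      p2.sub (continuous_const.mul p3)
    -- the tested equations
    have t2 := (h.wm_tested hT n h2 h3 (is k)).2
    have t1 := (h.wm_tested hT n h3 h3 0).1
    simp only [zero_mul, sub_zero, if_neg hn, add_zero, g1] at t1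
    have t1' : ∫ t in (0:ℝ)..T, ∫ z in (0:ℝ)..H, ex (u t n).1.1 z * hat ω (Lop Φ₃) n t z =
        ∫ t in (0:ℝ)..T, ∫ z in (0:ℝ)..H, ex (N0 ω (u t) (u t) n) z * hat ω Φ₃ n t z := by
      rw [t1]
      have e5 : ∀ t z, ex (Bf ω (u t) (u t) n).1 z * hat ω Φ₃ n t z =
          -(ex (N0 ω (u t) (u t) n) z * hat ω Φ₃ n t z) := by
        intro t z
        unfold Bf
        rw [ex_neg]
        ring
      simp_rw [e5]
      simp only [intervalIntegral.integral_neg, neg_neg]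
    -- left hand side
    have L1' : (∫ t in (0:ℝ)..T, ∫ z in (0:ℝ)..H, ex (mv ω (u t) n) z * hat ω (Lop Φ₂) n t z) +
      (∫ t in (0:ℝ)..T, ∫ z in (0:ℝ)..H, ex (mw ω (u t) n) z * hat ω (Lop Φ₃) n t z) =
      (∫ t in (0:ℝ)..T, ∫ z in (0:ℝ)..H, ex (u t n).2.1 z *
        (hat ω (Lop Φ₂) n t z - is k * hat ω (Lop Φ₃) n t z)) -
      ((|k| : ℝ) : ℂ)⁻¹ * ∫ t in (0:ℝ)..T, ∫ z in (0:ℝ)..H, ex (u t n).1.1 z *
        hat ω (Lop Φ₃) n t z := by
      rw [← intervalIntegral.integral_add (wm_ii h.count hT.le cmv bmv x2)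
        (wm_ii h.count hT.le cmw bmw x3), ← intervalIntegral.integral_const_mul,
        ← intervalIntegral.integral_sub (wm_ii h.count hT.le cν bν x23)
        ((wm_ii h.count hT.le cγ bγ x3).const_mul _)]
      refine intervalIntegral.integral_congr fun t _ => ?_
      have hpv := pair_vw k hk (jn (u t n)) (X2 := fun z => hat ω (Lop Φ₂) n t z)
        (X3 := fun z => hat ω (Lop Φ₃) n t z) (h2.wm_L.wm_hat_cz ω n t)
        (fun z => wm_hat_div h2.wm_L h3.wm_L (wm_div_L h2 h3 hdiv) ω n t z)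
        (h3.wm_L.wm_hat_zero (fun h => lt_irrefl _ h.1) ω n t)
        (h3.wm_L.wm_hat_zero (fun h => lt_irrefl _ h.2) ω n t)
      rw [← intervalIntegral.integral_add (wm_zi (h2.wm_L.wm_hat_cz ω n t))
        (wm_zi (h3.wm_L.wm_hat_cz ω n t))]
      exact hpv
    have L2' : (∫ t in (0:ℝ)..T, ∫ z in (0:ℝ)..H,
        ex (Bf ω (u t) (u t) n + ((0, hc t n • fexp |ω * n|) : Yn H)).2 z *
        (hat ω Φ₂ n t z - is k * hat ω Φ₃ n t z)) +
      ((|k| : ℝ) : ℂ)⁻¹ * (∫ t in (0:ℝ)..T, ∫ z in (0:ℝ)..H, ex (N0 ω (u t) (u t) n) z *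
        hat ω Φ₃ n t z) =
      -((∫ t in (0:ℝ)..T, ∫ z in (0:ℝ)..H, ex (N1 ω (u t) (u t) n) z * hat ω Φ₂ n t z) +
      ∫ t in (0:ℝ)..T, ∫ z in (0:ℝ)..H, ex (N2 ω (u t) (u t) n) z * hat ω Φ₃ n t z) := by
      rw [← intervalIntegral.integral_const_mul,
        ← intervalIntegral.integral_add (wm_ii h.count hT.le cR bR p23)
        ((wm_ii h.count hT.le cN0 bN0 p3).const_mul _),
        ← intervalIntegral.integral_add (wm_ii h.count hT.le cN1 bN1 p2)
        (wm_ii h.count hT.le cN2 bN2 p3), ← intervalIntegral.integral_neg]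
      refine intervalIntegral.integral_congr fun t _ => ?_
      have hps := pair_src k hk (N0 ω (u t) (u t) n) (N1 ω (u t) (u t) n) (N2 ω (u t) (u t) n)
        (X2 := fun z => hat ω Φ₂ n t z)
        (X3 := fun z => hat ω Φ₃ n t z) (h2.wm_hat_cz ω n t)
        (fun z => wm_hat_div h2 h3 hdiv ω n t z)
        (h3.wm_hat_zero (fun h => lt_irrefl _ h.1) ω n t)
        (h3.wm_hat_zero (fun h => lt_irrefl _ h.2) ω n t)
      rw [intervalIntegral.integral_add (wm_zi (h2.wm_hat_cz ω n t))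
        (wm_zi (h3.wm_hat_cz ω n t))] at hps
      simp only
      rw [g3 t]
      exact hps
    rw [L1', t2, t1']
    linear_combination (-1 : ℂ) * L2'

end

end Pool.Agent.Lib.MP_79abb3_an.FW
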