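import Pool.Agent.Lib.MP_79abb3_an.FW.TotBa
import Pool.Agent.Lib.MP_79abb3_an.FW.WkA

/-!
FW-64: weak formulation in the strip.
-/

set_option autoImplicit false
set_option linter.unusedSectionVars false

open MeasureTheory Set Filter Topology Function

namespace Pool.Agent.Lib.MP_79abb3_an.FW

open Pool.Agent.Lib.MP_79abb3_an.P25

section
variable {H : ℝ} [hH : Fact (0 < H)]

/-- Weak solutions `(v, w)` of the planar Navier-Stokes equations in the strip. -/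
structure Weak2 (T H : ℝ) (v w : ℝ × ℝ × ℝ → ℝ) : Prop where
  cv : ContinuousOn v (Icc 0 T ×ˢ (univ ×ˢ Icc 0 H))
  cw : ContinuousOn w (Icc 0 T ×ˢ (univ ×ˢ Icc 0 H))
  wd : ∀ Ψ, IsT3 T H Ψ → ∫ q, (v q * py Ψ q + w q * pz Ψ q) = 0
  wv : ∀ Φ₂ Φ₃, IsT3 T H Φ₂ → IsT3 T H Φ₃ → (∀ q, py Φ₂ q + pz Φ₃ q = 0) →
    ∫ q, ((v q * (pt Φ₂ q + (py (py Φ₂) q + pz (pz Φ₂) q)) +
        w q * (pt Φ₃ q + (py (py Φ₃) q + pz (pz Φ₃) q))) +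
      (v q * (v q * py Φ₂ q + w q * pz Φ₂ q) + w q * (v q * py Φ₃ q + w q * pz Φ₃ q))) = 0

/-- The weak form of the equations for the velocity. -/
theorem wm_velocity_h {ω T : ℝ} {J : Set ℝ} {P : ℝ → ℝ} {u : ℝ → L1 (Xn H)} {hc : ℝ → ℤ → ℂ}
    (hω : 0 < ω) (hT : 0 < T) (h : LT ω 0 T J P
      (fun t n => Bf ω (u t) (u t) n + ((0, hc t n • fexp |ω * n|) : Yn H)) u)
    {Φ₂ Φ₃ : ℝ × ℝ × ℝ → ℝ} (h2 : IsT3 T H Φ₂) (h3 : IsT3 T H Φ₃)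
    (hdiv : ∀ q, py Φ₂ q + pz Φ₃ q = 0) :
    ∫ q : ℝ × ℝ × ℝ, ((fld ω (mv ω (u q.1)) q.2.1 q.2.2 * (pt Φ₂ q + (py (py Φ₂) q + pz (pz Φ₂) q)) +
        fld ω (mw ω (u q.1)) q.2.1 q.2.2 * (pt Φ₃ q + (py (py Φ₃) q + pz (pz Φ₃) q))) +
      (-(fld ω (m1 (u q.1)) q.2.1 q.2.2 * (fld ω (mv ω (u q.1)) q.2.1 q.2.2 * Φ₂ q +
          fld ω (mw ω (u q.1)) q.2.1 q.2.2 * Φ₃ q)) +
        fld ω (mv ω (u q.1)) q.2.1 q.2.2 * (fld ω (mv ω (u q.1)) q.2.1 q.2.2 * py Φ₂ q +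
          fld ω (mw ω (u q.1)) q.2.1 q.2.2 * pz Φ₂ q) +
        fld ω (mw ω (u q.1)) q.2.1 q.2.2 * (fld ω (mv ω (u q.1)) q.2.1 q.2.2 * py Φ₃ q +
          fld ω (mw ω (u q.1)) q.2.1 q.2.2 * pz Φ₃ q))) = 0 := by
  have hH0 := hH.out
  obtain ⟨R, hR⟩ := h.bd
  have cg := h.wm_m1_cont
  have cv := h.wm_mv_cont
  have cw := h.wm_mw_cont
  have hu : ∀ t ∈ Icc 0 T \ J, ‖u t‖ ≤ R := fun t ht => (hR t ht).2.1
  have hRR : ∀ t ∈ Icc 0 T \ J, ‖u t‖ * ‖u t‖ ≤ R * R := fun t ht =>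
    mul_le_mul (hu t ht) (hu t ht) (norm_nonneg _) ((norm_nonneg _).trans (hu t ht))
  have sN1 : ∀ t ∈ Icc 0 T \ J, Summable (fun n => ‖N1 ω (u t) (u t) n‖) ∧
      ∑' n, ‖N1 ω (u t) (u t) n‖ ≤ 3 * (H + 1) * (R * R) := fun t ht =>
    ⟨(wm_N1 ω (u t) (u t)).1, (wm_N1 ω (u t) (u t)).2.trans
      (mul_le_mul_of_nonneg_left (hRR t ht) (by linarith))⟩
  have sN2 : ∀ t ∈ Icc 0 T \ J, Summable (fun n => ‖N2 ω (u t) (u t) n‖) ∧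
      ∑' n, ‖N2 ω (u t) (u t) n‖ ≤ 3 * (H + 2) * (R * R) := fun t ht =>
    ⟨(wm_N2 ω (u t) (u t)).1, (wm_N2 ω (u t) (u t)).2.trans
      (mul_le_mul_of_nonneg_left (hRR t ht) (by linarith))⟩
  have smv : ∀ t ∈ Icc 0 T \ J, Summable (fun n => ‖mv ω (u t) n‖) ∧
      ∑' n, ‖mv ω (u t) n‖ ≤ (H + 2) * R := fun t ht =>
    ⟨(wm_sum_le (wm_mv_le ω (u t))).1, (wm_sum_le (wm_mv_le ω (u t))).2.trans
      (mul_le_mul_of_nonneg_left (hu t ht) (by linarith))⟩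
  have smw : ∀ t ∈ Icc 0 T \ J, Summable (fun n => ‖mw ω (u t) n‖) ∧
      ∑' n, ‖mw ω (u t) n‖ ≤ (H + 1) * R := fun t ht =>
    ⟨(wm_sum_le (wm_mw_le ω (u t))).1, (wm_sum_le (wm_mw_le ω (u t))).2.trans
      (mul_le_mul_of_nonneg_left (hu t ht) (by linarith))⟩
  have q1 := pairing (ω := ω) h.count h2.wm_L smv (fun n => (h.wm_mv_n n).mono sdiff_subset)
  have q2 := pairing (ω := ω) h.count h3.wm_L smw (fun n => (h.wm_mw_n n).mono sdiff_subset)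
  have q3 := pairing (ω := ω) h.count h2 sN1 (fun n => h.wm_N1_n n)
  have q4 := pairing (ω := ω) h.count h3 sN2 (fun n => h.wm_N2_n n)
  have hA : (∫ q : ℝ × ℝ × ℝ, fld ω (mv ω (u q.1)) q.2.1 q.2.2 * Lop Φ₂ q) +
      (∫ q : ℝ × ℝ × ℝ, fld ω (mw ω (u q.1)) q.2.1 q.2.2 * Lop Φ₃ q) =
      (∫ q : ℝ × ℝ × ℝ, fld ω (N1 ω (u q.1) (u q.1)) q.2.1 q.2.2 * Φ₂ q) +
      ∫ q : ℝ × ℝ × ℝ, fld ω (N2 ω (u q.1) (u q.1)) q.2.1 q.2.2 * Φ₃ q := by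
    rw [q1.2, q2.2, q3.2, q4.2, ← Complex.add_re, ← Complex.add_re,
      ← q1.1.of_norm.tsum_add q2.1.of_norm, ← q3.1.of_norm.tsum_add q4.1.of_norm]
    congr 1
    exact tsum_congr fun n => wm_modes_h hω hT h h2 h3 hdiv n
  have iA2 := wm_int1 cv h2.wm_L
  have iA3 := wm_int1 cw h3.wm_L
  have iB : Integrable (fun q : ℝ × ℝ × ℝ => -(fld ω (m1 (u q.1)) q.2.1 q.2.2 *
      (fld ω (mv ω (u q.1)) q.2.1 q.2.2 * Φ₂ q + fld ω (mw ω (u q.1)) q.2.1 q.2.2 * Φ₃ q)) +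
        fld ω (mv ω (u q.1)) q.2.1 q.2.2 * (fld ω (mv ω (u q.1)) q.2.1 q.2.2 * py Φ₂ q +
          fld ω (mw ω (u q.1)) q.2.1 q.2.2 * pz Φ₂ q) +
        fld ω (mw ω (u q.1)) q.2.1 q.2.2 * (fld ω (mv ω (u q.1)) q.2.1 q.2.2 * py Φ₃ q +
          fld ω (mw ω (u q.1)) q.2.1 q.2.2 * pz Φ₃ q)) := by
    have i1 := wm_int1 (cg.mul cv) h2
    have i2 := wm_int1 (cg.mul cw) h3
    have i3 := wm_int1 (cv.mul cv) h2.d_y
    have i4 := wm_int1 (cv.mul cw) h2.d_z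
    have i5 := wm_int1 (cw.mul cv) h3.d_y
    have i6 := wm_int1 (cw.mul cw) h3.d_z
    refine (((((i3.add i4).add i5).add i6).sub i1).sub i2).congr (ae_of_all _ fun q => ?_)
    simp only [Pi.add_apply, Pi.sub_apply, Pi.mul_apply]
    ring
  have iN1 := wm_int2 (ω := ω) h.count h2 sN1 (fun n => h.wm_N1_n n)
  have iN2 := wm_int2 (ω := ω) h.count h3 sN2 (fun n => h.wm_N2_n n)
  have hB : ∫ q : ℝ × ℝ × ℝ, (-(fld ω (m1 (u q.1)) q.2.1 q.2.2 *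
      (fld ω (mv ω (u q.1)) q.2.1 q.2.2 * Φ₂ q + fld ω (mw ω (u q.1)) q.2.1 q.2.2 * Φ₃ q)) +
        fld ω (mv ω (u q.1)) q.2.1 q.2.2 * (fld ω (mv ω (u q.1)) q.2.1 q.2.2 * py Φ₂ q +
          fld ω (mw ω (u q.1)) q.2.1 q.2.2 * pz Φ₂ q) +
        fld ω (mw ω (u q.1)) q.2.1 q.2.2 * (fld ω (mv ω (u q.1)) q.2.1 q.2.2 * py Φ₃ q +
          fld ω (mw ω (u q.1)) q.2.1 q.2.2 * pz Φ₃ q)) =
      ∫ q : ℝ × ℝ × ℝ, -(fld ω (N1 ω (u q.1) (u q.1)) q.2.1 q.2.2 * Φ₂ q +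
        fld ω (N2 ω (u q.1) (u q.1)) q.2.1 q.2.2 * Φ₃ q) := by
    refine wm_fub h.count iB (iN1.add iN2).neg fun t ht => ?_
    by_cases htT : t ∈ Ioo 0 T
    · have ht' : t ∈ Icc 0 T \ J := ⟨Ioo_subset_Icc_self htT, ht⟩
      obtain ⟨C0, hC0, hfa⟩ := fieldAt H
      have su := sy_of_cmode (h.cm t ht') (h.sy t ht'.1)
      obtain ⟨vy, vz, wy, wz, hF⟩ := hfa ω (u t) (h.cm t ht') su
      have h4 := hF.parts2 h2 h3 hdiv t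
      refine h4.trans ?_
      refine integral_congr_ae (ae_of_all _ fun p => ?_)
      simp only
      rw [(fld_N su su p.1 p.2).2.1, (fld_N su su p.1 p.2).2.2]
      ring
    · have z0 : ∀ {Θ : ℝ × ℝ × ℝ → ℝ}, IsT3 T H Θ → ∀ p, Θ (t, p) = 0 := fun hΘ p => hΘ.wm_zero htT p
      simp only [z0 h2, z0 h2.d_y, z0 h2.d_z, z0 h3, z0 h3.d_y, z0 h3.d_z, mul_zero, add_zero, neg_zero]
  have e : ∀ (Ψ : ℝ × ℝ × ℝ → ℝ) (q : ℝ × ℝ × ℝ), pt Ψ q + (py (py Ψ) q + pz (pz Ψ) q) = Lop Ψ q :=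
    fun Ψ q => rfl
  simp_rw [e]
  have iA23 : Integrable (fun q : ℝ × ℝ × ℝ => fld ω (mv ω (u q.1)) q.2.1 q.2.2 * Lop Φ₂ q +
      fld ω (mw ω (u q.1)) q.2.1 q.2.2 * Lop Φ₃ q) := iA2.add iA3
  rw [integral_add iA23 iB, hB, integral_neg, integral_add iN1 iN2, ← hA, integral_add iA2 iA3]
  ring

theorem HT.weak {ω T : ℝ} (hω : 0 < ω) (hT : 0 < T) {u : ℝ → L1 (Xn H)} (h : HT ω 0 T u) :
    Weak2 T H (fun q => fld ω (mv ω (u q.1)) q.2.1 q.2.2) (fun q => fld ω (mw ω (u q.1)) q.2.1 q.2.2) := by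
  obtain ⟨J, hc, hu, h0⟩ := h
  have hm : ∀ t ∈ Icc 0 T, ∀ y z, fld ω (m1 (u t)) y z = 0 := by
    intro t ht y z
    refine fld_zero_of ω (fun n => ?_) y
    have h1 : m1 (u t) n = 0 := by
      show (u t n).1.1 = 0
      rw [h0 t ht n]
      rfl
    rw [h1, ex_zero]
  refine ⟨hu.wm_mv_cont.mono (prod_mono subset_rfl (subset_univ _)),
    hu.wm_mw_cont.mono (prod_mono subset_rfl (subset_univ _)), ?_, ?_⟩
  · intro Ψ hΨ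
    have i2 := wm_int1 hu.wm_mv_cont hΨ.d_y
    have i3 := wm_int1 hu.wm_mw_cont hΨ.d_z
    have e : ∫ q : ℝ × ℝ × ℝ, (fld ω (mv ω (u q.1)) q.2.1 q.2.2 * py Ψ q +
        fld ω (mw ω (u q.1)) q.2.1 q.2.2 * pz Ψ q) =
        ∫ q : ℝ × ℝ × ℝ, (0:ℝ) := by
      refine wm_fub hu.count (i2.add i3) (integrable_zero _ _ _) fun t ht => ?_
      by_cases htT : t ∈ Ioo 0 T
      · have ht' : t ∈ Icc 0 T \ J := ⟨Ioo_subset_Icc_self htT, ht⟩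
        obtain ⟨C0, hC0, hfa⟩ := fieldAt H
        have su := sy_of_cmode (hu.cm t ht') (hu.sy t ht'.1)
        obtain ⟨vy, vz, wy, wz, hF⟩ := hfa ω (u t) (hu.cm t ht') su
        rw [integral_zero]
        have h3 := hF.parts3 hΨ t
        refine Eq.trans (integral_congr_ae (ae_of_all _ fun p => ?_)) h3
        simp only
        rw [hm t ht'.1, zero_mul, neg_zero, zero_add]
      · have z0 : ∀ {Θ : ℝ × ℝ × ℝ → ℝ}, IsT3 T H Θ → ∀ p, Θ (t, p) = 0 :=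
          fun hΘ p => hΘ.wm_zero htT p
        simp only [z0 hΨ.d_y, z0 hΨ.d_z, mul_zero, add_zero]
    rw [e, integral_zero]
  · intro Φ₂ Φ₃ h2 h3 hdiv
    have hv := wm_velocity_h hω hT hu h2 h3 hdiv
    refine Eq.trans (integral_congr_ae (ae_of_all _ fun q => ?_)) hv
    have hz : fld ω (m1 (u q.1)) q.2.1 q.2.2 * (fld ω (mv ω (u q.1)) q.2.1 q.2.2 * Φ₂ q +
        fld ω (mw ω (u q.1)) q.2.1 q.2.2 * Φ₃ q) = 0 := by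
      by_cases htT : q.1 ∈ Ioo 0 T
      · rw [hm q.1 (Ioo_subset_Icc_self htT), zero_mul]
      · have e2 : Φ₂ q = 0 := h2.wm_zero htT q.2
        have e3 : Φ₃ q = 0 := h3.wm_zero htT q.2
        rw [e2, e3, mul_zero, mul_zero, add_zero, mul_zero]
    simp only
    rw [hz, neg_zero, zero_add]

end

end Pool.Agent.Lib.MP_79abb3_an.FW
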