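import Pool.Agent.Lib.MP_79abb3_an.FW.Def2
import Pool.Agent.Lib.MP_79abb3_an.FW.WkB
import Pool.Agent.Lib.MP_79abb3_an.P25.Main3a

/-!
FW-66: from the strip to the domain.
-/

set_option autoImplicit false
set_option linter.unusedSectionVars false

open MeasureTheory Set Filter Topology Function

namespace Pool.Agent.Lib.MP_79abb3_an.FW

open Pool.Agent.Lib.MP_79abb3_an.P25

section
variable {H : ℝ} [hH : Fact (0 < H)]

theorem traj2 {ω T r : ℝ} (hω : 0 < ω) (hT : 0 < T) (hrH : r < H) {u : ℝ → L1 (Xn H)}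
    (h : HT ω 0 T u) {Ω Γ : Set (ℝ × ℝ)} (hpos : ∀ q ∈ Ω, 0 < q.2) (hΓ : ∀ q ∈ frontier Ω \ Γ, q.2 = 0)
    (hcl : ∀ q ∈ closure Ω, |q.1| ≤ r ∧ q.2 ∈ Icc 0 r) :
    IsTraj2 Ω Γ T (fun q => fld ω (mv ω (u q.1)) q.2.1 q.2.2)
      (fun q => fld ω (mw ω (u q.1)) q.2.1 q.2.2) := by
  have hw := HT.weak hω hT h
  obtain ⟨J, hc, hlt, -⟩ := h
  obtain ⟨K, hK⟩ := lip_of_modes hT hlt
  have hstrip : closure Ω ⊆ (univ : Set ℝ) ×ˢ Icc 0 H := fun q hq =>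
    ⟨mem_univ _, (hcl q hq).2.1, (hcl q hq).2.2.trans hrH.le⟩
  have hsub : Icc 0 T ×ˢ closure Ω ⊆ Icc 0 T ×ˢ ((univ : Set ℝ) ×ˢ Icc 0 H) :=
    prod_mono le_rfl hstrip
  have hΩ : Ω ⊆ (univ : Set ℝ) ×ˢ Ioo 0 H := fun q hq =>
    ⟨mem_univ _, hpos q hq, (hcl q (subset_closure hq)).2.2.trans_lt hrH⟩
  have htest : ∀ φ : ℝ × ℝ × ℝ → ℝ, IsTest2 T Ω φ → IsT3 T H φ := fun φ hφ =>
    ⟨hφ.smooth, hφ.cpt, hφ.supp.trans (prod_mono le_rfl hΩ)⟩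
  refine
  { cont₁ := hw.cv.mono hsub
    cont₂ := hw.cw.mono hsub
    lip := ⟨K, fun t ht => ⟨(hK t ht).2.1.mono hstrip, (hK t ht).2.2.mono hstrip⟩⟩
    wall := ?_
    div := fun φ hφ => hw.wd φ (htest φ hφ)
    ns := ?_ }
  · intro t ht q hq
    have hz := hΓ q hq
    have z1 := hlt.z t ht
    show fld ω (mv ω (u t)) q.1 q.2 = 0 ∧ fld ω (mw ω (u t)) q.1 q.2 = 0
    rw [hz]
    exact ⟨fld_zero_wall (fun n => mv_wall ω (u t) n (z1 n).2) q.1,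
      fld_zero_wall (fun n => mw_wall ω (u t) n) q.1⟩
  · intro φ ψ hφ hψ hdiv
    rw [← hw.wv φ ψ (htest φ hφ) (htest ψ hψ) hdiv]
    refine integral_congr_ae (ae_of_all _ fun q => ?_)
    simp only
    ring

end

end Pool.Agent.Lib.MP_79abb3_an.FW
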