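import Pool.Agent.Lib.MP_79abb3_an.FW.MnB
import Pool.Agent.Lib.MP_79abb3_an.FW.TrA

/-!
FW-82: the theorem.
-/

set_option autoImplicit false
set_option linter.unusedSectionVars false

open MeasureTheory Set Filter Topology Function

namespace Pool.Agent.Lib.MP_79abb3_an.FW

open Pool.Agent.Lib.MP_79abb3_an.P25

section
variable {H : ℝ} [hH : Fact (0 < H)]

private theorem mnc_mw (ω : ℝ) (x : L1 (Xn H)) (n : ℤ) (h : jn (x n) = 0) : mw ω x n = 0 := by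
  have h1 : P25.om (ω * n) (0 : Yn H) = 0 := by
    rw [P25.om]
    show -(Eop _ (0 : CI H)) - _ • Eop _ (0 : CI H) = 0
    rw [(Eop _).map_zero]
    ext z
    simp
  rw [mw, h]
  exact h1

private theorem mnc_mv (ω : ℝ) (x : L1 (Xn H)) (n : ℤ) (h : jn (x n) = 0) : mv ω x n = 0 := by
  have h1 := mnc_mw ω x n h
  rw [mw, h] at h1
  rw [mv, h, vv, h1]
  ext z
  show (0 : ℂ) - is _ • (0 : ℂ) = 0
  simp

private theorem mnc_bounds {Ω : Set (ℝ × ℝ)} (hb : Bornology.IsBounded Ω) (hpos : ∀ q ∈ Ω, 0 < q.2) :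
    ∃ r : ℝ, 1 ≤ r ∧ ∀ q ∈ closure Ω, |q.1| ≤ r ∧ q.2 ∈ Icc 0 r := by
  obtain ⟨r0, hr0⟩ := hb.subset_closedBall (0 : ℝ × ℝ)
  have hsub : closure Ω ⊆ Metric.closedBall (0 : ℝ × ℝ) (max r0 1) :=
    closure_minimal (hr0.trans (Metric.closedBall_subset_closedBall (le_max_left _ _)))
      Metric.isClosed_closedBall
  refine ⟨max r0 1, le_max_right _ _, fun q hq => ?_⟩
  have h1 := hsub hq
  rw [mem_closedBall_zero_iff] at h1
  have h2 : 0 ≤ q.2 := by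
    have : closure Ω ⊆ {q : ℝ × ℝ | 0 ≤ q.2} :=
      closure_minimal (fun p hp => (hpos p hp).le) (isClosed_le continuous_const continuous_snd)
    exact this hq
  have h5 : |q.2| ≤ max r0 1 := (norm_snd_le q).trans h1
  exact ⟨(norm_fst_le q).trans h1, h2, (le_abs_self _).trans h5⟩

end

theorem main2 {Ω Γ : Set (ℝ × ℝ)} (hb : Bornology.IsBounded Ω) (hpos : ∀ q ∈ Ω, 0 < q.2)
    (hΓ : ∀ q ∈ frontier Ω \ Γ, q.2 = 0) {T : ℝ} (hT : 0 < T) {v₀ w₀ : ℝ × ℝ → ℝ}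
    (hv : ContDiff ℝ 4 v₀) (hw : ContDiff ℝ 4 w₀)
    (hd : ∀ p, fderiv ℝ v₀ p (1, 0) + fderiv ℝ w₀ p (0, 1) = 0) (bv : ∀ y, v₀ (y, 0) = 0)
    (bw : ∀ y, w₀ (y, 0) = 0) :
    ∃ v w : ℝ × ℝ × ℝ → ℝ, IsTraj2 Ω Γ T v w ∧
      (∀ q ∈ closure Ω, v (0, q) = v₀ q ∧ w (0, q) = w₀ q) ∧
      ∀ q ∈ closure Ω, v (T, q) = 0 ∧ w (T, q) = 0 := by
  obtain ⟨r, hr1, hcl⟩ := mnc_bounds hb hpos
  have : Fact (0 < r + 2) := ⟨by linarith⟩
  have hω : Real.pi / (r + 2) * (r + 2) = Real.pi := by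
    field_simp
  have hω0 : 0 < Real.pi / (r + 2) := by
    have := Real.pi_pos
    positivity
  obtain ⟨c, c1, hc, hdat⟩ := data2 (r := r) (by linarith) hv hw hd bv bw
  obtain ⟨u, hu, hu0, huT⟩ := main_modes hω (by linarith) hc hT
  refine ⟨_, _, traj2 hω0 hT (r := r) (by linarith) hu hpos hΓ hcl, ?_, ?_⟩
  · intro q hq
    have h1 := hcl q hq
    have h2 := hdat q.1 q.2 h1.1 h1.2
    have e1 : mv (Real.pi / (r + 2)) (u 0) =
        fv (Real.pi / (r + 2)) (dst (Real.pi / (r + 2)) c) := by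
      funext n
      rw [mv, hu0 n]
      rfl
    have e2 : mw (Real.pi / (r + 2)) (u 0) =
        fw (Real.pi / (r + 2)) (dst (Real.pi / (r + 2)) c) := by
      funext n
      rw [mw, hu0 n]
      rfl
    show fld _ (mv _ (u 0)) q.1 q.2 = v₀ q ∧ fld _ (mw _ (u 0)) q.1 q.2 = w₀ q
    rw [e1, e2]
    exact h2
  · intro q _
    exact ⟨fld_of_zero (fun n => mnc_mv _ _ n (huT n)) _ _,
      fld_of_zero (fun n => mnc_mw _ _ n (huT n)) _ _⟩

end Pool.Agent.Lib.MP_79abb3_an.FW
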