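import Pool.Agent.Lib.MP_79abb3_an.FW.HEe
import Pool.Agent.Lib.MP_79abb3_an.FW.NormsC
import Pool.Agent.Lib.MP_79abb3_an.FW.SumsA
import Pool.Agent.Lib.MP_79abb3_an.FW.YoungB
import Pool.Agent.Lib.MP_79abb3_an.P25.FieldAt
import Pool.Agent.Lib.MP_79abb3_an.P25.MildMode

/-!
FW-70: the first component stays zero.
-/

set_option autoImplicit false
set_option linter.unusedSectionVars false

attribute [-instance] PreLp.ring SubfieldClass.toSubringClass SubringClass.toSubsemiringClass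
  NonUnitalSubringClass.toNonUnitalSubsemiringClass RingConeClass.toSubsemiringClass
  SubsemiringClass.nonUnitalSubsemiringClass SubringClass.nonUnitalSubringClass
  AddSubgroup.seminormedAddCommGroup SetLike.GradeZero.instSemiring SetLike.GradeZero.instCommRing
  SetLike.GradeZero.instCommSemiring SetLike.GradeZero.instRing LieAdmissibleAlgebra.toModule
  RightPreLieAlgebra.toModule LeftPreLieAlgebra.toModule

open MeasureTheory Set Filter Topology Function

namespace Pool.Agent.Lib.MP_79abb3_an.FW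

open Pool.Agent.Lib.MP_79abb3_an.P25

section
variable {H : ℝ} [hH : Fact (0 < H)]

private theorem nc_smul0 (c : ℂ) : c • (0 : CI H) = 0 :=
  ci_ext fun z _ => by rw [ex_smul, ex_zero, mul_zero]

private theorem nc_bp_cont : Continuous fun p : CI H × CI H => bpJ p.1 p.2 := by
  have hH0 := hH.out
  have h : IsBoundedBilinearMap ℝ (fun p : CI H × CI H => bpJ p.1 p.2) :=
    { add_left := fun f f' g => bpJ_add_left f f' g
      smul_left := fun c f g => by
        show bpJ (c • f) g = c • bpJ f g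
        rw [bpJ_rsmul_left, Complex.real_smul]
      add_right := fun f g g' => by
        show bpJ f (g + g') = bpJ f g + bpJ f g'
        rw [bpJ_comm, bpJ_add_left, bpJ_comm g, bpJ_comm g']
      smul_right := fun c f g => by
        show bpJ f (c • g) = c • bpJ f g
        rw [bpJ_comm, bpJ_rsmul_left, Complex.real_smul, bpJ_comm g]
      bound := ⟨H, hH0, fun f g => by
        refine (norm_bpJ_le f g).trans ?_
        have h1 := n2_le_norm f
        have h2 := n2_le_norm g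
        have h3 := n2_nonneg g
        have h4 := Real.sq_sqrt hH0.le
        calc n2 f * n2 g ≤ (√H * ‖f‖) * (√H * ‖g‖) := by gcongr
          _ = √H ^ 2 * ‖f‖ * ‖g‖ := by ring
          _ = H * ‖f‖ * ‖g‖ := by rw [h4]⟩ }
  exact h.continuous

/-- `2 Re ∫ G conj g - 2 |g'|² - 2 k² |g|²` -/
private noncomputable def ncE (k : ℝ) (G g g1 : CI H) : ℝ :=
  2 * (bpJ G (star g)).re - 2 * n2 g1 ^ 2 - 2 * (k ^ 2 * n2 g ^ 2)

private theorem nc_energy {k a b : ℝ} {f f1 G : ℝ → CI H} (h : HE k a b f f1 G)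
    (h0 : ∀ t ∈ Icc a b, ex (f t) 0 = 0) (h1 : ∀ t ∈ Icc a b, ex (f t) H = 0) :
    ∀ t ∈ Icc a b, HasDerivWithinAt (fun t => n2 (f t) ^ 2) (ncE k (G t) (f t) (f1 t))
      (Icc a b) t := by
  intro t ht
  have h2 := h.energy (W := fun _ => 1) (W1 := fun _ => 0) continuous_const continuous_const
    (fun z => hasDerivAt_const z (1:ℝ)) h1 (Or.inr h0) t ht
  have e1 : (fun t => ∫ z in (0:ℝ)..H, (1:ℝ) * ‖ex (f t) z‖ ^ 2) = fun t => n2 (f t) ^ 2 := by
    funext t
    rw [n2_sq]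
    simp only [one_mul]
  rw [e1] at h2
  refine h2.congr_deriv ?_
  have c1 := continuous_ex (f t)
  have c2 := continuous_ex (f1 t)
  have c3 := continuous_ex (G t)
  have i1 : IntervalIntegrable (fun z => (ex (G t) z * star (ex (f t) z)).re) volume 0 H :=
    Continuous.intervalIntegrable (by fun_prop) _ _
  have i2 : IntervalIntegrable (fun z => ‖ex (f1 t) z‖ ^ 2) volume 0 H :=
    Continuous.intervalIntegrable (by fun_prop) _ _
  have i3 : IntervalIntegrable (fun z => ‖ex (f t) z‖ ^ 2) volume 0 H :=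
    Continuous.intervalIntegrable (by fun_prop) _ _
  have e2 : ∀ z : ℝ, (2 * (1:ℝ) * ((ex (G t) z * star (ex (f t) z)).re - ‖ex (f1 t) z‖ ^ 2 -
      k ^ 2 * ‖ex (f t) z‖ ^ 2) - 2 * (0:ℝ) * (ex (f1 t) z * star (ex (f t) z)).re) =
      2 * ((ex (G t) z * star (ex (f t) z)).re) - 2 * ‖ex (f1 t) z‖ ^ 2 -
        2 * k ^ 2 * ‖ex (f t) z‖ ^ 2 := fun z => by ring
  simp_rw [e2]
  rw [intervalIntegral.integral_sub ((i1.const_mul 2).sub (i2.const_mul 2)) (i3.const_mul _),
    intervalIntegral.integral_sub (i1.const_mul 2) (i2.const_mul 2),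
    intervalIntegral.integral_const_mul, intervalIntegral.integral_const_mul,
    intervalIntegral.integral_const_mul, ← n2_sq, ← n2_sq, ncE]
  have e3 : ∫ z in (0:ℝ)..H, (ex (G t) z * star (ex (f t) z)).re = (bpJ (G t) (star (f t))).re := by
    unfold bpJ
    simp only [ex_star]
    have cc : Continuous fun z => ex (G t) z * star (ex (f t) z) := by fun_prop
    exact Complex.reCLM.intervalIntegral_comp_comm (cc.intervalIntegrable _ _)
  rw [e3]
  ring

private theorem nc_lin (A : ℤ → Xn H → CI H) (hA : ∀ n x, ‖A n x‖ ≤ (H + 2) * ‖x‖)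
    (v : L1 (Xn H)) : (Summable fun n => ‖A n (v n)‖) ∧ ∑' n, ‖A n (v n)‖ ≤ (H + 2) * ‖v‖ := by
  have h1 := (l1_summable v).mul_left (H + 2)
  have h2 : Summable fun n => ‖A n (v n)‖ :=
    Summable.of_nonneg_of_le (fun _ => norm_nonneg _) (fun n => hA n (v n)) h1
  refine ⟨h2, ?_⟩
  rw [l1_norm, ← tsum_mul_left]
  exact h2.tsum_le_tsum (fun n => hA n (v n)) h1

private theorem nc_cv (A B : ℤ → Xn H → CI H) (hA : ∀ n x, ‖A n x‖ ≤ (H + 2) * ‖x‖)
    (hB : ∀ n x, ‖B n x‖ ≤ ‖x‖) (v x : L1 (Xn H)) :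
    (Summable fun n => n2 (conv (fun m => A m (v m)) (fun m => B m (x m)) n) ^ 2) ∧
      ∑' n, n2 (conv (fun m => A m (v m)) (fun m => B m (x m)) n) ^ 2 ≤
        ((H + 2) * ‖v‖) ^ 2 * ∑' n, n2 (B n (x n)) ^ 2 := by
  obtain ⟨s1, b1⟩ := nc_lin A hA v
  have s2 : Summable fun n => ‖B n (x n)‖ :=
    Summable.of_nonneg_of_le (fun _ => norm_nonneg _) (fun n => hB n (x n)) (l1_summable x)
  obtain ⟨h1, h2⟩ := conv_l2l2 s1 s2
  refine ⟨h1, h2.trans ?_⟩
  have h3 : 0 ≤ ∑' n, ‖A n (v n)‖ := tsum_nonneg fun _ => norm_nonneg _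
  have h4 : 0 ≤ ∑' n, n2 (B n (x n)) ^ 2 := tsum_nonneg fun _ => sq_nonneg _
  gcongr

/-- `n2(g)² + n2(g')² + n2(|k|g)²` -/
private noncomputable def ncD (x : Xn H) : ℝ := n2 x.1.1 ^ 2 + n2 x.1.2.1 ^ 2 + n2 x.1.2.2 ^ 2

private theorem ncD_nonneg (x : Xn H) : 0 ≤ ncD x := by unfold ncD; positivity

private theorem nc_sq_sum (x : L1 (Xn H)) : (Summable fun n => ‖x n‖ ^ 2) ∧
    ∑' n, ‖x n‖ ^ 2 ≤ ‖x‖ ^ 2 := by
  have h1 := l1_summable x
  have hle : ∀ n, ‖x n‖ ^ 2 ≤ ‖x‖ * ‖x n‖ := fun n => by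
    rw [sq]
    exact mul_le_mul_of_nonneg_right (lp.norm_apply_le_norm one_ne_zero x n) (norm_nonneg _)
  have h2 := h1.mul_left ‖x‖
  have h3 : Summable fun n => ‖x n‖ ^ 2 := Summable.of_nonneg_of_le (fun _ => sq_nonneg _) hle h2
  refine ⟨h3, (h3.tsum_le_tsum hle h2).trans ?_⟩
  rw [tsum_mul_left, ← l1_norm, sq]

private theorem ncD_le (x : Xn H) : ncD x ≤ 3 * H * ‖x‖ ^ 2 := by
  have hH0 := hH.out
  have h4 := Real.sq_sqrt hH0.le
  have key : ∀ f : CI H, ‖f‖ ≤ ‖x‖ → n2 f ^ 2 ≤ H * ‖x‖ ^ 2 := fun f hf => by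
    have h1 := n2_le_norm f
    have h2 := n2_nonneg f
    calc n2 f ^ 2 ≤ (√H * ‖x‖) ^ 2 := by
          gcongr
          exact h1.trans (by gcongr)
      _ = √H ^ 2 * ‖x‖ ^ 2 := by ring
      _ = H * ‖x‖ ^ 2 := by rw [h4]
  have h1 := key x.1.1 ((norm_fst_le _).trans (norm_fst_le x))
  have h2 := key x.1.2.1 ((norm_fst_le _).trans ((norm_snd_le _).trans (norm_fst_le x)))
  have h3 := key x.1.2.2 ((norm_snd_le _).trans ((norm_snd_le _).trans (norm_fst_le x)))
  unfold ncD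
  linarith

private theorem ncD_sum (x : L1 (Xn H)) : (Summable fun n => ncD (x n)) ∧
    ∑' n, ncD (x n) ≤ 3 * H * ‖x‖ ^ 2 := by
  obtain ⟨h1, h2⟩ := nc_sq_sum x
  have hH0 := hH.out
  have h3 : Summable fun n => ncD (x n) :=
    Summable.of_nonneg_of_le (fun n => ncD_nonneg _) (fun n => ncD_le (x n)) (h1.mul_left (3 * H))
  refine ⟨h3, (h3.tsum_le_tsum (fun n => ncD_le (x n)) (h1.mul_left (3 * H))).trans ?_⟩
  rw [tsum_mul_left]
  gcongr

/-- The transport term. -/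
private theorem nc_N0 (ω : ℝ) (v x : L1 (Xn H)) :
    (Summable fun n => n2 (N0 ω v x n) ^ 2) ∧
      ∑' n, n2 (N0 ω v x n) ^ 2 ≤ 3 * ((H + 2) * ‖v‖) ^ 2 * ∑' n, ncD (x n) := by
  have hH0 := hH.out
  obtain ⟨s1, b1⟩ := nc_cv (fun n x => vv (ω * n) (jn x)) (fun n x => is (ω * n) • x.1.2.2)
    (fun n x => (norm_vv_le _ _).trans (by
      have := norm_jnL_le x
      rw [jnL_apply, one_mul] at this
      gcongr))
    (fun n x => by
      rw [norm_smul]
      exact (mul_le_of_le_one_left (norm_nonneg _) (norm_is_le _)).trans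
        ((norm_snd_le _).trans ((norm_snd_le _).trans (norm_fst_le x)))) v x
  obtain ⟨s2, b2⟩ := nc_cv (fun n x => om (ω * n) (jn x)) (fun n x => x.1.2.1)
    (fun n x => (norm_om_le _ _).trans (by
      have := norm_jnL_le x
      rw [jnL_apply, one_mul] at this
      gcongr
      norm_num))
    (fun n x => (norm_fst_le _).trans ((norm_snd_le _).trans (norm_fst_le x))) v x
  obtain ⟨s3, b3⟩ := nc_cv (fun n x => x.1.1) (fun n x => x.1.1)
    (fun n x => by
      have h1 : ‖x.1.1‖ ≤ ‖x‖ := (norm_fst_le _).trans (norm_fst_le x)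
      have h2 := norm_nonneg x
      nlinarith)
    (fun n x => (norm_fst_le _).trans (norm_fst_le x)) v x
  have hle : ∀ n, n2 (N0 ω v x n) ^ 2 ≤
      3 * (n2 (conv (fun m => vv (ω * m) (jn (v m))) (fun m => is (ω * m) • (x m).1.2.2) n) ^ 2 +
      n2 (conv (fun m => om (ω * m) (jn (v m))) (fun m => (x m).1.2.1) n) ^ 2 +
      n2 (conv (fun m => (v m).1.1) (fun m => (x m).1.1) n) ^ 2) := by
    intro n
    have h0 := n2_nonneg (N0 ω v x n)
    have h1 : n2 (N0 ω v x n) ≤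
      n2 (conv (fun m => vv (ω * m) (jn (v m))) (fun m => is (ω * m) • (x m).1.2.2) n) +
      n2 (conv (fun m => om (ω * m) (jn (v m))) (fun m => (x m).1.2.1) n) +
      n2 (conv (fun m => (v m).1.1) (fun m => (x m).1.1) n) := by
      unfold N0
      refine (n2_add _ _).trans ?_
      gcongr
      exact n2_add _ _
    generalize n2 (conv (fun m => vv (ω * m) (jn (v m))) (fun m => is (ω * m) • (x m).1.2.2) n) = p
      at *
    generalize n2 (conv (fun m => om (ω * m) (jn (v m))) (fun m => (x m).1.2.1) n) = q at *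
    generalize n2 (conv (fun m => (v m).1.1) (fun m => (x m).1.1) n) = r at *
    calc n2 (N0 ω v x n) ^ 2 ≤ (p + q + r) ^ 2 := by gcongr
      _ ≤ 3 * (p ^ 2 + q ^ 2 + r ^ 2) := by
        nlinarith [sq_nonneg (p - q), sq_nonneg (q - r), sq_nonneg (p - r)]
  have s4 := ((s1.add s2).add s3).mul_left 3
  have s5 : Summable fun n => n2 (N0 ω v x n) ^ 2 :=
    Summable.of_nonneg_of_le (fun _ => sq_nonneg _) hle s4
  refine ⟨s5, (s5.tsum_le_tsum hle s4).trans ?_⟩
  rw [tsum_mul_left, (s1.add s2).tsum_add s3, s1.tsum_add s2]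
  have g1 := (n2_summable (f := fun n => (x n).1.1) (Summable.of_nonneg_of_le
    (fun _ => norm_nonneg _) (fun n => (norm_fst_le _).trans (norm_fst_le (x n)))
    (l1_summable x))).2
  have g2 := (n2_summable (f := fun n => (x n).1.2.1) (Summable.of_nonneg_of_le
    (fun _ => norm_nonneg _) (fun n => (norm_fst_le _).trans ((norm_snd_le _).trans
      (norm_fst_le (x n)))) (l1_summable x))).2
  have g3 := (n2_summable (f := fun n => (x n).1.2.2) (Summable.of_nonneg_of_le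
    (fun _ => norm_nonneg _) (fun n => (norm_snd_le _).trans ((norm_snd_le _).trans
      (norm_fst_le (x n)))) (l1_summable x))).2
  have g4 : ∀ n : ℤ, n2 (is (ω * n) • (x n).1.2.2) ^ 2 ≤ n2 (x n).1.2.2 ^ 2 := fun n => by
    rw [n2_smul, mul_pow]
    exact mul_le_of_le_one_left (sq_nonneg _) (pow_le_one₀ (norm_nonneg _) (norm_is_le _))
  have g5 : ∑' n : ℤ, n2 (is (ω * n) • (x n).1.2.2) ^ 2 ≤ ∑' n, n2 (x n).1.2.2 ^ 2 :=
    (Summable.of_nonneg_of_le (fun _ => sq_nonneg _) g4 g3).tsum_le_tsum g4 g3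
  have e1 : ∑' n, ncD (x n) = (∑' n, n2 (x n).1.1 ^ 2) + (∑' n, n2 (x n).1.2.1 ^ 2) +
      ∑' n, n2 (x n).1.2.2 ^ 2 := by
    unfold ncD
    rw [(g1.add g2).tsum_add g3, g1.tsum_add g2]
  rw [e1]
  have hK : 0 ≤ ((H + 2) * ‖v‖) ^ 2 := sq_nonneg _
  have b1' := b1.trans (mul_le_mul_of_nonneg_left g5 hK)
  linarith

theorem pt_first_zero {ω a b : ℝ} {U : ℝ → L1 (Xn H)} {F : ℝ → L1 (Yn H)} {u : ℝ → L1 (Xn H)}
    (h : PT ω a b U F u) (cU : ContinuousOn U (Icc a b)) (hU : ∀ t ∈ Icc a b, ∀ n, (U t n).1 = 0)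
    (hF : ∀ t ∈ Icc a b, ∀ n, (F t n).1 = 0) (h0 : ∀ n, (u a n).1 = 0) :
    ∀ t ∈ Icc a b, ∀ n, (u t n).1 = 0 := by
  intro t0 ht0
  have hH0 := hH.out
  have hab : a ≤ b := ht0.1.trans ht0.2
  have cu : ContinuousOn u (Icc a b) := by
    have := h.lt.cX
    rwa [sdiff_empty] at this
  obtain ⟨M1, hM1⟩ := isCompact_Icc.exists_bound_of_continuousOn cu
  obtain ⟨M2, hM2⟩ := isCompact_Icc.exists_bound_of_continuousOn cU
  obtain ⟨M, hM0, hMu, hMU⟩ : ∃ M : ℝ, 0 ≤ M ∧ (∀ t ∈ Icc a b, ‖u t‖ ≤ M) ∧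
      ∀ t ∈ Icc a b, ‖U t‖ ≤ M :=
    ⟨max M1 M2, (norm_nonneg _).trans ((hM1 t0 ht0).trans (le_max_left _ _)),
      fun t ht => (hM1 t ht).trans (le_max_left _ _),
      fun t ht => (hM2 t ht).trans (le_max_right _ _)⟩
  -- the equation
  have hHE : ∀ n : ℤ, HE (ω * n) a b (fun t => (u t n).1.1) (fun t => (u t n).1.2.1)
      (fun t => (src ω U u F t n).1) := by
    intro n
    have c1 : ContinuousOn (fun t => u t n) (Icc a b) :=
      (evN (Xn H) n).continuous.comp_continuousOn cu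
    refine ⟨c1.fst.fst, c1.fst.snd.fst, ?_, fun t ht => (h.dm t ht n).d1, ?_⟩
    · have := h.lt.cG n
      rw [sdiff_empty] at this
      exact this.fst
    · intro y hy t1 ht1 t2 ht2
      rw [h.lt.eq n y hy t1 ht1 t2 ht2]
      refine intervalIntegral.integral_congr fun s _ => ?_
      simp
  -- the source
  have hG : ∀ t ∈ Icc a b, ∀ n, (src ω U u F t n).1 =
      -(N0 ω (U t) (u t) n + N0 ω (u t) (u t) n) := by
    intro t ht n
    have z1 : N0 ω (u t) (U t) n = 0 := by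
      unfold N0 conv
      simp [hU t ht, nc_smul0]
    show -N0 ω (U t) (u t) n + -N0 ω (u t) (U t) n + -N0 ω (u t) (u t) n + (F t n).1 = _
    rw [z1, hF t ht n]
    ring
  obtain ⟨B, hB, hB0⟩ : ∃ B : ℝ, B = 12 * ((H + 2) * M) ^ 2 ∧ 0 ≤ B := ⟨_, rfl, by positivity⟩
  have hG2 : ∀ t ∈ Icc a b, (Summable fun n => n2 (src ω U u F t n).1 ^ 2) ∧
      ∑' n, n2 (src ω U u F t n).1 ^ 2 ≤ B * ∑' n, ncD (u t n) := by
    intro t ht
    obtain ⟨s1, b1⟩ := nc_N0 ω (U t) (u t)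
    obtain ⟨s2, b2⟩ := nc_N0 ω (u t) (u t)
    have hle : ∀ n, n2 (src ω U u F t n).1 ^ 2 ≤
        2 * (n2 (N0 ω (U t) (u t) n) ^ 2 + n2 (N0 ω (u t) (u t) n) ^ 2) := by
      intro n
      rw [hG t ht n, n2_neg]
      have h1 := n2_add (N0 ω (U t) (u t) n) (N0 ω (u t) (u t) n)
      have h2 := n2_nonneg (N0 ω (U t) (u t) n + N0 ω (u t) (u t) n)
      generalize n2 (N0 ω (U t) (u t) n) = p at *
      generalize n2 (N0 ω (u t) (u t) n) = q at *
      calc n2 (N0 ω (U t) (u t) n + N0 ω (u t) (u t) n) ^ 2 ≤ (p + q) ^ 2 := by gcongr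
        _ ≤ 2 * (p ^ 2 + q ^ 2) := by nlinarith [sq_nonneg (p - q)]
    have s3 := (s1.add s2).mul_left 2
    have s4 : Summable fun n => n2 (src ω U u F t n).1 ^ 2 :=
      Summable.of_nonneg_of_le (fun _ => sq_nonneg _) hle s3
    refine ⟨s4, (s4.tsum_le_tsum hle s3).trans ?_⟩
    rw [tsum_mul_left, s1.tsum_add s2]
    have hD : 0 ≤ ∑' n, ncD (u t n) := tsum_nonneg fun n => ncD_nonneg _
    have h3 : ((H + 2) * ‖U t‖) ^ 2 ≤ ((H + 2) * M) ^ 2 := by
      have := hMU t ht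
      gcongr
    have h4 : ((H + 2) * ‖u t‖) ^ 2 ≤ ((H + 2) * M) ^ 2 := by
      have := hMu t ht
      gcongr
    have h5 := mul_le_mul_of_nonneg_right h3 hD
    have h6 := mul_le_mul_of_nonneg_right h4 hD
    rw [hB]
    nlinarith
  -- energies
  obtain ⟨e', he'⟩ : ∃ e' : ℤ → ℝ → ℝ, ∀ n t, e' n t =
      ncE (ω * n) (src ω U u F t n).1 (u t n).1.1 (u t n).1.2.1 := ⟨_, fun _ _ => rfl⟩
  have hk : ∀ t ∈ Icc a b, ∀ n : ℤ, (ω * n) ^ 2 * n2 (u t n).1.1 ^ 2 = n2 (u t n).1.2.2 ^ 2 := by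
    intro t ht n
    rw [(h.dm t ht n).e1, n2_rsmul, abs_abs, mul_pow |ω * (n:ℝ)|, sq_abs]
  have hbp : ∀ (G g : CI H), |(bpJ G (star g)).re| ≤ n2 G * n2 g := fun G g => by
    refine (Complex.abs_re_le_norm _).trans ((norm_bpJ_le _ _).trans ?_)
    rw [n2_star]
  -- the upper bound, and the absolute bound
  have hup : ∀ t ∈ Icc a b, ∀ n, e' n t ≤ (B + 1)⁻¹ * n2 (src ω U u F t n).1 ^ 2 +
      (B + 1) * n2 (u t n).1.1 ^ 2 - 2 * n2 (u t n).1.2.1 ^ 2 - 2 * n2 (u t n).1.2.2 ^ 2 := by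
    intro t ht n
    rw [he', ncE, hk t ht n]
    have h1 := (le_abs_self _).trans (hbp (src ω U u F t n).1 (u t n).1.1)
    generalize n2 (src ω U u F t n).1 = p at *
    generalize n2 (u t n).1.1 = q at *
    have h2 : 2 * (p * q) ≤ (B + 1)⁻¹ * p ^ 2 + (B + 1) * q ^ 2 := by
      have h3 : 0 < B + 1 := by linarith
      have h4 : 0 ≤ (B + 1)⁻¹ * (p - (B + 1) * q) ^ 2 := by positivity
      have h5 : (B + 1)⁻¹ * (p - (B + 1) * q) ^ 2 =
          (B + 1)⁻¹ * p ^ 2 + (B + 1) * q ^ 2 - 2 * (p * q) := by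
        field_simp
        ring
      linarith
    linarith
  have hab2 : ∀ t ∈ Icc a b, ∀ n, |e' n t| ≤ n2 (src ω U u F t n).1 ^ 2 + 2 * ncD (u t n) := by
    intro t ht n
    rw [he', ncE, hk t ht n, ncD]
    have h1 := hbp (src ω U u F t n).1 (u t n).1.1
    rw [abs_le] at h1 ⊢
    have h2 := sq_nonneg (n2 (u t n).1.2.1)
    have h3 := sq_nonneg (n2 (u t n).1.2.2)
    have h4 := sq_nonneg (n2 (src ω U u F t n).1 - n2 (u t n).1.1)
    have h5 := sq_nonneg (n2 (u t n).1.1)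
    constructor
    · nlinarith [h1.1]
    · nlinarith [h1.2]
  have hsD : ∀ t, Summable fun n => ncD (u t n) := fun t => (ncD_sum (u t)).1
  have hs1 : ∀ t ∈ Icc a b, (Summable fun n => |e' n t|) ∧
      ∑' n, |e' n t| ≤ (B + 2) * (3 * H * M ^ 2) := by
    intro t ht
    obtain ⟨g1, g2⟩ := hG2 t ht
    have g3 := g1.add ((hsD t).mul_left 2)
    have g4 : Summable fun n => |e' n t| :=
      Summable.of_nonneg_of_le (fun _ => abs_nonneg _) (hab2 t ht) g3
    refine ⟨g4, (g4.tsum_le_tsum (hab2 t ht) g3).trans ?_⟩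
    rw [g1.tsum_add ((hsD t).mul_left 2), tsum_mul_left]
    have g5 := (ncD_sum (u t)).2
    have g6 : 3 * H * ‖u t‖ ^ 2 ≤ 3 * H * M ^ 2 := by
      have := hMu t ht
      gcongr
    have g7 := g5.trans g6
    have g8 : 0 ≤ B + 2 := by linarith
    calc (∑' n, n2 (src ω U u F t n).1 ^ 2) + 2 * ∑' n, ncD (u t n) ≤
          B * (∑' n, ncD (u t n)) + 2 * ∑' n, ncD (u t n) := by linarith
      _ = (B + 2) * ∑' n, ncD (u t n) := by ring
      _ ≤ _ := mul_le_mul_of_nonneg_left g7 g8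
  have hse : ∀ t ∈ Icc a b, Summable fun n => n2 (u t n).1.1 ^ 2 := fun t _ =>
    (n2_summable (f := fun n => (u t n).1.1) (Summable.of_nonneg_of_le
      (fun _ => norm_nonneg _) (fun n => (norm_fst_le _).trans (norm_fst_le (u t n)))
      (l1_summable (u t)))).2
  obtain ⟨hint, hftc⟩ := sum_ftc hab (e := fun n t => n2 (u t n).1.1 ^ 2) (e' := e')
    (fun n t ht => by
      rw [he']
      exact nc_energy (hHE n) (fun t ht => (h.dm t ht n).z1) (fun t ht => (h.dm t ht n).h1) t ht)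
    (fun n => by
      have c1 := (hHE n).cf
      have c2 := (hHE n).cf1
      have c3 := (hHE n).cG
      have c4 : ContinuousOn (fun t => star (u t n).1.1) (Icc a b) := c1.star
      have c5 := nc_bp_cont.comp_continuousOn (c3.prodMk c4)
      have c6 := n2_continuous.comp_continuousOn c1
      have c7 := n2_continuous.comp_continuousOn c2
      have c8 : e' n = fun t => ncE (ω * n) (src ω U u F t n).1 (u t n).1.1 (u t n).1.2.1 := by
        funext t
        rw [he']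
      rw [c8]
      unfold ncE
      exact ((continuousOn_const.mul (Complex.continuous_re.comp_continuousOn c5)).sub
        (continuousOn_const.mul (c7.pow 2))).sub (continuousOn_const.mul
          (continuousOn_const.mul (c6.pow 2)))) hse hs1
  -- the differential inequality
  have hdi : ∀ t ∈ Icc a b, ∑' n, e' n t ≤ (B + 2) * ∑' n, n2 (u t n).1.1 ^ 2 := by
    intro t ht
    obtain ⟨g1, g2⟩ := hG2 t ht
    have s1 := hse t ht
    have s2 := (n2_summable (f := fun n => (u t n).1.2.1) (Summable.of_nonneg_of_le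
      (fun _ => norm_nonneg _) (fun n => (norm_fst_le _).trans ((norm_snd_le _).trans
        (norm_fst_le (u t n)))) (l1_summable (u t)))).2
    have s3 := (n2_summable (f := fun n => (u t n).1.2.2) (Summable.of_nonneg_of_le
      (fun _ => norm_nonneg _) (fun n => (norm_snd_le _).trans ((norm_snd_le _).trans
        (norm_fst_le (u t n)))) (l1_summable (u t)))).2
    have s4 := (((g1.mul_left (B + 1)⁻¹).add (s1.mul_left (B + 1))).sub (s2.mul_left 2)).sub
      (s3.mul_left 2)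
    refine ((hs1 t ht).1.of_abs.tsum_le_tsum (hup t ht) s4).trans ?_
    rw [(((g1.mul_left (B + 1)⁻¹).add (s1.mul_left (B + 1))).sub (s2.mul_left 2)).tsum_sub
      (s3.mul_left 2), ((g1.mul_left (B + 1)⁻¹).add (s1.mul_left (B + 1))).tsum_sub
      (s2.mul_left 2), (g1.mul_left (B + 1)⁻¹).tsum_add (s1.mul_left (B + 1)), tsum_mul_left,
      tsum_mul_left, tsum_mul_left, tsum_mul_left]
    have e1 : ∑' n, ncD (u t n) = (∑' n, n2 (u t n).1.1 ^ 2) + (∑' n, n2 (u t n).1.2.1 ^ 2) +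
        ∑' n, n2 (u t n).1.2.2 ^ 2 := by
      unfold ncD
      rw [(s1.add s2).tsum_add s3, s1.tsum_add s2]
    have h1 : 0 < B + 1 := by linarith
    have h2 : (B + 1)⁻¹ * (∑' n, n2 (src ω U u F t n).1 ^ 2) ≤ ∑' n, ncD (u t n) := by
      rw [inv_mul_le_iff₀ h1]
      have hD : 0 ≤ ∑' n, ncD (u t n) := tsum_nonneg fun n => ncD_nonneg _
      linarith
    have h3 : 0 ≤ ∑' n, n2 (u t n).1.2.1 ^ 2 := tsum_nonneg fun _ => sq_nonneg _
    have h4 : 0 ≤ ∑' n, n2 (u t n).1.2.2 ^ 2 := tsum_nonneg fun _ => sq_nonneg _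
    rw [e1] at h2
    linarith
  -- Gronwall
  obtain ⟨E, hE⟩ : ∃ E : ℝ → ℝ, ∀ t, E t = ∑' n, n2 (u (a + t) n).1.1 ^ 2 := ⟨_, fun _ => rfl⟩
  have haa : a ∈ Icc a b := ⟨le_rfl, hab⟩
  have hE0 : E 0 = 0 := by
    rw [hE, add_zero]
    have : ∀ n, n2 (u a n).1.1 ^ 2 = 0 := fun n => by
      rw [h0 n]
      show n2 (0 : CI H) ^ 2 = 0
      rw [n2_zero]
      norm_num
    simp [this]
  have hEn : ∀ t, 0 ≤ E t := fun t => by
    rw [hE]
    exact tsum_nonneg fun _ => sq_nonneg _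
  have hmem : ∀ t ∈ Icc 0 (b - a), a + t ∈ Icc a b := fun t ht =>
    ⟨by linarith [ht.1], by linarith [ht.2]⟩
  have hEeq : ∀ t ∈ Icc 0 (b - a), E t = ∫ s in a..(a + t), ∑' n, e' n s := by
    intro t ht
    have h1 := hftc a haa (a + t) ⟨by linarith [ht.1], (hmem t ht).2⟩
    simp only at h1
    have h2 : ∑' n, n2 (u a n).1.1 ^ 2 = 0 := by
      have := hE0
      rwa [hE, add_zero] at this
    rw [h2, sub_zero] at h1
    rw [hE, h1]
  have cE : ContinuousOn E (Icc 0 (b - a)) := by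
    have h1 := intervalIntegral.continuousOn_primitive_interval' hint left_mem_uIcc
    rw [uIcc_of_le hab] at h1
    have h2 : ContinuousOn (fun t => ∫ s in a..(a + t), ∑' n, e' n s) (Icc 0 (b - a)) :=
      h1.comp (by fun_prop) hmem
    exact h2.congr hEeq
  have hgr := gron (b := b - a) (by linarith) (E := E) (α := fun _ => B + 2) (γ := fun _ => 0) cE
    continuousOn_const continuousOn_const (fun _ _ => by linarith) (fun _ _ => le_rfl)
    (fun t _ => hEn t) (fun t ht => by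
      rw [hE0, zero_add, hEeq t ht]
      have e1 : ∫ r in (0:ℝ)..t, ((B + 2) * E r + 0) = ∫ s in a..(a + t), (B + 2) * E (s - a) := by
        have := intervalIntegral.integral_comp_sub_right (a := a) (b := a + t)
          (fun r => (B + 2) * E r + 0) a
        rw [sub_self, add_sub_cancel_left] at this
        rw [← this]
        simp only [add_zero]
      rw [e1]
      have hat : a ≤ a + t := by linarith [ht.1]
      have hsub : Icc a (a + t) ⊆ Icc a b := Icc_subset_Icc_right (hmem t ht).2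
      refine intervalIntegral.integral_mono_on hat ?_ ?_ fun s hs => ?_
      · refine hint.mono_set ?_
        rw [uIcc_of_le hat, uIcc_of_le hab]
        exact hsub
      · refine ContinuousOn.intervalIntegrable ?_
        rw [uIcc_of_le hat]
        refine continuousOn_const.mul (cE.comp (by fun_prop) fun s hs => ?_)
        have := hsub hs
        exact ⟨by linarith [this.1], by linarith [this.2]⟩
      · rw [hE, add_sub_cancel]
        exact hdi s (hsub hs))
  have hz : ∀ n, n2 (u t0 n).1.1 = 0 := by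
    have h1 := hgr (t0 - a) ⟨by linarith [ht0.1], by linarith [ht0.2]⟩
    rw [hE0, zero_add, intervalIntegral.integral_zero, zero_mul] at h1
    have h2 : E (t0 - a) = 0 := le_antisymm h1 (hEn _)
    rw [hE, add_sub_cancel] at h2
    intro n
    have h3 : n2 (u t0 n).1.1 ^ 2 ≤ ∑' n, n2 (u t0 n).1.1 ^ 2 :=
      (hse t0 ht0).le_tsum n (fun _ _ => sq_nonneg _)
    rw [h2] at h3
    exact pow_eq_zero_iff (two_ne_zero) |>.1 (le_antisymm h3 (sq_nonneg _))
  intro n
  have hd := h.dm t0 ht0 n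
  have g0 : (u t0 n).1.1 = 0 := by
    have h1 := agmon hd.d1 hd.z1
    rw [hz n, mul_zero, zero_mul] at h1
    have h2 : ‖(u t0 n).1.1‖ ^ 2 = 0 := le_antisymm h1 (sq_nonneg _)
    exact norm_eq_zero.1 (pow_eq_zero_iff two_ne_zero |>.1 h2)
  have g1 : (u t0 n).1.2.1 = 0 := by
    have h1 := hd.d1
    rw [g0] at h1
    exact IsD.unique h1 fun z _ => hasDerivWithinAt_const z _ (0:ℂ)
  have g2 : (u t0 n).1.2.2 = 0 := by
    rw [hd.e1, g0]
    exact ci_ext fun z _ => by rw [ex_rsmul, ex_zero, mul_zero]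
  exact Prod.ext g0 (Prod.ext g1 g2)

end

end Pool.Agent.Lib.MP_79abb3_an.FW
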