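import Pool.Agent.Lib.MP_79abb3_an.P25.LinStep

/-!
FW-71a: linear step of the local control, zero first component.
-/

set_option autoImplicit false
set_option linter.unusedSectionVars false

open MeasureTheory Set Filter Topology Function

namespace Pool.Agent.Lib.MP_79abb3_an.FW

open Pool.Agent.Lib.MP_79abb3_an.P25

section
variable {H : ℝ} [hH : Fact (0 < H)]

/-- Projection of a mode on its second component. -/
private noncomputable def prn (H : ℝ) [Fact (0 < H)] : Xn H →L[ℝ] Xn H :=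
  (ContinuousLinearMap.inr ℝ (CI H × CI H × CI H) (CI H × CI H × CI H)).comp
    (ContinuousLinearMap.snd ℝ (CI H × CI H × CI H) (CI H × CI H × CI H))

private theorem prn_apply (x : Xn H) : prn H x = (0, x.2) := rfl

private theorem norm_prn_le (x : Xn H) : ‖prn H x‖ ≤ 1 * ‖x‖ := by
  rw [one_mul, prn_apply, Prod.norm_mk, norm_zero]
  exact max_le (norm_nonneg _) (norm_snd_le x)

private noncomputable def prL (H : ℝ) [Fact (0 < H)] : L1 (Xn H) →L[ℝ] L1 (Xn H) :=
  diagL (fun _ => prn H) 1 (fun _ => norm_prn_le)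

private theorem prL_apply (x : L1 (Xn H)) (n : ℤ) : prL H x n = (0, (x n).2) := rfl

private theorem norm_prL_le (x : L1 (Xn H)) : ‖prL H x‖ ≤ ‖x‖ := by
  have := norm_diagL_le (fun _ : ℤ => prn H) 1 (fun _ => norm_prn_le) x
  rwa [one_mul] at this

/-- Projection on `Yn`. -/
private noncomputable def qrn (H : ℝ) [Fact (0 < H)] : Yn H →L[ℝ] Yn H :=
  (ContinuousLinearMap.inr ℝ (CI H) (CI H)).comp (ContinuousLinearMap.snd ℝ (CI H) (CI H))

private theorem qrn_apply (x : Yn H) : qrn H x = (0, x.2) := rfl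

private theorem norm_qrn_le (x : Yn H) : ‖qrn H x‖ ≤ 1 * ‖x‖ := by
  rw [one_mul, qrn_apply, Prod.norm_mk, norm_zero]
  exact max_le (norm_nonneg _) (norm_snd_le x)

private noncomputable def qrL (H : ℝ) [Fact (0 < H)] : L1 (Yn H) →L[ℝ] L1 (Yn H) :=
  diagL (fun _ => qrn H) 1 (fun _ => norm_qrn_le)

private theorem norm_qrL_le (x : L1 (Yn H)) : ‖qrL H x‖ ≤ ‖x‖ := by
  have := norm_diagL_le (fun _ : ℤ => qrn H) 1 (fun _ => norm_qrn_le) x
  rwa [one_mul] at this

private theorem jL_prL (x : L1 (Xn H)) : jL H (prL H x) = qrL H (jL H x) := by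
  refine lp.ext ?_
  funext n
  rfl

theorem lin_step2 {H : ℝ} [Fact (0 < H)] (hH : 1 ≤ H) : ∃ D K : ℝ, 1 ≤ D ∧ 1 ≤ K ∧
    ∀ (ω l : ℝ) (x0 : L1 (Xn H)), l ∈ Ioc (0:ℝ) 1 → (∀ n : ℤ, Cmode (ω * n) (x0 n)) → Sy x0 →
      (∀ n, (x0 n).1 = 0) →
      ∃ U : ℝ → L1 (Xn H), LT ω 0 (l + l / D) ∅ (fun _ => 0) (fun _ _ => 0) U ∧
        (∀ t ∈ Icc 0 (l + l / D), Sy (U t)) ∧ U 0 = x0 ∧ U (l + l / D) = 0 ∧
        (∀ t ∈ Icc 0 l, ‖U t‖ ≤ K * ‖x0‖ ∧ ‖jL H (U t)‖ ≤ K * ‖jL H x0‖) ∧
        (∀ t ∈ Icc l (l + l / D), ‖U t‖ ≤ K * Real.exp (K / l ^ 2) * ‖jL H x0‖) ∧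
        ∀ t ∈ Icc 0 (l + l / D), ∀ n, (U t n).1 = 0 := by
  obtain ⟨D, K, hD, hK, hls⟩ := lin_step (H := H) hH
  refine ⟨D, K, hD, hK, fun ω l x0 hl hc hs h0 => ?_⟩
  obtain ⟨U, hU, hUs, hU0, hUe, hUa, hUb, -⟩ := hls ω l x0 hl hc hs
  have d0 : IsD (0 : CI H) 0 := fun z _ => hasDerivWithinAt_const z _ (0:ℂ)
  refine ⟨fun t => prL H (U t), ?_, fun t ht n => ?_, ?_, ?_, fun t ht => ⟨?_, ?_⟩,
    fun t ht => (norm_prL_le _).trans (hUb t ht), fun t ht n => rfl⟩
  · exact
    { count := hU.count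
      cY := by
        have h1 : ContinuousOn (fun t => qrL H (jL H (U t))) (Icc 0 (l + l / D)) :=
          (qrL H).continuous.comp_continuousOn hU.cY
        exact h1.congr fun t _ => jL_prL (U t)
      cX := (prL H).continuous.comp_continuousOn hU.cX
      cP := hU.cP
      cG := hU.cG
      bd := by
        obtain ⟨R, hR⟩ := hU.bd
        exact ⟨R, fun t ht => ⟨(hR t ht).1, (norm_prL_le _).trans (hR t ht).2.1, (hR t ht).2.2⟩⟩
      cm := fun t ht n => by
        have h1 := hU.cm t ht n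
        exact
        { d1 := d0
          d2 := h1.d2
          e1 := ci_ext fun z _ => by
            show P25.ex (0 : CI H) z = P25.ex (|ω * n| • (0 : CI H)) z
            rw [ex_rsmul, ex_zero, mul_zero]
          e2 := h1.e2
          z1 := rfl
          z2 := h1.z2 }
      z := fun t ht n => ⟨rfl, (hU.z t ht n).2⟩
      sy := fun t ht n => by
        have h1 := hU.sy t ht n
        have h2 := congrArg Prod.snd h1
        refine Prod.ext ?_ h2
        show (0 : CI H) = star (0 : CI H)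
        rw [star_zero]
      eq := fun n y hy t1 ht1 t2 ht2 => by
        have e1 : ∀ y, prim (0 : CI H) y = 0 := fun y => by
          unfold prim
          simp only [ex_zero]
          simp
        have e2 : ∀ s, rh (ω * n) (prL H (U s) n).1.1 (prL H (U s) n).1.2.1 (0 : CI H) y = 0 := by
          intro s
          show rh (ω * n) (0 : CI H) (0 : CI H) (0 : CI H) y = 0
          unfold rh
          rw [e1, ex_zero, ex_zero]
          ring
        show prim (0 : CI H) y - prim (0 : CI H) y = _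
        rw [e1, sub_zero]
        have e3 : ∀ s, (rh (ω * n) (prL H (U s) n).1.1 (prL H (U s) n).1.2.1 (0 : CI H) y +
            if n = 0 then (((0:ℝ) * y : ℝ) : ℂ) else 0) = 0 := by
          intro s
          rw [e2]
          simp
        symm
        refine (intervalIntegral.integral_congr (g := fun _ => (0:ℂ)) fun s _ => ?_).trans ?_
        · exact e3 s
        · simp
      eq' := hU.eq' }
  · have h1 := hUs t ht n
    have h2 := congrArg Prod.snd h1
    refine Prod.ext ?_ h2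
    show (0 : CI H × CI H × CI H) = star (0 : CI H × CI H × CI H)
    rw [star_zero]
  · show prL H (U 0) = x0
    rw [hU0]
    refine lp.ext ?_
    funext n
    exact Prod.ext (h0 n).symm rfl
  · show prL H (U (l + l / D)) = 0
    rw [hUe, map_zero]
  · exact (norm_prL_le _).trans (hUa t ht).1
  · show ‖jL H (prL H (U t))‖ ≤ _
    rw [jL_prL]
    exact (norm_qrL_le _).trans (hUa t ht).2

end

end Pool.Agent.Lib.MP_79abb3_an.FW
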