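import Pool.Agent.Lib.MP_79abb3_an.FW.NcA
import Pool.Agent.Lib.MP_79abb3_an.FW.NcBa
import Pool.Agent.Lib.MP_79abb3_an.P25.NlStep
import Pool.Agent.Lib.MP_79abb3_an.P25.Dir

/-!
FW-71b: one step of the local control, zero first component.
-/

set_option autoImplicit false
set_option linter.unusedSectionVars false

open MeasureTheory Set Filter Topology Function

namespace Pool.Agent.Lib.MP_79abb3_an.FW

open Pool.Agent.Lib.MP_79abb3_an.P25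

section
variable {H : ℝ} [hH : Fact (0 < H)]

private theorem nb_smul0 (c : ℂ) : c • (0 : CI H) = 0 :=
  ci_ext fun z _ => by rw [ex_smul, ex_zero, mul_zero]

private theorem norm_jL_le' (x : L1 (Xn H)) : ‖jL H x‖ ≤ ‖x‖ := by
  have := norm_diagL_le (fun _ : ℤ => jnL H) 1 (fun _ => norm_jnL_le) x
  rwa [one_mul] at this

private theorem dmode_zero (k : ℝ) : Dmode k (0 : Xn H) where
  d1 := fun z _ => hasDerivWithinAt_const z _ (0:ℂ)
  d2 := fun z _ => hasDerivWithinAt_const z _ (0:ℂ)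
  e1 := ci_ext fun z _ => by
    show P25.ex (0 : CI H) z = P25.ex (|k| • (0 : CI H)) z
    rw [ex_rsmul, ex_zero, mul_zero]
  e2 := ci_ext fun z _ => by
    show P25.ex (0 : CI H) z = P25.ex (|k| • (0 : CI H)) z
    rw [ex_rsmul, ex_zero, mul_zero]
  z1 := rfl
  z2 := rfl
  h1 := rfl
  h2 := rfl

private theorem na1 {K0 C0 C1 E c cL sl j0 x : ℝ} (hK0 : 1 ≤ K0) (hC0 : 1 ≤ C0) (hC1 : 0 ≤ C1)
    (hE : E = K0 + 2 * C0 * K0 ^ 2 + C1) (hcp : 0 < c) (hc1 : c ≤ 1) (hcE : c * E ≤ cL)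
    (hsl : 0 ≤ sl) (hsl1 : sl ≤ 1) (hj : 0 ≤ j0) (hjc : j0 ≤ c) (hx0 : 0 ≤ x) (hx : sl * x ≤ c) :
    sl * (K0 * x + 0 + sl * (2 * C0 * K0 ^ 2 * j0 * x)) ≤ cL := by
  have hjs : sl * j0 ≤ 1 := mul_le_one₀ hsl1 hj (hjc.trans hc1)
  have h3 : (sl * j0) * (sl * x) ≤ c :=
    (mul_le_of_le_one_left (mul_nonneg hsl hx0) hjs).trans hx
  have hP : 0 ≤ 2 * C0 * K0 ^ 2 := by positivity
  have h4 : K0 * (sl * x) ≤ K0 * c := mul_le_mul_of_nonneg_left hx (by linarith)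
  have h5 : 2 * C0 * K0 ^ 2 * ((sl * j0) * (sl * x)) ≤ 2 * C0 * K0 ^ 2 * c :=
    mul_le_mul_of_nonneg_left h3 hP
  have h6 : 0 ≤ c * C1 := mul_nonneg hcp.le hC1
  have h7 : c * E = K0 * c + 2 * C0 * K0 ^ 2 * c + c * C1 := by rw [hE]; ring
  have h8 : sl * (K0 * x + 0 + sl * (2 * C0 * K0 ^ 2 * j0 * x)) =
      K0 * (sl * x) + 2 * C0 * K0 ^ 2 * ((sl * j0) * (sl * x)) := by ring
  rw [h8]
  linarith

private theorem na2 {K0 C0 C1 E c cL sl m a : ℝ} (hK0 : 1 ≤ K0) (hC0 : 1 ≤ C0)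
    (hE : E = K0 + 2 * C0 * K0 ^ 2 + C1) (hcp : 0 < c) (hc1 : c ≤ 1) (hcE : c * E ≤ cL)
    (hsl : 0 ≤ sl) (hsl1 : sl ≤ 1) (hm : 0 ≤ m) (hmc : m ≤ K0 * c) (ha : 0 ≤ a) (hac : a ≤ C1 * c) :
    sl * (m + a + sl * (2 * C0 * m ^ 2)) ≤ cL := by
  have h2 : m ^ 2 ≤ K0 ^ 2 * c := by
    have h3 : m ^ 2 ≤ (K0 * c) ^ 2 := pow_le_pow_left₀ hm hmc 2
    have h4 : c ^ 2 ≤ c := by nlinarith
    have h5 : (K0 * c) ^ 2 = K0 ^ 2 * c ^ 2 := by ring
    have h6 : K0 ^ 2 * c ^ 2 ≤ K0 ^ 2 * c := mul_le_mul_of_nonneg_left h4 (by positivity)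
    linarith
  have hC : 0 ≤ 2 * C0 := by linarith
  have h7 : 2 * C0 * m ^ 2 ≤ 2 * C0 * (K0 ^ 2 * c) := mul_le_mul_of_nonneg_left h2 hC
  have h8 : 0 ≤ 2 * C0 * m ^ 2 := by positivity
  have h9 : sl * (2 * C0 * m ^ 2) ≤ 2 * C0 * m ^ 2 := mul_le_of_le_one_left h8 hsl1
  have h10 : sl * (m + a + sl * (2 * C0 * m ^ 2)) ≤ m + a + sl * (2 * C0 * m ^ 2) :=
    mul_le_of_le_one_left (by positivity) hsl1
  have h11 : c * E = K0 * c + 2 * C0 * (K0 ^ 2 * c) + C1 * c := by rw [hE]; ring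
  linarith

private theorem na3 {K0 C0 C1 C3 KL e eK j0 x m pl : ℝ} (hKL : 1 ≤ KL) (hC0 : 1 ≤ C0)
    (hC1 : 0 ≤ C1) (hC3 : C3 = KL * (C1 + 2 * C0 * K0 ^ 2)) (hm : m = K0 * e * j0)
    (he : e ^ 2 ≤ eK) (heK : 1 ≤ eK) (hj : 0 ≤ j0) (hjx : j0 ≤ x) (hpl : pl ≤ C1 * (j0 * x)) :
    KL * (pl + 2 * C0 * m ^ 2) ≤ C3 * (eK * j0 * x) := by
  have hx : 0 ≤ x := hj.trans hjx
  have h1 : e ^ 2 * j0 * j0 ≤ eK * j0 * x :=
    mul_le_mul (mul_le_mul_of_nonneg_right he hj) hjx hj (by positivity)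
  have h2 : m ^ 2 ≤ K0 ^ 2 * (eK * j0 * x) := by
    have h3 : m ^ 2 = K0 ^ 2 * (e ^ 2 * j0 * j0) := by rw [hm]; ring
    rw [h3]
    exact mul_le_mul_of_nonneg_left h1 (by positivity)
  have h3 : j0 * x ≤ eK * j0 * x := by
    rw [mul_assoc]
    exact le_mul_of_one_le_left (mul_nonneg hj hx) heK
  have h4 : C1 * (j0 * x) ≤ C1 * (eK * j0 * x) := mul_le_mul_of_nonneg_left h3 hC1
  have h5 : 2 * C0 * m ^ 2 ≤ 2 * C0 * (K0 ^ 2 * (eK * j0 * x)) :=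
    mul_le_mul_of_nonneg_left h2 (by linarith)
  have h6 : C3 * (eK * j0 * x) =
      KL * (C1 * (eK * j0 * x) + 2 * C0 * (K0 ^ 2 * (eK * j0 * x))) := by rw [hC3]; ring
  rw [h6]
  exact mul_le_mul_of_nonneg_left (by linarith) (by linarith)

private theorem na4 {K0 C0 C1 C3 KL e eK j0 m pl : ℝ} (hKL : 1 ≤ KL) (hC0 : 1 ≤ C0)
    (hC3 : C3 = KL * (C1 + 2 * C0 * K0 ^ 2)) (hm : m = K0 * e * j0)
    (he : e ^ 2 ≤ eK) (hj : 0 ≤ j0) (hej : eK * j0 ≤ 1) (hpl : pl ≤ C1 * j0) :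
    KL * (pl + 2 * C0 * m ^ 2) ≤ C3 * j0 := by
  have h1 : e ^ 2 * j0 * j0 ≤ j0 :=
    mul_le_of_le_one_left hj ((mul_le_mul_of_nonneg_right he hj).trans hej)
  have h2 : m ^ 2 ≤ K0 ^ 2 * j0 := by
    have h3 : m ^ 2 = K0 ^ 2 * (e ^ 2 * j0 * j0) := by rw [hm]; ring
    rw [h3]
    exact mul_le_mul_of_nonneg_left h1 (by positivity)
  have h5 : 2 * C0 * m ^ 2 ≤ 2 * C0 * (K0 ^ 2 * j0) :=
    mul_le_mul_of_nonneg_left h2 (by linarith)
  have h6 : C3 * j0 = KL * (C1 * j0 + 2 * C0 * (K0 ^ 2 * j0)) := by rw [hC3]; ring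
  rw [h6]
  exact mul_le_mul_of_nonneg_left (by linarith) (by linarith)

private theorem na5 {K0 C1 C3 K x : ℝ} (hK0 : 1 ≤ K0) (hC1 : 0 ≤ C1) (hC3 : 0 ≤ C3)
    (hK : K = 2 * K0 + C1 + C3) (hx : 0 ≤ x) :
    K0 * x + C1 * 1 ≤ K * (x + 1) := by
  have h1 : K * (x + 1) = K0 * x + C1 * 1 + (K0 * x + C1 * x + C3 * x + 2 * K0 + C3) := by
    rw [hK]; ring
  have h2 : 0 ≤ K0 * x + C1 * x + C3 * x + 2 * K0 + C3 := by positivity
  linarith

private theorem na6 {K0 C1 C3 K x : ℝ} (hK0 : 1 ≤ K0) (hC1 : 0 ≤ C1) (hC3 : 0 ≤ C3)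
    (hK : K = 2 * K0 + C1 + C3) (hx : 0 ≤ x) :
    (K0 + C3) * 1 ≤ K * (x + 1) := by
  have h1 : K * (x + 1) = (K0 + C3) * 1 + (2 * K0 * x + C1 * x + C3 * x + K0 + C1) := by
    rw [hK]; ring
  have h2 : 0 ≤ 2 * K0 * x + C1 * x + C3 * x + K0 + C1 := by positivity
  linarith

private theorem na7 {K0 C0 j0 x a b : ℝ} (hK0 : 1 ≤ K0) (hC0 : 1 ≤ C0) (hj : 0 ≤ j0)
    (hb : 0 ≤ b) (h1 : b ≤ K0 * x) (ha : a ≤ K0 * j0) :
    2 * C0 * a * b ≤ 2 * C0 * K0 ^ 2 * j0 * x := by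
  calc 2 * C0 * a * b = 2 * C0 * (a * b) := by ring
    _ ≤ 2 * C0 * ((K0 * j0) * (K0 * x)) := by
        refine mul_le_mul_of_nonneg_left ?_ (by linarith)
        exact mul_le_mul ha h1 hb (by positivity)
    _ = 2 * C0 * K0 ^ 2 * j0 * x := by ring

private theorem na8 {C0 m a b : ℝ} (hC0 : 1 ≤ C0) (hm : 0 ≤ m) (hb : 0 ≤ b) (h1 : b ≤ m)
    (ha : a ≤ m) : 2 * C0 * a * b ≤ 2 * C0 * m ^ 2 := by
  calc 2 * C0 * a * b = 2 * C0 * (a * b) := by ring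
    _ ≤ 2 * C0 * (m * m) := by
        refine mul_le_mul_of_nonneg_left ?_ (by linarith)
        exact mul_le_mul ha h1 hb hm
    _ = 2 * C0 * m ^ 2 := by ring

theorem nl_step2 {H : ℝ} [Fact (0 < H)] (hH : 1 ≤ H) : ∃ D K c : ℝ, 1 ≤ D ∧ 1 ≤ K ∧ 0 < c ∧
    ∀ (ω l : ℝ) (x0 : L1 (Xn H)), l ∈ Ioc (0:ℝ) 1 → (∀ n : ℤ, Cmode (ω * n) (x0 n)) → Sy x0 →
      (∀ n, (x0 n).1 = 0) →
      √l * ‖x0‖ ≤ c → Real.exp (K / l ^ 2) * ‖jL H x0‖ ≤ c →
      ∃ u : ℝ → L1 (Xn H), Traj ω 0 (l + l / D) ∅ (fun _ => 0) u ∧ u 0 = x0 ∧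
        (∀ n : ℤ, Dmode (ω * n) (u (l + l / D) n)) ∧ Sy (u (l + l / D)) ∧
        (∀ t ∈ Icc 0 (l + l / D), ‖u t‖ ≤ K * (‖x0‖ + 1) ∧
          ‖jL H (u t)‖ ≤ K * (Real.exp (K / l ^ 2) * ‖jL H x0‖)) ∧
        ‖u (l + l / D)‖ ≤ K * (Real.exp (K / l ^ 2) * ‖jL H x0‖) * ‖x0‖ ∧
        ∀ t ∈ Icc 0 (l + l / D), ∀ n, (u t n).1 = 0 := by
  obtain ⟨D, K0, hD, hK0, hlin⟩ := lin_step2 (H := H) hH
  obtain ⟨cL, hcL, KL, hKL, hLE⟩ := LEPT H (exists_dir H)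
  obtain ⟨C0, hC0, hBW⟩ := exists_BW H
  -- constants
  set C1 : ℝ := 2 * KL * C0 * K0 ^ 2 with hC1
  set C3 : ℝ := KL * (C1 + 2 * C0 * K0 ^ 2) with hC3
  have hC1n : 0 ≤ C1 := by positivity
  have hC3n : 0 ≤ C3 := by positivity
  set K : ℝ := 2 * K0 + C1 + C3 with hK
  set E : ℝ := K0 + 2 * C0 * K0 ^ 2 + C1 with hE
  have hEp : 0 < E := by positivity
  set c : ℝ := min 1 (cL / E) with hc
  have hcp : 0 < c := lt_min one_pos (div_pos hcL hEp)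
  have hc1 : c ≤ 1 := min_le_left _ _
  have hcE : c * E ≤ cL := by
    have := min_le_right 1 (cL / E)
    rwa [le_div_iff₀ hEp] at this
  clear_value C1 C3 K E c
  refine ⟨D, K, c, hD, by linarith, hcp, ?_⟩
  intro ω l x0 hl hcm hsy hx01 hx hjx
  obtain ⟨U, hUlt, hUsy, hU0, hUe, hUa, hUb, hU1⟩ := hlin ω l x0 hl hcm hsy hx01
  obtain ⟨B, hBI, hBB⟩ := hBW ω 1 (fun _ => 1) le_rfl wt_one
  rw [mul_one] at hBB
  have hl0 : 0 < l := hl.1
  have hl1 : l ≤ 1 := hl.2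
  have hlD : 0 < l / D := by positivity
  have hlD1 : l / D ≤ 1 := (div_le_self hl0.le hD).trans hl1
  have hsl : 0 ≤ √l := Real.sqrt_nonneg l
  have hsl1 : √l ≤ 1 := Real.sqrt_le_one.mpr hl1
  set j0 : ℝ := ‖jL H x0‖ with hj0
  have hj0n : 0 ≤ j0 := norm_nonneg _
  have hx0n : 0 ≤ ‖x0‖ := norm_nonneg _
  have hjx0 : j0 ≤ ‖x0‖ := norm_jL_le' x0
  set e1 : ℝ := Real.exp (K0 / l ^ 2) with he1
  have he1p : 1 ≤ e1 := Real.one_le_exp (by positivity)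
  set eK : ℝ := Real.exp (K / l ^ 2) with heK
  have heK1 : e1 ≤ eK := by
    refine Real.exp_le_exp.mpr ?_
    gcongr
    linarith
  have heK2 : e1 ^ 2 ≤ eK := by
    rw [he1, ← Real.exp_nat_mul]
    refine Real.exp_le_exp.mpr ?_
    have : ((2:ℕ):ℝ) * (K0 / l ^ 2) = (2 * K0) / l ^ 2 := by push_cast; ring
    rw [this]
    gcongr
    linarith
  have heKp : 1 ≤ eK := he1p.trans heK1
  clear_value j0 e1 eK
  have hjc : j0 ≤ c := le_trans (le_mul_of_one_le_left hj0n heKp) hjx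
  -- the forcing
  set F : ℝ → L1 (Yn H) := fun t => B (U t) (U t) with hF
  have hUc : ContinuousOn U (Icc 0 (l + l / D)) := by
    have := hUlt.cX
    rwa [sdiff_empty] at this
  have hFc : ContinuousOn F (Icc 0 (l + l / D)) :=
    (B.continuous.comp_continuousOn hUc).clm_apply hUc
  have hFb : ∀ t, ‖F t‖ ≤ 2 * C0 * ‖jL H (U t)‖ * ‖U t‖ := by
    intro t
    have := hBB (U t) (U t)
    refine this.trans (le_of_eq ?_)
    ring
  have hFs : ∀ t ∈ Icc 0 (l + l / D), Sy (F t) := by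
    intro t ht
    rw [← cjL_eq_iff]
    have h1 := B_cj (W := fun _ => 1) (fun _ => rfl) hBI (U t) (U t)
    rw [(cjL_eq_iff _).mpr (hUsy t ht)] at h1
    exact h1.symm
  have hFn : ∀ t n, F t n = Bf ω (U t) (U t) n := by
    intro t n
    have h1 := hBI (U t) (U t) n
    simpa using h1
  clear_value F
  have hUlt' : LT ω 0 (l + l / D) ∅ (fun _ => 0) (fun t n => Bf ω (U t) (U t) n - F t n) U :=
    hUlt.congr (fun t _ => rfl) (fun t _ n => by rw [hFn, sub_self]) (fun t _ => rfl)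
  have hW1 : P25.Wt1 (fun _ => 1) := ⟨wt_one, fun _ => rfl⟩
  -- first interval
  set MF1 : ℝ := 2 * C0 * K0 ^ 2 * j0 * ‖x0‖ with hMF1
  have hMF1n : 0 ≤ MF1 := by positivity
  have hcond1 : √l * (K0 * ‖x0‖ + 0 + √l * MF1) ≤ cL :=
    na1 hK0 hC0 hC1n hE hcp hc1 hcE hsl hsl1 hj0n hjc hx0n hx
  have hsub1 : Icc (0:ℝ) (0 + l) ⊆ Icc 0 (l + l / D) := by
    rw [zero_add]
    exact Icc_subset_Icc_right (by linarith)
  obtain ⟨p, hp, hp0, -, hpb⟩ := hLE ω 0 l (K0 * ‖x0‖) MF1 0 (fun _ => 1) U F 0 hl0 hl1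
    (by positivity) hMF1n hW1 (hUc.mono hsub1) (hFc.mono hsub1)
    (fun t ht => ⟨(hUa t (by rwa [zero_add] at ht)).1, by
      refine (hFb t).trans ?_
      have h1 := hUa t (by rwa [zero_add] at ht)
      exact na7 hK0 hC0 hj0n (norm_nonneg _) h1.1 h1.2, hUsy t (hsub1 ht), hFs t (hsub1 ht),
      fun n hn => absurd rfl hn⟩)
    (fun n => dmode_zero _)
    (fun n => (star_zero _).symm)
    (by
      have h1 : (fun n : ℤ => (1:ℝ) * ‖jn ((0 : L1 (Xn H)) n)‖) = fun _ => 0 := by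
        funext n
        have h2 : jn ((0 : L1 (Xn H)) n) = 0 := rfl
        rw [h2, norm_zero, mul_zero]
      rw [h1]
      exact hasSum_zero)
    hcond1
  rw [zero_add] at hp hpb
  have hpn : ∀ t ∈ Icc 0 l, ‖p t‖ ≤ C1 * (√l * (j0 * ‖x0‖)) := by
    intro t ht
    have h1 := (hpb (by simp) t ht).2
    have h2 : ∑' n, (1:ℝ) * ‖p t n‖ = ‖p t‖ := by
      rw [l1_norm]; simp
    have h3 : ∑' n : ℤ, (1:ℝ) * ‖((0 : L1 (Xn H)) n)‖ = 0 := by simp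
    rw [h2, h3, zero_add] at h1
    refine h1.trans (le_of_eq ?_)
    rw [hMF1, hC1]
    ring
  have hpn1 : ∀ t ∈ Icc 0 l, ‖p t‖ ≤ C1 * j0 := by
    intro t ht
    refine (hpn t ht).trans ?_
    have : √l * (j0 * ‖x0‖) = j0 * (√l * ‖x0‖) := by ring
    rw [this]
    calc C1 * (j0 * (√l * ‖x0‖)) ≤ C1 * (j0 * 1) := by
          gcongr
          exact hx.trans hc1
      _ = C1 * j0 := by ring
  have hpn2 : ∀ t ∈ Icc 0 l, ‖p t‖ ≤ C1 * (j0 * ‖x0‖) := by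
    intro t ht
    refine (hpn t ht).trans ?_
    exact mul_le_mul_of_nonneg_left (mul_le_of_le_one_left (by positivity) hsl1) hC1n
  -- second interval
  set m : ℝ := K0 * e1 * j0 with hm
  have hmn : 0 ≤ m := by positivity
  have hmc : m ≤ K0 * c := by
    rw [hm, mul_assoc]
    gcongr
    exact (mul_le_mul_of_nonneg_right heK1 hj0n).trans hjx
  set a2 : ℝ := ‖jL H (p l)‖ with ha2
  have ha2c : a2 ≤ C1 * c := by
    refine (norm_jL_le' _).trans ((hpn1 l ⟨hl0.le, le_rfl⟩).trans ?_)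
    gcongr
  have hcond2 : √(l / D) * (m + a2 + √(l / D) * (2 * C0 * m ^ 2)) ≤ cL :=
    na2 hK0 hC0 hE hcp hc1 hcE (Real.sqrt_nonneg _) (Real.sqrt_le_one.mpr hlD1) hmn hmc
      (norm_nonneg _) ha2c
  have hsub2 : Icc l (l + l / D) ⊆ Icc 0 (l + l / D) := Icc_subset_Icc_left hl0.le
  have hll : l ∈ Icc (0:ℝ) l := ⟨hl0.le, le_rfl⟩
  obtain ⟨q, hq, hql, -, hqb⟩ := hLE ω l (l / D) m (2 * C0 * m ^ 2) a2 (fun _ => 1) U F (p l) hlD hlD1
    hmn (by positivity) hW1 (hUc.mono hsub2) (hFc.mono hsub2)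
    (fun t ht => ⟨hUb t ht, by
      refine (hFb t).trans ?_
      have h1 := hUb t ht
      have h2 := (norm_jL_le' (U t)).trans h1
      exact na8 hC0 hmn (norm_nonneg _) h1 h2, hUsy t (hsub2 ht), hFs t (hsub2 ht),
      fun n hn => absurd rfl hn⟩)
    (hp.dm l hll) (hp.sy l hll)
    (by
      have h1 := (l1_summable (jL H (p l))).hasSum
      rw [← l1_norm] at h1
      simpa using h1)
    hcond2
  have hqn : ∀ t ∈ Icc l (l + l / D), ‖q t‖ ≤ KL * (‖p l‖ + 2 * C0 * m ^ 2) := by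
    intro t ht
    have h1 := (hqb (by simpa using l1_summable (p l)) t ht).2
    have h2 : ∑' n, (1:ℝ) * ‖q t n‖ = ‖q t‖ := by
      rw [l1_norm]; simp
    have h3 : ∑' n, (1:ℝ) * ‖p l n‖ = ‖p l‖ := by
      rw [l1_norm]; simp
    rw [h2, h3] at h1
    refine h1.trans (mul_le_mul_of_nonneg_left ?_ (by linarith))
    have h4 : √(l / D) * (2 * C0 * m ^ 2) ≤ 2 * C0 * m ^ 2 :=
      mul_le_of_le_one_left (by positivity) (Real.sqrt_le_one.mpr hlD1)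
    linarith
  have hqn1 : ∀ t ∈ Icc l (l + l / D), ‖q t‖ ≤ C3 * (eK * j0 * ‖x0‖) := fun t ht =>
    (hqn t ht).trans (na3 hKL hC0 hC1n hC3 hm heK2 heKp hj0n hjx0 (hpn2 l hll))
  have hqn2 : ∀ t ∈ Icc l (l + l / D), ‖q t‖ ≤ C3 * j0 := fun t ht =>
    (hqn t ht).trans (na4 hKL hC0 hC3 hm heK2 hj0n (hjx.trans hc1) (hpn1 l hll))
  have hPT : PT ω 0 (l + l / D) U F (fun t => if t ≤ l then p t else q t) :=
    hp.glue hq hl0.le (by linarith) hql.symm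
  have hend : ¬ l + l / D ≤ l := by linarith
  have hendm : l + l / D ∈ Icc l (l + l / D) := ⟨by linarith, le_rfl⟩
  have hendm0 : l + l / D ∈ Icc 0 (l + l / D) := ⟨by linarith, le_rfl⟩
  have hue : U (l + l / D) + (if l + l / D ≤ l then p (l + l / D) else q (l + l / D)) =
      q (l + l / D) := by rw [if_neg hend, hUe, zero_add]
  have hF1 : ∀ t ∈ Icc 0 (l + l / D), ∀ n, (F t n).1 = 0 := by
    intro t ht n
    rw [hFn]
    show -N0 ω (U t) (U t) n = 0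
    unfold N0 conv
    simp [hU1 t ht, nb_smul0]
  have hp1 := pt_first_zero hp (hUc.mono (by rwa [zero_add] at hsub1))
    (fun t ht n => hU1 t ⟨ht.1, by linarith [ht.2]⟩ n)
    (fun t ht n => hF1 t ⟨ht.1, by linarith [ht.2]⟩ n) (fun n => by rw [hp0]; rfl)
  have hq1 := pt_first_zero hq (hUc.mono hsub2) (fun t ht n => hU1 t (hsub2 ht) n)
    (fun t ht n => hF1 t (hsub2 ht) n) (fun n => by rw [hql]; exact hp1 l hll n)
  refine ⟨fun t => U t + (if t ≤ l then p t else q t), Traj.of_PT hUlt' hPT, ?_, ?_, ?_, ?_, ?_, ?_⟩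
  · show U 0 + (if (0:ℝ) ≤ l then p 0 else q 0) = x0
    rw [if_pos hl0.le, hp0, hU0, add_zero]
  · intro n
    show Dmode (ω * n) ((U (l + l / D) + (if l + l / D ≤ l then p (l + l / D) else q (l + l / D)) :
      L1 (Xn H)) n)
    rw [hue]
    exact hq.dm _ hendm n
  · show Sy ((U (l + l / D) + (if l + l / D ≤ l then p (l + l / D) else q (l + l / D)) :
      L1 (Xn H)))
    rw [hue]
    exact hq.sy _ hendm
  · intro t ht
    show ‖U t + (if t ≤ l then p t else q t)‖ ≤ K * (‖x0‖ + 1) ∧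
      ‖jL H (U t + (if t ≤ l then p t else q t))‖ ≤ K * (eK * j0)
    by_cases htl : t ≤ l
    · rw [if_pos htl]
      have h1 := hUa t ⟨ht.1, htl⟩
      have h2 := hpn1 t ⟨ht.1, htl⟩
      constructor
      · calc ‖U t + p t‖ ≤ ‖U t‖ + ‖p t‖ := norm_add_le _ _
          _ ≤ K0 * ‖x0‖ + C1 * 1 := by
            refine add_le_add h1.1 (h2.trans ?_)
            gcongr
            exact hjc.trans hc1
          _ ≤ K * (‖x0‖ + 1) := na5 hK0 hC1n hC3n hK hx0n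
      · rw [map_add]
        calc ‖jL H (U t) + jL H (p t)‖ ≤ ‖jL H (U t)‖ + ‖jL H (p t)‖ := norm_add_le _ _
          _ ≤ K0 * j0 + C1 * j0 := add_le_add h1.2 ((norm_jL_le' _).trans h2)
          _ = (K0 + C1) * (1 * j0) := by ring
          _ ≤ K * (eK * j0) := by
            have hKK : K0 + C1 ≤ K := by
              rw [hK]
              linarith
            exact mul_le_mul hKK (mul_le_mul_of_nonneg_right heKp hj0n)
              (by rw [one_mul]; exact hj0n) ((add_nonneg (by linarith) hC1n).trans hKK)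
    · rw [if_neg htl]
      have htl' : t ∈ Icc l (l + l / D) := ⟨(not_le.mp htl).le, ht.2⟩
      have h1 : ‖U t‖ ≤ K0 * (eK * j0) := by
        refine (hUb t htl').trans ?_
        rw [hm, mul_assoc]
        gcongr
      have h2 : ‖q t‖ ≤ C3 * (eK * j0) := by
        refine (hqn2 t htl').trans ?_
        gcongr
        exact le_mul_of_one_le_left hj0n heKp
      have h3 : ‖U t + q t‖ ≤ (K0 + C3) * (eK * j0) :=
        (norm_add_le _ _).trans (by linarith)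
      have h4 : eK * j0 ≤ 1 := hjx.trans hc1
      constructor
      · calc ‖U t + q t‖ ≤ (K0 + C3) * (eK * j0) := h3
          _ ≤ (K0 + C3) * 1 := by gcongr
          _ ≤ K * (‖x0‖ + 1) := na6 hK0 hC1n hC3n hK hx0n
      · refine (norm_jL_le' _).trans (h3.trans ?_)
        gcongr
        rw [hK]
        linarith
  · show ‖U (l + l / D) + (if l + l / D ≤ l then p (l + l / D) else q (l + l / D))‖ ≤
      K * (eK * j0) * ‖x0‖
    rw [hue, mul_assoc K]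
    refine (hqn1 _ hendm).trans ?_
    gcongr
    rw [hK]
    linarith
  · intro t ht n
    show (U t n).1 + ((if t ≤ l then p t else q t : L1 (Xn H)) n).1 = 0
    rw [hU1 t ht n, zero_add]
    by_cases htl : t ≤ l
    · rw [if_pos htl]
      exact hp1 t ⟨ht.1, htl⟩ n
    · rw [if_neg htl]
      exact hq1 t ⟨(not_le.mp htl).le, ht.2⟩ n

end

end Pool.Agent.Lib.MP_79abb3_an.FW
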