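import Pool.Agent.Lib.MP_79abb3_an.FW.OpNa

/-!
FW-3b: weights.
-/

set_option autoImplicit false
set_option linter.unusedSectionVars false

open MeasureTheory Set Filter Topology Function

namespace Pool.Agent.Lib.MP_79abb3_an.FW

open Pool.Agent.Lib.MP_79abb3_an.P25

section
variable {H : ℝ} [hH : Fact (0 < H)]

private theorem wTop_pt {p q r s : ℝ → ℝ} (cq : Continuous q)
    (cs : Continuous s) (hp : ∀ z, 0 ≤ p z) (hq : ∀ z, 0 ≤ q z)
    (h : ∀ z x, z ≤ x → p z * q x ≤ r z * s x) (k : ℝ) (f : CI H) :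
    ∀ z ∈ Icc (0:ℝ) H, p z * ‖ex (Top k (rc q cq * f)) z‖ ≤
      r z * ∫ x in z..H, Real.exp (-|k| * (x - z)) * (s x * ‖ex f x‖) := by
  intro z hz
  have hcf := continuous_ex f
  have h1 : ‖ex (Top k (rc q cq * f)) z‖ ≤
      ∫ x in z..H, Real.exp (-|k| * (x - z)) * (q x * ‖ex f x‖) := by
    rw [Top_apply k _ hz]
    apply intervalIntegral.norm_integral_le_of_norm_le hz.2
    · refine Filter.Eventually.of_forall fun x hx => ?_
      have hx' : x ∈ Icc (0:ℝ) H := ⟨hz.1.trans hx.1.le, hx.2⟩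
      rw [norm_mul, Complex.norm_real, Real.norm_eq_abs, abs_of_pos (Real.exp_pos _), ex_mul,
        norm_mul, ex_rc q cq hx', Complex.norm_real, Real.norm_eq_abs, abs_of_nonneg (hq x)]
    · exact Continuous.intervalIntegrable (by fun_prop) _ _
  calc p z * ‖ex (Top k (rc q cq * f)) z‖
      ≤ p z * ∫ x in z..H, Real.exp (-|k| * (x - z)) * (q x * ‖ex f x‖) :=
        mul_le_mul_of_nonneg_left h1 (hp z)
    _ = ∫ x in z..H, p z * (Real.exp (-|k| * (x - z)) * (q x * ‖ex f x‖)) := by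
        rw [intervalIntegral.integral_const_mul]
    _ ≤ ∫ x in z..H, r z * (Real.exp (-|k| * (x - z)) * (s x * ‖ex f x‖)) := by
        apply intervalIntegral.integral_mono_on hz.2
        · exact Continuous.intervalIntegrable (by fun_prop) _ _
        · exact Continuous.intervalIntegrable (by fun_prop) _ _
        · intro x hx
          have h2 := h z x hx.1
          have h3 : 0 ≤ Real.exp (-|k| * (x - z)) * ‖ex f x‖ := by positivity
          have h4 := mul_le_mul_of_nonneg_right h2 h3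
          linarith
    _ = r z * ∫ x in z..H, Real.exp (-|k| * (x - z)) * (s x * ‖ex f x‖) := by
        rw [intervalIntegral.integral_const_mul]

/-- Weights: if `p z q x ≤ r z s x` for `z ≤ x`, all nonnegative and continuous. -/
theorem wTop {p q r s : ℝ → ℝ} (cp : Continuous p) (cq : Continuous q) (cr : Continuous r)
    (cs : Continuous s) (hp : ∀ z, 0 ≤ p z) (hq : ∀ z, 0 ≤ q z) (hr : ∀ z, 0 ≤ r z) (hs : ∀ z, 0 ≤ s z)
    (h : ∀ z x, z ≤ x → p z * q x ≤ r z * s x) (k : ℝ) (f : CI H) :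
    (∀ z ∈ Icc (0:ℝ) H, p z * ‖ex (Top k (rc q cq * f)) z‖ ≤
      r z * ∫ x in z..H, Real.exp (-|k| * (x - z)) * (s x * ‖ex f x‖)) ∧
    (∀ V : CI H, |k| * ∫ z in (0:ℝ)..H, p z * ‖ex V z‖ * ‖ex (Top k (rc q cq * f)) z‖ ≤
      n2 (rc r cr * V) * n2 (rc s cs * f)) := by
  have hpt := wTop_pt cq cs hp hq h k f
  refine ⟨hpt, fun V => ?_⟩
  have hcf := continuous_ex f
  have hcV := continuous_ex V
  have hcG : Continuous (fun x : ℝ => ((s x * ‖ex f x‖ : ℝ) : ℂ)) :=
    Complex.continuous_ofReal.comp (cs.mul hcf.norm)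
  let G : CI H := mkCI (fun x : ℝ => ((s x * ‖ex f x‖ : ℝ) : ℂ)) hcG.continuousOn
  have hG : ∀ x ∈ Icc (0:ℝ) H, ex G x = ((s x * ‖ex f x‖ : ℝ) : ℂ) := fun x hx => ex_mkCI _ hx
  have hTG : ∀ z ∈ Icc (0:ℝ) H, ex (Top k G) z =
      (((∫ x in z..H, Real.exp (-|k| * (x - z)) * (s x * ‖ex f x‖)) : ℝ) : ℂ) := by
    intro z hz
    rw [Top_apply k G hz, ← intervalIntegral.integral_ofReal]
    apply intervalIntegral.integral_congr
    intro x hx
    rw [uIcc_of_le hz.2] at hx
    have hx' : x ∈ Icc (0:ℝ) H := ⟨hz.1.trans hx.1, hx.2⟩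
    simp only
    rw [hG x hx']
    push_cast
    ring
  have hle : ∀ z ∈ Icc (0:ℝ) H, p z * ‖ex V z‖ * ‖ex (Top k (rc q cq * f)) z‖ ≤
      ‖ex ((rc r cr * V) * Top k G) z‖ := by
    intro z hz
    have h1 := hpt z hz
    have h2 : ∫ x in z..H, Real.exp (-|k| * (x - z)) * (s x * ‖ex f x‖) ≤ ‖ex (Top k G) z‖ := by
      rw [hTG z hz, Complex.norm_real]
      exact le_abs_self _
    rw [ex_mul, ex_mul, norm_mul, norm_mul, ex_rc r cr hz, Complex.norm_real, Real.norm_eq_abs,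
      abs_of_nonneg (hr z)]
    have h3 : p z * ‖ex (Top k (rc q cq * f)) z‖ ≤ r z * ‖ex (Top k G) z‖ :=
      h1.trans (mul_le_mul_of_nonneg_left h2 (hr z))
    have h4 := mul_le_mul_of_nonneg_left h3 (norm_nonneg (ex V z))
    linarith
  have h5 : ∫ z in (0:ℝ)..H, p z * ‖ex V z‖ * ‖ex (Top k (rc q cq * f)) z‖ ≤
      n1 ((rc r cr * V) * Top k G) := by
    unfold n1
    have c1 := continuous_ex (Top k (rc q cq * f))
    have c2 := continuous_ex ((rc r cr * V) * Top k G)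
    apply intervalIntegral.integral_mono_on hH.out.le
    · exact Continuous.intervalIntegrable (by fun_prop) _ _
    · exact Continuous.intervalIntegrable (by fun_prop) _ _
    · exact hle
  have h6 := n1_mul_le (rc r cr * V) (Top k G)
  have h7 := n2_Top k G
  have h8 : n2 G ≤ n2 (rc s cs * f) := by
    apply n2_mono
    intro z hz
    rw [hG z hz, ex_mul, norm_mul, ex_rc s cs hz, Complex.norm_real, Complex.norm_real,
      Real.norm_eq_abs, Real.norm_eq_abs, abs_mul, abs_norm]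
  have h9 := n2_nonneg (rc r cr * V)
  have h10 := abs_nonneg k
  calc |k| * ∫ z in (0:ℝ)..H, p z * ‖ex V z‖ * ‖ex (Top k (rc q cq * f)) z‖
      ≤ |k| * (n2 (rc r cr * V) * n2 (Top k G)) :=
        mul_le_mul_of_nonneg_left (h5.trans h6) h10
    _ = n2 (rc r cr * V) * (|k| * n2 (Top k G)) := by ring
    _ ≤ n2 (rc r cr * V) * n2 (rc s cs * f) :=
        mul_le_mul_of_nonneg_left (h7.trans h8) h9

end

end Pool.Agent.Lib.MP_79abb3_an.FW
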