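import Pool.Agent.Lib.MP_79abb3_an.FW.VelA
import Pool.Agent.Lib.MP_79abb3_an.FW.YoungB
import Pool.Agent.Lib.MP_79abb3_an.P25.FieldAt

/-!
FW-6: divergence form of the nonlinear term, in modes.
-/

set_option autoImplicit false
set_option linter.unusedSectionVars false

open MeasureTheory Set Filter Topology Function

namespace Pool.Agent.Lib.MP_79abb3_an.FW

open Pool.Agent.Lib.MP_79abb3_an.P25

section
variable {H : ℝ} [hH : Fact (0 < H)]

/-- `w_a w_b - v_a v_b` -/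
noncomputable def fR (ω : ℝ) (a b : ℤ → Xn H) (n : ℤ) : CI H :=
  conv (fw ω a) (fw ω b) n - conv (fv ω a) (fv ω b) n

/-- `v_a w_b + w_a v_b` -/
noncomputable def fQ (ω : ℝ) (a b : ℤ → Xn H) (n : ℤ) : CI H :=
  conv (fv ω a) (fw ω b) n + conv (fw ω a) (fv ω b) n

private theorem pda_ex_tsum {ι : Type} {f : ι → CI H} (s : Summable f) (z : ℝ) :
    ex (∑' i, f i) z = ∑' i, ex (f i) z := by
  have := (evL z : CI H →L[ℝ] ℂ).map_tsum s
  simpa only [evL_apply] using this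

/-- Termwise derivative of a series in `C([0,H])`. -/
theorem isD_tsum {ι : Type} {f f1 : ι → CI H} (h : ∀ i, IsD (f i) (f1 i))
    (s : Summable fun i => ‖f i‖) (s1 : Summable fun i => ‖f1 i‖) :
    IsD (∑' i, f i) (∑' i, f1 i) := by
  intro z hz
  have h1 : ∀ (i : ι) (z : ℝ), HasDerivAt
      (fun z => ex (f i) 0 + ∫ x in (0:ℝ)..z, ex (f1 i) x) (ex (f1 i) z) z := by
    intro i z
    have h2 : HasDerivAt (fun z => ∫ x in (0:ℝ)..z, ex (f1 i) x) (ex (f1 i) z) z :=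
      (continuous_ex (f1 i)).integral_hasStrictDerivAt 0 z |>.hasDerivAt
    exact h2.const_add _
  have s0 : Summable fun i => ex (f i) 0 :=
    Summable.of_norm (Summable.of_nonneg_of_le (fun _ => norm_nonneg _)
      (fun i => norm_ex_le (f i) 0) s)
  have h3 := hasDerivAt_tsum s1 h1 (fun i z => norm_ex_le (f1 i) z) (y₀ := 0) (by simpa using s0) z
  rw [pda_ex_tsum s1.of_norm]
  refine h3.hasDerivWithinAt.congr (fun x hx => ?_) ?_
  · rw [pda_ex_tsum s.of_norm]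
    exact tsum_congr fun i => fld_isD_integral (h i) hx
  · rw [pda_ex_tsum s.of_norm]
    exact tsum_congr fun i => fld_isD_integral (h i) hz

theorem pda_isD_mul {f f1 g g1 : CI H} (h : IsD f f1) (h' : IsD g g1) :
    IsD (f * g) (f1 * g + f * g1) := by
  intro z hz
  exact (h z hz).mul (h' z hz)

theorem pda_isD_add {f f1 g g1 : CI H} (h : IsD f f1) (h' : IsD g g1) :
    IsD (f + g) (f1 + g1) := by
  intro z hz
  exact (h z hz).add (h' z hz)

theorem pda_term_summable {a b : ℤ → CI H} (sa : Summable fun n => ‖a n‖)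
    (sb : Summable fun n => ‖b n‖) (n : ℤ) : Summable fun m => ‖a m * b (n - m)‖ := by
  refine Summable.of_nonneg_of_le (fun _ => norm_nonneg _) (fun m => ?_)
    (sa.mul_right (∑' k, ‖b k‖))
  refine (norm_mul_le _ _).trans ?_
  refine mul_le_mul_of_nonneg_left ?_ (norm_nonneg _)
  exact sb.le_tsum (n - m) fun _ _ => norm_nonneg _

theorem pda_hasSum {a b : ℤ → CI H} (sa : Summable fun n => ‖a n‖)
    (sb : Summable fun n => ‖b n‖) (n : ℤ) :
    HasSum (fun m => a m * b (n - m)) (conv a b n) :=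
  (pda_term_summable sa sb n).of_norm.hasSum

theorem conv_isD {a a1 b b1 : ℤ → CI H} (ha : ∀ n, IsD (a n) (a1 n)) (hb : ∀ n, IsD (b n) (b1 n))
    (sa : Summable fun n => ‖a n‖) (sa1 : Summable fun n => ‖a1 n‖)
    (sb : Summable fun n => ‖b n‖) (sb1 : Summable fun n => ‖b1 n‖) (n : ℤ) :
    IsD (conv a b n) (conv a1 b n + conv a b1 n) := by
  have h1 := isD_tsum (f := fun m => a m * b (n - m))
    (f1 := fun m => a1 m * b (n - m) + a m * b1 (n - m))
    (fun m => pda_isD_mul (ha m) (hb (n - m))) (pda_term_summable sa sb n)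
    (Summable.of_nonneg_of_le (fun _ => norm_nonneg _) (fun m => norm_add_le _ _)
      ((pda_term_summable sa1 sb n).add (pda_term_summable sa sb1 n)))
  have h2 : (∑' m, (a1 m * b (n - m) + a m * b1 (n - m))) = conv a1 b n + conv a b1 n :=
    ((pda_hasSum sa1 sb n).add (pda_hasSum sa sb1 n)).tsum_eq
  rw [h2] at h1
  exact h1

/-- Derivative of the vertical velocity. -/
noncomputable def fw1 (ω : ℝ) (a : ℤ → Xn H) (n : ℤ) : CI H := om1 (ω * n) (a n)

/-- Derivative of the horizontal velocity. -/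
noncomputable def fv1 (ω : ℝ) (a : ℤ → Xn H) (n : ℤ) : CI H := vv1 (ω * n) (a n)

theorem fw_isD (ω : ℝ) (a : ℤ → Xn H) (n : ℤ) : IsD (fw ω a n) (fw1 ω a n) := om_isD _ _

theorem fv_isD {ω : ℝ} {a : ℤ → Xn H} (ha : VF ω a) (n : ℤ) : IsD (fv ω a n) (fv1 ω a n) :=
  (ha.d n).sub ((om_isD (ω * n) (a n)).fa_csmul _)

theorem pda_div {ω : ℝ} {a : ℤ → Xn H} (ha : VF ω a) (n : ℤ) :
    (Complex.I * ((ω * n : ℝ) : ℂ)) • fv ω a n + fw1 ω a n = 0 := by
  have h1 := mode_div (ω * n) (a n)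
  have h2 : (a n).1.1 = 0 := by rw [ha.o n]; rfl
  rw [h2, neg_zero] at h1
  rw [← h1]
  congr 1
  refine ci_ext fun z _ => ?_
  simp only [ex_smul, ex_rsmul]
  rw [← mul_assoc, fld_is_mul_abs]
  rfl

theorem pda_vor {ω : ℝ} {a : ℤ → Xn H} (ha : VF ω a) (n : ℤ) :
    fo ω a n = (Complex.I * ((ω * n : ℝ) : ℂ)) • fw ω a n - fv1 ω a n := by
  have h2 : (a n).1.1 = 0 := by rw [ha.o n]; rfl
  have h := is_sq_mul (ω * n)
  have h3 := fld_is_mul_abs (ω * n)
  refine ci_ext fun z _ => ?_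
  simp only [fo, fw, fv1, Om, vv1, om1, om, jn, ha.e n, h2, map_zero, sub_zero,
    neg_zero, ex_add, ex_sub, ex_neg, ex_smul, ex_rsmul, ex_zero, zero_sub, mul_zero]
  linear_combination (-(is (ω * n) * ((|ω * n| : ℝ) : ℂ) * ex (Eop (ω * n) (a n).2.1) z)) * h3 +
    (ex (a n).2.1 z) * h

theorem pda_norm_w1 {ω : ℝ} {a : ℤ → Xn H} (ha : VF ω a) (n : ℤ) : ‖fw1 ω a n‖ ≤ 4 * ‖a n‖ := by
  have h1 := norm_kEop_le (ω * n) (a n).1.1
  have h2 := norm_kEop_le (ω * n) (a n).2.1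
  have h3 := n11 (a n)
  have h4 := n222 (a n)
  rw [ha.e n, norm_abs_smul] at h4
  have h7 := abs_nonneg (ω * (n : ℝ))
  have h8 : ‖(a n).1.1 - |ω * n| • Eop (ω * n) (a n).1.1‖ ≤ 2 * ‖a n‖ := by
    calc _ ≤ ‖(a n).1.1‖ + ‖|ω * n| • Eop (ω * n) (a n).1.1‖ := norm_sub_le _ _
      _ ≤ _ := by rw [norm_abs_smul]; linarith
  have h9 : ‖(is (ω * n) * ((|ω * n| : ℝ) : ℂ)) • ((a n).2.1 - |ω * n| • Eop (ω * n) (a n).2.1)‖ ≤
      2 * ‖a n‖ := by
    calc _ ≤ |ω * n| * ‖(a n).2.1 - |ω * n| • Eop (ω * n) (a n).2.1‖ := norm_isabs_smul_le _ _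
      _ ≤ |ω * n| * (‖(a n).2.1‖ + ‖|ω * n| • Eop (ω * n) (a n).2.1‖) := by
          gcongr; exact norm_sub_le _ _
      _ = |ω * n| * ‖(a n).2.1‖ + |ω * n| * (|ω * n| * ‖Eop (ω * n) (a n).2.1‖) := by
          rw [norm_abs_smul]; ring
      _ ≤ |ω * n| * ‖(a n).2.1‖ + |ω * n| * ‖(a n).2.1‖ := by gcongr
      _ ≤ 2 * ‖a n‖ := by linarith
  calc ‖fw1 ω a n‖ ≤ ‖-((a n).1.1 - |ω * n| • Eop (ω * n) (a n).1.1)‖ +
        ‖(is (ω * n) * ((|ω * n| : ℝ) : ℂ)) • ((a n).2.1 - |ω * n| • Eop (ω * n) (a n).2.1)‖ :=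
          norm_sub_le _ _
    _ ≤ _ := by rw [norm_neg]; linarith

theorem pda_norm_v1 {ω : ℝ} {a : ℤ → Xn H} (ha : VF ω a) (n : ℤ) : ‖fv1 ω a n‖ ≤ 5 * ‖a n‖ := by
  have h1 := pda_norm_w1 ha n
  have h2 := n221 (a n)
  calc ‖fv1 ω a n‖ ≤ ‖(a n).2.2.1‖ + ‖is (ω * n) • fw1 ω a n‖ := norm_sub_le _ _
    _ ≤ ‖(a n).2.2.1‖ + ‖fw1 ω a n‖ := by gcongr; exact norm_is_smul_le _ _
    _ ≤ _ := by linarith

theorem pda_sw {ω : ℝ} {a : ℤ → Xn H} (ha : VF ω a) : Summable fun n => ‖fw ω a n‖ :=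
  Summable.of_nonneg_of_le (fun _ => norm_nonneg _)
    (fun n => (vel_bounds ha.o n).1.trans (n21 (a n))) ha.s

theorem pda_sv {ω : ℝ} {a : ℤ → Xn H} (ha : VF ω a) : Summable fun n => ‖fv ω a n‖ :=
  Summable.of_nonneg_of_le (fun _ => norm_nonneg _)
    (fun n => (vel_bounds ha.o n).2.2.2.1.trans
      (mul_le_mul_of_nonneg_left (n21 (a n)) (by norm_num))) (ha.s.mul_left 2)

theorem pda_sw1 {ω : ℝ} {a : ℤ → Xn H} (ha : VF ω a) : Summable fun n => ‖fw1 ω a n‖ :=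
  Summable.of_nonneg_of_le (fun _ => norm_nonneg _) (pda_norm_w1 ha) (ha.s.mul_left 4)

theorem pda_sv1 {ω : ℝ} {a : ℤ → Xn H} (ha : VF ω a) : Summable fun n => ‖fv1 ω a n‖ :=
  Summable.of_nonneg_of_le (fun _ => norm_nonneg _) (pda_norm_v1 ha) (ha.s.mul_left 5)

theorem pda_so {ω : ℝ} {a : ℤ → Xn H} (ha : VF ω a) : Summable fun n => ‖fo ω a n‖ := by
  refine Summable.of_nonneg_of_le (fun _ => norm_nonneg _) (fun n => ?_) (ha.s.mul_left 2)
  rw [fo_eq ha.o n]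
  have h1 := n222 (a n)
  have h2 := n221 (a n)
  have h3 := norm_sub_le (a n).2.2.2 (a n).2.2.1
  linarith

theorem div_form {ω : ℝ} {a b : ℤ → Xn H} (ha : VF ω a) (hb : VF ω b) :
    ∃ R1 Q1 : ℤ → CI H, (∀ n, IsD (fR ω a b n) (R1 n)) ∧ (∀ n, IsD (fQ ω a b n) (Q1 n)) ∧
      (∀ n : ℤ, conv (fo ω a) (fw ω b) n + conv (fo ω b) (fw ω a) n =
        (Complex.I * ((ω * n : ℝ) : ℂ)) • fR ω a b n - Q1 n) ∧
      (∀ n : ℤ, conv (fo ω a) (fv ω b) n + conv (fo ω b) (fv ω a) n =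
        (Complex.I * ((ω * n : ℝ) : ℂ)) • fQ ω a b n + R1 n) := by
  have wa := pda_sw ha
  have wb := pda_sw hb
  have va := pda_sv ha
  have vb := pda_sv hb
  have wa1 := pda_sw1 ha
  have wb1 := pda_sw1 hb
  have va1 := pda_sv1 ha
  have vb1 := pda_sv1 hb
  have oa := pda_so ha
  have ob := pda_so hb
  have cast : ∀ n m : ℤ, ((ω * n : ℝ) : ℂ) = ((ω * m : ℝ) : ℂ) + ((ω * ((n - m : ℤ) : ℝ) : ℝ) : ℂ) := by
    intro n m
    push_cast
    ring
  refine ⟨fun n => (conv (fw1 ω a) (fw ω b) n + conv (fw ω a) (fw1 ω b) n) -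
      (conv (fv1 ω a) (fv ω b) n + conv (fv ω a) (fv1 ω b) n),
    fun n => (conv (fv1 ω a) (fw ω b) n + conv (fv ω a) (fw1 ω b) n) +
      (conv (fw1 ω a) (fv ω b) n + conv (fw ω a) (fv1 ω b) n), fun n => ?_, fun n => ?_,
    fun n => ?_, fun n => ?_⟩
  · exact (conv_isD (fw_isD ω a) (fw_isD ω b) wa wa1 wb wb1 n).sub
      (conv_isD (fv_isD ha) (fv_isD hb) va va1 vb vb1 n)
  · exact pda_isD_add (conv_isD (fv_isD ha) (fw_isD ω b) va va1 wb wb1 n)
      (conv_isD (fw_isD ω a) (fv_isD hb) wa wa1 vb vb1 n)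
  · rw [conv_comm (fo ω b) (fw ω a) n]
    have hL := (pda_hasSum oa wb n).add (pda_hasSum wa ob n)
    have hR := ((((pda_hasSum wa wb n).sub (pda_hasSum va vb n)).const_smul
      (Complex.I * ((ω * n : ℝ) : ℂ))).sub
      (((pda_hasSum va1 wb n).add (pda_hasSum va wb1 n)).add
        ((pda_hasSum wa1 vb n).add (pda_hasSum wa vb1 n))))
    refine hL.tsum_eq.symm.trans ((tsum_congr fun m => ?_).trans hR.tsum_eq)
    rw [pda_vor ha m, pda_vor hb (n - m)]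
    have d1 := pda_div ha m
    have d2 := pda_div hb (n - m)
    refine ci_ext fun z _ => ?_
    have e1 := congrArg (fun f : CI H => ex f z) d1
    have e2 := congrArg (fun f : CI H => ex f z) d2
    simp only [ex_add, ex_smul, ex_zero] at e1 e2
    simp only [ex_add, ex_sub, ex_mul, ex_smul]
    rw [cast n m]
    linear_combination (ex (fv ω b (n - m)) z) * e1 + (ex (fv ω a m) z) * e2
  · rw [conv_comm (fo ω b) (fv ω a) n]
    have hL := (pda_hasSum oa vb n).add (pda_hasSum va ob n)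
    have hR := ((((pda_hasSum va wb n).add (pda_hasSum wa vb n)).const_smul
      (Complex.I * ((ω * n : ℝ) : ℂ))).add
      (((pda_hasSum wa1 wb n).add (pda_hasSum wa wb1 n)).sub
        ((pda_hasSum va1 vb n).add (pda_hasSum va vb1 n))))
    refine hL.tsum_eq.symm.trans ((tsum_congr fun m => ?_).trans hR.tsum_eq)
    rw [pda_vor ha m, pda_vor hb (n - m)]
    have d1 := pda_div ha m
    have d2 := pda_div hb (n - m)
    refine ci_ext fun z _ => ?_
    have e1 := congrArg (fun f : CI H => ex f z) d1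
    have e2 := congrArg (fun f : CI H => ex f z) d2
    simp only [ex_add, ex_smul, ex_zero] at e1 e2
    simp only [ex_add, ex_sub, ex_mul, ex_smul]
    rw [cast n m]
    linear_combination (-ex (fw ω b (n - m)) z) * e1 - (ex (fw ω a m) z) * e2

end

end Pool.Agent.Lib.MP_79abb3_an.FW
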