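import Pool.Agent.Lib.MP_79abb3_an.FW.NormsC
import Pool.Agent.Lib.MP_79abb3_an.FW.PDa
import Pool.Agent.Lib.MP_79abb3_an.FW.VelB

/-!
FW-7: pairing of the nonlinear term with a test function.
-/

set_option autoImplicit false
set_option linter.unusedSectionVars false

open MeasureTheory Set Filter Topology Function

namespace Pool.Agent.Lib.MP_79abb3_an.FW

open Pool.Agent.Lib.MP_79abb3_an.P25

section
variable {H : ℝ} [hH : Fact (0 < H)]

private theorem bpJ_sub_right (f g g' : CI H) : bpJ f (g - g') = bpJ f g - bpJ f g' := by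
  rw [bpJ_comm, bpJ_sub_left, bpJ_comm g f, bpJ_comm g' f]

private theorem bpJ_add_right (f g g' : CI H) : bpJ f (g + g') = bpJ f g + bpJ f g' := by
  rw [bpJ_comm, bpJ_add_left, bpJ_comm g f, bpJ_comm g' f]

private theorem bpJ_rsmul_right (c : ℝ) (f g : CI H) : bpJ f (c • g) = c * bpJ f g := by
  rw [bpJ_comm, bpJ_rsmul_left, bpJ_comm g f]

private theorem pdb_key {k : ℝ} {f f1 : CI H} (hf : IsD f f1) (f0 : ex f 0 = 0) :
    f - |k| • Eop k f = Eop k f1 := by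
  have hE := Eop_isD k f
  have h1 : IsD (|k| • Eop k f) (|k| • (f - |k| • Eop k f)) := by
    intro z hz
    exact (hE z hz).const_mul ((|k| : ℝ) : ℂ)
  apply Eop_unique k (hf.sub h1)
  · rw [ex_sub, ex_rsmul, f0, Eop_zero]
    ring
  · abel

/-- `h = E_k f'` for a Dirichlet test function `f`. -/
theorem test_h {k : ℝ} {f f1 : CI H} (hf : IsD f f1) (f0 : ex f 0 = 0) :
    |k| • Eop k f = f - Eop k f1 ∧ IsD (Eop k f1) (f1 - |k| • Eop k f1) ∧
    IsD (f - Eop k f1) (|k| • Eop k f1) ∧ ‖Eop k f1‖ ≤ 2 * ‖f‖ ∧ n2 (Eop k f1) ≤ 2 * n2 f ∧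
    |k| * ‖Eop k f1‖ ≤ ‖f1‖ ∧ |k| * n2 (Eop k f1) ≤ n2 f1 ∧
    |k| * ‖f - Eop k f1‖ ≤ |k| * ‖f‖ ∧ |k| * n2 (f - Eop k f1) ≤ |k| * n2 f := by
  have key := pdb_key (k := k) hf f0
  have e1 : |k| • Eop k f = f - Eop k f1 := by
    rw [← key]
    abel
  have hn : ‖|k| • Eop k f‖ ≤ ‖f‖ := by
    rw [norm_smul, Real.norm_eq_abs, abs_abs]
    exact norm_kEop_le k f
  have hn2 : n2 (|k| • Eop k f) ≤ n2 f := by
    rw [n2_rsmul, abs_abs]
    exact n2_Eop k f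
  refine ⟨e1, Eop_isD k f1, ?_, ?_, ?_, norm_kEop_le k f1, n2_Eop k f1, ?_, ?_⟩
  · have h := hf.sub (Eop_isD k f1)
    have e2 : f1 - (f1 - |k| • Eop k f1) = |k| • Eop k f1 := by abel
    rw [e2] at h
    exact h
  · rw [← key]
    refine (norm_sub_le _ _).trans ?_
    linarith
  · rw [← key]
    refine (n2_sub _ _).trans ?_
    linarith
  · rw [← e1]
    exact mul_le_mul_of_nonneg_left hn (abs_nonneg k)
  · rw [← e1]
    exact mul_le_mul_of_nonneg_left hn2 (abs_nonneg k)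

/-- Pairing of one term. -/
theorem bp_Bf {ω : ℝ} {a b : ℤ → Xn H} (ha : VF ω a) (hb : VF ω b) (n : ℤ) {f f1 : CI H}
    (hf : IsD f f1) (f0 : ex f 0 = 0) :
    bpJ (Bf ω a b n).2 f = bpJ (conv (fo ω a) (fw ω b) n) (Eop (ω * n) f1) -
      is (ω * n) * bpJ (conv (fo ω a) (fv ω b) n) (f - Eop (ω * n) f1) := by
  have key := pdb_key (k := ω * n) hf f0
  have e1 : f - Eop (ω * n) f1 = |ω * n| • Eop (ω * n) f := by
    rw [← key]
    abel
  rw [Bf2_eq hb.o ha.o n, bpJ_sub_left, bpJ_adj', bpJ_add_left, bpJ_rsmul_left, bpJ_smul_left, e1,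
    ← key, bpJ_sub_right, bpJ_rsmul_right, bpJ_rsmul_right]
  have h := bp_is_mul_abs (ω * n)
  rw [← mul_assoc (is (ω * n)), h]
  ring

/-- Pairing of the symmetric sum. -/
theorem bp_sym {ω : ℝ} {a b : ℤ → Xn H} (ha : VF ω a) (hb : VF ω b) (n : ℤ) {f f1 : CI H}
    (hf : IsD f f1) (f0 : ex f 0 = 0) (fH : ex f H = 0) :
    bpJ ((Bf ω a b n).2 + (Bf ω b a n).2) f =
      2 * (Complex.I * ((ω * n : ℝ) : ℂ)) * bpJ (fR ω a b n) (Eop (ω * n) f1) +
      bpJ (fQ ω a b n) (f1 + |ω * n| • f - (2 * |ω * n|) • Eop (ω * n) f1) +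
      (is (ω * n) * ex (fR ω a b n) H - ex (fQ ω a b n) H) * ex (Eop (ω * n) f1) H := by
  obtain ⟨R1, Q1, hR, hQ, hw, hv⟩ := div_form ha hb
  obtain ⟨e1, dh, dg, -⟩ := test_h (k := ω * n) hf f0
  rw [bpJ_add_left, bp_Bf ha hb n hf f0, bp_Bf hb ha n hf f0]
  set h := Eop (ω * n) f1 with hh
  set k : ℝ := ω * n with hk
  have h0 : ex h 0 = 0 := Eop_zero k f1
  have s1 : bpJ (conv (fo ω a) (fw ω b) n) h + bpJ (conv (fo ω b) (fw ω a) n) h =
      (Complex.I * ((k : ℝ) : ℂ)) * bpJ (fR ω a b n) h - bpJ (Q1 n) h := by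
    rw [← bpJ_add_left, hw n, bpJ_sub_left, bpJ_smul_left]
  have s2 : bpJ (conv (fo ω a) (fv ω b) n) (f - h) + bpJ (conv (fo ω b) (fv ω a) n) (f - h) =
      (Complex.I * ((k : ℝ) : ℂ)) * bpJ (fQ ω a b n) (f - h) + bpJ (R1 n) (f - h) := by
    rw [← bpJ_add_left, hv n, bpJ_add_left, bpJ_smul_left]
  have p1 : bpJ (Q1 n) h = ex (fQ ω a b n) H * ex h H - bpJ (fQ ω a b n) (f1 - |k| • h) := by
    rw [bpJ_parts (hQ n) dh, h0]
    ring
  have p2 : bpJ (R1 n) (f - h) = -(ex (fR ω a b n) H * ex h H) - |k| * bpJ (fR ω a b n) h := by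
    rw [bpJ_parts (hR n) dg, ex_sub, ex_sub, h0, f0, fH, bpJ_rsmul_right]
    ring
  have q1 : bpJ (fQ ω a b n) (f1 + |k| • f - (2 * |k|) • h) =
      bpJ (fQ ω a b n) (f1 - |k| • h) + |k| * bpJ (fQ ω a b n) (f - h) := by
    rw [← bpJ_rsmul_right, ← bpJ_add_right]
    congr 1
    refine ci_ext fun z _ => ?_
    simp only [ex_add, ex_sub, ex_rsmul]
    push_cast
    ring
  have hia := bp_is_mul_abs k
  have hsq : is k * (Complex.I * ((k : ℝ) : ℂ)) = -((|k| : ℝ) : ℂ) := by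
    rw [← hia, ← mul_assoc]
    exact is_sq_mul k
  have hia' : is k * ((|k| : ℝ) : ℂ) = Complex.I * ((k : ℝ) : ℂ) := hia
  rw [q1]
  have step : bpJ (conv (fo ω a) (fw ω b) n) h - is k * bpJ (conv (fo ω a) (fv ω b) n) (f - h) +
      (bpJ (conv (fo ω b) (fw ω a) n) h - is k * bpJ (conv (fo ω b) (fv ω a) n) (f - h)) =
      ((Complex.I * ((k : ℝ) : ℂ)) * bpJ (fR ω a b n) h - bpJ (Q1 n) h) -
      is k * ((Complex.I * ((k : ℝ) : ℂ)) * bpJ (fQ ω a b n) (f - h) + bpJ (R1 n) (f - h)) := by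
    rw [← s1, ← s2]
    ring
  rw [step, p1, p2]
  linear_combination (-bpJ (fQ ω a b n) (f - h)) * hsq + (bpJ (fR ω a b n) h) * hia'

end

end Pool.Agent.Lib.MP_79abb3_an.FW
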