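import Pool.Agent.Lib.MP_79abb3_an.FW.PDa

/-!
FW-8: the boundary term at `z = H`.
-/

set_option autoImplicit false
set_option linter.unusedSectionVars false

open MeasureTheory Set Filter Topology Function

namespace Pool.Agent.Lib.MP_79abb3_an.FW

open Pool.Agent.Lib.MP_79abb3_an.P25

section
variable {H : ℝ} [hH : Fact (0 < H)]

private theorem pdc_sum {α β : ℤ → ℝ} (hα : Summable α) (hβ : Summable β) (h0 : ∀ n, 0 ≤ α n)
    (h1 : ∀ n, 0 ≤ β n) (n : ℤ) : Summable fun m => α m * β (n - m) :=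
  Summable.of_nonneg_of_le (fun m => mul_nonneg (h0 m) (h1 _))
    (fun m => mul_le_mul_of_nonneg_left (hβ.le_tsum (n - m) fun j _ => h1 j) (h0 m))
    (hα.mul_right (∑' j, β j))

private theorem pdc_sumC {f g : ℤ → CI H} (hf : Summable fun n => ‖f n‖)
    (hg : Summable fun n => ‖g n‖) (n : ℤ) : Summable fun m => f m * g (n - m) :=
  Summable.of_norm (Summable.of_nonneg_of_le (fun _ => norm_nonneg _)
    (fun _ => norm_mul_le _ _)
    (pdc_sum hf hg (fun _ => norm_nonneg _) (fun _ => norm_nonneg _) n))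

private theorem pdc_sign {ω : ℝ} (hω : 0 < ω) (m : ℤ) :
    (0 < m ∧ Real.sign (ω * m) = 1) ∨ (m = 0 ∧ Real.sign (ω * m) = 0) ∨
      (m < 0 ∧ Real.sign (ω * m) = -1) := by
  rcases lt_trichotomy m 0 with h | h | h
  · refine Or.inr (Or.inr ⟨h, Real.sign_of_neg (mul_neg_of_pos_of_neg hω (by exact_mod_cast h))⟩)
  · refine Or.inr (Or.inl ⟨h, ?_⟩)
    rw [h]; simp
  · refine Or.inl ⟨h, Real.sign_of_pos (mul_pos hω (by exact_mod_cast h))⟩

private theorem pdc_key {ω : ℝ} (hω : 0 < ω) {n : ℤ} (hn : n ≠ 0) (m : ℤ) (x y : ℂ)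
    (hx : m = 0 → x = 0) (hy : n - m = 0 → y = 0) :
    ‖is (ω * n) * (x * y - (-(is (ω * m) * x)) * (-(is (ω * (n - m : ℤ)) * y))) -
      ((-(is (ω * m) * x)) * y + x * (-(is (ω * (n - m : ℤ)) * y)))‖ ≤
      if |ω * m| + |ω * (n - m : ℤ)| = |ω * n| then 4 * (‖x‖ * ‖y‖) else 0 := by
  have e : is (ω * n) * (x * y - (-(is (ω * m) * x)) * (-(is (ω * (n - m : ℤ)) * y))) -
      ((-(is (ω * m) * x)) * y + x * (-(is (ω * (n - m : ℤ)) * y))) =
      (Complex.I * ((Real.sign (ω * n) * (1 + Real.sign (ω * m) * Real.sign (ω * (n - m : ℤ))) +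
        Real.sign (ω * m) + Real.sign (ω * (n - m : ℤ)) : ℝ) : ℂ)) * (x * y) := by
    simp only [is]
    push_cast
    have hI : Complex.I ^ 2 = -1 := Complex.I_sq
    linear_combination (-(Complex.I * ((Real.sign (ω * n) : ℝ) : ℂ) *
      ((Real.sign (ω * m) : ℝ) : ℂ) * ((Real.sign (ω * (n - m)) : ℝ) : ℂ) * x * y)) * hI
  rw [e, norm_mul, norm_mul, norm_mul, Complex.norm_I, one_mul, Complex.norm_real, Real.norm_eq_abs]
  have habs : ∀ j : ℤ, |ω * j| = ω * |(j:ℝ)| := fun j => by rw [abs_mul, abs_of_pos hω]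
  have hxy : 0 ≤ ‖x‖ * ‖y‖ := by positivity
  rcases pdc_sign hω m with ⟨h1, h2⟩ | ⟨h1, h2⟩ | ⟨h1, h2⟩
  · rcases pdc_sign hω (n - m) with ⟨h3, h4⟩ | ⟨h3, h4⟩ | ⟨h3, h4⟩
    · have hn' : 0 < n := by omega
      rcases pdc_sign hω n with ⟨h5, h6⟩ | ⟨h5, h6⟩ | ⟨h5, h6⟩
      · have hc : |ω * m| + |ω * (n - m : ℤ)| = |ω * n| := by
          rw [habs, habs, habs, abs_of_pos (by exact_mod_cast h1 : (0:ℝ) < m),
            abs_of_pos (by exact_mod_cast h3 : (0:ℝ) < (n - m : ℤ)),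
            abs_of_pos (by exact_mod_cast h5 : (0:ℝ) < n)]
          push_cast; ring
        rw [if_pos hc, h2, h4, h6]
        norm_num
      · omega
      · omega
    · rw [hy h3]; simp
    · have h0 : Real.sign (ω * n) * (1 + Real.sign (ω * m) * Real.sign (ω * (n - m : ℤ))) +
        Real.sign (ω * m) + Real.sign (ω * (n - m : ℤ)) = 0 := by
        rw [h2, h4]; norm_num
      rw [h0, abs_zero, zero_mul]
      split_ifs
      · positivity
      · exact le_rfl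
  · rw [hx h1]; simp
  · rcases pdc_sign hω (n - m) with ⟨h3, h4⟩ | ⟨h3, h4⟩ | ⟨h3, h4⟩
    · have h0 : Real.sign (ω * n) * (1 + Real.sign (ω * m) * Real.sign (ω * (n - m : ℤ))) +
        Real.sign (ω * m) + Real.sign (ω * (n - m : ℤ)) = 0 := by
        rw [h2, h4]; norm_num
      rw [h0, abs_zero, zero_mul]
      split_ifs
      · positivity
      · exact le_rfl
    · rw [hy h3]; simp
    · have hn' : n < 0 := by omega
      rcases pdc_sign hω n with ⟨h5, h6⟩ | ⟨h5, h6⟩ | ⟨h5, h6⟩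
      · omega
      · omega
      · have hc : |ω * m| + |ω * (n - m : ℤ)| = |ω * n| := by
          rw [habs, habs, habs, abs_of_neg (by exact_mod_cast h1 : (m:ℝ) < 0),
            abs_of_neg (by exact_mod_cast h3 : ((n - m : ℤ):ℝ) < 0),
            abs_of_neg (by exact_mod_cast h5 : (n:ℝ) < 0)]
          push_cast; ring
        rw [if_pos hc, h2, h4, h6]
        norm_num

/-- Only pairs of indices of the same sign contribute. -/
theorem bdry_H {ω : ℝ} (hω : 0 < ω) {a b : ℤ → Xn H} (ha : VF ω a) (hb : VF ω b)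
    (ha0 : ∀ n, ex (a n).2.1 H = 0) (hb0 : ∀ n, ex (b n).2.1 H = 0) (n : ℤ) {f1 : CI H}
    (h0 : n = 0 → ex (Eop (ω * n) f1) H = 0) :
    ‖(is (ω * n) * ex (fR ω a b n) H - ex (fQ ω a b n) H) * ex (Eop (ω * n) f1) H‖ ≤
        4 * (∑' m, n2 (a m).2.1 * n2 (b (n - m)).2.1) * ‖f1‖ ∧
    ‖(is (ω * n) * ex (fR ω a b n) H - ex (fQ ω a b n) H) * ex (Eop (ω * n) f1) H‖ ≤
        4 * (∑' m, ‖(a m).2.1‖ * n2 (b (n - m)).2.1) * n2 f1 := by
  have hsa : Summable fun m => ‖(a m).2.1‖ :=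
    Summable.of_nonneg_of_le (fun _ => norm_nonneg _)
      (fun m => (norm_fst_le (a m).2).trans (norm_snd_le (a m))) ha.s
  have hsb : Summable fun m => ‖(b m).2.1‖ :=
    Summable.of_nonneg_of_le (fun _ => norm_nonneg _)
      (fun m => (norm_fst_le (b m).2).trans (norm_snd_le (b m))) hb.s
  have hwa : Summable fun m => ‖fw ω a m‖ :=
    Summable.of_nonneg_of_le (fun _ => norm_nonneg _) (fun m => (vel_bounds ha.o m).1) hsa
  have hwb : Summable fun m => ‖fw ω b m‖ :=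
    Summable.of_nonneg_of_le (fun _ => norm_nonneg _) (fun m => (vel_bounds hb.o m).1) hsb
  have hva : Summable fun m => ‖fv ω a m‖ :=
    Summable.of_nonneg_of_le (fun _ => norm_nonneg _) (fun m => (vel_bounds ha.o m).2.2.2.1)
      (hsa.mul_left 2)
  have hvb : Summable fun m => ‖fv ω b m‖ :=
    Summable.of_nonneg_of_le (fun _ => norm_nonneg _) (fun m => (vel_bounds hb.o m).2.2.2.1)
      (hsb.mul_left 2)
  have hna := (n2_summable hsa).1
  have hnb := (n2_summable hsb).1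
  -- the two summable majorants
  have hS1 : Summable fun m => n2 (a m).2.1 * n2 (b (n - m)).2.1 :=
    pdc_sum hna hnb (fun _ => n2_nonneg _) (fun _ => n2_nonneg _) n
  have hS2 : Summable fun m => ‖(a m).2.1‖ * n2 (b (n - m)).2.1 :=
    pdc_sum hsa hnb (fun _ => norm_nonneg _) (fun _ => n2_nonneg _) n
  have hS1' : 0 ≤ ∑' m, n2 (a m).2.1 * n2 (b (n - m)).2.1 :=
    tsum_nonneg fun m => mul_nonneg (n2_nonneg _) (n2_nonneg _)
  have hS2' : 0 ≤ ∑' m, ‖(a m).2.1‖ * n2 (b (n - m)).2.1 :=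
    tsum_nonneg fun m => mul_nonneg (norm_nonneg _) (n2_nonneg _)
  by_cases hn : n = 0
  · rw [h0 hn, mul_zero, norm_zero]
    exact ⟨by positivity, mul_nonneg (by positivity) (n2_nonneg _)⟩
  -- values at `H`
  have hvaH : ∀ m, ex (fv ω a m) H = -(is (ω * m) * ex (fw ω a m) H) := by
    intro m; rw [fv_eq, ex_sub, ex_smul, ha0 m, zero_sub]
  have hvbH : ∀ m, ex (fv ω b m) H = -(is (ω * m) * ex (fw ω b m) H) := by
    intro m; rw [fv_eq, ex_sub, ex_smul, hb0 m, zero_sub]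
  have hwa0 : ex (fw ω a 0) H = 0 := by
    rw [fw_eq ha.o]; simp
  have hwb0 : ex (fw ω b 0) H = 0 := by
    rw [fw_eq hb.o]; simp
  have hprodS : ∀ {f g : ℤ → CI H}, (Summable fun m => ‖f m‖) → (Summable fun m => ‖g m‖) →
      Summable fun m => ex (f m) H * ex (g (n - m)) H := by
    intro f g hf hg
    refine Summable.of_norm (Summable.of_nonneg_of_le (fun _ => norm_nonneg _) (fun m => ?_)
      (pdc_sum hf hg (fun _ => norm_nonneg _) (fun _ => norm_nonneg _) n))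
    rw [norm_mul]
    exact mul_le_mul (norm_ex_le _ _) (norm_ex_le _ _) (norm_nonneg _) (norm_nonneg _)
  set T : ℤ → ℂ := fun m =>
    is (ω * n) * (ex (fw ω a m) H * ex (fw ω b (n - m)) H -
      (-(is (ω * m) * ex (fw ω a m) H)) * (-(is (ω * (n - m : ℤ)) * ex (fw ω b (n - m)) H))) -
      ((-(is (ω * m) * ex (fw ω a m) H)) * ex (fw ω b (n - m)) H +
        ex (fw ω a m) H * (-(is (ω * (n - m : ℤ)) * ex (fw ω b (n - m)) H))) with hT
  have hE : is (ω * n) * ex (fR ω a b n) H - ex (fQ ω a b n) H = ∑' m, T m := by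
    rw [fR, fQ, ex_sub, ex_add, ex_conv (pdc_sumC hwa hwb n), ex_conv (pdc_sumC hva hvb n),
      ex_conv (pdc_sumC hva hwb n), ex_conv (pdc_sumC hwa hvb n),
      ← (hprodS hwa hwb).tsum_sub (hprodS hva hvb), ← (hprodS hva hwb).tsum_add (hprodS hwa hvb),
      ← tsum_mul_left,
      ← (((hprodS hwa hwb).sub (hprodS hva hvb)).mul_left _).tsum_sub
        ((hprodS hva hwb).add (hprodS hwa hvb))]
    refine tsum_congr fun m => ?_
    rw [hT, hvaH, hvbH]
  have hkey : ∀ m, ‖T m‖ ≤ if |ω * m| + |ω * (n - m : ℤ)| = |ω * n| then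
      4 * (‖ex (fw ω a m) H‖ * ‖ex (fw ω b (n - m)) H‖) else 0 := by
    intro m
    exact pdc_key hω hn m _ _ (fun h => by rw [h]; exact hwa0) (fun h => by rw [h]; exact hwb0)
  have hk0 : 0 ≤ |ω * n| := abs_nonneg _
  have hE1 : ‖ex (Eop (ω * n) f1) H‖ ≤ ‖Eop (ω * n) f1‖ := norm_ex_le _ _
  have hT1 : ∀ m, ‖T m‖ ≤ |ω * n| * (n2 (a m).2.1 * n2 (b (n - m)).2.1) := by
    intro m
    have hp : 0 ≤ n2 (a m).2.1 * n2 (b (n - m)).2.1 := mul_nonneg (n2_nonneg _) (n2_nonneg _)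
    refine (hkey m).trans ?_
    split_ifs with hc
    · have h1 := fw_H (ω := ω) ha.o m
      have h2 := fw_H (ω := ω) hb.o (n - m)
      have h3 : √(|ω * m| / 2) * √(|ω * (n - m : ℤ)| / 2) ≤ |ω * n| / 4 := by
        have e1 := Real.sq_sqrt (show 0 ≤ |ω * m| / 2 by positivity)
        have e2 := Real.sq_sqrt (show 0 ≤ |ω * (n - m : ℤ)| / 2 by positivity)
        nlinarith [sq_nonneg (√(|ω * m| / 2) - √(|ω * (n - m : ℤ)| / 2))]
      calc 4 * (‖ex (fw ω a m) H‖ * ‖ex (fw ω b (n - m)) H‖)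
          ≤ 4 * ((√(|ω * m| / 2) * n2 (a m).2.1) *
            (√(|ω * (n - m : ℤ)| / 2) * n2 (b (n - m)).2.1)) := by
            refine mul_le_mul_of_nonneg_left ?_ (by norm_num)
            exact mul_le_mul h1 h2 (norm_nonneg _) (mul_nonneg (Real.sqrt_nonneg _) (n2_nonneg _))
        _ = 4 * (√(|ω * m| / 2) * √(|ω * (n - m : ℤ)| / 2)) *
            (n2 (a m).2.1 * n2 (b (n - m)).2.1) := by ring
        _ ≤ 4 * (|ω * n| / 4) * (n2 (a m).2.1 * n2 (b (n - m)).2.1) := by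
            refine mul_le_mul_of_nonneg_right ?_ hp
            exact mul_le_mul_of_nonneg_left h3 (by norm_num)
        _ = _ := by ring
    · positivity
  have hT2 : ∀ m, ‖T m‖ ≤ 4 * √(|ω * n| / 2) * (‖(a m).2.1‖ * n2 (b (n - m)).2.1) := by
    intro m
    have hp : 0 ≤ ‖(a m).2.1‖ * n2 (b (n - m)).2.1 := mul_nonneg (norm_nonneg _) (n2_nonneg _)
    refine (hkey m).trans ?_
    split_ifs with hc
    · have h1 := (norm_ex_le (fw ω a m) H).trans (vel_bounds ha.o m).1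
      have h2 := fw_H (ω := ω) hb.o (n - m)
      have h3 : √(|ω * (n - m : ℤ)| / 2) ≤ √(|ω * n| / 2) := by
        refine Real.sqrt_le_sqrt ?_
        have := abs_nonneg (ω * m)
        linarith
      calc 4 * (‖ex (fw ω a m) H‖ * ‖ex (fw ω b (n - m)) H‖)
          ≤ 4 * (‖(a m).2.1‖ * (√(|ω * n| / 2) * n2 (b (n - m)).2.1)) := by
            refine mul_le_mul_of_nonneg_left ?_ (by norm_num)
            refine mul_le_mul h1 (h2.trans ?_) (norm_nonneg _) (norm_nonneg _)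
            exact mul_le_mul_of_nonneg_right h3 (n2_nonneg _)
        _ = _ := by ring
    · positivity
  rw [hE, norm_mul]
  constructor
  · have hsum := hS1.mul_left |ω * n|
    have hTn : Summable fun m => ‖T m‖ :=
      Summable.of_nonneg_of_le (fun _ => norm_nonneg _) hT1 hsum
    have h1 : ‖∑' m, T m‖ ≤ |ω * n| * ∑' m, n2 (a m).2.1 * n2 (b (n - m)).2.1 := by
      rw [← tsum_mul_left]
      exact (norm_tsum_le_tsum_norm hTn).trans (hTn.tsum_le_tsum hT1 hsum)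
    have h2 := norm_kEop_le (ω * n) f1
    have hf := norm_nonneg f1
    calc ‖∑' m, T m‖ * ‖ex (Eop (ω * n) f1) H‖
        ≤ (|ω * n| * ∑' m, n2 (a m).2.1 * n2 (b (n - m)).2.1) * ‖Eop (ω * n) f1‖ :=
          mul_le_mul h1 hE1 (norm_nonneg _) (by positivity)
      _ = (∑' m, n2 (a m).2.1 * n2 (b (n - m)).2.1) * (|ω * n| * ‖Eop (ω * n) f1‖) := by ring
      _ ≤ (∑' m, n2 (a m).2.1 * n2 (b (n - m)).2.1) * ‖f1‖ :=
          mul_le_mul_of_nonneg_left h2 hS1'
      _ ≤ 4 * (∑' m, n2 (a m).2.1 * n2 (b (n - m)).2.1) * ‖f1‖ := by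
          refine mul_le_mul_of_nonneg_right ?_ hf
          linarith
  · have hsum := hS2.mul_left (4 * √(|ω * n| / 2))
    have hTn : Summable fun m => ‖T m‖ :=
      Summable.of_nonneg_of_le (fun _ => norm_nonneg _) hT2 hsum
    have h1 : ‖∑' m, T m‖ ≤ 4 * √(|ω * n| / 2) * ∑' m, ‖(a m).2.1‖ * n2 (b (n - m)).2.1 := by
      rw [← tsum_mul_left]
      exact (norm_tsum_le_tsum_norm hTn).trans (hTn.tsum_le_tsum hT2 hsum)
    have h2 := (norm_Eop_le2 (ω * n) f1).1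
    have h3 : √(|ω * n| / 2) ≤ √(2 * |ω * n|) := Real.sqrt_le_sqrt (by linarith)
    calc ‖∑' m, T m‖ * ‖ex (Eop (ω * n) f1) H‖
        ≤ (4 * √(|ω * n| / 2) * ∑' m, ‖(a m).2.1‖ * n2 (b (n - m)).2.1) * ‖Eop (ω * n) f1‖ :=
          mul_le_mul h1 hE1 (norm_nonneg _) (by positivity)
      _ = 4 * (∑' m, ‖(a m).2.1‖ * n2 (b (n - m)).2.1) * (√(|ω * n| / 2) * ‖Eop (ω * n) f1‖) := by
          ring
      _ ≤ 4 * (∑' m, ‖(a m).2.1‖ * n2 (b (n - m)).2.1) * n2 f1 := by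
          refine mul_le_mul_of_nonneg_left ?_ (by positivity)
          exact (mul_le_mul_of_nonneg_right h3 (norm_nonneg _)).trans h2

end

end Pool.Agent.Lib.MP_79abb3_an.FW
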