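import Pool.Agent.Lib.MP_79abb3_an.FW.PDb
import Pool.Agent.Lib.MP_79abb3_an.FW.PDc

/-!
FW-9a: estimate of the symmetric pairing.
-/

set_option autoImplicit false
set_option linter.unusedSectionVars false

open MeasureTheory Set Filter Topology Function

namespace Pool.Agent.Lib.MP_79abb3_an.FW

open Pool.Agent.Lib.MP_79abb3_an.P25

section
variable {H : ℝ} [hH : Fact (0 < H)]

theorem pdd_sum {ω : ℝ} {a : ℤ → Xn H} (ha : VF ω a) : Summable fun n => ‖(a n).2.1‖ := by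
  refine Summable.of_nonneg_of_le (fun n => norm_nonneg _) (fun n => ?_) ha.s
  exact (norm_fst_le _).trans (norm_snd_le _)

theorem pdd_sum_fw {ω : ℝ} {a : ℤ → Xn H} (ha : VF ω a) : Summable fun n => ‖fw ω a n‖ :=
  Summable.of_nonneg_of_le (fun _ => norm_nonneg _) (fun n => (vel_bounds ha.o n).1) (pdd_sum ha)

theorem pdd_sum_fv {ω : ℝ} {a : ℤ → Xn H} (ha : VF ω a) : Summable fun n => ‖fv ω a n‖ :=
  Summable.of_nonneg_of_le (fun _ => norm_nonneg _) (fun n => (vel_bounds ha.o n).2.2.2.1)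
    ((pdd_sum ha).mul_left 2)

theorem pdd_sub1 (f g : CI H) : n1 (f - g) ≤ n1 f + n1 g := by
  have h0 : (-1 : ℝ) • g = -g := neg_one_smul ℝ g
  have h1 : f - g = f + (-1 : ℝ) • g := (sub_eq_add_neg f g).trans (by rw [h0])
  have h2 := n1_add f ((-1 : ℝ) • g)
  rw [n1_rsmul, abs_neg, abs_one, one_mul] at h2
  rw [h1]
  exact h2

/-- comparison of convolutions -/
theorem pdd_cmp {p q p' q' : ℤ → ℝ} {c : ℝ} (n : ℤ) (hp : ∀ m, 0 ≤ p' m) (hq : ∀ m, 0 ≤ q' m)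
    (h : ∀ m, p' m * q' (n - m) ≤ c * (p m * q (n - m)))
    (hs : Summable fun m => p m * q (n - m)) :
    ∑' m, p' m * q' (n - m) ≤ c * ∑' m, p m * q (n - m) := by
  rw [← tsum_mul_left]
  refine Summable.tsum_le_tsum h ?_ (hs.mul_left c)
  exact Summable.of_nonneg_of_le (fun m => mul_nonneg (hp m) (hq _)) h (hs.mul_left c)

theorem pdd_mul {x y X Y s t : ℝ} (hx : x ≤ s * X) (hy : y ≤ t * Y) (hx0 : 0 ≤ x) (hy0 : 0 ≤ y) :
    x * y ≤ (s * t) * (X * Y) := by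
  have h1 := mul_le_mul hx hy hy0 (hx0.trans hx)
  calc x * y ≤ s * X * (t * Y) := h1
    _ = (s * t) * (X * Y) := by ring

theorem pdd_conv1 {a b : ℤ → CI H} {α β : ℤ → ℝ} {s t : ℝ} (n : ℤ)
    (sa : Summable fun m => ‖a m‖) (sb : Summable fun m => ‖b m‖)
    (ha : ∀ m, n2 (a m) ≤ s * α m) (hb : ∀ m, n2 (b m) ≤ t * β m)
    (hs : Summable fun m => α m * β (n - m)) :
    n1 (conv a b n) ≤ (s * t) * ∑' m, α m * β (n - m) := by
  have h1 : ∀ m, n2 (a m) * n2 (b (n - m)) ≤ (s * t) * (α m * β (n - m)) := fun m =>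
    pdd_mul (ha m) (hb (n - m)) (n2_nonneg _) (n2_nonneg _)
  have h2 := pdd_cmp (p := α) (q := β) (p' := fun m => n2 (a m)) (q' := fun m => n2 (b m))
    (c := s * t) n (fun m => n2_nonneg _) (fun m => n2_nonneg _) h1 hs
  exact (n1_conv_le sa sb n).trans h2

theorem pdd_conv2 {a b : ℤ → CI H} {α β : ℤ → ℝ} {s t : ℝ} (n : ℤ)
    (sa : Summable fun m => ‖a m‖) (sb : Summable fun m => ‖b m‖)
    (ha : ∀ m, ‖a m‖ ≤ s * α m) (hb : ∀ m, n2 (b m) ≤ t * β m)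
    (hs : Summable fun m => α m * β (n - m)) :
    n2 (conv a b n) ≤ (s * t) * ∑' m, α m * β (n - m) := by
  have h1 : ∀ m, ‖a m‖ * n2 (b (n - m)) ≤ (s * t) * (α m * β (n - m)) := fun m =>
    pdd_mul (ha m) (hb (n - m)) (norm_nonneg _) (n2_nonneg _)
  have h2 := pdd_cmp (p := α) (q := β) (p' := fun m => ‖a m‖) (q' := fun m => n2 (b m))
    (c := s * t) n (fun m => norm_nonneg _) (fun m => n2_nonneg _) h1 hs
  exact (n2_conv_le sa sb n).trans h2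

theorem pdd_bounds {ω : ℝ} {a b : ℤ → Xn H} (ha : VF ω a) (hb : VF ω b) (n : ℤ) :
    n1 (fR ω a b n) ≤ 5 * (∑' m, n2 (a m).2.1 * n2 (b (n - m)).2.1) ∧
    n1 (fQ ω a b n) ≤ 4 * (∑' m, n2 (a m).2.1 * n2 (b (n - m)).2.1) ∧
    n2 (fR ω a b n) ≤ 5 * (∑' m, ‖(a m).2.1‖ * n2 (b (n - m)).2.1) ∧
    n2 (fQ ω a b n) ≤ 4 * (∑' m, ‖(a m).2.1‖ * n2 (b (n - m)).2.1) := by
  have na := pdd_sum ha
  have nb := pdd_sum hb
  have s1 := (young11 (a := fun m => n2 (a m).2.1) (b := fun m => n2 (b m).2.1)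
    (fun m => n2_nonneg _) (fun m => n2_nonneg _) (n2_summable na).1 (n2_summable nb).1).1 n
  have s2 := (young11 (a := fun m => ‖(a m).2.1‖) (b := fun m => n2 (b m).2.1)
    (fun m => norm_nonneg _) (fun m => n2_nonneg _) na (n2_summable nb).1).1 n
  have wa := pdd_sum_fw ha
  have wb := pdd_sum_fw hb
  have va := pdd_sum_fv ha
  have vb := pdd_sum_fv hb
  have fwa : ∀ m, ‖fw ω a m‖ ≤ 1 * ‖(a m).2.1‖ := fun m => by
    rw [one_mul]; exact (vel_bounds ha.o m).1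
  have fwa2 : ∀ m, n2 (fw ω a m) ≤ 1 * n2 (a m).2.1 := fun m => by
    rw [one_mul]; exact (vel_bounds ha.o m).2.1
  have fwb2 : ∀ m, n2 (fw ω b m) ≤ 1 * n2 (b m).2.1 := fun m => by
    rw [one_mul]; exact (vel_bounds hb.o m).2.1
  have fva : ∀ m, ‖fv ω a m‖ ≤ 2 * ‖(a m).2.1‖ := fun m => (vel_bounds ha.o m).2.2.2.1
  have fva2 : ∀ m, n2 (fv ω a m) ≤ 2 * n2 (a m).2.1 := fun m => (vel_bounds ha.o m).2.2.2.2.1
  have fvb2 : ∀ m, n2 (fv ω b m) ≤ 2 * n2 (b m).2.1 := fun m => (vel_bounds hb.o m).2.2.2.2.1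
  refine ⟨?_, ?_, ?_, ?_⟩
  · have e1 := pdd_conv1 (α := fun m => n2 (a m).2.1) (β := fun m => n2 (b m).2.1) n wa wb
      fwa2 fwb2 s1
    have e2 := pdd_conv1 (α := fun m => n2 (a m).2.1) (β := fun m => n2 (b m).2.1) n va vb
      fva2 fvb2 s1
    have e3 := pdd_sub1 (conv (fw ω a) (fw ω b) n) (conv (fv ω a) (fv ω b) n)
    unfold fR
    linarith
  · have e1 := pdd_conv1 (α := fun m => n2 (a m).2.1) (β := fun m => n2 (b m).2.1) n va wb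
      fva2 fwb2 s1
    have e2 := pdd_conv1 (α := fun m => n2 (a m).2.1) (β := fun m => n2 (b m).2.1) n wa vb
      fwa2 fvb2 s1
    have e3 := n1_add (conv (fv ω a) (fw ω b) n) (conv (fw ω a) (fv ω b) n)
    unfold fQ
    linarith
  · have e1 := pdd_conv2 (α := fun m => ‖(a m).2.1‖) (β := fun m => n2 (b m).2.1) n wa wb
      fwa fwb2 s2
    have e2 := pdd_conv2 (α := fun m => ‖(a m).2.1‖) (β := fun m => n2 (b m).2.1) n va vb
      fva fvb2 s2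
    have e3 := n2_sub (conv (fw ω a) (fw ω b) n) (conv (fv ω a) (fv ω b) n)
    unfold fR
    linarith
  · have e1 := pdd_conv2 (α := fun m => ‖(a m).2.1‖) (β := fun m => n2 (b m).2.1) n va wb
      fva fwb2 s2
    have e2 := pdd_conv2 (α := fun m => ‖(a m).2.1‖) (β := fun m => n2 (b m).2.1) n wa vb
      fwa fvb2 s2
    have e3 := n2_add (conv (fv ω a) (fw ω b) n) (conv (fw ω a) (fv ω b) n)
    unfold fQ
    linarith

theorem pdd_alg {k A B C nr nq nh nf nf1 S : ℝ} (hk : 0 ≤ k) (hS : 0 ≤ S)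
    (hr0 : 0 ≤ nr) (hr : nr ≤ 5 * S) (hq0 : 0 ≤ nq) (hq : nq ≤ 4 * S)
    (hh : 0 ≤ nh) (hf : 0 ≤ nf) (hf1 : 0 ≤ nf1)
    (hkh : k * nh ≤ nf1) (hA : A ≤ 2 * k * (nr * nh)) (hB : B ≤ nq * (nf1 + k * nf + 2 * (k * nh)))
    (hC : C ≤ 4 * S * nf1) : A + B + C ≤ 100 * S * (nf1 + k * nf) := by
  have hkh0 : 0 ≤ k * nh := mul_nonneg hk hh
  have hkf0 : 0 ≤ k * nf := mul_nonneg hk hf
  have a1 : nr * (k * nh) ≤ 5 * S * nf1 :=
    mul_le_mul hr hkh hkh0 (by linarith)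
  have b1 : nq * (nf1 + k * nf + 2 * (k * nh)) ≤ 4 * S * (3 * nf1 + k * nf) :=
    mul_le_mul hq (by linarith) (by linarith) (by linarith)
  have c1 : 0 ≤ S * nf1 := mul_nonneg hS hf1
  have c2 : 0 ≤ S * (k * nf) := mul_nonneg hS hkf0
  nlinarith

theorem pd_est {ω : ℝ} (hω : 0 < ω) {a b : ℤ → Xn H} (ha : VF ω a) (hb : VF ω b)
    (ha0 : ∀ n, ex (a n).2.1 H = 0) (hb0 : ∀ n, ex (b n).2.1 H = 0) (n : ℤ) {f f1 : CI H}
    (hf : IsD f f1) (f0 : ex f 0 = 0) (fH : ex f H = 0) :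
    ‖bpJ ((Bf ω a b n).2 + (Bf ω b a n).2) f‖ ≤
        100 * (∑' m, n2 (a m).2.1 * n2 (b (n - m)).2.1) * (‖f1‖ + |ω * n| * ‖f‖) ∧
    ‖bpJ ((Bf ω a b n).2 + (Bf ω b a n).2) f‖ ≤
        100 * (∑' m, ‖(a m).2.1‖ * n2 (b (n - m)).2.1) * (n2 f1 + |ω * n| * n2 f) := by
  obtain ⟨t1, -, -, -, -, t6, t7, -, -⟩ := test_h (k := ω * n) hf f0
  have h0 : n = 0 → ex (Eop (ω * n) f1) H = 0 := by
    intro hn
    have hk : |ω * (n : ℝ)| = 0 := by rw [hn]; simp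
    have t0 : (0 : ℝ) • Eop (ω * n) f = 0 := by
      rw [← norm_eq_zero, norm_smul, norm_zero, zero_mul]
    rw [hk, t0] at t1
    have h1 : Eop (ω * n) f1 = f := (sub_eq_zero.1 t1.symm).symm
    rw [h1, fH]
  obtain ⟨B1, B2⟩ := bdry_H hω ha hb ha0 hb0 n h0
  obtain ⟨p1, p2, p3, p4⟩ := pdd_bounds ha hb n
  have hk0 : 0 ≤ |ω * (n : ℝ)| := abs_nonneg _
  have S1 : 0 ≤ ∑' m, n2 (a m).2.1 * n2 (b (n - m)).2.1 :=
    tsum_nonneg fun m => mul_nonneg (n2_nonneg _) (n2_nonneg _)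
  have S2 : 0 ≤ ∑' m, ‖(a m).2.1‖ * n2 (b (n - m)).2.1 :=
    tsum_nonneg fun m => mul_nonneg (norm_nonneg _) (n2_nonneg _)
  have hc : ‖(2 * (Complex.I * ((ω * n : ℝ) : ℂ)) : ℂ)‖ = 2 * |ω * (n : ℝ)| := by
    rw [norm_mul, norm_mul, Complex.norm_I, one_mul, Complex.norm_real, Real.norm_eq_abs]
    norm_num
  have h2k : |(2 * |ω * (n : ℝ)| : ℝ)| = 2 * |ω * (n : ℝ)| := abs_of_nonneg (by linarith)
  rw [bp_sym ha hb n hf f0 fH]
  have hg : ‖f1 + |ω * (n : ℝ)| • f - (2 * |ω * (n : ℝ)|) • Eop (ω * n) f1‖ ≤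
      ‖f1‖ + |ω * (n : ℝ)| * ‖f‖ + 2 * (|ω * (n : ℝ)| * ‖Eop (ω * n) f1‖) := by
    refine (norm_sub_le _ _).trans ?_
    have e1 := norm_add_le f1 (|ω * (n : ℝ)| • f)
    rw [norm_smul, Real.norm_eq_abs, abs_abs] at e1
    rw [norm_smul, Real.norm_eq_abs, h2k]
    linarith
  have hg2 : n2 (f1 + |ω * (n : ℝ)| • f - (2 * |ω * (n : ℝ)|) • Eop (ω * n) f1) ≤
      n2 f1 + |ω * (n : ℝ)| * n2 f + 2 * (|ω * (n : ℝ)| * n2 (Eop (ω * n) f1)) := by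
    refine (n2_sub _ _).trans ?_
    have e1 := n2_add f1 (|ω * (n : ℝ)| • f)
    rw [n2_rsmul, abs_abs] at e1
    rw [n2_rsmul, h2k]
    linarith
  constructor
  · refine (norm_add₃_le).trans ?_
    refine pdd_alg hk0 S1 (n1_nonneg _) p1 (n1_nonneg _) p2 (norm_nonneg _) (norm_nonneg _)
      (norm_nonneg _) t6 ?_ ?_ B1
    · rw [norm_mul, hc]
      exact mul_le_mul_of_nonneg_left (norm_bpJ_le' _ _) (by positivity)
    · exact (norm_bpJ_le' _ _).trans (mul_le_mul_of_nonneg_left hg (n1_nonneg _))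
  · refine (norm_add₃_le).trans ?_
    refine pdd_alg hk0 S2 (n2_nonneg _) p3 (n2_nonneg _) p4 (n2_nonneg _) (n2_nonneg _)
      (n2_nonneg _) t7 ?_ ?_ B2
    · rw [norm_mul, hc]
      exact mul_le_mul_of_nonneg_left (norm_bpJ_le _ _) (by positivity)
    · exact (norm_bpJ_le _ _).trans (mul_le_mul_of_nonneg_left hg2 (n2_nonneg _))

end

end Pool.Agent.Lib.MP_79abb3_an.FW
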