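import Pool.Agent.Lib.MP_79abb3_an.FW.PDb
import Pool.Agent.Lib.MP_79abb3_an.FW.VelC

/-!
FW-9b: estimates of the other pairings.
-/

set_option autoImplicit false
set_option linter.unusedSectionVars false

open MeasureTheory Set Filter Topology Function

namespace Pool.Agent.Lib.MP_79abb3_an.FW

open Pool.Agent.Lib.MP_79abb3_an.P25

section
variable {H : ℝ} [hH : Fact (0 < H)]

private theorem pde_norm_is (k : ℝ) : ‖is k‖ ≤ 1 := by
  unfold is
  rw [norm_mul, Complex.norm_I, one_mul, Complex.norm_real, Real.norm_eq_abs]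
  rcases Real.sign_apply_eq k with h | h | h <;> rw [h] <;> simp

private theorem pde_fh {k : ℝ} {f f1 : CI H} (hf : IsD f f1) (f0 : ex f 0 = 0) :
    ‖f - Eop k f1‖ ≤ ‖f‖ ∧ n2 (f - Eop k f1) ≤ n2 f := by
  rw [← (test_h (k := k) hf f0).1]
  constructor
  · rw [norm_smul, Real.norm_eq_abs, abs_abs]
    exact norm_kEop_le k f
  · rw [n2_rsmul, abs_abs]
    exact n2_Eop k f

/-- Pairing with a vorticity that is controlled in `L²`. -/
theorem po_est {ω : ℝ} {a b : ℤ → Xn H} (ha : VF ω a) (hb : VF ω b) (n : ℤ) {f f1 : CI H}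
    (hf : IsD f f1) (f0 : ex f 0 = 0) :
    ‖bpJ (Bf ω a b n).2 f‖ ≤
      3 * ‖f‖ * (n1 (conv (fo ω a) (fw ω b) n) + n1 (conv (fo ω a) (fv ω b) n)) := by
  rw [bp_Bf ha hb n hf f0]
  obtain ⟨-, -, -, h4, -⟩ := test_h (k := ω * n) hf f0
  have h5 := (pde_fh (k := ω * n) hf f0).1
  have h1 := norm_bpJ_le' (conv (fo ω a) (fw ω b) n) (Eop (ω * n) f1)
  have h2 := norm_bpJ_le' (conv (fo ω a) (fv ω b) n) (f - Eop (ω * n) f1)
  have n1a := n1_nonneg (conv (fo ω a) (fw ω b) n)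
  have n1b := n1_nonneg (conv (fo ω a) (fv ω b) n)
  have nf := norm_nonneg f
  refine (norm_sub_le _ _).trans ?_
  rw [norm_mul]
  have h3 : ‖is (ω * n)‖ * ‖bpJ (conv (fo ω a) (fv ω b) n) (f - Eop (ω * n) f1)‖ ≤
      1 * (n1 (conv (fo ω a) (fv ω b) n) * ‖f‖) := by
    apply mul_le_mul (pde_norm_is _) _ (norm_nonneg _) zero_le_one
    exact h2.trans (mul_le_mul_of_nonneg_left h5 n1b)
  have h6 : ‖bpJ (conv (fo ω a) (fw ω b) n) (Eop (ω * n) f1)‖ ≤
      n1 (conv (fo ω a) (fw ω b) n) * (2 * ‖f‖) := h1.trans (mul_le_mul_of_nonneg_left h4 n1a)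
  have h7 : 0 ≤ n1 (conv (fo ω a) (fw ω b) n) * ‖f‖ := mul_nonneg n1a nf
  have h8 : 0 ≤ n1 (conv (fo ω a) (fv ω b) n) * ‖f‖ := mul_nonneg n1b nf
  nlinarith

private theorem bpJ_mul_assoc (A B C : CI H) : bpJ (A * B) C = bpJ A (B * C) := by
  unfold bpJ
  congr 1
  ext z
  rw [ex_mul, ex_mul, mul_assoc]

private theorem bpJ_add_right' (f g g' : CI H) : bpJ f (g + g') = bpJ f g + bpJ f g' := by
  rw [bpJ_comm, bpJ_add_left, bpJ_comm g f, bpJ_comm g' f]

/-- One term of the convolution with the potential flow. -/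
private theorem pde_one {V V1 W W1 X g g1 : CI H} {κ m : ℝ} (hκ : 0 ≤ κ) (hm : 0 ≤ m)
    (hV : IsD V V1) (hW : IsD W W1) (hg : IsD g g1) (VH : ex V H = 0) (g0 : ex g 0 = 0)
    (bW : ∀ z ∈ Icc (0:ℝ) H, ‖ex W z‖ ≤ ‖ex X z‖)
    (bW1 : ∀ z ∈ Icc (0:ℝ) H, ‖ex W1 z‖ ≤ m * ‖ex X z‖) :
    ‖bpJ ((κ • V - V1) * W) g‖ ≤ n2 (X * V) * ((κ + m) * n2 g + n2 g1) := by
  have hWg : IsD (W * g) (W1 * g + W * g1) := by
    intro z hz
    have h := (hW z hz).mul (hg z hz)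
    exact h
  have hWg0 : ex (W * g) 0 = 0 := by rw [ex_mul, g0, mul_zero]
  have e1 : bpJ ((κ • V - V1) * W) g = κ * bpJ (W * V) g + (bpJ (W1 * V) g + bpJ (W * V) g1) := by
    rw [bpJ_mul_assoc, bpJ_sub_left, bpJ_rsmul_left, bpJ_parts hV hWg, VH]
    rw [hWg0, bpJ_add_right']
    rw [mul_comm W V, mul_comm W1 V, bpJ_mul_assoc, bpJ_mul_assoc, bpJ_mul_assoc]
    ring
  have q0 := n2_nonneg (X * V)
  have w1 : n2 (W * V) ≤ n2 (X * V) := by
    apply n2_mono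
    intro z hz
    rw [ex_mul, ex_mul, norm_mul, norm_mul]
    exact mul_le_mul_of_nonneg_right (bW z hz) (norm_nonneg _)
  have w2 : n2 (W1 * V) ≤ m * n2 (X * V) := by
    have : n2 (W1 * V) ≤ n2 (m • (X * V)) := by
      apply n2_mono
      intro z hz
      rw [ex_mul, ex_rsmul, ex_mul, norm_mul, norm_mul, norm_mul, Complex.norm_real,
        Real.norm_eq_abs, abs_of_nonneg hm, ← mul_assoc]
      exact mul_le_mul_of_nonneg_right (bW1 z hz) (norm_nonneg _)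
    rwa [n2_rsmul, abs_of_nonneg hm] at this
  rw [e1]
  have g00 := n2_nonneg g
  have g10 := n2_nonneg g1
  have t1 : ‖(κ : ℂ) * bpJ (W * V) g‖ ≤ κ * (n2 (X * V) * n2 g) := by
    rw [norm_mul, Complex.norm_real, Real.norm_eq_abs, abs_of_nonneg hκ]
    apply mul_le_mul_of_nonneg_left _ hκ
    exact (norm_bpJ_le _ _).trans (mul_le_mul_of_nonneg_right w1 g00)
  have t2 : ‖bpJ (W1 * V) g‖ ≤ m * n2 (X * V) * n2 g :=
    (norm_bpJ_le _ _).trans (mul_le_mul_of_nonneg_right w2 g00)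
  have t3 : ‖bpJ (W * V) g1‖ ≤ n2 (X * V) * n2 g1 :=
    (norm_bpJ_le _ _).trans (mul_le_mul_of_nonneg_right w1 g10)
  refine (norm_add_le _ _).trans ?_
  have t4 := norm_add_le (bpJ (W1 * V) g) (bpJ (W * V) g1)
  nlinarith

/-- `(a/2) sinh(m z)` -/
private noncomputable def Sh (m a : ℝ) : CI H := rc (fun z => a / 2 * Real.sinh (m * z)) (by fun_prop)

/-- `(a/2) cosh(m z)` -/
private noncomputable def Ch (m a : ℝ) : CI H := rc (fun z => a / 2 * Real.cosh (m * z)) (by fun_prop)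

private theorem Sh_isD (m a : ℝ) : IsD (Sh m a : CI H) (m • Ch m a) := by
  intro z hz
  have h1 : HasDerivAt (fun z : ℝ => a / 2 * Real.sinh (m * z)) (a / 2 * (Real.cosh (m * z) * m)) z := by
    have h2 : HasDerivAt (fun z : ℝ => m * z) m z := by
      simpa using (hasDerivAt_id z).const_mul m
    exact ((Real.hasDerivAt_sinh _).comp z h2).const_mul _
  have h3 := (h1.ofReal_comp).hasDerivWithinAt (s := Icc 0 H)
  refine (h3.congr (fun y hy => ?_) ?_).congr_deriv ?_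
  · exact ex_rc _ _ hy
  · exact ex_rc _ _ hz
  · rw [ex_rsmul]
    unfold Ch
    rw [ex_rc _ _ hz]
    push_cast
    ring

private theorem Ch_isD (m a : ℝ) : IsD (Ch m a : CI H) (m • Sh m a) := by
  intro z hz
  have h1 : HasDerivAt (fun z : ℝ => a / 2 * Real.cosh (m * z)) (a / 2 * (Real.sinh (m * z) * m)) z := by
    have h2 : HasDerivAt (fun z : ℝ => m * z) m z := by
      simpa using (hasDerivAt_id z).const_mul m
    exact ((Real.hasDerivAt_cosh _).comp z h2).const_mul _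
  have h3 := (h1.ofReal_comp).hasDerivWithinAt (s := Icc 0 H)
  refine (h3.congr (fun y hy => ?_) ?_).congr_deriv ?_
  · exact ex_rc _ _ hy
  · exact ex_rc _ _ hz
  · rw [ex_rsmul]
    unfold Sh
    rw [ex_rc _ _ hz]
    push_cast
    ring

private theorem norm_Sh_le {m a : ℝ} (ha : 0 ≤ a) {z : ℝ} (hz : z ∈ Icc (0:ℝ) H) :
    ‖ex (Sh m a : CI H) z‖ ≤ 1 / 2 * ‖ex (chm m a : CI H) z‖ := by
  unfold Sh chm
  rw [ex_rc _ _ hz, ex_rc _ _ hz, Complex.norm_real, Complex.norm_real, Real.norm_eq_abs,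
    Real.norm_eq_abs, abs_mul, abs_mul, abs_of_nonneg ha, abs_of_nonneg (by positivity : 0 ≤ a / 2),
    abs_of_pos (Real.cosh_pos (m * z))]
  have h1 : |Real.sinh (m * z)| ≤ Real.cosh (m * z) := by
    rw [abs_le]
    constructor
    · have h2 := Real.sinh_lt_cosh (-(m * z))
      rw [Real.sinh_neg, Real.cosh_neg] at h2
      linarith
    · exact (Real.sinh_lt_cosh _).le
  have h2 : a / 2 * |Real.sinh (m * z)| ≤ a / 2 * Real.cosh (m * z) :=
    mul_le_mul_of_nonneg_left h1 (by positivity)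
  linarith

private theorem norm_Ch_le {m a : ℝ} (ha : 0 ≤ a) {z : ℝ} (hz : z ∈ Icc (0:ℝ) H) :
    ‖ex (Ch m a : CI H) z‖ ≤ 1 / 2 * ‖ex (chm m a : CI H) z‖ := by
  unfold Ch chm
  rw [ex_rc _ _ hz, ex_rc _ _ hz, Complex.norm_real, Complex.norm_real, Real.norm_eq_abs,
    Real.norm_eq_abs, abs_mul, abs_mul, abs_of_nonneg ha, abs_of_nonneg (by positivity : 0 ≤ a / 2),
    abs_of_pos (Real.cosh_pos (m * z))]
  linarith

private theorem sN_pos (N : ℕ) : sN N (N : ℤ) = 1 := by simp [sN]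

private theorem sN_negN {N : ℕ} (hN : 1 ≤ N) : sN N (-(N : ℤ)) = -1 := by
  have h : -(N : ℤ) ≠ (N : ℤ) := by omega
  simp [sN, h]

private theorem sN_other {N : ℕ} {j : ℤ} (h1 : j ≠ N) (h2 : j ≠ -N) : sN N j = 0 := by
  simp [sN, h1, h2]

/-- Convolution with a family supported at `± N`. -/
private theorem conv_pm {N : ℕ} (hN : 1 ≤ N) {a b : ℤ → CI H} (hb : ∀ j : ℤ, j ≠ N → j ≠ -N → b j = 0)
    (n : ℤ) : conv a b n = a (n - N) * b N + a (n + N) * b (-N) := by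
  unfold conv
  rw [tsum_eq_sum (s := {n - (N : ℤ), n + (N : ℤ)})]
  · rw [Finset.sum_pair (by omega)]
    congr 3 <;> omega
  · intro m hm
    rw [Finset.mem_insert, Finset.mem_singleton, not_or] at hm
    rw [hb (n - m) (by omega) (by omega), mul_zero]

/-- Pairing with the potential flow. -/
theorem pu_est {ω : ℝ} (hω : 0 < ω) {N : ℕ} (hN : 1 ≤ N) {a : ℝ} (ha : 0 ≤ a) {b : ℤ → Xn H}
    (hb : VF ω b) (hb0 : ∀ n, ex (b n).2.1 H = 0) (n : ℤ) {f f1 : CI H}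
    (hf : IsD f f1) (f0 : ex f 0 = 0) :
    ‖bpJ (Bf ω b (pu ω N a) n).2 f‖ ≤ 100 * (n2 f1 + (|ω * n| + ω * N) * n2 f) *
      (n2 (chm (ω * N) a * (b (n - N)).2.1) + n2 (chm (ω * N) a * (b (n + N)).2.1)) := by
  have hm : 0 ≤ ω * N := by positivity
  rw [bp_Bf hb (VF_pu a hω hN) n hf f0]
  obtain ⟨-, dh, dg, -, n2h, -, kn2h, -⟩ := test_h (k := ω * n) hf f0
  have n2g := (pde_fh (k := ω * n) hf f0).2
  -- the modes of the potential flow
  have wN : fw ω (pu ω N a : ℤ → Xn H) N = Sh (ω * N) a := by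
    refine ci_ext fun z hz => ?_
    rw [fw_pu a hω hN _ hz, sN_pos]
    unfold Sh
    rw [ex_rc _ _ hz]
    push_cast
    ring
  have wN' : fw ω (pu ω N a : ℤ → Xn H) (-N) = Sh (ω * N) a := by
    refine ci_ext fun z hz => ?_
    rw [fw_pu a hω hN _ hz, sN_negN hN]
    unfold Sh
    rw [ex_rc _ _ hz]
    push_cast
    ring
  have wO : ∀ j : ℤ, j ≠ N → j ≠ -N → fw ω (pu ω N a : ℤ → Xn H) j = 0 := by
    intro j h1 h2
    refine ci_ext fun z hz => ?_
    rw [fw_pu a hω hN _ hz, sN_other h1 h2]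
    simp
  have vN : fv ω (pu ω N a : ℤ → Xn H) N = Complex.I • (Ch (ω * N) a : CI H) := by
    refine ci_ext fun z hz => ?_
    rw [fv_pu a hω hN _ hz, sN_pos, ex_smul]
    unfold Ch
    rw [ex_rc _ _ hz]
    push_cast
    ring
  have vN' : fv ω (pu ω N a : ℤ → Xn H) (-N) = (-Complex.I) • (Ch (ω * N) a : CI H) := by
    refine ci_ext fun z hz => ?_
    rw [fv_pu a hω hN _ hz, sN_negN hN, ex_smul]
    unfold Ch
    rw [ex_rc _ _ hz]
    push_cast
    ring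
  have vO : ∀ j : ℤ, j ≠ N → j ≠ -N → fv ω (pu ω N a : ℤ → Xn H) j = 0 := by
    intro j h1 h2
    refine ci_ext fun z hz => ?_
    rw [fv_pu a hω hN _ hz, sN_other h1 h2]
    simp
  set m : ℝ := ω * N with hmdef
  set k : ℝ := ω * n with hkdef
  set h := Eop k f1 with hh
  have h0 : ex h 0 = 0 := Eop_zero k f1
  have g0 : ex (f - h) 0 = 0 := by rw [ex_sub, h0, f0, sub_zero]
  rw [conv_pm hN wO, conv_pm hN vO, wN, wN', vN, vN', bpJ_add_left, bpJ_add_left]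
  -- the four terms
  set X : CI H := (1 / 2 : ℝ) • chm m a with hX
  have bX : ∀ z, ‖ex X z‖ = 1 / 2 * ‖ex (chm m a : CI H) z‖ := by
    intro z
    rw [hX, ex_rsmul, norm_mul, Complex.norm_real, Real.norm_eq_abs, abs_of_pos (by norm_num)]
  have n2X : ∀ V : CI H, n2 (X * V) = 1 / 2 * n2 (chm m a * V) := by
    intro V
    have : X * V = (1 / 2 : ℝ) • (chm m a * V) := by
      rw [hX]
      refine ci_ext fun z _ => ?_
      rw [ex_mul, ex_rsmul, ex_rsmul, ex_mul, mul_assoc]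
    rw [this, n2_rsmul, abs_of_pos (by norm_num)]
  have bS : ∀ z ∈ Icc (0:ℝ) H, ‖ex (Sh m a : CI H) z‖ ≤ ‖ex X z‖ := fun z hz => by
    rw [bX]; exact norm_Sh_le ha hz
  have bC : ∀ z ∈ Icc (0:ℝ) H, ‖ex (Ch m a : CI H) z‖ ≤ ‖ex X z‖ := fun z hz => by
    rw [bX]; exact norm_Ch_le ha hz
  have bS1 : ∀ z ∈ Icc (0:ℝ) H, ‖ex (m • (Sh m a : CI H)) z‖ ≤ m * ‖ex X z‖ := fun z hz => by
    rw [ex_rsmul, norm_mul, Complex.norm_real, Real.norm_eq_abs, abs_of_nonneg hm]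
    exact mul_le_mul_of_nonneg_left (bS z hz) hm
  have bC1 : ∀ z ∈ Icc (0:ℝ) H, ‖ex (m • (Ch m a : CI H)) z‖ ≤ m * ‖ex X z‖ := fun z hz => by
    rw [ex_rsmul, norm_mul, Complex.norm_real, Real.norm_eq_abs, abs_of_nonneg hm]
    exact mul_le_mul_of_nonneg_left (bC z hz) hm
  have foj : ∀ j : ℤ, fo ω b j = |ω * j| • (b j).2.1 - (b j).2.2.1 := by
    intro j
    rw [fo_eq hb.o, hb.e]
  have hg1 : n2 (f1 - |k| • h) ≤ 2 * n2 f1 := by
    refine (n2_sub _ _).trans ?_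
    rw [n2_rsmul, abs_abs]
    linarith
  have hg2 : n2 (|k| • h) ≤ n2 f1 := by
    rw [n2_rsmul, abs_abs]
    exact kn2h
  have nf := n2_nonneg f
  have nf1 := n2_nonneg f1
  have nh := n2_nonneg h
  have ak := abs_nonneg k
  have termS : ∀ j : ℤ, |ω * j| ≤ |k| + m → ‖bpJ (fo ω b j * Sh m a) h‖ ≤
      n2 (chm m a * (b j).2.1) * (n2 f1 + 2 * (|k| + m) * n2 f) := by
    intro j hj
    rw [foj]
    refine (pde_one (abs_nonneg _) hm (hb.d j) (Sh_isD m a) dh (hb0 j) h0 bS bC1).trans ?_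
    rw [n2X]
    have q := n2_nonneg (chm m a * (b j).2.1)
    have e1 : (|ω * j| + m) * n2 h ≤ (2 * (|k| + m)) * (2 * n2 f) := by
      apply mul_le_mul _ n2h nh (by positivity)
      linarith
    have e2 : (|ω * j| + m) * n2 h + n2 (f1 - |k| • h) ≤ 2 * (n2 f1 + 2 * (|k| + m) * n2 f) := by
      linarith
    calc 1 / 2 * n2 (chm m a * (b j).2.1) * ((|ω * j| + m) * n2 h + n2 (f1 - |k| • h))
        ≤ 1 / 2 * n2 (chm m a * (b j).2.1) * (2 * (n2 f1 + 2 * (|k| + m) * n2 f)) := by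
          apply mul_le_mul_of_nonneg_left e2
          positivity
      _ = _ := by ring
  have termC : ∀ j : ℤ, |ω * j| ≤ |k| + m → ‖bpJ (fo ω b j * Ch m a) (f - h)‖ ≤
      n2 (chm m a * (b j).2.1) * (n2 f1 + 2 * (|k| + m) * n2 f) := by
    intro j hj
    rw [foj]
    refine (pde_one (abs_nonneg _) hm (hb.d j) (Ch_isD m a) dg (hb0 j) g0 bC bS1).trans ?_
    rw [n2X]
    have q := n2_nonneg (chm m a * (b j).2.1)
    have e1 : (|ω * j| + m) * n2 (f - h) ≤ (2 * (|k| + m)) * n2 f := by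
      apply mul_le_mul _ n2g (n2_nonneg _) (by positivity)
      linarith
    have e3 : 0 ≤ (|k| + m) * n2 f := by positivity
    have e2 : (|ω * j| + m) * n2 (f - h) + n2 (|k| • h) ≤ 2 * (n2 f1 + 2 * (|k| + m) * n2 f) := by
      linarith
    calc 1 / 2 * n2 (chm m a * (b j).2.1) * ((|ω * j| + m) * n2 (f - h) + n2 (|k| • h))
        ≤ 1 / 2 * n2 (chm m a * (b j).2.1) * (2 * (n2 f1 + 2 * (|k| + m) * n2 f)) := by
          apply mul_le_mul_of_nonneg_left e2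
          positivity
      _ = _ := by ring
  have k1 : |ω * ((n - N : ℤ) : ℝ)| ≤ |k| + m := by
    have : ω * ((n - N : ℤ) : ℝ) = k - m := by
      push_cast
      rw [hkdef, hmdef]
      ring
    rw [this]
    refine (abs_sub _ _).trans ?_
    rw [abs_of_nonneg hm]
  have k2 : |ω * ((n + N : ℤ) : ℝ)| ≤ |k| + m := by
    have : ω * ((n + N : ℤ) : ℝ) = k + m := by
      push_cast
      rw [hkdef, hmdef]
      ring
    rw [this]
    refine (abs_add_le _ _).trans ?_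
    rw [abs_of_nonneg hm]
  have cI : ∀ (c : ℂ) (A B C : CI H), bpJ (A * (c • B)) C = c * bpJ (A * B) C := by
    intro c A B C
    rw [← bpJ_smul_left]
    congr 1
    refine ci_ext fun z _ => ?_
    rw [ex_mul, ex_smul, ex_smul, ex_mul]
    ring
  rw [cI, cI]
  have a1 := termS (n - N) k1
  have a2 := termS (n + N) k2
  have c1 := termC (n - N) k1
  have c2 := termC (n + N) k2
  set S1 := bpJ (fo ω b (n - N) * Sh m a) h
  set S2 := bpJ (fo ω b (n + N) * Sh m a) h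
  set C1 := bpJ (fo ω b (n - N) * Ch m a) (f - h)
  set C2 := bpJ (fo ω b (n + N) * Ch m a) (f - h)
  have u1 : ‖S1 + S2‖ ≤ ‖S1‖ + ‖S2‖ := norm_add_le _ _
  have u2 : ‖is k * (Complex.I * C1 + -Complex.I * C2)‖ ≤ ‖C1‖ + ‖C2‖ := by
    rw [norm_mul]
    have v1 : ‖Complex.I * C1 + -Complex.I * C2‖ ≤ ‖C1‖ + ‖C2‖ := by
      refine (norm_add_le _ _).trans (le_of_eq ?_)
      rw [norm_mul, norm_mul, norm_neg, Complex.norm_I, one_mul, one_mul]
    calc ‖is k‖ * ‖Complex.I * C1 + -Complex.I * C2‖ ≤ 1 * (‖C1‖ + ‖C2‖) :=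
          mul_le_mul (pde_norm_is k) v1 (norm_nonneg _) zero_le_one
      _ = _ := one_mul _
  refine (norm_sub_le _ _).trans ?_
  have q1 := n2_nonneg (chm m a * (b (n - N)).2.1)
  have q2 := n2_nonneg (chm m a * (b (n + N)).2.1)
  have e3 : 0 ≤ (|k| + m) * n2 f := by positivity
  have r1 : 0 ≤ n2 (chm m a * (b (n - N)).2.1) * n2 f1 := mul_nonneg q1 nf1
  have r2 : 0 ≤ n2 (chm m a * (b (n + N)).2.1) * n2 f1 := mul_nonneg q2 nf1
  have r3 : 0 ≤ n2 (chm m a * (b (n - N)).2.1) * ((|k| + m) * n2 f) := mul_nonneg q1 e3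
  have r4 : 0 ≤ n2 (chm m a * (b (n + N)).2.1) * ((|k| + m) * n2 f) := mul_nonneg q2 e3
  nlinarith

end

end Pool.Agent.Lib.MP_79abb3_an.FW
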