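import Pool.Agent.Lib.MP_79abb3_an.FW.PhBa
import Pool.Agent.Lib.MP_79abb3_an.P25.FieldAt

/-!
FW-33a: the fields of a state are C¹.
-/

set_option autoImplicit false
set_option linter.unusedSectionVars false

open MeasureTheory Set Filter Topology Function

namespace Pool.Agent.Lib.MP_79abb3_an.FW

open Pool.Agent.Lib.MP_79abb3_an.P25

section
variable {H : ℝ} [hH : Fact (0 < H)]

private theorem pca_le {x : ℤ → Xn H} (hx : Summable fun n => ‖x n‖) {a : ℤ → CI H} {C : ℝ}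
    (h : ∀ n, ‖a n‖ ≤ C * ‖x n‖) : Summable fun n => ‖a n‖ :=
  Summable.of_nonneg_of_le (fun n => norm_nonneg _) h (hx.mul_left C)

private theorem pca_le' {x : ℤ → Xn H} (hx : Summable fun n => ‖x n‖) {a : ℤ → CI H}
    (h : ∀ n, ‖a n‖ ≤ ‖x n‖) : Summable fun n => ‖a n‖ :=
  Summable.of_nonneg_of_le (fun n => norm_nonneg _) h hx

theorem oO_C1P {ω : ℝ} (hω : ω * H = Real.pi) {N : ℕ} {a : ℝ} {x : L1 (Xn H)}
    (hx : ∀ n : ℤ, Cm (ω * n) (ex (pu ω N a n : Xn H).2.1 0) (x n)) :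
    C1P H (oO ω x) (oOy ω x) (oOz ω x) ∧ (∀ y, oO ω x y 0 = 0) ∧ ∀ y, oO ω x y H = 0 := by
  have s1 : Summable fun n => ‖m1 x n‖ := pca_le' (l1_summable x) fun n => n11 (x n)
  have s2 : Summable fun n => ‖m1y ω x n‖ := pca_le' (l1_summable x) fun n =>
    (norm_is_smul_le _ _).trans (n122 (x n))
  have s3 : Summable fun n => ‖m1z x n‖ := pca_le' (l1_summable x) fun n => n121 (x n)
  have e1 : (fun n : ℤ => is (ω * n) • (|ω * n| • m1 x n)) = m1y ω x := by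
    funext n
    rw [m1y, (hx n).e1, m1]
  refine ⟨⟨fld_C0P hω s1, fld_C0P hω s2, fld_C0P hω s3, ?_, ?_⟩,
    fun y => fld_zero_of ω (fun n => (hx n).z1) y, fun y => fld_zero_of ω (fun n => (hx n).h1) y⟩
  · intro y z _
    unfold oO oOy
    rw [← e1]
    refine fld_dy s1 ?_ y z
    refine (pca_le' (a := fun n => (x n).1.2.2) (l1_summable x) fun n => n122 (x n)).congr
      fun n => ?_
    rw [(hx n).e1, norm_abs_smul, m1]
  · intro y z hz
    exact fld_dz s1 s3 (fun n => (hx n).d1) y hz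

/-- derivatives of the modes of a velocity family -/
private theorem pca_fw {ω : ℝ} {a : ℤ → Xn H} (ha : VF ω a) (n : ℤ) :
    IsD (fw ω a n) (om1 (ω * n) (a n)) ∧ ‖om1 (ω * n) (a n)‖ ≤ 2 * ‖a n‖ ∧
    IsD (fv ω a n) (vv1 (ω * n) (a n)) ∧ ‖vv1 (ω * n) (a n)‖ ≤ 3 * ‖a n‖ := by
  have h1 : IsD (fw ω a n) (om1 (ω * n) (a n)) := om_isD (ω * n) (a n)
  have hE := norm_kEop_le (ω * n) (a n).2.1
  have h0 : (a n).1.1 = 0 := by rw [ha.o n]; rfl
  have hV : |ω * n| * ‖(a n).2.1‖ ≤ ‖a n‖ := by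
    rw [← norm_abs_smul, ← ha.e n]
    exact n222 (a n)
  have h2 : ‖om1 (ω * n) (a n)‖ ≤ 2 * ‖a n‖ := by
    have e : om1 (ω * n) (a n) =
        -((is (ω * n) * ((|ω * n| : ℝ) : ℂ)) • ((a n).2.1 - |ω * n| • Eop (ω * n) (a n).2.1)) := by
      rw [om1, h0]
      refine ci_ext fun z _ => ?_
      simp
    rw [e, norm_neg]
    refine (norm_isabs_smul_le _ _).trans ?_
    have h3 : ‖(a n).2.1 - |ω * n| • Eop (ω * n) (a n).2.1‖ ≤ 2 * ‖(a n).2.1‖ := by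
      refine (norm_sub_le _ _).trans ?_
      rw [norm_abs_smul]
      linarith
    have h4 := mul_le_mul_of_nonneg_left h3 (abs_nonneg (ω * n))
    linarith
  refine ⟨h1, h2, (ha.d n).sub (h1.fa_csmul _), ?_⟩
  have h3 := norm_sub_le (a n).2.2.1 (is (ω * n) • om1 (ω * n) (a n))
  have h4 := norm_is_smul_le (ω * n) (om1 (ω * n) (a n))
  have h5 := n221 (a n)
  show ‖(a n).2.2.1 - is (ω * n) • om1 (ω * n) (a n)‖ ≤ 3 * ‖a n‖
  linarith

theorem u_C1P {ω : ℝ} (hω : ω * H = Real.pi) {a : ℤ → Xn H} (ha : VF ω a) : ∃ vy vz wy wz : ℝ → ℝ → ℝ,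
    C1P H (uV ω a) vy vz ∧ C1P H (uW ω a) wy wz ∧ ∀ y, ∀ z ∈ Icc 0 H, vy y z + wz y z = 0 := by
  have hb := fun n => vel_bounds (ω := ω) ha.o n
  have hV : ∀ n : ℤ, |ω * n| * ‖(a n).2.1‖ ≤ ‖a n‖ := fun n => by
    rw [← norm_abs_smul, ← ha.e n]
    exact n222 (a n)
  have sv : Summable fun n => ‖fv ω a n‖ := pca_le ha.s (C := 2) fun n =>
    (hb n).2.2.2.1.trans (mul_le_mul_of_nonneg_left (n21 (a n)) zero_le_two)
  have sw : Summable fun n => ‖fw ω a n‖ := pca_le' ha.s fun n => (hb n).1.trans (n21 (a n))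
  have kv : ∀ n : ℤ, |ω * n| * ‖fv ω a n‖ ≤ 2 * ‖a n‖ := fun n => by
    have h1 := mul_le_mul_of_nonneg_left (hb n).2.2.2.1 (abs_nonneg (ω * n))
    linarith [hV n]
  have kw : ∀ n : ℤ, |ω * n| * ‖fw ω a n‖ ≤ 1 * ‖a n‖ := fun n => by
    have h1 := mul_le_mul_of_nonneg_left (hb n).1 (abs_nonneg (ω * n))
    linarith [hV n]
  have skv : Summable fun n : ℤ => |ω * n| * ‖fv ω a n‖ :=
    Summable.of_nonneg_of_le (fun n => by positivity) kv (ha.s.mul_left 2)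
  have skw : Summable fun n : ℤ => |ω * n| * ‖fw ω a n‖ :=
    Summable.of_nonneg_of_le (fun n => by positivity) kw (ha.s.mul_left 1)
  have svy : Summable fun n : ℤ => ‖is (ω * n) • (|ω * n| • fv ω a n)‖ :=
    pca_le ha.s (C := 2) fun n => (norm_is_smul_le _ _).trans (by
      rw [norm_abs_smul]; exact kv n)
  have swy : Summable fun n : ℤ => ‖is (ω * n) • (|ω * n| • fw ω a n)‖ :=
    pca_le ha.s (C := 1) fun n => (norm_is_smul_le _ _).trans (by
      rw [norm_abs_smul]; exact kw n)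
  have swz : Summable fun n : ℤ => ‖om1 (ω * n) (a n)‖ :=
    pca_le ha.s fun n => (pca_fw ha n).2.1
  have svz : Summable fun n : ℤ => ‖vv1 (ω * n) (a n)‖ :=
    pca_le ha.s fun n => (pca_fw ha n).2.2.2
  refine ⟨fld ω (fun n : ℤ => is (ω * n) • (|ω * n| • fv ω a n)),
    fld ω (fun n : ℤ => vv1 (ω * n) (a n)),
    fld ω (fun n : ℤ => is (ω * n) • (|ω * n| • fw ω a n)),
    fld ω (fun n : ℤ => om1 (ω * n) (a n)),
    ⟨fld_C0P hω sv, fld_C0P hω svy, fld_C0P hω svz, fun y z _ => fld_dy sv skv y z,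
      fun y z hz => fld_dz sv svz (fun n => (pca_fw ha n).2.2.1) y hz⟩,
    ⟨fld_C0P hω sw, fld_C0P hω swy, fld_C0P hω swz, fun y z _ => fld_dy sw skw y z,
      fun y z hz => fld_dz sw swz (fun n => (pca_fw ha n).1) y hz⟩, ?_⟩
  intro y z _
  rw [← fld_add svy swz]
  refine fld_zero_of ω (fun n => ?_) y
  have h1 : is (ω * n) • (|ω * n| • fv ω a n) + om1 (ω * n) (a n) = -(a n).1.1 :=
    mode_div (ω * n) (a n)
  rw [h1, ha.o n]
  simp

end

end Pool.Agent.Lib.MP_79abb3_an.FW
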