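import Pool.Agent.Lib.MP_79abb3_an.FW.VelA
import Pool.Agent.Lib.MP_79abb3_an.P25.FldDef

/-!
FW-30: physical space, definitions.
-/

set_option autoImplicit false
set_option linter.unusedSectionVars false

open MeasureTheory Set Filter Topology Function

namespace Pool.Agent.Lib.MP_79abb3_an.FW

open Pool.Agent.Lib.MP_79abb3_an.P25

section
variable {H : ℝ} [hH : Fact (0 < H)]

/-- Integral over the period cell `[-H,H] × [0,H]`. -/
noncomputable def IQ (H : ℝ) (F : ℝ → ℝ → ℝ) : ℝ := ∫ z in (0:ℝ)..H, ∫ y in (-H)..H, F y z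

/-- Continuous functions on the strip, `2H`-periodic in `y`. -/
structure C0P (H : ℝ) (f : ℝ → ℝ → ℝ) : Prop where
  c : ContinuousOn (uncurry f) (univ ×ˢ Icc 0 H)
  p : ∀ y, ∀ z ∈ Icc 0 H, f (y + 2 * H) z = f y z

/-- `C¹` functions on the strip, `2H`-periodic in `y`. -/
structure C1P (H : ℝ) (f fy fz : ℝ → ℝ → ℝ) : Prop where
  c : C0P H f
  cy : C0P H fy
  cz : C0P H fz
  dy : ∀ y, ∀ z ∈ Icc 0 H, HasDerivAt (fun y => f y z) (fy y z) y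
  dz : ∀ y, ∀ z ∈ Icc 0 H, HasDerivWithinAt (fun z => f y z) (fz y z) (Icc 0 H) z

/-- `C²` weights. -/
structure W2P (H : ℝ) (g gy gz gyy gzz : ℝ → ℝ → ℝ) : Prop where
  g1 : C1P H g gy gz
  cyy : C0P H gyy
  czz : C0P H gzz
  dyy : ∀ y, ∀ z ∈ Icc 0 H, HasDerivAt (fun y => gy y z) (gyy y z) y
  dzz : ∀ y, ∀ z ∈ Icc 0 H, HasDerivWithinAt (fun z => gz y z) (gzz y z) (Icc 0 H) z

/-- Outer vorticity and its derivatives. -/
noncomputable def oO (ω : ℝ) (x : L1 (Xn H)) : ℝ → ℝ → ℝ := fld ω (m1 x)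
noncomputable def oOy (ω : ℝ) (x : L1 (Xn H)) : ℝ → ℝ → ℝ := fld ω (m1y ω x)
noncomputable def oOz (ω : ℝ) (x : L1 (Xn H)) : ℝ → ℝ → ℝ := fld ω (m1z x)

/-- Velocity fields of a family. -/
noncomputable def uV (ω : ℝ) (a : ℤ → Xn H) : ℝ → ℝ → ℝ := fld ω (fv ω a)
noncomputable def uW (ω : ℝ) (a : ℤ → Xn H) : ℝ → ℝ → ℝ := fld ω (fw ω a)

/-- The transfer term as a family. -/
noncomputable def trf (ω : ℝ) (N : ℕ) (a : ℝ) (x : ℤ → Xn H) (n : ℤ) : CI H := tr (ω * N) a (x n)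

/-- `κ V` and `-i sign(k) κ V`. -/
noncomputable def kV (ω : ℝ) (N : ℕ) (a : ℝ) (x : ℤ → Xn H) (n : ℤ) : CI H := kap (ω * N) a * (x n).2.1
noncomputable def kH (ω : ℝ) (N : ℕ) (a : ℝ) (x : ℤ → Xn H) (n : ℤ) : CI H :=
  -(is (ω * n) • (kap (ω * N) a * (x n).2.1))

end

end Pool.Agent.Lib.MP_79abb3_an.FW
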