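import Pool.Agent.Lib.MP_79abb3_an.FW.NormsC

/-!
FW-2b: `L²` estimates for the Dirichlet heat semigroup.
-/

set_option autoImplicit false
set_option linter.unusedSectionVars false

open MeasureTheory Set Filter Topology Function

namespace Pool.Agent.Lib.MP_79abb3_an.FW

open Pool.Agent.Lib.MP_79abb3_an.P25

section
variable {H : ℝ} [hH : Fact (0 < H)]

variable {S D A : ℝ → (CI H →L[ℂ] CI H)}

private theorem sgb_isD_unique {f g g' : CI H} (h : IsD f g) (h' : IsD f g') : g = g' :=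
  ci_ext fun z hz => (uniqueDiffOn_Icc hH.out z hz).eq_deriv _ (h z hz) (h' z hz)

private theorem sgb_bilin : IsBoundedBilinearMap ℝ (fun p : CI H × CI H => bpJ p.1 p.2) where
  add_left x y z := bpJ_add_left x y z
  smul_left c x y := by
    show bpJ (c • x) y = c • bpJ x y
    rw [bpJ_rsmul_left, Complex.real_smul]
  add_right x y z := by
    show bpJ x (y + z) = bpJ x y + bpJ x z
    rw [bpJ_comm, bpJ_add_left, bpJ_comm y, bpJ_comm z]
  smul_right c x y := by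
    show bpJ x (c • y) = c • bpJ x y
    rw [bpJ_comm, bpJ_rsmul_left, bpJ_comm y, Complex.real_smul]
  bound := by
    refine ⟨H + 1, by have := hH.out; linarith, fun x y => ?_⟩
    have h1 : ‖∫ z in (0:ℝ)..H, ex x z * ex y z‖ ≤ (‖x‖ * ‖y‖) * |H - 0| := by
      refine intervalIntegral.norm_integral_le_of_norm_le_const fun z _ => ?_
      rw [norm_mul]
      exact mul_le_mul (norm_ex_le x z) (norm_ex_le y z) (norm_nonneg _) (norm_nonneg _)
    rw [sub_zero, abs_of_pos hH.out] at h1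
    have h2 : 0 ≤ ‖x‖ * ‖y‖ := by positivity
    show ‖bpJ x y‖ ≤ _
    unfold bpJ
    nlinarith

private theorem sgb_bpJ_star (f g : CI H) : bpJ f (star g) = star (bpJ g (star f)) := by
  unfold bpJ
  have h1 : star (∫ z in (0:ℝ)..H, ex g z * ex (star f) z) =
      ∫ z in (0:ℝ)..H, star (ex g z * ex (star f) z) := by
    rw [intervalIntegral.integral_of_le hH.out.le, intervalIntegral.integral_of_le hH.out.le]
    exact (integral_conj (f := fun z => ex g z * ex (star f) z)).symm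
  rw [h1]
  congr 1
  ext z
  rw [ex_star, ex_star, star_mul', star_star, mul_comm]

private theorem sgb_deriv {u : ℝ → CI H} {u1 : CI H} {t : ℝ} (hu : HasDerivAt u u1 t) :
    HasDerivAt (fun s => n2 (u s) ^ 2) (2 * (bpJ u1 (star (u t))).re) t := by
  have h1 : HasDerivAt (fun s => (u s, star (u s))) (u1, star u1) t := hu.prodMk hu.star
  have h2 := (sgb_bilin (H := H)).hasFDerivAt (u t, star (u t))
  have h3 : HasDerivAt (fun s => bpJ (u s) (star (u s))) (bpJ (u t) (star u1) +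
      bpJ u1 (star (u t))) t := by
    have := HasFDerivAt.comp_hasDerivAt t h2 h1
    exact this
  have h4 := (Complex.reCLM.hasFDerivAt (x := bpJ (u t) (star (u t)))).comp_hasDerivAt t h3
  have h5 : (Complex.reCLM ∘ fun s => bpJ (u s) (star (u s))) = fun s => n2 (u s) ^ 2 := by
    funext s
    show (bpJ (u s) (star (u s))).re = _
    rw [bpJ_star_self, Complex.ofReal_re]
  rw [h5] at h4
  refine h4.congr_deriv ?_
  show (bpJ (u t) (star u1) + bpJ u1 (star (u t))).re = _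
  rw [sgb_bpJ_star (u t) u1, Complex.add_re]
  have h6 : (star (bpJ u1 (star (u t)))).re = (bpJ u1 (star (u t))).re := rfl
  rw [h6]
  ring

/-- integration by parts for functions vanishing at the ends -/
private theorem sgb_parts {g g1 g2 : CI H} (h : IsD g g1) (h' : IsD g1 g2) (h0 : ex g 0 = 0)
    (hH' : ex g H = 0) : bpJ g2 (star g) = -((n2 g1 ^ 2 : ℝ) : ℂ) := by
  rw [bpJ_parts h' h.star, ex_star, ex_star, h0, hH', star_zero, mul_zero, mul_zero,
    bpJ_star_self]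
  ring

private theorem sgb_S_time (hS : DirSG H S D A) {t : ℝ} (ht : 0 < t) (f : CI H) :
    HasDerivAt (fun τ => S τ f) (A t f) t := hS.S_time t ht f

/-- the semigroup commutes with its generator -/
private theorem sgb_SA (hS : DirSG H S D A) {s t : ℝ} (hs : 0 < s) (ht : 0 < t) (f : CI H) :
    S s (A t f) = A (s + t) f := by
  have h1 : HasDerivAt (fun τ => S s (S τ f)) (S s (A t f)) t := by
    have h0 := (((S s).restrictScalars ℝ).hasFDerivAt (x := S t f)).comp_hasDerivAt t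
      (hS.S_time t ht f)
    exact h0
  have h2 : HasDerivAt (fun τ => S (s + τ) f) (A (s + t) f) t :=
    (hS.S_time (s + t) (by linarith) f).comp_const_add s t
  have h3 : (fun τ => S s (S τ f)) =ᶠ[𝓝 t] fun τ => S (s + τ) f := by
    filter_upwards [lt_mem_nhds ht] with τ hτ
    exact (hS.S_sg s τ hs hτ f).symm
  exact (h1.congr_of_eventuallyEq h3.symm).unique h2

private theorem sgb_D_time (hS : DirSG H S D A) {s : ℝ} (hs : 0 < s) (f : CI H) :
    HasDerivAt (fun τ => D τ f) (D s (A s f)) (s + s) := by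
  have h1 : HasDerivAt (fun τ => S (τ - s) f) (A s f) (s + s) := by
    have := (hS.S_time (s + s - s) (by linarith) f).comp_sub_const (s + s) s
    rwa [add_sub_cancel_right] at this
  have h2 : HasDerivAt (fun τ => D s (S (τ - s) f)) (D s (A s f)) (s + s) := by
    have h0 := (((D s).restrictScalars ℝ).hasFDerivAt (x := S (s + s - s) f)).comp_hasDerivAt
      (s + s) h1
    exact h0
  refine h2.congr_of_eventuallyEq ?_
  filter_upwards [lt_mem_nhds (show s < s + s by linarith)] with τ hτ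
  rw [← hS.D_sg s (τ - s) hs (by linarith) f, add_sub_cancel]

private theorem sgb_e (hS : DirSG H S D A) {t : ℝ} (ht : 0 < t) (f : CI H) :
    HasDerivAt (fun τ => n2 (S τ f) ^ 2) (-2 * n2 (D t f) ^ 2) t := by
  have h1 := sgb_deriv (hS.S_time t ht f)
  rw [sgb_parts (hS.S_der t ht f) (hS.D_der t ht f) (hS.S_zero t ht f) (hS.S_H t ht f)] at h1
  convert h1 using 1
  rw [Complex.neg_re, Complex.ofReal_re]
  ring

private theorem sgb_d (hS : DirSG H S D A) {t : ℝ} (ht : 0 < t) (f : CI H) :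
    HasDerivAt (fun τ => n2 (D τ f) ^ 2) (-2 * n2 (A t f) ^ 2) t := by
  obtain ⟨s, hs, rfl⟩ : ∃ s, 0 < s ∧ s + s = t := ⟨t / 2, by linarith, by ring⟩
  have h1 := sgb_deriv (sgb_D_time hS hs f)
  have hA : S s (A s f) = A (s + s) f := sgb_SA hS hs hs f
  have h2 : IsD (A (s + s) f) (D s (A s f)) := by
    rw [← hA]
    exact hS.S_der s hs (A s f)
  have h3 : ex (A (s + s) f) 0 = 0 := by
    rw [← hA]
    exact hS.S_zero s hs _
  have h4 : ex (A (s + s) f) H = 0 := by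
    rw [← hA]
    exact hS.S_H s hs _
  have h5 : bpJ (D s (A s f)) (star (D (s + s) f)) = -((n2 (A (s + s) f) ^ 2 : ℝ) : ℂ) := by
    rw [bpJ_parts h2 (hS.D_der (s + s) ht f).star, h3, h4, zero_mul, zero_mul, bpJ_star_self]
    ring
  rw [h5] at h1
  convert h1 using 1
  rw [Complex.neg_re, Complex.ofReal_re]
  ring

private theorem sgb_anti {g g1 : ℝ → ℝ} (h : ∀ t, 0 < t → HasDerivAt g (g1 t) t) {a b : ℝ}
    (ha : 0 < a) (hab : a ≤ b) (h1 : ∀ t ∈ Icc a b, g1 t ≤ 0) : g b ≤ g a := by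
  refine antitoneOn_of_deriv_nonpos (convex_Icc a b) (fun x hx => ?_) (fun x hx => ?_)
    (fun x hx => ?_) (left_mem_Icc.2 hab) (right_mem_Icc.2 hab) hab
  · exact (h x (ha.trans_le hx.1)).continuousAt.continuousWithinAt
  · have hx' := interior_subset hx
    exact (h x (ha.trans_le hx'.1)).differentiableAt.differentiableWithinAt
  · have hx' := interior_subset hx
    rw [(h x (ha.trans_le hx'.1)).deriv]
    exact h1 x hx'

private theorem sgb_le_of_sq {x y : ℝ} (hy : 0 ≤ y) (h : x ^ 2 ≤ y ^ 2) : x ≤ y :=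
  le_of_sq_le_sq h hy

theorem sg_S2 (hS : DirSG H S D A) {t : ℝ} (ht : 0 < t) (f : CI H) : n2 (S t f) ≤ n2 f := by
  have h1 : ∀ s ∈ Ioo 0 t, n2 (S t f) ≤ n2 (S s f - f) + n2 f := by
    intro s hs
    have h2 : n2 (S t f) ^ 2 ≤ n2 (S s f) ^ 2 :=
      sgb_anti (fun τ hτ => sgb_e hS hτ f) hs.1 hs.2.le fun τ _ => by nlinarith [sq_nonneg (n2 (D τ f))]
    have h3 : n2 (S t f) ≤ n2 (S s f) := sgb_le_of_sq (n2_nonneg _) h2
    have h4 := n2_add (S s f - f) f
    rw [sub_add_cancel] at h4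
    exact h3.trans h4
  have h5 : Tendsto (fun s => n2 (S s f - f) + n2 f) (𝓝[>] 0) (𝓝 (0 + n2 f)) := by
    refine Tendsto.add_const _ ?_
    have h6 := (Real.continuous_sqrt.tendsto 0).comp (hS.S_L2 f)
    rw [Real.sqrt_zero] at h6
    exact h6
  rw [zero_add] at h5
  refine ge_of_tendsto h5 ?_
  filter_upwards [Ioo_mem_nhdsGT ht] with s hs
  exact h1 s hs

private theorem sgb_dmono (hS : DirSG H S D A) {s t : ℝ} (hs : 0 < s) (hst : s ≤ t) (f : CI H) :
    n2 (D t f) ^ 2 ≤ n2 (D s f) ^ 2 :=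
  sgb_anti (fun τ hτ => sgb_d hS hτ f) hs hst fun τ _ => by nlinarith [sq_nonneg (n2 (A τ f))]

private theorem sgb_amono (hS : DirSG H S D A) {s t : ℝ} (hs : 0 < s) (hst : s ≤ t) (f : CI H) :
    n2 (A t f) ^ 2 ≤ n2 (A s f) ^ 2 := by
  rcases hst.eq_or_lt with rfl | hst
  · exact le_rfl
  · have h1 : S (t - s) (A s f) = A t f := by
      rw [sgb_SA hS (by linarith) hs, sub_add_cancel]
    have h2 := sg_S2 hS (show 0 < t - s by linarith) (A s f)
    rw [h1] at h2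
    exact pow_le_pow_left₀ (n2_nonneg _) h2 2

private theorem sgb_D2sq (hS : DirSG H S D A) {t : ℝ} (ht : 0 < t) (f : CI H) :
    t * n2 (D t f) ^ 2 ≤ n2 f ^ 2 := by
  have h1 := sgb_anti (g := fun τ => n2 (S τ f) ^ 2 + τ * (2 * n2 (D t f) ^ 2))
    (g1 := fun τ => -2 * n2 (D τ f) ^ 2 + 1 * (2 * n2 (D t f) ^ 2))
    (fun τ hτ => (sgb_e hS hτ f).add ((hasDerivAt_id τ).mul_const _)) (half_pos ht)
    (by linarith : t / 2 ≤ t) (fun τ hτ => by
      have := sgb_dmono hS ((half_pos ht).trans_le hτ.1) hτ.2 f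
      show -2 * n2 (D τ f) ^ 2 + 1 * (2 * n2 (D t f) ^ 2) ≤ 0
      linarith)
  have h2 : n2 (S (t / 2) f) ^ 2 ≤ n2 f ^ 2 :=
    pow_le_pow_left₀ (n2_nonneg _) (sg_S2 hS (half_pos ht) f) 2
  have h3 : 0 ≤ n2 (S t f) ^ 2 := sq_nonneg _
  beta_reduce at h1
  nlinarith

theorem sg_D2 (hS : DirSG H S D A) {t : ℝ} (ht : 0 < t) (f : CI H) :
    n2 (D t f) ≤ (√t)⁻¹ * n2 f := by
  have h1 := sgb_D2sq hS ht f
  refine sgb_le_of_sq (mul_nonneg (by positivity) (n2_nonneg _)) ?_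
  rw [mul_pow, inv_pow, Real.sq_sqrt ht.le, ← div_eq_inv_mul, le_div_iff₀ ht]
  linarith

private theorem sgb_A2sq (hS : DirSG H S D A) {t : ℝ} (ht : 0 < t) (f : CI H) :
    t ^ 2 * n2 (A t f) ^ 2 ≤ 2 * n2 f ^ 2 := by
  have h1 := sgb_anti (g := fun τ => n2 (D τ f) ^ 2 + τ * (2 * n2 (A t f) ^ 2))
    (g1 := fun τ => -2 * n2 (A τ f) ^ 2 + 1 * (2 * n2 (A t f) ^ 2))
    (fun τ hτ => (sgb_d hS hτ f).add ((hasDerivAt_id τ).mul_const _)) (half_pos ht)
    (by linarith : t / 2 ≤ t) (fun τ hτ => by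
      have := sgb_amono hS ((half_pos ht).trans_le hτ.1) hτ.2 f
      show -2 * n2 (A τ f) ^ 2 + 1 * (2 * n2 (A t f) ^ 2) ≤ 0
      linarith)
  have h2 := sgb_D2sq hS (half_pos ht) f
  have h3 : 0 ≤ n2 (D t f) ^ 2 := sq_nonneg _
  beta_reduce at h1
  have h4 : t * n2 (A t f) ^ 2 ≤ n2 (D (t / 2) f) ^ 2 := by nlinarith
  have h5 := mul_le_mul_of_nonneg_left h4 ht.le
  nlinarith

theorem sg_A2 (hS : DirSG H S D A) {t : ℝ} (ht : 0 < t) (f : CI H) :
    n2 (A t f) ≤ 2 * t⁻¹ * n2 f := by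
  have h1 := sgb_A2sq hS ht f
  refine sgb_le_of_sq (mul_nonneg (by positivity) (n2_nonneg _)) ?_
  have h2 : (2 * t⁻¹ * n2 f) ^ 2 = 4 * n2 f ^ 2 / t ^ 2 := by
    rw [mul_pow, mul_pow, inv_pow]
    field_simp
    ring
  rw [h2, le_div_iff₀ (by positivity)]
  nlinarith [sq_nonneg (n2 f)]

private theorem sgb_q4 {t : ℝ} (ht : 0 < t) : 0 < q4 t ∧ q4 t ^ 2 = √t :=
  ⟨Real.sqrt_pos.2 (Real.sqrt_pos.2 ht), Real.sq_sqrt (Real.sqrt_nonneg _)⟩

theorem sg_Ssup (hS : DirSG H S D A) {t : ℝ} (ht : 0 < t) (f : CI H) :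
    ‖S t f‖ ≤ 2 * (q4 t)⁻¹ * n2 f := by
  obtain ⟨hq, hq2⟩ := sgb_q4 ht
  have hst := Real.sqrt_pos.2 ht
  have hf := n2_nonneg f
  refine sgb_le_of_sq (by positivity) ?_
  have h1 := agmon (hS.S_der t ht f) (hS.S_zero t ht f)
  have h2 : 2 * n2 (S t f) * n2 (D t f) ≤ 2 * n2 f * ((√t)⁻¹ * n2 f) := by
    have h3 := mul_le_mul (sg_S2 hS ht f) (sg_D2 hS ht f) (n2_nonneg _) hf
    linarith
  have h4 : (2 * (q4 t)⁻¹ * n2 f) ^ 2 = 4 * ((√t)⁻¹ * n2 f ^ 2) := by
    rw [mul_pow, mul_pow, inv_pow, hq2]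
    ring
  have h5 : 0 ≤ (√t)⁻¹ * n2 f ^ 2 := by positivity
  rw [h4]
  nlinarith

theorem sg_Dsup (hS : DirSG H S D A) {t : ℝ} (ht : 0 < t) (f : CI H) :
    ‖D t f‖ ≤ 4 * ((√t)⁻¹ * (q4 t)⁻¹) * n2 f := by
  obtain ⟨hq, hq2⟩ := sgb_q4 ht
  have hst := Real.sqrt_pos.2 ht
  have hf := n2_nonneg f
  refine sgb_le_of_sq (by positivity) ?_
  have h0 : ∫ z in (0:ℝ)..H, ex (D t f) z = 0 := by
    have h1 := intervalIntegral.integral_eq_sub_of_hasDerivAt_of_le hH.out.le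
      (continuous_ex (S t f)).continuousOn
      (fun z hz => (hS.S_der t ht f z (Ioo_subset_Icc_self hz)).hasDerivAt
        (Icc_mem_nhds hz.1 hz.2)) ((continuous_ex (D t f)).intervalIntegrable _ _)
    rw [h1, hS.S_zero t ht, hS.S_H t ht, sub_zero]
  have h1 := agmon_mean (hS.D_der t ht f) h0
  have h2 : 4 * n2 (D t f) * n2 (A t f) ≤ 4 * ((√t)⁻¹ * n2 f) * (2 * t⁻¹ * n2 f) := by
    have h3 := mul_le_mul (sg_D2 hS ht f) (sg_A2 hS ht f) (n2_nonneg _) (by positivity)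
    linarith
  have h4 : (4 * ((√t)⁻¹ * (q4 t)⁻¹) * n2 f) ^ 2 = 16 * ((√t)⁻¹ * t⁻¹ * n2 f ^ 2) := by
    rw [mul_pow, mul_pow, mul_pow, inv_pow, inv_pow, hq2, Real.sq_sqrt ht.le]
    ring
  have h5 : 0 ≤ (√t)⁻¹ * t⁻¹ * n2 f ^ 2 := by positivity
  rw [h4]
  nlinarith

end

end Pool.Agent.Lib.MP_79abb3_an.FW
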