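import Pool.Agent.Lib.MP_79abb3_an.FW.OpNa

/-!
FW-5a: velocity modes.
-/

set_option autoImplicit false
set_option linter.unusedSectionVars false

open MeasureTheory Set Filter Topology Function

namespace Pool.Agent.Lib.MP_79abb3_an.FW

open Pool.Agent.Lib.MP_79abb3_an.P25

section
variable {H : ℝ} [hH : Fact (0 < H)]

/-- A family of velocity modes. -/
structure VF (ω : ℝ) (a : ℤ → Xn H) : Prop where
  o : ∀ n, (a n).1 = 0
  d : ∀ n, IsD (a n).2.1 (a n).2.2.1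
  e : ∀ n : ℤ, (a n).2.2.2 = |ω * n| • (a n).2.1
  s : Summable fun n => ‖a n‖

/-- Vertical velocity, horizontal velocity and vorticity of a family. -/
noncomputable def fw (ω : ℝ) (a : ℤ → Xn H) (n : ℤ) : CI H := om (ω * n) (jn (a n))
noncomputable def fv (ω : ℝ) (a : ℤ → Xn H) (n : ℤ) : CI H := vv (ω * n) (jn (a n))
noncomputable def fo (ω : ℝ) (a : ℤ → Xn H) (n : ℤ) : CI H := Om (ω * n) (a n)

theorem fw_eq {ω : ℝ} {a : ℤ → Xn H} (ha : ∀ n, (a n).1 = 0) (n : ℤ) :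
    fw ω a n = -((is (ω * n) * ((|ω * n| : ℝ) : ℂ)) • Eop (ω * n) (a n).2.1) := by
  have h1 : (a n).1.1 = 0 := by rw [ha n]; rfl
  show -(Eop (ω * n) (a n).1.1) - (is (ω * n) * ((|ω * n| : ℝ) : ℂ)) • Eop (ω * n) (a n).2.1 = _
  rw [h1, map_zero, neg_zero, zero_sub]

theorem fv_eq {ω : ℝ} (a : ℤ → Xn H) (n : ℤ) :
    fv ω a n = (a n).2.1 - is (ω * n) • fw ω a n := rfl

theorem fo_eq {ω : ℝ} {a : ℤ → Xn H} (ha : ∀ n, (a n).1 = 0) (n : ℤ) :
    fo ω a n = (a n).2.2.2 - (a n).2.2.1 := by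
  have h1 : (a n).1.1 = 0 := by rw [ha n]; rfl
  show -(a n).2.2.1 + (a n).2.2.2 - is (ω * n) • (a n).1.1 = _
  rw [h1]
  refine ci_ext fun t _ => ?_
  simp only [ex_add, ex_sub, ex_neg, ex_smul, ex_zero]
  ring

private theorem neg_smul_ci (c : ℂ) (f : CI H) : -(c • f) = (-c) • f := by
  refine ci_ext fun t _ => ?_
  simp only [ex_neg, ex_smul]
  ring

private theorem norm_coef_le (k : ℝ) : ‖-(is k * ((|k| : ℝ) : ℂ))‖ ≤ |k| := by
  rw [norm_neg, norm_mul, Complex.norm_real, Real.norm_eq_abs, abs_abs]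
  exact mul_le_of_le_one_left (abs_nonneg k) (norm_is_le k)

theorem vel_bounds {ω : ℝ} {a : ℤ → Xn H} (ha : ∀ n, (a n).1 = 0) (n : ℤ) :
    ‖fw ω a n‖ ≤ ‖(a n).2.1‖ ∧ n2 (fw ω a n) ≤ n2 (a n).2.1 ∧ n1 (fw ω a n) ≤ n1 (a n).2.1 ∧
    ‖fv ω a n‖ ≤ 2 * ‖(a n).2.1‖ ∧ n2 (fv ω a n) ≤ 2 * n2 (a n).2.1 ∧ n1 (fv ω a n) ≤ 2 * n1 (a n).2.1 := by
  have hc := norm_coef_le (ω * n)
  have hw := fw_eq (ω := ω) ha n
  rw [neg_smul_ci] at hw
  have A1 : ‖fw ω a n‖ ≤ ‖(a n).2.1‖ := by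
    rw [hw, norm_smul]
    exact (mul_le_mul_of_nonneg_right hc (norm_nonneg _)).trans (norm_kEop_le _ _)
  have A2 : n2 (fw ω a n) ≤ n2 (a n).2.1 := by
    rw [hw, n2_smul]
    exact (mul_le_mul_of_nonneg_right hc (n2_nonneg _)).trans (n2_Eop _ _)
  have A3 : n1 (fw ω a n) ≤ n1 (a n).2.1 := by
    rw [hw, n1_smul]
    exact (mul_le_mul_of_nonneg_right hc (n1_nonneg _)).trans (n1_Eop _ _)
  have hi : ‖-is (ω * n)‖ ≤ 1 := by
    rw [norm_neg]
    exact norm_is_le _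
  have hv : fv ω a n = (a n).2.1 + (-is (ω * n)) • fw ω a n := by
    rw [fv_eq, ← neg_smul_ci, sub_eq_add_neg]
  refine ⟨A1, A2, A3, ?_, ?_, ?_⟩
  · rw [hv]
    refine (norm_add_le _ _).trans ?_
    rw [norm_smul]
    have := mul_le_of_le_one_left (norm_nonneg (fw ω a n)) hi
    linarith
  · rw [hv]
    refine (n2_add _ _).trans ?_
    rw [n2_smul]
    have := mul_le_of_le_one_left (n2_nonneg (fw ω a n)) hi
    linarith
  · rw [hv]
    refine (n1_add _ _).trans ?_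
    rw [n1_smul]
    have := mul_le_of_le_one_left (n1_nonneg (fw ω a n)) hi
    linarith

/-- Boundary value at `z = H`. -/
theorem fw_H {ω : ℝ} {a : ℤ → Xn H} (ha : ∀ n, (a n).1 = 0) (n : ℤ) :
    ‖ex (fw ω a n) H‖ ≤ √(|ω * n| / 2) * n2 (a n).2.1 := by
  have hw := fw_eq (ω := ω) ha n
  rw [neg_smul_ci] at hw
  refine (norm_ex_le _ _).trans ?_
  rw [hw, norm_smul]
  refine (mul_le_mul_of_nonneg_right (norm_coef_le (ω * n)) (norm_nonneg _)).trans ?_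
  have h1 := (norm_Eop_le2 (ω * n) (a n).2.1).1
  have hk := abs_nonneg (ω * n)
  have h2 : |ω * n| = √(|ω * n| / 2) * √(2 * |ω * n|) := by
    rw [← Real.sqrt_mul (by positivity)]
    have h3 : |ω * n| / 2 * (2 * |ω * n|) = |ω * n| * |ω * n| := by ring
    rw [h3, Real.sqrt_mul_self hk]
  calc |ω * n| * ‖Eop (ω * n) (a n).2.1‖
      = √(|ω * n| / 2) * (√(2 * |ω * n|) * ‖Eop (ω * n) (a n).2.1‖) := by
        rw [← mul_assoc, ← h2]
    _ ≤ _ := mul_le_mul_of_nonneg_left h1 (Real.sqrt_nonneg _)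

theorem VF.add {ω : ℝ} {a b : ℤ → Xn H} (ha : VF ω a) (hb : VF ω b) : VF ω (fun n => a n + b n) where
  o n := by
    show (a n).1 + (b n).1 = 0
    rw [ha.o n, hb.o n, add_zero]
  d n := fun z hz => (ha.d n z hz).add (hb.d n z hz)
  e n := by
    show (a n).2.2.2 + (b n).2.2.2 = |ω * n| • ((a n).2.1 + (b n).2.1)
    rw [ha.e n, hb.e n]
    refine ci_ext fun t _ => ?_
    simp only [ex_add, ex_rsmul]
    ring
  s := Summable.of_nonneg_of_le (fun n => norm_nonneg _) (fun n => norm_add_le _ _) (ha.s.add hb.s)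

theorem fw_add (ω : ℝ) (a b : ℤ → Xn H) (n : ℤ) : fw ω (fun n => a n + b n) n = fw ω a n + fw ω b n := by
  refine ci_ext fun t _ => ?_
  simp only [fw, jn, om, Prod.fst_add, Prod.snd_add, map_add, ex_add, ex_sub, ex_neg, ex_smul]
  ring

theorem fv_add (ω : ℝ) (a b : ℤ → Xn H) (n : ℤ) : fv ω (fun n => a n + b n) n = fv ω a n + fv ω b n := by
  rw [fv_eq, fv_eq, fv_eq, fw_add]
  refine ci_ext fun t _ => ?_
  simp only [Prod.fst_add, Prod.snd_add, ex_add, ex_sub, ex_smul]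
  ring

theorem fo_add (ω : ℝ) (a b : ℤ → Xn H) (n : ℤ) : fo ω (fun n => a n + b n) n = fo ω a n + fo ω b n := by
  refine ci_ext fun t _ => ?_
  simp only [fo, Om, Prod.fst_add, Prod.snd_add, ex_add, ex_sub, ex_neg, ex_smul]
  ring


end

end Pool.Agent.Lib.MP_79abb3_an.FW
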