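import Pool.Agent.Lib.MP_79abb3_an.FW.Def

/-!
FW-4c: the heat factor.
-/

set_option autoImplicit false
set_option linter.unusedSectionVars false

open MeasureTheory Set Filter Topology Function

namespace Pool.Agent.Lib.MP_79abb3_an.FW

open Pool.Agent.Lib.MP_79abb3_an.P25

section
variable {H : ℝ} [hH : Fact (0 < H)]

/-- sum of a discrete gaussian. -/
private theorem yc_gauss {h : ℝ} (hh : 0 < h) :
    (Summable fun n : ℤ => Real.exp (-((h * n) ^ 2))) ∧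
      ∑' n : ℤ, Real.exp (-((h * n) ^ 2)) ≤ Real.exp 1 * (1 / h + 2) := by
  set r := Real.exp (-(2 * h)) with hr
  have hr0 : 0 < r := Real.exp_pos _
  have hr1 : r < 1 := by rw [hr, Real.exp_lt_one_iff]; linarith
  have hgs : Summable fun n : ℕ => Real.exp 1 * r ^ n :=
    (summable_geometric_of_lt_one hr0.le hr1).mul_left _
  have hgt : ∑' n : ℕ, Real.exp 1 * r ^ n = Real.exp 1 * (1 - r)⁻¹ := by
    rw [tsum_mul_left, tsum_geometric_of_lt_one hr0.le hr1]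
  have hpt : ∀ x : ℝ, Real.exp (-(x ^ 2)) ≤ Real.exp 1 * Real.exp (-(2 * x)) := by
    intro x
    rw [← Real.exp_add]
    apply Real.exp_le_exp.2
    nlinarith [sq_nonneg (x - 1)]
  have hrn : ∀ n : ℕ, Real.exp (-(2 * (h * n))) = r ^ n := by
    intro n
    rw [hr, ← Real.exp_nat_mul]
    congr 1
    ring
  have b1 : ∀ n : ℕ, Real.exp (-((h * ((n : ℕ) : ℤ)) ^ 2)) ≤ Real.exp 1 * r ^ n := by
    intro n
    rw [← hrn n]
    have := hpt (h * n)
    simpa using this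
  have b2 : ∀ n : ℕ, Real.exp (-((h * ((-((n : ℤ) + 1) : ℤ) : ℝ)) ^ 2)) ≤ Real.exp 1 * r ^ n := by
    intro n
    have h1 := hpt (h * ((n + 1 : ℕ) : ℝ))
    rw [hrn] at h1
    have h2 : (h * ((-((n : ℤ) + 1) : ℤ) : ℝ)) ^ 2 = (h * ((n + 1 : ℕ) : ℝ)) ^ 2 := by
      push_cast
      ring
    rw [h2]
    refine h1.trans ?_
    have h3 : r ^ (n + 1) ≤ r ^ n := pow_le_pow_of_le_one hr0.le hr1.le (by omega)
    exact mul_le_mul_of_nonneg_left h3 (Real.exp_pos _).le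
  have s1 : Summable fun n : ℕ => Real.exp (-((h * ((n : ℕ) : ℤ)) ^ 2)) :=
    Summable.of_nonneg_of_le (fun n => (Real.exp_pos _).le) b1 hgs
  have s2 : Summable fun n : ℕ => Real.exp (-((h * ((-((n : ℤ) + 1) : ℤ) : ℝ)) ^ 2)) :=
    Summable.of_nonneg_of_le (fun n => (Real.exp_pos _).le) b2 hgs
  refine ⟨Summable.of_nat_of_neg_add_one (f := fun n : ℤ => Real.exp (-((h * n) ^ 2))) s1 s2, ?_⟩
  rw [tsum_of_nat_of_neg_add_one (f := fun n : ℤ => Real.exp (-((h * n) ^ 2))) s1 s2]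
  have t1 := s1.tsum_le_tsum b1 hgs
  have t2 := s2.tsum_le_tsum b2 hgs
  rw [hgt] at t1 t2
  have h4 : (1 - r)⁻¹ ≤ (1 / h + 2) / 2 := by
    have h5 : r ≤ 1 / (1 + 2 * h) := by
      rw [hr, Real.exp_neg, ← one_div]
      apply one_div_le_one_div_of_le (by positivity)
      linarith [Real.add_one_le_exp (2 * h)]
    have h6 : 2 * h / (1 + 2 * h) ≤ 1 - r := by
      have : 2 * h / (1 + 2 * h) = 1 - 1 / (1 + 2 * h) := by field_simp; ring
      linarith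
    have h7 : (1 - r)⁻¹ ≤ (2 * h / (1 + 2 * h))⁻¹ := inv_anti₀ (by positivity) h6
    refine h7.trans (le_of_eq ?_)
    field_simp
  have he := Real.exp_pos 1
  have h8 : Real.exp 1 * (1 - r)⁻¹ ≤ Real.exp 1 * ((1 / h + 2) / 2) :=
    mul_le_mul_of_nonneg_left h4 he.le
  linarith

/-- Summation over the modes with the heat factor. -/
theorem heat_l2 {ω : ℝ} (hω : 0 < ω) : ∃ C, 0 ≤ C ∧ ∀ s ∈ Ioc (0:ℝ) 1, ∀ q : ℤ → ℝ, (∀ n, 0 ≤ q n) →
    (Summable fun n => q n ^ 2) →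
    (Summable fun n : ℤ => Real.exp (-((ω * n) ^ 2 * s / 2)) * q n) ∧
      ∑' n : ℤ, Real.exp (-((ω * n) ^ 2 * s / 2)) * q n ≤ C * (q4 s)⁻¹ * √(∑' n, q n ^ 2) := by
  refine ⟨√(Real.exp 1 * (1 / ω + 2)), Real.sqrt_nonneg _, fun s hs q hq sq2 => ?_⟩
  have hs0 := hs.1
  have hss : 0 < √s := Real.sqrt_pos.2 hs0
  have hss1 : √s ≤ 1 := Real.sqrt_le_one.2 hs.2
  obtain ⟨g1, g2⟩ := yc_gauss (h := ω * √s) (by positivity)
  have hexp : ∀ n : ℤ, Real.exp (-((ω * n) ^ 2 * s / 2)) ^ (2:ℝ) =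
      Real.exp (-((ω * √s * n) ^ 2)) := by
    intro n
    rw [Real.rpow_two, ← Real.exp_nat_mul]
    congr 1
    rw [mul_pow, mul_pow, mul_pow, Real.sq_sqrt hs0.le]
    push_cast
    ring
  have hq2 : ∀ n : ℤ, q n ^ (2:ℝ) = q n ^ 2 := fun n => Real.rpow_two _
  have key := Real.summable_and_inner_le_Lp_mul_Lq_tsum_of_nonneg
    (f := fun n : ℤ => Real.exp (-((ω * n) ^ 2 * s / 2))) (g := q)
    Real.HolderConjugate.two_two (fun n => (Real.exp_pos _).le) hq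
    (by simp only [hexp]; exact g1) (by simp only [hq2]; exact sq2)
  refine ⟨key.1, key.2.trans ?_⟩
  simp only [hexp, hq2]
  rw [← Real.sqrt_eq_rpow, ← Real.sqrt_eq_rpow]
  refine mul_le_mul_of_nonneg_right ?_ (Real.sqrt_nonneg _)
  have hK : 0 ≤ Real.exp 1 * (1 / ω + 2) := by positivity
  unfold q4
  rw [← Real.sqrt_inv, ← Real.sqrt_mul hK]
  apply Real.sqrt_le_sqrt
  refine g2.trans ?_
  rw [mul_assoc]
  refine mul_le_mul_of_nonneg_left ?_ (Real.exp_pos _).le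
  have h9 : 1 / (ω * √s) + 2 = (1 / ω + 2 * √s) * (√s)⁻¹ := by
    field_simp
  rw [h9]
  refine mul_le_mul_of_nonneg_right ?_ (by positivity)
  linarith

theorem kexp_le (k : ℝ) {s : ℝ} (hs : 0 < s) : |k| * Real.exp (-(k ^ 2 * s / 2)) ≤ (√s)⁻¹ := by
  have hss : 0 < √s := Real.sqrt_pos.2 hs
  rw [← one_div, le_div_iff₀ hss]
  have h1 : |k| * √s ≤ Real.exp (k ^ 2 * s / 2) := by
    refine le_trans ?_ (Real.add_one_le_exp _)
    have h2 : k ^ 2 * s = (|k| * √s) ^ 2 := by rw [mul_pow, sq_abs, Real.sq_sqrt hs.le]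
    rw [h2]
    nlinarith [sq_nonneg (|k| * √s - 1)]
  calc |k| * Real.exp (-(k ^ 2 * s / 2)) * √s = |k| * √s * Real.exp (-(k ^ 2 * s / 2)) := by ring
    _ ≤ Real.exp (k ^ 2 * s / 2) * Real.exp (-(k ^ 2 * s / 2)) :=
        mul_le_mul_of_nonneg_right h1 (Real.exp_pos _).le
    _ = 1 := by rw [← Real.exp_add, add_neg_cancel, Real.exp_zero]

/-! Time integrals. -/

end

end Pool.Agent.Lib.MP_79abb3_an.FW
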