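import Pool.Agent.Lib.MP_79abb3_an.FW.PDd
import Pool.Agent.Lib.MP_79abb3_an.FW.PDe
import Pool.Agent.Lib.MP_79abb3_an.FW.SGb
import Pool.Agent.Lib.MP_79abb3_an.FW.YoungC

/-!
FW-22: pointwise estimate of the dual pairing of one mode (3.5).
-/

set_option autoImplicit false
set_option linter.unusedSectionVars false

open MeasureTheory Set Filter Topology Function

namespace Pool.Agent.Lib.MP_79abb3_an.FW

open Pool.Agent.Lib.MP_79abb3_an.P25

section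
variable {H : ℝ} [hH : Fact (0 < H)]

/-- The bound of mode `n` at time distance `s`. -/
noncomputable def vB (ω : ℝ) (N : ℕ) (a s : ℝ) (x : ℤ → Xn H) (n : ℤ) : ℝ :=
  (√s)⁻¹ * (q4 s)⁻¹ * (‖ex (x n).2.1 0‖ + ∑' m, n2 (x m).2.1 * n2 (x (n - m)).2.1) +
  Real.exp (-((ω * n) ^ 2 * s / 2)) * (((√s)⁻¹ + ω * N) * (n2 (chm (ω * N) a * (x (n - N)).2.1) +
    n2 (chm (ω * N) a * (x (n + N)).2.1)) + n2 (kap (ω * N) a * (x n).2.1)) +
  (√s)⁻¹ * (∑' m : ℤ, ‖Top (ω * m) (x m).1.1‖ * n2 (x (n - m)).2.1) +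
  (q4 s)⁻¹ * (Real.exp (-((ω * n) ^ 2 * s / 2)) * (n1 (conv (fun m => (x m).1.1) (fw ω (iv x)) n) +
    n1 (conv (fun m => (x m).1.1) (fv ω (iv x)) n)))

/-- The arithmetic of the estimate. -/
private theorem voA_arith {E E2 κ r q P S1 S2 V0 T Kp c g nf nf1 sf sf1 : ℝ}
    (hE2 : 0 ≤ E2) (hE21 : E2 ≤ 1) (hE : E = E2 * E2) (hκ : 0 ≤ κ) (hκE : κ * E2 ≤ r)
    (hr : 1 ≤ r) (hq : 1 ≤ q) (hP : 0 ≤ P) (hS1 : 0 ≤ S1) (hS2 : 0 ≤ S2) (hV0 : 0 ≤ V0)
    (hT : 0 ≤ T) (hKp : 0 ≤ Kp) (hc : 0 ≤ c) (hg : 0 ≤ g)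
    (hnf0 : 0 ≤ nf) (hsf0 : 0 ≤ sf)
    (hnf : nf ≤ P) (hnf1 : nf1 ≤ r * P) (hsf : sf ≤ 2 * q * P) (hsf1 : sf1 ≤ 4 * (r * q) * P) :
    E * (50 * S1 * (sf1 + κ * sf) + 100 * S2 * (nf1 + κ * nf) + 3 * sf * g +
      100 * (nf1 + (κ + c) * nf) * T + Kp * nf + V0 * sf1) ≤
    1000 * (r * q * (V0 + S1) + E2 * ((r + c) * T + Kp) + r * S2 + q * (E2 * g)) * P := by
  have hr0 : 0 ≤ r := by linarith
  have hq0 : 0 ≤ q := by linarith
  have hE0 : 0 ≤ E := by rw [hE]; positivity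
  have hEle : E ≤ E2 := by rw [hE]; exact mul_le_of_le_one_left hE2 hE21
  have hE1 : E ≤ 1 := hEle.trans hE21
  -- E * κ ≤ E2 * r ≤ r
  have hEκ : E * κ ≤ E2 * r := by
    rw [hE]
    calc E2 * E2 * κ = E2 * (κ * E2) := by ring
      _ ≤ E2 * r := mul_le_mul_of_nonneg_left hκE hE2
  have hEκ' : E * κ ≤ r := hEκ.trans (mul_le_of_le_one_left hr0 hE21)
  have b1 : E * sf1 ≤ 4 * (r * q) * P := by
    calc E * sf1 ≤ E * (4 * (r * q) * P) := mul_le_mul_of_nonneg_left hsf1 hE0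
      _ ≤ 1 * (4 * (r * q) * P) := mul_le_mul_of_nonneg_right hE1 (by positivity)
      _ = 4 * (r * q) * P := one_mul _
  have b2 : E * κ * sf ≤ r * (2 * q * P) := mul_le_mul hEκ' hsf hsf0 hr0
  have t1 : E * (50 * S1 * (sf1 + κ * sf)) ≤ 300 * (r * q * S1) * P := by
    have : E * (50 * S1 * (sf1 + κ * sf)) = 50 * S1 * (E * sf1 + E * κ * sf) := by ring
    rw [this]
    calc 50 * S1 * (E * sf1 + E * κ * sf) ≤ 50 * S1 * (4 * (r * q) * P + r * (2 * q * P)) :=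
          mul_le_mul_of_nonneg_left (add_le_add b1 b2) (by positivity)
      _ = 300 * (r * q * S1) * P := by ring
  have b3 : E * nf1 ≤ E2 * (r * P) :=
    (mul_le_mul_of_nonneg_left hnf1 hE0).trans (mul_le_mul_of_nonneg_right hEle (by positivity))
  have b3' : E2 * (r * P) ≤ r * P := by
    calc E2 * (r * P) ≤ 1 * (r * P) := mul_le_mul_of_nonneg_right hE21 (by positivity)
      _ = r * P := one_mul _
  have b4 : E * κ * nf ≤ E2 * r * P := mul_le_mul hEκ hnf hnf0 (by positivity)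
  have b4' : E2 * r * P ≤ r * P := by
    rw [mul_assoc]; exact b3'
  have t2 : E * (100 * S2 * (nf1 + κ * nf)) ≤ 200 * (r * S2) * P := by
    have : E * (100 * S2 * (nf1 + κ * nf)) = 100 * S2 * (E * nf1 + E * κ * nf) := by ring
    rw [this]
    calc 100 * S2 * (E * nf1 + E * κ * nf) ≤ 100 * S2 * (r * P + r * P) :=
          mul_le_mul_of_nonneg_left (add_le_add (b3.trans b3') (b4.trans b4')) (by positivity)
      _ = 200 * (r * S2) * P := by ring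
  have t3 : E * (3 * sf * g) ≤ 6 * (q * (E2 * g)) * P := by
    have h1 : E * sf ≤ E2 * (2 * q * P) := mul_le_mul hEle hsf hsf0 hE2
    calc E * (3 * sf * g) = 3 * g * (E * sf) := by ring
      _ ≤ 3 * g * (E2 * (2 * q * P)) := mul_le_mul_of_nonneg_left h1 (by positivity)
      _ = 6 * (q * (E2 * g)) * P := by ring
  have t4 : E * (100 * (nf1 + (κ + c) * nf) * T) ≤ 200 * (E2 * ((r + c) * T)) * P := by
    have h1 : E * nf ≤ E2 * P := mul_le_mul hEle hnf hnf0 hE2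
    have h2 : c * (E * nf) ≤ c * (E2 * P) := mul_le_mul_of_nonneg_left h1 hc
    have h3 : E * (100 * (nf1 + (κ + c) * nf) * T) =
        100 * T * (E * nf1 + E * κ * nf + c * (E * nf)) := by ring
    rw [h3]
    have h4 : E * nf1 + E * κ * nf + c * (E * nf) ≤ 2 * (E2 * ((r + c))) * P := by
      have h5 : 0 ≤ E2 * c * P := by positivity
      have h6 : E2 * (r * P) + E2 * r * P + c * (E2 * P) + E2 * c * P =
        2 * (E2 * ((r + c))) * P := by ring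
      linarith only [b3, b4, h2, h5, h6]
    calc 100 * T * (E * nf1 + E * κ * nf + c * (E * nf)) ≤ 100 * T * (2 * (E2 * ((r + c))) * P) :=
          mul_le_mul_of_nonneg_left h4 (by positivity)
      _ = 200 * (E2 * ((r + c) * T)) * P := by ring
  have t5 : E * (Kp * nf) ≤ E2 * Kp * P := by
    have h1 : E * nf ≤ E2 * P := mul_le_mul hEle hnf hnf0 hE2
    calc E * (Kp * nf) = Kp * (E * nf) := by ring
      _ ≤ Kp * (E2 * P) := mul_le_mul_of_nonneg_left h1 hKp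
      _ = E2 * Kp * P := by ring
  have t6 : E * (V0 * sf1) ≤ 4 * (r * q * V0) * P := by
    calc E * (V0 * sf1) = V0 * (E * sf1) := by ring
      _ ≤ V0 * (4 * (r * q) * P) := mul_le_mul_of_nonneg_left b1 hV0
      _ = 4 * (r * q * V0) * P := by ring
  have p1 : 0 ≤ r * q * S1 * P := by positivity
  have p2 : 0 ≤ r * S2 * P := by positivity
  have p3 : 0 ≤ q * (E2 * g) * P := by positivity
  have p4 : 0 ≤ E2 * ((r + c) * T) * P := by positivity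
  have p5 : 0 ≤ E2 * Kp * P := by positivity
  have p6 : 0 ≤ r * q * V0 * P := by positivity
  calc E * (50 * S1 * (sf1 + κ * sf) + 100 * S2 * (nf1 + κ * nf) + 3 * sf * g +
      100 * (nf1 + (κ + c) * nf) * T + Kp * nf + V0 * sf1)
      = E * (50 * S1 * (sf1 + κ * sf)) + E * (100 * S2 * (nf1 + κ * nf)) + E * (3 * sf * g) +
        E * (100 * (nf1 + (κ + c) * nf) * T) + E * (Kp * nf) + E * (V0 * sf1) := by ring
    _ ≤ 300 * (r * q * S1) * P + 200 * (r * S2) * P + 6 * (q * (E2 * g)) * P +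
        200 * (E2 * ((r + c) * T)) * P + E2 * Kp * P + 4 * (r * q * V0) * P :=
        add_le_add (add_le_add (add_le_add (add_le_add (add_le_add t1 t2) t3) t4) t5) t6
    _ ≤ 1000 * (r * q * (V0 + S1) + E2 * ((r + c) * T + Kp) + r * S2 + q * (E2 * g)) * P := by
        have e : 1000 * (r * q * (V0 + S1) + E2 * ((r + c) * T + Kp) + r * S2 + q * (E2 * g)) * P =
          1000 * (r * q * V0 * P) + 1000 * (r * q * S1 * P) + 1000 * (E2 * ((r + c) * T) * P) +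
          1000 * (E2 * Kp * P) + 1000 * (r * S2 * P) + 1000 * (q * (E2 * g) * P) := by ring
        rw [e]
        linarith only [p1, p2, p3, p4, p5, p6]

theorem vo_pt {S D A : ℝ → (CI H →L[ℂ] CI H)} (hS : DirSG H S D A) {ω : ℝ} (hω : 0 < ω) {N : ℕ}
    (hN : 1 ≤ N) {a : ℝ} (ha : 0 ≤ a) {x : L1 (Xn H)}
    (hx : ∀ n : ℤ, Cm (ω * n) (ex (pu ω N a n : Xn H).2.1 0) (x n)) {s : ℝ} (hs : s ∈ Ioc (0:ℝ) 1)
    (n : ℤ) (φ : CI H) :
    Real.exp (-((ω * n) ^ 2 * s)) * ‖bpJ (si ω N a x n) (S s φ) + ex (x n).2.1 0 * ex (D s φ) 0‖ ≤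
      1000 * vB ω N a s x n * n2 φ := by
  have hs0 := hs.1
  have hd : IsD (S s φ) (D s φ) := hS.S_der s hs0 φ
  have f0 : ex (S s φ) 0 = 0 := hS.S_zero s hs0 φ
  have fH : ex (S s φ) H = 0 := hS.S_H s hs0 φ
  have vi : VF ω (iv x) := VF_iv (N := N) (a := a) hx
  have vo : VF ω (ov ω x) := VF_ov
  have vp : VF ω (pu ω N a : ℤ → Xn H) := VF_pu a hω hN
  have hiH : ∀ n, ex (iv x n).2.1 H = 0 := fun n => (hx n).h2
  have hoH : ∀ n, ex (ov ω x n).2.1 H = 0 := fun n => Top_H _ _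
  -- splitting of the source
  have e1 : (Bf ω (iv x) (tv ω N a x) n).2 = (Bf ω (iv x) (ov ω x) n).2 + (Bf ω (iv x) (iv x) n).2 +
      (Bf ω (iv x) (pu ω N a) n).2 := by
    have h1 : (tv ω N a x : ℤ → Xn H) =
        fun n => (fun n => ov ω x n + iv x n) n + (pu ω N a : ℤ → Xn H) n := rfl
    rw [h1, Bf2_add_right vi (vo.add vi) vp, Bf2_add_right vi vo vi]
  have e2 : bpJ (si ω N a x n) (S s φ) =
      (bpJ ((Bf ω (ov ω x) (iv x) n).2 + (Bf ω (iv x) (ov ω x) n).2) (S s φ) -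
        bpJ (Bf ω (ov ω x) (iv x) n).2 (S s φ)) + bpJ (Bf ω (iv x) (iv x) n).2 (S s φ) +
      bpJ (Bf ω (iv x) (pu ω N a) n).2 (S s φ) - bpJ (kap (ω * N) a * (x n).2.1) (S s φ) := by
    unfold si
    rw [e1, bpJ_sub_left, bpJ_add_left, bpJ_add_left, bpJ_add_left]
    ring
  have g1 := (pd_est hω vi vi hiH hiH n hd f0 fH).1
  have g2 := (pd_est hω vo vi hoH hiH n hd f0 fH).2
  have g3 := po_est vo vi n hd f0
  have g4 := pu_est hω hN ha vi hiH n hd f0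
  have g5 := norm_bpJ_le (kap (ω * N) a * (x n).2.1) (S s φ)
  have g1' : ‖bpJ (Bf ω (iv x) (iv x) n).2 (S s φ)‖ ≤
      50 * (∑' m, n2 (x m).2.1 * n2 (x (n - m)).2.1) * (‖D s φ‖ + |ω * n| * ‖S s φ‖) := by
    rw [bpJ_add_left, ← two_mul, norm_mul] at g1
    have h2 : ‖(2 : ℂ)‖ = 2 := by simp
    rw [h2] at g1
    have h3 : (∑' m, n2 (iv (x : ℤ → Xn H) m).2.1 * n2 (iv (x : ℤ → Xn H) (n - m)).2.1) =
      ∑' m, n2 (x m).2.1 * n2 (x (n - m)).2.1 := rfl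
    rw [h3] at g1
    linarith
  have hfo : fo ω (ov ω x) = fun m => (x m).1.1 := by
    funext m
    exact fo_ov m
  rw [hfo] at g3
  have h6 : ‖ex (x n).2.1 0 * ex (D s φ) 0‖ ≤ ‖ex (x n).2.1 0‖ * ‖D s φ‖ := by
    rw [norm_mul]
    exact mul_le_mul_of_nonneg_left (norm_ex_le _ _) (norm_nonneg _)
  have htot : ‖bpJ (si ω N a x n) (S s φ) + ex (x n).2.1 0 * ex (D s φ) 0‖ ≤
      50 * (∑' m, n2 (x m).2.1 * n2 (x (n - m)).2.1) * (‖D s φ‖ + |ω * n| * ‖S s φ‖) +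
      100 * (∑' m : ℤ, ‖Top (ω * m) (x m).1.1‖ * n2 (x (n - m)).2.1) *
        (n2 (D s φ) + |ω * n| * n2 (S s φ)) +
      3 * ‖S s φ‖ * (n1 (conv (fun m => (x m).1.1) (fw ω (iv x)) n) +
        n1 (conv (fun m => (x m).1.1) (fv ω (iv x)) n)) +
      100 * (n2 (D s φ) + (|ω * n| + ω * N) * n2 (S s φ)) *
        (n2 (chm (ω * N) a * (x (n - N)).2.1) + n2 (chm (ω * N) a * (x (n + N)).2.1)) +
      n2 (kap (ω * N) a * (x n).2.1) * n2 (S s φ) + ‖ex (x n).2.1 0‖ * ‖D s φ‖ := by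
    rw [e2]
    refine (norm_add_le _ _).trans ?_
    refine (add_le_add ((norm_sub_le _ _).trans (add_le_add ((norm_add_le _ _).trans
      (add_le_add ((norm_add_le _ _).trans (add_le_add (norm_sub_le _ _) le_rfl)) le_rfl))
      le_rfl)) h6).trans ?_
    have g2' : ‖bpJ ((Bf ω (ov ω x) (iv x) n).2 + (Bf ω (iv x) (ov ω x) n).2) (S s φ)‖ ≤
      100 * (∑' m : ℤ, ‖Top (ω * m) (x m).1.1‖ * n2 (x (n - m)).2.1) *
        (n2 (D s φ) + |ω * n| * n2 (S s φ)) := g2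
    have g4' : ‖bpJ (Bf ω (iv x) (pu ω N a) n).2 (S s φ)‖ ≤
      100 * (n2 (D s φ) + (|ω * n| + ω * N) * n2 (S s φ)) *
        (n2 (chm (ω * N) a * (x (n - N)).2.1) + n2 (chm (ω * N) a * (x (n + N)).2.1)) := g4
    linarith
  -- the semigroup
  have hq4 : 0 < q4 s := Real.sqrt_pos.2 (Real.sqrt_pos.2 hs0)
  have hs1 : 0 < √s := Real.sqrt_pos.2 hs0
  have hsle : √s ≤ 1 := Real.sqrt_le_one.2 hs.2
  have hr : 1 ≤ (√s)⁻¹ := (one_le_inv₀ hs1).2 hsle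
  have hq : 1 ≤ (q4 s)⁻¹ := (one_le_inv₀ hq4).2 (Real.sqrt_le_one.2 hsle)
  have hE : Real.exp (-((ω * n) ^ 2 * s)) =
      Real.exp (-((ω * n) ^ 2 * s / 2)) * Real.exp (-((ω * n) ^ 2 * s / 2)) := by
    rw [← Real.exp_add]
    congr 1
    ring
  have hE1 : Real.exp (-((ω * n) ^ 2 * s / 2)) ≤ 1 := by
    rw [Real.exp_le_one_iff]
    have : 0 ≤ (ω * n) ^ 2 * s / 2 := by positivity
    linarith
  have hω0 := hω.le
  have := voA_arith (E := Real.exp (-((ω * n) ^ 2 * s)))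
    (E2 := Real.exp (-((ω * n) ^ 2 * s / 2))) (κ := |ω * n|) (r := (√s)⁻¹) (q := (q4 s)⁻¹)
    (P := n2 φ) (S1 := ∑' m, n2 (x m).2.1 * n2 (x (n - m)).2.1)
    (S2 := ∑' m : ℤ, ‖Top (ω * m) (x m).1.1‖ * n2 (x (n - m)).2.1)
    (V0 := ‖ex (x n).2.1 0‖)
    (T := n2 (chm (ω * N) a * (x (n - N)).2.1) + n2 (chm (ω * N) a * (x (n + N)).2.1))
    (Kp := n2 (kap (ω * N) a * (x n).2.1)) (c := ω * N)
    (g := n1 (conv (fun m => (x m).1.1) (fw ω (iv x)) n) +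
        n1 (conv (fun m => (x m).1.1) (fv ω (iv x)) n))
    (nf := n2 (S s φ)) (nf1 := n2 (D s φ)) (sf := ‖S s φ‖) (sf1 := ‖D s φ‖)
    (Real.exp_pos _).le hE1 hE (abs_nonneg _) (kexp_le (ω * n) hs0) hr hq (n2_nonneg _)
    (tsum_nonneg fun m => mul_nonneg (n2_nonneg _) (n2_nonneg _))
    (tsum_nonneg fun m => mul_nonneg (norm_nonneg _) (n2_nonneg _)) (norm_nonneg _)
    (add_nonneg (n2_nonneg _) (n2_nonneg _)) (n2_nonneg _) (by positivity)
    (add_nonneg (n1_nonneg _) (n1_nonneg _)) (n2_nonneg _) (norm_nonneg _)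
    (sg_S2 hS hs0 φ) (sg_D2 hS hs0 φ) (sg_Ssup hS hs0 φ) (sg_Dsup hS hs0 φ)
  unfold vB
  refine (mul_le_mul_of_nonneg_left htot (Real.exp_pos _).le).trans ?_
  exact this

end

end Pool.Agent.Lib.MP_79abb3_an.FW
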