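import Pool.Agent.Lib.MP_79abb3_an.FW.SumsB
import Pool.Agent.Lib.MP_79abb3_an.FW.VoA

/-!
FW-23: sum over the modes (3.5).
-/

set_option autoImplicit false
set_option linter.unusedSectionVars false

open MeasureTheory Set Filter Topology Function

namespace Pool.Agent.Lib.MP_79abb3_an.FW

open Pool.Agent.Lib.MP_79abb3_an.P25

section
variable {H : ℝ} [hH : Fact (0 < H)]

/-- The bound after summation. -/
noncomputable def vT (ω : ℝ) (N : ℕ) (a s : ℝ) (x : ℤ → Xn H) : ℝ :=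
  (√s)⁻¹ * (q4 s)⁻¹ * (bt ω x + a + yy x ^ 2 + √(K0 (ω * N) a x)) +
  (√s)⁻¹ * (bt ω x + √(th2 x)) * yy x +
  (q4 s)⁻¹ * (ω * N * √(K0 (ω * N) a x) + √(K1 (ω * N) a x))

private theorem vo_sN (N : ℕ) (hN : 1 ≤ N) :
    (Summable fun n : ℤ => |sN N n|) ∧ ∑' n : ℤ, |sN N n| = 2 := by
  have h0 : ∀ n ∉ ({(N : ℤ), -(N : ℤ)} : Finset ℤ), |sN N n| = 0 := by
    intro n hn
    rw [Finset.mem_insert, Finset.mem_singleton, not_or] at hn
    unfold sN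
    rw [if_neg hn.1, if_neg hn.2, abs_zero]
  refine ⟨summable_of_ne_finset_zero h0, ?_⟩
  rw [tsum_eq_sum h0, Finset.sum_pair (by omega)]
  have h1 : sN N (N : ℤ) = 1 := by
    unfold sN
    rw [if_pos rfl]
  have h2 : sN N (-(N : ℤ)) = -1 := by
    unfold sN
    rw [if_neg (by omega), if_pos rfl]
  rw [h1, h2]
  norm_num

private theorem vo_cmp {f g : ℤ → ℝ} (h0 : ∀ n, 0 ≤ f n) (h1 : ∀ n, f n ≤ g n)
    (h2 : Summable g) : Summable f := Summable.of_nonneg_of_le h0 h1 h2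

private theorem vo_shift (F : ℤ → ℝ) (N : ℕ) (h : Summable F) :
    (Summable fun n : ℤ => F (n - N)) ∧ (∑' n : ℤ, F (n - N) = ∑' n, F n) ∧
      (Summable fun n : ℤ => F (n + N)) ∧ ∑' n : ℤ, F (n + N) = ∑' n, F n :=
  ⟨(Equiv.subRight (N : ℤ)).summable_iff.2 h, (Equiv.subRight (N : ℤ)).tsum_eq F,
    (Equiv.addRight (N : ℤ)).summable_iff.2 h, (Equiv.addRight (N : ℤ)).tsum_eq F⟩

private theorem vo_two {E f g k : ℤ → ℝ} {c A B C : ℝ} (hc : 0 ≤ c)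
    (u1 : Summable fun n => E n * f n) (u2 : Summable fun n => E n * g n)
    (u3 : Summable fun n => E n * k n) (v1 : ∑' n, E n * f n ≤ A) (v2 : ∑' n, E n * g n ≤ B)
    (v3 : ∑' n, E n * k n ≤ C) :
    (Summable fun n => E n * (c * (f n + g n) + k n)) ∧
      ∑' n, E n * (c * (f n + g n) + k n) ≤ c * (A + B) + C := by
  have e : (fun n => E n * (c * (f n + g n) + k n)) =
      fun n => c * (E n * f n + E n * g n) + E n * k n := by
    funext n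
    ring
  rw [e]
  refine ⟨((u1.add u2).mul_left c).add u3, ?_⟩
  rw [((u1.add u2).mul_left c).tsum_add u3, tsum_mul_left, u1.tsum_add u2]
  exact add_le_add (mul_le_mul_of_nonneg_left (add_le_add v1 v2) hc) v3

private theorem vo_four {E f g : ℤ → ℝ} {c A B : ℝ} (hc : 0 ≤ c)
    (u1 : Summable fun n => E n * f n) (u2 : Summable fun n => E n * g n)
    (v1 : ∑' n, E n * f n ≤ A) (v2 : ∑' n, E n * g n ≤ B) :
    (Summable fun n => c * (E n * (f n + g n))) ∧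
      ∑' n, c * (E n * (f n + g n)) ≤ c * (A + B) := by
  have e : (fun n => c * (E n * (f n + g n))) = fun n => c * (E n * f n + E n * g n) := by
    funext n
    ring
  rw [e]
  refine ⟨(u1.add u2).mul_left c, ?_⟩
  rw [tsum_mul_left, u1.tsum_add u2]
  exact mul_le_mul_of_nonneg_left (add_le_add v1 v2) hc

private theorem vo_nn {r q w a1 E oN a6 a7 a8 a3 a4 a5 : ℝ} (hr : 0 ≤ r) (hq : 0 ≤ q)
    (hw : 0 ≤ w) (h1 : 0 ≤ a1) (hE : 0 ≤ E) (hoN : 0 ≤ oN) (h6 : 0 ≤ a6) (h7 : 0 ≤ a7)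
    (h8 : 0 ≤ a8) (h3 : 0 ≤ a3) (h4 : 0 ≤ a4) (h5 : 0 ≤ a5) :
    0 ≤ r * q * (w + a1) + E * ((r + oN) * (a6 + a7) + a8) + r * a3 + q * (E * (a4 + a5)) := by
  positivity

private theorem vo_arith {r q bt a y K0 K1 th oN C : ℝ} (hr : 0 ≤ r) (hq : 0 ≤ q)
    (hbt : 0 ≤ bt) (ha : 0 ≤ a) (hy : 0 ≤ y) (hK0 : 0 ≤ K0) (hK1 : 0 ≤ K1) (hth : 0 ≤ th)
    (hoN : 0 ≤ oN) (hC : 0 ≤ C) :
    r * q * (bt + a + y ^ 2) + ((r + oN) * (C * q * K0 + C * q * K0) + C * q * K1) +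
      r * (bt * y) + r * (3 * C * (y * th)) ≤
    (1 + 3 * C) * (r * q * (bt + a + y ^ 2 + K0) + r * (bt + th) * y + q * (oN * K0 + K1)) := by
  have e : (1 + 3 * C) * (r * q * (bt + a + y ^ 2 + K0) + r * (bt + th) * y + q * (oN * K0 + K1)) =
      (r * q * (bt + a + y ^ 2) + ((r + oN) * (C * q * K0 + C * q * K0) + C * q * K1) +
      r * (bt * y) + r * (3 * C * (y * th))) + (3 * C * (r * q * (bt + a + y ^ 2)) +
      (1 + C) * (r * q * K0) + 3 * C * (r * bt * y) + r * th * y + (1 + C) * (q * oN * K0) +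
      (1 + 2 * C) * (q * K1)) := by ring
  rw [e]
  exact le_add_of_nonneg_right (by positivity)

private theorem vo_wall {ω : ℝ} {N : ℕ} {a : ℝ} (ha : 0 ≤ a) {x : L1 (Xn H)}
    (hx : ∀ n : ℤ, Cm (ω * n) (ex (pu ω N a n : Xn H).2.1 0) (x n)) (n : ℤ) :
    ‖ex (x n).2.1 0‖ ≤ ‖Top (ω * n) (x n).1.1‖ + a / 2 * |sN N n| := by
  have h0 : (0:ℝ) ∈ Icc (0:ℝ) H := ⟨le_rfl, hH.out.le⟩
  rw [(hx n).z2]
  refine (norm_sub_le _ _).trans ?_
  rw [norm_neg]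
  refine add_le_add (norm_ex_le _ _) (le_of_eq ?_)
  show ‖ex ((Complex.I * ((a / 2 * sN N n : ℝ) : ℂ)) • (fexp (ω * N) : CI H)) 0‖ = _
  rw [ex_smul, fexp, ex_rc _ _ h0, norm_mul, norm_mul, Complex.norm_I, one_mul,
    Complex.norm_real, Complex.norm_real, mul_zero, Real.exp_zero, norm_one, mul_one,
    Real.norm_eq_abs, abs_mul, abs_of_nonneg (by positivity)]

theorem vo_sum {ω : ℝ} (hω : 0 < ω) : ∃ C, 0 ≤ C ∧ ∀ {N : ℕ}, 1 ≤ N → ∀ {a : ℝ}, 0 ≤ a →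
    ∀ {x : L1 (Xn H)}, (∀ n : ℤ, Cm (ω * n) (ex (pu ω N a n : Xn H).2.1 0) (x n)) →
    ∀ {s : ℝ}, s ∈ Ioc (0:ℝ) 1 →
      (∀ n, 0 ≤ vB ω N a s x n) ∧ (Summable fun n => vB ω N a s x n) ∧
        ∑' n, vB ω N a s x n ≤ C * vT ω N a s x := by
  obtain ⟨Ch, hCh, hheat⟩ := heat_l2 hω
  refine ⟨1 + 3 * Ch, by positivity, ?_⟩
  intro N hN a ha x hx s hs
  have hs0 := hs.1
  have hss : 0 < √s := Real.sqrt_pos.2 hs0
  have hq : 0 < q4 s := Real.sqrt_pos.2 hss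
  have hqq : (q4 s)⁻¹ * (q4 s)⁻¹ = (√s)⁻¹ := by
    rw [← mul_inv]
    unfold q4
    rw [Real.mul_self_sqrt hss.le]
  have hfs := fun_summable x (ω * N) a 0 0 ω
  have sy : Summable fun n => n2 (x n).2.1 := hfs.1
  have sth : Summable fun n => n2 (x n).1.1 ^ 2 := hfs.2.1
  have sbt : Summable fun n : ℤ => ‖Top (ω * n) (x n).1.1‖ := hfs.2.2.2.1
  have sK0 : Summable fun n => n2 (chm (ω * N) a * (x n).2.1) ^ 2 := hfs.2.2.2.2.2.2.1
  have sK1 : Summable fun n => n2 (kap (ω * N) a * (x n).2.1) ^ 2 := hfs.2.2.2.2.2.2.2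
  have hy0 : 0 ≤ yy x := tsum_nonneg fun n => n2_nonneg _
  have hbt0 : 0 ≤ bt ω x := tsum_nonneg fun n => norm_nonneg _
  have hth0 : 0 ≤ th2 x := tsum_nonneg fun n => sq_nonneg _
  have hK00 : 0 ≤ K0 (ω * N) a x := tsum_nonneg fun n => sq_nonneg _
  have hK10 : 0 ≤ K1 (ω * N) a x := tsum_nonneg fun n => sq_nonneg _
  have hωN : 0 ≤ ω * N := mul_nonneg hω.le (Nat.cast_nonneg N)
  -- term 1
  obtain ⟨ssN, tsN⟩ := vo_sN N hN
  have sw : Summable fun n => ‖ex (x n).2.1 0‖ :=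
    Summable.of_nonneg_of_le (fun n => norm_nonneg _) (vo_wall ha hx)
      (sbt.add (ssN.mul_left (a / 2)))
  have tw : ∑' n, ‖ex (x n).2.1 0‖ ≤ bt ω x + a := by
    refine (sw.tsum_le_tsum (vo_wall ha hx) (sbt.add (ssN.mul_left (a / 2)))).trans (le_of_eq ?_)
    rw [sbt.tsum_add (ssN.mul_left (a / 2)), tsum_mul_left, tsN]
    unfold bt
    ring
  obtain ⟨-, sc1, tc1⟩ := young11 (fun n => n2_nonneg (x n).2.1) (fun n => n2_nonneg (x n).2.1) sy sy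
  obtain ⟨-, sc3, tc3⟩ := young11 (fun n : ℤ => norm_nonneg (Top (ω * n) (x n).1.1))
    (fun n => n2_nonneg (x n).2.1) sbt sy
  -- term 2
  obtain ⟨sh1', th1', sh2', th2'⟩ := vo_shift (fun n : ℤ => n2 (chm (ω * N) a * (x n).2.1) ^ 2) N sK0
  have sh1 : Summable fun n : ℤ => n2 (chm (ω * N) a * (x (n - N)).2.1) ^ 2 := sh1'
  have sh2 : Summable fun n : ℤ => n2 (chm (ω * N) a * (x (n + N)).2.1) ^ 2 := sh2'
  have th1 : ∑' n : ℤ, n2 (chm (ω * N) a * (x (n - N)).2.1) ^ 2 = K0 (ω * N) a x := th1'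
  have th2b : ∑' n : ℤ, n2 (chm (ω * N) a * (x (n + N)).2.1) ^ 2 = K0 (ω * N) a x := th2'
  obtain ⟨u1, v1⟩ := hheat s hs (fun n : ℤ => n2 (chm (ω * N) a * (x (n - N)).2.1))
    (fun n => n2_nonneg _) sh1
  obtain ⟨u2, v2⟩ := hheat s hs (fun n : ℤ => n2 (chm (ω * N) a * (x (n + N)).2.1))
    (fun n => n2_nonneg _) sh2
  obtain ⟨u3, v3⟩ := hheat s hs (fun n : ℤ => n2 (kap (ω * N) a * (x n).2.1))
    (fun n => n2_nonneg _) sK1
  rw [th1] at v1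
  rw [th2b] at v2
  have v3' : ∑' n : ℤ, Real.exp (-((ω * n) ^ 2 * s / 2)) * n2 (kap (ω * N) a * (x n).2.1) ≤
      Ch * (q4 s)⁻¹ * √(K1 (ω * N) a x) := v3
  -- term 4
  have sx : Summable fun n : ℤ => ‖x n‖ := l1_summable x
  have so : Summable fun n : ℤ => ‖(x n).1.1‖ :=
    vo_cmp (fun n => norm_nonneg ((x n).1.1))
      (fun n => (norm_fst_le (x n).1).trans (norm_fst_le (x n))) sx
  have sVn : Summable fun n : ℤ => ‖(x n).2.1‖ :=
    vo_cmp (fun n => norm_nonneg ((x n).2.1))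
      (fun n => (norm_fst_le (x n).2).trans (norm_snd_le (x n))) sx
  have hvb := fun n : ℤ => vel_bounds (ω := ω) (a := iv x) (fun _ => rfl) n
  have hfw1 : ∀ n : ℤ, ‖fw ω (iv x) n‖ ≤ ‖(x n).2.1‖ := fun n => (hvb n).1
  have hfw2 : ∀ n : ℤ, n2 (fw ω (iv x) n) ≤ n2 (x n).2.1 := fun n => (hvb n).2.1
  have hfv1 : ∀ n : ℤ, ‖fv ω (iv x) n‖ ≤ 2 * ‖(x n).2.1‖ := fun n => (hvb n).2.2.2.1
  have hfv2 : ∀ n : ℤ, n2 (fv ω (iv x) n) ≤ 2 * n2 (x n).2.1 := fun n => (hvb n).2.2.2.2.1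
  have sfw : Summable fun n => ‖fw ω (iv x) n‖ :=
    Summable.of_nonneg_of_le (fun n => norm_nonneg _) hfw1 sVn
  have sfv : Summable fun n => ‖fv ω (iv x) n‖ :=
    Summable.of_nonneg_of_le (fun n => norm_nonneg _) hfv1 (sVn.mul_left 2)
  have sfw2 : Summable fun n => n2 (fw ω (iv x) n) :=
    Summable.of_nonneg_of_le (fun n => n2_nonneg _) hfw2 sy
  have sfv2 : Summable fun n => n2 (fv ω (iv x) n) :=
    Summable.of_nonneg_of_le (fun n => n2_nonneg _) hfv2 (sy.mul_left 2)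
  have tfw2 : ∑' n, n2 (fw ω (iv x) n) ≤ yy x := sfw2.tsum_le_tsum hfw2 sy
  have tfv2 : ∑' n, n2 (fv ω (iv x) n) ≤ 2 * yy x := by
    refine (sfv2.tsum_le_tsum hfv2 (sy.mul_left 2)).trans (le_of_eq ?_)
    rw [tsum_mul_left]
    rfl
  have hn1 : ∀ (w : ℤ → CI H) (B : ℝ), (Summable fun n => ‖w n‖) → ∑' n, n2 (w n) ≤ B →
      (Summable fun n : ℤ => Real.exp (-((ω * n) ^ 2 * s / 2)) *
        n1 (conv (fun m => (x m).1.1) w n)) ∧
      ∑' n : ℤ, Real.exp (-((ω * n) ^ 2 * s / 2)) * n1 (conv (fun m => (x m).1.1) w n) ≤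
        Ch * (q4 s)⁻¹ * (B * √(th2 x)) := by
    intro w B sw' hB
    have hw0 : 0 ≤ ∑' n, n2 (w n) := tsum_nonneg fun n => n2_nonneg _
    have hB0 : 0 ≤ B := hw0.trans hB
    have e : ∀ n : ℤ, conv (fun m => (x m).1.1) w n = conv w (fun m => (x m).1.1) n :=
      fun n => conv_comm _ _ n
    simp only [e]
    obtain ⟨g1, g2⟩ := conv_n1l2 sw' so
    obtain ⟨g3, g4⟩ := hheat s hs (fun n => n1 (conv w (fun m => (x m).1.1) n))
      (fun n => n1_nonneg _) g1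
    refine ⟨g3, g4.trans ?_⟩
    refine mul_le_mul_of_nonneg_left ?_ (by positivity)
    refine Real.sqrt_le_iff.2 ⟨by positivity, g2.trans ?_⟩
    rw [mul_pow, Real.sq_sqrt hth0]
    exact mul_le_mul_of_nonneg_right (pow_le_pow_left₀ hw0 hB 2) hth0
  obtain ⟨u4, v4⟩ := hn1 (fw ω (iv x)) (yy x) sfw tfw2
  obtain ⟨u5, v5⟩ := hn1 (fv ω (iv x)) (2 * yy x) sfv tfv2
  -- the four parts
  have P1 : Summable fun n => (√s)⁻¹ * (q4 s)⁻¹ *
      (‖ex (x n).2.1 0‖ + ∑' m, n2 (x m).2.1 * n2 (x (n - m)).2.1) := (sw.add sc1).mul_left _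
  obtain ⟨P2, Q2⟩ := vo_two (E := fun n : ℤ => Real.exp (-((ω * n) ^ 2 * s / 2)))
    (f := fun n : ℤ => n2 (chm (ω * N) a * (x (n - N)).2.1))
    (g := fun n : ℤ => n2 (chm (ω * N) a * (x (n + N)).2.1))
    (k := fun n : ℤ => n2 (kap (ω * N) a * (x n).2.1)) (add_nonneg (inv_nonneg.2 hss.le) hωN)
    u1 u2 u3 v1 v2 v3'
  have P3 : Summable fun n : ℤ => (√s)⁻¹ *
      (∑' m : ℤ, ‖Top (ω * m) (x m).1.1‖ * n2 (x (n - m)).2.1) := sc3.mul_left _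
  obtain ⟨P4, Q4'⟩ := vo_four (E := fun n : ℤ => Real.exp (-((ω * n) ^ 2 * s / 2)))
    (f := fun n : ℤ => n1 (conv (fun m => (x m).1.1) (fw ω (iv x)) n))
    (g := fun n : ℤ => n1 (conv (fun m => (x m).1.1) (fv ω (iv x)) n)) (c := (q4 s)⁻¹)
    (inv_nonneg.2 hq.le) u4 u5 v4 v5
  have Q4 : ∑' n : ℤ, (q4 s)⁻¹ * (Real.exp (-((ω * n) ^ 2 * s / 2)) *
      (n1 (conv (fun m => (x m).1.1) (fw ω (iv x)) n) +
        n1 (conv (fun m => (x m).1.1) (fv ω (iv x)) n))) ≤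
      (√s)⁻¹ * (3 * Ch * (yy x * √(th2 x))) := by
    refine Q4'.trans (le_of_eq ?_)
    rw [← hqq]
    ring
  have hS : Summable fun n => vB ω N a s x n := ((P1.add P2).add P3).add P4
  refine ⟨fun n => ?_, hS, ?_⟩
  · have a1 : 0 ≤ ∑' m, n2 (x m).2.1 * n2 (x (n - m)).2.1 :=
      tsum_nonneg fun m => mul_nonneg (n2_nonneg _) (n2_nonneg _)
    have a3 : 0 ≤ ∑' m : ℤ, ‖Top (ω * m) (x m).1.1‖ * n2 (x (n - m)).2.1 :=
      tsum_nonneg fun m => mul_nonneg (norm_nonneg _) (n2_nonneg _)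
    have a4 := n1_nonneg (conv (fun m => (x m).1.1) (fw ω (iv x)) n)
    have a5 := n1_nonneg (conv (fun m => (x m).1.1) (fv ω (iv x)) n)
    have a6 := n2_nonneg (chm (ω * N) a * (x (n - N)).2.1)
    have a7 := n2_nonneg (chm (ω * N) a * (x (n + N)).2.1)
    have a8 := n2_nonneg (kap (ω * N) a * (x n).2.1)
    unfold vB
    exact vo_nn (inv_nonneg.2 hss.le) (inv_nonneg.2 hq.le) (norm_nonneg _) a1
      (Real.exp_pos _).le hωN a6 a7 a8 a3 a4 a5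
  · have hsum : ∑' n, vB ω N a s x n =
        (√s)⁻¹ * (q4 s)⁻¹ * (∑' n, ‖ex (x n).2.1 0‖ + yy x * yy x) +
        (∑' n : ℤ, Real.exp (-((ω * n) ^ 2 * s / 2)) * (((√s)⁻¹ + ω * N) *
      (n2 (chm (ω * N) a * (x (n - N)).2.1) + n2 (chm (ω * N) a * (x (n + N)).2.1)) +
        n2 (kap (ω * N) a * (x n).2.1))) + (√s)⁻¹ * (bt ω x * yy x) +
        ∑' n : ℤ, (q4 s)⁻¹ * (Real.exp (-((ω * n) ^ 2 * s / 2)) *
      (n1 (conv (fun m => (x m).1.1) (fw ω (iv x)) n) +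
        n1 (conv (fun m => (x m).1.1) (fv ω (iv x)) n))) := by
      have e0 : ∑' n, vB ω N a s x n = _ := ((P1.add P2).add P3).tsum_add P4
      rw [e0, (P1.add P2).tsum_add P3, P1.tsum_add P2]
      congr 1
      congr 1
      · congr 1
        rw [tsum_mul_left, sw.tsum_add sc1, tc1]
        rfl
      · rw [tsum_mul_left, tc3]
        rfl
    rw [hsum]
    have hsi : 0 ≤ (√s)⁻¹ := inv_nonneg.2 hss.le
    have hqi : 0 ≤ (q4 s)⁻¹ := inv_nonneg.2 hq.le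
    have R1 : (√s)⁻¹ * (q4 s)⁻¹ * (∑' n, ‖ex (x n).2.1 0‖ + yy x * yy x) ≤
        (√s)⁻¹ * (q4 s)⁻¹ * (bt ω x + a + yy x ^ 2) := by
      rw [sq]
      exact mul_le_mul_of_nonneg_left (add_le_add tw le_rfl) (mul_nonneg hsi hqi)
    refine (add_le_add (add_le_add (add_le_add R1 Q2) le_rfl) Q4).trans ?_
    exact vo_arith hsi hqi hbt0 ha hy0 (Real.sqrt_nonneg (K0 (ω * N) a x))
      (Real.sqrt_nonneg (K1 (ω * N) a x)) (Real.sqrt_nonneg (th2 x)) hωN hCh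

end

end Pool.Agent.Lib.MP_79abb3_an.FW
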