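import Pool.Agent.Lib.MP_79abb3_an.FW.VelC
import Pool.Agent.Lib.MP_79abb3_an.P25.WeakModes

/-!
FW-63a: harmonic pressure gradients pair to zero.
-/

set_option autoImplicit false
set_option linter.unusedSectionVars false

open MeasureTheory Set Filter Topology Function

namespace Pool.Agent.Lib.MP_79abb3_an.FW

open Pool.Agent.Lib.MP_79abb3_an.P25

section
variable {H : ℝ} [hH : Fact (0 < H)]

/-- Multiplication of a test function by `y`. -/
private theorem wka_T {T : ℝ} {Ψ : ℝ × ℝ × ℝ → ℝ} (h : IsT3 T H Ψ) :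
    IsT3 T H (fun q => q.2.1 * Ψ q) where
  smooth := (contDiff_fst.comp contDiff_snd).mul h.smooth
  cpt := h.cpt.mul_left (f := fun q : ℝ × ℝ × ℝ => q.2.1)
  supp := (tsupport_mul_subset_right (f := fun q : ℝ × ℝ × ℝ => q.2.1)).trans h.supp

private theorem wka_d {T : ℝ} {Ψ : ℝ × ℝ × ℝ → ℝ} (h : IsT3 T H Ψ) (q v : ℝ × ℝ × ℝ) :
    fderiv ℝ (fun q => q.2.1 * Ψ q) q v = q.2.1 * fderiv ℝ Ψ q v + v.2.1 * Ψ q := by
  have hd : DifferentiableAt ℝ Ψ q :=
    (h.smooth.differentiable (by simp)) q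
  have h1 : HasFDerivAt (fun q : ℝ × ℝ × ℝ => q.2.1)
      ((ContinuousLinearMap.fst ℝ ℝ ℝ).comp (ContinuousLinearMap.snd ℝ ℝ (ℝ × ℝ))) q :=
    ((ContinuousLinearMap.fst ℝ ℝ ℝ).comp
      (ContinuousLinearMap.snd ℝ ℝ (ℝ × ℝ))).hasFDerivAt
  have h2 : HasFDerivAt (fun q : ℝ × ℝ × ℝ => q.2.1 * Ψ q)
      (q.2.1 • fderiv ℝ Ψ q + Ψ q • ((ContinuousLinearMap.fst ℝ ℝ ℝ).comp
        (ContinuousLinearMap.snd ℝ ℝ (ℝ × ℝ)))) q := h1.mul hd.hasFDerivAt
  rw [h2.fderiv]
  simp only [ContinuousLinearMap.add_apply, ContinuousLinearMap.smul_apply,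
    ContinuousLinearMap.comp_apply, ContinuousLinearMap.coe_fst', ContinuousLinearMap.coe_snd',
    smul_eq_mul]
  ring

/-- Harmonic pressure gradients pair to zero with divergence free fields. -/
theorem harm_pair {T : ℝ} {Φ₂ Φ₃ : ℝ × ℝ × ℝ → ℝ} (h2 : IsT3 T H Φ₂) (h3 : IsT3 T H Φ₃)
    (hdiv : ∀ q, py Φ₂ q + pz Φ₃ q = 0) {ω : ℝ} (hω : 0 < ω) (n : ℤ) (t : ℝ) :
    ∫ z in (0:ℝ)..H, ex (fexp |ω * n| : CI H) z * (hat ω Φ₂ n t z - is (ω * n) * hat ω Φ₃ n t z) = 0 := by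
  have hH0 := hH.out
  by_cases hn : n = 0
  · subst hn
    have e0 : ω * ((0:ℤ) : ℝ) = 0 := by simp
    have e1 : ∀ z ∈ uIcc (0:ℝ) H, ex (fexp |ω * ((0:ℤ) : ℝ)| : CI H) z *
        (hat ω Φ₂ 0 t z - is (ω * ((0:ℤ) : ℝ)) * hat ω Φ₃ 0 t z) = hat ω Φ₂ 0 t z := by
      intro z hz
      rw [uIcc_of_le hH0.le] at hz
      rw [fexp, ex_rc _ _ hz, e0, is_zero, abs_zero, zero_mul, Real.exp_zero]
      simp
    rw [intervalIntegral.integral_congr e1]
    have h2' := wka_T h2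
    have h3' := wka_T h3
    have hder : ∀ z, HasDerivAt (fun z => hat ω (fun q => q.2.1 * Φ₃ q) 0 t z)
        (hat ω Φ₂ 0 t z) z := by
      intro z
      have h4 := h3'.hat_z ω 0 t z
      have h5 : hat ω (pz fun q => q.2.1 * Φ₃ q) 0 t z = hat ω Φ₂ 0 t z := by
        have h6 : hat ω (pz fun q => q.2.1 * Φ₃ q) 0 t z =
            hat ω Φ₂ 0 t z - hat ω (py fun q => q.2.1 * Φ₂ q) 0 t z := by
          unfold hat
          rw [← integral_sub (h2.wm_slice ω 0 t z) (h2'.d_y.wm_slice ω 0 t z)]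
          refine integral_congr_ae (ae_of_all _ fun y => ?_)
          have h7 : pz (fun q => q.2.1 * Φ₃ q) (t, y, z) =
              Φ₂ (t, y, z) - py (fun q => q.2.1 * Φ₂ q) (t, y, z) := by
            unfold pz py
            rw [wka_d h3, wka_d h2]
            have h8 := hdiv (t, y, z)
            unfold pz py at h8
            simp only
            linear_combination y * h8
          simp only [h7]
          push_cast
          ring
        rw [h6, h2'.hat_y]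
        simp
      rw [h5] at h4
      exact h4
    rw [intervalIntegral.integral_eq_sub_of_hasDerivAt (fun z _ => hder z)
      ((h2.wm_hat_cz ω 0 t).intervalIntegrable _ _),
      h3'.wm_hat_zero (fun h => lt_irrefl _ h.2) ω 0 t,
      h3'.wm_hat_zero (fun h => lt_irrefl _ h.1) ω 0 t, sub_zero]
  · have hk : ω * (n : ℝ) ≠ 0 := mul_ne_zero hω.ne' (by exact_mod_cast hn)
    set k : ℝ := ω * (n : ℝ) with hkdef
    have c2 := h2.wm_hat_cz ω n t
    have c3 := h3.wm_hat_cz ω n t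
    have hder : ∀ z, HasDerivAt (fun z => ((Real.exp (|k| * z) : ℝ) : ℂ) * hat ω Φ₃ n t z)
        (((|k| * Real.exp (|k| * z) : ℝ) : ℂ) * hat ω Φ₃ n t z +
          ((Real.exp (|k| * z) : ℝ) : ℂ) * (Complex.I * ((k : ℝ) : ℂ) * hat ω Φ₂ n t z)) z :=
      fun z => (hasDerivAt_cexp |k| z).mul (wm_hat_div h2 h3 hdiv ω n t z)
    have ce : Continuous fun z : ℝ => ((Real.exp (|k| * z) : ℝ) : ℂ) := by fun_prop
    have ce' : Continuous fun z : ℝ => ((|k| * Real.exp (|k| * z) : ℝ) : ℂ) := by fun_prop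
    have h4 : ∫ z in (0:ℝ)..H, (((|k| * Real.exp (|k| * z) : ℝ) : ℂ) * hat ω Φ₃ n t z +
          ((Real.exp (|k| * z) : ℝ) : ℂ) * (Complex.I * ((k : ℝ) : ℂ) * hat ω Φ₂ n t z)) = 0 := by
      rw [intervalIntegral.integral_eq_sub_of_hasDerivAt (fun z _ => hder z)
        (((ce'.mul c3).add (ce.mul (continuous_const.mul c2))).intervalIntegrable _ _),
        h3.wm_hat_zero (fun h => lt_irrefl _ h.2) ω n t,
        h3.wm_hat_zero (fun h => lt_irrefl _ h.1) ω n t, mul_zero, mul_zero, sub_zero]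
    have hIk : Complex.I * ((k : ℝ) : ℂ) ≠ 0 :=
      mul_ne_zero Complex.I_ne_zero (by exact_mod_cast hk)
    have his : Complex.I * ((k : ℝ) : ℂ) * is k = -((|k| : ℝ) : ℂ) := by
      rw [← fld_is_mul_abs]
      have := is_sq_mul k
      linear_combination this
    have h5 : Complex.I * ((k : ℝ) : ℂ) * ∫ z in (0:ℝ)..H, ex (fexp |k| : CI H) z *
        (hat ω Φ₂ n t z - is k * hat ω Φ₃ n t z) = 0 := by
      rw [← intervalIntegral.integral_const_mul, ← h4]
      refine intervalIntegral.integral_congr fun z hz => ?_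
      rw [uIcc_of_le hH0.le] at hz
      have h6 : ex (fexp |k| : CI H) z = ((Real.exp (|k| * z) : ℝ) : ℂ) := ex_rc _ _ hz
      simp only [h6]
      push_cast
      linear_combination (-(Complex.exp ((|k| : ℝ) * (z : ℂ)) * hat ω Φ₃ n t z)) * his
    rcases mul_eq_zero.1 h5 with h6 | h6
    · exact absurd h6 hIk
    · exact h6

end

end Pool.Agent.Lib.MP_79abb3_an.FW
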