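import Pool.Agent.Lib.MP_79abb3_an.FW.SGb

/-!
FW-56a: smoothing from `L²`.
-/

set_option autoImplicit false
set_option linter.unusedSectionVars false

open MeasureTheory Set Filter Topology Function

namespace Pool.Agent.Lib.MP_79abb3_an.FW

open Pool.Agent.Lib.MP_79abb3_an.P25

section
variable {H : ℝ} [hH : Fact (0 < H)]

/-- Smoothing from `L²`. -/
theorem Tn_n2 {S D A : ℝ → (CI H →L[ℂ] CI H)} (hS : DirSG H S D A) (k : ℝ) {s : ℝ}
    (hs : s ∈ Ioc (0:ℝ) 1) (y : Yn H) :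
    ‖Tn S D k s y‖ ≤ 4 * ((√s)⁻¹ * (q4 s)⁻¹) * (n2 y.1 + n2 y.2) := by
  have hs0 : 0 < s := hs.1
  have hsq : 0 < √s := Real.sqrt_pos.2 hs0
  have hq : 0 < q4 s := Real.sqrt_pos.2 hsq
  have hsq1 : √s ≤ 1 := by
    rw [← Real.sqrt_one]
    exact Real.sqrt_le_sqrt hs.2
  have hi : 1 ≤ (√s)⁻¹ := (one_le_inv₀ hsq).2 hsq1
  set c : ℝ := (√s)⁻¹ * (q4 s)⁻¹ with hc
  have hc0 : 0 ≤ c := by positivity
  set e : ℝ := Real.exp (-k ^ 2 * s) with he
  have he0 : 0 ≤ e := (Real.exp_pos _).le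
  have he1 : e ≤ 1 := by
    rw [he, ← Real.exp_zero]
    exact Real.exp_le_exp.2 (by have : 0 ≤ k ^ 2 * s := by positivity
                                linarith)
  have hk : e * |k| ≤ (√s)⁻¹ := exp_sq_le k hs0
  have key : ∀ f : CI H, ‖e • S s f‖ ≤ 4 * c * n2 f ∧ ‖e • D s f‖ ≤ 4 * c * n2 f ∧
      ‖e • (|k| • S s f)‖ ≤ 4 * c * n2 f := by
    intro f
    have h1 := sg_Ssup hS hs0 f
    have h2 := sg_Dsup hS hs0 f
    have hf := n2_nonneg f
    have hr0 : 0 ≤ (q4 s)⁻¹ := by positivity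
    have hrc : (q4 s)⁻¹ ≤ c := by
      rw [hc]
      exact le_mul_of_one_le_left hr0 hi
    refine ⟨?_, ?_, ?_⟩
    · rw [norm_smul, Real.norm_eq_abs, abs_of_nonneg he0]
      calc e * ‖S s f‖ ≤ 1 * ‖S s f‖ := mul_le_mul_of_nonneg_right he1 (norm_nonneg _)
        _ ≤ 2 * (q4 s)⁻¹ * n2 f := by rw [one_mul]; exact h1
        _ ≤ 4 * c * n2 f := by
            refine mul_le_mul_of_nonneg_right ?_ hf
            linarith
    · rw [norm_smul, Real.norm_eq_abs, abs_of_nonneg he0]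
      calc e * ‖D s f‖ ≤ 1 * ‖D s f‖ := mul_le_mul_of_nonneg_right he1 (norm_nonneg _)
        _ ≤ _ := by rw [one_mul]; exact h2
    · rw [norm_smul, norm_smul, Real.norm_eq_abs, Real.norm_eq_abs, abs_abs,
        abs_of_nonneg he0, ← mul_assoc]
      calc e * |k| * ‖S s f‖ ≤ (√s)⁻¹ * (2 * (q4 s)⁻¹ * n2 f) :=
            mul_le_mul hk h1 (norm_nonneg _) (by positivity)
        _ = 2 * c * n2 f := by rw [hc]; ring
        _ ≤ 4 * c * n2 f := by
            refine mul_le_mul_of_nonneg_right ?_ hf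
            linarith
  have h1 := key y.1
  have h2 := key y.2
  have n1' := n2_nonneg y.1
  have n2' := n2_nonneg y.2
  have hb1 : 4 * c * n2 y.1 ≤ 4 * c * (n2 y.1 + n2 y.2) :=
    mul_le_mul_of_nonneg_left (by linarith) (by positivity)
  have hb2 : 4 * c * n2 y.2 ≤ 4 * c * (n2 y.1 + n2 y.2) :=
    mul_le_mul_of_nonneg_left (by linarith) (by positivity)
  show ‖e • (((S s y.1, D s y.1, |k| • S s y.1), (S s y.2, D s y.2, |k| • S s y.2)) : Xn H)‖ ≤ _
  exact max_le (max_le (h1.1.trans hb1) (max_le (h1.2.1.trans hb1) (h1.2.2.trans hb1)))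
    (max_le (h2.1.trans hb2) (max_le (h2.2.1.trans hb2) (h2.2.2.trans hb2)))

end

end Pool.Agent.Lib.MP_79abb3_an.FW
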